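import Pool.Agent.Lib.MP_0a1ca9_gt.Coord

/-! Components of the superlevel sets of a function on vertical lines. -/

open MeasureTheory Set Filter Topology
open scoped ENNReal

namespace Pool.Agent.Lib.MP_0a1ca9_gt.Cd

variable {k : ℕ}

/-- A positive continuous function that takes small values far out on vertical lines. -/
structure Dec (H : V k × ℝ → ℝ) : Prop where
  cont : Continuous H
  pos : ∀ p, 0 < H p
  small : ∀ (a : V k) (t z : ℝ), 0 < t → ∃ y, z ≤ y ∧ H (a, y) ≤ t ∧ H (a, -y) ≤ t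

theorem Dec.flip {H : V k × ℝ → ℝ} (h : Dec H) : Dec fun p => H (p.1, -p.2) where
  cont := h.cont.comp (by fun_prop)
  pos := fun _ => h.pos _
  small := fun a t z ht => by
    obtain ⟨y, h1, h2, h3⟩ := h.small a t z ht
    exact ⟨y, h1, h3, by simpa using h2⟩

/-- The upper end of the component of `z` in `{H (a, ·) > t}`, where `ω = (a, t, z)`. -/
noncomputable def bt (H : V k × ℝ → ℝ) (ω : V k × ℝ × ℝ) : ℝ :=
  sInf {y | ω.2.2 ≤ y ∧ H (ω.1, y) ≤ ω.2.1}

/-- The lower end of the component. -/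
noncomputable def al (H : V k × ℝ → ℝ) (ω : V k × ℝ × ℝ) : ℝ :=
  -bt (fun p => H (p.1, -p.2)) (ω.1, ω.2.1, -ω.2.2)

variable {H : V k × ℝ → ℝ}

theorem Dec.bt_spec (h : Dec H) (a : V k) (z : ℝ) {t : ℝ} (ht : 0 < t) :
    z ≤ bt H (a, t, z) ∧ H (a, bt H (a, t, z)) ≤ t ∧
      ∀ y, z ≤ y → y < bt H (a, t, z) → t < H (a, y) := by
  have hc := h.cont
  have hb : BddBelow {y | z ≤ y ∧ H (a, y) ≤ t} := ⟨z, fun y hy => hy.1⟩
  have hcl : IsClosed {y | z ≤ y ∧ H (a, y) ≤ t} := by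
    refine IsClosed.and (isClosed_le ?_ ?_) (isClosed_le ?_ ?_) <;> fun_prop
  obtain ⟨y, h1, h2, -⟩ := h.small a t z ht
  have := hcl.csInf_mem ⟨y, h1, h2⟩ hb
  exact ⟨this.1, this.2, fun y h1 h2 => not_le.1 fun h3 => not_le.2 h2 (csInf_le hb ⟨h1, h3⟩)⟩

theorem bt_eq {a : V k} {t z b : ℝ} (h1 : z ≤ b) (h2 : H (a, b) ≤ t)
    (h3 : ∀ y, z ≤ y → y < b → t < H (a, y)) : bt H (a, t, z) = b :=
  IsLeast.csInf_eq ⟨⟨h1, h2⟩, fun y hy => not_lt.1 fun h => not_le.2 (h3 y hy.1 h) hy.2⟩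

theorem Dec.bt_spec' (h : Dec H) {a : V k} {t z : ℝ} (ht : 0 < t) (hz : t < H (a, z)) :
    z < bt H (a, t, z) ∧ H (a, bt H (a, t, z)) = t := by
  obtain ⟨h1, h2, h3⟩ := h.bt_spec a z ht
  have hc := h.cont
  have h4 : z < bt H (a, t, z) := lt_of_le_of_ne h1 fun e => not_le.2 hz (e ▸ h2)
  refine ⟨h4, le_antisymm h2 ?_⟩
  have hcl : IsClosed {y | t ≤ H (a, y)} := isClosed_le continuous_const (by fun_prop)
  have h5 := closure_minimal (s := Ico z (bt H (a, t, z))) (fun y hy => (h3 y hy.1 hy.2).le) hcl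
  rw [closure_Ico h4.ne] at h5
  exact h5 ⟨h1, le_rfl⟩

theorem Dec.measurable_bt (h : Dec H) : Measurable (bt H) := by
  have hc := h.cont
  refine measurable_of_Ioi fun b => ?_
  have ho : IsOpen {ω : V k × ℝ × ℝ | ∀ θ ∈ Icc (0 : ℝ) 1,
      ω.2.1 < H (ω.1, ω.2.2 + θ * (b - ω.2.2))} := by
    rw [isOpen_iff_eventually]
    intro ω hω
    refine isCompact_Icc.eventually_forall_of_forall_eventually fun θ hθ => ?_
    exact (isOpen_lt (f := fun p : (V k × ℝ × ℝ) × ℝ => p.1.2.1)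
      (g := fun p : (V k × ℝ × ℝ) × ℝ => H (p.1.1, p.1.2.2 + p.2 * (b - p.1.2.2)))
      (by fun_prop) (by fun_prop)).mem_nhds (hω θ hθ)
  have : bt H ⁻¹' Ioi b = ({ω : V k × ℝ × ℝ | 0 < ω.2.1} ∩ ({ω | b < ω.2.2} ∪
      {ω | ∀ θ ∈ Icc (0 : ℝ) 1, ω.2.1 < H (ω.1, ω.2.2 + θ * (b - ω.2.2))})) ∪
      ({ω | ω.2.1 ≤ 0} ∩ {_ω | b < 0}) := by
    ext ⟨a, t, z⟩
    simp only [mem_preimage, mem_Ioi, mem_union, mem_inter_iff, mem_ofPred_eq]
    rcases lt_or_ge 0 t with ht | ht
    · obtain ⟨h1, h2, h3⟩ := h.bt_spec a z ht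
      simp only [ht, true_and, not_le.2 ht, false_and, or_false]
      rcases lt_or_ge b z with hb | hb
      · exact ⟨fun _ => Or.inl hb, fun _ => hb.trans_le h1⟩
      · simp only [not_lt.2 hb, false_or]
        constructor
        · intro h4 θ hθ
          exact h3 _ (by nlinarith [hθ.1]) (by nlinarith [hθ.2])
        · intro h4
          by_contra h5
          have h6 : bt H (a, t, z) ∈ segment ℝ z b := by
            rw [segment_eq_Icc hb]; exact ⟨h1, not_lt.1 h5⟩
          rw [segment_eq_image'] at h6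
          obtain ⟨θ, hθ, e⟩ := h6
          have := h4 θ hθ
          simp only [smul_eq_mul] at e
          rw [e] at this
          exact not_le.2 this h2
    · have : bt H (a, t, z) = 0 := by
        rw [bt, eq_empty_of_forall_notMem (s := {y | _ ≤ y ∧ H (_, y) ≤ _})
          fun y hy => not_le.2 (h.pos _) (hy.2.trans ht), Real.sInf_empty]
      simp [this, ht, not_lt.2 ht]
  rw [this]
  exact ((measurableSet_lt measurable_const (by fun_prop)).inter
    ((measurableSet_lt measurable_const (by fun_prop)).union ho.measurableSet)).union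
    ((measurableSet_le (by fun_prop) measurable_const).inter (MeasurableSet.const _))

theorem Dec.measurable_al (h : Dec H) : Measurable (al H) :=
  (h.flip.measurable_bt.comp (by fun_prop)).neg

theorem Dec.comp (h : Dec H) {a : V k} {t z : ℝ} (ht : 0 < t) (hz : t < H (a, z)) :
    al H (a, t, z) < z ∧ z < bt H (a, t, z) ∧ H (a, al H (a, t, z)) = t ∧
      H (a, bt H (a, t, z)) = t ∧ ∀ y, al H (a, t, z) < y → y < bt H (a, t, z) →
        t < H (a, y) ∧ al H (a, t, y) = al H (a, t, z) ∧ bt H (a, t, y) = bt H (a, t, z) := by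
  obtain ⟨h1, h2⟩ := h.bt_spec' ht hz
  obtain ⟨h3, h4⟩ := h.flip.bt_spec' (a := a) (z := -z) ht (by simpa using hz)
  have h5 := (h.bt_spec a z ht).2.2
  have h6 := (h.flip.bt_spec a (-z) ht).2.2
  have h7 : ∀ y, al H (a, t, z) < y → y < bt H (a, t, z) → t < H (a, y) := by
    intro y hy hy'
    rcases le_total z y with h8 | h8
    · exact h5 y h8 hy'
    · simpa using h6 (-y) (neg_le_neg h8) (neg_lt.1 hy)
  refine ⟨neg_lt.2 h3, h1, h4, h2, fun y hy hy' => ⟨h7 y hy hy', ?_, ?_⟩⟩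
  · refine neg_inj.2 (bt_eq (neg_lt.1 hy).le h4.le fun x hx hx' => ?_)
    exact h7 (-x) (neg_lt_neg hx') ((neg_le.1 hx).trans_lt hy')
  · exact bt_eq hy'.le h2.le fun x hx hx' => h7 x (hy.trans_le hx) hx'

/-- The density of the measure on components. -/
noncomputable def dens (H : V k × ℝ → ℝ) (ω : V k × ℝ × ℝ) : ℝ :=
  {ω : V k × ℝ × ℝ | 0 < ω.2.1 ∧ ω.2.1 < H (ω.1, ω.2.2)}.indicator (fun ω => (bt H ω - al H ω)⁻¹) ω

/-- The measure on components. -/
noncomputable def cmu (H : V k × ℝ → ℝ) : Measure (V k × ℝ × ℝ) :=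
  volume.withDensity fun ω => ENNReal.ofReal (dens H ω)

instance (H : V k × ℝ → ℝ) : SigmaFinite (cmu H) := SigmaFinite.withDensity_ofReal _

theorem Dec.isOpen_good (h : Dec H) :
    IsOpen {ω : V k × ℝ × ℝ | 0 < ω.2.1 ∧ ω.2.1 < H (ω.1, ω.2.2)} := by
  have hc := h.cont
  refine IsOpen.and (isOpen_lt ?_ ?_) (isOpen_lt ?_ ?_) <;> fun_prop

theorem Dec.measurable_dens (h : Dec H) : Measurable (dens H) :=
  (h.measurable_bt.sub h.measurable_al).inv.indicator h.isOpen_good.measurableSet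

theorem Dec.ae_cmu (h : Dec H) {P : V k × ℝ × ℝ → Prop} :
    (∀ᵐ ω ∂cmu H, P ω) ↔ ∀ᵐ ω : V k × ℝ × ℝ, 0 < ω.2.1 → ω.2.1 < H (ω.1, ω.2.2) → P ω := by
  rw [cmu, ae_withDensity_iff h.measurable_dens.ennreal_ofReal]
  refine eventually_congr (Eventually.of_forall fun ⟨a, t, z⟩ => ?_)
  by_cases hg : 0 < t ∧ t < H (a, z)
  · obtain ⟨h1, h2, -⟩ := h.comp hg.1 hg.2
    have : ENNReal.ofReal (dens H (a, t, z)) ≠ 0 := by
      rw [dens, indicator_of_mem (by exact hg)]
      exact (ENNReal.ofReal_pos.2 (inv_pos.2 (sub_pos.2 (h1.trans h2)))).ne'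
    simp [this, hg.1, hg.2]
  · have : ENNReal.ofReal (dens H (a, t, z)) = 0 := by
      rw [dens, indicator_of_notMem (by exact hg), ENNReal.ofReal_zero]
    simp only [this, ne_eq, not_true, false_imp_iff, true_iff]
    exact fun h1 h2 => absurd ⟨h1, h2⟩ hg

theorem Dec.lintegral_dens (h : Dec H) {a : V k} {t y : ℝ} (hy : t ≠ H (a, y)) :
    ∫⁻ z, ENNReal.ofReal (dens H (a, t, z)) *
      {z | al H (a, t, z) ≤ y ∧ y ≤ bt H (a, t, z)}.indicator 1 z =
      (Ioo 0 (H (a, y))).indicator 1 t := by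
  by_cases hg : t ∈ Ioo 0 (H (a, y))
  · obtain ⟨h1, h2, -, -, h3⟩ := h.comp hg.1 hg.2
    have hl : 0 < bt H (a, t, y) - al H (a, t, y) := sub_pos.2 (h1.trans h2)
    have : ∀ z, ENNReal.ofReal (dens H (a, t, z)) *
        {z | al H (a, t, z) ≤ y ∧ y ≤ bt H (a, t, z)}.indicator 1 z =
        (Ioo (al H (a, t, y)) (bt H (a, t, y))).indicator
          (fun _ => ENNReal.ofReal (bt H (a, t, y) - al H (a, t, y))⁻¹) z := by
      intro z
      by_cases hz : z ∈ Ioo (al H (a, t, y)) (bt H (a, t, y))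
      · obtain ⟨h4, h5, h6⟩ := h3 z hz.1 hz.2
        rw [indicator_of_mem hz, dens, indicator_of_mem (by exact ⟨hg.1, h4⟩), h5, h6,
          indicator_of_mem (by exact ⟨h5 ▸ h1.le, h6 ▸ h2.le⟩), Pi.one_apply, mul_one]
      · rw [indicator_of_notMem hz]
        by_cases hz' : t < H (a, z)
        · obtain ⟨k1, k2, k3, k4, k5⟩ := h.comp hg.1 hz'
          rw [indicator_of_notMem, mul_zero]
          rintro ⟨k6, k7⟩
          obtain ⟨-, k8, k9⟩ := k5 y (lt_of_le_of_ne k6 fun e => hy (by rw [← e, k3]))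
            (lt_of_le_of_ne k7 fun e => hy (by rw [e, k4]))
          exact hz ⟨k8 ▸ k1, k9 ▸ k2⟩
        · rw [dens, indicator_of_notMem (fun h => hz' h.2), ENNReal.ofReal_zero, zero_mul]
    rw [lintegral_congr this, lintegral_indicator_const measurableSet_Ioo, Real.volume_Ioo,
      ← ENNReal.ofReal_mul (by positivity), inv_mul_cancel₀ hl.ne', indicator_of_mem hg]
    simp
  · rw [indicator_of_notMem hg]
    refine lintegral_eq_zero_of_ae_eq_zero (ae_of_all _ fun z => ?_)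
    by_cases hz' : 0 < t ∧ t < H (a, z)
    · obtain ⟨k1, k2, k3, k4, k5⟩ := h.comp hz'.1 hz'.2
      simp only [Pi.zero_apply]
      rw [indicator_of_notMem, mul_zero]
      rintro ⟨k6, k7⟩
      exact hg ⟨hz'.1, (k5 y (lt_of_le_of_ne k6 fun e => hy (by rw [← e, k3]))
        (lt_of_le_of_ne k7 fun e => hy (by rw [e, k4]))).1⟩
    · simp only [Pi.zero_apply]
      rw [dens, indicator_of_notMem (by exact hz'), ENNReal.ofReal_zero, zero_mul]

/-- The components that meet the graph of `y`. -/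
theorem Dec.cmu_meet (h : Dec H) {y : V k → ℝ} (hy : Measurable y) :
    cmu H {ω | al H ω ≤ y ω.1 ∧ y ω.1 ≤ bt H ω} = ∫⁻ a, ENNReal.ofReal (H (a, y a)) := by
  have hS : MeasurableSet {ω : V k × ℝ × ℝ | al H ω ≤ y ω.1 ∧ y ω.1 ≤ bt H ω} :=
    (measurableSet_le h.measurable_al (hy.comp measurable_fst)).inter
      (measurableSet_le (hy.comp measurable_fst) h.measurable_bt)
  have hm : Measurable fun ω => ENNReal.ofReal (dens H ω) *
      {ω : V k × ℝ × ℝ | al H ω ≤ y ω.1 ∧ y ω.1 ≤ bt H ω}.indicator 1 ω :=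
    h.measurable_dens.ennreal_ofReal.mul (measurable_one.indicator hS)
  rw [← lintegral_indicator_one hS, cmu, lintegral_withDensity_eq_lintegral_mul _
    h.measurable_dens.ennreal_ofReal (measurable_one.indicator hS), Measure.volume_eq_prod]
  refine (lintegral_prod _ hm.aemeasurable).trans (lintegral_congr fun a => ?_)
  rw [Measure.volume_eq_prod]
  refine (lintegral_prod _ (hm.comp measurable_prodMk_left).aemeasurable).trans ?_
  rw [← sub_zero (H (a, y a)), ← Real.volume_Ioo, ← lintegral_indicator_one measurableSet_Ioo]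
  refine lintegral_congr_ae ?_
  filter_upwards [compl_mem_ae_iff.2 (measure_singleton (H (a, y a)))] with t ht
  exact h.lintegral_dens ht

theorem Dec.lintegral_len (h : Dec H) {G : V k × ℝ → ℝ≥0∞} (hG : Measurable G) :
    ∫⁻ ω, ENNReal.ofReal (bt H ω - al H ω) * G (ω.1, ω.2.2) ∂cmu H =
      ∫⁻ p, ENNReal.ofReal (H p) * G p := by
  have hc := h.cont
  have hm : Measurable fun ω : V k × ℝ × ℝ =>
      {ω : V k × ℝ × ℝ | 0 < ω.2.1 ∧ ω.2.1 < H (ω.1, ω.2.2)}.indicator
        (fun ω => G (ω.1, ω.2.2)) ω :=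
    (hG.comp (by fun_prop)).indicator h.isOpen_good.measurableSet
  have h1 : ∀ ω : V k × ℝ × ℝ, ENNReal.ofReal (dens H ω) *
      (ENNReal.ofReal (bt H ω - al H ω) * G (ω.1, ω.2.2)) =
      {ω : V k × ℝ × ℝ | 0 < ω.2.1 ∧ ω.2.1 < H (ω.1, ω.2.2)}.indicator
        (fun ω => G (ω.1, ω.2.2)) ω := by
    rintro ⟨a, t, z⟩
    by_cases hg : 0 < t ∧ t < H (a, z)
    · obtain ⟨h1, h2, -⟩ := h.comp hg.1 hg.2
      have hl : 0 < bt H (a, t, z) - al H (a, t, z) := sub_pos.2 (h1.trans h2)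
      rw [dens, indicator_of_mem (by exact hg), indicator_of_mem (by exact hg), ← mul_assoc,
        ← ENNReal.ofReal_mul (by positivity), inv_mul_cancel₀ hl.ne', ENNReal.ofReal_one, one_mul]
    · rw [dens, indicator_of_notMem (by exact hg), indicator_of_notMem (by exact hg),
        ENNReal.ofReal_zero, zero_mul]
  have hb := h.measurable_bt
  have ha := h.measurable_al
  rw [cmu, lintegral_withDensity_eq_lintegral_mul _ h.measurable_dens.ennreal_ofReal
    (by fun_prop)]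
  simp only [Pi.mul_apply, h1]
  rw [Measure.volume_eq_prod, lintegral_prod _ hm.aemeasurable, Measure.volume_eq_prod,
    Measure.volume_eq_prod (V k) ℝ, lintegral_prod _ (Measurable.aemeasurable (by fun_prop))]
  refine lintegral_congr fun a => ?_
  refine (lintegral_prod_symm _ (hm.comp measurable_prodMk_left).aemeasurable).trans
    (lintegral_congr fun z => ?_)
  rw [← sub_zero (H (a, z)), ← Real.volume_Ioo, mul_comm,
    ← lintegral_indicator_const measurableSet_Ioo]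
  rfl

end Pool.Agent.Lib.MP_0a1ca9_gt.Cd
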