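import Pool.Agent.Lib.MP_0a1ca9_gt.CdNn
import Pool.Agent.Lib.MP_0a1ca9_gt.CdComp

/-! The equation in a pair of dual charts. -/

open MeasureTheory Set Filter Topology
open scoped ENNReal RealInnerProductSpace

namespace Pool.Agent.Lib.MP_0a1ca9_gt.Cd

variable {k : ℕ}

/-- The function of degree `-(k + 1)` attached to a function of degree `-1`, in a chart. -/
noncomputable def Hh (i : ℝ) (U : V k × ℝ → ℝ) (p : V k × ℝ) : ℝ := U p ^ i * nn p ^ (i - (k + 1))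

theorem Hh_mul {i : ℝ} {U : V k × ℝ → ℝ} {p : V k × ℝ} (h : 0 ≤ U p) :
    Hh i U p * nn p ^ (k + 1) = (U p * nn p) ^ i := by
  have := nn_pos p
  rw [Hh, Real.mul_rpow h this.le, mul_assoc, ← Real.rpow_natCast, ← Real.rpow_add this]
  norm_num

theorem continuous_Hh {i : ℝ} (hi : 0 ≤ i) {U : V k × ℝ → ℝ} (h : Continuous U) :
    Continuous (Hh i U) :=
  (h.rpow_const fun _ => Or.inr hi).mul (continuous_nn.rpow_const fun p => Or.inl (nn_pos p).ne')

/-- The equation in a pair of dual charts. -/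
structure Chart (i m M c : ℝ) (U W : V k × ℝ → ℝ) : Prop where
  i1 : 1 < i
  i2 : i ≤ k + 1
  iw : (∃ j : ℕ, i = j) ∨ (k : ℝ) ≤ i
  m0 : 0 < m
  c0 : 0 < c
  cU : Continuous U
  cV : Continuous W
  lo : ∀ p, m ≤ U p * nn p
  hi : ∀ p, U p * nn p ≤ M
  loV : ∀ p, m ≤ W p * nn p
  hiV : ∀ p, W p * nn p ≤ M
  e1 : ∀ x s, ∫⁻ a, ENNReal.ofReal (Hh i U (a, -x - ⟪a, s⟫)) = ENNReal.ofReal (c * W (s, x))
  e2 : ∀ x s, ∫⁻ a, ENNReal.ofReal (Hh i W (a, -x - ⟪a, s⟫)) = ENNReal.ofReal (c * U (s, x))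

namespace Chart

variable {i m M c : ℝ} {U W : V k × ℝ → ℝ} (h : Chart i m M c U W)
include h

theorem symm : Chart i m M c W U :=
  ⟨h.i1, h.i2, h.iw, h.m0, h.c0, h.cV, h.cU, h.loV, h.hiV, h.lo, h.hi, h.e2, h.e1⟩

theorem pos (p : V k × ℝ) : 0 < U p := (mul_pos_iff_of_pos_right (nn_pos p)).1 (h.m0.trans_le (h.lo p))

theorem M0 : 0 < M := h.m0.trans_le ((h.lo 0).trans (h.hi 0))

theorem H_lo (p : V k × ℝ) : m ^ i ≤ Hh i U p * nn p ^ (k + 1) := by
  rw [Hh_mul (h.pos p).le]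
  exact Real.rpow_le_rpow h.m0.le (h.lo p) (by linarith [h.i1])

theorem H_hi (p : V k × ℝ) : Hh i U p * nn p ^ (k + 1) ≤ M ^ i := by
  rw [Hh_mul (h.pos p).le]
  exact Real.rpow_le_rpow (h.m0.le.trans (h.lo p)) (h.hi p) (by linarith [h.i1])

theorem H_pos (p : V k × ℝ) : 0 < Hh i U p :=
  mul_pos (Real.rpow_pos_of_pos (h.pos p) _) (Real.rpow_pos_of_pos (nn_pos p) _)

theorem dec : Dec (Hh i U) where
  cont := continuous_Hh (by linarith [h.i1]) h.cU
  pos := h.H_pos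
  small := fun a t z ht => by
    have hM : 0 < M ^ i := Real.rpow_pos_of_pos h.M0 _
    have key : ∀ y, |y| = max |z| (M ^ i / t) → Hh i U (a, y) ≤ t := by
      intro y hy
      have h1 := h.H_hi (a, y)
      have h2 : M ^ i / t ≤ nn (a, y) := ((le_max_right _ _).trans hy.ge).trans (abs_le_nn a y)
      have h3 := one_le_nn (a, y)
      rw [div_le_iff₀ ht] at h2
      have h5 : nn (a, y) ≤ nn (a, y) ^ (k + 1) := le_self_pow₀ h3 (Nat.succ_ne_zero k)
      have h4 : Hh i U (a, y) * nn (a, y) ^ (k + 1) ≤ t * nn (a, y) ^ (k + 1) := by nlinarith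
      exact le_of_mul_le_mul_right h4 (by positivity)
    have h0 : 0 ≤ max |z| (M ^ i / t) := le_max_of_le_left (abs_nonneg z)
    exact ⟨max |z| (M ^ i / t), (le_abs_self z).trans (le_max_left _ _), key _ (abs_of_nonneg h0),
      key _ (by rw [abs_neg, abs_of_nonneg h0])⟩

end Chart

end Pool.Agent.Lib.MP_0a1ca9_gt.Cd
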