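import Pool.Agent.Lib.MP_0a1ca9_gt.Section

/-! Rigidity of the equation `R (ρ ^ i) = ρ` for real `1 < i ≤ n / 2`. -/

open MeasureTheory Set Metric Module
open scoped ENNReal RealInnerProductSpace

namespace Pool.Agent.Lib.MP_0a1ca9_gt

theorem holder_moments {α : Type*} [MeasurableSpace α] (μ : Measure α) {ρ : α → ℝ}
    (hρ : Measurable ρ) (h0 : ∀ x, 0 ≤ ρ x) {x y θ : ℝ} (hx : 0 ≤ x) (hy : 0 ≤ y) (hθ0 : 0 ≤ θ)
    (hθ1 : θ ≤ 1) :
    ∫⁻ u, ENNReal.ofReal (ρ u ^ (x * θ + y * (1 - θ))) ∂μ ≤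
      (∫⁻ u, ENNReal.ofReal (ρ u ^ x) ∂μ) ^ θ * (∫⁻ u, ENNReal.ofReal (ρ u ^ y) ∂μ) ^ (1 - θ) := by
  have hθ2 : 0 ≤ 1 - θ := by linarith
  refine le_trans (le_of_eq ?_) (ENNReal.lintegral_mul_norm_pow_le (μ := μ)
    (f := fun u => ENNReal.ofReal (ρ u ^ x)) (g := fun u => ENNReal.ofReal (ρ u ^ y))
    (by fun_prop) (by fun_prop) hθ0 hθ2 (by ring))
  refine lintegral_congr fun u => ?_
  have := h0 u
  rw [ENNReal.ofReal_rpow_of_nonneg (by positivity) hθ0,
    ENNReal.ofReal_rpow_of_nonneg (by positivity) hθ2, ← ENNReal.ofReal_mul (by positivity),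
    ← Real.rpow_mul this, ← Real.rpow_mul this,
    Real.rpow_add_of_nonneg this (by positivity) (by positivity)]

theorem moment_algebra {d : ℕ} (hd : 1 ≤ d) {i s A B T : ℝ} (hi : 1 < i) (hin : i ≤ (d + 1) / 2)
    (hs : 0 < s) (hA : 0 < A) (hB : 0 ≤ B) (hT : 0 ≤ T) (h1 : s ^ d * B ≤ s * T ^ d)
    (h2 : T ≤ A ^ (1 - i / (d * (d + 1 - i))) * B ^ (i / (d * (d + 1 - i))))
    (h3 : A ≤ B ^ (1 / (d + 1 : ℝ)) * s ^ (1 - 1 / (d + 1 : ℝ))) : s ≤ A := by
  have hd' : (1 : ℝ) ≤ d := by exact_mod_cast hd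
  have hB' : 0 < B := by
    rcases hB.eq_or_lt with h | h
    · rw [← h, Real.zero_rpow (by positivity), zero_mul] at h3; linarith
    · exact h
  have hT' : 0 < T := by
    rcases hT.eq_or_lt with h | h
    · rw [← h, zero_pow (by omega), mul_zero] at h1
      have : 0 < s ^ d * B := by positivity
      linarith
    · exact h
  have hni : 0 < (d : ℝ) + 1 - i := by linarith
  have l1 := Real.log_le_log (by positivity) h1
  have l2 := Real.log_le_log hT' h2
  have l3 := Real.log_le_log hA h3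
  rw [Real.log_mul (by positivity) hB'.ne', Real.log_mul hs.ne' (by positivity), Real.log_pow,
    Real.log_pow] at l1
  rw [Real.log_mul (by positivity) (by positivity), Real.log_rpow hA, Real.log_rpow hB'] at l2
  rw [Real.log_mul (by positivity) (by positivity), Real.log_rpow hs, Real.log_rpow hB'] at l3
  rw [← Real.log_le_log_iff hs hA]
  set a := Real.log A - Real.log s with ha
  set b := Real.log B - Real.log s with hb
  set t := Real.log T - Real.log s with ht
  have m1 : b ≤ d * t := by rw [hb, ht]; linarith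
  have m2 : d * (d + 1 - i) * t ≤ (d * (d + 1 - i) - i) * a + i * b := by
    have e : Real.log T ≤ _ := l2
    have := mul_le_mul_of_nonneg_left e (show (0 : ℝ) ≤ d * (d + 1 - i) by positivity)
    rw [mul_add, ← mul_assoc, ← mul_assoc, mul_sub (d * (d + 1 - i)) 1, mul_one,
      mul_div_cancel₀ _ (by positivity)] at this
    rw [ha, hb, ht]; linarith
  have m3 : (d + 1) * a ≤ b := by
    have := mul_le_mul_of_nonneg_left l3 (show (0 : ℝ) ≤ d + 1 by positivity)
    rw [mul_add, ← mul_assoc, ← mul_assoc, mul_sub (d + 1 : ℝ) 1, mul_one,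
      mul_one_div_cancel (by positivity)] at this
    rw [ha, hb]; linarith
  have m4 : (d + 1 - i) * b ≤ (d * (d + 1 - i) - i) * a + i * b := by nlinarith
  have m5 : (d + 1 - 2 * i) * ((d + 1) * a) ≤ (d + 1 - 2 * i) * b :=
    mul_le_mul_of_nonneg_left m3 (by linarith)
  have m6 : 0 ≤ (d + 1) * (i - 1) * a := by nlinarith
  have m7 : 0 < ((d : ℝ) + 1) * (i - 1) := by have : 0 < i - 1 := by linarith
                                              positivity
  have := nonneg_of_mul_nonneg_right m6 m7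
  linarith

variable {E : Type*} [NormedAddCommGroup E] [InnerProductSpace ℝ E] [FiniteDimensional ℝ E]
  [MeasurableSpace E] [BorelSpace E]

theorem rigid {m : ℕ} (hE : finrank ℝ E = m + 2) {i : ℝ} (hi : 1 < i) (hin : i ≤ (m + 2) / 2)
    {ρ : E → ℝ} (hρ : Measurable ρ) (hc : ContinuousOn ρ (sphere 0 1)) (h0 : ∀ u, 0 ≤ ρ u)
    (heven : ∀ u, ρ (-u) = ρ u)
    (heq : ∀ u, ‖u‖ = 1 → rad (fun v => ENNReal.ofReal (ρ v ^ i / (m + 1 : ℕ))) u =
      volume (ball (0 : V (m + 1)) 1) * ENNReal.ofReal (ρ u)) :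
    (∀ u, ‖u‖ = 1 → ρ u = 0) ∨ (∀ u, ‖u‖ = 1 → ρ u = 1) := by
  obtain ⟨Ψ⟩ := exists_iso hE
  set σ := (volume : Measure E).toSphere
  set κ := volume (ball (0 : V (m + 1)) 1)
  have hκ0 : κ ≠ 0 := (measure_ball_pos _ _ one_pos).ne'
  have hκ1 : κ ≠ ∞ := measure_ball_lt_top.ne
  have : Nontrivial E := Module.nontrivial_of_finrank_pos (R := ℝ) (by omega)
  have hs0 : σ univ ≠ 0 := by
    rw [Ne, Measure.measure_univ_eq_zero]; exact Measure.toSphere_ne_zero _
  have hs1 : σ univ ≠ ∞ := measure_ne_top _ _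
  have hi0 : 0 < i := by linarith
  let a : E → ℝ := fun u => ρ u ^ (i / (m + 1 : ℕ))
  have ha : Measurable a := hρ.pow_const _
  have ha0 : ∀ u, ‖u‖ = 1 → 0 ≤ a u := fun u _ => Real.rpow_nonneg (h0 u) _
  have hap : ∀ u (k : ℕ), a u ^ k = ρ u ^ (i * k / (m + 1 : ℕ)) := fun u k => by
    simp only [a]
    rw [← Real.rpow_mul_natCast (h0 u)]; congr 1; ring
  have hap1 : ∀ u, a u ^ (m + 1) = ρ u ^ i := fun u => by
    rw [hap]; congr 1; field_simp
  have hac : ContinuousOn a (sphere 0 1) := hc.rpow_const fun _ _ => Or.inr (by positivity)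
  obtain ⟨R, hR⟩ := (isCompact_sphere (0 : E) 1).exists_bound_of_continuousOn hac
  have hsec : ∀ w, κ * ENNReal.ofReal (ρ (nrm Ψ w)) =
      ENNReal.ofReal (jac w) * volume (sec w (Ψ ⁻¹' St a)) := by
    intro w
    rw [← rad_St Ψ w ha ha0, ← heq _ (norm_nrm Ψ w)]
    simp only [hap1]
  have hφ : Measurable fun u => κ * ENNReal.ofReal (ρ u) := by fun_prop
  have k1 := mean_identity Ψ ha ha0 hφ (fun u => by rw [heven]) hsec
  have k2 := busemann Ψ ha ha0 (R := max R (a 0))
    (fun u hu => ((le_abs_self _).trans (hR u (by simpa using hu))).trans (le_max_left _ _))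
    (le_max_right _ _) hφ (fun u => by rw [heven]) hsec
  let r : sphere (0 : E) 1 → ℝ := fun u => ρ u
  have hrc : Continuous r := continuousOn_iff_continuous_domRestrict.1 hc
  have hr0 : ∀ u, 0 ≤ r u := fun u => h0 u
  have hint : ∀ t : ℝ, 0 ≤ t → Integrable (fun u => r u ^ t) σ := fun t ht =>
    (hrc.rpow_const fun _ => Or.inr ht).integrable_of_hasCompactSupport
      (HasCompactSupport.of_compactSpace _)
  let I : ℝ → ℝ := fun t => ∫ u, r u ^ t ∂σ
  have hI0 : ∀ t, 0 ≤ I t := fun t => integral_nonneg fun u => Real.rpow_nonneg (hr0 u) _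
  have hI : ∀ t : ℝ, 0 ≤ t → ∫⁻ u, ENNReal.ofReal (r u ^ t) ∂σ = ENNReal.ofReal (I t) :=
    fun t ht => (ofReal_integral_eq_lintegral_ofReal (hint t ht)
      (ae_of_all _ fun u => Real.rpow_nonneg (hr0 u) _)).symm
  have hIz : I 0 = σ.real univ := by simp [I]
  have hs : 0 < σ.real univ := ENNReal.toReal_pos hs0 hs1
  have hhold : ∀ x y θ : ℝ, 0 ≤ x → 0 ≤ y → 0 ≤ θ → θ ≤ 1 →
      I (x * θ + y * (1 - θ)) ≤ I x ^ θ * I y ^ (1 - θ) := by
    intro x y θ hx hy h1 h2
    have h3 : 0 ≤ 1 - θ := by linarith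
    have := holder_moments σ hrc.measurable hr0 hx hy h1 h2
    rwa [hI _ (by positivity), hI _ hx, hI _ hy, ENNReal.ofReal_rpow_of_nonneg (hI0 _) h1,
      ENNReal.ofReal_rpow_of_nonneg (hI0 _) h3, ← ENNReal.ofReal_mul (Real.rpow_nonneg (hI0 _) _),
      ENNReal.ofReal_le_ofReal_iff (mul_nonneg (Real.rpow_nonneg (hI0 _) _)
        (Real.rpow_nonneg (hI0 _) _))] at this
  have e1 : I 1 = I i := by
    rw [lintegral_const_mul' _ _ hκ1, ENNReal.mul_right_inj hκ0 hκ1] at k1
    simp only [hap1] at k1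
    have h1 := hI 1 zero_le_one
    simp only [Real.rpow_one] at h1
    have h2 := hI i hi0.le
    rw [← ENNReal.ofReal_eq_ofReal_iff (hI0 _) (hI0 _), ← h1, ← h2]
    exact k1
  have e2 : σ.real univ ^ (m + 1) * I (m + 2 : ℕ) ≤
      σ.real univ * I (i * (m + 2 : ℕ) / (m + 1 : ℕ)) ^ (m + 1) := by
    simp only [mul_pow, hap] at k2
    rw [lintegral_const_mul' _ _ (by finiteness), mul_left_comm, mul_assoc,
      ENNReal.mul_le_mul_iff_right (by simp [hκ0]) (by finiteness)] at k2
    have h1 := hI (m + 2 : ℕ) (by positivity)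
    have h2 := hI (i * (m + 2 : ℕ) / (m + 1 : ℕ)) (by positivity)
    have h3 : ∀ u : sphere (0 : E) 1, ENNReal.ofReal (ρ u) ^ (m + 2) =
        ENNReal.ofReal (r u ^ ((m + 2 : ℕ) : ℝ)) := fun u => by
      rw [Real.rpow_natCast, ENNReal.ofReal_pow (hr0 u)]
    simp only [h3] at k2
    rw [h1] at k2
    erw [h2] at k2
    rwa [← ENNReal.ofReal_toReal hs1, ← ENNReal.ofReal_pow ENNReal.toReal_nonneg,
      ← ENNReal.ofReal_pow (hI0 _), ← ENNReal.ofReal_mul (by positivity),
      ← ENNReal.ofReal_mul (by positivity),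
      ENNReal.ofReal_le_ofReal_iff (mul_nonneg ENNReal.toReal_nonneg (pow_nonneg (hI0 _) _))] at k2
  rcases (hI0 1).eq_or_lt with hz | hpos
  · left
    have h1 : (fun u => r u ^ (1 : ℝ)) =ᵐ[σ] 0 :=
      (integral_eq_zero_iff_of_nonneg (fun u => Real.rpow_nonneg (hr0 u) _)
        (hint 1 zero_le_one)).1 hz.symm
    have h2 : (fun u => r u ^ (1 : ℝ)) = fun _ => (0 : ℝ) :=
      (Continuous.ae_eq_iff_eq σ (hrc.rpow_const fun _ => Or.inr zero_le_one)
        continuous_const).1 h1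
    intro u hu
    simpa [r] using congrFun h2 ⟨u, by simpa using hu⟩
  right
  have hm0 : (0 : ℝ) ≤ m := Nat.cast_nonneg m
  have hni : 0 < (m : ℝ) + 1 + 1 - i := by linarith
  have hge : σ.real univ ≤ I 1 := by
    refine moment_algebra (d := m + 1) (by omega) hi (by push_cast; linarith) hs hpos
      (hI0 (m + 2 : ℕ)) (hI0 _) e2 ?_ ?_
    · have hθ : i / ((m + 1 : ℕ) * ((m + 1 : ℕ) + 1 - i)) ≤ 1 := by
        push_cast
        rw [div_le_one (by positivity)]
        nlinarith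
      have hθ' : 0 ≤ i / ((m + 1 : ℕ) * ((m + 1 : ℕ) + 1 - i)) := by push_cast; positivity
      have := hhold i (m + 2 : ℕ) (1 - i / ((m + 1 : ℕ) * ((m + 1 : ℕ) + 1 - i))) hi0.le
        (by positivity) (by linarith) (by linarith)
      rw [sub_sub_cancel, ← e1] at this
      refine le_trans (le_of_eq ?_) this
      congr 1
      push_cast
      field_simp
      ring
    · have := hhold (m + 2 : ℕ) 0 (1 / ((m + 1 : ℕ) + 1)) (by positivity) le_rfl (by positivity)
        (by rw [div_le_one (by positivity)]; push_cast; linarith)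
      rw [hIz] at this
      refine le_trans (le_of_eq ?_) this
      congr 1
      push_cast
      field_simp
      ring
  let f : sphere (0 : E) 1 → ℝ := fun u => r u ^ i - i * r u ^ (1 : ℝ) + (i - 1)
  have hf0 : ∀ u, 0 ≤ f u := fun u => by
    have := one_add_mul_self_le_rpow_one_add (s := r u - 1) (by linarith [hr0 u]) hi.le
    simp only [f, Real.rpow_one]
    rw [add_sub_cancel] at this
    linarith
  have hfi : Integrable f σ :=
    ((hint i hi0.le).sub ((hint 1 zero_le_one).const_mul i)).add (integrable_const _)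
  have hfz : ∫ u, f u ∂σ = 0 := by
    refine le_antisymm ?_ (integral_nonneg hf0)
    simp only [f]
    have hsub : Integrable (fun u => r u ^ i - i * r u ^ (1 : ℝ)) σ :=
      (hint i hi0.le).sub ((hint 1 zero_le_one).const_mul i)
    rw [integral_add hsub (integrable_const _),
      integral_sub (hint i hi0.le) ((hint 1 zero_le_one).const_mul i), integral_const_mul,
      integral_const, smul_eq_mul]
    change I i - i * I 1 + _ ≤ 0
    rw [← e1]
    nlinarith
  have hfc : Continuous f := ((hrc.rpow_const fun _ => Or.inr hi0.le).sub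
    ((hrc.rpow_const fun _ => Or.inr zero_le_one).const_mul i)).add continuous_const
  have h2 : f = fun _ => (0 : ℝ) := (Continuous.ae_eq_iff_eq σ hfc continuous_const).1
    ((integral_eq_zero_iff_of_nonneg hf0 hfi).1 hfz)
  intro u hu
  by_contra hne
  have h3 := congrFun h2 ⟨u, by simpa using hu⟩
  have h4 := one_add_mul_self_lt_rpow_one_add (s := ρ u - 1) (by linarith [h0 u])
    (sub_ne_zero.2 hne) hi
  simp only [f, r, Real.rpow_one] at h3
  rw [add_sub_cancel] at h4
  linarith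

end Pool.Agent.Lib.MP_0a1ca9_gt
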