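import Pool.Agent.Lib.MP_0a1ca9_gt.Defs
import Pool.Agent.Lib.MP_0a1ca9_gt.Rigid

/-! Star bodies whose intersection body of order `i` is homothetic to them. -/

open MeasureTheory Set Metric Module
open scoped ENNReal RealInnerProductSpace

namespace Pool.Agent.Lib.MP_0a1ca9_gt

variable {E : Type*} [NormedAddCommGroup E] [InnerProductSpace ℝ E]

theorem radial_eq {L : Set E} {u : E} {a : ℝ} (ha : 0 ≤ a)
    (h : ∀ c, 0 ≤ c → (c • u ∈ L ↔ c ≤ a)) : radial L u = a := by
  have : {c : ℝ | 0 ≤ c ∧ c • u ∈ L} = Icc 0 a := by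
    ext c
    exact ⟨fun hc => ⟨hc.1, (h c hc.1).1 hc.2⟩, fun hc => ⟨hc.1, (h c hc.1).2 hc.2⟩⟩
  rw [radial, this, csSup_Icc ha]

theorem radial_nonneg (L : Set E) (u : E) : 0 ≤ radial L u :=
  Real.sSup_nonneg fun _ hc => hc.1

theorem smul_mem_iff {L : Set E} (hc : IsCompact L) (h0 : (0 : E) ∈ L) (hs : StarConvex ℝ 0 L)
    {u : E} (hu : ‖u‖ = 1) {c : ℝ} (hc0 : 0 ≤ c) : c • u ∈ L ↔ c ≤ radial L u := by
  obtain ⟨R, hR⟩ := hc.isBounded.exists_norm_le
  have hb : BddAbove {c : ℝ | 0 ≤ c ∧ c • u ∈ L} := ⟨R, fun c hc => by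
    have := hR _ hc.2
    rwa [norm_smul, hu, mul_one, Real.norm_of_nonneg hc.1] at this⟩
  refine ⟨fun h => le_csSup hb ⟨hc0, h⟩, fun h => ?_⟩
  have hcl : IsClosed {c : ℝ | 0 ≤ c ∧ c • u ∈ L} :=
    (isClosed_le continuous_const continuous_id).inter (hc.isClosed.preimage (by fun_prop))
  have hmem : radial L u ∈ {c : ℝ | 0 ≤ c ∧ c • u ∈ L} :=
    hcl.csSup_mem ⟨0, le_rfl, by simpa using h0⟩ hb
  rcases hmem.1.eq_or_lt with hz | hpos
  · have : c = 0 := le_antisymm (hz ▸ h) hc0
    simpa [this] using h0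
  · have := hs.smul_mem hmem.2 (t := c / radial L u) (by positivity) ((div_le_one hpos).2 h)
    rwa [smul_smul, div_mul_cancel₀ _ hpos.ne'] at this

theorem eq_closedBall [Nontrivial E] {L : Set E} (hc : IsCompact L) (h0 : (0 : E) ∈ L)
    (hs : StarConvex ℝ 0 L) {R : ℝ} (h : ∀ u, ‖u‖ = 1 → radial L u = R) :
    0 ≤ R ∧ L = closedBall 0 R := by
  obtain ⟨u, hu⟩ := exists_norm_eq E zero_le_one
  have hR : 0 ≤ R := h u hu ▸ radial_nonneg L u
  refine ⟨hR, ?_⟩
  ext x
  by_cases hx : x = 0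
  · simp [hx, h0, hR]
  · have h1 := smul_mem_iff hc h0 hs (norm_dir hx) (norm_nonneg x)
    rw [h _ (norm_dir hx), dir, smul_smul, mul_inv_cancel₀ (norm_ne_zero_iff.2 hx), one_smul] at h1
    rw [h1, mem_closedBall_zero_iff]

variable [FiniteDimensional ℝ E] [MeasurableSpace E] [BorelSpace E]

theorem interRadial_neg (i : ℝ) (L : Set E) (u : E) : interRadial i L (-u) = interRadial i L u := by
  let F : Submodule ℝ E → ℝ := fun K => ∫ v : sphere (0 : K) 1, radial L ((v : K) : E) ^ i
      ∂(volume : Measure K).toSphere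
  change _ * F (ℝ ∙ (-u))ᗮ = _ * F (ℝ ∙ u)ᗮ
  have : (ℝ ∙ (-u)) = (ℝ ∙ u) := by
    rw [← neg_one_smul ℝ u]
    exact Submodule.span_singleton_smul_eq (by simp) u
  rw [this]

theorem interRadial_nonneg (hE : 1 ≤ finrank ℝ E) (i : ℝ) (L : Set E) (u : E) :
    0 ≤ interRadial i L u := by
  have : (1 : ℝ) ≤ finrank ℝ E := by exact_mod_cast hE
  exact mul_nonneg (by have : (0 : ℝ) ≤ finrank ℝ E - 1 := by linarith
                       positivity)
    (integral_nonneg fun v => Real.rpow_nonneg (radial_nonneg _ _) _)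

theorem smul_mem_interBody (hE : 1 ≤ finrank ℝ E) (i : ℝ) (L : Set E) {u : E} (hu : ‖u‖ = 1) {c : ℝ}
    (hc : 0 ≤ c) : c • u ∈ interBody i L ↔ c ≤ interRadial i L u := by
  refine ⟨?_, fun h => ⟨u, c, hu, hc, h, rfl⟩⟩
  rintro ⟨u', c', hu', hc', h, e⟩
  have h1 : c = c' := by
    have := congrArg norm e
    rwa [norm_smul, norm_smul, hu, hu', mul_one, mul_one, Real.norm_of_nonneg hc,
      Real.norm_of_nonneg hc'] at this
  subst h1
  rcases hc.eq_or_lt with hz | hpos
  · rw [← hz]; exact interRadial_nonneg hE i L u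
  · rwa [smul_right_injective E hpos.ne' e]

theorem neg_mem_interBody (i : ℝ) (L : Set E) {x : E} (hx : x ∈ interBody i L) :
    -x ∈ interBody i L := by
  obtain ⟨u, c, hu, hc, h, rfl⟩ := hx
  exact ⟨-u, c, by simpa using hu, hc, by rwa [interRadial_neg], by simp⟩

theorem ofReal_interRadial {m : ℕ} (hE : finrank ℝ E = m + 2) {i : ℝ} (hi : 0 ≤ i) {L : Set E}
    (hL : ContinuousOn (radial L) (sphere 0 1)) (u : E) :
    ENNReal.ofReal (interRadial i L u) =
      rad (fun v => ENNReal.ofReal (radial L v ^ i / (m + 1 : ℕ))) u := by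
  have hc : Continuous fun v : sphere (0 : (ℝ ∙ u)ᗮ) 1 => radial L ((v : (ℝ ∙ u)ᗮ) : E) :=
    hL.comp_continuous (by fun_prop) fun v => by
      have hv : ‖((v : (ℝ ∙ u)ᗮ) : E)‖ = 1 := norm_eq_of_mem_sphere v
      exact mem_sphere_zero_iff_norm.2 hv
  rw [interRadial, ← integral_const_mul, ofReal_integral_eq_lintegral_ofReal, rad]
  · refine lintegral_congr fun v => ?_
    rw [hE]; congr 1; push_cast; ring
  · exact (((hc.rpow_const fun _ => Or.inr hi).const_mul _).integrable_of_hasCompactSupport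
      (HasCompactSupport.of_compactSpace _))
  · refine ae_of_all _ fun v => mul_nonneg ?_ (Real.rpow_nonneg (radial_nonneg _ _) _)
    rw [hE]; push_cast
    have : (0 : ℝ) ≤ m + 2 - 1 := by have : (0 : ℝ) ≤ m := Nat.cast_nonneg m
                                     linarith
    positivity

theorem interRadial_closedBall {m : ℕ} (hE : finrank ℝ E = m + 2) (i : ℝ) {R : ℝ} (hR : 0 ≤ R)
    {u : E} (hu : ‖u‖ = 1) : interRadial i (closedBall (0 : E) R) u =
      (volume (ball (0 : V (m + 1)) 1)).toReal * R ^ i := by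
  have hr := finrank_perp (d := m + 1) hE hu
  obtain ⟨g⟩ := exists_iso hr
  have h1 : ∀ v : sphere (0 : (ℝ ∙ u)ᗮ) 1,
      radial (closedBall (0 : E) R) ((v : (ℝ ∙ u)ᗮ) : E) = R := fun v => by
    have hv : ‖((v : (ℝ ∙ u)ᗮ) : E)‖ = 1 := norm_eq_of_mem_sphere v
    refine radial_eq hR fun c hc => ?_
    rw [mem_closedBall_zero_iff, norm_smul, hv, mul_one, Real.norm_of_nonneg hc]
  have h2 : volume (ball (0 : (ℝ ∙ u)ᗮ) 1) = volume (ball (0 : V (m + 1)) 1) := by
    rw [← g.measurePreserving.measure_preimage measurableSet_ball.nullMeasurableSet]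
    congr 1; ext; simp
  simp only [interRadial, h1, integral_const, Measure.toSphere_real_apply_univ, hr, hE,
    smul_eq_mul]
  rw [measureReal_def, h2]
  push_cast
  have : (m : ℝ) + 2 - 1 = m + 1 := by ring
  rw [this]
  field_simp

theorem dilate_rigid {m : ℕ} (hE : finrank ℝ E = m + 2) {i : ℝ} (hi : 1 < i)
    (hin : i ≤ (m + 2) / 2) {L : Set E} (hL : IsStarBody L) {r : ℝ} (hr : 0 < r)
    (h : ∀ u, ‖u‖ = 1 → interRadial i L u = r * radial L u) :
    ∃ R : ℝ, 0 ≤ R ∧ L = closedBall 0 R := by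
  have : Nontrivial E := Module.nontrivial_of_finrank_pos (R := ℝ) (by omega)
  obtain ⟨hc, h0, hs, hcont⟩ := hL
  set κ := volume (ball (0 : V (m + 1)) 1) with hκ
  have hκ1 : κ ≠ ∞ := measure_ball_lt_top.ne
  have hκ0 : 0 < κ.toReal := ENNReal.toReal_pos (measure_ball_pos _ _ one_pos).ne' hκ1
  set l : ℝ := (r / κ.toReal) ^ (i - 1)⁻¹ with hl
  have hl0 : 0 < l := by positivity
  have hli : l ^ i = l * (r / κ.toReal) := by
    have : l ^ (i - 1) = r / κ.toReal :=
      Real.rpow_inv_rpow (by positivity) (by linarith)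
    rw [← this, ← Real.rpow_one_add' hl0.le (by linarith)]
    congr 1; ring
  let ρ : E → ℝ := fun x => radial L (dir x) / l
  have hρu : ∀ u, ‖u‖ = 1 → ρ u = radial L u / l := fun u hu => by
    simp [ρ, dir, hu]
  have hρm : Measurable ρ := by
    refine measurable_of_continuousOn_compl_singleton 0 (ContinuousOn.div_const ?_ _)
    refine hcont.comp (f := dir) ?_ fun x hx => by simpa using norm_dir hx
    exact (continuous_norm.continuousOn.inv₀ fun x hx => norm_ne_zero_iff.2 hx).smul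
      continuousOn_id
  have hρc : ContinuousOn ρ (sphere 0 1) :=
    (hcont.div_const l).congr fun u hu => hρu u (by simpa using hu)
  have heven : ∀ u, ρ (-u) = ρ u := fun u => by
    by_cases hu : u = 0
    · simp [hu]
    · have h1 := h _ (norm_dir hu)
      have h2 := h (-dir u) (by rw [norm_neg, norm_dir hu])
      rw [interRadial_neg, h1, mul_right_inj' hr.ne'] at h2
      have : dir (-u) = -dir u := by simp [dir]
      simp only [ρ, this, h2]
  have key := rigid hE hi hin hρm hρc (fun u => div_nonneg (radial_nonneg _ _) hl0.le) heven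
    (fun u hu => by
      have h1 := ofReal_interRadial hE (show 0 ≤ i by linarith) hcont u
      have h2 : rad (fun v => ENNReal.ofReal (radial L v ^ i / (m + 1 : ℕ))) u =
          ENNReal.ofReal (l ^ i) * rad (fun v => ENNReal.ofReal (ρ v ^ i / (m + 1 : ℕ))) u := by
        rw [rad, rad, ← lintegral_const_mul' _ _ ENNReal.ofReal_ne_top]
        refine lintegral_congr fun v => ?_
        have hv : ‖((v : (ℝ ∙ u)ᗮ) : E)‖ = 1 := norm_eq_of_mem_sphere v
        rw [hρu _ hv, ← ENNReal.ofReal_mul (by positivity),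
          Real.div_rpow (radial_nonneg _ _) hl0.le]
        congr 1
        field_simp
      have hpos : 0 < l ^ i := by positivity
      rw [← ENNReal.mul_right_inj (a := ENNReal.ofReal (l ^ i)) (by simpa using hpos)
        ENNReal.ofReal_ne_top, ← h2, ← h1, h u hu, hρu u hu, ← hκ, ← ENNReal.ofReal_toReal hκ1,
        ← ENNReal.ofReal_mul hκ0.le, ← ENNReal.ofReal_mul hpos.le, hli]
      congr 1
      field_simp)
  rcases key with k | k
  · exact ⟨0, eq_closedBall hc h0 hs fun u hu => by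
      have := k u hu
      rw [hρu u hu, div_eq_zero_iff] at this
      exact this.resolve_right hl0.ne'⟩
  · exact ⟨l, eq_closedBall hc h0 hs fun u hu => by
      have := k u hu
      rwa [hρu u hu, div_eq_one_iff_eq hl0.ne'] at this⟩

theorem main_centred {i : ℝ} (hi : 1 < i) (hin : i ≤ (finrank ℝ E : ℝ) / 2) {L : Set E}
    (hL : IsStarBody L) (hsym : -L = L) :
    Homothetic L (interBody i L) ↔ ∃ R : ℝ, 0 ≤ R ∧ L = closedBall 0 R := by
  obtain ⟨m, hE⟩ : ∃ m, finrank ℝ E = m + 2 := by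
    have : (2 : ℝ) < finrank ℝ E := by linarith
    have : 2 < finrank ℝ E := by exact_mod_cast this
    exact ⟨finrank ℝ E - 2, by omega⟩
  have hE1 : 1 ≤ finrank ℝ E := by omega
  have : Nontrivial E := Module.nontrivial_of_finrank_pos (R := ℝ) (by omega)
  constructor
  · rintro ⟨x, r, hr, hI⟩
    have hcI : IsCompact (interBody i L) := hI ▸ hL.1.image (by fun_prop)
    have hx : x = 0 := by
      obtain ⟨y, hy, hmax⟩ := hcI.exists_isMaxOn (f := fun y => ⟪x, y⟫)
        ⟨x, by rw [hI]; exact ⟨0, hL.2.1, by simp⟩⟩ (by fun_prop)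
      have h1 := neg_mem_interBody i L hy
      rw [hI] at h1
      obtain ⟨a, ha, e⟩ := h1
      have ha' : -a ∈ L := by rw [← hsym]; simpa using ha
      have h2 : x + r • (-a) ∈ interBody i L := by rw [hI]; exact ⟨-a, ha', rfl⟩
      have h3 : ⟪x, x + r • (-a)⟫ ≤ ⟪x, y⟫ := hmax h2
      have h4 : x + r • (-a) = y + (2 : ℝ) • x := by
        have : y = -(x + r • a) := by simp only at e; rw [e, neg_neg]
        rw [this]; module
      rw [h4, inner_add_right, inner_smul_right, real_inner_self_eq_norm_sq] at h3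
      have : ‖x‖ ^ 2 ≤ 0 := by linarith
      simpa using this
    subst hx
    refine dilate_rigid hE hi (by rw [hE] at hin; exact_mod_cast hin) hL hr fun u hu => ?_
    refine eq_of_forall_le_iff fun c => ?_
    have hρ := mul_nonneg hr.le (radial_nonneg L u)
    rcases le_total c 0 with hc | hc
    · simp [hc.trans hρ, hc.trans (interRadial_nonneg hE1 i L u)]
    · rw [← smul_mem_interBody hE1 i L hu hc, ← div_le_iff₀' hr,
        ← smul_mem_iff hL.1 hL.2.1 hL.2.2.1 hu (div_nonneg hc hr.le), hI]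
      constructor
      · rintro ⟨a, ha, e⟩
        simp only [zero_add] at e
        rwa [div_eq_inv_mul, mul_smul, ← e, smul_smul, inv_mul_cancel₀ hr.ne', one_smul]
      · intro ha
        exact ⟨_, ha, by simp [smul_smul, mul_div_cancel₀ _ hr.ne']⟩
  · rintro ⟨R, hR, rfl⟩
    set κ := (volume (ball (0 : V (m + 1)) 1)).toReal
    have hκ0 : 0 < κ :=
      ENNReal.toReal_pos (measure_ball_pos _ _ one_pos).ne' measure_ball_lt_top.ne
    obtain ⟨r, hr, hrR⟩ : ∃ r : ℝ, 0 < r ∧ κ * R ^ i = r * R := by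
      rcases hR.eq_or_lt with h | h
      · exact ⟨1, one_pos, by rw [← h, Real.zero_rpow (by linarith)]; simp⟩
      · exact ⟨κ * R ^ i / R, by positivity, by field_simp⟩
    refine ⟨0, r, hr, ?_⟩
    ext y
    have himg : y ∈ (fun a => (0 : E) + r • a) '' closedBall 0 R ↔ ‖y‖ ≤ r * R := by
      constructor
      · rintro ⟨a, ha, rfl⟩
        simp only [zero_add, norm_smul, Real.norm_of_nonneg hr.le]
        exact mul_le_mul_of_nonneg_left (mem_closedBall_zero_iff.1 ha) hr.le
      · intro hy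
        refine ⟨r⁻¹ • y, ?_, by simp [smul_smul, hr.ne']⟩
        rw [mem_closedBall_zero_iff, norm_smul, norm_inv, Real.norm_of_nonneg hr.le,
          inv_mul_le_iff₀ hr]
        exact hy
    rw [himg, ← hrR]
    obtain ⟨u, hu, hy⟩ : ∃ u : E, ‖u‖ = 1 ∧ y = ‖y‖ • u := by
      by_cases hy : y = 0
      · obtain ⟨u, hu⟩ := exists_norm_eq E zero_le_one
        exact ⟨u, hu, by simp [hy]⟩
      · exact ⟨dir y, norm_dir hy, by
          rw [dir, smul_smul, mul_inv_cancel₀ (norm_ne_zero_iff.2 hy), one_smul]⟩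
    conv_lhs => rw [hy]
    rw [smul_mem_interBody hE1 i _ hu (norm_nonneg y), interRadial_closedBall hE i hR hu]

end Pool.Agent.Lib.MP_0a1ca9_gt
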