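import Pool.Agent.Lib.MP_0a1ca9_gt.CdNn
import Pool.Agent.Lib.MP_0a1ca9_gt.Star

/-! The equation in the charts attached to orthonormal frames. -/

open MeasureTheory Set Metric Module
open scoped ENNReal RealInnerProductSpace

namespace Pool.Agent.Lib.MP_0a1ca9_gt.Cd

variable {k : ℕ} {E : Type*} [NormedAddCommGroup E] [InnerProductSpace ℝ E]

/-- Orthonormal frames. -/
structure Frm (p : E) (r : V k →ₗᵢ[ℝ] E) (q : E) : Prop where
  np : ‖p‖ = 1
  nq : ‖q‖ = 1
  pq : ⟪p, q⟫ = 0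
  pr : ∀ a, ⟪p, r a⟫ = 0
  qr : ∀ a, ⟪q, r a⟫ = 0

theorem Frm.symm {p q : E} {r : V k →ₗᵢ[ℝ] E} (h : Frm p r q) : Frm q r p :=
  ⟨h.nq, h.np, by rw [real_inner_comm, h.pq], h.qr, h.pr⟩

/-- The chart of a frame. -/
noncomputable def XX (p : E) (r : V k →ₗᵢ[ℝ] E) (q : E) (w : V k × ℝ) : E := p + r w.1 + w.2 • q

theorem CdEq_norm_sq {p q : E} {r : V k →ₗᵢ[ℝ] E} (h : Frm p r q) (x t : ℝ) (a : V k) :
    ‖x • p + r a + t • q‖ ^ 2 = x ^ 2 + ‖a‖ ^ 2 + t ^ 2 := by
  have h1 : ⟪x • p, r a⟫ = 0 := by rw [real_inner_smul_left, h.pr, mul_zero]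
  have h2 : ⟪x • p + r a, t • q⟫ = 0 := by
    rw [real_inner_smul_right, inner_add_left, real_inner_smul_left, h.pq, real_inner_comm, h.qr]
    ring
  rw [norm_add_sq_real, norm_add_sq_real, h1, h2, norm_smul, norm_smul, h.np, h.nq, r.norm_map,
    mul_one, mul_one, Real.norm_eq_abs, Real.norm_eq_abs, sq_abs, sq_abs]
  ring

theorem Frm.norm_XX {p q : E} {r : V k →ₗᵢ[ℝ] E} (h : Frm p r q) (w : V k × ℝ) :
    ‖XX p r q w‖ = nn w := by
  have := CdEq_norm_sq h 1 w.2 w.1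
  rw [one_smul, one_pow] at this
  rw [nn, ← this, Real.sqrt_sq (norm_nonneg _), XX]

theorem Frm.XX_ne {p q : E} {r : V k →ₗᵢ[ℝ] E} (h : Frm p r q) (w : V k × ℝ) :
    XX p r q w ≠ 0 := by
  rw [← norm_ne_zero_iff, h.norm_XX]
  exact (nn_pos w).ne'

theorem CdEq_dir_sub {x y : E} (hx : x ≠ 0) (hy : y ≠ 0) :
    ‖dir x - dir y‖ ≤ 2 * ‖x - y‖ / ‖y‖ := by
  have h1 := norm_pos_iff.2 hx
  have h2 := norm_pos_iff.2 hy
  have e : dir x - dir y = ‖y‖⁻¹ • ((‖y‖ - ‖x‖) • dir x + (x - y)) := by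
    have : ‖x‖ • dir x = x := by rw [dir, smul_smul, mul_inv_cancel₀ h1.ne', one_smul]
    rw [sub_smul, this, sub_add_sub_cancel, smul_sub, smul_smul, inv_mul_cancel₀ h2.ne', one_smul]
    rfl
  rw [e, norm_smul, norm_inv, norm_norm, div_eq_inv_mul]
  refine mul_le_mul_of_nonneg_left ((norm_add_le _ _).trans ?_) (by positivity)
  rw [norm_smul, norm_dir hx, mul_one, Real.norm_eq_abs, abs_sub_comm]
  linarith [abs_norm_sub_norm_le x y]

theorem Frm.dir_XX_sub {p q : E} {r : V k →ₗᵢ[ℝ] E} (h : Frm p r q) (w w' : V k × ℝ) :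
    ‖dir (XX p r q w) - dir (XX p r q w')‖ ≤ 2 * (‖w.1 - w'.1‖ + |w.2 - w'.2|) / nn w' := by
  refine (CdEq_dir_sub (h.XX_ne w) (h.XX_ne w')).trans ?_
  rw [h.norm_XX]
  have := nn_pos w'
  gcongr
  have e : XX p r q w - XX p r q w' = r (w.1 - w'.1) + (w.2 - w'.2) • q := by
    simp only [XX, map_sub]; module
  rw [e]
  refine (norm_add_le _ _).trans (le_of_eq ?_)
  rw [norm_smul, r.norm_map, h.nq, mul_one, Real.norm_eq_abs]

theorem Frm.continuous_dir {p q : E} {r : V k →ₗᵢ[ℝ] E} (h : Frm p r q) :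
    Continuous fun w => dir (XX p r q w) := by
  simp only [dir, h.norm_XX]
  have := r.continuous
  exact (continuous_nn.inv₀ fun w => (nn_pos w).ne').smul (by unfold XX; fun_prop)

theorem CdEq_abs_Ioo (k : ℕ) {b : ℝ} (hb : 0 ≤ b) :
    ∫⁻ y in Ioo (-b) b, ENNReal.ofReal (|y| ^ k) =
      ENNReal.ofReal (2 / (k + 1)) * ENNReal.ofReal (b ^ (k + 1)) := by
  have hc : Continuous fun y : ℝ => |y| ^ k := continuous_abs.pow k
  have h1 : ∫ y in (-b)..b, |y| ^ k = 2 / (k + 1) * b ^ (k + 1) := by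
    have h2 := intervalIntegral.integral_comp_neg (a := 0) (b := b) fun y : ℝ => |y| ^ k
    simp only [abs_neg, neg_zero] at h2
    rw [← intervalIntegral.integral_add_adjacent_intervals (b := 0)
      (hc.intervalIntegrable _ _) (hc.intervalIntegrable _ _), ← h2,
      intervalIntegral.integral_congr (a := 0) (g := fun y => y ^ k) fun y hy => by
        rw [uIcc_of_le hb] at hy
        simp only [abs_of_nonneg hy.1], integral_pow]
    ring
  rw [restrict_Ioo_eq_restrict_Ioc, ← ofReal_integral_eq_lintegral_ofReal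
    (hc.intervalIntegrable _ _).1 (ae_of_all _ fun y => by positivity),
    ← intervalIntegral.integral_of_le (by linarith), h1, ENNReal.ofReal_mul (by positivity)]

variable [FiniteDimensional ℝ E]

theorem exists_third (hE : 3 ≤ finrank ℝ E) (p q : E) :
    ∃ r : E, ‖r‖ = 1 ∧ ⟪p, r⟫ = 0 ∧ ⟪q, r⟫ = 0 := by
  classical
  have h1 : finrank ℝ (Submodule.span ℝ (({p, q} : Finset E) : Set E)) ≤ 2 :=
    (finrank_span_finset_le_card _).trans Finset.card_le_two
  have h2 := (Submodule.span ℝ (({p, q} : Finset E) : Set E)).finrank_add_finrank_orthogonal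
  have : Nontrivial (Submodule.span ℝ (({p, q} : Finset E) : Set E))ᗮ :=
    Module.nontrivial_of_finrank_pos (R := ℝ) (by omega)
  obtain ⟨r, hr⟩ := exists_norm_eq (Submodule.span ℝ (({p, q} : Finset E) : Set E))ᗮ zero_le_one
  exact ⟨r, hr, r.2 p (Submodule.subset_span (by simp)), r.2 q (Submodule.subset_span (by simp))⟩

/-- Sketch: the orthogonal complement of the span of `p`, `q` has dimension `k`; `exists_iso`. -/
theorem exists_frm (hE : finrank ℝ E = k + 2) {p q : E} (hp : ‖p‖ = 1) (hq : ‖q‖ = 1)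
    (hpq : ⟪p, q⟫ = 0) : ∃ r : V k →ₗᵢ[ℝ] E, Frm p r q := by
  have ho : Orthonormal ℝ ![p, q] := by
    constructor
    · intro j; fin_cases j
      exacts [hp, hq]
    · intro j l hjl
      fin_cases j <;> fin_cases l <;>
        first | exact absurd rfl hjl | exact hpq | exact (real_inner_comm _ _).trans hpq
  have h1 := finrank_span_eq_card ho.linearIndependent
  have h2 := (Submodule.span ℝ (range ![p, q])).finrank_add_finrank_orthogonal
  have h3 : finrank ℝ (Submodule.span ℝ (range ![p, q]))ᗮ = k := by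
    rw [Fintype.card_fin] at h1
    omega
  let Ψ : V k ≃ₗᵢ[ℝ] (Submodule.span ℝ (range ![p, q]))ᗮ :=
    ((stdOrthonormalBasis ℝ _).reindex (finCongr h3)).repr.symm
  exact ⟨(Submodule.subtypeₗᵢ _).comp Ψ.toLinearIsometry, hp, hq, hpq,
    fun a => (Ψ a).2 p (Submodule.subset_span ⟨0, rfl⟩),
    fun a => (Ψ a).2 q (Submodule.subset_span ⟨1, rfl⟩)⟩

/-- Sketch: the orthonormal basis `Fin.cons q (Fin.cons p fun j => r (single j 1))`, or a linear
isometry and `LinearIsometry.toLinearIsometryEquiv`. -/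
theorem Frm.exists_iso (hE : finrank ℝ E = k + 2) {p q : E} {r : V k →ₗᵢ[ℝ] E} (h : Frm p r q) :
    ∃ Ψ : V (k + 2) ≃ₗᵢ[ℝ] E, ∀ (t x : ℝ) (a : V k), Ψ (cns t (cns x a)) = x • p + r a + t • q := by
  let T : V (k + 2) →ₗ[ℝ] E :=
    { toFun := fun v => v (Fin.succ 0) • p + r (WithLp.toLp 2 fun j => v j.succ.succ) + v 0 • q
      map_add' := fun v v' => by
        have e : (WithLp.toLp 2 fun j => (v + v') j.succ.succ : V k) =
            (WithLp.toLp 2 fun j => v j.succ.succ) + WithLp.toLp 2 fun j => v' j.succ.succ := rfl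
        rw [e, map_add, PiLp.add_apply, PiLp.add_apply]
        module
      map_smul' := fun c v => by
        have e : (WithLp.toLp 2 fun j => (c • v) j.succ.succ : V k) =
            c • WithLp.toLp 2 fun j => v j.succ.succ := rfl
        rw [e, map_smul, PiLp.smul_apply, PiLp.smul_apply, RingHom.id_apply, smul_eq_mul,
          smul_eq_mul]
        module }
  have hT : ∀ (t x : ℝ) (a : V k), T (cns t (cns x a)) = x • p + r a + t • q := fun _ _ _ => rfl
  have hn : ∀ v, ‖T v‖ = ‖v‖ := fun v => by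
    obtain ⟨t, y, rfl⟩ := exists_cns v
    obtain ⟨x, a, rfl⟩ := exists_cns y
    refine (sq_eq_sq₀ (norm_nonneg _) (norm_nonneg _)).1 ?_
    rw [hT, CdEq_norm_sq h, norm_cns_sq, norm_cns_sq]
    ring
  exact ⟨(⟨T, hn⟩ : V (k + 2) →ₗᵢ[ℝ] E).toLinearIsometryEquiv (by simp [hE]), hT⟩

variable [MeasurableSpace E] [BorelSpace E]

/-- Sketch: as `Frm.rad_eq` of `TEq.lean` with `w = cns (-x) (-s)`, `lintegral_cns'`,
`lintegral_scale` on `V k` (factor `|y| ^ k`) and
`∫⁻ y in Ioo (-b) b, |y| ^ k = 2 * b ^ (k + 1) / (k + 1)`. -/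
theorem Frm.rad_eq (hE : finrank ℝ E = k + 2) {p q : E} {r : V k →ₗᵢ[ℝ] E} (h : Frm p r q)
    {a : E → ℝ} (ha : Measurable a) (h0 : ∀ u, 0 ≤ a u) (hev : ∀ u, a (-u) = a u) (x : ℝ)
    (s : V k) :
    rad (fun v => ENNReal.ofReal (a v ^ (k + 1) / (k + 1 : ℕ))) (dir (XX q r p (s, x))) =
      ENNReal.ofReal (nn (s, x)) * (ENNReal.ofReal (2 / (k + 1)) * ∫⁻ t, ENNReal.ofReal
        (a (dir (XX p r q (t, -x - ⟪t, s⟫))) ^ (k + 1) / nn (t, -x - ⟪t, s⟫) ^ (k + 1))) := by
  obtain ⟨Ψ, hΨ⟩ := h.exists_iso hE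
  have h1 : nrm Ψ (cns (-x) (-s)) = dir (XX q r p (s, x)) := by
    have e : -cns (-x) (-s) = cns x s := by
      ext j
      refine Fin.cases ?_ (fun j => ?_) j <;> simp
    have : Ψ (cns 1 (-cns (-x) (-s))) = XX q r p (s, x) := by
      rw [e, hΨ, XX, one_smul]
      abel
    rw [nrm, ← this, dir, dir, map_smul, Ψ.norm_map]
  have h2 : jac (cns (-x) (-s)) = nn (s, x) := by
    rw [jac_cns]
    simp [nn]
  rw [← h1, rad_St Ψ _ ha fun u _ => h0 u, h2]
  congr 1
  have hS := measurableSet_St ha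
  have hr := r.continuous
  let F : ℝ × V k → ℝ≥0∞ := fun y =>
    (St a).indicator 1 (y.1 • p + r y.2 + (-x * y.1 - ⟪y.2, s⟫) • q)
  have hF : Measurable F :=
    (measurable_one.indicator hS).comp (Continuous.measurable (by fun_prop))
  have hsec := measurableSet_sec (cns (-x) (-s)) (Ψ.continuous.measurable hS)
  have h3 : volume (sec (cns (-x) (-s)) (Ψ ⁻¹' St a)) = ∫⁻ y, ∫⁻ z, F (y, z) := by
    rw [← lintegral_indicator_one hsec, lintegral_cns' (measurable_one.indicator hsec)]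
    refine lintegral_congr fun y => lintegral_congr fun z => ?_
    have : Ψ (cns ⟪cns (-x) (-s), cns y z⟫ (cns y z)) =
        y • p + r z + (-x * y - ⟪z, s⟫) • q := by
      rw [hΨ, inner_cns, inner_neg_left, real_inner_comm, sub_eq_add_neg]
    simp only [F]
    rw [← this]
    rfl
  have hm : Measurable fun y : ℝ × V k => ENNReal.ofReal (|y.1| ^ k) * F (y.1, y.1 • y.2) :=
    Measurable.mul (by fun_prop) (hF.comp (by fun_prop))
  have h4 : ∫⁻ y, ∫⁻ z, F (y, z) = ∫⁻ y, ∫⁻ t, ENNReal.ofReal (|y| ^ k) * F (y, y • t) := by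
    refine lintegral_congr_ae ?_
    filter_upwards [compl_mem_ae_iff.2 (measure_singleton (0 : ℝ))] with y hy
    rw [lintegral_scale volume (f := fun t => F (y, t)) (hF.comp (by fun_prop)) hy,
      lintegral_const_mul' _ _ ENNReal.ofReal_ne_top]
    simp
  rw [h3, h4, lintegral_lintegral_swap hm.aemeasurable,
    ← lintegral_const_mul' _ _ ENNReal.ofReal_ne_top]
  refine lintegral_congr fun t => ?_
  have hn := nn_pos (t, -x - ⟪t, s⟫)
  rw [← div_pow, ← CdEq_abs_Ioo k (div_nonneg (h0 _) hn.le),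
    ← lintegral_indicator measurableSet_Ioo]
  refine lintegral_congr_ae ?_
  filter_upwards [compl_mem_ae_iff.2 (measure_singleton (0 : ℝ))] with y hy
  have hy' : y ≠ 0 := hy
  have e1 : y • p + r (y • t) + (-x * y - ⟪y • t, s⟫) • q = y • XX p r q (t, -x - ⟪t, s⟫) := by
    simp only [XX, map_smul, real_inner_smul_left]; module
  have e2 : a (dir (y • XX p r q (t, -x - ⟪t, s⟫))) = a (dir (XX p r q (t, -x - ⟪t, s⟫))) := by
    rcases lt_or_gt_of_ne hy' with l | l
    · rw [← hev]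
      congr 1
      simp only [dir, norm_smul, Real.norm_eq_abs, abs_of_neg l, smul_smul, ← neg_smul, h.norm_XX]
      congr 1
      field_simp
    · congr 1
      simp only [dir, norm_smul, Real.norm_eq_abs, abs_of_pos l, smul_smul, h.norm_XX]
      congr 1
      field_simp
  have e3 : y • XX p r q (t, -x - ⟪t, s⟫) ∈ St a ↔ y ∈ Ioo
      (-(a (dir (XX p r q (t, -x - ⟪t, s⟫))) / nn (t, -x - ⟪t, s⟫)))
      (a (dir (XX p r q (t, -x - ⟪t, s⟫))) / nn (t, -x - ⟪t, s⟫)) := by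
    rw [St, mem_ofPred_eq, e2, norm_smul, h.norm_XX, mem_Ioo, ← abs_lt, lt_div_iff₀ hn,
      Real.norm_eq_abs]
  simp only [F]
  rw [e1]
  by_cases l : y • XX p r q (t, -x - ⟪t, s⟫) ∈ St a
  · rw [indicator_of_mem l, indicator_of_mem (e3.1 l), Pi.one_apply, mul_one]
  · rw [indicator_of_notMem l, indicator_of_notMem fun l' => l (e3.2 l'), mul_zero]

omit [FiniteDimensional ℝ E] [MeasurableSpace E] [BorelSpace E] in
/-- Solutions of the equation, in all charts. -/
structure Sol (k : ℕ) (i c : ℝ) (ρ : E → ℝ) : Prop where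
  cont : ContinuousOn ρ (sphere 0 1)
  nonneg : ∀ u, 0 ≤ ρ u
  even : ∀ u, ‖u‖ = 1 → ρ (-u) = ρ u
  eq : ∀ (p : E) (r : V k →ₗᵢ[ℝ] E) (q : E), Frm p r q → ∀ (x : ℝ) (s : V k), ∫⁻ t, ENNReal.ofReal
    (ρ (dir (XX p r q (t, -x - ⟪t, s⟫))) ^ i / nn (t, -x - ⟪t, s⟫) ^ (k + 1)) =
      ENNReal.ofReal (c * (ρ (dir (XX q r p (s, x))) / nn (s, x)))

/-- Sketch: as `sol_radial` of `TEq.lean` with `a x = radial L (dir x) ^ (i / (k + 1))`. -/
theorem sol_radial (hE : finrank ℝ E = k + 2) {i : ℝ} (hi : 0 ≤ i) {L : Set E}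
    (hL : ContinuousOn (radial L) (sphere 0 1)) {c : ℝ} (hc : 0 < c)
    (h : ∀ u, ‖u‖ = 1 → interRadial i L u = c * radial L u) :
    Sol k i ((k + 1) / 2 * c) (radial L) := by
  have hev : ∀ u, ‖u‖ = 1 → radial L (-u) = radial L u := fun u hu => by
    have h2 := h (-u) (by rw [norm_neg, hu])
    rw [interRadial_neg, h u hu, mul_right_inj' hc.ne'] at h2
    exact h2.symm
  refine ⟨hL, radial_nonneg L, hev, fun p r q hf x s => ?_⟩
  let a : E → ℝ := fun x => radial L (dir x) ^ (i / (k + 1))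
  have hk : (0 : ℝ) < k + 1 := by positivity
  have hdu : ∀ u : E, ‖u‖ = 1 → dir u = u := fun u hu => by simp [dir, hu]
  have ha2 : ∀ u, ‖u‖ = 1 → a u ^ (k + 1) = radial L u ^ i := fun u hu => by
    simp only [a]
    rw [hdu u hu, ← Real.rpow_mul_natCast (radial_nonneg _ _), Nat.cast_succ,
      div_mul_cancel₀ _ hk.ne']
  have ham : Measurable a := by
    refine Measurable.pow_const (measurable_of_continuousOn_compl_singleton 0 ?_) _
    refine hL.comp (f := dir) ?_ fun x hx => by simpa using norm_dir hx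
    exact (continuous_norm.continuousOn.inv₀ fun x hx => norm_ne_zero_iff.2 hx).smul
      continuousOn_id
  have h1 := hf.rad_eq hE ham (fun u => Real.rpow_nonneg (radial_nonneg _ _) _) (fun u => by
    by_cases hu : u = 0
    · simp [hu]
    · have : dir (-u) = -dir u := by simp [dir]
      simp only [a, this, hev _ (norm_dir hu)]) x s
  have h2 := ofReal_interRadial (m := k) hE hi hL (dir (XX q r p (s, x)))
  have h3 : rad (fun v => ENNReal.ofReal (a v ^ (k + 1) / (k + 1 : ℕ))) (dir (XX q r p (s, x))) =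
      rad (fun v => ENNReal.ofReal (radial L v ^ i / (k + 1 : ℕ))) (dir (XX q r p (s, x))) :=
    lintegral_congr fun v => congrArg (fun y : ℝ => ENNReal.ofReal (y / (k + 1 : ℕ)))
      (ha2 _ (norm_eq_of_mem_sphere v))
  rw [h3, ← h2, h _ (norm_dir (hf.symm.XX_ne _))] at h1
  simp only [ha2 _ (norm_dir (hf.XX_ne _))] at h1
  have hn := nn_pos (s, x)
  have hp : 0 < nn (s, x) * (2 / (k + 1)) := by positivity
  rw [← mul_assoc, ← ENNReal.ofReal_mul hn.le] at h1
  rw [← ENNReal.mul_right_inj (a := ENNReal.ofReal (nn (s, x) * (2 / (k + 1))))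
    (ENNReal.ofReal_pos.2 hp).ne' ENNReal.ofReal_ne_top, ← h1, ← ENNReal.ofReal_mul hp.le]
  congr 1
  field_simp

end Pool.Agent.Lib.MP_0a1ca9_gt.Cd
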