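import Pool.Agent.Lib.MP_0a1ca9_gt.Polar

/-! Coordinates, determinants of tuples of vectors and the random simplex functional. -/

open MeasureTheory Set Metric Module
open scoped ENNReal RealInnerProductSpace

namespace Pool.Agent.Lib.MP_0a1ca9_gt

/-- Euclidean space. -/
abbrev V (d : ℕ) := EuclideanSpace ℝ (Fin d)

/-- Prepend a coordinate. -/
noncomputable def cns {m : ℕ} (t : ℝ) (y : V m) : V (m + 1) :=
  WithLp.toLp 2 (Fin.cons t y.ofLp : Fin (m + 1) → ℝ)

@[simp] theorem cns_zero {m : ℕ} (t : ℝ) (y : V m) : cns t y 0 = t := rfl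

@[simp] theorem cns_succ {m : ℕ} (t : ℝ) (y : V m) (k : Fin m) : cns t y k.succ = y k := rfl

theorem inner_cns {m : ℕ} (t s : ℝ) (y z : V m) : ⟪cns t y, cns s z⟫ = t * s + ⟪y, z⟫ := by
  simp [PiLp.inner_apply, Fin.sum_univ_succ, mul_comm]

theorem norm_cns_sq {m : ℕ} (t : ℝ) (y : V m) : ‖cns t y‖ ^ 2 = t ^ 2 + ‖y‖ ^ 2 := by
  rw [← real_inner_self_eq_norm_sq, inner_cns, real_inner_self_eq_norm_sq]; ring

theorem cns_add {m : ℕ} (t s : ℝ) (y z : V m) : cns (t + s) (y + z) = cns t y + cns s z := by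
  ext k; refine Fin.cases ?_ (fun k => ?_) k <;> simp

theorem cns_smul {m : ℕ} (c t : ℝ) (y : V m) : cns (c * t) (c • y) = c • cns t y := by
  ext k; refine Fin.cases ?_ (fun k => ?_) k <;> simp

theorem continuous_cns {m : ℕ} : Continuous fun p : ℝ × V m => cns p.1 p.2 := by
  unfold cns
  refine (PiLp.continuous_toLp 2 _).comp (continuous_pi fun k => ?_)
  refine Fin.cases ?_ (fun k => ?_) k
  · simpa using continuous_fst
  · simp only [Fin.cons_succ]; fun_prop

@[fun_prop]
theorem Measurable.cns {α : Type*} [MeasurableSpace α] {m : ℕ} {f : α → ℝ} {g : α → V m}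
    (hf : Measurable f) (hg : Measurable g) : Measurable fun a => cns (f a) (g a) :=
  continuous_cns.measurable.comp (hf.prodMk hg)

theorem exists_cns {m : ℕ} (x : V (m + 1)) : ∃ t y, x = cns t y :=
  ⟨x 0, WithLp.toLp 2 fun k => x k.succ, by
    ext k; refine Fin.cases ?_ (fun k => ?_) k <;> simp⟩

theorem mp_cns (m : ℕ) : MeasurePreserving (fun p : ℝ × V m => cns p.1 p.2)
    ((volume : Measure ℝ).prod volume) volume := by
  have h1 := (volume_preserving_piFinSuccAbove (fun _ : Fin (m + 1) => ℝ) 0).symm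
  have h2 := (MeasurePreserving.id (volume : Measure ℝ)).prod (PiLp.volume_preserving_ofLp (Fin m))
  have h3 := (PiLp.volume_preserving_toLp (Fin (m + 1))).comp (h1.comp h2)
  have h4 : (fun p : ℝ × V m => cns p.1 p.2) = WithLp.toLp 2 ∘
      ⇑(MeasurableEquiv.piFinSuccAbove (fun _ : Fin (m + 1) => ℝ) 0).symm ∘
        Prod.map id WithLp.ofLp := by
    ext p k
    refine Fin.cases ?_ (fun k => ?_) k <;>
      simp [MeasurableEquiv.piFinSuccAbove, Fin.insertNthEquiv]
  rw [h4]
  exact h3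

theorem lintegral_cns {m : ℕ} {f : V (m + 1) → ℝ≥0∞} (hf : Measurable f) :
    ∫⁻ x, f x = ∫⁻ y : V m, ∫⁻ t : ℝ, f (cns t y) := by
  rw [← (mp_cns m).lintegral_comp hf, lintegral_prod_symm]
  exact (hf.comp continuous_cns.measurable).aemeasurable

theorem lintegral_cns' {m : ℕ} {f : V (m + 1) → ℝ≥0∞} (hf : Measurable f) :
    ∫⁻ x, f x = ∫⁻ t : ℝ, ∫⁻ y : V m, f (cns t y) := by
  rw [← (mp_cns m).lintegral_comp hf, lintegral_prod]
  exact (hf.comp continuous_cns.measurable).aemeasurable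

theorem mp_cns_pi (k m : ℕ) : MeasurePreserving
    (fun p : (Fin k → ℝ) × (Fin k → V m) => fun j => cns (p.1 j) (p.2 j))
    ((volume : Measure (Fin k → ℝ)).prod volume) volume := by
  have h1 := (volume_measurePreserving_arrowProdEquivProdArrow ℝ (V m) (Fin k)).symm
  have h2 := volume_preserving_pi (fun _ : Fin k => mp_cns m)
  exact h2.comp h1

theorem lintegral_cns_pi {k m : ℕ} {f : (Fin k → V (m + 1)) → ℝ≥0∞} (hf : Measurable f) :
    ∫⁻ X, f X = ∫⁻ Y : Fin k → V m, ∫⁻ z : Fin k → ℝ, f fun j => cns (z j) (Y j) := by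
  rw [← (mp_cns_pi k m).lintegral_comp hf, lintegral_prod_symm]
  exact (hf.comp (mp_cns_pi k m).measurable).aemeasurable

/-- Determinant of a tuple of vectors. -/
noncomputable def dt {d : ℕ} (Y : Fin d → V d) : ℝ := (Matrix.of fun j k => Y j k).det

theorem continuous_dt {d : ℕ} : Continuous (dt : (Fin d → V d) → ℝ) := by
  unfold dt
  refine Continuous.matrix_det ?_
  refine continuous_pi fun j => continuous_pi fun k => ?_
  simp only [Matrix.of_apply]
  fun_prop

theorem dt_eq {d : ℕ} (Y : Fin d → V d) :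
    dt Y = (EuclideanSpace.basisFun (Fin d) ℝ).toBasis.det Y := by
  rw [Basis.det_apply, dt, ← Matrix.det_transpose]
  congr 1

theorem dt_comp {d : ℕ} (T : V d →ₗ[ℝ] V d) (Y : Fin d → V d) :
    dt (fun j => T (Y j)) = LinearMap.det T * dt Y := by
  rw [dt_eq, dt_eq]
  exact Basis.det_comp _ T Y

/-- The random simplex functional. -/
noncomputable def sx {d : ℕ} (A : Set (V d)) : ℝ≥0∞ :=
  ∫⁻ Y : Fin d → V d, (Set.pi univ fun _ => A).indicator (fun Y => ENNReal.ofReal |dt Y|) Y

theorem measurable_sx_integrand {d : ℕ} {A : Set (V d)} (hA : MeasurableSet A) :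
    Measurable ((Set.pi univ fun _ : Fin d => A).indicator
      (fun Y => ENNReal.ofReal |dt Y|)) :=
  Measurable.indicator (continuous_dt.abs.measurable.ennreal_ofReal)
    (MeasurableSet.univ_pi fun _ => hA)

theorem sx_preimage {d : ℕ} (T : V d →ₗ[ℝ] V d) (hT : LinearMap.det T ≠ 0) {A : Set (V d)}
    (hA : MeasurableSet A) :
    ENNReal.ofReal |LinearMap.det T| ^ (d + 1) * sx (T ⁻¹' A) = sx A := by
  let P : (Fin d → V d) →ₗ[ℝ] (Fin d → V d) :=
    LinearMap.pi fun j => T.comp (LinearMap.proj j)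
  have hP : LinearMap.det P = LinearMap.det T ^ d := by
    simp only [P]
    rw [LinearMap.det_pi]; simp
  have hPm : Measurable P := P.continuous_of_finiteDimensional.measurable
  have hP0 : LinearMap.det P ≠ 0 := by rw [hP]; exact pow_ne_zero _ hT
  have hmap := Measure.map_linearMap_addHaar_eq_smul_addHaar (volume : Measure (Fin d → V d)) hP0
  have h1 := lintegral_map (μ := (volume : Measure (Fin d → V d)))
    (measurable_sx_integrand hA) hPm
  rw [hmap, lintegral_smul_measure] at h1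
  have hTm : MeasurableSet (T ⁻¹' A) := T.continuous_of_finiteDimensional.measurable hA
  have h2 : ∀ Y : Fin d → V d, (Set.pi univ fun _ : Fin d => A).indicator
      (fun Y => ENNReal.ofReal |dt Y|) (P Y) = ENNReal.ofReal |LinearMap.det T| *
      (Set.pi univ fun _ : Fin d => T ⁻¹' A).indicator (fun Y => ENNReal.ofReal |dt Y|) Y := by
    intro Y
    have hPY : P Y = fun j => T (Y j) := rfl
    by_cases hY : Y ∈ Set.pi univ fun _ : Fin d => T ⁻¹' A
    · rw [indicator_of_mem hY, indicator_of_mem (by rw [hPY]; exact hY), hPY, dt_comp, abs_mul,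
        ENNReal.ofReal_mul (abs_nonneg _)]
    · rw [indicator_of_notMem hY, indicator_of_notMem (by rw [hPY]; exact hY), mul_zero]
  simp only [h2] at h1
  rw [lintegral_const_mul _ (measurable_sx_integrand hTm)] at h1
  have hpos : 0 < |LinearMap.det T| := abs_pos.2 hT
  rw [pow_succ, mul_assoc, sx, ← h1, sx, smul_eq_mul, ← mul_assoc, hP, ← ENNReal.ofReal_pow hpos.le,
    ← ENNReal.ofReal_mul (by positivity), abs_inv, abs_pow, mul_inv_cancel₀ (by positivity)]
  simp

theorem vol_preimage {d : ℕ} (T : V d →ₗ[ℝ] V d) (hT : LinearMap.det T ≠ 0) (A : Set (V d)) :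
    ENNReal.ofReal |LinearMap.det T| * volume (T ⁻¹' A) = volume A := by
  have hpos : 0 < |LinearMap.det T| := abs_pos.2 hT
  rw [Measure.addHaar_preimage_linearMap _ hT, ← mul_assoc, ← ENNReal.ofReal_mul hpos.le, abs_inv,
    mul_inv_cancel₀ hpos.ne']
  simp

/-- Equality in the random simplex inequality for ellipsoids. -/
theorem sx_ellipsoid {d : ℕ} (T : V d →ₗ[ℝ] V d) (hT : LinearMap.det T ≠ 0) :
    sx (ball (0 : V d) 1) * volume (T ⁻¹' ball (0 : V d) 1) ^ (d + 1) =
      sx (T ⁻¹' ball (0 : V d) 1) * volume (ball (0 : V d) 1) ^ (d + 1) := by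
  rw [← sx_preimage T hT measurableSet_ball, ← vol_preimage T hT (ball 0 1), mul_pow]
  ring

theorem abs_det_isometry {d : ℕ} (U : V d ≃ₗᵢ[ℝ] V d) :
    |LinearMap.det (U.toLinearEquiv : V d →ₗ[ℝ] V d)| = 1 := by
  rw [← LinearMap.normDet_eq_abs_det]
  exact U.toLinearIsometry.normDet_eq_one

theorem sx_isometry {d : ℕ} (U : V d ≃ₗᵢ[ℝ] V d) {A : Set (V d)} (hA : MeasurableSet A) :
    sx (U ⁻¹' A) = sx A := by
  have h := abs_det_isometry U
  have := sx_preimage (U.toLinearEquiv : V d →ₗ[ℝ] V d) (by intro h0; simp [h0] at h) hA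
  rw [h] at this
  simpa using this

end Pool.Agent.Lib.MP_0a1ca9_gt
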