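import Pool.Agent.Lib.MP_0a1ca9_gt.CdGauss
import Pool.Agent.Lib.MP_0a1ca9_gt.Coord

/-! The rearrangement inequality for finitely many strips, with a Gaussian weight. -/

open MeasureTheory Set Filter Topology
open scoped RealInnerProductSpace

namespace Pool.Agent.Lib.MP_0a1ca9_gt.Cd

/-- The differences of order `p` of a sequence are nonnegative. -/
def Mon : ℕ → (ℕ → ℝ) → Prop
  | 0, F => ∀ k, 0 ≤ F k
  | p + 1, F => Mon p fun k => F (k + 1) - F k

/-- The multilinear form attached to a sequence. -/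
noncomputable def ml {J : Type*} [DecidableEq J] (F : ℕ → ℝ) (S : Finset J) (u v : J → ℝ) : ℝ :=
  ∑ A ∈ S.powerset, F A.card * ∏ j ∈ S, if j ∈ A then u j else v j

theorem CdFin_shift {p : ℕ} {F : ℕ → ℝ} (h : Mon p F) : Mon p fun k => F (k + 1) := by
  induction p generalizing F with
  | zero => exact fun k => h (k + 1)
  | succ p ih => exact ih (F := fun k => F (k + 1) - F k) h

theorem CdFin_insert {J : Type*} [DecidableEq J] {S : Finset J} {j : J} (hj : j ∉ S) (F : ℕ → ℝ)
    (u v : J → ℝ) :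
    ml F (insert j S) u v = u j * ml (fun k => F (k + 1)) S u v + v j * ml F S u v := by
  rw [ml, Finset.sum_powerset_insert hj, add_comm, ml, ml, Finset.mul_sum, Finset.mul_sum]
  congr 1
  · refine Finset.sum_congr rfl fun A hA => ?_
    have h1 : j ∉ A := fun h => hj (Finset.mem_powerset.1 hA h)
    have h2 : (∏ i ∈ S, if i ∈ insert j A then u i else v i) =
        ∏ i ∈ S, if i ∈ A then u i else v i := Finset.prod_congr rfl fun i hi => by
      have h3 : i ≠ j := fun h => hj (h ▸ hi)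
      simp only [Finset.mem_insert, h3, false_or]
    rw [Finset.prod_insert hj, if_pos (Finset.mem_insert_self j A), h2,
      Finset.card_insert_of_notMem h1]
    ring
  · refine Finset.sum_congr rfl fun A hA => ?_
    have h1 : j ∉ A := fun h => hj (Finset.mem_powerset.1 hA h)
    rw [Finset.prod_insert hj, if_neg h1]
    ring

/-- Sketch: induction on `S` for all `F` (`Finset.sum_powerset_insert`):
`ml F (insert j S) u v = u j * ml (fun k => F (k + 1)) S u v + v j * ml F S u v`; `ml` is additive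
in `F`; `Mon p` is stable under the shift. -/
theorem ml_nonneg {J : Type*} [DecidableEq J] (S τ : Finset J) {F : ℕ → ℝ} {u v : J → ℝ}
    (hF : Mon (S ∩ τ).card F) (hu : ∀ j, 0 ≤ u j) (h1 : ∀ j ∈ τ, v j = -u j)
    (h2 : ∀ j, j ∉ τ → 0 ≤ v j) : 0 ≤ ml F S u v := by
  induction S using Finset.induction_on generalizing F with
  | empty => simpa [ml] using (show Mon 0 F by simpa using hF) 0
  | insert j S hj ih =>
    rw [CdFin_insert hj]
    by_cases h : j ∈ τ
    · rw [Finset.insert_inter_of_mem h,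
        Finset.card_insert_of_notMem fun k => hj (Finset.mem_inter.1 k).1] at hF
      have h3 := mul_nonneg (hu j) (ih (F := fun k => F (k + 1) - F k) hF)
      have h4 : ml (fun k => F (k + 1) - F k) S u v =
          ml (fun k => F (k + 1)) S u v - ml F S u v := by
        simp only [ml, sub_mul, Finset.sum_sub_distrib]
      rw [h4] at h3
      rw [h1 j h]
      linarith
    · rw [Finset.insert_inter_of_notMem h] at hF
      exact add_nonneg (mul_nonneg (hu j) (ih (CdFin_shift hF))) (mul_nonneg (h2 j h) (ih hF))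

/-- A smooth decreasing profile. -/
noncomputable def pf (a : ℝ) (b : ℕ) (s : ℝ) : ℝ := 1 - (1 - Real.exp (-(a * s))) ^ b

theorem CdFin_mem {a s : ℝ} (h : 0 ≤ a * s) (b : ℕ) : 0 ≤ pf a b s ∧ pf a b s ≤ 1 := by
  have h1 : Real.exp (-(a * s)) ≤ 1 := Real.exp_le_one_iff.2 (by linarith)
  have h2 := Real.exp_pos (-(a * s))
  have h3 : (1 - Real.exp (-(a * s))) ^ b ≤ 1 := pow_le_one₀ (by linarith) (by linarith)
  have h4 : 0 ≤ (1 - Real.exp (-(a * s))) ^ b := pow_nonneg (by linarith) b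
  unfold pf
  constructor <;> linarith

theorem CdFin_binom (b : ℕ) (x : ℝ) :
    ∑ m ∈ Finset.range (b + 1), (-1) ^ m * (b.choose m : ℝ) * x ^ m = (1 - x) ^ b := by
  rw [sub_eq_neg_add, add_pow]
  refine Finset.sum_congr rfl fun m _ => ?_
  rw [neg_pow x]
  ring

theorem CdFin_binom' (b : ℕ) {x : ℝ} (h0 : 0 ≤ x) (h1 : x ≤ 1) :
    ∑ m ∈ Finset.range (b + 1), (-1) ^ m * (b.choose m : ℝ) * (m * x ^ m) ≤ 0 := by
  rcases b with _ | b
  · simp
  · have h2 : ∑ m ∈ Finset.range (b + 1 + 1), (-1) ^ m * ((b + 1).choose m : ℝ) * (m * x ^ m) =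
        -((b + 1) * x * (1 - x) ^ b) := by
      rw [Finset.sum_range_succ', ← CdFin_binom, Finset.mul_sum, ← Finset.sum_neg_distrib]
      simp only [Nat.cast_zero, zero_mul, mul_zero, add_zero]
      refine Finset.sum_congr rfl fun m _ => ?_
      have h3 : ((b : ℝ) + 1) * (b.choose m : ℝ) = ((b + 1).choose (m + 1) : ℝ) * (m + 1) := by
        exact_mod_cast Nat.add_one_mul_choose_eq b m
      push_cast
      linear_combination (-1) ^ m * x ^ (m + 1) * h3
    rw [h2, neg_nonpos]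
    have h4 : 0 ≤ 1 - x := by linarith
    positivity

theorem CdFin_expand {J : Type*} [Fintype J] [DecidableEq J] (F : ℕ → ℝ) (b : J → ℕ)
    (P Q G : J → ℕ → ℝ) :
    ∑ k ∈ (Finset.univ : Finset J).powerset ×ˢ Fintype.piFinset fun j => Finset.range (b j + 1),
      (F k.1.card * ∏ j, if j ∈ k.1 then P j (k.2 j) else Q j (k.2 j)) * ∏ j, G j (k.2 j) =
      ml F Finset.univ (fun j => ∑ m ∈ Finset.range (b j + 1), P j m * G j m)
        fun j => ∑ m ∈ Finset.range (b j + 1), Q j m * G j m := by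
  rw [Finset.sum_product, ml]
  refine Finset.sum_congr rfl fun A _ => ?_
  have h1 : ∀ j, (if j ∈ A then ∑ m ∈ Finset.range (b j + 1), P j m * G j m
      else ∑ m ∈ Finset.range (b j + 1), Q j m * G j m) =
      ∑ m ∈ Finset.range (b j + 1), (if j ∈ A then P j m else Q j m) * G j m := fun j => by
    split_ifs <;> rfl
  simp only [h1]
  rw [Finset.prod_univ_sum, Finset.mul_sum]
  refine Finset.sum_congr rfl fun m _ => ?_
  rw [Finset.prod_mul_distrib, mul_assoc]

theorem CdFin_tau {J : Type*} [Fintype J] [DecidableEq J] (F : ℕ → ℝ) (b : J → ℕ) (a : ℝ)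
    (s : J → ℝ) (τ : Finset J) :
    ∑ k ∈ (Finset.univ : Finset J).powerset ×ˢ Fintype.piFinset fun j => Finset.range (b j + 1),
      (F k.1.card * ∏ j, if j ∈ k.1 then (if k.2 j = 0 then 1 else 0) -
        (-1) ^ k.2 j * ((b j).choose (k.2 j) : ℝ) else (-1) ^ k.2 j * ((b j).choose (k.2 j) : ℝ)) *
        (∏ j ∈ τ, a * (k.2 j : ℝ)) * Real.exp (-∑ j, a * (k.2 j : ℝ) * s j) =
      ml F Finset.univ
        (fun j => if j ∈ τ then -(a * ∑ m ∈ Finset.range (b j + 1),
          (-1) ^ m * ((b j).choose m : ℝ) * (m * Real.exp (-(a * s j)) ^ m)) else pf a (b j) (s j))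
        fun j => if j ∈ τ then a * ∑ m ∈ Finset.range (b j + 1),
          (-1) ^ m * ((b j).choose m : ℝ) * (m * Real.exp (-(a * s j)) ^ m)
          else 1 - pf a (b j) (s j) := by
  have h1 := CdFin_expand F b
    (fun j m => (if m = 0 then 1 else 0) - (-1) ^ m * ((b j).choose m : ℝ))
    (fun j m => (-1) ^ m * ((b j).choose m : ℝ))
    fun j m => (if j ∈ τ then a * (m : ℝ) else 1) * Real.exp (-(a * s j)) ^ m
  refine Eq.trans (Finset.sum_congr rfl fun k _ => ?_) (h1.trans ?_)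
  · rw [mul_assoc, ← Fintype.prod_ite_mem τ, ← Finset.sum_neg_distrib, Real.exp_sum,
      ← Finset.prod_mul_distrib]
    congr 1
    refine Finset.prod_congr rfl fun j _ => ?_
    rw [← Real.exp_nat_mul]
    congr 2
    ring
  · congr 1
    · funext j
      simp only [sub_mul, Finset.sum_sub_distrib, ite_mul, one_mul, zero_mul,
        Finset.sum_ite_eq', Finset.mem_range, Nat.zero_lt_succ, if_true]
      split_ifs with h
      · rw [Finset.mul_sum, Nat.cast_zero, mul_zero, zero_mul, zero_sub]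
        exact congrArg _ (Finset.sum_congr rfl fun m _ => by ring)
      · rw [pf, pow_zero, CdFin_binom]
    · funext j
      split_ifs with h
      · rw [Finset.mul_sum]
        exact Finset.sum_congr rfl fun m _ => by ring
      · simp only [one_mul]
        rw [pf, CdFin_binom, sub_sub_cancel]

/-- Sketch: `gauss_anti` with `K = Finset J × (J → ℕ)`,
`S = univ.powerset ×ˢ Fintype.piFinset fun j => range (b j + 1)`, `κ (A, m) j = a * m j`,
`γ (A, m) = F A.card * ∏ j, if j ∈ A then (if m j = 0 then 1 else 0) - g j (m j) else g j (m j)`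
with `g j m = (-1) ^ m * (b j).choose m`. By `Finset.prod_univ_sum` the sum for `τ` is
`ml F univ u v` where for `j ∉ τ`: `u j = pf a (b j) (s j)`, `v j = 1 - u j` (binomial theorem) and
for `j ∈ τ`: `u j = a * b j * x * (1 - x) ^ (b j - 1)`, `x = exp (-(a * s j))`, `v j = -u j`
(differentiate the binomial theorem, or `Nat.add_one_mul_choose_eq`). Pass from `Fin d → ℝ` to
`V d` with `PiLp.volume_preserving_toLp`. -/
theorem pf_anti {d : ℕ} {J : Type*} [Fintype J] [DecidableEq J] (y : J → V d) (c : J → ℝ)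
    {a l : ℝ} (ha : 0 ≤ a) (hl : 0 < l) (b : J → ℕ) {F : ℕ → ℝ}
    (hF : ∀ p, 1 ≤ p → p ≤ d + 1 → Mon p F) :
    AntitoneOn (fun t : ℝ => ∫ w : V d, Real.exp (-(l * ‖w‖ ^ 2)) *
      ml F Finset.univ (fun j => pf a (b j) ((⟪y j, w⟫ + t * c j) ^ 2))
        fun j => 1 - pf a (b j) ((⟪y j, w⟫ + t * c j) ^ 2)) (Ici 0) := by
  have h := gauss_anti
    ((Finset.univ : Finset J).powerset ×ˢ Fintype.piFinset fun j => Finset.range (b j + 1))
    (fun j => (y j).ofLp) c hl
    (fun k => F k.1.card * ∏ j, if j ∈ k.1 then (if k.2 j = 0 then 1 else 0) -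
      (-1) ^ k.2 j * ((b j).choose (k.2 j) : ℝ) else (-1) ^ k.2 j * ((b j).choose (k.2 j) : ℝ))
    (fun k j => a * (k.2 j : ℝ)) (fun k _ j => by positivity) fun s hs τ t1 t2 => by
      rw [CdFin_tau]
      have hx := fun j => mul_nonneg ha (hs j)
      refine ml_nonneg _ τ (by rw [Finset.univ_inter]; exact hF _ t1 t2) (fun j => ?_)
        (fun j hj => by rw [if_pos hj, if_pos hj, neg_neg]) fun j hj => ?_
      · split_ifs
        · exact neg_nonneg.2 (mul_nonpos_of_nonneg_of_nonpos ha (CdFin_binom' _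
            (Real.exp_pos _).le (Real.exp_le_one_iff.2 (neg_nonpos.2 (hx j)))))
        · exact (CdFin_mem (hx j) _).1
      · rw [if_neg hj]
        exact sub_nonneg.2 (CdFin_mem (hx j) _).2
  convert h using 2 with t
  rw [← (PiLp.volume_preserving_toLp (Fin d)).integral_comp
    (MeasurableEquiv.toLp 2 (Fin d → ℝ)).measurableEmbedding]
  refine integral_congr_ae (Eventually.of_forall fun w => ?_)
  have h1 : ‖(WithLp.toLp 2 w : V d)‖ ^ 2 = w ⬝ᵥ w := by
    rw [EuclideanSpace.real_norm_sq_eq]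
    simp only [dotProduct, pow_two]
  have h2 : ∀ j, ⟪y j, (WithLp.toLp 2 w : V d)⟫ = (y j).ofLp ⬝ᵥ w := fun j => by
    simp [PiLp.inner_apply, dotProduct, mul_comm]
  have h3 := CdFin_tau F b a (fun j => ((y j).ofLp ⬝ᵥ w + t * c j) ^ 2) ∅
  simp only [Finset.prod_empty, mul_one, Finset.notMem_empty, if_false] at h3
  simp only [h1, h2, h3]

/-- Sketch: `1 - b x ≤ (1 - x) ^ b ≤ exp (-(b x))`; for `R < s`, `b x ≤ exp (n - n ^ 2 (s - R))`;
for `s ≤ R`, `b x ≥ exp n - 1`. -/
theorem tendsto_pf {s : ℝ} (hs : 0 ≤ s) (R : ℝ) :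
    Tendsto (fun n : ℕ => pf (n ^ 2) ⌊Real.exp (n ^ 2 * R + n)⌋₊ s) atTop
      (𝓝 (if s ≤ R then 1 else 0)) := by
  have he : Tendsto (fun n : ℕ => Real.exp (-(n : ℝ))) atTop (𝓝 0) :=
    Real.tendsto_exp_neg_atTop_nhds_zero.comp tendsto_natCast_atTop_atTop
  have hx : ∀ n : ℕ, Real.exp (-((n : ℝ) ^ 2 * s)) ≤ 1 := fun n =>
    Real.exp_le_one_iff.2 (neg_nonpos.2 (by positivity))
  split_ifs with h
  · have h1 : Tendsto (fun n : ℕ => (1 - Real.exp (-((n : ℝ) ^ 2 * s))) ^
        ⌊Real.exp (n ^ 2 * R + n)⌋₊) atTop (𝓝 0) := by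
      refine squeeze_zero (fun n => pow_nonneg (sub_nonneg.2 (hx n)) _) (fun n => ?_) he
      refine (pow_le_pow_left₀ (sub_nonneg.2 (hx n)) (Real.one_sub_le_exp_neg _) _).trans ?_
      rw [← Real.exp_nat_mul, Real.exp_le_exp]
      have h2 := mul_le_mul_of_nonneg_right (Nat.lt_floor_add_one
        (Real.exp ((n : ℝ) ^ 2 * R + n))).le (Real.exp_pos (-((n : ℝ) ^ 2 * s))).le
      rw [← Real.exp_add] at h2
      have h3 := Real.add_one_le_exp ((n : ℝ) ^ 2 * R + n + -((n : ℝ) ^ 2 * s))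
      have h4 := mul_le_mul_of_nonneg_left h (sq_nonneg (n : ℝ))
      linarith [hx n]
    simpa only [pf, sub_zero] using h1.const_sub 1
  · have h1 : 0 < s - R := sub_pos.2 (not_le.1 h)
    refine squeeze_zero' (Eventually.of_forall fun n => (CdFin_mem (by positivity) _).1) ?_ he
    filter_upwards [tendsto_natCast_atTop_atTop.eventually_ge_atTop (2 / (s - R))] with n hn
    rw [div_le_iff₀ h1] at hn
    have h2 := one_add_mul_le_pow (a := -Real.exp (-((n : ℝ) ^ 2 * s))) (by linarith [hx n])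
      ⌊Real.exp (n ^ 2 * R + n)⌋₊
    have h3 := mul_le_mul_of_nonneg_right (Nat.floor_le
      (Real.exp_pos ((n : ℝ) ^ 2 * R + n)).le) (Real.exp_pos (-((n : ℝ) ^ 2 * s))).le
    rw [← Real.exp_add] at h3
    have h4 : Real.exp ((n : ℝ) ^ 2 * R + n + -((n : ℝ) ^ 2 * s)) ≤ Real.exp (-(n : ℝ)) :=
      Real.exp_le_exp.2 (by nlinarith [mul_le_mul_of_nonneg_left hn (Nat.cast_nonneg n)])
    rw [← sub_eq_add_neg] at h2
    unfold pf
    linarith

theorem integrable_gauss (d : ℕ) {l : ℝ} (hl : 0 < l) :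
    Integrable fun w : V d => Real.exp (-(l * ‖w‖ ^ 2)) := by
  have h := GaussianFourier.integral_rexp_neg_mul_sq_norm (V := V d) hl
  simp only [neg_mul] at h
  refine Integrable.of_integral_ne_zero ?_
  rw [h]
  exact (Real.rpow_pos_of_pos (div_pos Real.pi_pos hl) _).ne'

theorem CdFin_ind {J : Type*} [Fintype J] [DecidableEq J] (F : ℕ → ℝ) (p : J → Prop)
    [DecidablePred p] :
    ml F Finset.univ (fun j => if p j then 1 else 0) (fun j => 1 - if p j then 1 else 0) =
      F (Finset.univ.filter p).card := by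
  rw [ml, Finset.sum_eq_single (Finset.univ.filter p)]
  · rw [Finset.prod_eq_one, mul_one]
    intro j _
    by_cases h : p j <;> simp [h]
  · intro A _ hA
    obtain ⟨j, hj⟩ : ∃ j, ¬(j ∈ A ↔ p j) :=
      not_forall.1 fun h => hA (Finset.ext fun j => by simp [h j])
    rw [Finset.prod_eq_zero (Finset.mem_univ j), mul_zero]
    by_cases h : p j <;> simp_all
  · intro h
    exact absurd (Finset.mem_powerset.2 (Finset.subset_univ _)) h

open Classical in
theorem CdFin_lim {d : ℕ} {J : Type*} [Fintype J] (y : J → V d) (c R : J → ℝ) {l : ℝ}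
    (hl : 0 < l) (F : ℕ → ℝ) :
    Tendsto (fun n : ℕ => ∫ w : V d, Real.exp (-(l * ‖w‖ ^ 2)) * ml F Finset.univ
      (fun j => pf (n ^ 2) ⌊Real.exp (n ^ 2 * R j + n)⌋₊ ((⟪y j, w⟫ + c j) ^ 2))
        fun j => 1 - pf (n ^ 2) ⌊Real.exp (n ^ 2 * R j + n)⌋₊ ((⟪y j, w⟫ + c j) ^ 2)) atTop
      (𝓝 (∫ w : V d, Real.exp (-(l * ‖w‖ ^ 2)) *
        F (Finset.univ.filter fun j => (⟪y j, w⟫ + c j) ^ 2 ≤ R j).card)) := by
  refine tendsto_integral_of_dominated_convergence
    (fun w => Real.exp (-(l * ‖w‖ ^ 2)) * ∑ A ∈ (Finset.univ : Finset J).powerset, |F A.card|)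
    (fun n => Continuous.aestronglyMeasurable ?_) ((integrable_gauss d hl).mul_const _)
    (fun n => Eventually.of_forall fun w => ?_) (Eventually.of_forall fun w => ?_)
  · refine Continuous.mul (by fun_prop) (continuous_finsetSum _ fun A _ =>
      continuous_const.mul (continuous_finsetProd _ fun j _ => ?_))
    unfold pf
    split_ifs <;> fun_prop
  · rw [Real.norm_eq_abs, abs_mul, abs_of_pos (Real.exp_pos _)]
    refine mul_le_mul_of_nonneg_left ((Finset.abs_sum_le_sum_abs _ _).trans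
      (Finset.sum_le_sum fun A _ => ?_)) (Real.exp_pos _).le
    rw [abs_mul, Finset.abs_prod]
    refine mul_le_of_le_one_right (abs_nonneg _)
      (Finset.prod_le_one (fun _ _ => abs_nonneg _) fun j _ => ?_)
    have h := CdFin_mem (a := (n : ℝ) ^ 2) (s := (⟪y j, w⟫ + c j) ^ 2) (by positivity)
      ⌊Real.exp (n ^ 2 * R j + n)⌋₊
    split_ifs <;> exact abs_le.2 ⟨by linarith [h.1, h.2], by linarith [h.1, h.2]⟩
  · rw [← CdFin_ind F fun j => (⟪y j, w⟫ + c j) ^ 2 ≤ R j]
    refine Tendsto.const_mul _ (tendsto_finsetSum _ fun A _ =>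
      Tendsto.const_mul _ (tendsto_finsetProd _ fun j _ => ?_))
    have h := tendsto_pf (sq_nonneg (⟪y j, w⟫ + c j)) (R j)
    by_cases hA : j ∈ A
    · simpa only [if_pos hA] using h
    · simpa only [if_neg hA] using h.const_sub 1

open Classical in
/-- Sketch: `pf_anti` for `t = κ ≤ 1`, `tendsto_pf`, dominated convergence with the bound
`exp (..) * ∑ A, |F A.card|`; at indicator values `ml` is `F` of the count
(`Finset.sum_eq_single`). -/
theorem count_anti {d : ℕ} {J : Type*} [Fintype J] (y : J → V d) (c R : J → ℝ) {l : ℝ}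
    (hl : 0 < l) {F : ℕ → ℝ} (hF : ∀ p, 1 ≤ p → p ≤ d + 1 → Mon p F) {κ : ℝ} (h0 : 0 ≤ κ)
    (h1 : κ ≤ 1) :
    ∫ w : V d, Real.exp (-(l * ‖w‖ ^ 2)) *
        F (Finset.univ.filter fun j => (⟪y j, w⟫ + c j) ^ 2 ≤ R j).card ≤
      ∫ w : V d, Real.exp (-(l * ‖w‖ ^ 2)) *
        F (Finset.univ.filter fun j => (⟪y j, w⟫ + κ * c j) ^ 2 ≤ R j).card := by
  refine le_of_tendsto_of_tendsto' (CdFin_lim y c R hl F)
    (CdFin_lim y (fun j => κ * c j) R hl F) fun n => ?_
  have h := pf_anti y c (sq_nonneg (n : ℝ)) hl (fun j => ⌊Real.exp (n ^ 2 * R j + n)⌋₊) hF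
    (mem_Ici.2 h0) (mem_Ici.2 zero_le_one) h1
  simpa only [one_mul] using h

end Pool.Agent.Lib.MP_0a1ca9_gt.Cd
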