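import Mathlib

/-! Monotonicity of Gaussian integrals of exponential sums (lift to three rows). -/

open MeasureTheory Set Matrix

namespace Pool.Agent.Lib.MP_0a1ca9_gt.Cd

/-- Sketch: rows `∑ j, (κ j * v j a) • v j`; multilinearity of `Matrix.detRowAlternating`
(`MultilinearMap.map_sum`, `map_smul_univ`) gives `∑ f, (∏ a, κ (f a) * v (f a) a) * det (v ∘ f)`.
For every permutation `σ` reindex `f ↦ f ∘ σ` (`Equiv.sum_comp`, `Matrix.det_permute`), sum over
`σ`, use `Matrix.det_apply`. -/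
theorem andreief {I J : Type*} [Fintype I] [DecidableEq I] [Fintype J] (κ : J → ℝ)
    (v : J → I → ℝ) :
    ((Fintype.card I).factorial : ℝ) * (Matrix.of fun a b => ∑ j, κ j * v j a * v j b).det =
      ∑ f : I → J, (∏ a, κ (f a)) * (Matrix.of fun a b => v (f a) b).det ^ 2 := by
  have h1 : (Matrix.of fun a b => ∑ j, κ j * v j a * v j b).det =
      ∑ f : I → J, (∏ a, κ (f a)) * (∏ a, v (f a) a) * (Matrix.of fun a b => v (f a) b).det := by
    rw [Matrix.det_apply']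
    simp only [Matrix.of_apply, Finset.prod_univ_sum, Fintype.piFinset_univ, Finset.mul_sum]
    rw [Finset.sum_comm]
    refine Finset.sum_congr rfl fun f _ => ?_
    rw [← Matrix.det_transpose, Matrix.det_apply', Finset.mul_sum]
    refine Finset.sum_congr rfl fun σ _ => ?_
    simp only [Matrix.transpose_apply, Matrix.of_apply, Finset.prod_mul_distrib]
    ring
  have h2 : ∀ σ : Equiv.Perm I, (Matrix.of fun a b => ∑ j, κ j * v j a * v j b).det =
      ∑ f : I → J, (∏ a, κ (f a)) * (Matrix.of fun a b => v (f a) b).det *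
        (((Equiv.Perm.sign σ : ℤ) : ℝ) * ∏ a, v (f (σ a)) a) := by
    intro σ
    rw [h1, ← Equiv.sum_comp (Equiv.arrowCongr σ.symm (Equiv.refl J))]
    refine Finset.sum_congr rfl fun f _ => ?_
    have e1 : ∀ a, Equiv.arrowCongr σ.symm (Equiv.refl J) f a = f (σ a) := fun a => rfl
    simp only [e1]
    have e2 := Matrix.det_permute σ (Matrix.of fun a b => v (f a) b)
    have e3 : (Matrix.of fun a b => v (f a) b).submatrix σ id =
        Matrix.of fun a b => v (f (σ a)) b := rfl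
    rw [← e3, e2, Equiv.prod_comp σ fun a => κ (f a)]
    ring
  have h3 := Finset.sum_congr (rfl : (Finset.univ : Finset (Equiv.Perm I)) = _) fun σ _ => h2 σ
  rw [Finset.sum_const, Finset.card_univ, Fintype.card_perm, nsmul_eq_mul, Finset.sum_comm] at h3
  rw [h3]
  refine Finset.sum_congr rfl fun f _ => ?_
  rw [← Finset.mul_sum, sq, ← mul_assoc]
  congr 1
  rw [Matrix.det_apply']
  rfl

/-- The Gaussian integral of a quadratic form. -/
noncomputable def gz {d : ℕ} (M : Matrix (Fin d) (Fin d) ℝ) : ℝ :=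
  ∫ w : Fin d → ℝ, Real.exp (-(w ⬝ᵥ (M *ᵥ w)))

/-- Sketch: `integral_fintype_prod_volume_eq_pow` / `integral_gaussian`, or integrability
(`Integrable.fintype_prod`) and `integral_pos_iff_support_of_nonneg`. -/
theorem gz_one_pos (d : ℕ) : 0 < gz (1 : Matrix (Fin d) (Fin d) ℝ) := by
  have h1 : ∀ w : Fin d → ℝ, Real.exp (-(w ⬝ᵥ ((1 : Matrix (Fin d) (Fin d) ℝ) *ᵥ w))) =
      ∏ i, Real.exp (-1 * w i ^ 2) := by
    intro w
    rw [Matrix.one_mulVec, ← Real.exp_sum, dotProduct, ← Finset.sum_neg_distrib]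
    exact congrArg _ (Finset.sum_congr rfl fun i _ => by ring)
  rw [gz]
  simp only [h1]
  rw [integral_fintype_prod_volume_eq_pow fun x : ℝ => Real.exp (-1 * x ^ 2), integral_gaussian]
  have := Real.pi_pos
  positivity

open scoped MatrixOrder in
theorem CdGauss_factor {d : ℕ} {M : Matrix (Fin d) (Fin d) ℝ} (hM : M.PosDef) :
    ∃ B : Matrix (Fin d) (Fin d) ℝ, M = Bᵀ * B := by
  obtain ⟨B, hB⟩ := CStarAlgebra.nonneg_iff_eq_star_mul_self.mp hM.posSemidef.nonneg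
  exact ⟨B, by rw [hB, Matrix.star_eq_conjTranspose, Matrix.conjTranspose_eq_transpose_of_trivial]⟩

/-- Sketch: `M = Bᵀ * B`, `w ⬝ᵥ M *ᵥ w = (B *ᵥ w) ⬝ᵥ (B *ᵥ w)`,
`Real.map_matrix_volume_pi_eq_smul_volume_pi`: `gz M = |det B|⁻¹ * gz 1`. -/
theorem gz_sq {d : ℕ} {M : Matrix (Fin d) (Fin d) ℝ} (hM : M.PosDef) :
    0 < gz M ∧ gz M ^ 2 * M.det = gz (1 : Matrix (Fin d) (Fin d) ℝ) ^ 2 := by
  obtain ⟨B, hB⟩ := CdGauss_factor hM
  have hdet : M.det = B.det ^ 2 := by rw [hB, Matrix.det_mul, Matrix.det_transpose, sq]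
  have hB0 : B.det ≠ 0 := by
    intro h0
    have := hM.det_pos
    rw [hdet, h0] at this
    norm_num at this
  have hc : Continuous fun w : Fin d → ℝ =>
      Real.exp (-(w ⬝ᵥ ((1 : Matrix (Fin d) (Fin d) ℝ) *ᵥ w))) := by
    simp only [Matrix.one_mulVec]
    fun_prop
  have h1 := integral_map (μ := (volume : Measure (Fin d → ℝ)))
    (Matrix.toLin' B).continuous_of_finiteDimensional.measurable.aemeasurable
    hc.aestronglyMeasurable
  rw [Real.map_matrix_volume_pi_eq_smul_volume_pi hB0, integral_smul_measure,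
    ENNReal.toReal_ofReal (abs_nonneg _), smul_eq_mul] at h1
  have h2 : gz M = |B.det⁻¹| * gz (1 : Matrix (Fin d) (Fin d) ℝ) := by
    rw [gz, gz, h1]
    refine integral_congr_ae (Filter.Eventually.of_forall fun w => ?_)
    simp only [Matrix.toLin'_apply, Matrix.one_mulVec]
    rw [hB, ← Matrix.mulVec_mulVec, Matrix.dotProduct_mulVec, Matrix.vecMul_transpose]
  refine ⟨?_, ?_⟩
  · rw [h2]
    exact mul_pos (abs_pos.2 (inv_ne_zero hB0)) (gz_one_pos d)
  · rw [h2, hdet, mul_pow, sq_abs]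
    field_simp

/-- Sketch: complete the square, `w ↦ w + t • M⁻¹ *ᵥ b` (`integral_add_right_eq_self`);
integrability from `gz M ≠ 0` (`Integrable.of_integral_ne_zero`). -/
theorem gauss_shift {d : ℕ} {M : Matrix (Fin d) (Fin d) ℝ} (hM : M.PosDef) (b : Fin d → ℝ)
    (a t : ℝ) :
    Integrable (fun w : Fin d → ℝ => Real.exp (-(w ⬝ᵥ (M *ᵥ w) + 2 * t * (b ⬝ᵥ w) + t ^ 2 * a))) ∧
    ∫ w : Fin d → ℝ, Real.exp (-(w ⬝ᵥ (M *ᵥ w) + 2 * t * (b ⬝ᵥ w) + t ^ 2 * a)) =
      Real.exp (-(t ^ 2 * (a - b ⬝ᵥ (M⁻¹ *ᵥ b)))) * gz M := by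
  obtain ⟨u, hu⟩ : ∃ u, u = M⁻¹ *ᵥ b := ⟨_, rfl⟩
  have hMu : M *ᵥ u = b := by
    rw [hu, Matrix.mulVec_mulVec, Matrix.mul_nonsing_inv _ (Ne.isUnit hM.det_pos.ne'),
      Matrix.one_mulVec]
  have hT : Mᵀ = M := by
    rw [← Matrix.conjTranspose_eq_transpose_of_trivial]
    exact hM.1
  have h1 : ∀ w : Fin d → ℝ, Real.exp (-(w ⬝ᵥ (M *ᵥ w) + 2 * t * (b ⬝ᵥ w) + t ^ 2 * a)) =
      Real.exp (-(t ^ 2 * (a - b ⬝ᵥ u))) *
        Real.exp (-((w + t • u) ⬝ᵥ (M *ᵥ (w + t • u)))) := by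
    intro w
    have e1 : u ⬝ᵥ (M *ᵥ w) = b ⬝ᵥ w := by
      rw [Matrix.dotProduct_mulVec, ← Matrix.mulVec_transpose, hT, hMu]
    rw [← Real.exp_add]
    simp only [Matrix.mulVec_add, Matrix.mulVec_smul, add_dotProduct, dotProduct_add,
      smul_dotProduct, dotProduct_smul, hMu, e1, smul_eq_mul, dotProduct_comm w b,
      dotProduct_comm u b]
    congr 1
    ring
  have h2 : Integrable fun w : Fin d → ℝ => Real.exp (-(w ⬝ᵥ (M *ᵥ w))) :=
    Integrable.of_integral_ne_zero (gz_sq hM).1.ne'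
  rw [← hu]
  simp only [h1]
  refine ⟨(h2.comp_add_right (t • u)).const_mul _, ?_⟩
  rw [integral_const_mul, gz,
    integral_add_right_eq_self (fun w : Fin d → ℝ => Real.exp (-(w ⬝ᵥ (M *ᵥ w)))) (t • u)]

theorem CdGauss_form {d : ℕ} {J : Type*} [Fintype J] (κ : J → ℝ) (y : J → Fin d → ℝ)
    (w : Fin d → ℝ) : w ⬝ᵥ ((Matrix.of fun a b => ∑ j, κ j * y j a * y j b) *ᵥ w) =
      ∑ j, κ j * (y j ⬝ᵥ w) ^ 2 := by
  simp only [dotProduct, Matrix.mulVec, Matrix.of_apply, sq, Finset.mul_sum, Finset.sum_mul]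
  rw [Finset.sum_congr rfl fun a _ => Finset.sum_comm, Finset.sum_comm]
  refine Finset.sum_congr rfl fun j _ => Finset.sum_congr rfl fun a _ =>
    Finset.sum_congr rfl fun b _ => by ring

theorem CdGauss_quad {d : ℕ} {J : Type*} [Fintype J] (κ : J → ℝ) (y : J → Fin d → ℝ) (c : J → ℝ)
    (t : ℝ) (w : Fin d → ℝ) : ∑ j, κ j * (y j ⬝ᵥ w + t * c j) ^ 2 =
      w ⬝ᵥ ((Matrix.of fun a b => ∑ j, κ j * y j a * y j b) *ᵥ w) +
        2 * t * ((fun a => ∑ j, κ j * y j a * c j) ⬝ᵥ w) + t ^ 2 * ∑ j, κ j * c j * c j := by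
  have h1 : (fun a => ∑ j, κ j * y j a * c j) ⬝ᵥ w = ∑ j, κ j * c j * (y j ⬝ᵥ w) := by
    simp only [dotProduct, Finset.mul_sum, Finset.sum_mul]
    rw [Finset.sum_comm]
    exact Finset.sum_congr rfl fun j _ => Finset.sum_congr rfl fun a _ => by ring
  rw [CdGauss_form, h1, Finset.mul_sum, Finset.mul_sum, ← Finset.sum_add_distrib,
    ← Finset.sum_add_distrib]
  exact Finset.sum_congr rfl fun j _ => by ring

theorem CdGauss_schur {d : ℕ} {J : Type*} [Fintype J] (κ : J → ℝ) (y : J → Fin d → ℝ) (c : J → ℝ)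
    (hM : (Matrix.of fun a b => ∑ j, κ j * y j a * y j b).PosDef) :
    (Matrix.of fun a b : Fin d ⊕ Unit => ∑ j, κ j * Sum.elim (y j) (fun _ => c j) a *
      Sum.elim (y j) (fun _ => c j) b).det =
    (Matrix.of fun a b => ∑ j, κ j * y j a * y j b).det * (∑ j, κ j * c j * c j -
      (fun a => ∑ j, κ j * y j a * c j) ⬝ᵥ ((Matrix.of fun a b => ∑ j, κ j * y j a * y j b)⁻¹ *ᵥ
        fun a => ∑ j, κ j * y j a * c j)) := by
  have h1 : (Matrix.of fun a b : Fin d ⊕ Unit => ∑ j, κ j * Sum.elim (y j) (fun _ => c j) a *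
      Sum.elim (y j) (fun _ => c j) b) =
      Matrix.fromBlocks (Matrix.of fun a b => ∑ j, κ j * y j a * y j b)
        (Matrix.of fun a _ => ∑ j, κ j * y j a * c j) (Matrix.of fun _ a => ∑ j, κ j * y j a * c j)
        (Matrix.of fun _ _ => ∑ j, κ j * c j * c j) := by
    ext (a | a) (b | b)
    · rfl
    · rfl
    · exact Finset.sum_congr rfl fun j _ => mul_right_comm _ _ _
    · rfl
  let := hM.isUnit.invertible
  rw [h1, Matrix.det_fromBlocks₁₁, Matrix.invOf_eq_nonsing_inv, Matrix.mul_assoc,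
    Matrix.det_unique (n := Unit)]
  rfl

theorem CdGauss_key {I J K : Type*} [Fintype I] [DecidableEq I] [Fintype J] (S : Finset K)
    (v : J → I → ℝ) (γ e : K → ℝ) (κ : K → J → ℝ)
    (h : ∀ τ : Finset J, τ.card = Fintype.card I → 0 ≤ ∑ k ∈ S, γ k * (∏ j ∈ τ, κ k j) * e k) :
    0 ≤ ∑ k ∈ S, γ k * (Matrix.of fun a b => ∑ j, κ k j * v j a * v j b).det * e k := by
  have hpos : (0 : ℝ) < (Fintype.card I).factorial := by exact_mod_cast Nat.factorial_pos _
  refine le_of_mul_le_mul_left ?_ hpos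
  have h1 : ∀ k ∈ S, ((Fintype.card I).factorial : ℝ) *
      (γ k * (Matrix.of fun a b => ∑ j, κ k j * v j a * v j b).det * e k) =
      ∑ f : I → J, (Matrix.of fun a b => v (f a) b).det ^ 2 * (γ k * (∏ a, κ k (f a)) * e k) := by
    intro k _
    rw [show ∀ x y z w : ℝ, x * (y * z * w) = y * w * (x * z) from fun _ _ _ _ => by ring, andreief,
      Finset.mul_sum]
    exact Finset.sum_congr rfl fun f _ => by ring
  rw [mul_zero, Finset.mul_sum, Finset.sum_congr rfl h1, Finset.sum_comm]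
  refine Finset.sum_nonneg fun f _ => ?_
  rw [← Finset.mul_sum]
  by_cases hf : Function.Injective f
  · refine mul_nonneg (sq_nonneg _) ?_
    have h2 := h (Finset.univ.map ⟨f, hf⟩) (by rw [Finset.card_map, Finset.card_univ])
    simpa only [Finset.prod_map, Function.Embedding.coeFn_mk] using h2
  · obtain ⟨a, b, hab, hne⟩ := Function.not_injective_iff.1 hf
    rw [Matrix.det_zero_of_row_eq hne (by funext i; simp only [Matrix.of_apply, hab])]
    simp

theorem CdGauss_triple {E K : Type*} [MeasureSpace E] [SFinite (volume : Measure E)] (S : Finset K)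
    (γ : K → ℝ) (F G : K → E → ℝ) (hF : ∀ k ∈ S, Integrable (F k)) (hG : ∀ k ∈ S, Integrable (G k))
    (h : ∀ w w' w'', 0 ≤ ∑ k ∈ S, γ k * (F k w * (G k w' * G k w''))) :
    0 ≤ ∑ k ∈ S, γ k * ((∫ w, F k w) * ((∫ w, G k w) * ∫ w, G k w)) := by
  have h1 : 0 ≤ ∫ p : E × E × E, ∑ k ∈ S, γ k * (F k p.1 * (G k p.2.1 * G k p.2.2))
      ∂(volume.prod (volume.prod volume)) := integral_nonneg fun p => h _ _ _
  rw [integral_finsetSum _ fun k hk =>
    ((hF k hk).mul_prod ((hG k hk).mul_prod (hG k hk))).const_mul _] at h1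
  refine h1.trans_eq (Finset.sum_congr rfl fun k _ => ?_)
  rw [integral_const_mul, integral_prod_mul (F k) fun p : E × E => G k p.1 * G k p.2,
    integral_prod_mul]

/-- Sketch: `M k = of fun a b => ∑ j, κ k j * y j a * y j b`, `b k = ∑ j, κ k j * c j * y j`,
`a k = ∑ j, κ k j * c j ^ 2`, `q k = a k - b k ⬝ᵥ (M k)⁻¹ *ᵥ b k`. The function is
`∑ k, γ k * exp (-(t ^ 2 * q k)) * gz (M k)` (`gauss_shift`), its derivative is
`-2 t ∑ k, γ k * q k * exp (..) * gz (M k)` (`antitoneOn_of_deriv_nonpos`). With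
`v j : Fin d ⊕ Unit → ℝ = Sum.elim (y j) fun _ => c j` and `N k = of fun a b => ∑ j, κ k j * v j a * v j b`
one has `det (N k) = det (M k) * q k` (`Matrix.det_fromBlocks₁₁`), so by `gz_sq`
`gz 1 ^ 2 * ∑ k, γ k * q k * exp (..) * gz (M k)` is the integral over `(w, w', w'')` of
`∑ k, γ k * det (N k) * exp (-∑ j, κ k j * s j)` with
`s j = (y j ⬝ᵥ w + t * c j) ^ 2 + (y j ⬝ᵥ w') ^ 2 + (y j ⬝ᵥ w'') ^ 2` (`integral_prod_mul`). The
integrand is nonnegative by `andreief`: a term `f` vanishes if `f` is not injective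
(`Matrix.det_zero_of_row_eq`), otherwise use `h` for the image of `f`. -/
theorem gauss_anti₀ {d : ℕ} {J K : Type*} [Fintype J] (S : Finset K) (y : J → Fin d → ℝ)
    (c : J → ℝ) (γ : K → ℝ) (κ : K → J → ℝ)
    (hM : ∀ k ∈ S, (Matrix.of fun a b => ∑ j, κ k j * y j a * y j b).PosDef)
    (h : ∀ s : J → ℝ, (∀ j, 0 ≤ s j) → ∀ τ : Finset J, τ.card = d + 1 →
      0 ≤ ∑ k ∈ S, γ k * (∏ j ∈ τ, κ k j) * Real.exp (-∑ j, κ k j * s j)) :
    AntitoneOn (fun t : ℝ => ∫ w : Fin d → ℝ,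
      ∑ k ∈ S, γ k * Real.exp (-∑ j, κ k j * (y j ⬝ᵥ w + t * c j) ^ 2)) (Ici 0) := by
  obtain ⟨M, hMd⟩ : ∃ M : K → Matrix (Fin d) (Fin d) ℝ,
    ∀ k, M k = Matrix.of fun a b => ∑ j, κ k j * y j a * y j b := ⟨_, fun _ => rfl⟩
  obtain ⟨q, hq⟩ : ∃ q : K → ℝ, ∀ k, q k = ∑ j, κ k j * c j * c j -
      (fun a => ∑ j, κ k j * y j a * c j) ⬝ᵥ
        ((Matrix.of fun a b => ∑ j, κ k j * y j a * y j b)⁻¹ *ᵥ
          fun a => ∑ j, κ k j * y j a * c j) := ⟨_, fun _ => rfl⟩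
  have h1 : ∀ k ∈ S, ∀ t : ℝ,
      Integrable (fun w : Fin d → ℝ => Real.exp (-∑ j, κ k j * (y j ⬝ᵥ w + t * c j) ^ 2)) ∧
      ∫ w : Fin d → ℝ, Real.exp (-∑ j, κ k j * (y j ⬝ᵥ w + t * c j) ^ 2) =
        Real.exp (-(t ^ 2 * q k)) * gz (M k) := by
    intro k hk t
    simp only [CdGauss_quad, hq, hMd]
    exact gauss_shift (hM k hk) _ _ _
  have h2 : (fun t : ℝ => ∫ w : Fin d → ℝ,
      ∑ k ∈ S, γ k * Real.exp (-∑ j, κ k j * (y j ⬝ᵥ w + t * c j) ^ 2)) =
      fun t => ∑ k ∈ S, γ k * (Real.exp (-(t ^ 2 * q k)) * gz (M k)) := by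
    funext t
    rw [integral_finsetSum _ fun k hk => (h1 k hk t).1.const_mul _]
    exact Finset.sum_congr rfl fun k hk => by rw [integral_const_mul, (h1 k hk t).2]
  have h3 : ∀ t : ℝ, HasDerivAt (fun t => ∑ k ∈ S, γ k * (Real.exp (-(t ^ 2 * q k)) * gz (M k)))
      (∑ k ∈ S, γ k * (Real.exp (-(t ^ 2 * q k)) * -(((2 : ℕ) : ℝ) * t ^ (2 - 1) * q k) *
        gz (M k))) t := fun t =>
    HasDerivAt.fun_sum fun k _ =>
      ((((hasDerivAt_pow 2 t).mul_const (q k)).fun_neg.exp).mul_const _).const_mul _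
  have h4 : ∀ t : ℝ, 0 ≤ ∑ k ∈ S, γ k * q k * (Real.exp (-(t ^ 2 * q k)) * gz (M k)) := by
    intro t
    have h5 := CdGauss_triple S (fun k => γ k * (Matrix.of fun a b : Fin d ⊕ Unit =>
        ∑ j, κ k j * Sum.elim (y j) (fun _ => c j) a * Sum.elim (y j) (fun _ => c j) b).det)
      (fun k w => Real.exp (-∑ j, κ k j * (y j ⬝ᵥ w + t * c j) ^ 2))
      (fun k w => Real.exp (-∑ j, κ k j * (y j ⬝ᵥ w + 0 * c j) ^ 2))
      (fun k hk => (h1 k hk t).1) (fun k hk => (h1 k hk 0).1) (fun w w' w'' => by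
        refine CdGauss_key S (fun j => Sum.elim (y j) fun _ => c j) γ _ κ fun τ hτ => ?_
        refine (h (fun j => (y j ⬝ᵥ w + t * c j) ^ 2 + ((y j ⬝ᵥ w' + 0 * c j) ^ 2 +
          (y j ⬝ᵥ w'' + 0 * c j) ^ 2)) (fun j => by positivity) τ (by simpa using hτ)).trans_eq
          (Finset.sum_congr rfl fun k _ => ?_)
        simp only [mul_add (κ k _), Finset.sum_add_distrib, neg_add, Real.exp_add])
    refine le_of_mul_le_mul_left ?_ (pow_pos (gz_one_pos d) 2)
    rw [mul_zero, Finset.mul_sum]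
    refine h5.trans_eq (Finset.sum_congr rfl fun k hk => ?_)
    rw [(h1 k hk t).2, (h1 k hk 0).2, CdGauss_schur _ _ _ (hM k hk), ← hq, ← (gz_sq (hM k hk)).2,
      ← hMd]
    simp only [ne_eq, OfNat.ofNat_ne_zero, not_false_eq_true, zero_pow, zero_mul, neg_zero,
      Real.exp_zero]
    ring
  rw [h2]
  refine antitoneOn_of_deriv_nonpos (convex_Ici 0)
    (fun t _ => (h3 t).continuousAt.continuousWithinAt)
    (fun t _ => (h3 t).differentiableAt.differentiableWithinAt) fun t ht => ?_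
  rw [(h3 t).deriv]
  have ht0 : 0 ≤ t := interior_subset ht
  have h6 := mul_nonneg (mul_nonneg zero_le_two ht0) (h4 t)
  rw [Finset.mul_sum] at h6
  rw [← neg_nonneg, ← Finset.sum_neg_distrib]
  exact h6.trans_eq (Finset.sum_congr rfl fun k _ => by push_cast; ring)

/-- Sketch: `gauss_anti₀` for the index type `J ⊕ Fin d`, with `y (inr i) = Pi.single i 1`,
`c (inr i) = 0`, `κ k (inr i) = l`; a set `τ` of `d + 1` indices has between `1` and `d + 1`
elements in `J` (`Finset.toLeft`, `Finset.toRight`, `Finset.card_toLeft_add_card_toRight`). -/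
theorem gauss_anti {d : ℕ} {J K : Type*} [Fintype J] (S : Finset K) (y : J → Fin d → ℝ)
    (c : J → ℝ) {l : ℝ} (hl : 0 < l) (γ : K → ℝ) (κ : K → J → ℝ) (hκ : ∀ k ∈ S, ∀ j, 0 ≤ κ k j)
    (h : ∀ s : J → ℝ, (∀ j, 0 ≤ s j) → ∀ τ : Finset J, 1 ≤ τ.card → τ.card ≤ d + 1 →
      0 ≤ ∑ k ∈ S, γ k * (∏ j ∈ τ, κ k j) * Real.exp (-∑ j, κ k j * s j)) :
    AntitoneOn (fun t : ℝ => ∫ w : Fin d → ℝ, Real.exp (-(l * (w ⬝ᵥ w))) *
      ∑ k ∈ S, γ k * Real.exp (-∑ j, κ k j * (y j ⬝ᵥ w + t * c j) ^ 2)) (Ici 0) := by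
  have h0 : ∀ (k : K) (t : ℝ) (w : Fin d → ℝ), ∑ j : J ⊕ Fin d, Sum.elim (κ k) (fun _ => l) j *
      (Sum.elim y (fun i => Pi.single i 1) j ⬝ᵥ w + t * Sum.elim c (fun _ => 0) j) ^ 2 =
      ∑ j, κ k j * (y j ⬝ᵥ w + t * c j) ^ 2 + l * (w ⬝ᵥ w) := by
    intro k t w
    simp only [Fintype.sum_sum_type, Sum.elim_inl, Sum.elim_inr, single_dotProduct, one_mul,
      mul_zero, add_zero]
    rw [← Finset.mul_sum]
    simp only [sq, dotProduct]
  have h1 := gauss_anti₀ S (Sum.elim y fun i => Pi.single i 1) (Sum.elim c fun _ => 0) γ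
    (fun k => Sum.elim (κ k) fun _ => l) (fun k hk => by
      refine Matrix.PosDef.of_dotProduct_mulVec_pos ?_ fun x hx => ?_
      · ext a b
        simp only [Matrix.conjTranspose_apply, Matrix.of_apply, star_trivial]
        exact Finset.sum_congr rfl fun j _ => mul_right_comm _ _ _
      · have e := h0 k 0 x
        simp only [zero_mul, add_zero] at e
        rw [star_trivial, CdGauss_form, e]
        have e1 : 0 < x ⬝ᵥ x := by
          have := dotProduct_star_self_pos_iff.2 hx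
          rwa [star_trivial] at this
        exact add_pos_of_nonneg_of_pos
          (Finset.sum_nonneg fun j _ => mul_nonneg (hκ k hk j) (sq_nonneg _)) (mul_pos hl e1))
    (fun s hs τ hτ => by
      have e1 := τ.card_toLeft_add_card_toRight
      have e2 : τ.toRight.card ≤ d := by simpa using τ.toRight.card_le_univ
      have e3 := mul_nonneg (show 0 ≤ (∏ _i ∈ τ.toRight, l) * Real.exp (-∑ i, l * s (Sum.inr i)) from
        mul_nonneg (Finset.prod_nonneg fun _ _ => hl.le) (Real.exp_pos _).le)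
        (h (fun j => s (Sum.inl j)) (fun j => hs _) τ.toLeft (by omega) (by omega))
      rw [Finset.mul_sum] at e3
      refine e3.trans_eq (Finset.sum_congr rfl fun k _ => ?_)
      simp only [Finset.prod_sum_eq_prod_toLeft_mul_prod_toRight, Fintype.sum_sum_type,
        Sum.elim_inl, Sum.elim_inr, neg_add, Real.exp_add]
      ring)
  simp only [h0] at h1
  simp only [Finset.mul_sum]
  refine h1.congr fun t _ => ?_
  refine integral_congr_ae (Filter.Eventually.of_forall fun w => ?_)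
  refine Finset.sum_congr rfl fun k _ => ?_
  rw [neg_add, Real.exp_add]
  ring

end Pool.Agent.Lib.MP_0a1ca9_gt.Cd
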