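import Pool.Agent.Lib.MP_0a1ca9_gt.CdChart

/-! A gain of regularity for solutions of the equation. -/

open MeasureTheory Set Filter Topology
open scoped RealInnerProductSpace

namespace Pool.Agent.Lib.MP_0a1ca9_gt.Cd

variable {k : ℕ}

/-- The derivative of `x ^ i`. -/
noncomputable def ww (i x : ℝ) : ℝ := i * x ^ (i - 1)

/-- The function of degree zero attached to a function of degree `-1`, in a chart. -/
noncomputable def uu (U : V k × ℝ → ℝ) (p : V k × ℝ) : ℝ := U p * nn p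

theorem continuous_ww {i : ℝ} (hi : 1 < i) : Continuous (ww i) :=
  continuous_const.mul (continuous_id.rpow_const fun _ => Or.inr (by linarith))

theorem taylor_rpow {i m M ε θ x y : ℝ} (hi : 1 < i) (hx : x ∈ Icc m M) (hy : y ∈ Icc m M)
    (hxy : |y - x| ≤ ε)
    (hmod : ∀ x ∈ Icc m M, ∀ y ∈ Icc m M, |y - x| ≤ ε → |ww i y - ww i x| ≤ θ) :
    |y ^ i - x ^ i - ww i x * (y - x)| ≤ θ * |y - x| := by
  have := (convex_uIcc x y).norm_image_sub_le_of_norm_hasDerivWithin_le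
    (f := fun z => z ^ i - ww i x * z) (f' := fun z => ww i z - ww i x)
    (fun z _ => by
      have := (((Real.hasDerivAt_rpow_const (x := z) (Or.inr hi.le)).fun_sub
        ((hasDerivAt_id' z).const_mul (ww i x))).hasDerivWithinAt (s := uIcc x y))
      rwa [mul_one] at this)
    (fun z hz => hmod x hx z (uIcc_subset_Icc hx hy hz) ((abs_sub_left_of_mem_uIcc hz).trans hxy))
    left_mem_uIcc right_mem_uIcc
  rw [Real.norm_eq_abs, Real.norm_eq_abs] at this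
  convert this using 2
  ring

/-- Sketch: with `φ j = ∫ κ (S^[j] x) * f x` one has
`∫ κ (S^[j + 1] x) * (f (S x) - f x) = φ j - φ (j + 1)` (`MeasurePreserving.integral_comp'` style
lemma `integral_map`), so the sum over `j < N` telescopes and `|φ j| ≤ M * ∫ |κ|`. -/
theorem shift_le {X : Type*} [MeasurableSpace X] {μ : Measure X} {S : X → X}
    (hS : MeasurePreserving S μ μ) {κ f : X → ℝ} (hκm : Measurable κ) (hκ : Integrable κ μ)
    (hf : Measurable f) {M ω η : ℝ} (hM : ∀ x, |f x| ≤ M) (hω0 : 0 ≤ ω)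
    (hω : ∀ x, |f (S x) - f x| ≤ ω) (N : ℕ)
    (hη : ∀ j, 1 ≤ j → j ≤ N → ∫ x, |κ (S^[j] x) - κ x| ∂μ ≤ η) :
    N * |∫ x, κ x * (f (S x) - f x) ∂μ| ≤ N * (η * ω) + 2 * M * ∫ x, |κ x| ∂μ := by
  have hI : ∀ j, Integrable (fun x => κ (S^[j] x)) μ := fun j =>
    (hS.iterate j).integrable_comp_of_integrable hκ
  have hfS : Measurable fun x => f (S x) := hf.comp hS.measurable
  have b1 : ∀ {g : X → ℝ}, Integrable g μ → Integrable (fun x => g x * f x) μ := fun hg =>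
    hg.mul_bdd hf.aestronglyMeasurable (ae_of_all _ hM)
  have b2 : ∀ {g : X → ℝ}, Integrable g μ → Integrable (fun x => g x * f (S x)) μ := fun hg =>
    hg.mul_bdd hfS.aestronglyMeasurable (ae_of_all _ fun x => hM _)
  have b3 : ∀ {g : X → ℝ}, Integrable g μ → Integrable (fun x => g x * (f (S x) - f x)) μ :=
    fun hg => hg.mul_bdd (hfS.sub hf).aestronglyMeasurable (ae_of_all _ hω)
  have cv : ∀ {T : X → X}, MeasurePreserving T μ μ → ∀ {g : X → ℝ}, Measurable g →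
      ∫ x, g (T x) ∂μ = ∫ x, g x ∂μ := fun hT g hg => by
    rw [← integral_map hT.measurable.aemeasurable hg.aestronglyMeasurable, hT.map_eq]
  set φ : ℕ → ℝ := fun j => ∫ x, κ (S^[j] x) * f x ∂μ with hφ
  set I := ∫ x, κ x * (f (S x) - f x) ∂μ with hIdef
  have h1 : ∀ j, ∫ x, κ (S^[j + 1] x) * (f (S x) - f x) ∂μ = φ j - φ (j + 1) := fun j => by
    simp only [mul_sub]
    rw [integral_sub (b2 (hI _)) (b1 (hI _))]
    congr 1
    exact cv hS (g := fun x => κ (S^[j] x) * f x) ((hκm.comp (hS.iterate j).measurable).mul hf)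
  have h2 : ∀ j, |φ j| ≤ M * ∫ x, |κ x| ∂μ := fun j => by
    rw [← cv (hS.iterate j) hκm.abs, ← integral_const_mul, ← Real.norm_eq_abs]
    refine norm_integral_le_of_norm_le ((hI j).abs.const_mul M) (ae_of_all _ fun x => ?_)
    rw [Real.norm_eq_abs, abs_mul, mul_comm]
    exact mul_le_mul_of_nonneg_right (hM x) (abs_nonneg _)
  have h3 : ∀ j, j + 1 ≤ N → |I - (φ j - φ (j + 1))| ≤ η * ω := fun j hj => by
    rw [← h1, abs_sub_comm, hIdef, ← integral_sub (b3 (hI _)) (b3 hκ)]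
    refine le_trans ?_ (mul_le_mul_of_nonneg_right (hη (j + 1) (by omega) hj) hω0)
    rw [← integral_mul_const, ← Real.norm_eq_abs]
    refine norm_integral_le_of_norm_le (((hI _).sub hκ).abs.mul_const ω) (ae_of_all _ fun x => ?_)
    rw [Real.norm_eq_abs, ← sub_mul, abs_mul]
    exact mul_le_mul_of_nonneg_left (hω x) (abs_nonneg _)
  have h4 : ∀ n : ℕ, n ≤ N → |n * I - (φ 0 - φ n)| ≤ n * (η * ω) := by
    intro n
    induction n with
    | zero => simp
    | succ n ih =>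
      intro hn
      have a := abs_le.1 (ih (by omega))
      have b := abs_le.1 (h3 n hn)
      push_cast
      exact abs_le.2 ⟨by linarith [a.1, b.1], by linarith [a.2, b.2]⟩
  have a := abs_le.1 (h4 N le_rfl)
  have b := abs_le.1 (h2 0)
  have d := abs_le.1 (h2 N)
  rw [← abs_of_nonneg (Nat.cast_nonneg N : (0 : ℝ) ≤ N), ← abs_mul,
    abs_of_nonneg (Nat.cast_nonneg N : (0 : ℝ) ≤ N)]
  exact abs_le.2 ⟨by linarith [a.1, b.1, d.2], by linarith [a.2, b.2, d.1]⟩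

theorem cdlip_shift {X : Type*} [MeasurableSpace X] {μ : Measure X} {S : X → X}
    (hS : MeasurePreserving S μ μ) {κ f : X → ℝ} (hκm : Measurable κ) (hκ : Integrable κ μ)
    (hf : Measurable f) {M ω η : ℝ} (hM : ∀ x, |f x| ≤ M) (hω0 : 0 ≤ ω) (hη0 : 0 ≤ η)
    (hω : ∀ x, |f (S x) - f x| ≤ ω) (N : ℕ)
    (hη : ∀ j, 1 ≤ j → j ≤ N → ∫ x, |κ (S^[j] x) - κ x| ∂μ ≤ η) :
    (N + 1) * |∫ x, κ x * (f (S x) - f x) ∂μ| ≤
      (N + 1) * (η * ω) + 4 * M * ∫ x, |κ x| ∂μ := by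
  have h1 := shift_le hS hκm hκ hf hM hω0 hω N hη
  have h2 : |∫ x, κ x * (f (S x) - f x) ∂μ| ≤ 2 * M * ∫ x, |κ x| ∂μ := by
    rw [← integral_const_mul, ← Real.norm_eq_abs]
    refine norm_integral_le_of_norm_le (hκ.abs.const_mul _) (ae_of_all _ fun x => ?_)
    rw [Real.norm_eq_abs, abs_mul, mul_comm]
    refine mul_le_mul_of_nonneg_right ?_ (abs_nonneg _)
    linarith [abs_sub (f (S x)) (f x), hM (S x), hM x]
  have h3 := mul_nonneg hη0 hω0
  linarith

/-- Sketch: `nn p ≤ (1 + ε) * nn p'` and conversely; `(1 + ε) ^ j - 1 ≤ (2 ^ j - 1) * ε`. -/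
theorem inv_pow_sub {x y ε : ℝ} (hx : 1 ≤ x) (hy : 1 ≤ y) (h : |x - y| ≤ ε) (hε : ε ≤ 1) (j : ℕ) :
    |(x ^ j)⁻¹ - (y ^ j)⁻¹| ≤ 2 ^ j * ε * (y ^ j)⁻¹ := by
  have hx0 : 0 < x := one_pos.trans_le hx
  have hy0 : 0 < y := one_pos.trans_le hy
  have h0 : 0 ≤ ε := (abs_nonneg _).trans h
  have h1 : |y / x - 1| ≤ ε := by
    rw [div_sub_one hx0.ne', abs_div, abs_of_pos hx0, abs_sub_comm]
    exact (div_le_self (abs_nonneg _) hx).trans h
  have h2 : |y / x| ≤ 2 := by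
    rw [abs_le] at h1 ⊢
    constructor <;> linarith [h1.1, h1.2]
  have h3 : ∀ n : ℕ, |(y / x) ^ n - 1| ≤ (2 ^ n - 1) * ε := by
    intro n
    induction n with
    | zero => simp
    | succ n ih =>
      have e : (y / x) ^ (n + 1) - 1 = y / x * ((y / x) ^ n - 1) + (y / x - 1) := by ring
      rw [e]
      refine (abs_add_le _ _).trans ?_
      rw [abs_mul, pow_succ]
      have := mul_le_mul h2 ih (abs_nonneg _) zero_le_two
      linarith
  have e : (x ^ j)⁻¹ - (y ^ j)⁻¹ = ((y / x) ^ j - 1) * (y ^ j)⁻¹ := by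
    rw [div_pow]
    field_simp
  have h4 : 0 < (y ^ j)⁻¹ := by positivity
  rw [e, abs_mul, abs_of_pos h4]
  exact mul_le_mul_of_nonneg_right ((h3 j).trans (by linarith)) h4.le

theorem cdlip_inv {p p' : V k × ℝ} {ε : ℝ} (h : ‖p.1 - p'.1‖ + |p.2 - p'.2| ≤ ε) (hε : ε ≤ 1)
    (j : ℕ) : |(nn p ^ j)⁻¹ - (nn p' ^ j)⁻¹| ≤ 2 ^ j * ε * (nn p' ^ j)⁻¹ := by
  refine inv_pow_sub (one_le_nn _) (one_le_nn _) ?_ hε j
  have k1 := nn_le_add' p p'
  have k2 := nn_le_add' p' p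
  rw [norm_sub_rev, abs_sub_comm] at k2
  exact abs_le.2 ⟨by linarith, by linarith⟩

/-- The weight of the second iterate. -/
noncomputable def Th (p : V k × V k) : ℝ :=
  (nn (p.2, 0) ^ k)⁻¹ * (nn (p.1, -⟪p.1, p.2⟫) ^ (k + 1))⁻¹

theorem cdlip_continuous_Th : Continuous (Th : V k × V k → ℝ) :=
  ((by fun_prop : Continuous _).inv₀ fun _ => (pow_pos (nn_pos _) _).ne').mul
    ((by fun_prop : Continuous _).inv₀ fun _ => (pow_pos (nn_pos _) _).ne')

theorem cdlip_Th_pos (p : V k × V k) : 0 < Th p :=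
  mul_pos (inv_pos.2 (pow_pos (nn_pos _) _)) (inv_pos.2 (pow_pos (nn_pos _) _))

namespace Chart

variable {i m M c : ℝ} {U W : V k × ℝ → ℝ} (h : Chart i m M c U W)
include h

theorem cdlip_mem (p : V k × ℝ) : uu U p ∈ Icc m M := ⟨h.lo p, h.hi p⟩

theorem cdlip_continuous : Continuous (uu U) := h.cU.mul continuous_nn

theorem cdlip_abs_ww (p : V k × ℝ) : |ww i (uu U p)| ≤ ww i M := by
  have h1 := h.i1
  have h2 := h.m0.le.trans (h.lo p)
  rw [ww, abs_of_nonneg (by unfold uu; positivity)]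
  exact mul_le_mul_of_nonneg_left (Real.rpow_le_rpow h2 (h.hi p) (by linarith)) (by linarith)

theorem cdlip_integral (x : ℝ) (s : V k) : Integrable (fun a => Hh i U (a, -⟪a, s⟫ + x)) ∧
    ∫ a, Hh i U (a, -⟪a, s⟫ + x) = c * W (s, -x) := by
  have h1 := h.e1 (-x) s
  simp only [neg_neg, sub_eq_neg_add] at h1
  have h2 : AEStronglyMeasurable (fun a => Hh i U (a, -⟪a, s⟫ + x)) volume :=
    (h.dec.cont.comp (by fun_prop)).aestronglyMeasurable
  have h3 : 0 ≤ᵐ[volume] fun a => Hh i U (a, -⟪a, s⟫ + x) := ae_of_all _ fun a => (h.H_pos _).le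
  exact ⟨(lintegral_ofReal_ne_top_iff_integrable h2 h3).1 (h1 ▸ ENNReal.ofReal_ne_top), by
    rw [integral_eq_lintegral_of_nonneg_ae h3 h2, h1,
      ENNReal.toReal_ofReal (mul_pos h.c0 (h.symm.pos _)).le]⟩

/-- Sketch: `h.e1 0 s`, `h.H_lo`, `h.hiV`. -/
theorem line (s : V k) : Integrable (fun a : V k => (nn (a, -⟪a, s⟫) ^ (k + 1))⁻¹) ∧
    ∫ a : V k, (nn (a, -⟪a, s⟫) ^ (k + 1))⁻¹ ≤ c * M / m ^ i / nn (s, 0) := by
  obtain ⟨i0, e0⟩ := h.cdlip_integral 0 s
  simp only [add_zero, neg_zero] at i0 e0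
  have hm : 0 < m ^ i := Real.rpow_pos_of_pos h.m0 _
  have hb : ∀ a : V k, (nn (a, -⟪a, s⟫) ^ (k + 1))⁻¹ ≤ (m ^ i)⁻¹ * Hh i U (a, -⟪a, s⟫) := fun a => by
    have h1 := h.H_lo (a, -⟪a, s⟫)
    have h2 := pow_pos (nn_pos (a, -⟪a, s⟫)) (k + 1)
    rw [le_inv_mul_iff₀ hm, ← div_eq_mul_inv, div_le_iff₀ h2]
    exact h1
  have h0 : ∀ a : V k, 0 ≤ (nn (a, -⟪a, s⟫) ^ (k + 1))⁻¹ := fun a =>
    (inv_pos.2 (pow_pos (nn_pos _) _)).le
  have i1 : Integrable (fun a : V k => (nn (a, -⟪a, s⟫) ^ (k + 1))⁻¹) :=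
    (i0.const_mul _).mono' (Continuous.aestronglyMeasurable ((by fun_prop : Continuous _).inv₀
      fun _ => (pow_pos (nn_pos _) _).ne')) (ae_of_all _ fun a => by
        rw [Real.norm_eq_abs, abs_of_nonneg (h0 a)]; exact hb a)
  refine ⟨i1, (integral_mono i1 (i0.const_mul _) hb).trans ?_⟩
  have h3 := h.hiV (s, 0)
  have h4 := h.c0
  rw [integral_const_mul, e0, le_div_iff₀ (nn_pos _), div_eq_inv_mul, mul_assoc, mul_assoc]
  gcongr

theorem cdlip_line0 : Integrable (fun a : V k => (nn (a, 0) ^ (k + 1))⁻¹) ∧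
    ∫ a : V k, (nn (a, 0) ^ (k + 1))⁻¹ ≤ c * M / m ^ i := by
  simpa [nn_zero] using h.line 0

/-- Sketch: `integrable_prod_iff'`, `h.line s` and `h.line 0`. -/
theorem integrable_Th : Integrable (Th : V k × V k → ℝ) := by
  have hT := (cdlip_continuous_Th (k := k)).aestronglyMeasurable (μ := volume.prod volume)
  rw [Measure.volume_eq_prod, integrable_prod_iff' hT]
  refine ⟨ae_of_all _ fun s => (h.line s).1.const_mul (nn (s, 0) ^ k)⁻¹, ?_⟩
  refine (h.cdlip_line0.1.const_mul (c * M / m ^ i)).mono'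
    hT.norm.prod_swap.integral_prod_right' (ae_of_all _ fun s => ?_)
  rw [Real.norm_eq_abs, abs_of_nonneg (integral_nonneg fun a => norm_nonneg _)]
  simp only [Real.norm_eq_abs, abs_of_pos (cdlip_Th_pos _)]
  simp only [Th]
  have h1 := nn_pos (s, 0)
  rw [integral_const_mul]
  refine (mul_le_mul_of_nonneg_left (h.line s).2 (by positivity)).trans (le_of_eq ?_)
  rw [pow_succ]
  field_simp

/-- Sketch: as `Chart.one` of `TLip.lean`, with `h.line`, `inv_pow_sub`, `nn_le_add`. -/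
theorem one {ε θ δ ω : ℝ}
    (hmod : ∀ x ∈ Icc m M, ∀ y ∈ Icc m M, |y - x| ≤ ε → |ww i y - ww i x| ≤ θ) (hθ : 0 ≤ θ)
    (hδ : |δ| ≤ 1) (s : V k) (hε : ∀ a z, |uu U (a, z + δ) - uu U (a, z)| ≤ ε)
    (hω : ∀ a z, |uu U (a, z + δ) - uu U (a, z)| ≤ ω) :
    |c * (uu W (s, -δ) - uu W (s, 0)) - nn (s, 0) * ∫ a, ww i (uu U (a, -⟪a, s⟫)) *
      (uu U (a, -⟪a, s⟫ + δ) - uu U (a, -⟪a, s⟫)) * (nn (a, -⟪a, s⟫) ^ (k + 1))⁻¹| ≤
      c * M / m ^ i * (θ * ω + M ^ i * (2 ^ (k + 1) * |δ|)) + c * (M * |δ|) := by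
  obtain ⟨i1, e1⟩ := h.cdlip_integral δ s
  obtain ⟨i0, e0⟩ := h.cdlip_integral 0 s
  simp only [add_zero, neg_zero] at i0 e0
  have hu := h.cdlip_continuous
  have hw := continuous_ww h.i1
  have hH := h.dec.cont
  have hω0 : 0 ≤ ω := (abs_nonneg _).trans (hω 0 0)
  have hMi := Real.rpow_pos_of_pos h.M0 i
  set g : V k → ℝ := fun a => ww i (uu U (a, -⟪a, s⟫)) *
    (uu U (a, -⟪a, s⟫ + δ) - uu U (a, -⟪a, s⟫)) * (nn (a, -⟪a, s⟫) ^ (k + 1))⁻¹ with hg
  have hgc : Continuous g := (by fun_prop : Continuous _).mul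
    ((by fun_prop : Continuous _).inv₀ fun _ => (pow_pos (nn_pos _) _).ne')
  let r : V k → ℝ := fun a => Hh i U (a, -⟪a, s⟫ + δ) - Hh i U (a, -⟪a, s⟫) - g a
  have hr : ∀ a, ‖r a‖ ≤ (θ * ω + M ^ i * (2 ^ (k + 1) * |δ|)) *
      (nn (a, -⟪a, s⟫) ^ (k + 1))⁻¹ := fun a => by
    set z := -⟪a, s⟫
    have k0 : ∀ p, Hh i U p = uu U p ^ i * (nn p ^ (k + 1))⁻¹ := fun p => by
      rw [uu, ← Hh_mul (h.pos p).le, mul_inv_cancel_right₀ (pow_pos (nn_pos _) _).ne']
    have k1 := (taylor_rpow h.i1 (h.cdlip_mem (a, z)) (h.cdlip_mem (a, z + δ)) (hε a z) hmod).trans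
      (mul_le_mul_of_nonneg_left (hω a z) hθ)
    have k2 := cdlip_inv (p := (a, z + δ)) (p' := (a, z)) (ε := |δ|) (by simp) hδ (k + 1)
    have k3 : |uu U (a, z + δ) ^ i| ≤ M ^ i := by
      have := h.m0.le.trans (h.cdlip_mem (a, z + δ)).1
      rw [abs_of_nonneg (Real.rpow_nonneg this _)]
      exact Real.rpow_le_rpow this (h.hi _) (by linarith [h.i1])
    have e : r a = (uu U (a, z + δ) ^ i - uu U (a, z) ^ i - ww i (uu U (a, z)) *
        (uu U (a, z + δ) - uu U (a, z))) * (nn (a, z) ^ (k + 1))⁻¹ +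
        uu U (a, z + δ) ^ i * ((nn (a, z + δ) ^ (k + 1))⁻¹ - (nn (a, z) ^ (k + 1))⁻¹) := by
      simp only [r, hg, k0]
      ring
    have k4 : 0 < (nn (a, z) ^ (k + 1))⁻¹ := inv_pos.2 (pow_pos (nn_pos _) _)
    rw [e, Real.norm_eq_abs]
    refine (abs_add_le _ _).trans ?_
    rw [abs_mul, abs_mul, abs_of_pos k4, add_mul, mul_assoc (M ^ i)]
    exact add_le_add (mul_le_mul_of_nonneg_right k1 k4.le)
      (mul_le_mul k3 k2 (abs_nonneg _) ((abs_nonneg _).trans k3))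
  have hb := (h.line s).1.const_mul (θ * ω + M ^ i * (2 ^ (k + 1) * |δ|))
  have ir : Integrable r := hb.mono' (by fun_prop : Continuous r).aestronglyMeasurable
    (ae_of_all _ hr)
  have h1 := norm_integral_le_of_norm_le hb (ae_of_all _ hr)
  have hn := nn_pos (s, 0)
  rw [integral_const_mul, Real.norm_eq_abs] at h1
  replace h1 := h1.trans (mul_le_mul_of_nonneg_left (h.line s).2 (by positivity))
  rw [← mul_div_assoc, le_div_iff₀ hn] at h1
  have h2 : ∫ a, g a = c * W (s, -δ) - c * W (s, 0) - ∫ a, r a := by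
    rw [← e1, ← e0, ← integral_sub i1 i0, ← integral_sub (i1.sub' i0) ir]
    exact integral_congr_ae (ae_of_all _ fun a => by simp [r])
  have h3 : |nn (s, -δ) - nn (s, 0)| ≤ |δ| := by
    have k1 := nn_le_add s (-δ) 0
    have k2 := nn_le_add s 0 (-δ)
    simp only [sub_zero, abs_neg, sub_neg_eq_add, zero_add] at k1 k2
    exact abs_le.2 ⟨by linarith, by linarith⟩
  have h4 : W (s, -δ) ≤ M :=
    (le_mul_of_one_le_right (h.symm.pos _).le (one_le_nn _)).trans (h.hiV (s, -δ))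
  have h5 := h.symm.pos (s, -δ)
  have e : c * (uu W (s, -δ) - uu W (s, 0)) - nn (s, 0) * ∫ a, g a =
      (∫ a, r a) * nn (s, 0) + c * (W (s, -δ) * (nn (s, -δ) - nn (s, 0))) := by
    rw [h2, uu, uu]; ring
  rw [e]
  refine (abs_add_le _ _).trans (add_le_add ?_ ?_)
  · rwa [abs_mul, abs_of_pos hn, mul_comm (c * M / m ^ i)]
  · rw [abs_mul, abs_mul, abs_of_pos h.c0, abs_of_pos h5]
    have := h.c0
    have := h.M0
    gcongr

end Chart

/-- The shear used in the second iterate. -/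
noncomputable def cdlipS (t : ℝ) (p : V k × V k) : V k × V k :=
  (p.1, p.2 - (t / ‖p.1‖ ^ 2) • p.1)

/-- The kernel of the second iterate. -/
noncomputable def cdlipK (i : ℝ) (U W : V k × ℝ → ℝ) (p : V k × V k) : ℝ :=
  ww i (uu W (p.2, 0)) * ww i (uu U (p.1, -⟪p.1, p.2⟫)) * Th p

theorem cdlipS_iter (t : ℝ) (j : ℕ) (p : V k × V k) : (cdlipS t)^[j] p = cdlipS (j * t) p := by
  induction j with
  | zero => simp [cdlipS]
  | succ j ih =>
    rw [Function.iterate_succ_apply', ih]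
    simp only [cdlipS]
    rw [sub_sub, ← add_smul]
    congr 3
    push_cast
    ring

theorem cdlipS_mp (t : ℝ) : MeasurePreserving (cdlipS (k := k) t) volume volume := by
  rw [Measure.volume_eq_prod]
  exact (MeasurePreserving.id volume).skew_product (g := fun a s => s - (t / ‖a‖ ^ 2) • a)
    (measurable_snd.sub ((measurable_const.div (measurable_fst.norm.pow_const 2)).smul
      measurable_fst)) (ae_of_all _ fun a => map_sub_right_eq_self _ _)

theorem cdlipS_inner (t : ℝ) {p : V k × V k} (hp : p.1 ≠ 0) :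
    -⟪(cdlipS t p).1, (cdlipS t p).2⟫ = -⟪p.1, p.2⟫ + t := by
  simp only [cdlipS, inner_sub_right, real_inner_smul_right, real_inner_self_eq_norm_sq]
  have := norm_ne_zero_iff.2 hp
  field_simp
  ring

theorem cdlipS_norm (t : ℝ) {R : ℝ} {p : V k × V k} (hp : 1 ≤ R * ‖p.1‖) (h0 : p.1 ≠ 0) :
    ‖(cdlipS t p).2 - p.2‖ ≤ R * |t| := by
  have h1 := norm_pos_iff.2 h0
  simp only [cdlipS, sub_sub_cancel_left, norm_neg, norm_smul, Real.norm_eq_abs, abs_div, abs_pow,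
    abs_norm]
  rw [div_mul_eq_mul_div, div_le_iff₀ (by positivity)]
  have := mul_le_mul_of_nonneg_right hp (mul_nonneg (abs_nonneg t) h1.le)
  nlinarith

theorem cdlip_meas (R : ℝ) : MeasurableSet {p : V k × V k | 1 ≤ R * ‖p.1‖} :=
  measurableSet_le measurable_const (by fun_prop)

theorem cdlip_tail (hk : k ≠ 0) (hT : Integrable (Th : V k × V k → ℝ)) {η : ℝ} (hη : 0 < η) :
    ∃ n : ℕ, ∫ p in {p : V k × V k | 1 ≤ (n + 1) * ‖p.1‖}ᶜ, Th p ≤ η := by
  have : Nonempty (Fin k) := ⟨⟨0, Nat.pos_of_ne_zero hk⟩⟩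
  have h1 := tendsto_setIntegral_of_antitone (f := Th) (μ := volume)
    (s := fun n : ℕ => {p : V k × V k | 1 ≤ (n + 1) * ‖p.1‖}ᶜ)
    (fun n => (cdlip_meas _).compl) (fun a b hab => compl_subset_compl.2 fun p hp => by
      have : (a : ℝ) ≤ b := by exact_mod_cast hab
      exact le_trans (show 1 ≤ ((a : ℝ) + 1) * ‖p.1‖ from hp)
        (show _ ≤ ((b : ℝ) + 1) * ‖p.1‖ by gcongr)) ⟨0, hT.integrableOn⟩
  have h2 : volume (⋂ n : ℕ, {p : V k × V k | 1 ≤ (n + 1) * ‖p.1‖}ᶜ) = 0 := by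
    refine measure_mono_null (t := {0} ×ˢ univ) (fun p hp => ⟨?_, trivial⟩)
      (by rw [Measure.volume_eq_prod, Measure.prod_prod]; simp)
    by_contra h0
    have h3 : 0 < ‖p.1‖ := norm_pos_iff.2 h0
    obtain ⟨n, hn⟩ := exists_nat_ge ‖p.1‖⁻¹
    refine mem_iInter.1 hp n (show 1 ≤ ((n : ℝ) + 1) * ‖p.1‖ from ?_)
    rw [← inv_le_iff_one_le_mul₀ h3]
    linarith
  rw [setIntegral_measure_zero _ h2] at h1
  exact (h1.eventually (ge_mem_nhds hη)).exists

theorem Chart.cdlip_abs_K {i m M c : ℝ} {U W : V k × ℝ → ℝ} (h : Chart i m M c U W)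
    (p : V k × V k) : |cdlipK i U W p| ≤ ww i M * ww i M * Th p := by
  simp only [cdlipK, abs_mul, abs_of_pos (cdlip_Th_pos p)]
  exact mul_le_mul_of_nonneg_right (mul_le_mul (h.symm.cdlip_abs_ww _) (h.cdlip_abs_ww _)
    (abs_nonneg _) ((abs_nonneg _).trans (h.cdlip_abs_ww 0))) (cdlip_Th_pos p).le

theorem Chart.cdlip_ker {i m M c : ℝ} {U W : V k × ℝ → ℝ} (h : Chart i m M c U W)
    {ε θ ρ d R t : ℝ}
    (hmod : ∀ x ∈ Icc m M, ∀ y ∈ Icc m M, |y - x| ≤ ε → |ww i y - ww i x| ≤ θ)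
    (eU : ∀ p p', dist p p' ≤ d → |uu U p - uu U p'| ≤ ε)
    (eW : ∀ p p', dist p p' ≤ d → |uu W p - uu W p'| ≤ ε) (hd : ρ ≤ d) (h1 : ρ ≤ 1) (hθ : ρ ≤ θ)
    (hR : 1 ≤ R) (ht : R * |t| ≤ ρ) {p : V k × V k} (hp : 1 ≤ R * ‖p.1‖) :
    |cdlipK i U W (cdlipS t p) - cdlipK i U W p| ≤
      (ww i M * ww i M * ((2 + 2 ^ (k + 1)) * 2 ^ (k + 1)) + 2 * ww i M) * θ * Th p := by
  have h0 : p.1 ≠ 0 := fun e => by rw [e] at hp; simp at hp; linarith
  have n1 := (cdlipS_norm t hp h0).trans ht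
  have n2 : |t| ≤ ρ := (le_mul_of_one_le_left (abs_nonneg t) hR).trans ht
  have hρ : 0 ≤ ρ := (abs_nonneg t).trans n2
  have l3 := hmod _ (h.symm.cdlip_mem _) _ (h.symm.cdlip_mem _)
    (eW ((cdlipS t p).2, 0) (p.2, 0) (by
      rw [Prod.dist_eq, dist_self, dist_eq_norm, max_eq_left (norm_nonneg _)]; exact n1.trans hd))
  have l4 := hmod _ (h.cdlip_mem _) _ (h.cdlip_mem _)
    (eU (p.1, -⟪p.1, p.2⟫ + t) (p.1, -⟪p.1, p.2⟫) (by simpa [Prod.dist_eq] using n2.trans hd))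
  have l5 := cdlip_inv (p := ((cdlipS t p).2, 0)) (p' := (p.2, 0)) (ε := ρ) (by simpa using n1) h1 k
  have l6 := cdlip_inv (p := (p.1, -⟪p.1, p.2⟫ + t)) (p' := (p.1, -⟪p.1, p.2⟫)) (ε := ρ)
    (by simpa using n2) h1 (k + 1)
  have l8 := h.cdlip_abs_ww (p.1, -⟪p.1, p.2⟫ + t)
  have l9 := h.symm.cdlip_abs_ww ((cdlipS t p).2, 0)
  have l10 := h.symm.cdlip_abs_ww (p.2, 0)
  have hP : 0 < (nn (p.2, (0 : ℝ)) ^ k)⁻¹ := inv_pos.2 (pow_pos (nn_pos _) _)
  have hQ : 0 < (nn (p.1, -⟪p.1, p.2⟫) ^ (k + 1))⁻¹ := inv_pos.2 (pow_pos (nn_pos _) _)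
  simp only [cdlipK, Th]
  rw [cdlipS_inner t h0, show (cdlipS t p).1 = p.1 from rfl]
  have hB : (2 : ℝ) ^ k ≤ 2 ^ (k + 1) := pow_le_pow_right₀ one_le_two (Nat.le_succ k)
  have hB0 : (0 : ℝ) < 2 ^ k := by positivity
  generalize (2 : ℝ) ^ (k + 1) = B at *
  generalize (nn (p.2, (0 : ℝ)) ^ k)⁻¹ = P at *
  generalize (nn ((cdlipS t p).2, (0 : ℝ)) ^ k)⁻¹ = P' at *
  generalize (nn (p.1, -⟪p.1, p.2⟫) ^ (k + 1))⁻¹ = Q at *
  generalize (nn (p.1, -⟪p.1, p.2⟫ + t) ^ (k + 1))⁻¹ = Q' at *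
  have hB1 : 0 ≤ B := hB0.le.trans hB
  have hθ0 : 0 ≤ θ := hρ.trans hθ
  have hW0 : 0 ≤ ww i M := (abs_nonneg _).trans l8
  have m1 : |P' - P| ≤ B * θ * P := l5.trans (by gcongr)
  have m2 : |Q' - Q| ≤ B * θ * Q := l6.trans (by gcongr)
  have m3 : |P'| ≤ (1 + B) * P := by
    have a : |P' - P| ≤ B * 1 * P := l5.trans (by gcongr)
    have b := abs_le.1 a
    exact abs_le.2 ⟨by nlinarith [b.1], by linarith [b.2]⟩
  have l7 : ∀ x y x' y' : ℝ, x' * y' * (P' * Q') - x * y * (P * Q) =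
      (x' * y' * (P' * (Q' - Q)) + x' * y' * ((P' - P) * Q)) +
        (x' - x) * y' * (P * Q) + x * (y' - y) * (P * Q) := by intros; ring
  rw [l7]
  refine (abs_add_three _ _ _).trans
    ((add_le_add_left (add_le_add_left (abs_add_le _ _) _) _).trans ?_)
  simp only [abs_mul, abs_of_pos hP, abs_of_pos hQ]
  calc _ ≤ (ww i M * ww i M * ((1 + B) * P * (B * θ * Q)) + ww i M * ww i M * (B * θ * P * Q)) +
        θ * ww i M * (P * Q) + ww i M * θ * (P * Q) := by gcongr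
    _ = _ := by ring

/-- Sketch: as `step` of `TLip.lean` (if there is no chart the claim is empty; otherwise `Th` is
integrable). Two uses of `Chart.one` reduce to `∫ p, κ p * (f (S p) - f p)` on `V k × V k` with
`κ p = ww i (uu W (p.2, 0)) * ww i (uu U (p.1, -⟪p.1, p.2⟫)) * Th p`, `f p = uu U (p.1, -⟪p.1, p.2⟫)`,
`S p = (p.1, p.2 - (δ / ‖p.1‖ ^ 2) • p.1)` (measure preserving: `MeasurePreserving.skew_product`).
The part `‖p.1‖ < R⁻¹` is at most `ww i M ^ 2 * ω * τ` (`tendsto_setIntegral_of_antitone`, the set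
`p.1 = 0` is null as `k ≠ 0`). On `R⁻¹ ≤ ‖p.1‖` use `shift_le` for the indicator times `κ` with
`N = ⌊h₀ / |δ|⌋₊`, `h₀ = min d (min 1 θ) / R`, `1 ≤ R`: the iterates move `p.2` by at most `h₀ R` and
the second coordinate of the chart by at most `h₀`, so
`|κ (S^[j] p) - κ p| ≤ const * θ * Th p` (`hmod`, `inv_pow_sub`, `nn_le_add'`). If `h₀ < |δ|` the
bound `M / h₀ * |δ|` is trivial. -/
theorem step (hk : k ≠ 0) {i m M c : ℝ} (hi : 1 < i) (hc : 0 < c) (hM : 0 < M) {η : ℝ}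
    (hη : 0 < η) :
    ∃ ε > 0, ∀ d > 0, ∃ C ≥ 0, ∀ U W : V k × ℝ → ℝ, Chart i m M c U W →
      (∀ p p', dist p p' ≤ d → |uu U p - uu U p'| ≤ ε) →
      (∀ p p', dist p p' ≤ d → |uu W p - uu W p'| ≤ ε) → ∀ δ ω, |δ| ≤ d → |δ| ≤ 1 →
      (∀ a z, |uu U (a, z + δ) - uu U (a, z)| ≤ ω) →
      (∀ a z, |uu W (a, z + -δ) - uu W (a, z)| ≤ ω) →
      |uu U (0, δ) - uu U (0, 0)| ≤ η * ω + C * |δ| := by
  by_cases hex : ∃ U W : V k × ℝ → ℝ, Chart i m M c U W
  swap
  · exact ⟨1, one_pos, fun d _ => ⟨0, le_rfl, fun U W h => absurd ⟨U, W, h⟩ hex⟩⟩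
  obtain ⟨U0, W0, h0⟩ := hex
  have iTh := h0.integrable_Th
  have hm := h0.m0
  set G := ww i M with hG
  have hG0 : 0 ≤ G := mul_nonneg (by linarith) (Real.rpow_nonneg hM.le _)
  set L := c * M / m ^ i with hL
  have hL0 : 0 < L := by positivity
  set T := ∫ p : V k × V k, Th p with hT
  have hT0 : 0 ≤ T := integral_nonneg fun p => (cdlip_Th_pos p).le
  set D := G * G * ((2 + 2 ^ (k + 1)) * 2 ^ (k + 1)) + 2 * G with hD
  have hD0 : 0 ≤ D := by positivity
  obtain ⟨τ, hτ, hτ1⟩ := exists_pos_mul_lt (a := c ^ 2 * η / 2) (by positivity) (G * G)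
  obtain ⟨n, hn⟩ := cdlip_tail hk iTh hτ
  set R : ℝ := n + 1 with hR
  have hR1 : 1 ≤ R := le_add_of_nonneg_left n.cast_nonneg
  obtain ⟨θ, hθ, hθ1⟩ := exists_pos_mul_lt (a := c ^ 2 * η / 2) (by positivity)
    ((c + G * L) * L + D * T)
  obtain ⟨ε, hε, hmod⟩ := Metric.uniformContinuousOn_iff_le.1
    ((isCompact_Icc (a := m) (b := M)).uniformContinuousOn_of_continuous
      (continuous_ww hi).continuousOn) θ hθ
  refine ⟨ε, hε, fun d hd => ?_⟩
  set ρ := min d (min 1 θ) with hρ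
  have hρ0 : 0 < ρ := lt_min hd (lt_min one_pos hθ)
  have hMi := Real.rpow_pos_of_pos hM i
  refine ⟨((c + G * L) * (L * M ^ i * 2 ^ (k + 1) + c * M) + 4 * M * (G * G * T) * (R / ρ)) / c ^ 2,
    by positivity, fun U W h eU eW δ ω hδ hδ1 ωU ωW => ?_⟩
  have hω : 0 ≤ ω := (abs_nonneg _).trans (ωU 0 0)
  rcases eq_or_ne δ 0 with rfl | hδ0
  · simp only [sub_self, abs_zero, mul_zero, add_zero]
    positivity
  have hδp : 0 < |δ| := abs_pos.2 hδ0
  have hmod' : ∀ x ∈ Icc m M, ∀ y ∈ Icc m M, |y - x| ≤ ε → |ww i y - ww i x| ≤ θ :=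
    fun x hx y hy k => hmod y hy x hx k
  have hu := h.cdlip_continuous
  have hv := h.symm.cdlip_continuous
  have hw := continuous_ww hi
  have hTc := cdlip_continuous_Th (k := k)
  have h1 := fun s => h.one hmod' hθ.le hδ1 s (fun a z => eU _ _ (by simpa [Prod.dist_eq])) ωU
  have h2 := h.symm.one hmod' hθ.le (δ := -δ) (by rwa [abs_neg]) 0
    (fun a z => eW _ _ (by simpa [Prod.dist_eq])) ωW
  simp only [inner_zero_right, neg_zero, zero_add, neg_neg, abs_neg, nn_zero, one_mul] at h2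
  rw [← hL] at h1 h2
  set e := L * (θ * ω + M ^ i * (2 ^ (k + 1) * |δ|)) + c * (M * |δ|) with he
  have he0 : 0 ≤ e := by positivity
  have hKc : Continuous (cdlipK i U W) := by unfold cdlipK; fun_prop
  let Φ : V k × V k → ℝ := fun p =>
    cdlipK i U W p * (uu U (p.1, -⟪p.1, p.2⟫ + δ) - uu U (p.1, -⟪p.1, p.2⟫))
  have hk' := h.cdlip_abs_K
  have hΦ : ∀ p, ‖Φ p‖ ≤ G * G * ω * Th p := fun p => by
    simp only [Φ, Real.norm_eq_abs]
    rw [abs_mul, mul_right_comm]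
    exact mul_le_mul (hk' p) (ωU _ _) (abs_nonneg _) ((abs_nonneg _).trans (hk' p))
  have iT := iTh.const_mul (G * G * ω)
  have iΦ : Integrable Φ := iT.mono' (by fun_prop : Continuous Φ).aestronglyMeasurable
    (ae_of_all _ hΦ)
  obtain ⟨i0, e0⟩ := h.cdlip_line0
  have h4 : |c * (∫ s, ww i (uu W (s, 0)) * (uu W (s, -δ) - uu W (s, 0)) *
      (nn (s, 0) ^ (k + 1))⁻¹) - ∫ p, Φ p| ≤ G * e * L := by
    have iΦ' := iΦ
    rw [Measure.volume_eq_prod] at iΦ' ⊢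
    have i1 : Integrable fun s =>
        ww i (uu W (s, 0)) * (uu W (s, -δ) - uu W (s, 0)) * (nn (s, 0) ^ (k + 1))⁻¹ := by
      refine (i0.const_mul (G * ω)).mono' (Continuous.aestronglyMeasurable
        ((by fun_prop : Continuous _).mul ((by fun_prop : Continuous _).inv₀ fun _ =>
          (pow_pos (nn_pos _) _).ne'))) (ae_of_all _ fun s => ?_)
      have k1 := inv_pos.2 (pow_pos (nn_pos (s, 0)) (k + 1))
      have k2 := ωW s 0
      rw [zero_add] at k2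
      rw [Real.norm_eq_abs, abs_mul, abs_mul, abs_of_pos k1]
      exact mul_le_mul_of_nonneg_right
        (mul_le_mul (h.symm.cdlip_abs_ww _) k2 (abs_nonneg _) hG0) k1.le
    refine le_trans ?_ (mul_le_mul_of_nonneg_left e0 (mul_nonneg hG0 he0))
    rw [integral_prod_symm _ iΦ', ← integral_const_mul,
      ← integral_sub (i1.const_mul c) iΦ'.integral_prod_right, ← integral_const_mul,
      ← Real.norm_eq_abs]
    refine norm_integral_le_of_norm_le (i0.const_mul _) (ae_of_all _ fun s => ?_)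
    have k1 := nn_pos (s, 0)
    have k2 : ∫ a, Φ (a, s) = ww i (uu W (s, 0)) * (nn (s, 0) ^ k)⁻¹ *
        ∫ a, ww i (uu U (a, -⟪a, s⟫)) * (uu U (a, -⟪a, s⟫ + δ) - uu U (a, -⟪a, s⟫)) *
          (nn (a, -⟪a, s⟫) ^ (k + 1))⁻¹ := by
      rw [← integral_const_mul]
      exact integral_congr_ae (ae_of_all _ fun a => by simp only [Φ, cdlipK, Th]; ring)
    have k3 : ∀ w x y : ℝ, c * (w * x * (nn (s, 0) ^ (k + 1))⁻¹) - w * (nn (s, 0) ^ k)⁻¹ * y =
        w * (c * x - nn (s, 0) * y) * (nn (s, 0) ^ (k + 1))⁻¹ := fun w x y => by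
      rw [pow_succ]; field_simp
    have k4 := inv_pos.2 (pow_pos k1 (k + 1))
    rw [k2, k3, Real.norm_eq_abs, abs_mul, abs_mul, abs_of_pos k4]
    exact mul_le_mul_of_nonneg_right
      (mul_le_mul (h.symm.cdlip_abs_ww _) (h1 s) (abs_nonneg _) hG0) k4.le
  set A := {p : V k × V k | 1 ≤ R * ‖p.1‖} with hA
  have mA : MeasurableSet A := cdlip_meas R
  have h6 : |∫ p in Aᶜ, Φ p| ≤ G * G * ω * τ := by
    refine (norm_integral_le_of_norm_le iT.integrableOn (ae_of_all _ hΦ)).trans ?_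
    rw [integral_const_mul]
    exact mul_le_mul_of_nonneg_left hn (by positivity)
  have h7 : |∫ p in A, Φ p| ≤ D * T * θ * ω + 4 * M * (G * G * T) * (R / ρ) * |δ| := by
    have iK : Integrable (cdlipK i U W) := (iTh.const_mul (G * G)).mono' hKc.aestronglyMeasurable
      (ae_of_all _ hk')
    have hle : ∀ p, |A.indicator (cdlipK i U W) p| ≤ G * G * Th p := fun p =>
      (norm_indicator_le_norm_self (cdlipK i U W) p).trans (hk' p)
    set N := ⌊ρ / R / |δ|⌋₊ with hN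
    have hN1 : (N : ℝ) ≤ ρ / R / |δ| := Nat.floor_le (by positivity)
    have hN2 : ρ / R / |δ| < N + 1 := Nat.lt_floor_add_one _
    have k1 := cdlip_shift (cdlipS_mp δ) (κ := A.indicator (cdlipK i U W))
      (f := fun p => uu U (p.1, -⟪p.1, p.2⟫)) (hKc.measurable.indicator mA) (iK.indicator mA)
      (by fun_prop : Continuous _).measurable (M := M) (ω := ω) (η := D * θ * T)
      (fun p => abs_le.2 ⟨by linarith [(h.cdlip_mem (p.1, -⟪p.1, p.2⟫)).1], h.hi _⟩) hω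
      (by positivity) (fun p => by
        rcases eq_or_ne p.1 0 with k | k
        · simpa [cdlipS, k] using hω
        · rw [cdlipS_inner δ k]; exact ωU _ _) N (fun j _ hj => by
        rw [hT, ← integral_const_mul]
        refine integral_mono_of_nonneg (ae_of_all _ fun p => abs_nonneg _) (iTh.const_mul _)
          (ae_of_all _ fun p => ?_)
        simp only [cdlipS_iter]
        by_cases hp : p ∈ A
        · rw [indicator_of_mem hp, indicator_of_mem (show cdlipS (j * δ) p ∈ A from hp)]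
          refine h.cdlip_ker hmod' eU eW (min_le_left _ _)
            ((min_le_right _ _).trans (min_le_left _ _))
            ((min_le_right _ _).trans (min_le_right _ _)) hR1 ?_ hp
          have l1 : (j : ℝ) ≤ ρ / R / |δ| := (Nat.cast_le.2 hj).trans hN1
          rw [le_div_iff₀ hδp, le_div_iff₀ (by positivity)] at l1
          rw [abs_mul, Nat.abs_cast, mul_comm]
          exact l1
        · rw [indicator_of_notMem hp, indicator_of_notMem (show cdlipS (j * δ) p ∉ A from hp)]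
          have := cdlip_Th_pos p
          simp only [sub_self, abs_zero]
          positivity)
    have k2 : ∫ p, A.indicator (cdlipK i U W) p * (uu U ((cdlipS δ p).1,
        -⟪(cdlipS δ p).1, (cdlipS δ p).2⟫) - uu U (p.1, -⟪p.1, p.2⟫)) = ∫ p in A, Φ p := by
      rw [← integral_indicator mA]
      refine integral_congr_ae (ae_of_all _ fun p => ?_)
      by_cases hp : p ∈ A
      · have k : p.1 ≠ 0 := fun e => by
          have : 1 ≤ R * ‖p.1‖ := hp
          rw [e] at this; simp at this; linarith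
        simp only [indicator_of_mem hp, cdlipS_inner δ k]
        rfl
      · simp only [indicator_of_notMem hp, zero_mul]
    have k3 : ∫ p, |A.indicator (cdlipK i U W) p| ≤ G * G * T := by
      rw [hT, ← integral_const_mul]
      exact integral_mono_of_nonneg (ae_of_all _ fun p => abs_nonneg _) (iTh.const_mul _)
        (ae_of_all _ hle)
    rw [k2] at k1
    have k4 : 1 ≤ (N + 1) * (R / ρ * |δ|) := by
      rw [div_lt_iff₀ hδp, div_lt_iff₀ (by positivity)] at hN2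
      rw [div_mul_eq_mul_div, ← mul_div_assoc, one_le_div hρ0]
      linarith
    have k5 := mul_le_mul_of_nonneg_left k4 (show 0 ≤ 4 * M * (G * G * T) by positivity)
    have k6 := mul_le_mul_of_nonneg_left k3 (show 0 ≤ 4 * M by positivity)
    refine le_of_mul_le_mul_left ?_ (show (0 : ℝ) < N + 1 by positivity)
    linarith
  have h8 := integral_add_compl mA iΦ
  have h10 := mul_le_mul_of_nonneg_left h2 hc.le
  rw [← abs_of_pos hc, ← abs_mul, abs_of_pos hc] at h10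
  have h11 := mul_le_mul_of_nonneg_right hτ1.le hω
  have h12 := mul_le_mul_of_nonneg_right hθ1.le hω
  refine le_of_mul_le_mul_left ?_ (pow_pos hc 2)
  rw [mul_add, ← mul_assoc (c ^ 2) (_ / _), mul_div_cancel₀ _ (pow_pos hc 2).ne',
    ← abs_of_pos (pow_pos hc 2), ← abs_mul, abs_of_pos (pow_pos hc 2)]
  rw [abs_le] at h4 h6 h7 h10 ⊢
  constructor <;> linarith [h4.1, h4.2, h6.1, h6.2, h7.1, h7.2, h10.1, h10.2]

end Pool.Agent.Lib.MP_0a1ca9_gt.Cd
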