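import Pool.Agent.Lib.MP_0a1ca9_gt.Graph

/-! The norm of a point of the affine chart. -/

open MeasureTheory Set
open scoped ENNReal

namespace Pool.Agent.Lib.MP_0a1ca9_gt.Cd

variable {k : ℕ}

/-- The norm of `(1, p.1, p.2)`. -/
noncomputable def nn (p : V k × ℝ) : ℝ := √(1 + ‖p.1‖ ^ 2 + p.2 ^ 2)

theorem nn_sq (p : V k × ℝ) : nn p ^ 2 = 1 + ‖p.1‖ ^ 2 + p.2 ^ 2 := Real.sq_sqrt (by positivity)

theorem one_le_nn (p : V k × ℝ) : 1 ≤ nn p :=
  Real.one_le_sqrt.2 (by nlinarith [sq_nonneg ‖p.1‖, sq_nonneg p.2])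

theorem nn_pos (p : V k × ℝ) : 0 < nn p := one_pos.trans_le (one_le_nn p)

@[fun_prop]
theorem continuous_nn : Continuous (nn : V k × ℝ → ℝ) := by unfold nn; fun_prop

theorem nn_neg (a : V k) (z : ℝ) : nn (a, -z) = nn (a, z) := by simp [nn]

theorem nn_zero : nn ((0 : V k), (0 : ℝ)) = 1 := by simp [nn]

theorem abs_le_nn (a : V k) (z : ℝ) : |z| ≤ nn (a, z) :=
  Real.abs_le_sqrt (by nlinarith [sq_nonneg ‖a‖])

theorem jac_cns (a : V k) (z : ℝ) : jac (cns z a) = nn (a, z) := by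
  rw [jac, nn, norm_cns_sq]
  congr 1
  ring

theorem nn_eq_norm (p : V k × ℝ) : nn p = ‖cns 1 (cns p.2 p.1)‖ := by
  rw [norm_cns, norm_cns_sq, nn]
  congr 1
  ring

theorem nn_le_add' (p p' : V k × ℝ) : nn p ≤ nn p' + (‖p.1 - p'.1‖ + |p.2 - p'.2|) := by
  have e : cns 1 (cns p.2 p.1) = cns 1 (cns p'.2 p'.1) + cns 0 (cns (p.2 - p'.2) (p.1 - p'.1)) := by
    rw [← cns_add, ← cns_add]
    simp
  rw [nn_eq_norm, nn_eq_norm, e]
  refine (norm_add_le _ _).trans (add_le_add le_rfl ?_)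
  refine (pow_le_pow_iff_left₀ (norm_nonneg _) (by positivity) two_ne_zero).1 ?_
  rw [norm_cns_sq, norm_cns_sq]
  nlinarith [sq_abs (p.2 - p'.2), mul_nonneg (norm_nonneg (p.1 - p'.1)) (abs_nonneg (p.2 - p'.2))]

theorem nn_le_add (a : V k) (z z' : ℝ) : nn (a, z) ≤ nn (a, z') + |z - z'| := by
  simpa using nn_le_add' (a, z) (a, z')

instance : (volume : Measure (V k × ℝ)).IsAddHaarMeasure :=
  Measure.prod.instIsAddHaarMeasure _ _

theorem lintegral_nn_lt_top : ∫⁻ p : V k × ℝ, ENNReal.ofReal (nn p ^ (k + 2))⁻¹ < ∞ := by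
  have h := integrable_rpow_neg_one_add_norm_sq (μ := (volume : Measure (V k × ℝ)))
    (r := (k + 2 : ℕ)) (by simp)
  refine lt_of_le_of_lt (lintegral_mono fun p => ?_) h.2
  rw [Real.enorm_eq_ofReal (by positivity)]
  refine ENNReal.ofReal_le_ofReal ?_
  have h1 : 1 + ‖p‖ ^ 2 ≤ nn p ^ 2 := by
    rw [nn_sq, Prod.norm_def]
    rcases le_total ‖p.1‖ ‖p.2‖ with h | h
    · rw [max_eq_right h, Real.norm_eq_abs, sq_abs]; nlinarith [sq_nonneg ‖p.1‖]
    · rw [max_eq_left h]; nlinarith [sq_nonneg p.2]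
  have h2 := nn_pos p
  have h3 : (nn p ^ (k + 2))⁻¹ = (nn p ^ 2) ^ (-((k + 2 : ℕ) : ℝ) / 2) := by
    rw [← Real.rpow_natCast, ← Real.rpow_natCast, ← Real.rpow_mul h2.le, ← Real.rpow_neg h2.le]
    congr 1
    push_cast
    ring
  rw [h3]
  refine Real.rpow_le_rpow_of_nonpos (by positivity) h1 ?_
  have : (0 : ℝ) ≤ (k + 2 : ℕ) := Nat.cast_nonneg _
  linarith

theorem ms_le_and {Ω : Type*} [MeasurableSpace Ω] {f g f' g' : Ω → ℝ} (hf : Measurable f)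
    (hg : Measurable g) (hf' : Measurable f') (hg' : Measurable g') :
    MeasurableSet {x | f x ≤ g x ∧ f' x ≤ g' x} :=
  (measurableSet_le hf hg).inter (measurableSet_le hf' hg')

end Pool.Agent.Lib.MP_0a1ca9_gt.Cd
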