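import Pool.Agent.Lib.MP_0a1ca9_gt.Simplex

/-! Integral geometry of hyperplane sections in the graph parametrization. -/

open MeasureTheory Set Metric Module
open scoped ENNReal RealInnerProductSpace

namespace Pool.Agent.Lib.MP_0a1ca9_gt

theorem lintegral_scale {F : Type*} [NormedAddCommGroup F] [NormedSpace ℝ F] [MeasurableSpace F]
    [BorelSpace F] [FiniteDimensional ℝ F] (μ : Measure F) [μ.IsAddHaarMeasure] {f : F → ℝ≥0∞}
    (hf : Measurable f) {r : ℝ} (hr : r ≠ 0) :
    ∫⁻ x, f x ∂μ = ENNReal.ofReal (|r| ^ finrank ℝ F) * ∫⁻ x, f (r • x) ∂μ := by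
  have h := lintegral_map (μ := μ) hf (measurable_const_smul r)
  rw [Measure.map_addHaar_smul μ hr, lintegral_smul_measure] at h
  have hpos : 0 < |r| := abs_pos.2 hr
  rw [← h, smul_eq_mul, ← mul_assoc, ← ENNReal.ofReal_mul (by positivity), abs_inv, abs_pow,
    mul_inv_cancel₀ (by positivity)]
  simp

theorem null_dt (d : ℕ) : volume {Y : Fin d → V d | dt Y = 0} = 0 := by
  set Z := {Y : Fin d → V d | dt Y = 0}
  have hZ : MeasurableSet Z := (isClosed_eq continuous_dt continuous_const).measurableSet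
  let I : Fin d → V d := fun j => EuclideanSpace.single j 1
  have hm : Measurable fun p : ℝ × (Fin d → V d) =>
      Z.indicator (1 : (Fin d → V d) → ℝ≥0∞) (p.2 + p.1 • I) :=
    (measurable_one.indicator hZ).comp (by fun_prop)
  have h1 : ∫⁻ s in Ioo (0 : ℝ) 1, ∫⁻ Y, Z.indicator (1 : (Fin d → V d) → ℝ≥0∞) (Y + s • I) =
      volume Z := by
    have : ∀ s : ℝ, ∫⁻ Y, Z.indicator (1 : (Fin d → V d) → ℝ≥0∞) (Y + s • I) = volume Z := by
      intro s
      rw [lintegral_add_right_eq_self (fun Y => Z.indicator (1 : (Fin d → V d) → ℝ≥0∞) Y),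
        lintegral_indicator_one hZ]
    simp [this]
  rw [← h1, lintegral_lintegral_swap hm.aemeasurable]
  refine lintegral_eq_zero_of_ae_eq_zero (ae_of_all _ fun Y => ?_)
  let M : Matrix (Fin d) (Fin d) ℝ := Matrix.of fun j k => Y j k
  have hfin : {s : ℝ | Y + s • I ∈ Z}.Finite := by
    refine ((-M).charpoly.rootSet_finite ℝ).subset fun s hs => ?_
    rw [Polynomial.mem_rootSet_of_ne (Matrix.charpoly_monic _).ne_zero, Polynomial.coe_aeval_eq_eval,
      Matrix.eval_charpoly]
    have : Matrix.scalar (Fin d) s - -M = Matrix.of fun j k => (Y + s • I) j k := by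
      ext j k
      by_cases h : j = k
      · subst h; simp [M, I, add_comm]
      · simp [M, I, h, Ne.symm h]
    rw [this]
    exact hs
  refine lintegral_eq_zero_of_ae_eq_zero (ae_restrict_of_ae ?_)
  filter_upwards [compl_mem_ae_iff.2 (hfin.measure_zero volume)] with s hs
  exact indicator_of_notMem (show Y + s • I ∉ Z from hs) (1 : (Fin d → V d) → ℝ≥0∞)

/-- The projection of the section of `M` by the graph of the linear form `w`. -/
def sec {d : ℕ} (w : V d) (M : Set (V (d + 1))) : Set (V d) := {y | cns ⟪w, y⟫ y ∈ M}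

theorem measurable_graph {d : ℕ} : Measurable fun p : V d × V d => cns ⟪p.1, p.2⟫ p.2 :=
  Measurable.cns (measurable_fst.inner measurable_snd) measurable_snd

theorem measurableSet_sec {d : ℕ} (w : V d) {M : Set (V (d + 1))} (hM : MeasurableSet M) :
    MeasurableSet (sec w M) :=
  (measurable_graph.comp (measurable_const.prodMk measurable_id)) hM

theorem measurable_vol_sec {d : ℕ} {M : Set (V (d + 1))} (hM : MeasurableSet M) :
    Measurable fun w => volume (sec w M) :=
  measurable_measure_prodMk_left (s := (fun p : V d × V d => cns ⟪p.1, p.2⟫ p.2) ⁻¹' M)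
    (measurable_graph hM)

theorem lintegral_forms {d : ℕ} {Y : Fin d → V d} (hY : dt Y ≠ 0) {f : (Fin d → ℝ) → ℝ≥0∞}
    (hf : Measurable f) :
    ∫⁻ z, f z = ENNReal.ofReal |dt Y| * ∫⁻ w : V d, f fun j => ⟪w, Y j⟫ := by
  let M : Matrix (Fin d) (Fin d) ℝ := Matrix.of fun j k => Y j k
  have hM : Measurable (Matrix.toLin' M) :=
    (Matrix.toLin' M).continuous_of_finiteDimensional.measurable
  have h := lintegral_map (μ := (volume : Measure (Fin d → ℝ))) hf hM
  rw [Real.map_matrix_volume_pi_eq_smul_volume_pi hY, lintegral_smul_measure] at h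
  have h3 : ∀ w : V d, Matrix.toLin' M w.ofLp = fun j => ⟪w, Y j⟫ := by
    intro w; ext j
    simp [M, Matrix.mulVec, dotProduct, PiLp.inner_apply]
  have h2 : ∫⁻ w : V d, f (fun j => ⟪w, Y j⟫) = ∫⁻ a, f (Matrix.toLin' M a) := by
    rw [← (PiLp.volume_preserving_ofLp (Fin d)).lintegral_comp
      (f := fun a => f (Matrix.toLin' M a)) (hf.comp hM)]
    simp only [h3]
  have hpos : 0 < |dt Y| := abs_pos.2 hY
  rw [h2, ← h, smul_eq_mul, ← mul_assoc, ← ENNReal.ofReal_mul hpos.le, abs_inv]
  rw [show (Matrix.of fun j k => Y j k).det = dt Y from rfl, mul_inv_cancel₀ hpos.ne']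
  simp

/-- Linear Blaschke-Petkantschin formula. -/
theorem blaschke {d : ℕ} {M : Set (V (d + 1))} (hM : MeasurableSet M) :
    volume M ^ d = ∫⁻ w : V d, sx (sec w M) := by
  have hP : MeasurableSet (Set.pi univ fun _ : Fin d => M) := MeasurableSet.univ_pi fun _ => hM
  have h1 : volume M ^ d = volume (Set.pi univ fun _ : Fin d => M) := by
    rw [volume_pi_pi]; simp
  have hm : Measurable fun p : V d × (Fin d → V d) =>
      (Set.pi univ fun _ : Fin d => sec p.1 M).indicator (fun Y => ENNReal.ofReal |dt Y|) p.2 := by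
    have : (fun p : V d × (Fin d → V d) =>
        (Set.pi univ fun _ : Fin d => sec p.1 M).indicator (fun Y => ENNReal.ofReal |dt Y|) p.2) =
        ((fun p : V d × (Fin d → V d) => fun j => cns ⟪p.1, p.2 j⟫ (p.2 j)) ⁻¹'
          (Set.pi univ fun _ : Fin d => M)).indicator
          fun p : V d × (Fin d → V d) => ENNReal.ofReal |dt p.2| := by
      ext p; rfl
    rw [this]
    refine Measurable.indicator
      (continuous_dt.abs.measurable.ennreal_ofReal.comp measurable_snd) ?_
    refine measurable_pi_lambda _ (fun j => ?_) hP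
    exact measurable_graph.comp (measurable_fst.prodMk (by fun_prop))
  simp only [sx]
  rw [lintegral_lintegral_swap hm.aemeasurable, h1, ← lintegral_indicator_one hP,
    lintegral_cns_pi (measurable_one.indicator hP)]
  refine lintegral_congr_ae ?_
  filter_upwards [compl_mem_ae_iff.2 (null_dt d)] with Y hY
  have hf : Measurable fun z : Fin d → ℝ => (Set.pi univ fun _ : Fin d => M).indicator
      (1 : (Fin d → V (d + 1)) → ℝ≥0∞) fun j => cns (z j) (Y j) :=
    (measurable_one.indicator hP).comp (measurable_pi_lambda _ fun j => by fun_prop)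
  rw [lintegral_forms hY hf, ← lintegral_const_mul' _ _ ENNReal.ofReal_ne_top]
  refine lintegral_congr fun w => ?_
  by_cases hw : Y ∈ Set.pi univ fun _ : Fin d => sec w M
  · rw [indicator_of_mem hw, indicator_of_mem (show (fun j => cns ⟪w, Y j⟫ (Y j)) ∈
      Set.pi univ fun _ : Fin d => M from hw)]
    simp
  · rw [indicator_of_notMem hw, indicator_of_notMem (show (fun j => cns ⟪w, Y j⟫ (Y j)) ∉
      Set.pi univ fun _ : Fin d => M from hw), mul_zero]

/-- The Jacobian of the graph parametrization. -/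
noncomputable def jac {d : ℕ} (w : V d) : ℝ := √(1 + ‖w‖ ^ 2)

theorem jac_pos {d : ℕ} (w : V d) : 0 < jac w := by unfold jac; positivity

theorem measurable_jac {d : ℕ} : Measurable (jac : V d → ℝ) := by unfold jac; fun_prop

theorem norm_cns {m : ℕ} (t : ℝ) (y : V m) : ‖cns t y‖ = √(t ^ 2 + ‖y‖ ^ 2) := by
  rw [← norm_cns_sq, Real.sqrt_sq (norm_nonneg _)]

theorem lintegral_weight {m : ℕ} {y : V (m + 1)} (hy : y ≠ 0) {ψ : ℝ → ℝ≥0∞} (hψ : Measurable ψ) :
    ∫⁻ w : V (m + 1), ENNReal.ofReal (jac w ^ (m + 1))⁻¹ * ψ ⟪w, y⟫ =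
      (∫⁻ z : V m, ENNReal.ofReal (jac z ^ (m + 1))⁻¹) *
        ∫⁻ t, ψ t * ENNReal.ofReal ‖cns t y‖⁻¹ := by
  have hy0 : 0 < ‖y‖ := norm_pos_iff.2 hy
  have hn : ‖(cns 1 0 : V (m + 1))‖ = ‖dir y‖ := by
    rw [norm_dir hy, norm_cns]; simp
  let U := (ℝ ∙ ((cns 1 0 : V (m + 1)) - dir y))ᗮ.reflection
  have hU : U (cns 1 0) = dir y := Submodule.reflection_sub hn
  have hj := measurable_jac (d := m + 1)
  have hj' := measurable_jac (d := m)
  have hm : Measurable fun w : V (m + 1) => ENNReal.ofReal (jac w ^ (m + 1))⁻¹ * ψ ⟪w, y⟫ :=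
    Measurable.mul (by fun_prop) (hψ.comp (measurable_id.inner measurable_const))
  have hmU : Measurable fun a : V (m + 1) =>
      ENNReal.ofReal (jac (U a) ^ (m + 1))⁻¹ * ψ ⟪U a, y⟫ := hm.comp U.continuous.measurable
  rw [← U.measurePreserving.lintegral_comp hm, lintegral_cns' hmU]
  have hm2 : Measurable fun t => ψ t * ENNReal.ofReal ‖cns t y‖⁻¹ :=
    hψ.mul (by fun_prop)
  have hm2' : Measurable fun a : ℝ => ENNReal.ofReal (|‖y‖| ^ finrank ℝ ℝ) *
      (ψ (‖y‖ • a) * ENNReal.ofReal ‖cns (‖y‖ • a) y‖⁻¹) :=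
    (hm2.comp (measurable_const_smul ‖y‖)).const_mul _
  rw [lintegral_scale volume hm2 hy0.ne', ← lintegral_const_mul' _ _ ENNReal.ofReal_ne_top,
    ← lintegral_const_mul _ hm2']
  refine lintegral_congr fun s => ?_
  have hin : ∀ z : V m, ⟪U (cns s z), y⟫ = ‖y‖ * s := by
    intro z
    have : y = ‖y‖ • U (cns 1 0) := by rw [hU, dir, smul_smul, mul_inv_cancel₀ hy0.ne', one_smul]
    conv_lhs => rw [this]
    rw [inner_smul_right, U.inner_map_map, inner_cns]; simp
  have hq : 0 < √(1 + s ^ 2) := by positivity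
  have hm3 : Measurable fun z : V m => ENNReal.ofReal (jac (U (cns s z)) ^ (m + 1))⁻¹ *
      ψ ⟪U (cns s z), y⟫ := hm.comp (U.continuous.measurable.comp (by fun_prop))
  rw [lintegral_scale volume hm3 hq.ne', ← lintegral_const_mul' _ _ ENNReal.ofReal_ne_top,
    ← lintegral_mul_const _ (by fun_prop)]
  refine lintegral_congr fun z => ?_
  have e1 : jac (U (cns s (√(1 + s ^ 2) • z))) = √(1 + s ^ 2) * jac z := by
    rw [jac, jac, U.norm_map, norm_cns_sq, norm_smul, ← Real.sqrt_mul (by positivity)]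
    congr 1
    rw [mul_pow, Real.norm_eq_abs, sq_abs, Real.sq_sqrt (by positivity)]; ring
  have e2 : ‖cns (‖y‖ • s) y‖ = ‖y‖ * √(1 + s ^ 2) := by
    rw [norm_cns, smul_eq_mul, show (‖y‖ * s) ^ 2 + ‖y‖ ^ 2 = ‖y‖ ^ 2 * (1 + s ^ 2) by ring,
      Real.sqrt_mul (by positivity), Real.sqrt_sq hy0.le]
  have hz := jac_pos z
  rw [hin, e1, e2, smul_eq_mul, abs_of_pos hq, abs_of_pos hy0, ← mul_assoc,
    ← ENNReal.ofReal_mul (by positivity), mul_comm (ψ _), ← mul_assoc, ← mul_assoc,
    ← ENNReal.ofReal_mul (by positivity), ← ENNReal.ofReal_mul (by positivity)]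
  congr 2
  simp only [finrank_euclideanSpace, Fintype.card_fin, finrank_self]
  field_simp
  ring

/-- The mean section formula. -/
theorem mean_section {m : ℕ} {M : Set (V (m + 2))} (hM : MeasurableSet M) :
    ∫⁻ w : V (m + 1), ENNReal.ofReal (jac w ^ (m + 1))⁻¹ * volume (sec w M) =
      (∫⁻ z : V m, ENNReal.ofReal (jac z ^ (m + 1))⁻¹) *
        ∫⁻ x, M.indicator (fun x => ENNReal.ofReal ‖x‖⁻¹) x := by
  have hj := measurable_jac (d := m + 1)
  have hm : Measurable fun p : V (m + 1) × V (m + 1) => ENNReal.ofReal (jac p.1 ^ (m + 1))⁻¹ *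
      M.indicator (1 : V (m + 2) → ℝ≥0∞) (cns ⟪p.1, p.2⟫ p.2) :=
    Measurable.mul (by fun_prop) ((measurable_one.indicator hM).comp measurable_graph)
  have h1 : ∀ w : V (m + 1), ENNReal.ofReal (jac w ^ (m + 1))⁻¹ * volume (sec w M) =
      ∫⁻ y, ENNReal.ofReal (jac w ^ (m + 1))⁻¹ *
        M.indicator (1 : V (m + 2) → ℝ≥0∞) (cns ⟪w, y⟫ y) := by
    intro w
    rw [lintegral_const_mul' _ _ ENNReal.ofReal_ne_top,
      ← lintegral_indicator_one (measurableSet_sec w hM)]
    rfl
  have hm2 : Measurable (M.indicator fun x => ENNReal.ofReal ‖x‖⁻¹) :=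
    Measurable.indicator (by fun_prop) hM
  simp only [h1]
  rw [lintegral_lintegral_swap hm.aemeasurable, lintegral_cns hm2, ← lintegral_const_mul'']
  · refine lintegral_congr_ae ?_
    filter_upwards [compl_mem_ae_iff.2 (measure_singleton (0 : V (m + 1)))] with y hy
    rw [lintegral_weight hy (ψ := fun t => M.indicator (1 : V (m + 2) → ℝ≥0∞) (cns t y))
      ((measurable_one.indicator hM).comp (by fun_prop))]
    congr 1
    refine lintegral_congr fun t => ?_
    by_cases h : cns t y ∈ M <;> simp [h]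
  · exact (Measurable.lintegral_prod_left' (f := fun p : ℝ × V (m + 1) =>
      M.indicator (fun x => ENNReal.ofReal ‖x‖⁻¹) (cns p.1 p.2))
      (hm2.comp continuous_cns.measurable)).aemeasurable

/-- Integration of even homogeneous functions over the ball in the graph parametrization. -/
theorem lintegral_ball_even {d : ℕ} {h : V (d + 1) → ℝ≥0∞} (hh : Measurable h)
    (heven : ∀ u, h (-u) = h u) :
    ∫⁻ x, (ball (0 : V (d + 1)) 1).indicator (fun x => h (dir x)) x =
      (∫⁻ s : ℝ, (Ioo (-1 : ℝ) 1).indicator (fun s => ENNReal.ofReal (|s| ^ d)) s) *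
        ∫⁻ w : V d, h (dir (cns 1 (-w))) * ENNReal.ofReal (jac w ^ (d + 1))⁻¹ := by
  have hj := measurable_jac (d := d)
  have hm : Measurable ((ball (0 : V (d + 1)) 1).indicator fun x => h (dir x)) :=
    Measurable.indicator (hh.comp measurable_dir) measurableSet_ball
  have hm0 : Measurable fun w : V d => h (dir (cns 1 (-w))) :=
    hh.comp (measurable_dir.comp (by fun_prop))
  have hm1 : Measurable fun p : ℝ × V d => ENNReal.ofReal (|p.1| ^ d) *
      (ball (0 : V (d + 1)) 1).indicator (fun x => h (dir x)) (cns p.1 ((-p.1) • p.2)) :=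
    Measurable.mul (by fun_prop) (hm.comp (by fun_prop))
  have h1 : ∫⁻ x, (ball (0 : V (d + 1)) 1).indicator (fun x => h (dir x)) x =
      ∫⁻ t : ℝ, ∫⁻ w : V d, ENNReal.ofReal (|t| ^ d) *
        (ball (0 : V (d + 1)) 1).indicator (fun x => h (dir x)) (cns t ((-t) • w)) := by
    rw [lintegral_cns' hm]
    refine lintegral_congr_ae ?_
    filter_upwards [compl_mem_ae_iff.2 (measure_singleton (0 : ℝ))] with t ht
    have ht' : -t ≠ 0 := neg_ne_zero.2 ht
    rw [lintegral_scale volume (f := fun y => (ball (0 : V (d + 1)) 1).indicator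
      (fun x => h (dir x)) (cns t y)) (hm.comp (by fun_prop)) ht',
      lintegral_const_mul' _ _ ENNReal.ofReal_ne_top]
    simp
  have hm4 : Measurable ((Ioo (-1 : ℝ) 1).indicator fun s => ENNReal.ofReal (|s| ^ d)) :=
    Measurable.indicator (by fun_prop) measurableSet_Ioo
  have hm5 : Measurable fun w : V d =>
      h (dir (cns 1 (-w))) * ENNReal.ofReal (jac w ^ (d + 1))⁻¹ := hm0.mul (by fun_prop)
  rw [h1, lintegral_lintegral_swap hm1.aemeasurable, ← lintegral_const_mul _ hm5]
  refine lintegral_congr fun w => ?_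
  have hw := jac_pos w
  have hm4' : Measurable fun a : ℝ => ENNReal.ofReal (|jac w| ^ finrank ℝ ℝ) *
      (Ioo (-1 : ℝ) 1).indicator (fun s => ENNReal.ofReal (|s| ^ d)) (jac w • a) :=
    (hm4.comp (measurable_const_smul (jac w))).const_mul _
  rw [lintegral_scale volume hm4 hw.ne', ← lintegral_const_mul' _ _ ENNReal.ofReal_ne_top,
    ← lintegral_mul_const _ hm4']
  refine lintegral_congr_ae ?_
  filter_upwards [compl_mem_ae_iff.2 (measure_singleton (0 : ℝ))] with t ht
  have ht' : t ≠ 0 := ht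
  have e1 : cns t ((-t) • w) = t • cns 1 (-w) := by
    rw [← cns_smul]; simp
  have e2 : ‖cns 1 (-w)‖ = jac w := by rw [norm_cns, jac]; simp
  have e3 : h (dir (t • cns 1 (-w))) = h (dir (cns 1 (-w))) := by
    rcases lt_or_gt_of_ne ht' with hlt | hgt
    · rw [← heven]
      congr 1
      simp only [dir, norm_smul, Real.norm_eq_abs, abs_of_neg hlt, smul_smul, ← neg_smul]
      congr 1
      rw [e2]; field_simp
    · congr 1
      simp only [dir, norm_smul, Real.norm_eq_abs, abs_of_pos hgt, smul_smul]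
      congr 1
      rw [e2]; field_simp
  have e4 : t • cns 1 (-w) ∈ ball (0 : V (d + 1)) 1 ↔ jac w • t ∈ Ioo (-1 : ℝ) 1 := by
    rw [mem_ball_zero_iff, norm_smul, e2, mem_Ioo, ← abs_lt, smul_eq_mul, abs_mul, abs_of_pos hw,
      Real.norm_eq_abs, mul_comm]
  rw [e1]
  by_cases hb : t • cns 1 (-w) ∈ ball (0 : V (d + 1)) 1
  · rw [indicator_of_mem hb, indicator_of_mem (e4.1 hb), e3, mul_comm (h _), ← mul_assoc,
      ← ENNReal.ofReal_mul (by positivity), ← ENNReal.ofReal_mul (by positivity)]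
    congr 2
    rw [smul_eq_mul, abs_mul, abs_of_pos hw, finrank_self]
    field_simp
    ring
  · rw [indicator_of_notMem hb, indicator_of_notMem (fun h => hb (e4.2 h))]
    simp

end Pool.Agent.Lib.MP_0a1ca9_gt
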