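import Pool.Agent.Lib.MP_0a1ca9_gt.CdFin
import Pool.Agent.Lib.MP_0a1ca9_gt.Graph

/-! The rearrangement inequality for measures on strips and real powers. -/

open MeasureTheory Set Filter Topology
open scoped ENNReal RealInnerProductSpace

namespace Pool.Agent.Lib.MP_0a1ca9_gt.Cd

theorem cdPow_mul {c : ℝ} (hc : 0 ≤ c) : ∀ {p : ℕ} {F : ℕ → ℝ}, Mon p F → Mon p fun k => c * F k
  | 0, _, h => fun k => mul_nonneg hc (h k)
  | p + 1, F, h => by
    have := cdPow_mul hc (p := p) h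
    simp only [mul_sub] at this
    exact this

theorem cdPow_const (c : ℝ) (hc : 0 ≤ c) : ∀ p : ℕ, Mon p fun _ => c := by
  intro p
  induction p generalizing c with
  | zero => exact fun _ => hc
  | succ p ih => exact ih (c - c) (sub_self c).ge

theorem cdPow_step {h : ℝ} (hh : 0 ≤ h) (p : ℕ) : ∀ G G' : ℝ → ℝ, (∀ x, HasDerivAt G (G' x) x) →
    (∀ x, 0 ≤ x → Mon p fun k => G' (x + k * h)) → ∀ x, 0 ≤ x →
      Mon (p + 1) fun k => G (x + k * h) := by
  induction p with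
  | zero =>
    intro G G' hd hp x hx k
    have hm : MonotoneOn G (Ici 0) :=
      monotoneOn_of_deriv_nonneg (convex_Ici 0)
        (fun z _ => (hd z).continuousAt.continuousWithinAt)
        (fun z _ => (hd z).differentiableAt.differentiableWithinAt) fun z hz => by
          rw [(hd z).deriv]
          simpa using hp z (interior_subset hz) 0
    refine sub_nonneg.2 (hm (by simp only [mem_Ici]; positivity)
      (by simp only [mem_Ici]; positivity) ?_)
    push_cast
    nlinarith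
  | succ p ih =>
    intro G G' hd hp x hx
    have e : ∀ (H : ℝ → ℝ) (z : ℝ), (fun k : ℕ => H (z + ((k + 1 : ℕ) : ℝ) * h) - H (z + k * h)) =
        fun k : ℕ => H (z + k * h + h) - H (z + k * h) := fun H z => by
      funext k
      push_cast
      rw [add_mul, one_mul, add_assoc]
    have := ih (fun z => G (z + h) - G z) (fun z => G' (z + h) - G' z)
      (fun z => ((hd (z + h)).comp_add_const z h).sub (hd z))
      (fun z hz => by rw [← e G' z]; exact hp z hz) x hx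
    rw [← e G x] at this
    exact this

theorem cdPow_rpow {h : ℝ} (hh : 0 ≤ h) (p : ℕ) : ∀ q : ℝ, 0 ≤ q →
    (∃ m : ℕ, q = m) ∨ (p : ℝ) ≤ q + 1 → ∀ x, 0 ≤ x → Mon p fun k => (x + k * h) ^ q := by
  induction p with
  | zero => exact fun q _ _ x hx k => Real.rpow_nonneg (by positivity) q
  | succ p ih =>
    intro q hq hw x hx
    rcases le_or_gt 1 q with h1 | h1
    · refine cdPow_step hh p (fun z => z ^ q) (fun z => q * z ^ (q - 1))
        (fun z => Real.hasDerivAt_rpow_const (Or.inr h1)) (fun z hz => cdPow_mul hq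
          (ih (q - 1) (by linarith) (hw.imp ?_ fun e => by push_cast at e; linarith) z hz)) x hx
      rintro ⟨m, rfl⟩
      have : 1 ≤ m := by exact_mod_cast h1
      exact ⟨m - 1, by rw [Nat.cast_sub this, Nat.cast_one]⟩
    · rcases hw with ⟨m, rfl⟩ | hw
      · have : m = 0 := by
          have : m < 1 := by exact_mod_cast h1
          omega
        subst this
        simpa using cdPow_const 1 zero_le_one (p + 1)
      · have : p = 0 := by
          have : (p : ℝ) < 1 := by push_cast at hw; linarith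
          have : p < 1 := by exact_mod_cast this
          omega
        subst this
        intro k
        refine sub_nonneg.2 (Real.rpow_le_rpow (by positivity) ?_ hq)
        push_cast
        nlinarith

/-- Sketch: prove, by induction on `p`, for all `G G' : ℝ → ℝ` with `HasDerivAt G (G' x) x` for all
`x`: if `Mon p fun k => G' (x + k * h)` for all `x ≥ 0` then `Mon (p + 1) fun k => G (x + k * h)` for
all `x ≥ 0` (base: `G` is monotone on `Ici 0`; step: apply it to `fun x => G (x + h) - G x`).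
Then induction on `p` for `fun x => x ^ q` (`Real.hasDerivAt_rpow_const (Or.inr _)` for `1 ≤ q`;
`p ≤ 1` by hand; `q = 0` gives a constant sequence). -/
theorem mon_rpow {p : ℕ} {q h : ℝ} (hq : 0 ≤ q) (hw : (∃ m : ℕ, q = m) ∨ (p : ℝ) ≤ q + 1)
    (hh : 0 ≤ h) : Mon p fun k => ((k : ℝ) * h) ^ q := by
  simpa using cdPow_rpow hh p q hq hw 0 le_rfl

variable {Ω : Type*} [MeasurableSpace Ω]

open Classical in
/-- Copy of `lintegral_count` of `TPois.lean`. -/
theorem lintegral_count (μ : Measure Ω) [IsFiniteMeasure μ] {A : Set Ω} (hA : MeasurableSet A)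
    (n : ℕ) (f : ℕ → ℝ≥0∞) :
    ∫⁻ ω : Fin n → Ω, f (Finset.univ.filter fun j => ω j ∈ A).card ∂Measure.pi (fun _ => μ) =
      ∑ k ∈ Finset.range (n + 1), n.choose k • (f k * (μ A ^ k * μ Aᶜ ^ (n - k))) := by
  have h1 : ∀ ω : Fin n → Ω, f (Finset.univ.filter fun j => ω j ∈ A).card =
      ∑ T ∈ (Finset.univ : Finset (Fin n)).powerset,
        (univ.pi fun j => if j ∈ T then A else Aᶜ).indicator (fun _ => f T.card) ω := by
    intro ω
    rw [Finset.sum_eq_single (Finset.univ.filter fun j => ω j ∈ A)]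
    · rw [indicator_of_mem]
      intro j _
      by_cases h : ω j ∈ A <;> simp [h]
    · intro T _ hT
      refine indicator_of_notMem (fun h => hT ?_) _
      ext j
      have := h j (mem_univ j)
      by_cases hj : j ∈ T
      · simpa [hj] using this
      · simpa [hj] using this
    · intro h
      exact absurd (Finset.mem_powerset.2 (Finset.subset_univ _)) h
  have hm : ∀ T : Finset (Fin n), MeasurableSet (univ.pi fun j => if j ∈ T then A else Aᶜ) :=
    fun T => MeasurableSet.univ_pi fun j => by split_ifs; exacts [hA, hA.compl]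
  simp_rw [h1]
  rw [lintegral_finsetSum _ fun T _ => measurable_const.indicator (hm T)]
  have h2 := Finset.sum_powerset_apply_card (fun k => f k * (μ A ^ k * μ Aᶜ ^ (n - k)))
    (x := (Finset.univ : Finset (Fin n)))
  rw [Finset.card_univ, Fintype.card_fin] at h2
  rw [← h2]
  refine Finset.sum_congr rfl fun T _ => ?_
  rw [lintegral_indicator_const (hm T), Measure.pi_pi]
  simp_rw [apply_ite μ]
  rw [Finset.prod_ite, Finset.prod_const, Finset.prod_const, Finset.filter_mem_eq_inter,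
    Finset.univ_inter, Finset.filter_not, Finset.filter_mem_eq_inter, Finset.univ_inter,
    Finset.card_univ_sdiff, Fintype.card_fin]

theorem cdPow_filter {X ι β : Type*} [MeasurableSpace X] [Fintype ι] [MeasurableSpace β]
    {P : X → ι → Prop} [∀ x, DecidablePred (P x)] (hP : ∀ e, MeasurableSet {x | P x e})
    (f : Finset ι → β) : Measurable fun x => f (Finset.univ.filter (P x)) := by
  classical
  have h1 : Measurable P := measurable_pi_lambda _ fun e => measurableSet_setOfPred.1 (hP e)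
  have h2 := (measurable_of_finite fun p : ι → Prop => f (Finset.univ.filter p)).comp h1
  convert h2 using 2
  simp only [Function.comp_apply]
  congr

theorem cdPow_abs (x r : ℝ) : x ^ 2 ≤ r * |r| ↔ |x| ≤ r := by
  rcases le_or_gt 0 r with h | h
  · rw [abs_of_nonneg h, ← sq, sq_le_sq, abs_of_nonneg h]
  · rw [abs_of_neg h]
    constructor
    · intro h1
      nlinarith [sq_nonneg x]
    · intro h1
      linarith [abs_nonneg x]

theorem cdPow_ms {d : ℕ} {y : Ω → V d} {c r : Ω → ℝ} (hy : Measurable y) (hc : Measurable c)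
    (hr : Measurable r) : MeasurableSet {p : Ω × V d | |⟪y p.1, p.2⟫ + c p.1| ≤ r p.1} :=
  measurableSet_le (((hy.comp measurable_fst).inner measurable_snd).add
    (hc.comp measurable_fst)).abs (hr.comp measurable_fst)

theorem cdPow_le_one {n k : ℕ} (hk : k ≤ n) {q : ℝ} (hq : 0 ≤ q) :
    ((k : ℝ) * (n : ℝ)⁻¹) ^ q ≤ 1 :=
  Real.rpow_le_one (by positivity) (by
    rw [← div_eq_mul_inv]; exact div_le_one_of_le₀ (by exact_mod_cast hk) (by positivity)) hq

open Classical in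
theorem cdPow_bern (μ : Measure Ω) [IsProbabilityMeasure μ] {A : Set Ω} (hA : MeasurableSet A)
    {q : ℝ} (hq : 0 < q) : Tendsto (fun n : ℕ => ∫⁻ ω : Fin n → Ω, ENNReal.ofReal
      ((((Finset.univ.filter fun j => ω j ∈ A).card : ℝ) * (n : ℝ)⁻¹) ^ q)
        ∂Measure.pi (fun _ => μ)) atTop (𝓝 (μ A ^ q)) := by
  let f : C(unitInterval, ℝ) :=
    ⟨fun x => (x : ℝ) ^ q, (Real.continuous_rpow_const hq.le).comp continuous_subtype_val⟩
  let x : unitInterval := ⟨μ.real A, measureReal_nonneg, measureReal_le_one⟩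
  have h1 : Tendsto (fun n : ℕ => bernsteinApproximation n f x) atTop (𝓝 (f x)) :=
    ((continuous_eval_const x).tendsto f).comp (bernsteinApproximation_uniform f)
  have h2 := (ENNReal.continuous_ofReal.tendsto _).comp h1
  have e1 : μ A = ENNReal.ofReal x := (ofReal_measureReal (μ := μ) (s := A)).symm
  have e2 : μ Aᶜ = ENNReal.ofReal (1 - x) := by
    rw [← ofReal_measureReal (μ := μ) (s := Aᶜ), measureReal_compl hA, probReal_univ]
  have hx0 : (0 : ℝ) ≤ x := x.2.1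
  have hx1 : (0 : ℝ) ≤ 1 - x := sub_nonneg.2 x.2.2
  rw [e1, ENNReal.ofReal_rpow_of_nonneg hx0 hq.le]
  refine h2.congr fun n => ?_
  rw [lintegral_count μ hA n fun k => ENNReal.ofReal (((k : ℝ) * (n : ℝ)⁻¹) ^ q),
    Finset.sum_range, Function.comp_apply, bernsteinApproximation.apply,
    ENNReal.ofReal_sum_of_nonneg (f := fun k : Fin (n + 1) => bernstein n k x • f (bernstein.z k))
      fun k _ => smul_nonneg bernstein_nonneg (Real.rpow_nonneg (bernstein.z k).2.1 q)]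
  refine Finset.sum_congr rfl fun k _ => ?_
  rw [e1, e2, nsmul_eq_mul, ← ENNReal.ofReal_natCast, ← ENNReal.ofReal_pow hx0,
    ← ENNReal.ofReal_pow hx1, ← ENNReal.ofReal_mul (by positivity),
    ← ENNReal.ofReal_mul (by positivity), ← ENNReal.ofReal_mul (by positivity), bernstein_apply]
  congr 1
  simp only [f, ContinuousMap.coe_mk, bernstein.z, smul_eq_mul, div_eq_mul_inv]
  ring

open Classical in
theorem cdPow_lim (μ : Measure Ω) [IsProbabilityMeasure μ] {d : ℕ} {y : Ω → V d} {c r : Ω → ℝ}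
    (hy : Measurable y) (hc : Measurable c) (hr : Measurable r) {q l : ℝ} (hq : 0 < q)
    (hl : 0 < l) : Tendsto (fun n : ℕ => ∫⁻ ω : Fin n → Ω, ENNReal.ofReal (∫ w : V d,
      Real.exp (-(l * ‖w‖ ^ 2)) * (((Finset.univ.filter fun j =>
        (⟪y (ω j), w⟫ + c (ω j)) ^ 2 ≤ r (ω j) * |r (ω j)|).card : ℝ) * (n : ℝ)⁻¹) ^ q)
        ∂Measure.pi (fun _ => μ)) atTop (𝓝 (∫⁻ w : V d,
      ENNReal.ofReal (Real.exp (-(l * ‖w‖ ^ 2))) * μ {ω | |⟪y ω, w⟫ + c ω| ≤ r ω} ^ q)) := by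
  have hS := cdPow_ms hy hc hr
  let g : (n : ℕ) → (Fin n → Ω) × V d → ℝ := fun n p => (((Finset.univ.filter fun j =>
    p.1 j ∈ {ω | |⟪y ω, p.2⟫ + c ω| ≤ r ω}).card : ℝ) * (n : ℝ)⁻¹) ^ q
  have hg : ∀ n, Measurable (g n) := fun n =>
    cdPow_filter (P := fun (p : (Fin n → Ω) × V d) j => p.1 j ∈ {ω | |⟪y ω, p.2⟫ + c ω| ≤ r ω})
      (fun j => hS.preimage (f := fun p : (Fin n → Ω) × V d => (p.1 j, p.2)) (by fun_prop))
      fun A => ((A.card : ℝ) * (n : ℝ)⁻¹) ^ q
  have g0 : ∀ n p, 0 ≤ g n p := fun n p => Real.rpow_nonneg (by positivity) q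
  have g1 : ∀ n p, g n p ≤ 1 := fun n p =>
    cdPow_le_one ((Finset.card_le_univ _).trans (Fintype.card_fin n).le) hq.le
  have he : Measurable fun w : V d => ENNReal.ofReal (Real.exp (-(l * ‖w‖ ^ 2))) := by fun_prop
  have hm : ∀ n, Measurable fun p : (Fin n → Ω) × V d => ENNReal.ofReal (g n p) :=
    fun n => (hg n).ennreal_ofReal
  have h1 := tendsto_lintegral_of_dominated_convergence (μ := (volume : Measure (V d)))
    (F := fun (n : ℕ) (w : V d) => ENNReal.ofReal (Real.exp (-(l * ‖w‖ ^ 2))) *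
      ∫⁻ ω : Fin n → Ω, ENNReal.ofReal (g n (ω, w)) ∂Measure.pi (fun _ => μ))
    (f := fun w => ENNReal.ofReal (Real.exp (-(l * ‖w‖ ^ 2))) *
      μ {ω | |⟪y ω, w⟫ + c ω| ≤ r ω} ^ q)
    (fun w => ENNReal.ofReal (Real.exp (-(l * ‖w‖ ^ 2))))
    (fun n => he.mul (hm n).lintegral_prod_left')
    (fun n => Eventually.of_forall fun w => mul_le_of_le_one_right' ((lintegral_mono fun ω =>
      ENNReal.ofReal_le_one.2 (g1 n (ω, w))).trans (by simp)))
    (integrable_gauss d hl).lintegral_lt_top.ne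
    (Eventually.of_forall fun w => ENNReal.Tendsto.const_mul
      (cdPow_bern μ (hS.preimage (f := fun ω => (ω, w)) (by fun_prop)) hq)
      (Or.inr ENNReal.ofReal_ne_top))
  refine h1.congr fun n => ?_
  simp_rw [← lintegral_const_mul' _ _ ENNReal.ofReal_ne_top]
  rw [← lintegral_lintegral_swap ((he.comp measurable_snd).mul (hm n)).aemeasurable]
  refine lintegral_congr fun ω => ?_
  have e : ∀ w : V d, (Finset.univ.filter fun j =>
      (⟪y (ω j), w⟫ + c (ω j)) ^ 2 ≤ r (ω j) * |r (ω j)|) =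
      Finset.univ.filter fun j => ω j ∈ {ω | |⟪y ω, w⟫ + c ω| ≤ r ω} := fun w =>
    Finset.ext fun j => by simp [cdPow_abs]
  simp_rw [e]
  have hw : Measurable fun w : V d => g n (ω, w) := (hg n).comp measurable_prodMk_left
  rw [ofReal_integral_eq_lintegral_ofReal
    ((integrable_gauss d hl).mul_bdd (c := 1) hw.aestronglyMeasurable
      (Eventually.of_forall fun w => by rw [Real.norm_of_nonneg (g0 _ _)]; exact g1 _ _))
    (Eventually.of_forall fun w => mul_nonneg (Real.exp_pos _).le (g0 _ _))]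
  exact lintegral_congr fun w => (ENNReal.ofReal_mul (Real.exp_pos _).le).symm

/-- Sketch: `|x| ≤ r ↔ x ^ 2 ≤ r * |r|`. Integrate `count_anti` for `F k = (k * n⁻¹) ^ q` over
`Measure.pi fun _ : Fin n => μ`, swap the integrals, `lintegral_count` gives the Bernstein
polynomial of `x ^ q` at the measure of the set; `bernsteinApproximation_uniform` and dominated
convergence (bound `exp (-(l * ‖w‖ ^ 2))`, `integrable_gauss`). -/
theorem strip_prob (μ : Measure Ω) [IsProbabilityMeasure μ] {d : ℕ} {y : Ω → V d} {c r : Ω → ℝ}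
    (hy : Measurable y) (hc : Measurable c) (hr : Measurable r) {κ : ℝ} (h0 : 0 ≤ κ) (h1 : κ ≤ 1)
    {q l : ℝ} (hq : 0 < q) (hw : (∃ m : ℕ, q = m) ∨ (d : ℝ) ≤ q) (hl : 0 < l) :
    ∫⁻ w : V d, ENNReal.ofReal (Real.exp (-(l * ‖w‖ ^ 2))) *
        μ {ω | |⟪y ω, w⟫ + c ω| ≤ r ω} ^ q ≤
      ∫⁻ w : V d, ENNReal.ofReal (Real.exp (-(l * ‖w‖ ^ 2))) *
        μ {ω | |⟪y ω, w⟫ + κ * c ω| ≤ r ω} ^ q := by
  refine le_of_tendsto_of_tendsto' (cdPow_lim μ hy hc hr hq hl)
    (cdPow_lim μ hy (hc.const_mul κ) hr hq hl) fun n =>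
      lintegral_mono fun ω => ENNReal.ofReal_le_ofReal ?_
  exact count_anti (fun j => y (ω j)) (fun j => c (ω j)) (fun j => r (ω j) * |r (ω j)|) hl
    (F := fun k => ((k : ℝ) * (n : ℝ)⁻¹) ^ q) (fun p _ hp => mon_rpow hq.le (hw.imp_right fun e => by
      have : (p : ℝ) ≤ d + 1 := by exact_mod_cast hp
      linarith) (by positivity)) h0 h1

theorem cdPow_fin (μ : Measure Ω) [IsFiniteMeasure μ] {d : ℕ} {y : Ω → V d} {c r : Ω → ℝ}
    (hy : Measurable y) (hc : Measurable c) (hr : Measurable r) {κ : ℝ} (h0 : 0 ≤ κ) (h1 : κ ≤ 1)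
    {q l : ℝ} (hq : 0 < q) (hw : (∃ m : ℕ, q = m) ∨ (d : ℝ) ≤ q) (hl : 0 < l) :
    ∫⁻ w : V d, ENNReal.ofReal (Real.exp (-(l * ‖w‖ ^ 2))) *
        μ {ω | |⟪y ω, w⟫ + c ω| ≤ r ω} ^ q ≤
      ∫⁻ w : V d, ENNReal.ofReal (Real.exp (-(l * ‖w‖ ^ 2))) *
        μ {ω | |⟪y ω, w⟫ + κ * c ω| ≤ r ω} ^ q := by
  rcases eq_zero_or_neZero μ with rfl | hμ
  · exact le_rfl
  have e : ∀ (A : Set Ω) (a : ℝ≥0∞), a * μ A ^ q = μ univ ^ q * (a * ((μ univ)⁻¹ • μ) A ^ q) :=
    fun A a => by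
      rw [mul_left_comm, ← ENNReal.mul_rpow_of_nonneg _ _ hq.le, Measure.smul_apply, smul_eq_mul,
        ← mul_assoc (μ univ), ENNReal.mul_inv_cancel (NeZero.ne _) (measure_ne_top _ _), one_mul]
  have hne : μ univ ^ q ≠ ∞ := ENNReal.rpow_ne_top_of_nonneg hq.le (measure_ne_top _ _)
  rw [lintegral_congr fun w => e _ _, lintegral_congr (g := fun w : V d => μ univ ^ q * _)
    fun w => e {ω | |⟪y ω, w⟫ + κ * c ω| ≤ r ω} _, lintegral_const_mul' _ _ hne,
    lintegral_const_mul' _ _ hne]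
  exact mul_le_mul_right (strip_prob _ hy hc hr h0 h1 hq hw hl) _

theorem cdPow_sigma (μ : Measure Ω) [SigmaFinite μ] {d : ℕ} {y : Ω → V d} {c r : Ω → ℝ}
    (hy : Measurable y) (hc : Measurable c) (hr : Measurable r) {κ : ℝ} (h0 : 0 ≤ κ) (h1 : κ ≤ 1)
    {q l : ℝ} (hq : 0 < q) (hw : (∃ m : ℕ, q = m) ∨ (d : ℝ) ≤ q) (hl : 0 < l) :
    ∫⁻ w : V d, ENNReal.ofReal (Real.exp (-(l * ‖w‖ ^ 2))) *
        μ {ω | |⟪y ω, w⟫ + c ω| ≤ r ω} ^ q ≤
      ∫⁻ w : V d, ENNReal.ofReal (Real.exp (-(l * ‖w‖ ^ 2))) *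
        μ {ω | |⟪y ω, w⟫ + κ * c ω| ≤ r ω} ^ q := by
  have hS := cdPow_ms hy hc hr
  have e : ∀ w : V d, ENNReal.ofReal (Real.exp (-(l * ‖w‖ ^ 2))) *
      μ {ω | |⟪y ω, w⟫ + c ω| ≤ r ω} ^ q = ⨆ n, ENNReal.ofReal (Real.exp (-(l * ‖w‖ ^ 2))) *
      μ.restrict (spanningSets μ n) {ω | |⟪y ω, w⟫ + c ω| ≤ r ω} ^ q := by
    intro w
    have hA : MeasurableSet {ω | |⟪y ω, w⟫ + c ω| ≤ r ω} :=
      hS.preimage (f := fun ω => (ω, w)) (by fun_prop)
    rw [← ENNReal.mul_iSup, ← Measure.iSup_restrict_spanningSets_of_measurableSet hA]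
    exact congrArg _ ((ENNReal.orderIsoRpow q hq).map_iSup _)
  simp_rw [e]
  rw [lintegral_iSup]
  · refine iSup_le fun n => ?_
    have : IsFiniteMeasure (μ.restrict (spanningSets μ n)) :=
      isFiniteMeasure_restrict.2 (measure_spanningSets_lt_top μ n).ne
    refine (cdPow_fin _ hy hc hr h0 h1 hq hw hl).trans (lintegral_mono fun w => ?_)
    exact mul_le_mul_right (ENNReal.rpow_le_rpow (Measure.restrict_le_self _) hq.le) _
  · exact fun n => Measurable.mul (by fun_prop) ((measurable_measure_prodMk_right hS).pow_const _)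
  · intro m n hmn w
    exact mul_le_mul_right (ENNReal.rpow_le_rpow
      (Measure.restrict_mono (monotone_spanningSets μ hmn) le_rfl _) hq.le) _

theorem cdPow_gamma {d : ℕ} {γ : ℝ} (hγ : γ < 0) (w : V d) :
    ENNReal.ofReal (Real.Gamma (-γ / 2)) * ENNReal.ofReal (jac w ^ γ) =
      ∫⁻ l in Ioi (0 : ℝ), ENNReal.ofReal (l ^ (-γ / 2 - 1) * Real.exp (-l)) *
        ENNReal.ofReal (Real.exp (-(l * ‖w‖ ^ 2))) := by
  have hb : 0 < -γ / 2 := by linarith
  have hr : (0 : ℝ) < 1 + ‖w‖ ^ 2 := by positivity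
  have hG := Real.Gamma_pos_of_pos hb
  have h1 := Real.integral_rpow_mul_exp_neg_mul_Ioi hb hr
  have h2 : (1 / (1 + ‖w‖ ^ 2)) ^ (-γ / 2) = jac w ^ γ := by
    rw [jac, Real.sqrt_eq_rpow, ← Real.rpow_mul hr.le, one_div, Real.inv_rpow hr.le,
      ← Real.rpow_neg hr.le]
    congr 1
    ring
  have h3 : 0 < jac w ^ γ := Real.rpow_pos_of_pos (jac_pos w) γ
  rw [← ENNReal.ofReal_mul hG.le, mul_comm, ← h2, ← h1, ofReal_integral_eq_lintegral_ofReal
    (Integrable.of_integral_ne_zero (by rw [h1, h2]; positivity))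
    ((ae_restrict_mem measurableSet_Ioi).mono fun l hl =>
      mul_nonneg (Real.rpow_nonneg (le_of_lt hl) _) (Real.exp_pos _).le)]
  refine setLIntegral_congr_fun measurableSet_Ioi fun l hl => ?_
  have hl' : 0 < l := hl
  rw [← ENNReal.ofReal_mul (by positivity), mul_assoc, ← Real.exp_add]
  congr 3
  ring

/-- Sketch: finite measures by scaling (`μ = 0` or `(μ univ)⁻¹ • μ`), sigma-finite ones as in
`Fam.rpow_le` of `TPois.lean`; the weight by
`Γ(β) * jac w ^ γ = ∫ l in Ioi 0, l ^ (β - 1) * exp (-(l * (1 + ‖w‖ ^ 2)))`, `β = -γ / 2`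
(`Real.integral_rpow_mul_exp_neg_mul_Ioi`) and Tonelli. -/
theorem strip_le (μ : Measure Ω) [SigmaFinite μ] {d : ℕ} {y : Ω → V d} {c r : Ω → ℝ}
    (hy : Measurable y) (hc : Measurable c) (hr : Measurable r) {κ : ℝ} (h0 : 0 ≤ κ) (h1 : κ ≤ 1)
    {q γ : ℝ} (hq : 0 < q) (hw : (∃ m : ℕ, q = m) ∨ (d : ℝ) ≤ q) (hγ : γ < 0) :
    ∫⁻ w : V d, ENNReal.ofReal (jac w ^ γ) * μ {ω | |⟪y ω, w⟫ + c ω| ≤ r ω} ^ q ≤
      ∫⁻ w : V d, ENNReal.ofReal (jac w ^ γ) * μ {ω | |⟪y ω, w⟫ + κ * c ω| ≤ r ω} ^ q := by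
  have hG := Real.Gamma_pos_of_pos (show 0 < -γ / 2 by linarith)
  have key : ∀ {c : Ω → ℝ}, Measurable c → ENNReal.ofReal (Real.Gamma (-γ / 2)) *
      ∫⁻ w : V d, ENNReal.ofReal (jac w ^ γ) * μ {ω | |⟪y ω, w⟫ + c ω| ≤ r ω} ^ q =
      ∫⁻ l in Ioi (0 : ℝ), ENNReal.ofReal (l ^ (-γ / 2 - 1) * Real.exp (-l)) *
        ∫⁻ w : V d, ENNReal.ofReal (Real.exp (-(l * ‖w‖ ^ 2))) *
          μ {ω | |⟪y ω, w⟫ + c ω| ≤ r ω} ^ q := by
    intro c hc
    have hg : Measurable fun w : V d => μ {ω | |⟪y ω, w⟫ + c ω| ≤ r ω} ^ q :=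
      (measurable_measure_prodMk_right (cdPow_ms hy hc hr)).pow_const _
    simp_rw [← lintegral_const_mul' _ _ ENNReal.ofReal_ne_top]
    have hm : Measurable fun p : ℝ × V d =>
        ENNReal.ofReal (p.1 ^ (-γ / 2 - 1) * Real.exp (-p.1)) *
          (ENNReal.ofReal (Real.exp (-(p.1 * ‖p.2‖ ^ 2))) *
            μ {ω | |⟪y ω, p.2⟫ + c ω| ≤ r ω} ^ q) :=
      Measurable.mul (by fun_prop) (Measurable.mul (by fun_prop) (hg.comp measurable_snd))
    rw [lintegral_lintegral_swap hm.aemeasurable]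
    refine lintegral_congr fun w => ?_
    rw [← mul_assoc, cdPow_gamma hγ w, ← lintegral_mul_const _ (by fun_prop)]
    simp only [mul_assoc]
  rw [← ENNReal.mul_le_mul_iff_right (ENNReal.ofReal_pos.2 hG).ne' ENNReal.ofReal_ne_top, key hc,
    key (hc.const_mul κ)]
  exact setLIntegral_mono' measurableSet_Ioi fun l hl =>
    mul_le_mul_right (cdPow_sigma μ hy hc hr h0 h1 hq hw hl) _

end Pool.Agent.Lib.MP_0a1ca9_gt.Cd
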