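import Pool.Agent.Lib.MP_0a1ca9_gt.CdChart
import Pool.Agent.Lib.MP_0a1ca9_gt.CdPow

/-! The first variation under spreading of components: the integral inequality. -/

open MeasureTheory Set Filter Topology
open scoped ENNReal RealInnerProductSpace

namespace Pool.Agent.Lib.MP_0a1ca9_gt.Cd

variable {k : ℕ}

theorem gauss_sup {d : ℕ} {f : V d → ℝ≥0∞} (hf : Measurable f) : ∫⁻ w, f w =
    ⨆ n : ℕ, ∫⁻ w, ENNReal.ofReal (Real.exp (-(1 / (n + 1 : ℝ) * ‖w‖ ^ 2))) * f w := by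
  have hm : ∀ w : V d, Monotone fun n : ℕ =>
      ENNReal.ofReal (Real.exp (-(1 / (n + 1 : ℝ) * ‖w‖ ^ 2))) := fun w m n hmn =>
    ENNReal.ofReal_le_ofReal (Real.exp_le_exp.2 (neg_le_neg (mul_le_mul_of_nonneg_right
      (Nat.one_div_le_one_div hmn) (by positivity))))
  rw [← lintegral_iSup (fun n => Measurable.fun_mul (by fun_prop) hf)
    fun m n hmn w => mul_le_mul_left (hm w hmn) _]
  refine lintegral_congr fun w => ?_
  have h1 : Tendsto (fun n : ℕ => ENNReal.ofReal (Real.exp (-(1 / (n + 1 : ℝ) * ‖w‖ ^ 2)))) atTop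
      (𝓝 (ENNReal.ofReal (Real.exp (-(0 * ‖w‖ ^ 2))))) :=
    ENNReal.tendsto_ofReal ((Real.continuous_exp.tendsto _).comp
      (tendsto_one_div_add_atTop_nhds_zero_nat.mul_const _).neg)
  rw [← ENNReal.iSup_mul, iSup_eq_of_tendsto (hm w) h1]
  simp

theorem strip_le' {Ω : Type*} [MeasurableSpace Ω] (μ : Measure Ω) [SigmaFinite μ] {a : Ω → V k}
    {c r : Ω → ℝ} (ha : Measurable a) (hc : Measurable c) (hr : Measurable r) {κ : ℝ} (h0 : 0 ≤ κ)
    (h1 : κ ≤ 1) {q γ : ℝ} (hq : 0 < q) (hw : (∃ m : ℕ, q = m) ∨ ((k + 1 : ℕ) : ℝ) ≤ q)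
    (hγ : γ ≤ 0) :
    ∫⁻ w : ℝ × V k, ENNReal.ofReal (nn (w.2, w.1) ^ γ) *
        μ {ω | |w.1 + ⟪a ω, w.2⟫ + c ω| ≤ r ω} ^ q ≤
      ∫⁻ w : ℝ × V k, ENNReal.ofReal (nn (w.2, w.1) ^ γ) *
        μ {ω | |w.1 + ⟪a ω, w.2⟫ + κ * c ω| ≤ r ω} ^ q := by
  have hy : Measurable fun ω => cns 1 (a ω) := by fun_prop
  have key : ∀ {c : Ω → ℝ} (_ : Measurable c), ∫⁻ w : V (k + 1), ENNReal.ofReal (jac w ^ γ) *
      μ {ω | |⟪cns 1 (a ω), w⟫ + c ω| ≤ r ω} ^ q = ∫⁻ w : ℝ × V k,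
      ENNReal.ofReal (nn (w.2, w.1) ^ γ) * μ {ω | |w.1 + ⟪a ω, w.2⟫ + c ω| ≤ r ω} ^ q := by
    intro c hc
    have hj := measurable_jac (d := k + 1)
    have hm : Measurable fun w : V (k + 1) => μ {ω | |⟪cns 1 (a ω), w⟫ + c ω| ≤ r ω} :=
      measurable_measure_prodMk_right
        (s := {p : Ω × V (k + 1) | |⟪cns 1 (a p.1), p.2⟫ + c p.1| ≤ r p.1})
        (measurableSet_le (by fun_prop) (by fun_prop))
    rw [← (mp_cns k).lintegral_comp ((hj.pow_const γ).ennreal_ofReal.fun_mul (hm.pow_const q)),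
      ← Measure.volume_eq_prod]
    simp only [jac_cns, inner_cns, one_mul]
  rw [← key hc, ← key (hc.const_mul κ)]
  rcases hγ.eq_or_lt with rfl | hγ
  · simp only [Real.rpow_zero, ENNReal.ofReal_one, one_mul]
    exact (gauss_sup ((measurable_measure_prodMk_right (cdPow_ms hy hc hr)).pow_const q)).trans_le
      ((iSup_mono fun n => cdPow_sigma μ hy hc hr h0 h1 hq hw (by positivity)).trans
      (gauss_sup ((measurable_measure_prodMk_right
        (cdPow_ms hy (hc.const_mul κ) hr)).pow_const q)).ge)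
  exact strip_le μ hy hc hr h0 h1 hq hw hγ

namespace Chart

variable {i m M c : ℝ} {U W : V k × ℝ → ℝ} (h : Chart i m M c U W)
include h

theorem pairing {Ω : Type*} [MeasurableSpace Ω] (μ : Measure Ω) [SFinite μ] {a : Ω → V k}
    {C r : Ω → ℝ}
    (ha : Measurable a) (hC : Measurable C) (hr : Measurable r) :
    ∫⁻ w : ℝ × V k, ENNReal.ofReal (nn (w.2, w.1) ^ (i - (k + 1))) * (μ {ω | |w.1 + ⟪a ω, w.2⟫ + C ω| ≤ r ω} *
      ENNReal.ofReal (c * W (w.2, w.1)) ^ i) =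
      ENNReal.ofReal (c ^ i * c) * ∫⁻ ω, ∫⁻ z in Icc (C ω - r ω) (C ω + r ω),
        ENNReal.ofReal (U (a ω, z)) ∂volume ∂μ := by
  have hc := h.c0
  have hH : Measurable (Hh i W) := h.symm.dec.cont.measurable
  have hS : MeasurableSet {p : Ω × ℝ × V k | |p.2.1 + ⟪a p.1, p.2.2⟫ + C p.1| ≤ r p.1} :=
    measurableSet_le (by fun_prop) (by fun_prop)
  let Φ : Ω × ℝ × V k → ℝ≥0∞ := {p : Ω × ℝ × V k | |p.2.1 + ⟪a p.1, p.2.2⟫ + C p.1| ≤ r p.1}.indicator
    fun p => ENNReal.ofReal (c ^ i) * ENNReal.ofReal (Hh i W (p.2.2, p.2.1))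
  have hΦ : Measurable Φ := Measurable.indicator (by fun_prop) hS
  have h1 : ∀ w : ℝ × V k, ENNReal.ofReal (nn (w.2, w.1) ^ (i - (k + 1))) *
      (μ {ω | |w.1 + ⟪a ω, w.2⟫ + C ω| ≤ r ω} * ENNReal.ofReal (c * W (w.2, w.1)) ^ i) =
      ∫⁻ ω, Φ (ω, w) ∂μ := by
    intro w
    have hV := h.symm.pos (w.2, w.1)
    have hw := nn_pos (w.2, w.1)
    have h2 : ∫⁻ ω, Φ (ω, w) ∂μ = ∫⁻ ω, {ω | |w.1 + ⟪a ω, w.2⟫ + C ω| ≤ r ω}.indicator
        (fun _ => ENNReal.ofReal (c ^ i) * ENNReal.ofReal (Hh i W (w.2, w.1))) ω ∂μ := rfl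
    rw [h2, lintegral_indicator_const (measurableSet_le (by fun_prop) hr), mul_left_comm, mul_comm,
      ENNReal.ofReal_rpow_of_pos (by positivity), ← ENNReal.ofReal_mul (by positivity),
      ← ENNReal.ofReal_mul (by positivity), Hh, Real.mul_rpow hc.le hV.le]
    congr 2
    ring
  simp_rw [h1]
  rw [lintegral_lintegral_swap (f := fun w ω => Φ (ω, w))
    (hΦ.comp measurable_swap).aemeasurable, ← lintegral_const_mul' _ _ ENNReal.ofReal_ne_top]
  refine lintegral_congr fun ω => ?_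
  have h3 : Measurable fun w => Φ (ω, w) := hΦ.comp measurable_prodMk_left
  rw [Measure.volume_eq_prod, lintegral_prod_symm _ h3.aemeasurable]
  have h4 : ∀ s, ∫⁻ x, Φ (ω, x, s) = ∫⁻ z, Φ (ω, -⟪s, a ω⟫ - z, s) := fun s =>
    (lintegral_sub_left_eq_self (fun x => Φ (ω, x, s)) _).symm
  simp_rw [h4]
  rw [lintegral_lintegral_swap (f := fun s z => Φ (ω, -⟪s, a ω⟫ - z, s))
    (h3.comp (by fun_prop)).aemeasurable, ← lintegral_const_mul' _ _ ENNReal.ofReal_ne_top,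
    ← lintegral_indicator measurableSet_Icc]
  refine lintegral_congr fun z => ?_
  have h5 : ∀ s, |-⟪s, a ω⟫ - z + ⟪a ω, s⟫ + C ω| ≤ r ω ↔ z ∈ Icc (C ω - r ω) (C ω + r ω) := by
    intro s
    rw [abs_le, mem_Icc, real_inner_comm s (a ω)]
    constructor <;> rintro ⟨k1, k2⟩ <;> constructor <;> linarith
  by_cases hz : z ∈ Icc (C ω - r ω) (C ω + r ω)
  · have h6 : ∀ s, Φ (ω, -⟪s, a ω⟫ - z, s) =
        ENNReal.ofReal (c ^ i) * ENNReal.ofReal (Hh i W (s, -z - ⟪s, a ω⟫)) := fun s => by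
      simp only [Φ]
      rw [indicator_of_mem (by exact (h5 s).2 hz)]
      congr 4
      ring
    simp_rw [h6]
    rw [indicator_of_mem hz, lintegral_const_mul' _ _ ENNReal.ofReal_ne_top, h.e2,
      ← ENNReal.ofReal_mul (by positivity), ← ENNReal.ofReal_mul (by positivity), mul_assoc]
  · rw [indicator_of_notMem hz]
    refine lintegral_eq_zero_of_ae_eq_zero (ae_of_all _ fun s => ?_)
    simp only [Φ, Pi.zero_apply]
    rw [indicator_of_notMem (by exact fun k => hz ((h5 s).1 k))]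

/-- The integral of `U` over the spread components. -/
noncomputable def _root_.Pool.Agent.Lib.MP_0a1ca9_gt.Cd.spr (H U : V k × ℝ → ℝ) (τ : ℝ)
    (ω : V k × ℝ × ℝ) : ℝ≥0∞ :=
  ∫⁻ z in Icc (al H ω + τ * ((al H ω + bt H ω) / 2)) (bt H ω + τ * ((al H ω + bt H ω) / 2)),
    ENNReal.ofReal (U (ω.1, z))

theorem spread_le {τ : ℝ} (hτ : 0 ≤ τ) :
    ∫⁻ ω, spr (Hh i U) U τ ω ∂cmu (Hh i U) ≤ ∫⁻ ω, spr (Hh i U) U 0 ω ∂cmu (Hh i U) ∧
      ∫⁻ ω, spr (Hh i U) U 0 ω ∂cmu (Hh i U) < ∞ := by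
  set H := Hh i U with hH
  have hd := h.dec
  have hal := hd.measurable_al
  have hbt := hd.measurable_bt
  have hc := h.c0
  have hi1 := h.i1
  have hcV := h.cV
  rw [← hH] at hd hal hbt
  let g : ℝ → ℝ × V k → ℝ≥0∞ := fun τ w => cmu H {ω | |w.1 + ⟪ω.1, w.2⟫ +
    (1 + τ) * ((al H ω + bt H ω) / 2)| ≤ (bt H ω - al H ω) / 2}
  have hg : ∀ τ, Measurable (g τ) := fun τ =>
    measurable_measure_prodMk_right (s := {p : (V k × ℝ × ℝ) × ℝ × V k | |p.2.1 + ⟪p.1.1, p.2.2⟫ +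
      (1 + τ) * ((al H p.1 + bt H p.1) / 2)| ≤ (bt H p.1 - al H p.1) / 2})
      (measurableSet_le (by fun_prop) (by fun_prop))
  have h0 : ∀ w, g 0 w = ENNReal.ofReal (c * W (w.2, w.1)) := by
    intro w
    rw [← h.e1, ← hd.cmu_meet (y := fun a => -w.1 - ⟪a, w.2⟫) (by fun_prop)]
    simp only [g]
    congr 1
    ext ω
    simp only [mem_ofPred_eq, abs_le]
    constructor <;> rintro ⟨k1, k2⟩ <;> constructor <;> linarith
  have hp : ∀ τ, ∫⁻ w, ENNReal.ofReal (nn (w.2, w.1) ^ (i - (k + 1))) * (g τ w * g 0 w ^ i) =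
      ENNReal.ofReal (c ^ i * c) * ∫⁻ ω, spr H U τ ω ∂cmu H := by
    intro τ
    simp_rw [h0]
    rw [h.pairing (cmu H) measurable_fst (by fun_prop) (by fun_prop)]
    congr 1
    refine lintegral_congr fun ω => ?_
    rw [spr]
    congr 3 <;> ring
  have hq : ∀ w, g 0 w * g 0 w ^ i = g 0 w ^ (i + 1) := fun w => by
    rw [ENNReal.rpow_add_of_nonneg _ _ (by linarith) zero_le_one, ENNReal.rpow_one, mul_comm]
  have hψ : Measurable fun w : ℝ × V k => ENNReal.ofReal (nn (w.2, w.1) ^ (i - (k + 1))) := by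
    fun_prop
  have hs : ∫⁻ w, ENNReal.ofReal (nn (w.2, w.1) ^ (i - (k + 1))) * g τ w ^ (i + 1) ≤
      ∫⁻ w, ENNReal.ofReal (nn (w.2, w.1) ^ (i - (k + 1))) * g 0 w ^ (i + 1) := by
    refine (strip_le' (cmu H) measurable_fst (by fun_prop) (by fun_prop) (κ := (1 + τ)⁻¹)
      (by positivity) (inv_le_one_of_one_le₀ (by linarith)) (by linarith)
      (h.iw.imp (fun ⟨j, hj⟩ => ⟨j + 1, by rw [hj]; push_cast; rfl⟩) fun hj => by
        push_cast; linarith)
      (by linarith [h.i2])).trans (le_of_eq (lintegral_congr fun w => ?_))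
    simp only [g]
    rw [add_zero]
    simp_rw [inv_mul_cancel_left₀ (show (1 + τ) ≠ 0 by positivity), one_mul]
  have hne : ENNReal.ofReal (c ^ i * c) ≠ 0 := (ENNReal.ofReal_pos.2 (by positivity)).ne'
  constructor
  · rw [← ENNReal.mul_le_mul_iff_right hne ENNReal.ofReal_ne_top, ← hp, ← hp]
    simp_rw [hq]
    have hpq : (i + 1).HolderConjugate ((i + 1) / i) := by
      rw [Real.holderConjugate_iff]
      exact ⟨by linarith, by field_simp; ring⟩
    have h5 := ENNReal.lintegral_mul_le_Lp_mul_Lq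
      (volume.withDensity fun w : ℝ × V k => ENNReal.ofReal (nn (w.2, w.1) ^ (i - (k + 1)))) hpq (hg τ).aemeasurable
      ((hg 0).pow_const i).aemeasurable
    rw [lintegral_withDensity_eq_lintegral_mul _ hψ ((hg τ).mul ((hg 0).pow_const i)),
      lintegral_withDensity_eq_lintegral_mul _ hψ ((hg τ).pow_const _),
      lintegral_withDensity_eq_lintegral_mul _ hψ (((hg 0).pow_const i).pow_const _)] at h5
    simp only [Pi.mul_apply, ← ENNReal.rpow_mul] at h5
    rw [mul_div_cancel₀ _ (by linarith : i ≠ 0)] at h5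
    refine h5.trans ((mul_le_mul_left (ENNReal.rpow_le_rpow hs (by positivity)) _).trans
      (le_of_eq ?_))
    rw [← ENNReal.rpow_add_of_nonneg _ _ (by positivity) (by positivity),
      show 1 / (i + 1) + 1 / ((i + 1) / i) = 1 by field_simp; ring, ENNReal.rpow_one]
  · refine ENNReal.lt_top_of_mul_ne_top_right (ne_of_lt ?_) hne
    rw [← hp]
    have hM := h.M0
    refine lt_of_le_of_lt (lintegral_mono (g := fun w => ENNReal.ofReal ((c * M) ^ (i + 1)) *
      ENNReal.ofReal (nn (w.2, w.1) ^ (k + 2))⁻¹) fun w => ?_) ?_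
    · have hV := h.symm.pos (w.2, w.1)
      have hw := nn_pos (w.2, w.1)
      have h6 : c * W (w.2, w.1) ≤ c * M / nn (w.2, w.1) := by
        rw [mul_div_assoc]
        refine mul_le_mul_of_nonneg_left ((le_div_iff₀ hw).2 ?_) hc.le
        exact h.hiV (w.2, w.1)
      simp only []
      rw [hq, h0, ENNReal.ofReal_rpow_of_pos (by positivity), ← ENNReal.ofReal_mul (by positivity),
        ← ENNReal.ofReal_mul (by positivity)]
      refine ENNReal.ofReal_le_ofReal ((mul_le_mul_of_nonneg_left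
        (Real.rpow_le_rpow (by positivity) h6 (by linarith)) (by positivity)).trans (le_of_eq ?_))
      rw [Real.div_rpow (by positivity) hw.le, mul_div_left_comm, ← Real.rpow_sub hw,
        ← Real.rpow_natCast, ← Real.rpow_neg hw.le]
      congr 2
      push_cast
      ring
    · rw [lintegral_const_mul' _ _ ENNReal.ofReal_ne_top]
      refine ENNReal.mul_lt_top ENNReal.ofReal_lt_top ?_
      have h7 := lintegral_prod_swap (μ := (volume : Measure (V k))) (ν := (volume : Measure ℝ))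
        fun p => ENNReal.ofReal (nn p ^ (k + 2))⁻¹
      exact h7.trans_lt lintegral_nn_lt_top

end Chart

end Pool.Agent.Lib.MP_0a1ca9_gt.Cd
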