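import Mathlib

/-! Star bodies and intersection bodies of order `i`. -/

open MeasureTheory Metric

namespace Pool.Agent.Lib.MP_0a1ca9_gt

variable {E : Type*} [NormedAddCommGroup E] [InnerProductSpace ℝ E]

/-- The radial function of `L` in direction `u`. -/
noncomputable def radial (L : Set E) (u : E) : ℝ := sSup {c : ℝ | 0 ≤ c ∧ c • u ∈ L}

/-- Star bodies: compact, star-shaped with respect to the origin, continuous radial function. -/
def IsStarBody (L : Set E) : Prop :=
  IsCompact L ∧ (0 : E) ∈ L ∧ StarConvex ℝ 0 L ∧ ContinuousOn (radial L) (sphere 0 1)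

/-- `B` is a translate of a positive dilate of `A`. -/
def Homothetic (A B : Set E) : Prop :=
  ∃ (x : E) (r : ℝ), 0 < r ∧ B = (fun a => x + r • a) '' A

variable [FiniteDimensional ℝ E] [MeasurableSpace E] [BorelSpace E]

/-- The radial function of the intersection body of order `i`. -/
noncomputable def interRadial (i : ℝ) (L : Set E) (u : E) : ℝ :=
  1 / ((Module.finrank ℝ E : ℝ) - 1) *
    ∫ v : sphere (0 : (ℝ ∙ u)ᗮ) 1, radial L ((v : (ℝ ∙ u)ᗮ) : E) ^ i
      ∂(volume : Measure (ℝ ∙ u)ᗮ).toSphere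

/-- The intersection body of order `i`. -/
def interBody (i : ℝ) (L : Set E) : Set E :=
  {x | ∃ (u : E) (c : ℝ), ‖u‖ = 1 ∧ 0 ≤ c ∧ c ≤ interRadial i L u ∧ x = c • u}

end Pool.Agent.Lib.MP_0a1ca9_gt
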