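import Pool.Agent.Lib.MP_0a1ca9_gt.Graph

/-! Concatenation of vectors and change of the cross section. -/

open MeasureTheory Set
open scoped ENNReal RealInnerProductSpace

namespace Pool.Agent.Lib.MP_0a1ca9_gt.Gp

/-- Concatenation as a linear map. -/
noncomputable def gpApp_cat (D D' : ℕ) : V D × V D' →ₗ[ℝ] V (D + D') where
  toFun p := WithLp.toLp 2 (Fin.append p.1.ofLp p.2.ofLp)
  map_add' p q := by
    ext k
    refine Fin.addCases (fun k => ?_) (fun k => ?_) k <;> simp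
  map_smul' c p := by
    ext k
    refine Fin.addCases (fun k => ?_) (fun k => ?_) k <;> simp

theorem gpApp_inner {D D' : ℕ} (p q : V D × V D') :
    ⟪gpApp_cat D D' p, gpApp_cat D D' q⟫ = ⟪p.1, q.1⟫ + ⟪p.2, q.2⟫ := by
  simp [gpApp_cat, PiLp.inner_apply, Fin.sum_univ_add]

theorem gpApp_mp (D D' : ℕ) : MeasurePreserving (gpApp_cat D D') (volume.prod volume) volume := by
  have h1 := volume_measurePreserving_piCongrLeft (fun _ : Fin (D + D') => ℝ) finSumFinEquiv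
  have h2 := volume_measurePreserving_sumPiEquivProdPi_symm fun _ : Fin D ⊕ Fin D' => ℝ
  have h3 := (PiLp.volume_preserving_ofLp (Fin D)).prod (PiLp.volume_preserving_ofLp (Fin D'))
  have h4 := (PiLp.volume_preserving_toLp (Fin (D + D'))).comp (h1.comp (h2.comp h3))
  suffices e : (gpApp_cat D D' : V D × V D' → V (D + D')) = _ by
    rw [e]
    exact h4
  ext p k
  refine Fin.addCases (fun k => ?_) (fun k => ?_) k
  · have := MeasurableEquiv.piCongrLeft_apply_apply (β := fun _ => ℝ) finSumFinEquiv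
      ((MeasurableEquiv.sumPiEquivProdPi fun _ : Fin D ⊕ Fin D' => ℝ).symm
        (p.1.ofLp, p.2.ofLp)) (Sum.inl k)
    exact (Fin.append_left _ _ k).trans this.symm
  · have := MeasurableEquiv.piCongrLeft_apply_apply (β := fun _ => ℝ) finSumFinEquiv
      ((MeasurableEquiv.sumPiEquivProdPi fun _ : Fin D ⊕ Fin D' => ℝ).symm
        (p.1.ofLp, p.2.ofLp)) (Sum.inr k)
    exact (Fin.append_right _ _ k).trans this.symm

theorem exists_ap {D D' k : ℕ} (hk : k = D + D') :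
    ∃ (A : V D →ₗᵢ[ℝ] V k) (B : V D' →ₗᵢ[ℝ] V k), (∀ a b, ⟪A a, B b⟫ = 0) ∧
      MeasurePreserving (fun p : V D × V D' => A p.1 + B p.2) (volume.prod volume) volume := by
  subst hk
  refine ⟨((gpApp_cat D D').comp (LinearMap.inl ℝ _ _)).isometryOfInner fun a b => ?_,
    ((gpApp_cat D D').comp (LinearMap.inr ℝ _ _)).isometryOfInner fun a b => ?_,
    fun a b => ?_, ?_⟩
  · simp [gpApp_inner]
  · simp [gpApp_inner]
  · simp [gpApp_inner]
  · convert gpApp_mp D D' using 1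
    funext p
    simp [← map_add]

theorem lintegral_cross {F : Type*} [NormedAddCommGroup F] [NormedSpace ℝ F] [MeasurableSpace F]
    [BorelSpace F] [FiniteDimensional ℝ F] (μ : Measure F) [μ.IsAddHaarMeasure]
    {Ψ : ℝ × F × ℝ → ℝ≥0∞} (hΨ : Measurable Ψ) (hom : ∀ r : ℝ, r ≠ 0 → ∀ x t u,
      ENNReal.ofReal (|r| ^ (Module.finrank ℝ F + 2)) * Ψ (r * x, r • t, r * u) = Ψ (x, t, u)) :
    ∫⁻ x, ∫⁻ t, Ψ (x, t, 1) ∂μ = ∫⁻ u, ∫⁻ t, Ψ (1, t, u) ∂μ := by
  have h0 : ∀ᵐ x : ℝ, x ∈ ({0}ᶜ : Set ℝ) := compl_mem_ae_iff.2 (measure_singleton _)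
  have h1 := lintegral_image_eq_lintegral_abs_deriv_mul (s := ({0}ᶜ : Set ℝ))
    (f := fun x => x⁻¹) (f' := fun x => -(x ^ 2)⁻¹) (measurableSet_singleton _).compl
    (fun x hx => (hasDerivAt_inv hx).hasDerivWithinAt) inv_injective.injOn
    fun u => ∫⁻ t, Ψ (1, t, u) ∂μ
  have h2 : (fun x : ℝ => x⁻¹) '' {0}ᶜ = {0}ᶜ := by
    ext x
    exact ⟨by rintro ⟨y, hy, rfl⟩; exact inv_ne_zero hy, fun hx => ⟨x⁻¹, inv_ne_zero hx, inv_inv x⟩⟩
  rw [h2, Measure.restrict_eq_self_of_ae_mem h0] at h1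
  rw [h1]
  refine lintegral_congr_ae ?_
  filter_upwards [h0] with x hx
  have hx' : x ≠ 0 := hx
  have hp : 0 < |x| := abs_pos.2 hx'
  rw [lintegral_scale μ (f := fun t => Ψ (x, t, 1)) (hΨ.comp (by fun_prop)) hx',
    ← lintegral_const_mul' _ _ ENNReal.ofReal_ne_top,
    ← lintegral_const_mul' _ _ ENNReal.ofReal_ne_top]
  refine lintegral_congr fun t => ?_
  rw [← hom x hx' 1 t x⁻¹, mul_one, mul_inv_cancel₀ hx', ← mul_assoc,
    ← ENNReal.ofReal_mul (abs_nonneg _), abs_neg, abs_inv, abs_pow]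
  congr 2
  field_simp
  ring

end Pool.Agent.Lib.MP_0a1ca9_gt.Gp
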