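import Pool.Agent.Lib.MP_0a1ca9_gt.GpDef

/-! Approximation of admissible functions by polynomials with nonnegative derivatives. -/

open Set Polynomial

namespace Pool.Agent.Lib.MP_0a1ca9_gt.Gp

open Cd

/-- The Bernstein polynomial with given coefficients. -/
noncomputable def gpBern_bp (N : ℕ) (F : ℕ → ℝ) : ℝ[X] :=
  ∑ k ∈ Finset.range (N + 1), C (F k) * bernsteinPolynomial ℝ N k

theorem gpBern_deriv (N : ℕ) (F : ℕ → ℝ) : derivative (gpBern_bp (N + 1) F) =
    C ((N : ℝ) + 1) * gpBern_bp N fun k => F (k + 1) - F k := by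
  have e : ∑ k ∈ Finset.range (N + 1), C (F k) * bernsteinPolynomial ℝ N k =
      ∑ k ∈ Finset.range (N + 1), C (F (k + 1)) * bernsteinPolynomial ℝ N (k + 1) +
        C (F 0) * bernsteinPolynomial ℝ N 0 := by
    rw [Finset.sum_range_succ', Finset.sum_range_succ _ N,
      bernsteinPolynomial.eq_zero_of_lt ℝ (Nat.lt_succ_self N), mul_zero, add_zero]
  rw [gpBern_bp, gpBern_bp, Finset.sum_range_succ', derivative_add, derivative_sum]
  simp only [derivative_C_mul, bernsteinPolynomial.derivative_succ_aux,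
    bernsteinPolynomial.derivative_zero, map_sub, sub_mul, Finset.sum_sub_distrib, e,
    mul_left_comm (C _) ((N : ℝ[X]) + 1), mul_sub, ← Finset.mul_sum, map_add, map_natCast, map_one,
    Nat.cast_succ, Nat.add_sub_cancel]
  ring

theorem gpBern_nonneg (p : ℕ) : ∀ (N : ℕ) (F : ℕ → ℝ), Mon p F → ∀ x ∈ Icc (0 : ℝ) 1,
    0 ≤ (derivative^[p] (gpBern_bp N F)).eval x := by
  induction p with
  | zero =>
    intro N F h x hx
    rw [Function.iterate_zero_apply, gpBern_bp, eval_finsetSum]
    refine Finset.sum_nonneg fun k _ => ?_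
    rw [eval_mul, eval_C]
    exact mul_nonneg (h k) (bernstein_nonneg (n := N) (ν := k) (x := ⟨x, hx⟩))
  | succ p ih =>
    intro N F h x hx
    rw [Function.iterate_succ_apply]
    rcases N with _ | N
    · simp [gpBern_bp, bernsteinPolynomial]
    · rw [gpBern_deriv, iterate_derivative_C_mul, eval_mul, eval_C]
      exact mul_nonneg (by positivity) (ih N _ h x hx)

theorem gpBern_comp (a x : ℝ) (p : ℕ) : ∀ Q : ℝ[X], (derivative^[p] (Q.comp (C a * X))).eval x =
    a ^ p * (derivative^[p] Q).eval (a * x) := by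
  induction p with
  | zero => simp
  | succ p ih =>
    intro Q
    rw [Function.iterate_succ_apply, Function.iterate_succ_apply, derivative_comp, derivative_C_mul_X,
      iterate_derivative_C_mul, eval_mul, eval_C, ih, pow_succ', mul_assoc]

theorem gpBern_tangent {i x y : ℝ} (hi : 0 ≤ i) (hx : 0 ≤ x) (hy : 0 ≤ y) :
    y ^ (i + 1) - x ^ (i + 1) ≤ (i + 1) * y ^ i * (y - x) := by
  rcases hy.eq_or_lt with rfl | hy
  · rcases hi.eq_or_lt with rfl | hi
    · simp
    · rw [Real.zero_rpow hi.ne', Real.zero_rpow (by positivity), mul_zero, zero_mul, zero_sub]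
      exact neg_nonpos.2 (Real.rpow_nonneg hx _)
  · have h := one_add_mul_self_le_rpow_one_add (s := x / y - 1)
      (by have := div_nonneg hx hy.le; linarith) (p := i + 1) (by linarith)
    rw [add_sub_cancel, Real.div_rpow hx hy.le, le_div_iff₀ (by positivity),
      Real.rpow_add_one hy.ne'] at h
    rw [Real.rpow_add_one hy.ne']
    have e : (1 + (i + 1) * (x / y - 1)) * (y ^ i * y) =
        y ^ i * y - (i + 1) * y ^ i * (y - x) := by
      field_simp
      ring
    linarith

theorem exists_poly {d : ℕ} {G : ℝ → ℝ} (hG : Adm d G) {M : ℝ} (hM : 0 < M) {ε : ℝ} (hε : 0 < ε) :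
    ∃ P : ℝ[X], (∀ p, 1 ≤ p → p ≤ d + 1 → ∀ x ∈ Icc 0 M, 0 ≤ (derivative^[p] P).eval x) ∧
      ∀ x ∈ Icc 0 M, |P.eval x - G x| ≤ ε := by
  let f : C(unitInterval, ℝ) := ⟨fun x => G (x * M), hG.1.comp_continuous (by fun_prop)
    fun x => mul_nonneg x.2.1 hM.le⟩
  obtain ⟨N, hN⟩ := (Metric.tendsto_nhds.1 (bernsteinApproximation_uniform f) ε hε).exists
  have hm : ∀ x ∈ Icc 0 M, M⁻¹ * x ∈ Icc (0 : ℝ) 1 := fun x hx =>
    ⟨mul_nonneg (by positivity) hx.1, by rw [inv_mul_le_iff₀ hM, mul_one]; exact hx.2⟩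
  refine ⟨(gpBern_bp N fun k => G (k * (M / N))).comp (C M⁻¹ * X), fun p h1 h2 x hx => ?_,
    fun x hx => ?_⟩
  · rw [gpBern_comp]
    exact mul_nonneg (by positivity)
      (gpBern_nonneg p N _ (hG.2 _ (by positivity) p h1 h2) _ (hm x hx))
  · have h := (ContinuousMap.dist_apply_le_dist (⟨_, hm x hx⟩ : unitInterval)).trans hN.le
    rw [Real.dist_eq, bernsteinApproximation.apply] at h
    refine le_of_eq_of_le (congrArg _ (congrArg₂ _ ?_ ?_)) h
    · rw [eval_comp, gpBern_bp, eval_finsetSum, Finset.sum_range]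
      refine Finset.sum_congr rfl fun k _ => ?_
      rw [eval_mul, eval_C, eval_mul, eval_C, eval_X, smul_eq_mul, mul_comm]
      congr 1
      change G _ = G (k / N * M)
      congr 1
      ring
    · change G _ = G (M⁻¹ * x * M)
      congr 1
      field_simp

theorem adm_rpow {d : ℕ} {w i : ℝ} (hw : 0 ≤ w) (hi : 0 < i) (hd : (d : ℝ) ≤ i + 1) :
    Adm d fun x => (w + x) ^ (i + 1) - (i + 1) * w ^ i * x := by
  refine ⟨(((Real.continuous_rpow_const (by positivity)).comp (by fun_prop)).sub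
    (by fun_prop)).continuousOn, fun h hh p h1 h2 => ?_⟩
  obtain _ | _ | p := p
  · omega
  · intro k
    have h3 := gpBern_tangent hi.le (x := w + (k + 1 : ℕ) * h) (y := w + k * h) (by positivity)
      (by positivity)
    have h4 : w ^ i ≤ (w + k * h) ^ i :=
      Real.rpow_le_rpow hw (le_add_of_nonneg_right (by positivity)) hi.le
    have h5 : 0 ≤ (i + 1) * h * ((w + k * h) ^ i - w ^ i) :=
      mul_nonneg (by positivity) (sub_nonneg.2 h4)
    push_cast at h3 ⊢
    nlinarith
  · have h3 : ((p + 1 + 1 : ℕ) : ℝ) ≤ d + 1 := by exact_mod_cast h2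
    have := cdPow_rpow hh (p + 1 + 1) (i + 1) (by positivity) (Or.inr (by linarith)) w hw
    change Mon p _ at this ⊢
    convert this using 2 with k
    push_cast
    ring

theorem rpow_tangent {i x y : ℝ} (hi : 0 ≤ i) (hx : 0 ≤ x) (hy : 0 ≤ y) :
    y ^ (i + 1) - x ^ (i + 1) ≤ (i + 1) * y ^ i * (y - x) := by
  exact gpBern_tangent hi hx hy

end Pool.Agent.Lib.MP_0a1ca9_gt.Gp
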