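import Pool.Agent.Lib.MP_0a1ca9_gt.GpMarg

/-! Consequences of the equation in dual charts. -/

open MeasureTheory Set Metric Function
open scoped ENNReal RealInnerProductSpace

namespace Pool.Agent.Lib.MP_0a1ca9_gt.Gp

variable {D D' : ℕ} {i γ c m M : ℝ} {W : V D' → V (D + 1) → ℝ} {U : V D → V (D' + 1) → ℝ}
  (h : Ch i γ c m M W U)
include h

theorem gpChart_cont :
    Continuous (uncurry fun (b : V D') (z : V (D + 1)) => HH i γ (1 + ‖b‖ ^ 2) (W b) z) := by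
  refine (h.cW.rpow_const fun p => Or.inl ((h.sW p.1).pos p.2).ne').mul
    (Continuous.rpow_const (f := fun p : V D' × V (D + 1) => 1 + ‖p.1‖ ^ 2 + ‖p.2‖ ^ 2)
      (by fun_prop) fun p => Or.inl ?_)
  positivity

theorem gpChart_ofReal (σ : ℝ) (a : V D) (b : V D') (s : ℝ) :
    ENNReal.ofReal (PP σ i γ U a b s) =
      ∫⁻ w, ENNReal.ofReal (HH i γ (1 + ‖a‖ ^ 2) (U a) (cns (σ * s - ⟪b, w⟫) w)) :=
  ofReal_integral_eq_lintegral_ofReal ((h.sU a).tm.slice σ b s)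
    (Filter.Eventually.of_forall fun _ => ((h.sU a).HH_pos _).le)

theorem gpChart_M : 0 < M := ((h.sU 0).pos 0).trans_le ((h.sU 0).le 0)

theorem Ch.continuous_PP (σ : ℝ) :
    Continuous fun p : V D × V D' × ℝ => PP σ i γ U p.1 p.2.1 p.2.2 := by
  exact continuous_mg (gpChart_cont h.symm) (fun a => (h.sU a).tm) σ

theorem Ch.PP_nonneg (σ : ℝ) (a : V D) (b : V D') (s : ℝ) : 0 ≤ PP σ i γ U a b s := by
  exact integral_nonneg fun _ => ((h.sU a).HH_pos _).le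

theorem Ch.PP_le : ∃ C, 0 ≤ C ∧ ∀ σ : ℝ, σ ^ 2 = 1 → ∀ a b s,
    PP σ i γ U a b s ≤ C * jac b / √(1 + s ^ 2) := by
  obtain ⟨J, h0, hJ⟩ := exists_mg_le D'
  have hM := gpChart_M h
  exact ⟨M ^ i * J, by positivity, fun σ hσ a b s =>
    (le_abs_self _).trans (hJ σ _ _ hσ (h.sU a).tm b s)⟩

theorem Ch.le_PP (R : ℝ) : ∃ κ > 0, ∀ σ : ℝ, σ ^ 2 = 1 → ∀ a b s, ‖a‖ ≤ R → ‖b‖ ≤ 1 →
    κ * (1 + s ^ 2) ^ (-(i + γ) / 2) ≤ PP σ i γ U a b s := by
  have hm := (h.sU 0).m0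
  have hi := (h.sU 0).i0
  have hg := (h.sU 0).g0
  have hv : 0 < volume.real (closedBall (0 : V D') 1) :=
    ENNReal.toReal_pos (measure_closedBall_pos _ _ one_pos).ne' measure_closedBall_lt_top.ne
  refine ⟨m ^ i * (4 + R ^ 2) ^ (-(i + γ) / 2) * volume.real (closedBall (0 : V D') 1),
    by positivity, fun σ hσ a b s ha hb => ?_⟩
  have hI := (h.sU a).tm.slice σ b s
  refine le_trans ?_ (setIntegral_le_integral (s := closedBall 0 1) hI
    (Filter.Eventually.of_forall fun _ => ((h.sU a).HH_pos _).le))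
  refine le_trans (le_of_eq ?_) (setIntegral_ge_of_const_le_real
    (c := m ^ i * ((4 + R ^ 2) * (1 + s ^ 2)) ^ (-(i + γ) / 2)) measurableSet_closedBall
    measure_closedBall_lt_top.ne (fun w hw => ?_) hI.integrableOn)
  · rw [Real.mul_rpow (by positivity) (by positivity)]
    ring
  · refine le_trans ?_ ((h.sU a).HH_mem _).1
    have h1 : ‖w‖ ≤ 1 := mem_closedBall_zero_iff.1 hw
    have h2 : |⟪b, w⟫| ≤ 1 :=
      (abs_real_inner_le_norm b w).trans (mul_le_one₀ hb (norm_nonneg _) h1)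
    have h3 : ⟪b, w⟫ ^ 2 ≤ 1 := (sq_le_one_iff_abs_le_one _).2 h2
    have h4 : ‖a‖ ^ 2 ≤ R ^ 2 := pow_le_pow_left₀ (norm_nonneg _) ha 2
    have h5 : ‖w‖ ^ 2 ≤ 1 := pow_le_one₀ (norm_nonneg _) h1
    have h6 : (σ * s) ^ 2 = s ^ 2 := by rw [mul_pow, hσ, one_mul]
    refine mul_le_mul_of_nonneg_left (Real.rpow_le_rpow_of_nonpos (by positivity) ?_
      (by linarith)) (by positivity)
    rw [norm_cns_sq]
    nlinarith [sq_nonneg (σ * s + ⟪b, w⟫), sq_nonneg s, mul_nonneg (sq_nonneg R) (sq_nonneg s)]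

theorem Ch.fib {σ σ' : ℝ} (hσ : σ ^ 2 = 1) (hσ' : σ' = -σ) (b : V D') :
    Fib σ i γ c (1 + ‖b‖ ^ 2) m M (W b) fun a s => PP σ' i γ U a b s := by
  refine ⟨h.sW b, hσ, h.c0, (h.continuous_PP σ').comp
    (f := fun p : V D × ℝ => (p.1, b, p.2)) (by fun_prop), fun a s => h.PP_nonneg _ _ _ _,
    fun R => ?_, fun z => ?_⟩
  · obtain ⟨C, h0, hC⟩ := h.PP_le
    refine ⟨C * jac b, fun a _ s => (hC σ' (by rw [hσ', neg_sq, hσ]) a b s).trans ?_⟩
    exact div_le_self (mul_nonneg h0 (jac_pos b).le)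
      (Real.one_le_sqrt.2 (le_add_of_nonneg_right (sq_nonneg s)))
  · obtain ⟨x, z, rfl⟩ := exists_cns z
    rw [← h.e1 b x z]
    refine lintegral_congr fun a => ?_
    have e : σ' * (σ * (x + ⟪a, z⟫)) = -(x + ⟪a, z⟫) := by
      rw [hσ']
      linear_combination (-(x + ⟪a, z⟫)) * hσ
    rw [gpChart_ofReal h, inner_yy, e]

theorem Ch.pairing {σ σ' : ℝ} (hσ : σ ^ 2 = 1) (hσ' : σ' = -σ) (b : V D') :
    ∫⁻ a, ∫⁻ s, ENNReal.ofReal (PP σ' i γ U a b s * PP σ i γ W b a s) =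
      ENNReal.ofReal c * II i γ (1 + ‖b‖ ^ 2) (W b) := by
  have hF := h.fib hσ hσ' b
  have m1 : Measurable fun z => ENNReal.ofReal (HH i γ (1 + ‖b‖ ^ 2) (W b) z) :=
    (h.sW b).tm.1.measurable.ennreal_ofReal
  have m2 : Measurable fun p : V D × V (D + 1) =>
      ENNReal.ofReal (PP σ' i γ U p.1 b ⟪yy σ p.1, p.2⟫) :=
    (hF.cf.comp (continuous_fst.prodMk (((continuous_yy σ).comp continuous_fst).inner
      continuous_snd))).measurable.ennreal_ofReal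
  have e : ∀ a, ∫⁻ s, ENNReal.ofReal (PP σ' i γ U a b s * PP σ i γ W b a s) =
      ∫⁻ z, ENNReal.ofReal (HH i γ (1 + ‖b‖ ^ 2) (W b) z) *
        ENNReal.ofReal (PP σ' i γ U a b ⟪yy σ a, z⟫) := fun a => by
    rw [← lintegral_mg hσ m1 (ψ := fun s => ENNReal.ofReal (PP σ' i γ U a b s))
      (hF.cf.comp (continuous_const.prodMk continuous_id)).measurable.ennreal_ofReal a]
    refine lintegral_congr fun s => ?_
    rw [ENNReal.ofReal_mul (h.PP_nonneg _ _ _ _), gpChart_ofReal h.symm σ]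
  simp only [e]
  rw [lintegral_lintegral_swap ((m1.comp measurable_snd).mul m2).aemeasurable, II,
    ← lintegral_const_mul' _ _ ENNReal.ofReal_ne_top]
  refine lintegral_congr fun z => ?_
  rw [lintegral_const_mul' _ _ ENNReal.ofReal_ne_top, hF.eq z,
    ← ENNReal.ofReal_mul ((h.sW b).HH_pos z).le, ← ENNReal.ofReal_mul h.c0.le]
  congr 1
  ring

theorem gpChart_meas : Measurable fun p : V D' × V (D + 1) =>
    W p.1 p.2 * HH i γ (1 + ‖p.1‖ ^ 2) (W p.1) p.2 :=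
  (h.cW.mul (gpChart_cont h)).measurable

theorem Ch.measurable_II : Measurable fun b => II i γ (1 + ‖b‖ ^ 2) (W b) := by
  exact (gpChart_meas h).ennreal_ofReal.lintegral_prod_right'

theorem Ch.measurable_CC : Measurable fun b => CC i γ (1 + ‖b‖ ^ 2) (W b) := by
  have h1 : Measurable fun p : V D' × V (D + 1) => ‖p.2‖ ^ 2 / (1 + ‖p.1‖ ^ 2 + ‖p.2‖ ^ 2) := by
    fun_prop
  exact ((gpChart_meas h).mul h1).ennreal_ofReal.lintegral_prod_right'

theorem Ch.II_lt_top : ∫⁻ b, II i γ (1 + ‖b‖ ^ 2) (W b) < ∞ := by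
  have hM := gpChart_M h
  have : ((volume : Measure (V D')).prod (volume : Measure (V (D + 1)))).IsAddHaarMeasure :=
    Measure.prod.instIsAddHaarMeasure _ _
  have h1 := (integrable_rpow_neg_one_add_norm_sq
    (μ := (volume : Measure (V D')).prod (volume : Measure (V (D + 1)))) (r := i + γ + 1)
    (by rw [h.ig]; simp; linarith)).const_mul (M * M ^ i)
  have h2 := lintegral_prod (μ := (volume : Measure (V D'))) (ν := (volume : Measure (V (D + 1))))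
    _ (gpChart_meas h).ennreal_ofReal.aemeasurable
  refine lt_of_eq_of_lt h2.symm (lt_of_le_of_lt (lintegral_mono fun p => ?_) h1.2)
  rw [Real.enorm_eq_ofReal (by positivity)]
  refine ENNReal.ofReal_le_ofReal ?_
  have hS := h.sW p.1
  obtain ⟨t, ht⟩ : ∃ t, t = 1 + ‖p.1‖ ^ 2 + ‖p.2‖ ^ 2 := ⟨_, rfl⟩
  have t0 : 0 < t := by rw [ht]; positivity
  have h3 : 1 + ‖p‖ ^ 2 ≤ t := by
    rw [ht, Prod.norm_def]
    rcases le_total ‖p.1‖ ‖p.2‖ with k | k
    · rw [max_eq_right k]; nlinarith [sq_nonneg ‖p.1‖]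
    · rw [max_eq_left k]; nlinarith [sq_nonneg ‖p.2‖]
  have h4 : W p.1 p.2 ≤ M * t ^ (-(1 / 2 : ℝ)) := by
    rw [Real.rpow_neg t0.le, ← Real.sqrt_eq_rpow, ← div_eq_mul_inv,
      le_div_iff₀ (Real.sqrt_pos.2 t0), ht]
    exact hS.hi _
  have h5 := (hS.HH_mem p.2).2
  rw [← ht] at h5
  calc _ ≤ M * t ^ (-(1 / 2 : ℝ)) * (M ^ i * t ^ (-(i + γ) / 2)) :=
        mul_le_mul h4 h5 (hS.HH_pos _).le (by positivity)
    _ = M * M ^ i * t ^ (-(i + γ + 1) / 2) := by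
        rw [mul_mul_mul_comm, ← Real.rpow_add t0]
        congr 2
        ring
    _ ≤ _ := by
        refine mul_le_mul_of_nonneg_left (Real.rpow_le_rpow_of_nonpos (by positivity) h3 ?_)
          (by positivity)
        linarith [hS.i0, hS.g0]

theorem Ch.II_eq : ∫⁻ b, II i γ (1 + ‖b‖ ^ 2) (W b) =
    (∫⁻ b, CC i γ (1 + ‖b‖ ^ 2) (W b)) + ∫⁻ a, CC i γ (1 + ‖a‖ ^ 2) (U a) := by
  rw [h.x2, ← lintegral_add_left h.measurable_CC]
  refine lintegral_congr fun b => ?_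
  have hS := h.sW b
  have h1 : Measurable fun z : V (D + 1) => ‖z‖ ^ 2 / (1 + ‖b‖ ^ 2 + ‖z‖ ^ 2) := by fun_prop
  have h0 : Measurable fun z => ENNReal.ofReal (W b z * HH i γ (1 + ‖b‖ ^ 2) (W b) z *
      (‖z‖ ^ 2 / (1 + ‖b‖ ^ 2 + ‖z‖ ^ 2))) :=
    ((hS.cW.mul hS.tm.1).measurable.mul h1).ennreal_ofReal
  rw [II, CC, NN, ← lintegral_add_left h0]
  refine lintegral_congr fun z => ?_
  have h2 := hS.pos z
  have h3 := hS.HH_pos z
  rw [← ENNReal.ofReal_add (by positivity) (by positivity)]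
  congr 1
  field_simp
  ring

end Pool.Agent.Lib.MP_0a1ca9_gt.Gp
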