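import Pool.Agent.Lib.MP_0a1ca9_gt.GpFin

/-! The monotonicity for families of triangles. -/

open MeasureTheory Set Filter Topology
open scoped RealInnerProductSpace

namespace Pool.Agent.Lib.MP_0a1ca9_gt.Gp

open Cd

section

variable {X : Type*} [MeasurableSpace X] {d : ℕ} {μ : Measure X} [IsFiniteMeasure μ]

theorem gpCont_lim {F : ℕ → X → V d → ℝ} {F' : X → V d → ℝ}
    (hm : ∀ k, Measurable fun p : X × V d => F k p.1 p.2) {C : ℝ}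
    (hb : ∀ᵐ a ∂μ, ∀ k z, 0 ≤ F k a z ∧ F k a z ≤ C)
    (hl : ∀ a z, Tendsto (fun k => F k a z) atTop (𝓝 (F' a z))) {l : ℝ} (hl0 : 0 < l)
    {G : ℝ → ℝ} (hG : ContinuousOn G (Ici 0)) :
    Tendsto (fun k => ∫ z, gs l z * G (∫ a, F k a z ∂μ)) atTop
      (𝓝 (∫ z, gs l z * G (∫ a, F' a z ∂μ))) := by
  have hn : ∀ k z, ∀ᵐ a ∂μ, ‖F k a z‖ ≤ C := fun k z => hb.mono fun a ha => by
    rw [Real.norm_of_nonneg (ha k z).1]; exact (ha k z).2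
  have h0 : ∀ k z, 0 ≤ ∫ a, F k a z ∂μ := fun k z =>
    integral_nonneg_of_ae (hb.mono fun a ha => (ha k z).1)
  have h1 : ∀ k z, ∫ a, F k a z ∂μ ≤ C * μ.real univ := fun k z =>
    (le_abs_self _).trans (norm_integral_le_of_norm_le_const (hn k z))
  have hW : ∀ z, Tendsto (fun k => ∫ a, F k a z ∂μ) atTop (𝓝 (∫ a, F' a z ∂μ)) := fun z =>
    tendsto_integral_of_dominated_convergence (fun _ => C)
      (fun k => ((hm k).comp (measurable_id.prodMk measurable_const)).aestronglyMeasurable)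
      (integrable_const C) (fun k => hn k z) (ae_of_all _ fun a => hl a z)
  obtain ⟨M, hM⟩ := (isCompact_Icc (a := (0 : ℝ)) (b := C * μ.real univ)).exists_bound_of_continuousOn
    (hG.mono Icc_subset_Ici_self)
  have hc : Continuous fun x : ℝ => G (max x 0) :=
    hG.comp_continuous (by fun_prop) fun x => le_max_right x 0
  have hg : Continuous (gs l : V d → ℝ) := by unfold gs; fun_prop
  refine tendsto_integral_of_dominated_convergence (fun z => gs l z * M) (fun k => ?_)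
    ((integrable_gauss d hl0).mul_const M) (fun k => ae_of_all _ fun z => ?_)
    (ae_of_all _ fun z => ?_)
  · have e : (fun z => gs l z * G (∫ a, F k a z ∂μ)) =
        fun z => gs l z * G (max (∫ a, F k a z ∂μ) 0) := by
      ext z; rw [max_eq_left (h0 k z)]
    rw [e]
    exact (hg.stronglyMeasurable.mul (hc.comp_stronglyMeasurable
      (hm k).stronglyMeasurable.integral_prod_left')).aestronglyMeasurable
  · rw [norm_mul, Real.norm_of_nonneg (gs_pos l z).le]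
    exact mul_le_mul_of_nonneg_left (hM _ ⟨h0 k z, h1 k z⟩) (gs_pos l z).le
  · refine Tendsto.const_mul _ ((hG _ ?_).tendsto.comp (tendsto_nhdsWithin_iff.2
      ⟨hW z, Eventually.of_forall fun k => h0 k z⟩))
    exact ge_of_tendsto' (hW z) fun k => h0 k z

variable {T : Finset (ℝ × ℝ)} {h : ℝ × ℝ → X → ℝ}

theorem gpCont_fam (hF : Fam μ T h) {Y : ℕ → X → V d} (hY : ∀ k, Measurable (Y k)) {y : X → V d}
    {ψ : ℕ → ℝ × ℝ → ℝ → ℝ} {ψ' : ℝ × ℝ → ℝ → ℝ} (hψ : ∀ k τ, Measurable (ψ k τ))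
    (hb : ∀ τ ∈ T, ∃ C, ∀ k x, 0 ≤ ψ k τ x ∧ ψ k τ x ≤ C)
    (hl : ∀ τ ∈ T, ∀ a z, Tendsto (fun k => ψ k τ ⟪Y k a, z⟫) atTop (𝓝 (ψ' τ ⟪y a, z⟫)))
    {l : ℝ} (hl0 : 0 < l) {G : ℝ → ℝ} (hG : ContinuousOn G (Ici 0)) :
    Tendsto (fun k => ∫ z, gs l z * G (∫ a, ∑ τ ∈ T, h τ a * ψ k τ ⟪Y k a, z⟫ ∂μ)) atTop
      (𝓝 (∫ z, gs l z * G (∫ a, ∑ τ ∈ T, h τ a * ψ' τ ⟪y a, z⟫ ∂μ))) := by
  obtain ⟨B, hB⟩ := hF.bd
  choose! C hC using hb
  refine gpCont_lim (F := fun k a z => ∑ τ ∈ T, h τ a * ψ k τ ⟪Y k a, z⟫)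
    (F' := fun a z => ∑ τ ∈ T, h τ a * ψ' τ ⟪y a, z⟫) (C := ∑ τ ∈ T, B * C τ) (fun k => ?_)
    (hB.mono fun a ha k z => ⟨?_, ?_⟩) (fun a z => ?_) hl0 hG
  · exact Finset.measurable_sum _ fun τ _ => ((hF.meas τ).comp measurable_fst).mul
      ((hψ k τ).comp (((hY k).comp measurable_fst).inner measurable_snd))
  · exact Finset.sum_nonneg fun τ hτ => mul_nonneg (hF.nn τ a) (hC τ hτ k _).1
  · exact Finset.sum_le_sum fun τ hτ => mul_le_mul (ha τ hτ) (hC τ hτ k _).2 (hC τ hτ k _).1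
      ((hF.nn τ a).trans (ha τ hτ))
  · exact tendsto_finsetSum _ fun τ hτ => (hl τ hτ a z).const_mul _

theorem gpCont_simple (hF : Fam μ T h) (f : SimpleFunc X (V d)) :
    ∃ w : ↥(f.range ×ˢ T) → ℝ, (∀ j, 0 ≤ w j) ∧ ∀ (ψ : ℝ × ℝ → ℝ → ℝ) (z : V d),
      ∫ a, ∑ τ ∈ T, h τ a * ψ τ ⟪f a, z⟫ ∂μ = ∑ j, w j * ψ j.1.2 ⟪j.1.1, z⟫ := by
  classical
  obtain ⟨B, hB⟩ := hF.bd
  refine ⟨fun j => ∫ a, (f ⁻¹' {j.1.1}).indicator (h j.1.2) a ∂μ, fun j =>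
    integral_nonneg fun a => indicator_nonneg (fun a _ => hF.nn _ a) a, fun ψ z => ?_⟩
  have hi : ∀ τ ∈ T, Integrable (h τ) μ := fun τ hτ =>
    Integrable.of_bound (hF.meas τ).aestronglyMeasurable B (hB.mono fun a ha => by
      rw [Real.norm_of_nonneg (hF.nn τ a)]; exact ha τ hτ)
  rw [Finset.sum_coe_sort (f.range ×ˢ T)
    (fun j => (∫ a, (f ⁻¹' {j.1}).indicator (h j.2) a ∂μ) * ψ j.2 ⟪j.1, z⟫)]
  simp_rw [← integral_mul_const]
  rw [← integral_finsetSum _ fun j hj =>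
    ((hi _ (Finset.mem_product.1 hj).2).indicator (f.measurableSet_fiber _)).mul_const _]
  refine integral_congr_ae (ae_of_all _ fun a => ?_)
  simp only
  rw [Finset.sum_product, Finset.sum_eq_single_of_mem (f a) (f.mem_range_self a)]
  · exact Finset.sum_congr rfl fun τ _ => by rw [indicator_of_mem (by simp)]
  · exact fun v _ hv => Finset.sum_eq_zero fun τ _ => by
      rw [indicator_of_notMem (by simpa using hv.symm), zero_mul]

theorem gpCont_bd (n : ℕ) (τ : ℝ × ℝ) {t : ℝ} (ht : 1 ≤ t) :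
    ∃ C, ∀ m x, 0 ≤ sm n (m + 1) τ t x ∧ sm n (m + 1) τ t x ≤ C := by
  obtain ⟨C, hC⟩ := om_pf_le n τ
  exact ⟨C, fun m x => ⟨sm_nonneg _ _ _ _ _, hC (m + 1) (by omega) _ x
    (le_mul_of_one_le_left (sq_nonneg _) (one_le_pow₀ ht))⟩⟩

/-- The cut profile. -/
noncomputable def gpContCut (n : ℕ) (τ : ℝ × ℝ) (t x : ℝ) : ℝ :=
  if t ^ 2 * (x - cen τ) ^ 2 ≤ ar τ ^ 2 then om n (ell τ x) else 0

theorem gpCont_ell {τ : ℝ × ℝ} (hτ : τ.1 ≠ τ.2) {t : ℝ} (ht : 1 ≤ t) {x : ℝ}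
    (hx : t ^ 2 * (x - cen τ) ^ 2 ≤ ar τ ^ 2) : 0 ≤ ell τ x ∧ ell τ x ≤ 1 := by
  have k := tri_mem hτ ht x
  rw [show tri τ t x = ell τ x from if_pos hx] at k
  exact ⟨k.1, k.2.1.trans k.2.2⟩

theorem gpCont_zero (hF : Fam μ T h) (f : SimpleFunc X (V d)) {l : ℝ} (hl : 0 < l)
    {G : ℝ → ℝ} (hG : Adm d G) {t : ℝ} (ht : 1 ≤ t) (n m : ℕ) :
    t ^ d * ∫ z, gs (l * t ^ 2) z * G (∫ a, ∑ τ ∈ T, h τ a * sm n (m + 1) τ t ⟪f a, z⟫ ∂μ) ≤
      ∫ z, gs l z * G (∫ a, ∑ τ ∈ T, h τ a * sm n (m + 1) τ 1 ⟪f a, z⟫ ∂μ) := by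
  obtain ⟨w, hw, e⟩ := gpCont_simple hF f
  have k := fin_anti (J := ↥(f.range ×ˢ T)) (fun j => j.1.1) (fun j => j.1.2) hw hl hG n
    (m := m + 1) (by omega) ht
  have e1 : ∀ s : ℝ, ∀ z : V d, ∫ a, ∑ τ ∈ T, h τ a * sm n (m + 1) τ s ⟪f a, z⟫ ∂μ =
      ∑ j, w j * sm n (m + 1) j.1.2 s ⟪j.1.1, z⟫ := fun s z => e (fun τ => sm n (m + 1) τ s) z
  simp only [e1]
  exact k

theorem gpCont_one (hF : Fam μ T h) {y : X → V d} (hy : Measurable y) {l : ℝ} (hl : 0 < l)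
    {G : ℝ → ℝ} (hG : ContinuousOn G (Ici 0)) {t : ℝ} (ht : 1 ≤ t) (n m : ℕ) :
    Tendsto (fun k => ∫ z, gs l z * G (∫ a, ∑ τ ∈ T, h τ a * sm n (m + 1) τ t
      ⟪SimpleFunc.approxOn y hy univ 0 (mem_univ _) k a, z⟫ ∂μ)) atTop
      (𝓝 (∫ z, gs l z * G (∫ a, ∑ τ ∈ T, h τ a * sm n (m + 1) τ t ⟪y a, z⟫ ∂μ))) :=
  gpCont_fam hF (Y := fun k => SimpleFunc.approxOn y hy univ 0 (mem_univ _) k)
    (fun _ => SimpleFunc.measurable _) (ψ := fun _ τ => sm n (m + 1) τ t)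
    (ψ' := fun τ => sm n (m + 1) τ t) (fun _ τ => (continuous_sm n (m + 1) τ t).measurable)
    (fun τ _ => (gpCont_bd n τ ht).imp fun _ hC _ x => hC m x)
    (fun τ _ a z => ((continuous_sm n (m + 1) τ t).tendsto _).comp
      ((SimpleFunc.tendsto_approxOn hy (mem_univ _) (by simp)).inner tendsto_const_nhds)) hl hG

theorem gpCont_two (hF : Fam μ T h) {y : X → V d} (hy : Measurable y) {l : ℝ} (hl : 0 < l)
    {G : ℝ → ℝ} (hG : ContinuousOn G (Ici 0)) {t : ℝ} (ht : 1 ≤ t) (n : ℕ) :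
    Tendsto (fun m => ∫ z, gs l z * G (∫ a, ∑ τ ∈ T, h τ a * sm n (m + 1) τ t ⟪y a, z⟫ ∂μ)) atTop
      (𝓝 (∫ z, gs l z * G (∫ a, ∑ τ ∈ T, h τ a * gpContCut n τ t ⟪y a, z⟫ ∂μ))) :=
  gpCont_fam hF (Y := fun _ => y) (fun _ => hy) (ψ := fun m τ => sm n (m + 1) τ t)
    (ψ' := fun τ => gpContCut n τ t) (fun m τ => (continuous_sm n (m + 1) τ t).measurable)
    (fun τ _ => gpCont_bd n τ ht)
    (fun τ _ _ _ => (tendsto_sm n τ t _).comp (tendsto_add_atTop_nat 1)) hl hG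

theorem gpCont_three (hF : Fam μ T h) {y : X → V d} (hy : Measurable y) {l : ℝ} (hl : 0 < l)
    {G : ℝ → ℝ} (hG : ContinuousOn G (Ici 0)) {t : ℝ} (ht : 1 ≤ t) :
    Tendsto (fun n => ∫ z, gs l z * G (∫ a, ∑ τ ∈ T, h τ a * gpContCut n τ t ⟪y a, z⟫ ∂μ)) atTop
      (𝓝 (∫ z, gs l z * G (WW μ y T h t z))) := by
  refine gpCont_fam hF (Y := fun _ => y) (fun _ => hy) (ψ := fun n τ => gpContCut n τ t)
    (ψ' := fun τ => tri τ t) (fun n τ => ?_) (fun τ hτ => ⟨3, fun n x => ?_⟩)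
    (fun τ hτ a z => ?_) hl hG
  · exact Measurable.ite (measurableSet_le (by fun_prop) measurable_const)
      (by unfold om ell; fun_prop) measurable_const
  · unfold gpContCut
    split_ifs with k
    · have e := gpCont_ell (hF.ne τ hτ) ht k
      exact ⟨(om_pos _ _).le, om_le n e.1 e.2⟩
    · exact ⟨le_rfl, by norm_num⟩
  · unfold gpContCut tri
    split_ifs with k
    · exact tendsto_om (gpCont_ell (hF.ne τ hτ) ht k).1
    · exact tendsto_const_nhds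

end

theorem fam_anti {X : Type*} [MeasurableSpace X] {d : ℕ} {μ : Measure X} [IsFiniteMeasure μ]
    {y : X → V d} (hy : Measurable y) {T : Finset (ℝ × ℝ)} {h : ℝ × ℝ → X → ℝ} (hF : Fam μ T h)
    {l : ℝ} (hl : 0 < l) {G : ℝ → ℝ} (hG : Adm d G) {t : ℝ} (ht : 1 ≤ t) :
    t ^ d * ∫ z : V d, gs (l * t ^ 2) z * G (WW μ y T h t z) ≤
      ∫ z : V d, gs l z * G (WW μ y T h 1 z) := by
  have hl' : 0 < l * t ^ 2 := by positivity
  refine le_of_tendsto_of_tendsto' ((gpCont_three hF hy hl' hG.1 ht).const_mul (t ^ d))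
    (gpCont_three hF hy hl hG.1 le_rfl) fun n => ?_
  refine le_of_tendsto_of_tendsto' ((gpCont_two hF hy hl' hG.1 ht n).const_mul (t ^ d))
    (gpCont_two hF hy hl hG.1 le_rfl n) fun m => ?_
  refine le_of_tendsto_of_tendsto' ((gpCont_one hF hy hl' hG.1 ht n m).const_mul (t ^ d))
    (gpCont_one hF hy hl hG.1 le_rfl n m) fun k => ?_
  exact gpCont_zero hF _ hl hG ht n m

end Pool.Agent.Lib.MP_0a1ca9_gt.Gp
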