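import Pool.Agent.Lib.MP_0a1ca9_gt.GpDef
import Pool.Agent.Lib.MP_0a1ca9_gt.Graph

/-! Decompositions into triangles, fibres and the inequalities on a fibre. -/

open MeasureTheory Set Metric Function
open scoped ENNReal RealInnerProductSpace

namespace Pool.Agent.Lib.MP_0a1ca9_gt.Gp

open Cd

/-- A sum of triangles. -/
noncomputable def st (T : Finset (ℝ × ℝ)) (e : ℝ × ℝ → ℝ) (s : ℝ) : ℝ := ∑ τ ∈ T, e τ * tri τ 1 s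

/-- Approximation from below of `f x` by sums of triangles, with the parts above each level. -/
structure Dec {X : Type*} [MeasurableSpace X] (K : Set X) (ε : ℝ) (f : X → ℝ → ℝ)
    (T : Finset (ℝ × ℝ)) (Z : Set ℝ) (η : ℝ → ℝ × ℝ → X → ℝ) : Prop where
  ne : ∀ τ ∈ T, τ.1 ≠ τ.2
  cnt : Z.Countable
  meas : ∀ θ τ, Measurable (η θ τ)
  nn : ∀ θ τ x, 0 ≤ η θ τ x
  anti : ∀ θ θ' τ x, θ ≤ θ' → η θ' τ x ≤ η θ τ x
  thr : ∀ θ, 0 ≤ θ → ∀ x, ∀ s ∉ Z,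
    st T (fun τ => η θ τ x) s = max (st T (fun τ => η 0 τ x) s - θ) 0
  up : ∀ x ∈ K, ∀ s ∉ Z, st T (fun τ => η 0 τ x) s ≤ f x s
  lo : ∀ x ∈ K, ∀ s ∉ Z, |s| ≤ ε⁻¹ → f x s - ε ≤ st T (fun τ => η 0 τ x) s

theorem Dec.comp {X Y : Type*} [MeasurableSpace X] [MeasurableSpace Y] {K : Set X} {ε : ℝ}
    {f : X → ℝ → ℝ} {T : Finset (ℝ × ℝ)} {Z : Set ℝ} {η : ℝ → ℝ × ℝ → X → ℝ}
    (h : Dec K ε f T Z η) {φ : Y → X} (hφ : Measurable φ) {K' : Set Y} (hK : MapsTo φ K' K) :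
    Dec K' ε (fun y => f (φ y)) T Z fun θ τ y => η θ τ (φ y) :=
  ⟨h.ne, h.cnt, fun θ τ => (h.meas θ τ).comp hφ, fun _ _ _ => h.nn _ _ _,
    fun _ _ _ _ => h.anti _ _ _ _, fun θ hθ _ => h.thr θ hθ _, fun _ hy => h.up _ (hK hy),
    fun _ hy => h.lo _ (hK hy)⟩

variable {D : ℕ}

/-- The directions of the ridge functions. -/
noncomputable def yy (σ : ℝ) (a : V D) : V (D + 1) := σ • cns 1 a

theorem continuous_yy (σ : ℝ) : Continuous (yy σ : V D → V (D + 1)) :=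
  (continuous_cns.comp (continuous_const.prodMk continuous_id)).const_smul σ

theorem inner_yy (σ : ℝ) (a z : V D) (x : ℝ) : ⟪yy σ a, cns x z⟫ = σ * (x + ⟪a, z⟫) := by
  rw [yy, real_inner_smul_left, inner_cns, one_mul]

/-- Continuous functions with integrable decay. -/
def Tm (C : ℝ) (Φ : V (D + 1) → ℝ) : Prop :=
  Continuous Φ ∧ ∀ z, |Φ z| ≤ C / jac z ^ (D + 2)

/-- The gain of a triangle for a Gaussian weight. -/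
noncomputable def gn (l : ℝ) (a : V D) (τ : ℝ × ℝ) : ℝ :=
  mg 1 (gs l) a τ.1 * (Real.exp (2 * (l / (1 + ‖a‖ ^ 2)) * cen τ * (τ.1 - τ.2)) - 1 -
    2 * (l / (1 + ‖a‖ ^ 2)) * cen τ * (τ.1 - τ.2)) / (4 * (l / (1 + ‖a‖ ^ 2)) * ar τ)

/-- The weighted power. -/
noncomputable def HH {d : ℕ} (i γ β : ℝ) (W : V d → ℝ) (z : V d) : ℝ :=
  W z ^ i * (β + ‖z‖ ^ 2) ^ (-γ / 2)

/-- The total mass on a fibre. -/
noncomputable def II {d : ℕ} (i γ β : ℝ) (W : V d → ℝ) : ℝ≥0∞ :=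
  ∫⁻ z, ENNReal.ofReal (W z * HH i γ β W z)

/-- The tangential part of the mass. -/
noncomputable def CC {d : ℕ} (i γ β : ℝ) (W : V d → ℝ) : ℝ≥0∞ :=
  ∫⁻ z, ENNReal.ofReal (W z * HH i γ β W z * (‖z‖ ^ 2 / (β + ‖z‖ ^ 2)))

/-- The normal part of the mass. -/
noncomputable def NN {d : ℕ} (i γ β : ℝ) (W : V d → ℝ) : ℝ≥0∞ :=
  ∫⁻ z, ENNReal.ofReal (W z * HH i γ β W z * (β / (β + ‖z‖ ^ 2)))

/-- The size conditions on a fibre. -/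
structure Sz (i γ β m M : ℝ) (W : V (D + 1) → ℝ) : Prop where
  i0 : 0 < i
  iD : (D : ℝ) ≤ i
  g0 : 0 < γ
  ig : (D : ℝ) + 2 ≤ i + γ
  b1 : 1 ≤ β
  m0 : 0 < m
  cW : Continuous W
  lo : ∀ z, m ≤ W z * √(β + ‖z‖ ^ 2)
  hi : ∀ z, W z * √(β + ‖z‖ ^ 2) ≤ M

/-- The equation on a fibre. -/
structure Fib (σ i γ c β m M : ℝ) (W : V (D + 1) → ℝ) (f : V D → ℝ → ℝ) : Prop
    extends Sz i γ β m M W where
  s2 : σ ^ 2 = 1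
  c0 : 0 < c
  cf : Continuous (uncurry f)
  f0 : ∀ a s, 0 ≤ f a s
  fb : ∀ R, ∃ B, ∀ a, ‖a‖ ≤ R → ∀ s, f a s ≤ B
  eq : ∀ z, ∫⁻ a, ENNReal.ofReal (f a ⟪yy σ a, z⟫) = ENNReal.ofReal (c * W z)

/-- The inequality for one Gaussian weight. -/
def PL (σ i γ β : ℝ) (W : V (D + 1) → ℝ) (μ : Measure (V D)) (T : Finset (ℝ × ℝ))
    (h : ℝ × ℝ → V D → ℝ) (l G ε : ℝ) : Prop :=
  ENNReal.ofReal (D + 1) * (∫⁻ z, ENNReal.ofReal (WW μ (yy σ) T h 1 z ^ (i + 1) * gs l z)) +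
      ENNReal.ofReal G ≤
    ENNReal.ofReal (i + 1) *
        ∫⁻ a, ENNReal.ofReal (cost T h (mg σ fun z => W z ^ i * gs l z) a) ∂μ +
      ENNReal.ofReal (2 * l) * (∫⁻ z, ENNReal.ofReal (W z ^ (i + 1) * ‖z‖ ^ 2 * gs l z)) +
      ENNReal.ofReal ε * (ENNReal.ofReal (i + 1) *
        ∫⁻ a, ENNReal.ofReal (cost T h (mg σ (HH i γ β W)) a) ∂μ + II i γ β W)

/-- The truncated ridge integral. -/
noncomputable def LL (σ : ℝ) (f : V D → ℝ → ℝ) (R ε : ℝ) (z : V (D + 1)) : ℝ≥0∞ :=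
  ∫⁻ a in closedBall 0 R,
    if |⟪yy σ a, z⟫| ≤ ε⁻¹ then ENNReal.ofReal (f a ⟪yy σ a, z⟫ - ε) else 0

/-- The truncated mass on a fibre. -/
noncomputable def AA (σ i γ c β : ℝ) (f : V D → ℝ → ℝ) (R ε : ℝ) : ℝ≥0∞ :=
  ∫⁻ z, (LL σ f R ε z / ENNReal.ofReal c) ^ (i + 1) * ENNReal.ofReal ((β + ‖z‖ ^ 2) ^ (-γ / 2))

/-- The inequality on a fibre. -/
def SD (σ i γ c β : ℝ) (W : V (D + 1) → ℝ) (f : V D → ℝ → ℝ) (R ε' : ℝ) (T : Finset (ℝ × ℝ))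
    (e : ℝ × ℝ → V D → ℝ) (G ε : ℝ) : Prop :=
  ENNReal.ofReal (D + 1) * AA σ i γ c β f R ε' + ENNReal.ofReal G ≤
    ENNReal.ofReal ((1 + ε) * (i + 1) / c) *
        (∫⁻ a in closedBall 0 R, ENNReal.ofReal (cost T e (mg σ (HH i γ β W)) a)) +
      ENNReal.ofReal γ * CC i γ β W + ENNReal.ofReal ε * II i γ β W

/-- A lower bound for the mass of the weights in `[1, 2]`. -/
noncomputable def kp (γ β : ℝ) : ℝ :=
  Real.exp (-(2 * β)) * min 1 (2 ^ (γ / 2 - 1)) / Real.Gamma (γ / 2)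

/-- The equation in a pair of dual charts adapted to a splitting. -/
structure Ch {D' : ℕ} (i γ c m M : ℝ) (W : V D' → V (D + 1) → ℝ) (U : V D → V (D' + 1) → ℝ) :
    Prop where
  ig : i + γ = D + D' + 1
  c0 : 0 < c
  cW : Continuous (uncurry W)
  cU : Continuous (uncurry U)
  sW : ∀ b, Sz i γ (1 + ‖b‖ ^ 2) m M (W b)
  sU : ∀ a, Sz i γ (1 + ‖a‖ ^ 2) m M (U a)
  e1 : ∀ b x z, ∫⁻ a, ∫⁻ w, ENNReal.ofReal (HH i γ (1 + ‖a‖ ^ 2) (U a)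
    (cns (-(x + ⟪a, z⟫) - ⟪b, w⟫) w)) = ENNReal.ofReal (c * W b (cns x z))
  e2 : ∀ a x w, ∫⁻ b, ∫⁻ z, ENNReal.ofReal (HH i γ (1 + ‖b‖ ^ 2) (W b)
    (cns (-(x + ⟪b, w⟫) - ⟪a, z⟫) z)) = ENNReal.ofReal (c * U a (cns x w))
  x1 : ∫⁻ b, CC i γ (1 + ‖b‖ ^ 2) (W b) = ∫⁻ a, NN i γ (1 + ‖a‖ ^ 2) (U a)
  x2 : ∫⁻ a, CC i γ (1 + ‖a‖ ^ 2) (U a) = ∫⁻ b, NN i γ (1 + ‖b‖ ^ 2) (W b)

theorem Ch.symm {D' : ℕ} {i γ c m M : ℝ} {W : V D' → V (D + 1) → ℝ} {U : V D → V (D' + 1) → ℝ}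
    (h : Ch i γ c m M W U) : Ch i γ c m M U W :=
  ⟨by rw [h.ig]; ring, h.c0, h.cU, h.cW, h.sU, h.sW, h.e2, h.e1, h.x2, h.x1⟩

/-- The marginals of the weighted powers. -/
noncomputable def PP {D' : ℕ} (σ i γ : ℝ) (U : V D → V (D' + 1) → ℝ) (a : V D) (b : V D')
    (s : ℝ) : ℝ := mg σ (HH i γ (1 + ‖a‖ ^ 2) (U a)) b s

end Pool.Agent.Lib.MP_0a1ca9_gt.Gp
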