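import Pool.Agent.Lib.MP_0a1ca9_gt.CdPow

/-! Right triangles, families of triangles, admissible functions, marginals. -/

open MeasureTheory Set
open scoped RealInnerProductSpace

namespace Pool.Agent.Lib.MP_0a1ca9_gt.Gp

open Cd

/-- The affine function with value `1` at `τ.1` and `0` at `τ.2`. -/
noncomputable def ell (τ : ℝ × ℝ) (x : ℝ) : ℝ := (τ.2 - x) / (τ.2 - τ.1)

/-- The centre of the base. -/
noncomputable def cen (τ : ℝ × ℝ) : ℝ := (τ.1 + τ.2) / 2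

/-- Half the length of the base, which is also the area of the triangle. -/
noncomputable def ar (τ : ℝ × ℝ) : ℝ := |τ.2 - τ.1| / 2

/-- The triangle of height `1` at `τ.1` with foot `τ.2`, cut to the base shrunk by the factor `t`. -/
noncomputable def tri (τ : ℝ × ℝ) (t x : ℝ) : ℝ :=
  if t ^ 2 * (x - cen τ) ^ 2 ≤ ar τ ^ 2 then ell τ x else 0

/-- Functions with nonnegative differences of the orders `1, ..., d + 1`. -/
def Adm (d : ℕ) (G : ℝ → ℝ) : Prop :=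
  ContinuousOn G (Ici 0) ∧ ∀ h : ℝ, 0 ≤ h → ∀ p, 1 ≤ p → p ≤ d + 1 → Mon p fun k => G (k * h)

/-- Finitely many triangles with measurable coefficients. -/
structure Fam {X : Type*} [MeasurableSpace X] (μ : Measure X) (T : Finset (ℝ × ℝ))
    (h : ℝ × ℝ → X → ℝ) : Prop where
  ne : ∀ τ ∈ T, τ.1 ≠ τ.2
  meas : ∀ τ, Measurable (h τ)
  nn : ∀ τ a, 0 ≤ h τ a
  bd : ∃ C, ∀ᵐ a ∂μ, ∀ τ ∈ T, h τ a ≤ C

/-- The sum of ridge functions attached to a family. -/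
noncomputable def WW {X : Type*} [MeasurableSpace X] {d : ℕ} (μ : Measure X) (y : X → V d)
    (T : Finset (ℝ × ℝ)) (h : ℝ × ℝ → X → ℝ) (t : ℝ) (z : V d) : ℝ :=
  ∫ a, ∑ τ ∈ T, h τ a * tri τ t ⟪y a, z⟫ ∂μ

/-- The cost of a family against the functions `g a`. -/
noncomputable def cost {X : Type*} (T : Finset (ℝ × ℝ)) (h : ℝ × ℝ → X → ℝ) (g : X → ℝ → ℝ)
    (a : X) : ℝ := ∑ τ ∈ T, h τ a * (ar τ * g a τ.1)

/-- `g` is the marginal of `H` along `y`. -/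
def Marg {d : ℕ} (H : V d → ℝ) (y : V d) (g : ℝ → ℝ) : Prop :=
  Integrable g ∧ ∀ χ : ℝ → ℝ, Measurable χ → (∀ s, |χ s| ≤ 1) →
    ∫ z, H z * χ ⟪y, z⟫ = ∫ s, g s * χ s

/-- The Gaussian weight. -/
noncomputable def gs {d : ℕ} (l : ℝ) (z : V d) : ℝ := Real.exp (-(l * ‖z‖ ^ 2))

/-- The marginal of `H` along `σ • (1, a)`, for `σ = 1` or `σ = -1`. -/
noncomputable def mg {D : ℕ} (σ : ℝ) (H : V (D + 1) → ℝ) (a : V D) (s : ℝ) : ℝ :=
  ∫ z : V D, H (cns (σ * s - ⟪a, z⟫) z)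

theorem ar_pos {τ : ℝ × ℝ} (h : τ.1 ≠ τ.2) : 0 < ar τ :=
  half_pos (abs_pos.2 (sub_ne_zero.2 h.symm))

theorem ar_nonneg (τ : ℝ × ℝ) : 0 ≤ ar τ := by unfold ar; positivity

theorem gs_pos {d : ℕ} (l : ℝ) (z : V d) : 0 < gs l z := Real.exp_pos _

theorem measurable_tri (τ : ℝ × ℝ) (t : ℝ) : Measurable (tri τ t) :=
  Measurable.ite (measurableSet_le (by fun_prop) measurable_const) (by unfold ell; fun_prop)
    measurable_const

theorem tri_one {τ : ℝ × ℝ} (x : ℝ) :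
    tri τ 1 x = if min τ.1 τ.2 ≤ x ∧ x ≤ max τ.1 τ.2 then ell τ x else 0 := by
  refine if_congr ?_ rfl rfl
  rw [one_pow, one_mul, sq_le_sq, abs_of_nonneg (ar_nonneg τ), abs_le, cen, ar]
  rcases le_total τ.1 τ.2 with h | h
  · rw [min_eq_left h, max_eq_right h, abs_of_nonneg (sub_nonneg.2 h)]
    constructor <;> rintro ⟨h1, h2⟩ <;> constructor <;> linarith
  · rw [min_eq_right h, max_eq_left h, abs_of_nonpos (sub_nonpos.2 h)]
    constructor <;> rintro ⟨h1, h2⟩ <;> constructor <;> linarith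

theorem ell_mem {τ : ℝ × ℝ} (h : τ.1 ≠ τ.2) {x : ℝ} (h1 : min τ.1 τ.2 ≤ x) (h2 : x ≤ max τ.1 τ.2) :
    0 ≤ ell τ x ∧ ell τ x ≤ 1 := by
  unfold ell
  rcases lt_or_gt_of_ne h with l | l
  · rw [min_eq_left l.le] at h1
    rw [max_eq_right l.le] at h2
    exact ⟨div_nonneg (by linarith) (by linarith), (div_le_one (by linarith)).2 (by linarith)⟩
  · rw [min_eq_right l.le] at h1
    rw [max_eq_left l.le] at h2
    exact ⟨div_nonneg_of_nonpos (by linarith) (by linarith),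
      (div_le_one_of_neg (by linarith)).2 (by linarith)⟩

theorem tri_mem {τ : ℝ × ℝ} (h : τ.1 ≠ τ.2) {t : ℝ} (ht : 1 ≤ t) (x : ℝ) :
    0 ≤ tri τ t x ∧ tri τ t x ≤ tri τ 1 x ∧ tri τ 1 x ≤ 1 := by
  have h1 : 0 ≤ tri τ 1 x ∧ tri τ 1 x ≤ 1 := by
    rw [tri_one]
    split_ifs with k
    · exact ell_mem h k.1 k.2
    · exact ⟨le_rfl, zero_le_one⟩
  have h2 : tri τ t x = tri τ 1 x ∨ tri τ t x = 0 := by
    unfold tri
    by_cases k : t ^ 2 * (x - cen τ) ^ 2 ≤ ar τ ^ 2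
    · left
      rw [if_pos k, if_pos (le_trans (by gcongr) k)]
    · exact Or.inr (if_neg k)
  rcases h2 with e | e <;> rw [e]
  · exact ⟨h1.1, le_rfl, h1.2⟩
  · exact ⟨le_rfl, h1.1, h1.2⟩

end Pool.Agent.Lib.MP_0a1ca9_gt.Gp
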