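import Pool.Agent.Lib.MP_0a1ca9_gt.GpGauss
import Pool.Agent.Lib.MP_0a1ca9_gt.GpDef

/-! Polynomials of sums of tilted profiles. -/

open MeasureTheory Set Polynomial
open scoped RealInnerProductSpace

namespace Pool.Agent.Lib.MP_0a1ca9_gt.Gp

open Cd

/-- Exponential sums. -/
def ES {J : Type*} [Fintype J] (Φ : (J → ℝ) → (J → ℝ) → ℝ) : Prop :=
  ∃ (K : Type) (_ : Fintype K) (γ : K → ℝ) (κ β : K → J → ℝ), (∀ k j, 0 ≤ κ k j) ∧
    ∀ s x, Φ s x = ∑ k, γ k * Real.exp (∑ j, (β k j * x j - κ k j * s j))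

variable {J : Type*} [Fintype J]

theorem ES.const (c : ℝ) : ES fun _ _ : J → ℝ => c := by
  exact ⟨Unit, inferInstance, fun _ => c, 0, 0, fun _ _ => le_rfl, fun s x => by simp⟩

theorem ES.add {Φ Ψ : (J → ℝ) → (J → ℝ) → ℝ} (h : ES Φ) (h' : ES Ψ) :
    ES fun s x => Φ s x + Ψ s x := by
  obtain ⟨K, _, γ, κ, β, h1, h2⟩ := h
  obtain ⟨K', _, γ', κ', β', h1', h2'⟩ := h'
  refine ⟨K ⊕ K', inferInstance, Sum.elim γ γ', Sum.elim κ κ', Sum.elim β β', ?_, fun s x => ?_⟩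
  · rintro (k | k) j
    exacts [h1 k j, h1' k j]
  · simp only [h2, h2', Fintype.sum_sum_type, Sum.elim_inl, Sum.elim_inr]

theorem ES.mul {Φ Ψ : (J → ℝ) → (J → ℝ) → ℝ} (h : ES Φ) (h' : ES Ψ) :
    ES fun s x => Φ s x * Ψ s x := by
  obtain ⟨K, _, γ, κ, β, h1, h2⟩ := h
  obtain ⟨K', _, γ', κ', β', h1', h2'⟩ := h'
  refine ⟨K × K', inferInstance, fun k => γ k.1 * γ' k.2, fun k j => κ k.1 j + κ' k.2 j,
    fun k j => β k.1 j + β' k.2 j, fun k j => add_nonneg (h1 _ _) (h1' _ _), fun s x => ?_⟩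
  simp only [h2, h2', Fintype.sum_prod_type, Finset.sum_mul_sum]
  refine Finset.sum_congr rfl fun k _ => Finset.sum_congr rfl fun k' _ => ?_
  rw [mul_mul_mul_comm, ← Real.exp_add, ← Finset.sum_add_distrib]
  congr 2
  exact Finset.sum_congr rfl fun j _ => by ring

theorem ES.pow {Φ : (J → ℝ) → (J → ℝ) → ℝ} (h : ES Φ) (n : ℕ) : ES fun s x => Φ s x ^ n := by
  induction n with
  | zero => simpa only [pow_zero] using ES.const (J := J) 1
  | succ n ih => simpa only [pow_succ] using ih.mul h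

theorem ES.exp_x (j : J) (b : ℝ) : ES fun _ x : J → ℝ => Real.exp (b * x j) := by
  classical
  exact ⟨Unit, inferInstance, fun _ => 1, 0, fun _ => Pi.single j b, fun _ _ => le_rfl,
    fun s x => by simp [Pi.single_apply]⟩

theorem ES.exp_s (j : J) {a : ℝ} (ha : 0 ≤ a) : ES fun s _ : J → ℝ => Real.exp (-(a * s j)) := by
  classical
  refine ⟨Unit, inferInstance, fun _ => 1, fun _ => Pi.single j a, 0, fun _ i => ?_,
    fun s x => by simp [Pi.single_apply]⟩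
  simp only [Pi.single_apply]
  split_ifs
  exacts [ha, le_rfl]

theorem gpExp_sum {ι : Type*} (S : Finset ι) {Φ : ι → (J → ℝ) → (J → ℝ) → ℝ}
    (h : ∀ i, ES (Φ i)) : ES fun s x => ∑ i ∈ S, Φ i s x := by
  classical
  induction S using Finset.induction_on with
  | empty => simpa only [Finset.sum_empty] using ES.const (J := J) 0
  | insert i S hi ih => simpa only [Finset.sum_insert hi] using (h i).add ih

theorem gpExp_poly {Φ : (J → ℝ) → (J → ℝ) → ℝ} (h : ES Φ) (P : ℝ[X]) :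
    ES fun s x => P.eval (Φ s x) := by
  simp only [eval_eq_sum_range]
  exact gpExp_sum _ fun i => (ES.const _).mul (h.pow i)

theorem gpExp_line {f : ℝ → ℝ} {f' a : ℝ} (h : HasDerivAt f f' a) (δ : ℝ) :
    HasDerivAt (fun r => f (a + r * δ)) (f' * δ) 0 := by
  have h1 : HasDerivAt (fun r : ℝ => a + r * δ) δ 0 := by
    simpa only [one_mul] using ((hasDerivAt_id' (0 : ℝ)).mul_const δ).const_add a
  exact h.comp_of_eq 0 h1 (by simp)

theorem gpExp_der {K : Type} [Fintype K] (a : K → ℝ) (κ β : K → J → ℝ) (s x e δ : J → ℝ) :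
    HasDerivAt (fun r => ∑ k, a k *
      Real.exp (∑ j, (β k j * (x j + r * δ j) - κ k j * (s j + r * e j))))
      (∑ k, a k * (∑ j, (β k j * δ j - κ k j * e j)) *
        Real.exp (∑ j, (β k j * x j - κ k j * s j))) 0 := by
  refine HasDerivAt.fun_sum fun k _ => ?_
  have h := ((HasDerivAt.fun_sum (u := Finset.univ) fun j _ =>
    ((gpExp_line (hasDerivAt_id' (x j)) (δ j)).const_mul (β k j)).fun_sub
      ((gpExp_line (hasDerivAt_id' (s j)) (e j)).const_mul (κ k j))).exp).const_mul (a k)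
  simp only [zero_mul, add_zero, one_mul] at h
  rwa [mul_assoc, mul_comm (∑ j, _)]

theorem gpExp_tau {K : Type} [Fintype K] {γ : K → ℝ} {κ β : K → J → ℝ} {P : ℝ[X]}
    {ω φ φ' : J → ℝ → ℝ} (hφ : ∀ j s, HasDerivAt (φ j) (φ' j s) s)
    (h : ∀ s x : J → ℝ, P.eval (∑ j, ω j (x j) * φ j (s j)) =
      ∑ k, γ k * Real.exp (∑ j, (β k j * x j - κ k j * s j))) (τ : Finset J) :
    ∀ s x : J → ℝ, ∑ k, γ k * (∏ j ∈ τ, κ k j) * Real.exp (∑ j, (β k j * x j - κ k j * s j)) =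
      (∏ j ∈ τ, -(ω j (x j) * φ' j (s j))) *
        (derivative^[τ.card] P).eval (∑ j, ω j (x j) * φ j (s j)) := by
  classical
  induction τ using Finset.induction_on with
  | empty => simp [h]
  | insert i τ hi ih =>
    intro s x
    have h1 := gpExp_der (fun k => γ k * ∏ j ∈ τ, κ k j) κ β s x (Pi.single i 1) 0
    have h2 := (((derivative^[τ.card] P).hasDerivAt _).comp_of_eq 0
      (HasDerivAt.fun_sum (u := Finset.univ) fun j _ =>
        (gpExp_line (hφ j (s j)) ((Pi.single i 1 : J → ℝ) j)).const_mul (ω j (x j))) rfl).const_mul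
      (∏ j ∈ τ, -(ω j (x j) * φ' j (s j)))
    have h3 := h1.unique (h2.congr_of_eventuallyEq (Filter.Eventually.of_forall fun r => by
      simp only [Pi.zero_apply, mul_zero, add_zero, Function.comp_apply]
      rw [ih]
      congr 1
      refine Finset.prod_congr rfl fun j hj => ?_
      rw [Pi.single_eq_of_ne (ne_of_mem_of_not_mem hj hi), mul_zero, add_zero]))
    simp only [zero_mul, add_zero] at h3
    simp only [Pi.zero_apply, Pi.single_apply, mul_zero, zero_sub, mul_ite, mul_one,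
      Finset.sum_neg_distrib, Finset.sum_ite_eq', Finset.mem_univ, if_true, mul_neg,
      neg_mul] at h3
    simp only [Finset.prod_insert hi, Finset.card_insert_of_notMem hi,
      Function.iterate_succ_apply']
    rw [Finset.sum_congr rfl fun k _ => show γ k * (κ k i * ∏ j ∈ τ, κ k j) *
      Real.exp (∑ j, (β k j * x j - κ k j * s j)) = (γ k * ∏ j ∈ τ, κ k j) * κ k i *
      Real.exp (∑ j, (β k j * x j - κ k j * s j)) by ring]
    linear_combination -h3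

theorem gpExp_two {K : Type} [Fintype K] {a : K → ℝ} {κ β : K → J → ℝ} {Q : ℝ[X]}
    {ω ω' ω'' : J → ℝ → ℝ} (hω : ∀ j x, HasDerivAt (ω j) (ω' j x) x)
    (hω' : ∀ j x, HasDerivAt (ω' j) (ω'' j x) x) {s u x δ : J → ℝ} {C : (J → ℝ) → ℝ}
    (hC : ∀ (x : J → ℝ) (r : ℝ), C (fun j => x j + r * δ j) = C x)
    (h : ∀ x : J → ℝ, ∑ k, a k * Real.exp (∑ j, (β k j * x j - κ k j * s j)) =
      C x * Q.eval (∑ j, ω j (x j) * u j)) :
    ∑ k, a k * (∑ j, β k j * δ j) ^ 2 * Real.exp (∑ j, (β k j * x j - κ k j * s j)) =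
      C x * ((derivative (derivative Q)).eval (∑ j, ω j (x j) * u j) *
        (∑ j, ω' j (x j) * δ j * u j) ^ 2 +
        (derivative Q).eval (∑ j, ω j (x j) * u j) * ∑ j, ω'' j (x j) * δ j ^ 2 * u j) := by
  have hU : ∀ (R : ℝ[X]) (x : J → ℝ), HasDerivAt
      (fun r => R.eval (∑ j, ω j (x j + r * δ j) * u j))
      ((derivative R).eval (∑ j, ω j (x j) * u j) * ∑ j, ω' j (x j) * δ j * u j) 0 := fun R x =>
    (R.hasDerivAt _).comp_of_eq 0 (HasDerivAt.fun_sum (u := Finset.univ) fun j _ =>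
      (gpExp_line (hω j (x j)) (δ j)).mul_const (u j)) (by simp)
  have h1 : ∀ x : J → ℝ, ∑ k, a k * (∑ j, β k j * δ j) *
      Real.exp (∑ j, (β k j * x j - κ k j * s j)) =
      C x * ((derivative Q).eval (∑ j, ω j (x j) * u j) * ∑ j, ω' j (x j) * δ j * u j) := by
    intro x
    have h2 := gpExp_der a κ β s x 0 δ
    simp only [Pi.zero_apply, mul_zero, add_zero, sub_zero] at h2
    exact h2.unique (((hU Q x).const_mul (C x)).congr_of_eventuallyEq
      (Filter.Eventually.of_forall fun r => by rw [← hC x r]; exact h _))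
  have h2 := gpExp_der (fun k => a k * ∑ j, β k j * δ j) κ β s x 0 δ
  simp only [Pi.zero_apply, mul_zero, add_zero, sub_zero] at h2
  have h3 := h2.unique ((((hU (derivative Q) x).fun_mul
    (HasDerivAt.fun_sum (u := Finset.univ) fun j _ =>
      ((gpExp_line (hω' j (x j)) (δ j)).mul_const (δ j)).mul_const (u j))).const_mul
        (C x)).congr_of_eventuallyEq
      (Filter.Eventually.of_forall fun r => by rw [← hC x r]; exact h1 _))
  simp only [zero_mul, add_zero] at h3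
  simp only [sq, ← mul_assoc] at h3 ⊢
  exact h3

theorem poly_anti {d : ℕ} (y : J → V d) (c : J → ℝ) {l : ℝ} (hl : 0 < l) (P : ℝ[X])
    {ω ω' ω'' φ φ' : J → ℝ → ℝ} (hω : ∀ j x, HasDerivAt (ω j) (ω' j x) x)
    (hω' : ∀ j x, HasDerivAt (ω' j) (ω'' j x) x) (hφ : ∀ j s, HasDerivAt (φ j) (φ' j s) s)
    (hES : ∀ j, ES fun s x : J → ℝ => ω j (x j) * φ j (s j))
    (ω0 : ∀ j x, 0 ≤ ω j x) (ω2 : ∀ j x, 0 ≤ ω'' j x) (φ0 : ∀ j s, 0 ≤ s → 0 ≤ φ j s)
    (φ1 : ∀ j s, 0 ≤ s → φ' j s ≤ 0) {M : ℝ}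
    (hb : ∀ s x : J → ℝ, (∀ j, (x j - c j) ^ 2 ≤ s j) → ∑ j, ω j (x j) * φ j (s j) ≤ M)
    (hP : ∀ p, 1 ≤ p → p ≤ d + 1 → ∀ x ∈ Icc 0 M, 0 ≤ (derivative^[p] P).eval x)
    {t : ℝ} (ht : 1 ≤ t) :
    t ^ d * ∫ z : V d, gs (l * t ^ 2) z *
        P.eval (∑ j, ω j ⟪y j, z⟫ * φ j (t ^ 2 * (⟪y j, z⟫ - c j) ^ 2)) ≤
      ∫ z : V d, gs l z * P.eval (∑ j, ω j ⟪y j, z⟫ * φ j ((⟪y j, z⟫ - c j) ^ 2)) := by
  obtain ⟨K, _, γ, κ, β, hκ, hE⟩ := gpExp_poly (gpExp_sum Finset.univ hES) P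
  have hτ := gpExp_tau hφ hE
  have hs : ∀ s x : J → ℝ, (∀ j, (x j - c j) ^ 2 ≤ s j) → ∀ j, 0 ≤ s j := fun s x h j =>
    (sq_nonneg _).trans (h j)
  have hU : ∀ s x : J → ℝ, (∀ j, (x j - c j) ^ 2 ≤ s j) →
      ∑ j, ω j (x j) * φ j (s j) ∈ Icc 0 M := fun s x h =>
    ⟨Finset.sum_nonneg fun j _ => mul_nonneg (ω0 _ _) (φ0 _ _ (hs s x h j)), hb s x h⟩
  have hC : ∀ s x : J → ℝ, (∀ j, (x j - c j) ^ 2 ≤ s j) → ∀ τ : Finset J,
      0 ≤ ∏ j ∈ τ, -(ω j (x j) * φ' j (s j)) := fun s x h τ =>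
    Finset.prod_nonneg fun j _ => neg_nonneg.2
      (mul_nonpos_of_nonneg_of_nonpos (ω0 _ _) (φ1 _ _ (hs s x h j)))
  have h := gauss_tilt Finset.univ (fun j => (y j).ofLp) c hl γ κ β (fun k _ => hκ k)
    (fun s x h τ t1 t2 => by
      rw [hτ]
      exact mul_nonneg (hC s x h τ) (hP _ t1 t2 _ (hU s x h)))
    (fun s x h τ t1 δ hδ => by
      rw [gpExp_two hω hω' (u := fun j => φ j (s j))
        (C := fun x => ∏ j ∈ τ, -(ω j (x j) * φ' j (s j)))
        (fun x r => Finset.prod_congr rfl fun j hj => by simp only [hδ j hj, mul_zero, add_zero])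
        (hτ τ s)]
      have e1 := hP (τ.card + 1) (by omega) (by omega) _ (hU s x h)
      have e2 := hP (τ.card + 1 + 1) (by omega) (by omega) _ (hU s x h)
      simp only [Function.iterate_succ_apply'] at e1 e2
      exact mul_nonneg (hC s x h τ) (add_nonneg (mul_nonneg e2 (sq_nonneg _)) (mul_nonneg e1
        (Finset.sum_nonneg fun j _ => mul_nonneg (mul_nonneg (ω2 _ _) (sq_nonneg _))
          (φ0 _ _ (hs s x h j))))))
    (mem_Ici.2 le_rfl) (mem_Ici.2 ht) ht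
  have key : ∀ t : ℝ, ∫ z : V d, gs (l * t ^ 2) z *
      P.eval (∑ j, ω j ⟪y j, z⟫ * φ j (t ^ 2 * (⟪y j, z⟫ - c j) ^ 2)) =
      ∫ w : Fin d → ℝ, Real.exp (-(l * t ^ 2 * (w ⬝ᵥ w))) *
        ∑ k, γ k * Real.exp (∑ j, (β k j * ((y j).ofLp ⬝ᵥ w) -
          κ k j * (t ^ 2 * ((y j).ofLp ⬝ᵥ w - c j) ^ 2))) := by
    intro t
    rw [← (PiLp.volume_preserving_toLp (Fin d)).integral_comp
      (MeasurableEquiv.toLp 2 (Fin d → ℝ)).measurableEmbedding]
    refine integral_congr_ae (Filter.Eventually.of_forall fun w => ?_)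
    have h1 : ‖(WithLp.toLp 2 w : V d)‖ ^ 2 = w ⬝ᵥ w := by
      rw [EuclideanSpace.real_norm_sq_eq]
      simp only [dotProduct, pow_two]
    have h2 : ∀ j, ⟪y j, (WithLp.toLp 2 w : V d)⟫ = (y j).ofLp ⬝ᵥ w := fun j => by
      simp [PiLp.inner_apply, dotProduct, mul_comm]
    simp only [gs, h1, h2]
    exact congrArg _ (hE (fun j => t ^ 2 * ((y j).ofLp ⬝ᵥ w - c j) ^ 2) fun j => (y j).ofLp ⬝ᵥ w)
  simp only [← key] at h
  simpa only [one_pow, one_mul, mul_one] using h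

end Pool.Agent.Lib.MP_0a1ca9_gt.Gp
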