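import Pool.Agent.Lib.MP_0a1ca9_gt.GpGrid

/-! Existence of decompositions, bounds for the coefficients and for the gain. -/

open MeasureTheory Set Function
open scoped ENNReal

namespace Pool.Agent.Lib.MP_0a1ca9_gt.Gp

theorem gpLow_gr {X : Type*} [PseudoMetricSpace X] [MeasurableSpace X] [OpensMeasurableSpace X]
    {K : Set X} (hK : IsCompact K) {f : X → ℝ → ℝ} (cf : Continuous (uncurry f))
    (f0 : ∀ x s, 0 ≤ f x s) {C S η : ℝ} (fC : ∀ x ∈ K, ∀ s, f x s ≤ C / √(1 + s ^ 2))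
    (hη : 0 < η) : ∃ δ > 0, ∀ N : ℕ, 2 * S / N ≤ δ → Gr K S η |C| (|C| / √(1 + S ^ 2)) N f := by
  obtain ⟨δ, h1, h2⟩ := Metric.uniformContinuousOn_iff_le.1
    ((hK.prod (isCompact_Icc (a := -S) (b := S))).uniformContinuousOn_of_continuous
      cf.continuousOn) η hη
  have h3 : ∀ x ∈ K, ∀ s, f x s ≤ |C| / √(1 + s ^ 2) := fun x hx s =>
    (fC x hx s).trans (div_le_div_of_nonneg_right (le_abs_self C) (Real.sqrt_nonneg _))
  refine ⟨δ, h1, fun N hN => ⟨fun s => (cf.comp (continuous_id.prodMk continuous_const)).measurable,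
    f0, fun x hx s hs s' hs' h => ?_, fun x hx s => (h3 x hx s).trans
      (div_le_self (abs_nonneg C) (Real.one_le_sqrt.2 (le_add_of_nonneg_right (sq_nonneg s)))),
    fun x hx => ⟨by simpa using h3 x hx (-S), h3 x hx S⟩⟩⟩
  have h4 := h2 (x, s) ⟨hx, hs⟩ (x, s') ⟨hx, hs'⟩ (by
    rw [Prod.dist_eq, dist_self, Real.dist_eq]
    exact max_le h1.le (h.trans hN))
  exact sub_le_iff_le_add'.1 ((le_abs_self _).trans h4)

theorem exists_dec {X : Type*} [PseudoMetricSpace X] [MeasurableSpace X] [OpensMeasurableSpace X]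
    {K : Set X} (hK : IsCompact K) {f g : X → ℝ → ℝ} (cf : Continuous (uncurry f))
    (cg : Continuous (uncurry g)) (f0 : ∀ x s, 0 ≤ f x s) (g0 : ∀ x s, 0 ≤ g x s) {C : ℝ}
    (fC : ∀ x ∈ K, ∀ s, f x s ≤ C / √(1 + s ^ 2)) (gC : ∀ x ∈ K, ∀ s, g x s ≤ C / √(1 + s ^ 2))
    {ε ε' : ℝ} (hε : 0 < ε) (hε' : 0 < ε') :
    ∃ T Z e e', Dec K ε f T Z e ∧ Dec K ε g T Z e' ∧ ∀ x ∈ K,
      ENNReal.ofReal (cost T (e 0) g x) + ENNReal.ofReal (cost T (e' 0) f x) ≤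
        (∫⁻ s, ENNReal.ofReal (f x s * g x s)) + ENNReal.ofReal ε' := by
  obtain ⟨S, hS, h1, h2⟩ : ∃ S : ℝ, 0 < S ∧ ε⁻¹ ≤ S ∧ 4 * C ^ 2 ≤ S * ε' :=
    ⟨ε⁻¹ + 4 * C ^ 2 / ε', by positivity, le_add_of_nonneg_right (by positivity), by
      rw [add_mul, div_mul_cancel₀ _ hε'.ne']
      exact le_add_of_nonneg_left (by positivity)⟩
  obtain ⟨η, hη, h3, h4⟩ : ∃ η : ℝ, 0 < η ∧ 2 * η ≤ ε ∧ η * (16 * S * (|C| + 1)) ≤ ε' :=
    ⟨min (ε / 2) (ε' / (16 * S * (|C| + 1))), by positivity,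
      (le_div_iff₀' two_pos).1 (min_le_left _ _), (le_div_iff₀ (by positivity)).1 (min_le_right _ _)⟩
  obtain ⟨δ, d1, d2⟩ := gpLow_gr (S := S) hK cf f0 fC hη
  obtain ⟨δ', d3, d4⟩ := gpLow_gr (S := S) hK cg g0 gC hη
  obtain ⟨N, hN⟩ := exists_nat_gt (2 * S / min δ δ')
  have h5 : (0 : ℝ) < N := lt_trans (by positivity) hN
  have h6 : 2 * S / N ≤ min δ δ' := by
    rw [div_lt_iff₀ (lt_min d1 d3)] at hN
    rw [div_le_iff₀ h5, mul_comm (min δ δ')]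
    exact hN.le
  obtain ⟨T, Z, e, e', k1, k2, k3⟩ := grid_pair (Nat.cast_pos.1 h5) hS hη.le h3 h1
    (d2 N (h6.trans (min_le_left _ _))) (d4 N (h6.trans (min_le_right _ _)))
  refine ⟨T, Z, e, e', k1, k2, fun x hx => (k3 x hx).trans ?_⟩
  have h7 : S * (|C| / √(1 + S ^ 2)) ^ 2 ≤ ε' / 4 := by
    rw [div_pow, sq_abs, Real.sq_sqrt (by positivity), ← mul_div_assoc,
      div_le_iff₀ (by positivity)]
    nlinarith [mul_le_mul_of_nonneg_left h2 hS.le]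
  have h8 : S * (8 * η * |C| + 2 * (|C| / √(1 + S ^ 2)) ^ 2) ≤ ε' := by
    nlinarith [mul_pos hS hη]
  exact add_le_add_right (ENNReal.ofReal_le_ofReal h8) _

variable {T : Finset (ℝ × ℝ)} {e : ℝ × ℝ → ℝ} {Z : Set ℝ}

theorem gpLow_le (ne : ∀ τ ∈ T, τ.1 ≠ τ.2) (nn : ∀ τ, 0 ≤ e τ) {τ : ℝ × ℝ} (hτ : τ ∈ T) (s : ℝ) :
    e τ * tri τ 1 s ≤ st T e s :=
  Finset.single_le_sum (f := fun τ => e τ * tri τ 1 s)
    (fun σ hσ => mul_nonneg (nn σ) (tri_mem (ne σ hσ) le_rfl s).1) hτ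

theorem coef_le (ne : ∀ τ ∈ T, τ.1 ≠ τ.2) (nn : ∀ τ, 0 ≤ e τ) (hZ : Z.Countable) {B : ℝ}
    (h : ∀ s ∉ Z, st T e s ≤ B) {τ : ℝ × ℝ} (hτ : τ ∈ T) : e τ ≤ 2 * B := by
  obtain ⟨s, h1, h2⟩ : ∃ s ∉ Z, 1 / 2 ≤ tri τ 1 s := by
    rcases lt_or_gt_of_ne (ne τ hτ) with l | l
    · obtain ⟨s, h1, h2, h3⟩ := (hZ.dense_compl ℝ).exists_between
        (show τ.1 < (τ.1 + τ.2) / 2 by linarith)
      refine ⟨s, h1, ?_⟩
      rw [tri_one, if_pos ⟨min_le_of_left_le h2.le, le_max_of_le_right (by linarith)⟩, ell,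
        le_div_iff₀ (by linarith)]
      linarith
    · obtain ⟨s, h1, h2, h3⟩ := (hZ.dense_compl ℝ).exists_between
        (show (τ.1 + τ.2) / 2 < τ.1 by linarith)
      refine ⟨s, h1, ?_⟩
      rw [tri_one, if_pos ⟨min_le_of_right_le (by linarith), le_max_of_le_left h3.le⟩, ell,
        le_div_iff_of_neg (by linarith)]
      linarith
  nlinarith [(gpLow_le ne nn hτ s).trans (h s h1), nn τ]

theorem gpLow_cut (ne : ∀ τ ∈ T, τ.1 ≠ τ.2) (nn : ∀ τ, 0 ≤ e τ) (hZ : Z.Countable) {τ : ℝ × ℝ}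
    (hτ : τ ∈ T) (h0 : 0 < e τ) {a b : ℝ} (hab : a < b) (h : ∀ s ∉ Z, s ∈ Icc a b → st T e s ≤ 0)
    (h1 : min τ.1 τ.2 < b) (h2 : a < max τ.1 τ.2) : False := by
  obtain ⟨s, k1, k2, k3⟩ := (hZ.dense_compl ℝ).exists_between
    (show max (min τ.1 τ.2) a < min (max τ.1 τ.2) b from
      max_lt (lt_min (min_lt_max.2 (ne τ hτ)) h1) (lt_min h2 hab))
  rw [max_lt_iff] at k2
  rw [lt_min_iff] at k3
  refine absurd ((gpLow_le ne nn hτ s).trans (h s k1 ⟨k2.2.le, k3.2.le⟩))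
    (not_le.2 (mul_pos h0 ?_))
  rw [tri_one, if_pos ⟨k2.1.le, k3.1.le⟩, ell]
  rcases lt_or_gt_of_ne (ne τ hτ) with l | l
  · exact div_pos (sub_pos.2 (max_eq_right l.le ▸ k3.1)) (sub_pos.2 l)
  · exact div_pos_of_neg_of_neg (sub_neg.2 (min_eq_right l.le ▸ k2.1)) (sub_neg.2 l)

theorem gain_lower (ne : ∀ τ ∈ T, τ.1 ≠ τ.2) (nn : ∀ τ, 0 ≤ e τ) (hZ : Z.Countable)
    {s₀ δ R m κ : ℝ} (hs : 0 < s₀) (hδ : 0 < δ) (hR : s₀ + δ ≤ R) (hκ : 0 ≤ κ)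
    (h1 : ∀ s ∉ Z, s ∈ Icc (-s₀) (-s₀ + δ) ∨ s ∈ Icc R (R + 1) → st T e s ≤ 0)
    (h2 : ∀ s ∉ Z, s ∈ Icc s₀ (s₀ + δ) → m ≤ st T e s) {G : ℝ × ℝ → ℝ} (G0 : ∀ τ ∈ T, 0 ≤ G τ)
    (hG : ∀ τ ∈ T, |τ.1| ≤ R → |τ.2| ≤ R → δ / 2 ≤ cen τ → κ * ar τ ≤ G τ) :
    κ * m * δ / 2 ≤ ∑ τ ∈ T, e τ * G τ := by
  classical
  let c : ℝ × ℝ → ℝ := fun τ => if κ * ar τ ≤ G τ then e τ else 0
  have c0 : ∀ τ, 0 ≤ c τ := fun τ => by
    simp only [c]
    split_ifs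
    exacts [nn τ, le_rfl]
  have h3 : ∀ s ∉ Z, (Ioo s₀ (s₀ + δ)).indicator (fun _ => m) s ≤
      ∑ τ ∈ T, (Icc (min τ.1 τ.2) (max τ.1 τ.2)).indicator (fun _ => c τ) s := fun s hs' => by
    by_cases k : s ∈ Ioo s₀ (s₀ + δ)
    swap
    · rw [indicator_of_notMem k]
      exact Finset.sum_nonneg fun τ _ => indicator_nonneg (fun _ _ => c0 τ) s
    rw [indicator_of_mem k]
    refine (h2 s hs' (Ioo_subset_Icc_self k)).trans (Finset.sum_le_sum fun τ hτ => ?_)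
    by_cases k' : s ∈ Icc (min τ.1 τ.2) (max τ.1 τ.2)
    swap
    · rw [indicator_of_notMem k', tri_one, if_neg (mt mem_Icc.2 k'), mul_zero]
    rw [indicator_of_mem k']
    rcases (nn τ).eq_or_lt with k0 | k0
    · rw [← k0, zero_mul]
      exact c0 τ
    have k1 : -s₀ + δ ≤ min τ.1 τ.2 := not_lt.1 fun l => gpLow_cut ne nn hZ hτ k0
      (lt_add_of_pos_right _ hδ) (fun s a b => h1 s a (Or.inl b)) l (by linarith [k.1, k'.2])
    have k2 : max τ.1 τ.2 ≤ R := not_lt.1 fun l => gpLow_cut ne nn hZ hτ k0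
      (lt_add_one R) (fun s a b => h1 s a (Or.inr b)) (by linarith [k.2, k'.1]) l
    have k3 := min_add_max τ.1 τ.2
    have k4 := le_min_iff.1 k1
    have k5 := max_le_iff.1 k2
    simp only [c]
    rw [if_pos (hG τ hτ (abs_le.2 ⟨by linarith, k5.1⟩) (abs_le.2 ⟨by linarith, k5.2⟩)
      (by rw [cen]; linarith [k.1, k'.2]))]
    exact mul_le_of_le_one_right k0.le (tri_mem (ne τ hτ) le_rfl s).2.2
  have h4 : ∀ τ ∈ T, Integrable ((Icc (min τ.1 τ.2) (max τ.1 τ.2)).indicator fun _ => c τ) :=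
    fun τ _ => (integrable_indicator_iff measurableSet_Icc).2 (integrableOn_const (by simp))
  have h5 := integral_mono_ae ((integrable_indicator_iff measurableSet_Ioo).2
    (integrableOn_const (by simp))) (integrable_finsetSum T h4)
    (Filter.mem_of_superset (compl_mem_ae_iff.2 (hZ.measure_zero volume)) h3)
  rw [integral_finsetSum T h4, integral_indicator_const _ measurableSet_Ioo,
    Real.volume_real_Ioo_of_le (le_add_of_nonneg_right hδ.le), add_sub_cancel_left,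
    smul_eq_mul] at h5
  have h6 := mul_le_mul_of_nonneg_left h5 (half_pos one_pos).le
  refine le_trans (le_of_eq (by ring)) ((mul_le_mul_of_nonneg_left h6 hκ).trans ?_)
  rw [Finset.mul_sum, Finset.mul_sum]
  refine Finset.sum_le_sum fun τ hτ => ?_
  rw [integral_indicator_const _ measurableSet_Icc, Real.volume_real_Icc_of_le min_le_max,
    max_sub_min_eq_abs, smul_eq_mul]
  simp only [c]
  split_ifs with k
  · refine le_trans (le_of_eq ?_) (mul_le_mul_of_nonneg_left k (nn τ))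
    rw [ar]
    ring
  · simpa using mul_nonneg (nn τ) (G0 τ hτ)

end Pool.Agent.Lib.MP_0a1ca9_gt.Gp
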