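import Pool.Agent.Lib.MP_0a1ca9_gt.GpPer
import Pool.Agent.Lib.MP_0a1ca9_gt.GpLow

/-! The inequality for one Gaussian weight on a fibre. -/

open MeasureTheory Set Metric
open scoped ENNReal RealInnerProductSpace

namespace Pool.Agent.Lib.MP_0a1ca9_gt.Gp

instance gpFin {D : ℕ} (R : ℝ) : IsFiniteMeasure (volume.restrict (closedBall (0 : V D) R)) :=
  ⟨by rw [Measure.restrict_apply_univ]; exact measure_closedBall_lt_top⟩

theorem gpFibre_int {D : ℕ} {μ : Measure (V D)} [IsFiniteMeasure μ] {T : Finset (ℝ × ℝ)}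
    {h : ℝ × ℝ → V D → ℝ} (hF : Fam μ T h) (σ : ℝ) (z : V (D + 1)) :
    Integrable (fun a => ∑ τ ∈ T, h τ a * tri τ 1 ⟪yy σ a, z⟫) μ := by
  obtain ⟨C, hC⟩ := hF.bd
  refine integrable_finsetSum _ fun τ hτ => Integrable.of_bound ((hF.meas τ).mul
    ((measurable_tri τ 1).comp ((continuous_yy σ).inner continuous_const).measurable)
      ).aestronglyMeasurable C ?_
  filter_upwards [hC] with a ha
  obtain ⟨h1, -, h2⟩ := tri_mem (hF.ne τ hτ) le_rfl ⟪yy σ a, z⟫
  rw [Real.norm_of_nonneg (mul_nonneg (hF.nn τ a) h1)]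
  exact (mul_le_of_le_one_right (hF.nn τ a) h2).trans (ha τ hτ)

theorem gpFibre_st (T : Finset (ℝ × ℝ)) (e : ℝ × ℝ → ℝ) (c s : ℝ) :
    ∑ τ ∈ T, e τ / c * tri τ 1 s = st T e s / c := by
  rw [st, Finset.sum_div]
  exact Finset.sum_congr rfl fun τ _ => div_mul_eq_mul_div _ _ _

variable {D : ℕ} {σ i γ c β m M R ε' : ℝ} {W : V (D + 1) → ℝ} {f : V D → ℝ → ℝ}
  {T : Finset (ℝ × ℝ)} {Z : Set ℝ} {η : ℝ → ℝ × ℝ → V D → ℝ}
  (hF : Fib σ i γ c β m M W f) (hD : Dec (closedBall 0 R) ε' f T Z η)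
include hF hD

theorem Fib.fam : Fam (volume.restrict (closedBall 0 R)) T fun τ a => η 0 τ a / c := by
  obtain ⟨B, hB⟩ := hF.fb R
  refine ⟨hD.ne, fun τ => (hD.meas 0 τ).div_const c, fun τ a => div_nonneg (hD.nn _ _ _) hF.c0.le,
    2 * B / c, ?_⟩
  filter_upwards [ae_restrict_mem measurableSet_closedBall] with a ha τ hτ
  exact div_le_div_of_nonneg_right (coef_le hD.ne (fun τ => hD.nn 0 τ a) hD.cnt
    (fun s hs => (hD.up a ha s hs).trans (hB a (mem_closedBall_zero_iff.1 ha) s)) hτ) hF.c0.le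

theorem gpFibre_eq (z : V (D + 1)) : ENNReal.ofReal (WW (volume.restrict (closedBall 0 R)) (yy σ) T
    (fun τ a => η 0 τ a / c) 1 z * c) =
      ∫⁻ a in closedBall 0 R, ENNReal.ofReal (st T (fun τ => η 0 τ a) ⟪yy σ a, z⟫) := by
  have h := hF.fam hD
  rw [WW, ← integral_mul_const, ofReal_integral_eq_lintegral_ofReal
    ((gpFibre_int h σ z).mul_const c) (ae_of_all _ fun a => mul_nonneg (Finset.sum_nonneg
      fun τ hτ => mul_nonneg (h.nn τ a) (tri_mem (h.ne τ hτ) le_rfl _).1) hF.c0.le)]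
  simp only [gpFibre_st, div_mul_cancel₀ _ hF.c0.ne']

theorem Fib.WW_le : ∀ᵐ z, WW (volume.restrict (closedBall 0 R)) (yy σ) T
    (fun τ a => η 0 τ a / c) 1 z ≤ W z := by
  filter_upwards [ae_off hF.s2 hD.cnt] with z hz
  refine le_of_mul_le_mul_right ((ENNReal.ofReal_le_ofReal_iff
    (mul_pos (hF.toSz.pos z) hF.c0).le).1 ?_) hF.c0
  rw [gpFibre_eq hF hD, mul_comm, ← hF.eq]
  refine le_trans (lintegral_mono_ae ?_) (setLIntegral_le_lintegral (closedBall 0 R) _)
  filter_upwards [ae_restrict_mem measurableSet_closedBall, ae_restrict_of_ae hz] with a ha h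
  exact ENNReal.ofReal_le_ofReal (hD.up a ha _ h)

theorem Fib.LL_le : ∀ᵐ z, LL σ f R ε' z / ENNReal.ofReal c ≤ ENNReal.ofReal
    (WW (volume.restrict (closedBall 0 R)) (yy σ) T (fun τ a => η 0 τ a / c) 1 z) := by
  filter_upwards [ae_off hF.s2 hD.cnt] with z hz
  refine ENNReal.div_le_of_le_mul ?_
  rw [← ENNReal.ofReal_mul' hF.c0.le, gpFibre_eq hF hD]
  refine lintegral_mono_ae ?_
  filter_upwards [ae_restrict_mem measurableSet_closedBall, ae_restrict_of_ae hz] with a ha h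
  split_ifs with k
  · exact ENNReal.ofReal_le_ofReal (hD.lo a ha _ h k)
  · exact zero_le

theorem gpFibre_cmp {θ R₀ : ℝ} (hθ : 0 ≤ θ) {K : Set (V D)} (hK : MeasurableSet K)
    (hKR : K ⊆ closedBall 0 R)
    (h1 : ∀ a ∈ K, ∀ s, |s| ≤ jac a * R₀ → |s| ≤ ε'⁻¹ ∧ θ + ε' ≤ f a s) {h : ℝ × ℝ → V D → ℝ}
    (hh : Fam (volume.restrict (closedBall 0 R)) T h) (e1 : ∀ τ, ∀ a ∈ K, h τ a = η θ τ a / c)
    (e2 : ∀ τ, ∀ a ∉ K, h τ a = η 0 τ a / c) :
    ∀ᵐ z, WW (volume.restrict (closedBall 0 R)) (yy σ) T (fun τ a => η 0 τ a / c) 1 z ≤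
        θ * volume.real K / c + WW (volume.restrict (closedBall 0 R)) (yy σ) T h 1 z ∧
      WW (volume.restrict (closedBall 0 R)) (yy σ) T h 1 z ≤ W z ∧ (‖z‖ ≤ R₀ →
        θ * volume.real K / c + WW (volume.restrict (closedBall 0 R)) (yy σ) T h 1 z ≤ W z) := by
  have hc := hF.c0
  filter_upwards [ae_off hF.s2 hD.cnt, hF.WW_le hD] with z hz hW
  have i1 := gpFibre_int (hF.fam hD) σ z
  have i2 := gpFibre_int hh σ z
  have i3 : Integrable (K.indicator fun _ => θ / c) (volume.restrict (closedBall 0 R)) :=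
    (integrable_const _).indicator hK
  have e : θ * volume.real K / c + WW (volume.restrict (closedBall 0 R)) (yy σ) T h 1 z =
      ∫ a in closedBall 0 R, (K.indicator (fun _ => θ / c) a +
        ∑ τ ∈ T, h τ a * tri τ 1 ⟪yy σ a, z⟫) := by
    rw [integral_add i3 i2, integral_indicator_const _ hK, measureReal_restrict_apply hK,
      inter_eq_left.2 hKR, smul_eq_mul, WW]
    ring
  have k1 : ∀ a ∈ K, ⟪yy σ a, z⟫ ∉ Z → ∑ τ ∈ T, h τ a * tri τ 1 ⟪yy σ a, z⟫ =
      max (st T (fun τ => η 0 τ a) ⟪yy σ a, z⟫ - θ) 0 / c := fun a ha k => by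
    simp only [e1 _ a ha]
    rw [gpFibre_st, hD.thr θ hθ a _ k]
  refine ⟨?_, le_trans (integral_mono i2 i1 fun a => Finset.sum_le_sum fun τ hτ =>
    mul_le_mul_of_nonneg_right ?_ (tri_mem (hD.ne τ hτ) le_rfl _).1) hW, fun hz' => le_trans ?_ hW⟩
  · rw [e]
    refine integral_mono_ae i1 (i3.add i2) ?_
    filter_upwards [ae_restrict_of_ae hz] with a k
    by_cases ha : a ∈ K
    · rw [indicator_of_mem ha, k1 a ha k, gpFibre_st, ← add_div]
      exact div_le_div_of_nonneg_right (sub_le_iff_le_add'.1 (le_max_left _ _)) hc.le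
    · simp only [indicator_of_notMem ha, e2 _ a ha, zero_add, le_refl]
  · by_cases ha : a ∈ K
    · rw [e1 τ a ha]
      exact div_le_div_of_nonneg_right (hD.anti _ _ _ _ hθ) hc.le
    · rw [e2 τ a ha]
  · rw [e]
    refine integral_mono_ae (i3.add i2) i1 ?_
    filter_upwards [ae_restrict_of_ae hz] with a k
    by_cases ha : a ∈ K
    · obtain ⟨k2, k3⟩ := h1 a ha _ ((abs_inner_yy hF.s2 a z).trans
        (mul_le_mul_of_nonneg_left hz' (Real.sqrt_nonneg _)))
      have k4 := hD.lo a (hKR ha) _ k k2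
      rw [indicator_of_mem ha, k1 a ha k, gpFibre_st, ← add_div, max_eq_left (by linarith),
        add_sub_cancel]
    · simp only [indicator_of_notMem ha, e2 _ a ha, zero_add, le_refl]

theorem Fib.pl {l θ R₀ G ε : ℝ} (hl : 0 < l) (hθ : 0 ≤ θ) (hG : 0 ≤ G) (hε : 0 ≤ ε) {K : Set (V D)}
    (hK : MeasurableSet K) (hKR : K ⊆ closedBall 0 R)
    (h1 : ∀ a ∈ K, ∀ s, |s| ≤ jac a * R₀ → |s| ≤ ε'⁻¹ ∧ θ + ε' ≤ f a s)
    (h2 : ∀ a ∈ K, G ≤ ∑ τ ∈ T, η θ τ a * gn l a τ)
    (h3 : ∀ z, R₀ < ‖z‖ → (θ * volume.real K / c + W z) ^ i * gs l z ≤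
      W z ^ i * gs l z + ε * HH i γ β W z)
    (h4 : ∀ z, R₀ < ‖z‖ → 2 * l * ((θ * volume.real K / c + W z) ^ (i + 1) * ‖z‖ ^ 2 * gs l z) ≤
      2 * l * (W z ^ (i + 1) * ‖z‖ ^ 2 * gs l z) + ε * (W z * HH i γ β W z)) :
    PL σ i γ β W (volume.restrict (closedBall 0 R)) T (fun τ a => η 0 τ a / c) l
      ((i + 1) * (θ * volume.real K / c) ^ i * (G * volume.real K / c)) ε := by
  classical
  have hc := hF.c0
  have hi := hF.i0
  have hS := hF.toSz
  have h0 := hF.fam hD
  have hμ : ∀ᵐ a ∂volume.restrict (closedBall (0 : V D) R), ‖a‖ ≤ R :=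
    (ae_restrict_mem measurableSet_closedBall).mono fun a => mem_closedBall_zero_iff.1
  obtain ⟨h, e1, e2, hm⟩ : ∃ h : ℝ × ℝ → V D → ℝ, (∀ τ, ∀ a ∈ K, h τ a = η θ τ a / c) ∧
      (∀ τ, ∀ a ∉ K, h τ a = η 0 τ a / c) ∧ ∀ τ, Measurable (h τ) :=
    ⟨fun τ a => if a ∈ K then η θ τ a / c else η 0 τ a / c, fun _ _ ha => if_pos ha,
      fun _ _ ha => if_neg ha, fun τ => Measurable.ite hK ((hD.meas θ τ).div_const c) (h0.meas τ)⟩
  have le : ∀ τ a, 0 ≤ h τ a ∧ h τ a ≤ η 0 τ a / c := fun τ a => by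
    by_cases ha : a ∈ K
    · rw [e1 τ a ha]
      exact ⟨div_nonneg (hD.nn _ _ _) hc.le, div_le_div_of_nonneg_right (hD.anti _ _ _ _ hθ) hc.le⟩
    · rw [e2 τ a ha]
      exact ⟨h0.nn τ a, le_rfl⟩
  have hh : Fam (volume.restrict (closedBall 0 R)) T h := ⟨hD.ne, hm, fun τ a => (le τ a).1,
    h0.bd.imp fun C hC => hC.mono fun a ha τ hτ => (le τ a).2.trans (ha τ hτ)⟩
  have cmp := gpFibre_cmp hF hD hθ hK hKR h1 hh e1 e2
  have hw : 0 ≤ θ * volume.real K / c := by positivity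
  have hg : 0 ≤ G * volume.real K / c := by positivity
  have hy := (continuous_yy (D := D) σ).measurable
  obtain ⟨B, hB⟩ := hh.WW_mem hy
  obtain ⟨B₀, hB₀⟩ := h0.WW_mem hy
  have m1 := hh.measurable_WW hy 1
  have m0 := h0.measurable_WW hy 1
  obtain ⟨C, hC⟩ := tm_gs D hl
  have bd : ∀ q : ℝ, 0 ≤ q → Continuous (fun z => W z ^ q) ∧ ∀ z, |W z ^ q| ≤ M ^ q :=
    fun q hq => ⟨hS.cW.rpow_const fun _ => Or.inr hq, fun z => by
      rw [abs_of_nonneg (Real.rpow_nonneg (hS.pos z).le q)]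
      exact Real.rpow_le_rpow (hS.pos z).le (hS.le z) hq⟩
  have t1 := hC.mul (bd i hi.le).1 (bd i hi.le).2
  have t2 := hS.tm.mul (continuous_const (y := ε)) fun _ => le_rfl
  have t3 := (t1.add t2).mul (continuous_const (y := i + 1)) fun _ => le_rfl
  have t4 := (hS.tm.mul hS.cW fun z => (abs_of_pos (hS.pos z)).trans_le (hS.le z)).integrable
  have Gi : Integrable (K.indicator fun _ => G / c) (volume.restrict (closedBall 0 R)) :=
    (integrable_const _).indicator hK
  have key := per_l hF.s2 hμ hh hl hi hS.iD hw t3 (cmp.mono fun z hz => by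
    have n1 := (hB 1 le_rfl z).1
    have n2 := gs_pos l z
    have n3 := hS.HH_pos z
    rw [mul_assoc]
    refine mul_le_mul_of_nonneg_left ?_ (by positivity)
    rcases le_or_gt ‖z‖ R₀ with k | k
    · refine le_add_of_le_of_nonneg ?_ (by positivity)
      gcongr
      exact hz.2.2 k
    · refine le_trans ?_ (h3 z k)
      gcongr
      exact hz.2.1) Gi (ae_of_all _ fun a => by
    by_cases ha : a ∈ K
    · simp only [indicator_of_mem ha, e1 _ a ha, div_mul_eq_mul_div, ← Finset.sum_div]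
      exact div_le_div_of_nonneg_right (h2 a ha) hc.le
    · rw [indicator_of_notMem ha]
      exact Finset.sum_nonneg fun τ _ => mul_nonneg (le τ a).1 (gn_nonneg hl a τ))
  rw [integral_indicator_const _ hK, measureReal_restrict_apply hK, inter_eq_left.2 hKR,
    smul_eq_mul, ← mul_div_assoc, mul_comm _ G] at key
  generalize θ * volume.real K / c = w at *
  generalize G * volume.real K / c = g at *
  have j0 : Integrable fun z => gs l z *
      (w + WW (volume.restrict (closedBall 0 R)) (yy σ) T h 1 z) ^ (i + 1) := by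
    refine (integrable_gs _ hl).mul_bdd (c := (w + B) ^ (i + 1))
      ((m1.const_add w).pow_const _).aestronglyMeasurable (ae_of_all _ fun z => ?_)
    obtain ⟨n1, -, n2⟩ := hB 1 le_rfl z
    rw [Real.norm_of_nonneg (by positivity)]
    gcongr
  have n0 : ∀ z, 0 ≤ WW (volume.restrict (closedBall 0 R)) (yy σ) T (fun τ a => η 0 τ a / c) 1 z ^
      (i + 1) * gs l z := fun z =>
    mul_nonneg (Real.rpow_nonneg (hB₀ 1 le_rfl z).1 _) (gs_pos l z).le
  have l0 : ∀ᵐ z, WW (volume.restrict (closedBall 0 R)) (yy σ) T (fun τ a => η 0 τ a / c) 1 z ^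
      (i + 1) * gs l z ≤ gs l z *
        (w + WW (volume.restrict (closedBall 0 R)) (yy σ) T h 1 z) ^ (i + 1) :=
    cmp.mono fun z hz => by
      rw [mul_comm]
      exact mul_le_mul_of_nonneg_left (Real.rpow_le_rpow (hB₀ 1 le_rfl z).1 hz.1 (by positivity))
        (gs_pos l z).le
  have j1 := j0.mono' ((m0.pow_const _).aestronglyMeasurable.fun_mul
    (integrable_gs _ hl).aestronglyMeasurable) (l0.mono fun z hz =>
      (Real.norm_of_nonneg (n0 z)).trans_le hz)
  have j2 : Integrable fun z => W z ^ (i + 1) * ‖z‖ ^ 2 * gs l z := by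
    refine ((integrable_gs_sq _ hl).bdd_mul (bd (i + 1) (by positivity)).1.aestronglyMeasurable
      (ae_of_all _ (bd (i + 1) (by positivity)).2)).congr (ae_of_all _ fun z => ?_)
    ring
  have n2 : ∀ z, 0 ≤ W z ^ (i + 1) * ‖z‖ ^ 2 * gs l z := fun z =>
    mul_nonneg (mul_nonneg (Real.rpow_nonneg (hS.pos z).le _) (sq_nonneg _)) (gs_pos l z).le
  have n3 : ∀ z, 0 ≤ W z * HH i γ β W z := fun z => (mul_pos (hS.pos z) (hS.HH_pos z)).le
  have g1 : ∀ a s, 0 ≤ mg σ (fun z => W z ^ i * gs l z) a s := fun a s =>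
    integral_nonneg fun z => mul_nonneg (Real.rpow_nonneg (hS.pos _).le _) (gs_pos l _).le
  have g2 : ∀ a s, 0 ≤ mg σ (HH i γ β W) a s := fun a s =>
    integral_nonneg fun z => (hS.HH_pos _).le
  have n4 : ∀ {g : V D → ℝ → ℝ}, (∀ a s, 0 ≤ g a s) →
      ∀ a, 0 ≤ cost T (fun τ a => η 0 τ a / c) g a := fun hg a =>
    Finset.sum_nonneg fun τ _ => mul_nonneg (h0.nn τ a) (mul_nonneg (ar_nonneg τ) (hg _ _))
  have c1 := integrable_cost hF.s2 hμ h0 t1
  have c2 := integrable_cost hF.s2 hμ h0 hS.tm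
  have s1 := integral_mono (integrable_cost hF.s2 hμ hh t3)
    ((c1.const_mul (i + 1)).add ((c2.const_mul (i + 1)).const_mul ε)) fun a => by
      simp only [cost, Pi.add_apply, Finset.mul_sum, ← Finset.sum_add_distrib]
      refine Finset.sum_le_sum fun τ _ => ?_
      have e : mg σ (fun z => (i + 1) * (W z ^ i * gs l z + ε * HH i γ β W z)) a τ.1 = (i + 1) *
          (mg σ (fun z => W z ^ i * gs l z) a τ.1 + ε * mg σ (HH i γ β W) a τ.1) := by
        rw [mg, integral_const_mul, integral_add (t1.slice σ a _) (t2.slice σ a _),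
          integral_const_mul, mg, mg]
      have := g1 a τ.1
      have := g2 a τ.1
      have := ar_nonneg τ
      rw [e]
      refine (mul_le_mul_of_nonneg_right (le τ a).2 (by positivity)).trans_eq (by ring)
  have s2 := integral_mono_of_nonneg (f := fun z => 2 * l * (gs l z * ‖z‖ ^ 2 *
    (w + WW (volume.restrict (closedBall 0 R)) (yy σ) T h 1 z) ^ (i + 1))) (ae_of_all _ fun z => by
      have := (hB 1 le_rfl z).1
      have := gs_pos l z
      positivity) ((j2.const_mul (2 * l)).add (t4.const_mul ε)) (cmp.mono fun z hz => by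
    have n1 := (hB 1 le_rfl z).1
    have n2 := gs_pos l z
    have n3 := n3 z
    beta_reduce
    rw [Pi.add_apply, mul_comm (_ * _ ^ 2), mul_comm (gs l z), ← mul_assoc (_ ^ (i + 1))]
    rcases le_or_gt ‖z‖ R₀ with k | k
    · refine le_add_of_le_of_nonneg ?_ (by positivity)
      gcongr
      exact hz.2.2 k
    · refine le_trans ?_ (h4 z k)
      gcongr
      exact hz.2.1)
  have s0 := integral_mono_ae j1 j0 l0
  rw [integral_add' (c1.const_mul _) ((c2.const_mul _).const_mul _), integral_const_mul,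
    integral_const_mul, integral_const_mul] at s1
  rw [integral_add' (j2.const_mul _) (t4.const_mul _), integral_const_mul, integral_const_mul,
    integral_const_mul] at s2
  have p0 := integral_nonneg_of_ae (ae_of_all volume n0)
  have p1 := integral_nonneg_of_ae (ae_of_all (volume.restrict (closedBall 0 R)) (n4 g1))
  have p2 := integral_nonneg_of_ae (ae_of_all (volume.restrict (closedBall 0 R)) (n4 g2))
  have p3 := integral_nonneg_of_ae (ae_of_all volume n2)
  have p4 := integral_nonneg_of_ae (ae_of_all volume n3)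
  rw [PL, II, ← ofReal_integral_eq_lintegral_ofReal j1 (ae_of_all _ n0),
    ← ofReal_integral_eq_lintegral_ofReal c1 (ae_of_all _ (n4 g1)),
    ← ofReal_integral_eq_lintegral_ofReal c2 (ae_of_all _ (n4 g2)),
    ← ofReal_integral_eq_lintegral_ofReal j2 (ae_of_all _ n2),
    ← ofReal_integral_eq_lintegral_ofReal t4 (ae_of_all _ n3),
    ← ENNReal.ofReal_mul (by positivity), ← ENNReal.ofReal_mul (by positivity),
    ← ENNReal.ofReal_mul (by positivity), ← ENNReal.ofReal_mul (by positivity),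
    ← ENNReal.ofReal_add (by positivity) (by positivity),
    ← ENNReal.ofReal_add (by positivity) (by positivity),
    ← ENNReal.ofReal_add (by positivity) (by positivity), ← ENNReal.ofReal_mul hε,
    ← ENNReal.ofReal_add (by positivity) (by positivity)]
  refine ENNReal.ofReal_le_ofReal ?_
  have := mul_le_mul_of_nonneg_left s0 (by positivity : (0 : ℝ) ≤ D + 1)
  linarith

theorem Fib.pl0 {l : ℝ} (hl : 0 < l) :
    PL σ i γ β W (volume.restrict (closedBall 0 R)) T (fun τ a => η 0 τ a / c) l 0 0 := by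
  have := hF.pl hD (θ := 0) (R₀ := 0) (G := 0) hl le_rfl le_rfl le_rfl MeasurableSet.empty
    (empty_subset _) (by simp) (by simp) (by simp) (by simp)
  simpa using this

end Pool.Agent.Lib.MP_0a1ca9_gt.Gp
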