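import Pool.Agent.Lib.MP_0a1ca9_gt.GpExp
import Pool.Agent.Lib.MP_0a1ca9_gt.GpBern

/-! The monotonicity for finitely many smooth triangles. -/

open MeasureTheory Set Filter Topology
open scoped RealInnerProductSpace

namespace Pool.Agent.Lib.MP_0a1ca9_gt.Gp

open Cd

/-- Positive convex approximations of the identity on the positive half line. -/
noncomputable def om (n : ℕ) (ξ : ℝ) : ℝ :=
  (n + 1) * (Real.exp (ξ / (n + 1)) - 1) + Real.exp (-((n + 1) * ξ)) / (n + 1)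

/-- Smooth triangles. -/
noncomputable def sm (n m : ℕ) (τ : ℝ × ℝ) (t x : ℝ) : ℝ :=
  om n (ell τ x) * pf (m ^ 2) ⌊Real.exp (m ^ 2 * ar τ ^ 2 + m)⌋₊ (t ^ 2 * (x - cen τ) ^ 2)

theorem om_pos (n : ℕ) (ξ : ℝ) : 0 < om n ξ := by
  have hN : (0 : ℝ) < n + 1 := by positivity
  have h1 := mul_le_mul_of_nonneg_left (Real.add_one_le_exp (ξ / (n + 1))) hN.le
  have h2 := div_le_div_of_nonneg_right (Real.add_one_le_exp (-((n + 1) * ξ))) hN.le
  have h3 : ((n : ℝ) + 1) * (ξ / (n + 1) + 1) = ξ + (n + 1) := by field_simp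
  have h4 : (-(((n : ℝ) + 1) * ξ) + 1) / (n + 1) = -ξ + 1 / (n + 1) := by field_simp
  have h5 : (0 : ℝ) < 1 / (n + 1) := by positivity
  unfold om
  linarith

theorem om_le (n : ℕ) {ξ : ℝ} (h0 : 0 ≤ ξ) (h1 : ξ ≤ 1) : om n ξ ≤ 3 := by
  have hN : (1 : ℝ) ≤ n + 1 := by simp
  have hN0 : (0 : ℝ) < n + 1 := by positivity
  have h2 : 0 ≤ ξ / (n + 1) := by positivity
  have h3 := Real.abs_exp_sub_one_le (x := ξ / (n + 1))
    (by rw [abs_of_nonneg h2, div_le_one hN0]; linarith)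
  rw [abs_of_nonneg h2] at h3
  have h4 := mul_le_mul_of_nonneg_left ((le_abs_self _).trans h3) hN0.le
  have h5 : ((n : ℝ) + 1) * (2 * (ξ / (n + 1))) = 2 * ξ := by field_simp
  have h6 : Real.exp (-((n + 1) * ξ)) / (n + 1) ≤ 1 := by
    rw [div_le_one hN0]
    exact (Real.exp_le_one_iff.2 (neg_nonpos.2 (by positivity))).trans hN
  unfold om
  linarith

theorem tendsto_om {ξ : ℝ} (h0 : 0 ≤ ξ) : Tendsto (fun n => om n ξ) atTop (𝓝 ξ) := by
  have hN : Tendsto (fun n : ℕ => (n : ℝ) + 1) atTop atTop :=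
    tendsto_atTop_add_const_right _ _ tendsto_natCast_atTop_atTop
  have h1 : Tendsto (fun n : ℕ => ξ + (ξ ^ 2 + 1) / ((n : ℝ) + 1)) atTop (𝓝 ξ) := by
    simpa using (hN.const_div_atTop (ξ ^ 2 + 1)).const_add ξ
  refine tendsto_of_tendsto_of_tendsto_of_le_of_le' tendsto_const_nhds h1
    (Eventually.of_forall fun n => ?_) ?_
  · have hN0 : (0 : ℝ) < n + 1 := by positivity
    have h2 := mul_le_mul_of_nonneg_left (Real.add_one_le_exp (ξ / (n + 1))) hN0.le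
    have h3 : ((n : ℝ) + 1) * (ξ / (n + 1) + 1) = ξ + (n + 1) := by field_simp
    have h4 : 0 ≤ Real.exp (-((n + 1) * ξ)) / (n + 1) := by positivity
    unfold om
    linarith
  · filter_upwards [hN.eventually_ge_atTop ξ] with n hn
    have hN0 : (0 : ℝ) < n + 1 := by positivity
    have h2 : 0 ≤ ξ / (n + 1) := by positivity
    have h3 := Real.abs_exp_sub_one_sub_id_le (x := ξ / (n + 1))
      (by rw [abs_of_nonneg h2, div_le_one hN0]; exact hn)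
    have h4 := mul_le_mul_of_nonneg_left ((le_abs_self _).trans h3) hN0.le
    have h5 : ((n : ℝ) + 1) * (ξ / (n + 1)) ^ 2 = ξ ^ 2 / (n + 1) := by field_simp
    have h6 : ((n : ℝ) + 1) * (ξ / (n + 1)) = ξ := by field_simp
    have h7 : Real.exp (-((n + 1) * ξ)) / (n + 1) ≤ 1 / (n + 1) :=
      div_le_div_of_nonneg_right (Real.exp_le_one_iff.2 (neg_nonpos.2 (by positivity))) hN0.le
    rw [add_div]
    unfold om
    linarith

theorem continuous_sm (n m : ℕ) (τ : ℝ × ℝ) (t : ℝ) : Continuous (sm n m τ t) := by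
  unfold sm om pf ell
  fun_prop

theorem sm_nonneg (n m : ℕ) (τ : ℝ × ℝ) (t x : ℝ) : 0 ≤ sm n m τ t x := by
  exact mul_nonneg (om_pos _ _).le (CdFin_mem (by positivity) _).1

theorem gpFin_om (n : ℕ) (ξ : ℝ) : om n ξ ≤ (n + 2) * Real.exp ((n + 1) * |ξ|) := by
  have hN : (1 : ℝ) ≤ n + 1 := by simp
  have hN0 : (0 : ℝ) < n + 1 := by positivity
  have h0 : |ξ| ≤ (n + 1) * |ξ| := le_mul_of_one_le_left (abs_nonneg _) hN
  have h1 : Real.exp (ξ / (n + 1)) ≤ Real.exp ((n + 1) * |ξ|) := Real.exp_le_exp.2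
    ((div_le_div_of_nonneg_right (le_abs_self ξ) hN0.le).trans
      ((div_le_self (abs_nonneg _) hN).trans h0))
  have h2 : Real.exp (-((n + 1) * ξ)) / (n + 1) ≤ Real.exp ((n + 1) * |ξ|) :=
    (div_le_self (Real.exp_pos _).le hN).trans (Real.exp_le_exp.2 (by
      nlinarith [neg_abs_le ξ]))
  have h3 := mul_le_mul_of_nonneg_left h1 hN0.le
  unfold om
  linarith

theorem gpFin_pf {m : ℕ} (hm : 1 ≤ m) (R : ℝ) {s : ℝ} (hs : 0 ≤ s) :
    pf (m ^ 2) ⌊Real.exp (m ^ 2 * R + m)⌋₊ s ≤ Real.exp (R + 1 - s) := by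
  rcases le_total s (R + 1) with h | h
  · exact (CdFin_mem (by positivity) _).2.trans (Real.one_le_exp (by linarith))
  · have hm' : (1 : ℝ) ≤ m := by exact_mod_cast hm
    have hx : Real.exp (-((m : ℝ) ^ 2 * s)) ≤ 1 :=
      Real.exp_le_one_iff.2 (neg_nonpos.2 (by positivity))
    have h2 := one_add_mul_le_pow (a := -Real.exp (-((m : ℝ) ^ 2 * s))) (by linarith)
      ⌊Real.exp (m ^ 2 * R + m)⌋₊
    have h3 := mul_le_mul_of_nonneg_right (Nat.floor_le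
      (Real.exp_pos ((m : ℝ) ^ 2 * R + m)).le) (Real.exp_pos (-((m : ℝ) ^ 2 * s))).le
    rw [← Real.exp_add] at h3
    have h5 : 0 ≤ ((m : ℝ) ^ 2 - 1) * (s - R - 1) := mul_nonneg (by nlinarith) (by linarith)
    have h4 : Real.exp ((m : ℝ) ^ 2 * R + m + -((m : ℝ) ^ 2 * s)) ≤ Real.exp (R + 1 - s) :=
      Real.exp_le_exp.2 (by nlinarith)
    rw [← sub_eq_add_neg] at h2
    unfold pf
    linarith

theorem om_pf_le (n : ℕ) (τ : ℝ × ℝ) : ∃ C, ∀ m : ℕ, 1 ≤ m → ∀ s x : ℝ, (x - cen τ) ^ 2 ≤ s →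
    om n (ell τ x) * pf (m ^ 2) ⌊Real.exp (m ^ 2 * ar τ ^ 2 + m)⌋₊ s ≤ C := by
  refine ⟨(n + 2) * Real.exp ((n + 1) * |(τ.2 - cen τ) / (τ.2 - τ.1)| +
    ((n + 1) * |(τ.2 - τ.1)⁻¹|) ^ 2 + (ar τ ^ 2 + 1)), fun m hm s x hs => ?_⟩
  have hs0 : 0 ≤ s := (sq_nonneg _).trans hs
  have h1 : |ell τ x| ≤ |(τ.2 - cen τ) / (τ.2 - τ.1)| + |(τ.2 - τ.1)⁻¹| * |x - cen τ| := by
    rw [← abs_mul]
    refine le_trans (le_of_eq ?_) (abs_sub _ _)
    congr 1
    unfold ell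
    ring
  have h2 : ((n : ℝ) + 1) * |ell τ x| ≤ (n + 1) * |(τ.2 - cen τ) / (τ.2 - τ.1)| +
      ((n + 1) * |(τ.2 - τ.1)⁻¹|) ^ 2 + s := by
    have h3 := mul_le_mul_of_nonneg_left h1 (show (0 : ℝ) ≤ n + 1 by positivity)
    have h4 : 0 ≤ ((n : ℝ) + 1) * |(τ.2 - τ.1)⁻¹| * |x - cen τ| := by positivity
    rw [← sq_abs] at hs
    nlinarith [sq_nonneg (((n : ℝ) + 1) * |(τ.2 - τ.1)⁻¹| - |x - cen τ|)]
  refine (mul_le_mul (gpFin_om n _) (gpFin_pf hm _ hs0) (CdFin_mem (by positivity) _).1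
    (by positivity)).trans ?_
  rw [mul_assoc, ← Real.exp_add]
  exact mul_le_mul_of_nonneg_left (Real.exp_le_exp.2 (by linarith)) (by positivity)

theorem tendsto_sm (n : ℕ) (τ : ℝ × ℝ) (t x : ℝ) : Tendsto (fun m => sm n m τ t x) atTop
    (𝓝 (if t ^ 2 * (x - cen τ) ^ 2 ≤ ar τ ^ 2 then om n (ell τ x) else 0)) := by
  have h := (tendsto_pf (s := t ^ 2 * (x - cen τ) ^ 2) (by positivity) (ar τ ^ 2)).const_mul
    (om n (ell τ x))
  simpa only [sm, mul_ite, mul_one, mul_zero] using h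

theorem gpFin_d0 (τ : ℝ × ℝ) (x : ℝ) : HasDerivAt (ell τ) (-1 / (τ.2 - τ.1)) x :=
  ((hasDerivAt_id x).const_sub τ.2).div_const _

theorem gpFin_d1 (n : ℕ) (τ : ℝ × ℝ) (x : ℝ) : HasDerivAt (fun x => om n (ell τ x))
    ((Real.exp (ell τ x / (n + 1)) - Real.exp (-((n + 1) * ell τ x))) * (-1 / (τ.2 - τ.1))) x := by
  have hN0 : (n : ℝ) + 1 ≠ 0 := by positivity
  have h := (((((gpFin_d0 τ x).div_const ((n : ℝ) + 1)).exp).sub_const 1).const_mul
    ((n : ℝ) + 1)).add ((((gpFin_d0 τ x).const_mul ((n : ℝ) + 1)).neg.exp).div_const ((n : ℝ) + 1))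
  refine HasDerivAt.congr_deriv h ?_
  simp only [Pi.neg_apply]
  generalize -1 / (τ.2 - τ.1) = β
  field_simp
  ring

theorem gpFin_d2 (n : ℕ) (τ : ℝ × ℝ) (x : ℝ) : HasDerivAt (fun x =>
    (Real.exp (ell τ x / (n + 1)) - Real.exp (-((n + 1) * ell τ x))) * (-1 / (τ.2 - τ.1)))
    ((Real.exp (ell τ x / (n + 1)) / (n + 1) + (n + 1) * Real.exp (-((n + 1) * ell τ x))) *
      (-1 / (τ.2 - τ.1)) ^ 2) x := by
  have h := ((((gpFin_d0 τ x).div_const ((n : ℝ) + 1)).exp).sub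
    (((gpFin_d0 τ x).const_mul ((n : ℝ) + 1)).neg.exp)).mul_const (-1 / (τ.2 - τ.1))
  refine HasDerivAt.congr_deriv h ?_
  simp only [Pi.neg_apply]
  ring

theorem gpFin_d3 (a : ℝ) (b : ℕ) (s : ℝ) : HasDerivAt (pf a b)
    (-(b * (1 - Real.exp (-(a * s))) ^ (b - 1) * (Real.exp (-(a * s)) * a))) s := by
  have h := ((((((hasDerivAt_id s).const_mul a).neg.exp).const_sub 1).pow b).const_sub 1)
  refine HasDerivAt.congr_deriv h ?_
  simp only [Pi.neg_apply, id]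
  ring

theorem gpFin_ES {J : Type*} [Fintype J] (j : J) (w : ℝ) (n : ℕ) (τ : ℝ × ℝ) {a : ℝ} (ha : 0 ≤ a)
    (b : ℕ) : ES fun s x : J → ℝ => w * om n (ell τ (x j)) * pf a b (s j) := by
  have h := ((ES.const w).mul (((ES.const ((n : ℝ) + 1)).mul
    (((ES.const (Real.exp (τ.2 / (τ.2 - τ.1) / (n + 1)))).mul
      (ES.exp_x j (-1 / (τ.2 - τ.1) / (n + 1)))).add (ES.const (-1)))).add
    ((ES.const (Real.exp (-((n + 1) * (τ.2 / (τ.2 - τ.1)))) / (n + 1))).mul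
      (ES.exp_x j ((n + 1) / (τ.2 - τ.1)))))).mul
    ((ES.const 1).add ((ES.const (-1)).mul
      (((ES.const 1).add ((ES.const (-1)).mul (ES.exp_s j ha))).pow b)))
  convert h using 3 with s x
  have e1 : ell τ (x j) / (n + 1) =
      τ.2 / (τ.2 - τ.1) / (n + 1) + -1 / (τ.2 - τ.1) / (n + 1) * x j := by
    unfold ell
    ring
  have e2 : -((n + 1) * ell τ (x j)) =
      -((n + 1) * (τ.2 / (τ.2 - τ.1))) + (n + 1) / (τ.2 - τ.1) * x j := by
    unfold ell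
    ring
  unfold om pf
  rw [e1, e2, Real.exp_add, Real.exp_add, neg_one_mul, neg_one_mul, ← sub_eq_add_neg,
    ← sub_eq_add_neg, ← sub_eq_add_neg]
  ring

theorem gpFin_int {d : ℕ} {l : ℝ} (hl : 0 < l) {F : V d → ℝ} (hF : Continuous F) {M : ℝ}
    (h : ∀ z, F z ∈ Icc 0 M) {G : ℝ → ℝ} (hG : ContinuousOn G (Ici 0)) :
    Integrable fun z => gs l z * G (F z) := by
  obtain ⟨C, hC⟩ := isCompact_Icc.exists_bound_of_continuousOn
    (hG.mono (Icc_subset_Ici_self (a := M)))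
  refine ((integrable_gauss d hl).mul_const C).mono' (Continuous.aestronglyMeasurable
    (Continuous.mul (by unfold gs; fun_prop) (hG.comp_continuous hF fun z => (h z).1)))
    (Eventually.of_forall fun z => ?_)
  rw [norm_mul, Real.norm_of_nonneg (gs_pos l z).le]
  exact mul_le_mul_of_nonneg_left (hC _ (h z)) (gs_pos l z).le

theorem gpFin_app {d : ℕ} {l : ℝ} (hl : 0 < l) {F : V d → ℝ} (hF : Continuous F) {M : ℝ}
    (h : ∀ z, F z ∈ Icc 0 M) {G H : ℝ → ℝ} (hG : ContinuousOn G (Ici 0))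
    (hH : ContinuousOn H (Ici 0)) {ε : ℝ} (hε : ∀ x ∈ Icc 0 M, G x ≤ H x + ε) :
    ∫ z, gs l z * G (F z) ≤ (∫ z, gs l z * H (F z)) + ε * ∫ z : V d, gs l z := by
  have h1 : Integrable fun z : V d => ε * gs l z := (integrable_gauss d hl).const_mul ε
  rw [← integral_const_mul, ← integral_add (gpFin_int hl hF h hH) h1]
  refine integral_mono (gpFin_int hl hF h hG) ((gpFin_int hl hF h hH).add h1) fun z => ?_
  have h2 := mul_le_mul_of_nonneg_left (hε _ (h z)) (gs_pos l z).le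
  simp only
  linarith

theorem gpFin_eps {a b K : ℝ} (h : ∀ ε, 0 < ε → a ≤ b + ε * K) : a ≤ b := by
  have h1 : Tendsto (fun ε : ℝ => b + ε * K) (𝓝[>] 0) (𝓝 (b + 0 * K)) :=
    (Continuous.tendsto (by fun_prop) 0).mono_left nhdsWithin_le_nhds
  rw [zero_mul, add_zero] at h1
  exact ge_of_tendsto h1 (eventually_nhdsWithin_of_forall h)

theorem fin_anti {d : ℕ} {J : Type*} [Fintype J] (y : J → V d) (τ : J → ℝ × ℝ) {w : J → ℝ}
    (hw : ∀ j, 0 ≤ w j) {l : ℝ} (hl : 0 < l) {G : ℝ → ℝ} (hG : Adm d G) (n : ℕ) {m : ℕ}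
    (hm : 1 ≤ m) {t : ℝ} (ht : 1 ≤ t) :
    t ^ d * ∫ z : V d, gs (l * t ^ 2) z * G (∑ j, w j * sm n m (τ j) t ⟪y j, z⟫) ≤
      ∫ z : V d, gs l z * G (∑ j, w j * sm n m (τ j) 1 ⟪y j, z⟫) := by
  choose C hC using fun j => om_pf_le n (τ j)
  have hM : 0 < |∑ j, w j * C j| + 1 := by positivity
  have hb : ∀ s x : J → ℝ, (∀ j, (x j - cen (τ j)) ^ 2 ≤ s j) →
      ∑ j, w j * om n (ell (τ j) (x j)) * pf (m ^ 2) ⌊Real.exp (m ^ 2 * ar (τ j) ^ 2 + m)⌋₊ (s j) ≤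
        |∑ j, w j * C j| + 1 := fun s x h =>
    (Finset.sum_le_sum fun j _ => (mul_assoc _ _ _).trans_le
      (mul_le_mul_of_nonneg_left (hC j m hm _ _ (h j)) (hw j))).trans
      ((le_abs_self _).trans (le_add_of_nonneg_right zero_le_one))
  have hmem : ∀ u : ℝ, 1 ≤ u → ∀ z : V d,
      ∑ j, w j * sm n m (τ j) u ⟪y j, z⟫ ∈ Icc 0 (|∑ j, w j * C j| + 1) := fun u hu z =>
    ⟨Finset.sum_nonneg fun j _ => mul_nonneg (hw j) (sm_nonneg _ _ _ _ _), by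
      simpa only [sm, mul_assoc] using hb (fun j => u ^ 2 * (⟪y j, z⟫ - cen (τ j)) ^ 2)
        (fun j => ⟪y j, z⟫) fun j => le_mul_of_one_le_left (sq_nonneg _) (one_le_pow₀ hu)⟩
  have hcont : ∀ u : ℝ, Continuous fun z : V d => ∑ j, w j * sm n m (τ j) u ⟪y j, z⟫ := fun u =>
    continuous_finsetSum _ fun j _ =>
      continuous_const.mul ((continuous_sm n m (τ j) u).comp (by fun_prop))
  have ht0 : 0 < t := by linarith
  refine gpFin_eps (K := t ^ d * (∫ z : V d, gs (l * t ^ 2) z) + ∫ z : V d, gs l z) fun ε hε => ?_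
  obtain ⟨P, hP, hPG⟩ := exists_poly hG hM hε
  have key := poly_anti y (fun j => cen (τ j)) hl P
    (ω := fun j x => w j * om n (ell (τ j) x))
    (φ := fun j => pf (m ^ 2) ⌊Real.exp (m ^ 2 * ar (τ j) ^ 2 + m)⌋₊)
    (fun j x => (gpFin_d1 n (τ j) x).const_mul (w j))
    (fun j x => (gpFin_d2 n (τ j) x).const_mul (w j))
    (fun j s => gpFin_d3 _ _ s) (fun j => gpFin_ES j (w j) n (τ j) (by positivity) _)
    (fun j x => mul_nonneg (hw j) (om_pos _ _).le) (fun j x => mul_nonneg (hw j) (by positivity))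
    (fun j s hs => (CdFin_mem (by positivity) _).1)
    (fun j s hs => neg_nonpos.2 (mul_nonneg (mul_nonneg (Nat.cast_nonneg _) (pow_nonneg
      (sub_nonneg.2 (Real.exp_le_one_iff.2 (neg_nonpos.2 (by positivity)))) _)) (by positivity)))
    hb hP ht
  have h1 := gpFin_app (l := l * t ^ 2) (by positivity) (hcont t) (hmem t ht) hG.1
    P.continuous.continuousOn (ε := ε) fun x hx => by linarith [(abs_le.1 (hPG x hx)).1]
  have h2 := gpFin_app hl (hcont 1) (hmem 1 le_rfl) P.continuous.continuousOn hG.1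
    (ε := ε) fun x hx => by linarith [(abs_le.1 (hPG x hx)).2]
  have h3 := mul_le_mul_of_nonneg_left h1 (pow_pos ht0 d).le
  simp only [sm, one_pow, one_mul, mul_assoc] at key h2 h3 ⊢
  linarith

end Pool.Agent.Lib.MP_0a1ca9_gt.Gp
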