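import Pool.Agent.Lib.MP_0a1ca9_gt.GpCont

/-! The first variation. -/

open MeasureTheory Set Filter Topology
open scoped RealInnerProductSpace

namespace Pool.Agent.Lib.MP_0a1ca9_gt.Gp

open Cd

variable {X : Type*} [MeasurableSpace X] {d : ℕ} {μ : Measure X} [IsFiniteMeasure μ]
  {y : X → V d} {T : Finset (ℝ × ℝ)} {h : ℝ × ℝ → X → ℝ}

theorem gpFirst_mtri (τ : ℝ × ℝ) (t : ℝ) (hy : Measurable y) :
    Measurable fun p : V d × X => tri τ t ⟪y p.2, p.1⟫ :=
  (measurable_tri τ t).comp ((hy.comp measurable_snd).inner measurable_fst)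

theorem gpFirst_int (hF : Fam μ T h) (hy : Measurable y) {t : ℝ} (ht : 1 ≤ t) (z : V d) :
    Integrable (fun a => ∑ τ ∈ T, h τ a * tri τ t ⟪y a, z⟫) μ := by
  obtain ⟨C, hC⟩ := hF.bd
  refine integrable_finsetSum _ fun τ hτ => Integrable.of_bound ((hF.meas τ).mul
    ((measurable_tri τ t).comp (hy.inner measurable_const))).aestronglyMeasurable C ?_
  filter_upwards [hC] with a ha
  obtain ⟨h1, h2, h3⟩ := tri_mem (hF.ne τ hτ) ht ⟪y a, z⟫
  rw [Real.norm_of_nonneg (mul_nonneg (hF.nn τ a) h1)]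
  exact (mul_le_of_le_one_right (hF.nn τ a) (h2.trans h3)).trans (ha τ hτ)

theorem Fam.measurable_WW (hF : Fam μ T h) (hy : Measurable y) (t : ℝ) :
    Measurable (WW μ y T h t) := by
  have h1 : Measurable fun p : V d × X => ∑ τ ∈ T, h τ p.2 * tri τ t ⟪y p.2, p.1⟫ :=
    Finset.measurable_sum _ fun τ _ => ((hF.meas τ).comp measurable_snd).mul (gpFirst_mtri τ t hy)
  exact (h1.stronglyMeasurable.integral_prod_right' (ν := μ)).measurable

theorem Fam.WW_mem (hF : Fam μ T h) (hy : Measurable y) : ∃ B, ∀ t, 1 ≤ t → ∀ z,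
    0 ≤ WW μ y T h t z ∧ WW μ y T h t z ≤ WW μ y T h 1 z ∧ WW μ y T h 1 z ≤ B := by
  obtain ⟨C, hC⟩ := hF.bd
  refine ⟨∫ _, ∑ _τ ∈ T, C ∂μ, fun t ht z => ⟨integral_nonneg fun a => Finset.sum_nonneg
    fun τ hτ => mul_nonneg (hF.nn τ a) (tri_mem (hF.ne τ hτ) ht _).1, ?_, ?_⟩⟩
  · exact integral_mono (gpFirst_int hF hy ht z) (gpFirst_int hF hy le_rfl z) fun a =>
      Finset.sum_le_sum fun τ hτ =>
        mul_le_mul_of_nonneg_left (tri_mem (hF.ne τ hτ) ht _).2.1 (hF.nn τ a)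
  · refine integral_mono_ae (gpFirst_int hF hy le_rfl z) (integrable_const _) ?_
    filter_upwards [hC] with a ha
    exact Finset.sum_le_sum fun τ hτ =>
      (mul_le_of_le_one_right (hF.nn τ a) (tri_mem (hF.ne τ hτ) le_rfl _).2.2).trans (ha τ hτ)

theorem integrable_gs (d : ℕ) {l : ℝ} (hl : 0 < l) : Integrable (gs l : V d → ℝ) :=
  integrable_gauss d hl

theorem integrable_gs_sq (d : ℕ) {l : ℝ} (hl : 0 < l) :
    Integrable fun z : V d => gs l z * ‖z‖ ^ 2 := by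
  refine ((integrable_gs d (half_pos hl)).const_mul (2 / l)).mono' ?_
    (Eventually.of_forall fun z => ?_)
  · unfold gs
    fun_prop
  · rw [Real.norm_of_nonneg (mul_nonneg (gs_pos l z).le (sq_nonneg _))]
    unfold gs
    have h1 : l / 2 * ‖z‖ ^ 2 ≤ Real.exp (l / 2 * ‖z‖ ^ 2) := by
      have := Real.add_one_le_exp (l / 2 * ‖z‖ ^ 2)
      linarith
    have h2 : Real.exp (-(l / 2 * ‖z‖ ^ 2)) =
        Real.exp (-(l * ‖z‖ ^ 2)) * Real.exp (l / 2 * ‖z‖ ^ 2) := by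
      rw [← Real.exp_add]
      congr 1
      ring
    have h3 := mul_le_mul_of_nonneg_left h1 (Real.exp_pos (-(l * ‖z‖ ^ 2))).le
    rw [h2, div_mul_eq_mul_div, le_div_iff₀ hl]
    linarith

theorem gpFirst_mem {a k r ρ : ℝ} (h0 : 0 ≤ r) (h1 : r ≤ ρ) : a + k * r ∈ uIcc a (a + k * ρ) := by
  rw [mem_uIcc]
  rcases le_total 0 k with hk | hk
  · left
    constructor <;> nlinarith
  · right
    constructor <;> nlinarith

theorem gpFirst_chi {τ : ℝ × ℝ} (hτ : τ.1 ≠ τ.2) {t : ℝ} (ht : 1 ≤ t) (s : ℝ) :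
    0 ≤ tri τ 1 s - tri τ t s ∧ |tri τ 1 s - tri τ t s| ≤ 1 := by
  obtain ⟨h1, h2, h3⟩ := tri_mem hτ ht s
  refine ⟨by linarith, ?_⟩
  rw [abs_of_nonneg (by linarith)]
  linarith

theorem gpFirst_sliver {τ : ℝ × ℝ} (hτ : τ.1 ≠ τ.2) {t : ℝ} (ht : 1 ≤ t) {g : ℝ → ℝ}
    (hg : Integrable g) (g0 : ∀ s, 0 ≤ g s) {B M : ℝ} (gb : ∀ s, g s ≤ B)
    (gM : ∀ s, |s - τ.1| ≤ ar τ * (1 - t⁻¹) → g s ≤ M) :
    ∫ s, g s * (tri τ 1 s - tri τ t s) ≤ ar τ * (1 - t⁻¹) * (M + B * (1 - t⁻¹)) := by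
  have t0 : 0 < t := by linarith
  set u : ℝ := 1 - t⁻¹ with hu
  have u0 : 0 ≤ u := sub_nonneg.2 (inv_le_one_of_one_le₀ ht)
  have hk : τ.2 - τ.1 ≠ 0 := sub_ne_zero.2 hτ.symm
  have B0 : 0 ≤ B := (g0 0).trans (gb 0)
  have M0 : 0 ≤ M := (g0 τ.1).trans (gM τ.1 (by
    rw [sub_self, abs_zero]
    exact mul_nonneg (ar_nonneg τ) u0))
  have hv : ∀ a k : ℝ, |k| = |τ.2 - τ.1| → volume.real (uIcc a (a + k * (u / 2))) = ar τ * u := by
    intro a k hk'
    rw [Measure.real, Real.volume_interval, ENNReal.toReal_ofReal (abs_nonneg _), add_sub_cancel_left,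
      abs_mul, hk', abs_of_nonneg (by linarith : 0 ≤ u / 2), ar]
    ring
  have hi : ∀ a b c : ℝ, Integrable ((uIcc a b).indicator fun _ : ℝ => c) := fun a b c =>
    (integrable_indicator_iff measurableSet_uIcc).2
      (continuousOn_const.integrableOn_compact isCompact_uIcc)
  have hle : ∀ s, g s * (tri τ 1 s - tri τ t s) ≤
      (uIcc τ.1 (τ.1 + (τ.2 - τ.1) * (u / 2))).indicator (fun _ => M) s +
        (uIcc τ.2 (τ.2 + (τ.1 - τ.2) * (u / 2))).indicator (fun _ => B * u) s := by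
    intro s
    have n1 : 0 ≤ (uIcc τ.1 (τ.1 + (τ.2 - τ.1) * (u / 2))).indicator (fun _ => M) s :=
      indicator_nonneg (fun _ _ => M0) s
    have n2 : 0 ≤ (uIcc τ.2 (τ.2 + (τ.1 - τ.2) * (u / 2))).indicator (fun _ => B * u) s :=
      indicator_nonneg (fun _ _ => mul_nonneg B0 u0) s
    by_cases k1 : min τ.1 τ.2 ≤ s ∧ s ≤ max τ.1 τ.2
    swap
    · obtain ⟨h1, h2, -⟩ := tri_mem hτ ht s
      have h3 : tri τ 1 s = 0 := by rw [tri_one, if_neg k1]
      have h4 : tri τ 1 s - tri τ t s = 0 := by linarith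
      rw [h4, mul_zero]
      linarith
    have h1 : tri τ 1 s = ell τ s := by rw [tri_one, if_pos k1]
    obtain ⟨e0, e1⟩ := ell_mem hτ k1.1 k1.2
    by_cases k2 : t ^ 2 * (s - cen τ) ^ 2 ≤ ar τ ^ 2
    · have h2 : tri τ t s = ell τ s := by rw [tri, if_pos k2]
      rw [h1, h2, sub_self, mul_zero]
      linarith
    have h2 : tri τ t s = 0 := by rw [tri, if_neg k2]
    rw [h1, h2, sub_zero]
    set e := ell τ s with he
    have hs : s = τ.2 + (τ.1 - τ.2) * e := by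
      rw [he, ell]
      field_simp
      ring
    have hc : s - cen τ = (τ.2 - τ.1) * (1 / 2 - e) := by
      rw [hs, cen]
      ring
    have ha : ar τ ^ 2 = (τ.2 - τ.1) ^ 2 / 4 := by
      rw [ar, div_pow, sq_abs]
      norm_num
    have hut : u * t = t - 1 := by
      rw [hu]
      field_simp
    have k3 : e ≤ u / 2 ∨ 1 - e ≤ u / 2 := by
      by_contra k4
      rw [not_or, not_le, not_le] at k4
      apply k2
      have m1 : t * (1 / 2 - e) ≤ 1 / 2 := by nlinarith [k4.1]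
      have m2 : -(1 / 2) ≤ t * (1 / 2 - e) := by nlinarith [k4.2]
      have m3 : (t * (1 / 2 - e)) ^ 2 ≤ 1 / 4 := by nlinarith
      have m4 := mul_le_mul_of_nonneg_left m3 (sq_nonneg (τ.2 - τ.1))
      rw [hc, ha]
      nlinarith
    rcases k3 with k3 | k3
    · have m1 : s ∈ uIcc τ.2 (τ.2 + (τ.1 - τ.2) * (u / 2)) := by
        rw [hs]
        exact gpFirst_mem e0 k3
      rw [indicator_of_mem m1]
      have := mul_le_mul (gb s) (show e ≤ u by linarith) e0 B0
      linarith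
    · have hs' : s = τ.1 + (τ.2 - τ.1) * (1 - e) := by
        rw [hs]
        ring
      have m1 : s ∈ uIcc τ.1 (τ.1 + (τ.2 - τ.1) * (u / 2)) := by
        rw [hs']
        exact gpFirst_mem (by linarith) k3
      rw [indicator_of_mem m1]
      have m2 : |s - τ.1| ≤ ar τ * u := by
        have m3 : s - τ.1 = (τ.2 - τ.1) * (1 - e) := by linarith
        rw [m3, abs_mul, abs_of_nonneg (by linarith : 0 ≤ 1 - e), ar]
        have := mul_le_mul_of_nonneg_left k3 (abs_nonneg (τ.2 - τ.1))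
        linarith
      have := mul_le_mul (gM s m2) e1 e0 M0
      linarith
  refine (integral_mono_of_nonneg (Eventually.of_forall fun s =>
    mul_nonneg (g0 s) (gpFirst_chi hτ ht s).1) ((hi _ _ _).add (hi _ _ _))
    (Eventually.of_forall hle)).trans (le_of_eq ?_)
  simp only [Pi.add_apply]
  rw [integral_add (hi _ _ _) (hi _ _ _), integral_indicator_const _ measurableSet_uIcc,
    integral_indicator_const _ measurableSet_uIcc, hv _ _ rfl, hv _ _ (abs_sub_comm _ _),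
    smul_eq_mul, smul_eq_mul]
  ring

theorem gpFirst_fub (hF : Fam μ T h) (hy : Measurable y) {H : V d → ℝ} (Hi : Integrable H)
    {g : X → ℝ → ℝ} (hg : ∀ a, Marg H (y a) (g a)) {t : ℝ} (ht : 1 ≤ t) :
    ∫ z, H z * (WW μ y T h 1 z - WW μ y T h t z) =
      ∫ a, (∑ τ ∈ T, h τ a * ∫ s, g a s * (tri τ 1 s - tri τ t s)) ∂μ := by
  obtain ⟨C, hC⟩ := hF.bd
  have e1 : ∀ z, H z * (WW μ y T h 1 z - WW μ y T h t z) =
      ∫ a, ∑ τ ∈ T, h τ a * (H z * (tri τ 1 ⟪y a, z⟫ - tri τ t ⟪y a, z⟫)) ∂μ := by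
    intro z
    rw [WW, WW, ← integral_sub (gpFirst_int hF hy le_rfl z) (gpFirst_int hF hy ht z),
      ← integral_const_mul]
    refine integral_congr_ae (Eventually.of_forall fun a => ?_)
    simp only [← Finset.sum_sub_distrib, Finset.mul_sum]
    exact Finset.sum_congr rfl fun τ _ => by ring
  have hI : Integrable (fun p : V d × X => ∑ τ ∈ T, h τ p.2 *
      (H p.1 * (tri τ 1 ⟪y p.2, p.1⟫ - tri τ t ⟪y p.2, p.1⟫))) (volume.prod μ) := by
    refine integrable_finsetSum _ fun τ hτ => ?_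
    refine (Hi.norm.mul_prod (integrable_const (μ := μ) C)).mono'
      (((hF.meas τ).comp measurable_snd).aestronglyMeasurable.mul (Hi.1.comp_fst.mul
        ((gpFirst_mtri τ 1 hy).sub (gpFirst_mtri τ t hy)).aestronglyMeasurable)) ?_
    filter_upwards [Measure.quasiMeasurePreserving_snd.ae hC] with p hp
    rw [norm_mul, norm_mul, Real.norm_of_nonneg (hF.nn τ _), mul_comm]
    exact mul_le_mul (mul_le_of_le_one_right (norm_nonneg _) (gpFirst_chi (hF.ne τ hτ) ht _).2)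
      (hp τ hτ) (hF.nn τ _) (norm_nonneg _)
  simp only [e1]
  rw [integral_integral_swap hI]
  refine integral_congr_ae (Eventually.of_forall fun a => ?_)
  have hm : ∀ τ, Measurable fun s => tri τ 1 s - tri τ t s := fun τ =>
    (measurable_tri τ 1).sub (measurable_tri τ t)
  simp only []
  rw [integral_finsetSum]
  · refine Finset.sum_congr rfl fun τ hτ => ?_
    rw [integral_const_mul, (hg a).2 _ (hm τ) fun s => (gpFirst_chi (hF.ne τ hτ) ht s).2]
  · intro τ hτ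
    exact (Hi.mul_bdd (c := 1)
      ((hm τ).comp (measurable_const.inner measurable_id)).aestronglyMeasurable
      (Eventually.of_forall fun z => (gpFirst_chi (hF.ne τ hτ) ht _).2)).const_mul _

theorem gpFirst_G (hF : Fam μ T h) (hy : Measurable y) {G : ℝ → ℝ} (hG : ContinuousOn G (Ici 0))
    {t : ℝ} (ht : 1 ≤ t) {f : V d → ℝ} (hf : Integrable f) :
    Integrable fun z => f z * G (WW μ y T h t z) := by
  obtain ⟨B, hB⟩ := hF.WW_mem hy
  obtain ⟨M, hM⟩ := (isCompact_Icc (a := 0) (b := B)).exists_bound_of_continuousOn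
    (hG.mono Icc_subset_Ici_self)
  have hc : Continuous fun x : ℝ => G (max x 0) :=
    hG.comp_continuous (continuous_id.max continuous_const) fun x => mem_Ici.2 (le_max_right _ _)
  have hm : Measurable fun z => G (WW μ y T h t z) := by
    have := hc.measurable.comp (hF.measurable_WW hy t)
    convert this using 2 with z
    simp only [Function.comp_apply, max_eq_left (hB t ht z).1]
  exact hf.mul_bdd (c := M) hm.aestronglyMeasurable (Eventually.of_forall fun z =>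
    hM _ ⟨(hB t ht z).1, (hB t ht z).2.1.trans (hB t ht z).2.2⟩)

theorem first_order (hF : Fam μ T h) (hy : Measurable y) {l : ℝ} (hl : 0 < l) {G : ℝ → ℝ}
    (hG : Adm d G) (G0 : ∀ x, 0 ≤ x → 0 ≤ G x) {H : V d → ℝ} (Hi : Integrable H)
    (H0 : ∀ᵐ z, 0 ≤ H z)
    (hH : ∀ᵐ z, ∀ x ∈ Icc 0 (WW μ y T h 1 z),
      (G (WW μ y T h 1 z) - G x) * gs l z ≤ H z * (WW μ y T h 1 z - x))
    {g : X → ℝ → ℝ} (hg : ∀ a, Marg H (y a) (g a)) (gm : ∀ s, Measurable fun a => g a s)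
    (g0 : ∀ a s, 0 ≤ g a s) {B : ℝ} (gb : ∀ᵐ a ∂μ, ∀ s, g a s ≤ B)
    (uc : ∀ η > 0, ∃ δ > 0, ∀ᵐ a ∂μ, ∀ τ ∈ T, ∀ s, |s - τ.1| ≤ δ → g a s ≤ g a τ.1 + η) :
    d * ∫ z, gs l z * G (WW μ y T h 1 z) ≤
      ∫ a, cost T h g a ∂μ + 2 * l * ∫ z, gs l z * ‖z‖ ^ 2 * G (WW μ y T h 1 z) := by
  obtain ⟨C, hC⟩ := hF.bd
  obtain ⟨Bw, hW⟩ := hF.WW_mem hy
  set I1 := ∫ z, gs l z * G (WW μ y T h 1 z) with hI1
  set I2 := ∫ z, gs l z * ‖z‖ ^ 2 * G (WW μ y T h 1 z) with hI2
  set Cc := ∫ a, cost T h g a ∂μ with hCc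
  set K : ℝ := |C| * ∑ τ ∈ T, ar τ with hK
  set K' : ℝ := μ.real univ * K with hK'
  have K0 : 0 ≤ K := mul_nonneg (abs_nonneg _) (Finset.sum_nonneg fun τ _ => ar_nonneg τ)
  have K'0 : 0 ≤ K' := mul_nonneg measureReal_nonneg K0
  have I10 : 0 ≤ I1 := integral_nonneg fun z => mul_nonneg (gs_pos l z).le (G0 _ (hW 1 le_rfl z).1)
  have i1 := gpFirst_G hF hy hG.1 le_rfl (integrable_gs d hl)
  have i2 := gpFirst_G hF hy hG.1 le_rfl (integrable_gs_sq d hl)
  have ic : Integrable (cost T h g) μ := by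
    refine integrable_finsetSum _ fun τ hτ => Integrable.of_bound ((hF.meas τ).mul
      ((gm τ.1).const_mul _)).aestronglyMeasurable (C * (ar τ * B)) ?_
    filter_upwards [hC, gb] with a ha hb
    have n1 := mul_nonneg (ar_nonneg τ) (g0 a τ.1)
    rw [Real.norm_of_nonneg (mul_nonneg (hF.nn τ a) n1)]
    exact mul_le_mul (ha τ hτ) (mul_le_mul_of_nonneg_left (hb _) (ar_nonneg τ)) n1
      ((hF.nn τ a).trans (ha τ hτ))
  have step1 : ∀ t, 1 < t → t ^ d * (I1 - l * (t ^ 2 - 1) * I2 -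
      ∫ z, H z * (WW μ y T h 1 z - WW μ y T h t z)) ≤ I1 := by
    intro t ht
    have t0 : 0 < t := by linarith
    refine le_trans (mul_le_mul_of_nonneg_left ?_ (pow_nonneg t0.le d)) (fam_anti hy hF hl hG ht.le)
    have i3 : Integrable fun z => H z * (WW μ y T h 1 z - WW μ y T h t z) :=
      Hi.mul_bdd (c := Bw) ((hF.measurable_WW hy 1).sub (hF.measurable_WW hy t)).aestronglyMeasurable
        (Eventually.of_forall fun z => by
          obtain ⟨a1, a2, a3⟩ := hW t ht.le z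
          rw [Real.norm_of_nonneg (by linarith)]
          linarith)
    have i4 := gpFirst_G hF hy hG.1 ht.le (integrable_gs d (mul_pos hl (pow_pos t0 2)))
    have i12 : Integrable fun z => gs l z * G (WW μ y T h 1 z) -
        l * (t ^ 2 - 1) * (gs l z * ‖z‖ ^ 2 * G (WW μ y T h 1 z)) := i1.sub (i2.const_mul _)
    have i123 : Integrable fun z => gs l z * G (WW μ y T h 1 z) -
        l * (t ^ 2 - 1) * (gs l z * ‖z‖ ^ 2 * G (WW μ y T h 1 z)) -
        H z * (WW μ y T h 1 z - WW μ y T h t z) := i12.sub i3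
    rw [hI1, hI2, ← integral_const_mul, ← integral_sub i1 (i2.const_mul _),
      ← integral_sub i12 i3]
    refine integral_mono_ae i123 i4 ?_
    filter_upwards [H0, hH] with z hz0 hz
    obtain ⟨a1, a2, -⟩ := hW t ht.le z
    have b1 := hz _ ⟨a1, a2⟩
    have b2 : 0 ≤ H z * (WW μ y T h 1 z - WW μ y T h t z) := mul_nonneg hz0 (by linarith)
    have b3 : 0 ≤ gs l z * G (WW μ y T h 1 z) :=
      mul_nonneg (gs_pos l z).le (G0 _ (hW 1 le_rfl z).1)
    have x0 : 0 ≤ l * (t ^ 2 - 1) * ‖z‖ ^ 2 :=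
      mul_nonneg (mul_nonneg hl.le (by nlinarith)) (sq_nonneg _)
    have b4 : gs (l * t ^ 2) z = Real.exp (-(l * (t ^ 2 - 1) * ‖z‖ ^ 2)) * gs l z := by
      unfold gs
      rw [← Real.exp_add]
      congr 1
      ring
    have b5 := Real.add_one_le_exp (-(l * (t ^ 2 - 1) * ‖z‖ ^ 2))
    have b6 : Real.exp (-(l * (t ^ 2 - 1) * ‖z‖ ^ 2)) ≤ 1 := Real.exp_le_one_iff.2 (by linarith)
    have b7 := (Real.exp_pos (-(l * (t ^ 2 - 1) * ‖z‖ ^ 2))).le
    rw [b4]
    set e := Real.exp (-(l * (t ^ 2 - 1) * ‖z‖ ^ 2))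
    have c1 := mul_le_mul_of_nonneg_left b1 b7
    have c2 := mul_le_mul_of_nonneg_right b6 b2
    have c3 := mul_le_mul_of_nonneg_right b5 b3
    nlinarith
  have step2 : ∀ η > 0, d * I1 ≤ Cc + 2 * l * I2 + η * K' := by
    intro η hη
    obtain ⟨δ, hδ, hu⟩ := uc η hη
    let φ : ℝ → ℝ := fun t => t ^ d * (l * (t + 1) * I2 + t⁻¹ * (Cc + (η + B * (1 - t⁻¹)) * K'))
    have hφ : ContinuousAt φ 1 := by
      have : ContinuousAt (fun t : ℝ => t⁻¹) 1 := continuousAt_inv₀ one_ne_zero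
      fun_prop
    have hφ1 : φ 1 = Cc + 2 * l * I2 + η * K' := by
      simp only [φ, one_pow, inv_one]
      ring
    rw [← hφ1]
    refine ge_of_tendsto (hφ.tendsto.mono_left (nhdsWithin_le_nhds (s := Ioi 1))) ?_
    have hev : ∀ᶠ t in 𝓝 (1 : ℝ), (∑ τ ∈ T, ar τ) * (1 - t⁻¹) < δ := by
      have hc : ContinuousAt (fun t : ℝ => (∑ τ ∈ T, ar τ) * (1 - t⁻¹)) 1 := by
        have : ContinuousAt (fun t : ℝ => t⁻¹) 1 := continuousAt_inv₀ one_ne_zero
        fun_prop
      exact hc.eventually_lt continuousAt_const (by simpa using hδ)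
    filter_upwards [self_mem_nhdsWithin, nhdsWithin_le_nhds hev] with t ht hδt
    have ht : 1 < t := ht
    have t0 : 0 < t := by linarith
    have u0 : 0 ≤ 1 - t⁻¹ := sub_nonneg.2 (inv_le_one_of_one_le₀ ht.le)
    have s1 := step1 t ht
    have s2 : ∫ z, H z * (WW μ y T h 1 z - WW μ y T h t z) ≤
        (1 - t⁻¹) * (Cc + (η + B * (1 - t⁻¹)) * K') := by
      rw [gpFirst_fub hF hy Hi hg ht.le]
      have i5 : Integrable (fun a => (1 - t⁻¹) * (cost T h g a + (η + B * (1 - t⁻¹)) * K)) μ :=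
        (ic.add (integrable_const _)).const_mul _
      refine (integral_mono_of_nonneg (Eventually.of_forall fun a => Finset.sum_nonneg fun τ hτ =>
        mul_nonneg (hF.nn τ a) (integral_nonneg fun s =>
          mul_nonneg (g0 a s) (gpFirst_chi (hF.ne τ hτ) ht.le s).1)) i5 ?_).trans (le_of_eq ?_)
      · filter_upwards [hC, gb, hu] with a ha hb hua
        have B0 : 0 ≤ B := (g0 a 0).trans (hb 0)
        have n1 : 0 ≤ η + B * (1 - t⁻¹) := add_nonneg hη.le (mul_nonneg B0 u0)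
        rw [cost, hK, Finset.mul_sum, Finset.mul_sum, ← Finset.sum_add_distrib, Finset.mul_sum]
        refine Finset.sum_le_sum fun τ hτ => ?_
        have n2 : ar τ * (1 - t⁻¹) ≤ δ := (mul_le_mul_of_nonneg_right
          (Finset.single_le_sum (fun τ _ => ar_nonneg τ) hτ) u0).trans hδt.le
        have n3 := gpFirst_sliver (hF.ne τ hτ) ht.le (hg a).1 (g0 a) hb (M := g a τ.1 + η)
          fun s hs => hua τ hτ s (hs.trans n2)
        have n4 := mul_le_mul_of_nonneg_left n3 (hF.nn τ a)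
        have n5 := mul_le_mul_of_nonneg_right ((ha τ hτ).trans (le_abs_self C))
          (mul_nonneg (mul_nonneg u0 n1) (ar_nonneg τ))
        nlinarith
      · rw [integral_const_mul, integral_add ic (integrable_const _), integral_const, smul_eq_mul,
          hK']
        ring
    have s3 : 1 + d * (t - 1) ≤ t ^ d := by
      have := one_add_mul_le_pow (show (-2 : ℝ) ≤ t - 1 by linarith) d
      rwa [add_sub_cancel] at this
    have s4 := mul_le_mul_of_nonneg_left s2 (pow_nonneg t0.le d)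
    have s5 := mul_le_mul_of_nonneg_right s3 I10
    have s6 : 1 - t⁻¹ = (t - 1) * t⁻¹ := by field_simp
    refine le_of_mul_le_mul_left ?_ (show 0 < t - 1 by linarith)
    have s7 : (t - 1) * φ t = t ^ d * (l * (t ^ 2 - 1) * I2) +
        t ^ d * ((1 - t⁻¹) * (Cc + (η + B * (1 - t⁻¹)) * K')) := by
      simp only [φ]
      nth_rewrite 2 [s6]
      ring
    rw [s7]
    nlinarith
  refine le_of_forall_pos_le_add fun ε hε => ?_
  have h1 := step2 (ε / (K' + 1)) (by positivity)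
  have h2 : ε / (K' + 1) * K' ≤ ε := by
    rw [div_mul_eq_mul_div, div_le_iff₀ (by positivity)]
    nlinarith
  linarith

end Pool.Agent.Lib.MP_0a1ca9_gt.Gp
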