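import Pool.Agent.Lib.MP_0a1ca9_gt.CdGauss

/-! Monotonicity of Gaussian integrals of exponential sums with linear terms. -/

open MeasureTheory Set Matrix

namespace Pool.Agent.Lib.MP_0a1ca9_gt.Gp

open Cd

theorem gpGauss_rank {d : ℕ} {M : Matrix (Fin d) (Fin d) ℝ} (hM : M.PosDef) (b : Fin d → ℝ) :
    (Matrix.of fun i j => b i * b j + M i j).det - M.det = M.det * (b ⬝ᵥ (M⁻¹ *ᵥ b)) := by
  have h1 := Matrix.det_add_replicateCol_mul_replicateRow (ι := Unit)
    (Ne.isUnit hM.det_pos.ne') b b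
  have h2 : (Matrix.of fun i j => b i * b j + M i j) =
      M + Matrix.replicateCol Unit b * Matrix.replicateRow Unit b := by
    ext i j
    simp [Matrix.mul_apply, add_comm]
  rw [h2, h1, Matrix.det_unique (n := Unit), Matrix.mul_assoc, ← Matrix.replicateCol_mulVec,
    Matrix.add_apply,
    Matrix.one_apply_eq, Matrix.replicateRow_mul_replicateCol_apply]
  ring

theorem gpGauss_key {I J K : Type*} [Fintype I] [DecidableEq I] [Fintype J] (S : Finset K)
    (y : J → I → ℝ) (γ e : K → ℝ) (κ β : K → J → ℝ)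
    (h : ∀ τ : Finset J, τ.card + 1 = Fintype.card I → ∀ δ : J → ℝ, (∀ j ∈ τ, δ j = 0) →
      0 ≤ ∑ k ∈ S, γ k * (∏ j ∈ τ, κ k j) * (∑ j, β k j * δ j) ^ 2 * e k) :
    0 ≤ ∑ k ∈ S, γ k * ((Matrix.of fun a b => (∑ j, β k j * y j a) * (∑ j, β k j * y j b) +
      ∑ j, κ k j * y j a * y j b).det - (Matrix.of fun a b => ∑ j, κ k j * y j a * y j b).det) *
      e k := by
  have hpos : (0 : ℝ) < (Fintype.card I).factorial := by exact_mod_cast Nat.factorial_pos _
  refine le_of_mul_le_mul_left ?_ hpos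
  obtain ⟨v, hv⟩ : ∃ v : K → Option J → I → ℝ,
    ∀ k o, v k o = Option.elim' (fun a => ∑ j, β k j * y j a) y o := ⟨_, fun _ _ => rfl⟩
  have h1 : ∀ k ∈ S, ((Fintype.card I).factorial : ℝ) *
      (γ k * ((Matrix.of fun a b => (∑ j, β k j * y j a) * (∑ j, β k j * y j b) +
      ∑ j, κ k j * y j a * y j b).det - (Matrix.of fun a b => ∑ j, κ k j * y j a * y j b).det) *
      e k) = ∑ f : I → Option J, γ k * ((∏ a, Option.elim' 1 (κ k) (f a)) -
        ∏ a, Option.elim' 0 (κ k) (f a)) * (Matrix.of fun a b => v k (f a) b).det ^ 2 * e k := by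
    intro k _
    have e1 := andreief (Option.elim' 1 (κ k)) (v k)
    have e0 := andreief (Option.elim' 0 (κ k)) (v k)
    simp only [Fintype.sum_option, hv, Option.elim'_none, Option.elim'_some, one_mul, zero_mul,
      zero_add] at e1 e0
    rw [show ∀ x g p q w : ℝ, x * (g * (p - q) * w) = g * w * (x * p - x * q) from
      fun _ _ _ _ _ => by ring, e1, e0, ← Finset.sum_sub_distrib, Finset.mul_sum]
    refine Finset.sum_congr rfl fun f _ => ?_
    simp only [hv]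
    ring
  rw [mul_zero, Finset.mul_sum, Finset.sum_congr rfl h1, Finset.sum_comm]
  refine Finset.sum_nonneg fun f _ => ?_
  by_cases h0 : ∃ a, f a = none
  swap
  · refine Finset.sum_nonneg fun k _ => ?_
    have e1 : ∏ a, Option.elim' (1 : ℝ) (κ k) (f a) = ∏ a, Option.elim' 0 (κ k) (f a) := by
      refine Finset.prod_congr rfl fun a _ => ?_
      obtain ⟨j, hj⟩ := Option.ne_none_iff_exists'.1 fun e => h0 ⟨a, e⟩
      rw [hj]
      rfl
    rw [e1]
    simp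
  obtain ⟨a₀, h0⟩ := h0
  by_cases hf : Function.Injective f
  swap
  · obtain ⟨a, b, hab, hne⟩ := Function.not_injective_iff.1 hf
    refine Finset.sum_nonneg fun k _ => ?_
    rw [Matrix.det_zero_of_row_eq hne (by funext i; simp only [Matrix.of_apply, hab])]
    simp
  obtain ⟨A, hA⟩ : ∃ A : Matrix I I ℝ, A = Matrix.of fun a b => Option.elim' 0 y (f a) b :=
    ⟨_, rfl⟩
  have hn : none ∈ Finset.univ.map ⟨f, hf⟩ := Finset.mem_map.2 ⟨a₀, Finset.mem_univ _, h0⟩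
  have hc := Finset.card_eraseNone_of_mem hn
  have hc' := Finset.card_pos.2 ⟨_, hn⟩
  rw [Finset.card_map, Finset.card_univ] at hc hc'
  have h2 := h (Finset.eraseNone (Finset.univ.map ⟨f, hf⟩)) (by omega)
    (fun j => (A.updateRow a₀ (y j)).det) (fun j hj => by
      obtain ⟨a, -, ha⟩ := Finset.mem_map.1 (Finset.mem_eraseNone.1 hj)
      have ha' : f a = some j := ha
      have hne : a ≠ a₀ := by
        rintro rfl
        rw [h0] at ha'
        cases ha'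
      refine Matrix.det_zero_of_row_eq hne ?_
      rw [Matrix.updateRow_ne hne, Matrix.updateRow_self, hA]
      funext i
      simp only [Matrix.of_apply, ha', Option.elim'_some])
  refine h2.trans_eq (Finset.sum_congr rfl fun k _ => ?_)
  have e1 : (Matrix.of fun a b => v k (f a) b) = A.updateRow a₀ (∑ j, β k j • y j) := by
    ext a i
    by_cases ha : a = a₀
    · rw [ha, Matrix.updateRow_self, Matrix.of_apply, h0, hv]
      simp
    · obtain ⟨j, hj⟩ := Option.ne_none_iff_exists'.1 fun e => ha (hf (e.trans h0.symm))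
      rw [Matrix.updateRow_ne ha, hA, Matrix.of_apply, Matrix.of_apply, hj, hv]
      rfl
  rw [Finset.prod_eq_zero (f := fun a => Option.elim' (0 : ℝ) (κ k) (f a)) (Finset.mem_univ a₀)
    (by rw [h0]; rfl), Finset.prod_eraseNone, Finset.prod_map, e1, sub_zero]
  simp only [← Matrix.cramer_transpose_apply, map_sum, map_smul, Finset.sum_apply, Pi.smul_apply,
    smul_eq_mul, Function.Embedding.coeFn_mk]

theorem gpGauss_int {d : ℕ} {J : Type*} [Fintype J] (κ β : J → ℝ) (y : J → Fin d → ℝ) (c : J → ℝ)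
    (hM : (Matrix.of fun a b => ∑ j, κ j * y j a * y j b).PosDef) :
    ∃ q₁ q₂ r : ℝ, (Matrix.of fun a b : Fin d ⊕ Unit =>
      ∑ j, κ j * Sum.elim (y j) (fun _ => c j) a * Sum.elim (y j) (fun _ => c j) b).det =
        (Matrix.of fun a b => ∑ j, κ j * y j a * y j b).det * q₁ ∧
      (Matrix.of fun a b => (∑ j, β j * y j a) * (∑ j, β j * y j b) +
        ∑ j, κ j * y j a * y j b).det - (Matrix.of fun a b => ∑ j, κ j * y j a * y j b).det =
        (Matrix.of fun a b => ∑ j, κ j * y j a * y j b).det * q₂ ∧ ∀ t : ℝ, t ≠ 0 →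
      Integrable (fun w : Fin d → ℝ =>
        Real.exp (∑ j, (β j * (t⁻¹ * (y j ⬝ᵥ w)) - κ j * (y j ⬝ᵥ w + -t * c j) ^ 2))) ∧
      ∫ w : Fin d → ℝ,
        Real.exp (∑ j, (β j * (t⁻¹ * (y j ⬝ᵥ w)) - κ j * (y j ⬝ᵥ w + -t * c j) ^ 2)) =
        Real.exp (-(t ^ 2 * q₁) + r + (t ^ 2)⁻¹ * (q₂ / 4)) *
          gz (Matrix.of fun a b => ∑ j, κ j * y j a * y j b) := by
  have h1 := CdGauss_schur κ y c hM
  have h2 := gpGauss_rank hM fun a => ∑ j, β j * y j a
  have h3 := CdGauss_quad κ y c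
  have h4 : ∀ w : Fin d → ℝ, ∑ j, β j * (y j ⬝ᵥ w) = (fun a => ∑ j, β j * y j a) ⬝ᵥ w := by
    intro w
    simp only [dotProduct, Finset.mul_sum, Finset.sum_mul, mul_assoc]
    exact Finset.sum_comm
  generalize (fun a => ∑ j, κ j * y j a * c j) = a at h1 h3
  generalize ∑ j, κ j * c j * c j = A at h1 h3
  obtain ⟨b, hb⟩ : ∃ b : Fin d → ℝ, b = fun a => ∑ j, β j * y j a := ⟨_, rfl⟩
  rw [← hb] at h4
  obtain ⟨M, hM'⟩ : ∃ M : Matrix (Fin d) (Fin d) ℝ,
    M = Matrix.of fun a b => ∑ j, κ j * y j a * y j b := ⟨_, rfl⟩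
  refine ⟨_, _, (a ⬝ᵥ (M⁻¹ *ᵥ b) + b ⬝ᵥ (M⁻¹ *ᵥ a)) / 2, h1, h2, fun t ht => ?_⟩
  rw [← hb]
  rw [← hM'] at h3 hM ⊢
  have h5 := gauss_shift hM (-t • a - (2 * t)⁻¹ • b) (t ^ 2 * A) 1
  have h6 : ∀ w : Fin d → ℝ, ∑ j, (β j * (t⁻¹ * (y j ⬝ᵥ w)) - κ j * (y j ⬝ᵥ w + -t * c j) ^ 2) =
      -(w ⬝ᵥ (M *ᵥ w) + 2 * 1 * ((-t • a - (2 * t)⁻¹ • b) ⬝ᵥ w) + 1 ^ 2 * (t ^ 2 * A)) := by
    intro w
    simp only [mul_left_comm _ t⁻¹]
    rw [Finset.sum_sub_distrib, ← Finset.mul_sum, h3, h4, sub_dotProduct, smul_dotProduct,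
      smul_dotProduct, smul_eq_mul, smul_eq_mul]
    field_simp
    ring
  simp only [h6]
  refine ⟨h5.1, h5.2.trans ?_⟩
  congr 2
  simp only [Matrix.mulVec_sub, Matrix.mulVec_smul, sub_dotProduct, dotProduct_sub,
    smul_dotProduct, dotProduct_smul, smul_eq_mul]
  field_simp
  ring

theorem gpGauss_zero {d : ℕ} {J K : Type*} [Fintype J] (S : Finset K) (y : J → Fin d → ℝ)
    (c : J → ℝ) (γ : K → ℝ) (κ β : K → J → ℝ)
    (hM : ∀ k ∈ S, (Matrix.of fun a b => ∑ j, κ k j * y j a * y j b).PosDef)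
    (h1 : ∀ s x : J → ℝ, (∀ j, (x j - c j) ^ 2 ≤ s j) → ∀ τ : Finset J, τ.card = d + 1 →
      0 ≤ ∑ k ∈ S, γ k * (∏ j ∈ τ, κ k j) * Real.exp (∑ j, (β k j * x j - κ k j * s j)))
    (h2 : ∀ s x : J → ℝ, (∀ j, (x j - c j) ^ 2 ≤ s j) → ∀ τ : Finset J, τ.card + 1 = d →
      ∀ δ : J → ℝ, (∀ j ∈ τ, δ j = 0) →
      0 ≤ ∑ k ∈ S, γ k * (∏ j ∈ τ, κ k j) * (∑ j, β k j * δ j) ^ 2 *
        Real.exp (∑ j, (β k j * x j - κ k j * s j))) :
    AntitoneOn (fun t : ℝ => t ^ d * ∫ w : Fin d → ℝ,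
      ∑ k ∈ S, γ k * Real.exp (∑ j, (β k j * (y j ⬝ᵥ w) -
        κ k j * (t ^ 2 * (y j ⬝ᵥ w - c j) ^ 2)))) (Ici 1) := by
  choose! q₁ q₂ r hq₁ hq₂ hi using fun k (hk : k ∈ S) => gpGauss_int (κ k) (β k) y c (hM k hk)
  obtain ⟨g, hg⟩ : ∃ g : K → ℝ, ∀ k, g k = gz (Matrix.of fun a b => ∑ j, κ k j * y j a * y j b) :=
    ⟨_, fun _ => rfl⟩
  obtain ⟨V, hV⟩ : ∃ V : K → ℝ → ℝ, ∀ k, V k = fun t =>
    Real.exp (-(t ^ 2 * q₁ k) + r k + (t ^ 2)⁻¹ * (q₂ k / 4)) * g k := ⟨_, fun _ => rfl⟩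
  have h3 : ∀ k ∈ S, ∀ t : ℝ, t ≠ 0 →
      HasDerivAt (V k) (-(2 * t * (q₁ k * V k t) + (2 * t ^ 3)⁻¹ * (q₂ k * V k t))) t := by
    intro k _ t ht
    have e := (((((hasDerivAt_pow 2 t).mul_const (q₁ k)).fun_neg.add_const (r k)).fun_add
      (((hasDerivAt_pow 2 t).fun_inv (pow_ne_zero 2 ht)).mul_const (q₂ k / 4))).exp).mul_const
      (g k)
    rw [hV]
    refine e.congr_deriv ?_
    simp only [Nat.cast_ofNat, Nat.add_one_sub_one, pow_one]
    field_simp
    ring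
  have h4 : ∀ (t : ℝ), 1 ≤ t → ∀ q D : K → ℝ,
      (∀ k ∈ S, D k = (Matrix.of fun a b => ∑ j, κ k j * y j a * y j b).det * q k) →
      (∀ s x : J → ℝ, (∀ j, (x j - c j) ^ 2 ≤ s j) →
        0 ≤ ∑ k ∈ S, γ k * D k * Real.exp (∑ j, (β k j * x j - κ k j * s j))) →
      0 ≤ ∑ k ∈ S, γ k * (q k * V k t) := by
    intro t ht q D hD hs
    have ht0 : t ≠ 0 := by positivity
    have h5 := CdGauss_triple S (fun k => γ k * D k)
      (fun k w => Real.exp (∑ j, (β k j * (t⁻¹ * (y j ⬝ᵥ w)) -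
        κ k j * (y j ⬝ᵥ w + -t * c j) ^ 2)))
      (fun k w => Real.exp (-(w ⬝ᵥ ((Matrix.of fun a b => ∑ j, κ k j * y j a * y j b) *ᵥ w))))
      (fun k hk => (hi k hk t ht0).1)
      (fun k hk => Integrable.of_integral_ne_zero (gz_sq (hM k hk)).1.ne') (fun w w' w'' => by
        refine (hs (fun j => (y j ⬝ᵥ w + -t * c j) ^ 2 + ((y j ⬝ᵥ w') ^ 2 + (y j ⬝ᵥ w'') ^ 2))
          (fun j => t⁻¹ * (y j ⬝ᵥ w)) fun j => ?_).trans_eq (Finset.sum_congr rfl fun k _ => ?_)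
        · have e : (y j ⬝ᵥ w + -t * c j) ^ 2 = t ^ 2 * (t⁻¹ * (y j ⬝ᵥ w) - c j) ^ 2 := by
            field_simp
            ring
          have e' : 1 ≤ t ^ 2 := one_le_pow₀ ht
          have := le_mul_of_one_le_left (sq_nonneg (t⁻¹ * (y j ⬝ᵥ w) - c j)) e'
          nlinarith [sq_nonneg (y j ⬝ᵥ w'), sq_nonneg (y j ⬝ᵥ w'')]
        · simp only [CdGauss_form, ← Real.exp_add, mul_add (κ k _), Finset.sum_sub_distrib,
            Finset.sum_add_distrib]
          congr 2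
          ring)
    refine le_of_mul_le_mul_left ?_ (pow_pos (gz_one_pos d) 2)
    rw [mul_zero, Finset.mul_sum]
    refine h5.trans_eq (Finset.sum_congr rfl fun k hk => ?_)
    rw [(hi k hk t ht0).2, hD k hk, ← (gz_sq (hM k hk)).2, hV, hg]
    unfold gz
    ring
  have h6 : ∀ t : ℝ, t ≠ 0 → HasDerivAt (fun t => ∑ k ∈ S, γ k * V k t)
      (∑ k ∈ S, γ k * -(2 * t * (q₁ k * V k t) + (2 * t ^ 3)⁻¹ * (q₂ k * V k t))) t :=
    fun t ht => HasDerivAt.fun_sum fun k hk => (h3 k hk t ht).const_mul _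
  have h7 : AntitoneOn (fun t => ∑ k ∈ S, γ k * V k t) (Ici 1) := by
    refine antitoneOn_of_deriv_nonpos (convex_Ici 1)
      (fun t ht => (h6 t (zero_lt_one.trans_le ht).ne').continuousAt.continuousWithinAt)
      (fun t ht => (h6 t (zero_lt_one.trans_le
        (interior_subset ht)).ne').differentiableAt.differentiableWithinAt) fun t ht => ?_
    have ht1 : 1 ≤ t := interior_subset ht
    have ht0 : 0 < t := zero_lt_one.trans_le ht1
    rw [(h6 t ht0.ne').deriv]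
    have e1 := h4 t ht1 q₁ _ hq₁ fun s x hs =>
      CdGauss_key S (fun j => Sum.elim (y j) fun _ => c j) γ _ κ fun τ hτ =>
        h1 s x hs τ (by simpa using hτ)
    have e2 := h4 t ht1 q₂ _ hq₂ fun s x hs =>
      gpGauss_key S y γ _ κ β fun τ hτ => h2 s x hs τ (by simpa using hτ)
    have e3 := add_nonneg (mul_nonneg (by positivity : 0 ≤ 2 * t) e1)
      (mul_nonneg (by positivity : 0 ≤ (2 * t ^ 3)⁻¹) e2)
    rw [Finset.mul_sum, Finset.mul_sum, ← Finset.sum_add_distrib] at e3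
    rw [← neg_nonneg, ← Finset.sum_neg_distrib]
    exact e3.trans_eq (Finset.sum_congr rfl fun k _ => by ring)
  refine h7.congr fun t ht => ?_
  have ht0 : 0 < t := zero_lt_one.trans_le ht
  have e := Measure.integral_comp_inv_smul_of_nonneg (volume : Measure (Fin d → ℝ))
    (fun w => ∑ k ∈ S, γ k * Real.exp (∑ j, (β k j * (y j ⬝ᵥ w) -
      κ k j * (t ^ 2 * (y j ⬝ᵥ w - c j) ^ 2)))) ht0.le
  have e' : ∀ u v : ℝ, t ^ 2 * (t⁻¹ * u - v) ^ 2 = (u + -t * v) ^ 2 := by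
    intro u v
    field_simp
    ring
  simp only [Module.finrank_fin_fun, dotProduct_smul, smul_eq_mul, e'] at e
  simp only
  rw [← e, integral_finsetSum _ fun k hk => (hi k hk t ht0.ne').1.const_mul _]
  exact Finset.sum_congr rfl fun k hk => by rw [integral_const_mul, (hi k hk t ht0.ne').2, hV, hg]

theorem gauss_tilt {d : ℕ} {J K : Type*} [Fintype J] (S : Finset K) (y : J → Fin d → ℝ)
    (c : J → ℝ) {l : ℝ} (hl : 0 < l) (γ : K → ℝ) (κ β : K → J → ℝ)
    (hκ : ∀ k ∈ S, ∀ j, 0 ≤ κ k j)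
    (h1 : ∀ s x : J → ℝ, (∀ j, (x j - c j) ^ 2 ≤ s j) → ∀ τ : Finset J, 1 ≤ τ.card →
      τ.card ≤ d + 1 →
      0 ≤ ∑ k ∈ S, γ k * (∏ j ∈ τ, κ k j) * Real.exp (∑ j, (β k j * x j - κ k j * s j)))
    (h2 : ∀ s x : J → ℝ, (∀ j, (x j - c j) ^ 2 ≤ s j) → ∀ τ : Finset J, τ.card + 1 ≤ d →
      ∀ δ : J → ℝ, (∀ j ∈ τ, δ j = 0) →
      0 ≤ ∑ k ∈ S, γ k * (∏ j ∈ τ, κ k j) * (∑ j, β k j * δ j) ^ 2 *
        Real.exp (∑ j, (β k j * x j - κ k j * s j))) :
    AntitoneOn (fun t : ℝ => t ^ d * ∫ w : Fin d → ℝ, Real.exp (-(l * t ^ 2 * (w ⬝ᵥ w))) *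
      ∑ k ∈ S, γ k * Real.exp (∑ j, (β k j * (y j ⬝ᵥ w) -
        κ k j * (t ^ 2 * (y j ⬝ᵥ w - c j) ^ 2)))) (Ici 1) := by
  have h3 := gpGauss_zero S (Sum.elim y fun i => Pi.single i 1) (Sum.elim c fun _ => 0) γ
    (fun k => Sum.elim (κ k) fun _ => l) (fun k => Sum.elim (β k) fun _ => 0) (fun k hk => by
      refine Matrix.PosDef.of_dotProduct_mulVec_pos ?_ fun x hx => ?_
      · ext a b
        simp only [Matrix.conjTranspose_apply, Matrix.of_apply, star_trivial]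
        exact Finset.sum_congr rfl fun j _ => mul_right_comm _ _ _
      · rw [star_trivial, CdGauss_form]
        simp only [Fintype.sum_sum_type, Sum.elim_inl, Sum.elim_inr, single_dotProduct, one_mul]
        have e1 : 0 < x ⬝ᵥ x := by
          have := dotProduct_star_self_pos_iff.2 hx
          rwa [star_trivial] at this
        refine add_pos_of_nonneg_of_pos
          (Finset.sum_nonneg fun j _ => mul_nonneg (hκ k hk j) (sq_nonneg _)) ?_
        rw [← Finset.mul_sum]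
        simpa only [sq, dotProduct] using mul_pos hl e1)
    (fun s x hs τ hτ => by
      have e1 := τ.card_toLeft_add_card_toRight
      have e2 : τ.toRight.card ≤ d := by simpa using τ.toRight.card_le_univ
      have e3 := mul_nonneg
        (show 0 ≤ (∏ _i ∈ τ.toRight, l) * Real.exp (∑ i, -(l * s (Sum.inr i))) from
          mul_nonneg (Finset.prod_nonneg fun _ _ => hl.le) (Real.exp_pos _).le)
        (h1 (fun j => s (Sum.inl j)) (fun j => x (Sum.inl j)) (fun j => hs (Sum.inl j)) τ.toLeft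
          (by omega) (by omega))
      rw [Finset.mul_sum] at e3
      refine e3.trans_eq (Finset.sum_congr rfl fun k _ => ?_)
      simp only [Finset.prod_sum_eq_prod_toLeft_mul_prod_toRight, Fintype.sum_sum_type,
        Sum.elim_inl, Sum.elim_inr, zero_mul, zero_sub, Real.exp_add]
      ring)
    (fun s x hs τ hτ δ hδ => by
      have e1 := τ.card_toLeft_add_card_toRight
      have e3 := mul_nonneg
        (show 0 ≤ (∏ _i ∈ τ.toRight, l) * Real.exp (∑ i, -(l * s (Sum.inr i))) from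
          mul_nonneg (Finset.prod_nonneg fun _ _ => hl.le) (Real.exp_pos _).le)
        (h2 (fun j => s (Sum.inl j)) (fun j => x (Sum.inl j)) (fun j => hs (Sum.inl j)) τ.toLeft
          (by omega) (fun j => δ (Sum.inl j)) fun j hj => hδ _ (Finset.mem_toLeft.1 hj))
      rw [Finset.mul_sum] at e3
      refine e3.trans_eq (Finset.sum_congr rfl fun k _ => ?_)
      simp only [Finset.prod_sum_eq_prod_toLeft_mul_prod_toRight, Fintype.sum_sum_type,
        Sum.elim_inl, Sum.elim_inr, zero_mul, zero_sub, Real.exp_add, Finset.sum_const_zero,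
        add_zero]
      ring)
  refine h3.congr fun t _ => ?_
  simp only [Fintype.sum_sum_type, Sum.elim_inl, Sum.elim_inr, single_dotProduct, one_mul,
    zero_mul, zero_sub, sub_zero, Real.exp_add]
  congr 2
  funext w
  have e : ∑ i, -(l * (t ^ 2 * w i ^ 2)) = -(l * t ^ 2 * (w ⬝ᵥ w)) := by
    rw [dotProduct, Finset.mul_sum, ← Finset.sum_neg_distrib]
    exact Finset.sum_congr rfl fun i _ => by ring
  rw [e, Finset.mul_sum]
  exact Finset.sum_congr rfl fun k _ => by ring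

end Pool.Agent.Lib.MP_0a1ca9_gt.Gp
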