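import Mathlib

/-! The layer cake decomposition of a finite sequence and the pairing inequality. -/

open Set

namespace Pool.Agent.Lib.MP_0a1ca9_gt.Gp

/-- The minimum over an interval. -/
noncomputable def mn (ω : ℕ → ℝ) (a b : ℕ) : ℝ := ⨅ j : Icc a b, ω j

/-- The amount of levels above `θ` for which `[a, b]` is a component of the superlevel set. -/
noncomputable def th (θ : ℝ) (ω : ℕ → ℝ) (a b : ℕ) : ℝ :=
  max 0 (mn ω a b - max θ (max (ω (a - 1)) (ω (b + 1))))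

/-- The bound for the cost. -/
noncomputable def vl (N : ℕ) (η : ℝ) (ω ξ : ℕ → ℝ) : ℝ :=
  ∑ a ∈ Finset.Icc 1 N, ∑ b ∈ Finset.Icc a N,
    th 0 ω a b * ∑ i ∈ Finset.Icc a b, (mn ξ a i + mn ξ i b + 3 * η)

/-- Sequences with small jumps and small ends. -/
structure Sq (N : ℕ) (η B τ : ℝ) (ω : ℕ → ℝ) : Prop where
  nn : ∀ j, 0 ≤ ω j
  z0 : ω 0 = 0
  zN : ω (N + 1) = 0
  bd : ∀ j, ω j ≤ B
  jump : ∀ j, 1 ≤ j → j < N → |ω (j + 1) - ω j| ≤ η
  fst : ω 1 ≤ τ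
  lst : ω N ≤ τ

theorem mn_le (ω : ℕ → ℝ) {a b l : ℕ} (hl : l ∈ Icc a b) : mn ω a b ≤ ω l :=
  ciInf_le (f := fun j : Icc a b => ω j) (Set.finite_range _).bddBelow ⟨l, hl⟩

theorem exists_mn (ω : ℕ → ℝ) {a b : ℕ} (hab : a ≤ b) : ∃ l ∈ Icc a b, mn ω a b = ω l := by
  have : Nonempty (Icc a b) := ⟨⟨a, le_rfl, hab⟩⟩
  obtain ⟨l, hl⟩ := exists_eq_ciInf_of_finite (f := fun j : Icc a b => ω j)
  exact ⟨l, l.2, hl.symm⟩

theorem gpTheta_self (ω : ℕ → ℝ) (a : ℕ) : mn ω a a = ω a := by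
  obtain ⟨l, hl, h⟩ := exists_mn ω (le_refl a)
  rw [h, le_antisymm hl.2 hl.1]

theorem gpTheta_left (ω : ℕ → ℝ) {a b : ℕ} (hab : a + 1 ≤ b) :
    mn ω a b = min (ω a) (mn ω (a + 1) b) := by
  apply le_antisymm
  · obtain ⟨l, hl, h⟩ := exists_mn ω hab
    exact le_min (mn_le ω ⟨le_rfl, by omega⟩) (h ▸ mn_le ω ⟨by have := hl.1; omega, hl.2⟩)
  · obtain ⟨l, hl, h⟩ := exists_mn ω (show a ≤ b by omega)
    rw [h]
    rcases eq_or_lt_of_le hl.1 with e | e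
    · rw [← e]; exact min_le_left _ _
    · exact (min_le_right _ _).trans (mn_le ω ⟨e, hl.2⟩)

theorem gpTheta_right (ω : ℕ → ℝ) {a b : ℕ} (hab : a ≤ b) :
    mn ω a (b + 1) = min (mn ω a b) (ω (b + 1)) := by
  apply le_antisymm
  · obtain ⟨l, hl, h⟩ := exists_mn ω hab
    exact le_min (h ▸ mn_le ω ⟨hl.1, by have := hl.2; omega⟩) (mn_le ω ⟨by omega, le_rfl⟩)
  · obtain ⟨l, hl, h⟩ := exists_mn ω (show a ≤ b + 1 by omega)
    rw [h]
    rcases eq_or_lt_of_le hl.2 with e | e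
    · rw [e]; exact min_le_right _ _
    · exact (min_le_left _ _).trans (mn_le ω ⟨hl.1, by omega⟩)

theorem gpTheta_four (θ m u v : ℝ) : max 0 (m - max θ (max u v)) =
    (max θ m - max θ (min u m)) - (max θ (min m v) - max θ (min u (min m v))) := by
  simp only [max_def, min_def]
  split_ifs <;> linarith

theorem gpTheta_th (θ : ℝ) (ω : ℕ → ℝ) {a b : ℕ} (hab : a + 1 ≤ b) :
    th θ ω (a + 1) b = (max θ (mn ω (a + 1) b) - max θ (mn ω a b)) -
      (max θ (mn ω (a + 1) (b + 1)) - max θ (mn ω a (b + 1))) := by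
  rw [gpTheta_left ω (show a + 1 ≤ b + 1 by omega), gpTheta_left ω hab, gpTheta_right ω hab, th,
    Nat.add_sub_cancel]
  exact gpTheta_four _ _ _ _

theorem gpTheta_tel (F : ℕ → ℝ) {i N : ℕ} (h : i ≤ N) :
    ∑ b ∈ Finset.Icc i N, (F b - F (b + 1)) = F i - F (N + 1) := by
  induction N, h using Nat.le_induction with
  | base => simp
  | succ n hn ih => rw [Finset.sum_Icc_succ_top (by omega), ih]; ring

theorem gpTheta_shift (F : ℕ → ℝ) (i : ℕ) :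
    ∑ a ∈ Finset.Icc 1 i, F a = ∑ k ∈ Finset.range i, F (k + 1) := by
  induction i with
  | zero => simp
  | succ n ih => rw [Finset.sum_Icc_succ_top (by omega), ih, Finset.sum_range_succ]

theorem gpTheta_refl (F : ℕ → ℝ) {i N : ℕ} (h : i ≤ N) :
    ∑ b ∈ Finset.Icc i N, F b = ∑ k ∈ Finset.range (N + 1 - i), F (N - k) := by
  refine Finset.sum_nbij' (fun b => N - b) (fun k => N - k) ?_ ?_ ?_ ?_ ?_
  · intro b hb; rw [Finset.mem_Icc] at hb; rw [Finset.mem_range]; omega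
  · intro k hk; rw [Finset.mem_range] at hk; rw [Finset.mem_Icc]; omega
  · intro b hb; rw [Finset.mem_Icc] at hb; omega
  · intro k hk; rw [Finset.mem_range] at hk; omega
  · intro b hb; rw [Finset.mem_Icc] at hb; congr 1; omega

theorem gpTheta_row {N : ℕ} {ω : ℕ → ℝ} (zN : ω (N + 1) = 0) {θ : ℝ} (hθ : 0 ≤ θ) {a i : ℕ}
    (ha : a + 1 ≤ i) (hi : i ≤ N) : ∑ b ∈ Finset.Icc i N, th θ ω (a + 1) b =
      max θ (mn ω (a + 1) i) - max θ (mn ω a i) := by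
  have e : ∀ c, c ≤ N + 1 → max θ (mn ω c (N + 1)) = θ := fun c hc =>
    max_eq_left ((mn_le ω ⟨hc, le_rfl⟩).trans (zN.le.trans hθ))
  rw [Finset.sum_congr rfl fun b hb => gpTheta_th θ ω (ha.trans (Finset.mem_Icc.1 hb).1),
    gpTheta_tel (fun b => max θ (mn ω (a + 1) b) - max θ (mn ω a b)) hi, e _ (by omega),
    e _ (by omega)]
  ring

theorem gpTheta_col {ω : ℕ → ℝ} (z0 : ω 0 = 0) {θ : ℝ} (hθ : 0 ≤ θ) {i b : ℕ} (hb : i ≤ b) :
    ∑ a ∈ Finset.Icc 1 i, th θ ω a b = max θ (mn ω i b) - max θ (mn ω i (b + 1)) := by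
  have e : ∀ c, max θ (mn ω 0 c) = θ := fun c =>
    max_eq_left ((mn_le ω ⟨le_rfl, c.zero_le⟩).trans (z0.le.trans hθ))
  have h : ∀ k ∈ Finset.range i, th θ ω (k + 1) b =
      (max θ (mn ω (k + 1) b) - max θ (mn ω (k + 1) (b + 1))) -
        (max θ (mn ω k b) - max θ (mn ω k (b + 1))) := fun k hk => by
    rw [gpTheta_th θ ω (by have := Finset.mem_range.1 hk; omega)]; ring
  rw [gpTheta_shift, Finset.sum_congr rfl h,
    Finset.sum_range_sub (fun k => max θ (mn ω k b) - max θ (mn ω k (b + 1))), e, e]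
  ring

theorem th_nonneg (θ : ℝ) (ω : ℕ → ℝ) (a b : ℕ) : 0 ≤ th θ ω a b := le_max_left _ _

theorem th_anti {θ θ' : ℝ} (h : θ ≤ θ') (ω : ℕ → ℝ) (a b : ℕ) : th θ' ω a b ≤ th θ ω a b :=
  max_le_max le_rfl (sub_le_sub_left (max_le_max h le_rfl) _)

theorem measurable_th {X : Type*} [MeasurableSpace X] {ω : X → ℕ → ℝ}
    (hω : ∀ j, Measurable fun x => ω x j) (θ : ℝ) (a b : ℕ) :
    Measurable fun x => th θ (ω x) a b :=
  measurable_const.max ((Measurable.iInf fun j : Icc a b => hω j).sub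
    (measurable_const.max ((hω _).max (hω _))))

theorem sum_th {N : ℕ} {ω : ℕ → ℝ} (z0 : ω 0 = 0) (zN : ω (N + 1) = 0) {θ : ℝ} (hθ : 0 ≤ θ)
    {i : ℕ} (hi : i ∈ Icc 1 N) :
    ∑ a ∈ Finset.Icc 1 N, ∑ b ∈ Finset.Icc a N,
      th θ ω a b * (if a ≤ i ∧ i ≤ b then 1 else 0) = max (ω i - θ) 0 := by
  have h : ∀ a ∈ Finset.Icc 1 N, ∑ b ∈ Finset.Icc a N,
      th θ ω a b * (if a ≤ i ∧ i ≤ b then 1 else 0) =
      if a ≤ i then ∑ b ∈ Finset.Icc i N, th θ ω a b else 0 := by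
    intro a _
    simp only [mul_ite, mul_one, mul_zero]
    rw [← Finset.sum_filter]
    split_ifs with hai
    · refine Finset.sum_congr ?_ fun _ _ => rfl
      ext b; simp only [Finset.mem_filter, Finset.mem_Icc]; omega
    · refine Finset.sum_eq_zero fun b hb => ?_
      exact absurd (Finset.mem_filter.1 hb).2.1 hai
  have e : (Finset.Icc 1 N).filter (fun a => a ≤ i) = Finset.Icc 1 i := by
    ext a; simp only [Finset.mem_filter, Finset.mem_Icc]; have := hi.2; omega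
  rw [Finset.sum_congr rfl h, ← Finset.sum_filter, e, gpTheta_shift,
    Finset.sum_congr rfl fun k hk => gpTheta_row zN hθ (Finset.mem_range.1 hk) hi.2,
    Finset.sum_range_sub (fun k => max θ (mn ω k i)), gpTheta_self,
    max_eq_left ((mn_le ω ⟨le_rfl, i.zero_le⟩).trans (z0.le.trans hθ))]
  simp only [max_def]
  split_ifs <;> linarith

theorem gpTheta_abel {u v : ℕ → ℝ} {η τ : ℝ} (hη : 0 ≤ η) (u0 : u 0 = 0) (v0 : v 0 = 0)
    (u1 : u 1 ≤ τ) (v1 : v 1 ≤ τ) (un : 0 ≤ u 1) (vn : 0 ≤ v 1) {n : ℕ} (hn : 1 ≤ n)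
    (hu : ∀ k, k < n → u k ≤ u (k + 1)) (hv : ∀ k, 1 ≤ k → k < n → v (k + 1) - v k ≤ η) :
    ∑ k ∈ Finset.range n, ((u (k + 1) - u k) * v (k + 1) + (v (k + 1) - v k) * u (k + 1)) ≤
      u n * v n + τ ^ 2 + η * u n := by
  induction n, hn using Nat.le_induction with
  | base =>
    simp only [Finset.sum_range_one, u0, v0, zero_add, sub_zero]
    nlinarith [mul_le_mul u1 v1 vn (un.trans u1), mul_nonneg hη un]
  | succ n hn ih =>
    rw [Finset.sum_range_succ]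
    have := ih (fun k hk => hu k (by omega)) (fun k h1 hk => hv k h1 (by omega))
    nlinarith [mul_le_mul_of_nonneg_left (hv n hn (by omega)) (sub_nonneg.2 (hu n (by omega)))]

theorem gpTheta_nn {ω : ℕ → ℝ} (h : ∀ j, 0 ≤ ω j) (a b : ℕ) : 0 ≤ mn ω a b :=
  Real.iInf_nonneg fun _ => h _

theorem gpTheta_vl {N : ℕ} {η B τ : ℝ} {ω : ℕ → ℝ} (hω : Sq N η B τ ω) (ξ : ℕ → ℝ) :
    vl N η ω ξ = ∑ i ∈ Finset.Icc 1 N,
      (∑ k ∈ Finset.range i, (mn ω (k + 1) i - mn ω k i) * mn ξ (k + 1) i +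
        ∑ b ∈ Finset.Icc i N, (mn ω i b - mn ω i (b + 1)) * mn ξ i b + 3 * η * ω i) := by
  have m : ∀ a b, max 0 (mn ω a b) = mn ω a b := fun a b => max_eq_right (gpTheta_nn hω.nn a b)
  have h1 : ∀ a ∈ Finset.Icc 1 N, ∑ b ∈ Finset.Icc a N,
      th 0 ω a b * ∑ i ∈ Finset.Icc a b, (mn ξ a i + mn ξ i b + 3 * η) =
      ∑ i ∈ Finset.Icc a N, ∑ b ∈ Finset.Icc i N, th 0 ω a b * (mn ξ a i + mn ξ i b + 3 * η) := by
    intro a _
    simp only [Finset.mul_sum]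
    exact Finset.sum_comm' fun b i => by simp only [Finset.mem_Icc]; omega
  rw [vl, Finset.sum_congr rfl h1, Finset.sum_comm' (t' := Finset.Icc 1 N)
    (s' := fun i => Finset.Icc 1 i) fun a i => by simp only [Finset.mem_Icc]; omega]
  refine Finset.sum_congr rfl fun i hi => ?_
  rw [Finset.mem_Icc] at hi
  have r : ∀ k ∈ Finset.range i, ∑ b ∈ Finset.Icc i N, th 0 ω (k + 1) b =
      mn ω (k + 1) i - mn ω k i := fun k hk => by
    rw [gpTheta_row hω.zN le_rfl (Finset.mem_range.1 hk) hi.2, m, m]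
  simp only [mul_add, Finset.sum_add_distrib]
  congr 1
  · congr 1
    · rw [gpTheta_shift]
      exact Finset.sum_congr rfl fun k hk => by rw [← Finset.sum_mul, r k hk]
    · rw [Finset.sum_comm]
      refine Finset.sum_congr rfl fun b hb => ?_
      rw [← Finset.sum_mul, gpTheta_col hω.z0 le_rfl (Finset.mem_Icc.1 hb).1, m, m]
  · simp only [← Finset.sum_mul]
    rw [gpTheta_shift, Finset.sum_congr rfl r, Finset.sum_range_sub (fun k => mn ω k i),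
      gpTheta_self, le_antisymm ((mn_le ω ⟨le_rfl, i.zero_le⟩).trans hω.z0.le)
        (gpTheta_nn hω.nn 0 i)]
    ring

theorem gpTheta_low {N : ℕ} {η B τ : ℝ} (hη : 0 ≤ η) {ω ξ : ℕ → ℝ} (hω : Sq N η B τ ω)
    (hξ : Sq N η B τ ξ) {i : ℕ} (h1 : 1 ≤ i) (hN : i ≤ N) :
    ∑ k ∈ Finset.range i, ((mn ω (k + 1) i - mn ω k i) * mn ξ (k + 1) i +
      (mn ξ (k + 1) i - mn ξ k i) * mn ω (k + 1) i) ≤ ω i * ξ i + τ ^ 2 + η * ω i := by
  have := gpTheta_abel (u := fun k => mn ω k i) (v := fun k => mn ξ k i) (τ := τ) hη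
    (le_antisymm ((mn_le ω ⟨le_rfl, i.zero_le⟩).trans hω.z0.le) (gpTheta_nn hω.nn 0 i))
    (le_antisymm ((mn_le ξ ⟨le_rfl, i.zero_le⟩).trans hξ.z0.le) (gpTheta_nn hξ.nn 0 i))
    ((mn_le ω ⟨le_rfl, h1⟩).trans hω.fst) ((mn_le ξ ⟨le_rfl, h1⟩).trans hξ.fst)
    (gpTheta_nn hω.nn _ _) (gpTheta_nn hξ.nn _ _) h1
    (fun k hk => by rw [gpTheta_left ω hk]; exact min_le_right _ _)
    (fun k hk1 hk => by
      have a1 := (abs_le.1 (hξ.jump k hk1 (by omega))).2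
      have a2 : mn ξ (k + 1) i ≤ ξ (k + 1) := mn_le ξ ⟨le_rfl, hk⟩
      rw [gpTheta_left ξ hk, min_def]
      split_ifs <;> linarith)
  simpa only [gpTheta_self] using this

theorem gpTheta_high {N : ℕ} {η B τ : ℝ} (hη : 0 ≤ η) {ω ξ : ℕ → ℝ} (hω : Sq N η B τ ω)
    (hξ : Sq N η B τ ξ) {i : ℕ} (h1 : 1 ≤ i) (hN : i ≤ N) :
    ∑ b ∈ Finset.Icc i N, ((mn ω i b - mn ω i (b + 1)) * mn ξ i b +
      (mn ξ i b - mn ξ i (b + 1)) * mn ω i b) ≤ ω i * ξ i + τ ^ 2 + η * ω i := by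
  have e : ∀ k, k < N + 1 - i → N + 1 - k = N + 1 - (k + 1) + 1 := fun k hk => by omega
  have := gpTheta_abel (u := fun k => mn ω i (N + 1 - k)) (v := fun k => mn ξ i (N + 1 - k))
    (τ := τ) (n := N + 1 - i) hη
    (le_antisymm ((mn_le ω ⟨by omega, le_rfl⟩).trans hω.zN.le) (gpTheta_nn hω.nn _ _))
    (le_antisymm ((mn_le ξ ⟨by omega, le_rfl⟩).trans hξ.zN.le) (gpTheta_nn hξ.nn _ _))
    ((mn_le ω (l := N) ⟨hN, by omega⟩).trans hω.lst)
    ((mn_le ξ (l := N) ⟨hN, by omega⟩).trans hξ.lst)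
    (gpTheta_nn hω.nn _ _) (gpTheta_nn hξ.nn _ _) (by omega)
    (fun k hk => by rw [e k hk, gpTheta_right ω (by omega)]; exact min_le_left _ _)
    (fun k hk1 hk => by
      have a1 := (abs_le.1 (hξ.jump (N + 1 - (k + 1)) (by omega) (by omega))).1
      have a2 : mn ξ i (N + 1 - (k + 1)) ≤ ξ (N + 1 - (k + 1)) := mn_le ξ ⟨by omega, le_rfl⟩
      rw [e k hk, gpTheta_right ξ (by omega), min_def]
      split_ifs <;> linarith)
  rw [show N + 1 - (N + 1 - i) = i by omega, gpTheta_self, gpTheta_self] at this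
  rw [gpTheta_refl _ hN]
  refine le_of_eq_of_le (Finset.sum_congr rfl fun k hk => ?_) this
  have hk := Finset.mem_range.1 hk
  rw [show N + 1 - (k + 1) = N - k by omega, show N + 1 - k = N - k + 1 by omega]

theorem vl_pair {N : ℕ} {η B τ : ℝ} (hη : 0 ≤ η) {ω ξ : ℕ → ℝ} (hω : Sq N η B τ ω)
    (hξ : Sq N η B τ ξ) : vl N η ω ξ + vl N η ξ ω ≤
      ∑ i ∈ Finset.Icc 1 N, (2 * (ω i * ξ i) + (8 * η * B + 2 * τ ^ 2)) := by
  rw [gpTheta_vl hω ξ, gpTheta_vl hξ ω, ← Finset.sum_add_distrib]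
  refine Finset.sum_le_sum fun i hi => ?_
  rw [Finset.mem_Icc] at hi
  have a1 := gpTheta_low hη hω hξ hi.1 hi.2
  have a2 := gpTheta_high hη hω hξ hi.1 hi.2
  rw [Finset.sum_add_distrib] at a1 a2
  nlinarith [mul_le_mul_of_nonneg_left (hω.bd i) hη, mul_le_mul_of_nonneg_left (hξ.bd i) hη]

end Pool.Agent.Lib.MP_0a1ca9_gt.Gp
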