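import Pool.Agent.Lib.MP_0a1ca9_gt.GpRun
import Pool.Agent.Lib.MP_0a1ca9_gt.GpTheta

/-! Decomposition of a pair of functions on a grid. -/

open MeasureTheory Set
open scoped ENNReal

namespace Pool.Agent.Lib.MP_0a1ca9_gt.Gp

/-- The hypotheses on a function sampled on a grid. -/
structure Gr {X : Type*} [MeasurableSpace X] (K : Set X) (S η B τ : ℝ) (N : ℕ) (f : X → ℝ → ℝ) :
    Prop where
  meas : ∀ s, Measurable fun x => f x s
  nn : ∀ x s, 0 ≤ f x s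
  uc : ∀ x ∈ K, ∀ s ∈ Icc (-S) S, ∀ s' ∈ Icc (-S) S, |s - s'| ≤ 2 * S / N → f x s ≤ f x s' + η
  bd : ∀ x ∈ K, ∀ s, f x s ≤ B
  ends : ∀ x ∈ K, f x (-S) ≤ τ ∧ f x S ≤ τ

/-- The nodes. -/
noncomputable def gpGrid_t (S : ℝ) (N j : ℕ) : ℝ := -S - 2 * S / N + j * (2 * S / N)

/-- The sampled values. -/
noncomputable def gpGrid_om {X : Type*} (S η : ℝ) (N : ℕ) (f : X → ℝ → ℝ) (x : X) (j : ℕ) : ℝ :=
  if 1 ≤ j ∧ j ≤ N then max (f x (gpGrid_t S N j) - η) 0 else 0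

/-- The triangles. -/
noncomputable def gpGrid_T (S : ℝ) (N : ℕ) : Finset (ℝ × ℝ) :=
  (Finset.range (N + 2)).offDiag.image fun q => (gpGrid_t S N q.1, gpGrid_t S N q.2)

section

variable {X : Type*} [MeasurableSpace X] {K : Set X} {S η B τ ε : ℝ} {N : ℕ} {f g : X → ℝ → ℝ}

theorem gpGrid_h (hN : 0 < N) (hS : 0 < S) : 0 < 2 * S / N := by positivity

theorem gpGrid_mono (hN : 0 < N) (hS : 0 < S) : StrictMono (gpGrid_t S N) := fun a b hab => by
  have h1 := mul_lt_mul_of_pos_right (Nat.cast_lt (α := ℝ).2 hab) (gpGrid_h hN hS)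
  unfold gpGrid_t
  linarith

theorem gpGrid_succ (j : ℕ) : gpGrid_t S N (j + 1) = gpGrid_t S N j + 2 * S / N := by
  unfold gpGrid_t
  push_cast
  ring

theorem gpGrid_one : gpGrid_t S N 1 = -S := by simp [gpGrid_t]

theorem gpGrid_last (hN : 0 < N) : gpGrid_t S N (N + 1) = S := by
  have h1 : (N : ℝ) ≠ 0 := Nat.cast_ne_zero.2 hN.ne'
  unfold gpGrid_t
  push_cast
  field_simp
  ring

theorem gpGrid_mem (hN : 0 < N) (hS : 0 < S) {j : ℕ} (h1 : 1 ≤ j) (h2 : j ≤ N + 1) :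
    gpGrid_t S N j ∈ Icc (-S) S :=
  ⟨gpGrid_one.ge.trans ((gpGrid_mono hN hS).monotone h1),
    ((gpGrid_mono hN hS).monotone h2).trans (gpGrid_last hN).le⟩

theorem gpGrid_cell (hN : 0 < N) {s : ℝ} (hs : s ∉ range (gpGrid_t S N))
    (h : s ∈ Icc (-S) S) : ∃ i ∈ Icc 1 N, s ∈ Ioo (gpGrid_t S N i) (gpGrid_t S N (i + 1)) := by
  have ex : ∃ i, s < gpGrid_t S N (i + 1) :=
    ⟨N, lt_of_le_of_ne (h.2.trans (gpGrid_last hN).ge) fun e => hs ⟨_, e.symm⟩⟩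
  have h1 := Nat.find_spec ex
  have h2 : Nat.find ex ≤ N :=
    Nat.find_min' ex (lt_of_le_of_ne (h.2.trans (gpGrid_last hN).ge) fun e => hs ⟨_, e.symm⟩)
  have h3 : Nat.find ex ≠ 0 := fun e => by
    rw [e, zero_add, gpGrid_one] at h1
    exact absurd h.1 (not_le.2 h1)
  obtain ⟨k, hk⟩ := Nat.exists_eq_succ_of_ne_zero h3
  have h4 := Nat.find_min ex (m := k) (by omega)
  exact ⟨_, ⟨by omega, h2⟩, lt_of_le_of_ne (hk ▸ not_lt.1 h4) fun e => hs ⟨_, e⟩, h1⟩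

omit [MeasurableSpace X] in
theorem gpGrid_nn (x : X) (j : ℕ) : 0 ≤ gpGrid_om S η N f x j := by
  unfold gpGrid_om
  split_ifs
  · exact le_max_right _ _
  · exact le_rfl

omit [MeasurableSpace X] in
theorem gpGrid_eq (x : X) {j : ℕ} (h1 : 1 ≤ j) (h2 : j ≤ N) :
    gpGrid_om S η N f x j = max (f x (gpGrid_t S N j) - η) 0 := if_pos ⟨h1, h2⟩

/-- The values on a closed cell are close to the value at its left end. -/
theorem gpGrid_near (hN : 0 < N) (hS : 0 < S) (hf : Gr K S η B τ N f) {x : X} (hx : x ∈ K) {i : ℕ}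
    (h1 : 1 ≤ i) (h2 : i ≤ N) {s : ℝ} (h3 : gpGrid_t S N i ≤ s) (h4 : s ≤ gpGrid_t S N (i + 1)) :
    f x (gpGrid_t S N i) ≤ f x s + η ∧ f x s ≤ f x (gpGrid_t S N i) + η := by
  have a1 := gpGrid_mem hN hS h1 (h2.trans (Nat.le_succ N))
  have a2 : s ∈ Icc (-S) S :=
    ⟨a1.1.trans h3, h4.trans (gpGrid_mem hN hS (by omega) (by omega)).2⟩
  have a3 : |s - gpGrid_t S N i| ≤ 2 * S / N := by
    rw [gpGrid_succ] at h4
    rw [abs_of_nonneg (sub_nonneg.2 h3)]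
    linarith
  exact ⟨hf.uc x hx _ a1 _ a2 (by rwa [abs_sub_comm]), hf.uc x hx _ a2 _ a1 a3⟩

theorem gpGrid_up (hN : 0 < N) (hS : 0 < S) (hf : Gr K S η B τ N f) {x : X} (hx : x ∈ K) {i : ℕ}
    (hi : i ∈ Icc 1 N) {s : ℝ} (hs : s ∈ Ioo (gpGrid_t S N i) (gpGrid_t S N (i + 1))) :
    gpGrid_om S η N f x i ≤ f x s := by
  rw [gpGrid_eq x hi.1 hi.2]
  exact max_le (by linarith [(gpGrid_near hN hS hf hx hi.1 hi.2 hs.1.le hs.2.le).1]) (hf.nn x s)

theorem gpGrid_sq (hN : 0 < N) (hS : 0 < S) (hη : 0 ≤ η) (hf : Gr K S η B τ N f) {x : X}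
    (hx : x ∈ K) : Sq N η B τ (gpGrid_om S η N f x) := by
  have hB : 0 ≤ B := (hf.nn x 0).trans (hf.bd x hx 0)
  have hτ : 0 ≤ τ := (hf.nn x S).trans (hf.ends x hx).2
  refine ⟨gpGrid_nn x, if_neg (by omega), if_neg (by omega), fun j => ?_, fun j h1 h2 => ?_, ?_, ?_⟩
  · unfold gpGrid_om
    split_ifs
    · exact max_le (by linarith [hf.bd x hx (gpGrid_t S N j)]) hB
    · exact hB
  · rw [gpGrid_eq x h1 h2.le, gpGrid_eq x (by omega) h2]
    have a := gpGrid_near hN hS hf hx h1 h2.le ((gpGrid_mono hN hS).monotone (Nat.le_succ j)) le_rfl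
    exact (abs_max_sub_max_le_abs _ _ _).trans (abs_le.2 ⟨by linarith [a.1], by linarith [a.2]⟩)
  · rw [gpGrid_eq x le_rfl hN, gpGrid_one]
    exact max_le (by linarith [(hf.ends x hx).1]) hτ
  · rw [gpGrid_eq x hN le_rfl]
    have a := gpGrid_near hN hS hf hx hN le_rfl ((gpGrid_mono hN hS).monotone (Nat.le_succ N)) le_rfl
    rw [gpGrid_last hN] at a
    exact max_le (by linarith [(hf.ends x hx).2, a.1]) hτ

theorem gpGrid_dec (hN : 0 < N) (hS : 0 < S) (h1 : 2 * η ≤ ε) (h2 : ε⁻¹ ≤ S)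
    (hf : Gr K S η B τ N f) (hg : Gr K S η B τ N g) :
    ∃ e, Dec K ε f (gpGrid_T S N) (range (gpGrid_t S N)) e ∧ ∀ x ∈ K,
      cost (gpGrid_T S N) (e 0) g x ≤
        2 * S / N / 2 * vl N η (gpGrid_om S η N f x) (gpGrid_om S η N g x) := by
  have hm := gpGrid_mono hN hS
  have ex : ∀ a b : ℕ, ∃ E : ℝ × ℝ → X → ℝ, (∀ τ, Measurable (E τ)) ∧ (∀ τ x, 0 ≤ E τ x) ∧
      (1 ≤ a → a ≤ b → b ≤ N → (∀ x, ∀ s ∉ range (gpGrid_t S N),
        st (gpGrid_T S N) (fun τ => E τ x) s =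
          if gpGrid_t S N a < s ∧ s < gpGrid_t S N (b + 1) then 1 else 0) ∧
        ∀ x ∈ K, cost (gpGrid_T S N) E g x ≤ 2 * S / N / 2 * ∑ i ∈ Finset.Icc a b,
          (mn (gpGrid_om S η N g x) a i + mn (gpGrid_om S η N g x) i b + 3 * η)) := by
    intro a b
    by_cases hab : a ≤ b ∧ b ≤ N
    swap
    · exact ⟨fun _ _ => 0, fun _ => measurable_const, fun _ _ => le_rfl,
        fun _ h h' => absurd ⟨h, h'⟩ hab⟩
    obtain ⟨E, e1, e2, e3, e4⟩ := run_rect hg.meas (-S - 2 * S / N) (gpGrid_h hN hS) hab.1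
      (T := gpGrid_T S N) fun j hj l hl hne => Finset.mem_image.2 ⟨(j, l), Finset.mem_offDiag.2
        ⟨Finset.mem_range.2 (by have := hj.2; omega), Finset.mem_range.2 (by have := hl.2; omega),
          hne⟩, rfl⟩
    refine ⟨E, e1, e2, fun ha _ _ => ⟨fun x s hs => ?_, fun x hx => ?_⟩⟩
    · rw [e3 x s fun j e => hs ⟨j, e.symm⟩, gpGrid_t, gpGrid_t, Nat.cast_succ]
    · refine (e4 x (fun i => mn (gpGrid_om S η N g x) a i + η)
        (fun i => mn (gpGrid_om S η N g x) i b + 2 * η) (fun i hi => ?_) fun i hi => ?_).trans_eq ?_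
      · obtain ⟨l, hl, e⟩ := exists_mn (gpGrid_om S η N g x) hi.1
        refine ⟨l, hl, ?_⟩
        rw [e, gpGrid_eq x (ha.trans hl.1) (hl.2.trans (hi.2.trans hab.2))]
        change g x (gpGrid_t S N l) ≤ _
        linarith [le_max_left (g x (gpGrid_t S N l) - η) 0]
      · obtain ⟨l, hl, e⟩ := exists_mn (gpGrid_om S η N g x) hi.2
        have l1 : 1 ≤ l := ha.trans (hi.1.trans hl.1)
        refine ⟨l + 1, ⟨Nat.succ_le_succ hl.1, Nat.succ_le_succ hl.2⟩, ?_⟩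
        rw [e, gpGrid_eq x l1 (hl.2.trans hab.2)]
        change g x (gpGrid_t S N (l + 1)) ≤ _
        linarith [le_max_left (g x (gpGrid_t S N l) - η) 0, (gpGrid_near hN hS hg hx l1
          (hl.2.trans hab.2) (hm.monotone (Nat.le_succ l)) le_rfl).2]
      · exact congrArg _ (Finset.sum_congr rfl fun i _ => by ring)
  choose E E1 E2 E3 using ex
  have lin : ∀ (θ : ℝ) (x : X) (w : ℝ × ℝ → ℝ), ∑ τ ∈ gpGrid_T S N, (∑ a ∈ Finset.Icc 1 N,
      ∑ b ∈ Finset.Icc a N, th θ (gpGrid_om S η N f x) a b * E a b τ x) * w τ =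
      ∑ a ∈ Finset.Icc 1 N, ∑ b ∈ Finset.Icc a N, th θ (gpGrid_om S η N f x) a b *
        ∑ τ ∈ gpGrid_T S N, E a b τ x * w τ := fun θ x w => by
    simp only [Finset.sum_mul, Finset.mul_sum, mul_assoc]
    rw [Finset.sum_comm]
    exact Finset.sum_congr rfl fun a _ => Finset.sum_comm
  have val : ∀ (θ : ℝ) (x : X), ∀ s ∉ range (gpGrid_t S N), st (gpGrid_T S N) (fun τ =>
      ∑ a ∈ Finset.Icc 1 N, ∑ b ∈ Finset.Icc a N, th θ (gpGrid_om S η N f x) a b * E a b τ x) s =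
      ∑ a ∈ Finset.Icc 1 N, ∑ b ∈ Finset.Icc a N, th θ (gpGrid_om S η N f x) a b *
        if gpGrid_t S N a < s ∧ s < gpGrid_t S N (b + 1) then 1 else 0 := fun θ x s hs =>
    (lin θ x _).trans (Finset.sum_congr rfl fun a ha => Finset.sum_congr rfl fun b hb =>
      congrArg _ ((E3 a b (Finset.mem_Icc.1 ha).1 (Finset.mem_Icc.1 hb).1
        (Finset.mem_Icc.1 hb).2).1 x s hs))
  have inn : ∀ θ, 0 ≤ θ → ∀ (x : X), ∀ s ∉ range (gpGrid_t S N), ∀ i ∈ Icc 1 N,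
      s ∈ Ioo (gpGrid_t S N i) (gpGrid_t S N (i + 1)) → st (gpGrid_T S N) (fun τ =>
      ∑ a ∈ Finset.Icc 1 N, ∑ b ∈ Finset.Icc a N, th θ (gpGrid_om S η N f x) a b * E a b τ x) s =
      max (gpGrid_om S η N f x i - θ) 0 := fun θ hθ x s hs i hi hsi => by
    rw [val θ x s hs, ← sum_th (N := N) (if_neg (by omega)) (if_neg (by omega)) hθ hi]
    refine Finset.sum_congr rfl fun a _ => Finset.sum_congr rfl fun b _ => congrArg _
      (if_congr (and_congr ⟨fun h => ?_, fun h => (hm.monotone h).trans_lt hsi.1⟩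
        ⟨fun h => ?_, fun h => hsi.2.trans_le (hm.monotone (Nat.succ_le_succ h))⟩) rfl rfl)
    · exact Nat.lt_succ_iff.1 (hm.lt_iff_lt.1 (h.trans hsi.2))
    · exact Nat.lt_succ_iff.1 (hm.lt_iff_lt.1 (hsi.1.trans h))
  have out : ∀ (θ : ℝ) (x : X), ∀ s ∉ range (gpGrid_t S N), s ∉ Icc (-S) S →
      st (gpGrid_T S N) (fun τ => ∑ a ∈ Finset.Icc 1 N, ∑ b ∈ Finset.Icc a N,
        th θ (gpGrid_om S η N f x) a b * E a b τ x) s = 0 := fun θ x s hs h => by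
    rw [val θ x s hs]
    refine Finset.sum_eq_zero fun a ha => Finset.sum_eq_zero fun b hb => ?_
    have a1 := Finset.mem_Icc.1 ha
    have b1 := Finset.mem_Icc.1 hb
    rw [if_neg fun k => h ⟨(gpGrid_mem hN hS a1.1 (by omega)).1.trans k.1.le,
      k.2.le.trans (gpGrid_mem hN hS (by omega) (by omega)).2⟩, mul_zero]
  have z : ∀ (x : X) (i : ℕ), max (gpGrid_om S η N f x i - 0) 0 = gpGrid_om S η N f x i :=
    fun x i => by rw [sub_zero, max_eq_left (gpGrid_nn x i)]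
  refine ⟨fun θ τ x => ∑ a ∈ Finset.Icc 1 N, ∑ b ∈ Finset.Icc a N,
    th θ (gpGrid_om S η N f x) a b * E a b τ x, ⟨fun τ hτ => ?_, countable_range _,
    fun θ τ => ?_, fun θ τ x => ?_, fun θ θ' τ x h => ?_, fun θ hθ x s hs => ?_,
    fun x hx s hs => ?_, fun x hx s hs h => ?_⟩, fun x hx => ?_⟩
  · obtain ⟨q, hq, rfl⟩ := Finset.mem_image.1 hτ
    exact hm.injective.ne (Finset.mem_offDiag.1 hq).2.2
  · refine Finset.measurable_sum _ fun a _ => Finset.measurable_sum _ fun b _ =>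
      (measurable_th (fun j => ?_) θ a b).mul (E1 a b τ)
    unfold gpGrid_om
    split_ifs
    · exact ((hf.meas _).sub_const η).max measurable_const
    · exact measurable_const
  · exact Finset.sum_nonneg fun a _ => Finset.sum_nonneg fun b _ =>
      mul_nonneg (th_nonneg _ _ _ _) (E2 a b τ x)
  · exact Finset.sum_le_sum fun a _ => Finset.sum_le_sum fun b _ =>
      mul_le_mul_of_nonneg_right (th_anti h _ _ _) (E2 a b τ x)
  · by_cases h : s ∈ Icc (-S) S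
    · obtain ⟨i, hi, hsi⟩ := gpGrid_cell hN hs h
      rw [inn θ hθ x s hs i hi hsi, inn 0 le_rfl x s hs i hi hsi, z]
    · rw [out θ x s hs h, out 0 x s hs h, max_eq_right (by linarith)]
  · by_cases h : s ∈ Icc (-S) S
    · obtain ⟨i, hi, hsi⟩ := gpGrid_cell hN hs h
      rw [inn 0 le_rfl x s hs i hi hsi, z]
      exact gpGrid_up hN hS hf hx hi hsi
    · rw [out 0 x s hs h]
      exact hf.nn x s
  · obtain ⟨i, hi, hsi⟩ := gpGrid_cell hN hs (abs_le.1 (h.trans h2))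
    rw [inn 0 le_rfl x s hs i hi hsi, z, gpGrid_eq x hi.1 hi.2]
    linarith [le_max_left (f x (gpGrid_t S N i) - η) 0,
      (gpGrid_near hN hS hf hx hi.1 hi.2 hsi.1.le hsi.2.le).2]
  · refine (lin 0 x _).trans_le ?_
    rw [vl, Finset.mul_sum]
    refine Finset.sum_le_sum fun a ha => ?_
    rw [Finset.mul_sum]
    refine Finset.sum_le_sum fun b hb => ?_
    rw [mul_left_comm]
    exact mul_le_mul_of_nonneg_left ((E3 a b (Finset.mem_Icc.1 ha).1 (Finset.mem_Icc.1 hb).1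
      (Finset.mem_Icc.1 hb).2).2 x hx) (th_nonneg _ _ _ _)

theorem gpGrid_int (hN : 0 < N) (hS : 0 < S) (hf : Gr K S η B τ N f) (hg : Gr K S η B τ N g)
    {x : X} (hx : x ∈ K) : ENNReal.ofReal (∑ i ∈ Finset.Icc 1 N,
      gpGrid_om S η N f x i * gpGrid_om S η N g x i * (2 * S / N)) ≤
        ∫⁻ s, ENNReal.ofReal (f x s * g x s) := by
  have hm := gpGrid_mono hN hS
  have hd : Set.PairwiseDisjoint (↑(Finset.Icc 1 N) : Set ℕ)
      fun i => Ioo (gpGrid_t S N i) (gpGrid_t S N (i + 1)) := fun i _ j _ hij =>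
    Set.disjoint_left.2 fun s hi hj => hij (le_antisymm
      (Nat.lt_succ_iff.1 (hm.lt_iff_lt.1 (hi.1.trans hj.2)))
      (Nat.lt_succ_iff.1 (hm.lt_iff_lt.1 (hj.1.trans hi.2))))
  refine le_trans ?_ (setLIntegral_le_lintegral
    (⋃ i ∈ Finset.Icc 1 N, Ioo (gpGrid_t S N i) (gpGrid_t S N (i + 1))) _)
  rw [lintegral_biUnion_finset hd fun _ _ => measurableSet_Ioo, ENNReal.ofReal_sum_of_nonneg
    fun i _ => mul_nonneg (mul_nonneg (gpGrid_nn x i) (gpGrid_nn x i)) (gpGrid_h hN hS).le]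
  refine Finset.sum_le_sum fun i hi => le_trans ?_ (setLIntegral_mono' measurableSet_Ioo
    fun s hs => ENNReal.ofReal_le_ofReal (mul_le_mul (gpGrid_up hN hS hf hx (Finset.mem_Icc.1 hi) hs)
      (gpGrid_up hN hS hg hx (Finset.mem_Icc.1 hi) hs) (gpGrid_nn x i) (hf.nn x s)))
  rw [setLIntegral_const, Real.volume_Ioo, gpGrid_succ, add_sub_cancel_left,
    ENNReal.ofReal_mul (mul_nonneg (gpGrid_nn x i) (gpGrid_nn x i))]

end

theorem grid_pair {X : Type*} [MeasurableSpace X] {K : Set X} {S η B τ ε : ℝ} {N : ℕ}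
    {f g : X → ℝ → ℝ} (hN : 0 < N) (hS : 0 < S) (hη : 0 ≤ η) (h1 : 2 * η ≤ ε) (h2 : ε⁻¹ ≤ S)
    (hf : Gr K S η B τ N f) (hg : Gr K S η B τ N g) :
    ∃ T Z e e', Dec K ε f T Z e ∧ Dec K ε g T Z e' ∧ ∀ x ∈ K,
      ENNReal.ofReal (cost T (e 0) g x) + ENNReal.ofReal (cost T (e' 0) f x) ≤
        (∫⁻ s, ENNReal.ofReal (f x s * g x s)) +
          ENNReal.ofReal (S * (8 * η * B + 2 * τ ^ 2)) := by
  obtain ⟨e, he, hc⟩ := gpGrid_dec hN hS h1 h2 hf hg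
  obtain ⟨e', he', hc'⟩ := gpGrid_dec hN hS h1 h2 hg hf
  refine ⟨_, _, e, e', he, he', fun x hx => ?_⟩
  have a1 : 0 ≤ cost (gpGrid_T S N) (e 0) g x := Finset.sum_nonneg fun τ _ =>
    mul_nonneg (he.nn 0 τ x) (mul_nonneg (ar_nonneg τ) (hg.nn x _))
  have a2 : 0 ≤ cost (gpGrid_T S N) (e' 0) f x := Finset.sum_nonneg fun τ _ =>
    mul_nonneg (he'.nn 0 τ x) (mul_nonneg (ar_nonneg τ) (hf.nn x _))
  have a3 := mul_le_mul_of_nonneg_left (vl_pair hη (gpGrid_sq hN hS hη hf hx)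
    (gpGrid_sq hN hS hη hg hx)) (half_pos (gpGrid_h hN hS)).le
  have a4 : (N : ℝ) ≠ 0 := Nat.cast_ne_zero.2 hN.ne'
  have a5 : 2 * S / N / 2 * ∑ i ∈ Finset.Icc 1 N, (2 * (gpGrid_om S η N f x i *
      gpGrid_om S η N g x i) + (8 * η * B + 2 * τ ^ 2)) = ∑ i ∈ Finset.Icc 1 N,
      gpGrid_om S η N f x i * gpGrid_om S η N g x i * (2 * S / N) +
        S * (8 * η * B + 2 * τ ^ 2) := by
    rw [Finset.sum_add_distrib, Finset.sum_const, Nat.card_Icc, ← Finset.mul_sum, ← Finset.sum_mul,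
      nsmul_eq_mul, Nat.add_sub_cancel]
    field_simp
  rw [← ENNReal.ofReal_add a1 a2]
  refine (ENNReal.ofReal_le_ofReal ?_).trans
    (ENNReal.ofReal_add_le.trans (add_le_add_left (gpGrid_int hN hS hf hg hx) _))
  linarith [hc x hx, hc' x hx]

end Pool.Agent.Lib.MP_0a1ca9_gt.Gp
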