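import Pool.Agent.Lib.MP_0a1ca9_gt.GpChart

/-! The truncated masses converge to the full mass. -/

open MeasureTheory Set Metric Function Filter
open scoped ENNReal RealInnerProductSpace

namespace Pool.Agent.Lib.MP_0a1ca9_gt.Gp

variable {D D' : ℕ} {i γ c m M σ σ' : ℝ} {W : V D' → V (D + 1) → ℝ} {U : V D → V (D' + 1) → ℝ}

theorem gpLim_ball {d : ℕ} {F : ℕ → V d → ℝ≥0∞} {G : V d → ℝ≥0∞} (hF : ∀ n, Measurable (F n))
    (hm : ∀ x, Monotone fun n => F n x) (ht : ∀ x, Tendsto (fun n => F n x) atTop (nhds (G x))) :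
    (Monotone fun n : ℕ => ∫⁻ x in closedBall 0 (n + 1 : ℝ), F n x) ∧
      Tendsto (fun n : ℕ => ∫⁻ x in closedBall 0 (n + 1 : ℝ), F n x) atTop (nhds (∫⁻ x, G x)) := by
  have hb : ∀ {n k : ℕ}, n ≤ k → closedBall (0 : V d) (n + 1 : ℝ) ⊆ closedBall 0 (k + 1 : ℝ) :=
    fun hnk => closedBall_subset_closedBall (by have := (Nat.cast_le (α := ℝ)).2 hnk; linarith)
  refine ⟨fun n k hnk => lintegral_mono' (Measure.restrict_mono (hb hnk) le_rfl)
    fun x => hm x hnk, ?_⟩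
  simp_rw [← lintegral_indicator measurableSet_closedBall]
  refine lintegral_tendsto_of_tendsto_of_monotone
    (fun n => ((hF n).indicator measurableSet_closedBall).aemeasurable)
    (Eventually.of_forall fun x n k hnk => ?_) (Eventually.of_forall fun x => (ht x).congr' ?_)
  · exact (indicator_le_indicator (hm x hnk)).trans
      (indicator_le_indicator_of_subset (hb hnk) (fun _ => zero_le) x)
  · filter_upwards [tendsto_natCast_atTop_atTop.eventually_ge_atTop ‖x‖] with n hn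
    rw [indicator_of_mem (mem_closedBall_zero_iff.2 (by linarith))]

theorem gpLim_meas {B : Type*} [MeasurableSpace B] {f : B → V D → ℝ → ℝ}
    (hf : Measurable fun p : V D × B × ℝ => f p.2.1 p.1 p.2.2) (σ R ε : ℝ) :
    Measurable fun p : B × V (D + 1) => LL σ (f p.1) R ε p.2 := by
  have h1 : Measurable fun q : (B × V (D + 1)) × V D => ⟪yy σ q.2, q.1.2⟫ :=
    ((continuous_yy σ).measurable.comp measurable_snd).inner measurable_fst.snd
  refine Measurable.lintegral_prod_right' (f := fun q : (B × V (D + 1)) × V D =>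
    if |⟪yy σ q.2, q.1.2⟫| ≤ ε⁻¹ then ENNReal.ofReal (f q.1.1 q.2 ⟪yy σ q.2, q.1.2⟫ - ε) else 0) ?_
  exact Measurable.ite (measurableSet_le h1.abs measurable_const)
    ((hf.comp (measurable_snd.prodMk (measurable_fst.fst.prodMk h1))).sub_const ε).ennreal_ofReal
    measurable_const

theorem gpLim_LL {f : V D → ℝ → ℝ} (hf : Measurable (uncurry f)) (σ : ℝ) (z : V (D + 1)) :
    (Monotone fun n : ℕ => LL σ f (n + 1) (n + 1)⁻¹ z) ∧
      Tendsto (fun n : ℕ => LL σ f (n + 1) (n + 1)⁻¹ z) atTop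
        (nhds (∫⁻ a, ENNReal.ofReal (f a ⟪yy σ a, z⟫))) := by
  have h1 : Measurable fun a : V D => ⟪yy σ a, z⟫ :=
    (continuous_yy σ).measurable.inner measurable_const
  refine gpLim_ball (fun n => ?_) (fun a n k hnk => ?_) fun a => ?_
  · exact Measurable.ite (measurableSet_le h1.abs measurable_const)
      ((hf.comp (measurable_id.prodMk h1)).sub_const _).ennreal_ofReal measurable_const
  · have h2 : (n : ℝ) + 1 ≤ k + 1 := by have := (Nat.cast_le (α := ℝ)).2 hnk; linarith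
    simp only [inv_inv]
    split_ifs with a1 a2
    · exact ENNReal.ofReal_le_ofReal (sub_le_sub_left (inv_anti₀ (by positivity) h2) _)
    · exact absurd (a1.trans h2) a2
    all_goals exact zero_le
  · have h2 : Tendsto (fun n : ℕ => ENNReal.ofReal (f a ⟪yy σ a, z⟫ - ((n : ℝ) + 1)⁻¹)) atTop
        (nhds (ENNReal.ofReal (f a ⟪yy σ a, z⟫ - 0))) := by
      refine ENNReal.tendsto_ofReal (tendsto_const_nhds.sub ?_)
      simpa using tendsto_one_div_add_atTop_nhds_zero_nat (𝕜 := ℝ)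
    rw [sub_zero] at h2
    refine h2.congr' ?_
    filter_upwards [tendsto_natCast_atTop_atTop.eventually_ge_atTop |⟪yy σ a, z⟫|] with n hn
    rw [inv_inv, if_pos (by linarith)]

theorem gpLim_AA {β : ℝ} {W : V (D + 1) → ℝ} {f : V D → ℝ → ℝ} (h : Fib σ i γ c β m M W f) :
    (Monotone fun n : ℕ => AA σ i γ c β f (n + 1) (n + 1)⁻¹) ∧
      Tendsto (fun n : ℕ => AA σ i γ c β f (n + 1) (n + 1)⁻¹) atTop (nhds (II i γ β W)) := by
  have hf := h.cf.measurable
  have hi : 0 ≤ i + 1 := by linarith [h.i0]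
  have hm : ∀ z, Monotone fun n : ℕ => (LL σ f (n + 1) (n + 1)⁻¹ z / ENNReal.ofReal c) ^ (i + 1) *
      ENNReal.ofReal ((β + ‖z‖ ^ 2) ^ (-γ / 2)) := fun z n k hnk => by
    have := (gpLim_LL hf σ z).1 hnk
    dsimp only at this ⊢
    gcongr
  refine ⟨fun n k hnk => lintegral_mono fun z => hm z hnk, ?_⟩
  refine lintegral_tendsto_of_tendsto_of_monotone (fun n => Measurable.aemeasurable ?_)
    (Eventually.of_forall hm) (Eventually.of_forall fun z => ?_)
  · have h1 := (gpLim_meas (B := Unit) (f := fun _ => f)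
      (hf.comp (measurable_fst.prodMk measurable_snd.snd)) σ (n + 1) (n + 1)⁻¹).comp
        (measurable_prodMk_left (x := ()))
    exact ((h1.div_const _).pow_const _).mul (by fun_prop)
  · have h0 : ENNReal.ofReal c ≠ 0 := (ENNReal.ofReal_pos.2 h.c0).ne'
    have h1 := (gpLim_LL hf σ z).2
    have hz := h.toSz.pos z
    rw [h.eq] at h1
    have h2 := ENNReal.Tendsto.mul_const (b := ENNReal.ofReal ((β + ‖z‖ ^ 2) ^ (-γ / 2)))
      ((ENNReal.continuous_rpow_const (y := i + 1)).continuousAt.tendsto.comp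
        (ENNReal.Tendsto.div_const h1 (Or.inr h0))) (Or.inr ENNReal.ofReal_ne_top)
    rw [← ENNReal.ofReal_div_of_pos h.c0, mul_div_cancel_left₀ _ h.c0.ne',
      ENNReal.ofReal_rpow_of_pos hz, ← ENNReal.ofReal_mul (by positivity),
      Real.rpow_add_one hz.ne', mul_comm _ (W z), mul_assoc] at h2
    exact h2

theorem Ch.measurable_AA (h : Ch i γ c m M W U) (σ σ' R ε : ℝ) :
    Measurable fun b => AA σ i γ c (1 + ‖b‖ ^ 2) (fun a s => PP σ' i γ U a b s) R ε := by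
  have h1 := gpLim_meas (f := fun b a s => PP σ' i γ U a b s) (h.continuous_PP σ').measurable σ R ε
  refine Measurable.lintegral_prod_right' (f := fun q : V D' × V (D + 1) =>
    (LL σ (fun a s => PP σ' i γ U a q.1 s) R ε q.2 / ENNReal.ofReal c) ^ (i + 1) *
      ENNReal.ofReal ((1 + ‖q.1‖ ^ 2 + ‖q.2‖ ^ 2) ^ (-γ / 2))) ?_
  exact ((h1.div_const _).pow_const _).mul (by fun_prop)

theorem Ch.tendsto_AA (h : Ch i γ c m M W U) (hσ : σ ^ 2 = 1) (hσ' : σ' = -σ) :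
    Tendsto (fun n : ℕ => ∫⁻ b in closedBall 0 (n + 1 : ℝ),
      AA σ i γ c (1 + ‖b‖ ^ 2) (fun a s => PP σ' i γ U a b s) (n + 1) (n + 1)⁻¹) atTop
      (nhds (∫⁻ b, II i γ (1 + ‖b‖ ^ 2) (W b))) :=
  (gpLim_ball (fun _ => h.measurable_AA _ _ _ _) (fun b => (gpLim_AA (h.fib hσ hσ' b)).1)
    fun b => (gpLim_AA (h.fib hσ hσ' b)).2).2

theorem gpLim_exp (P : ℝ) {δ : ℝ} (hδ : 0 < δ) : ∃ R₀, 0 ≤ R₀ ∧ ∀ r, R₀ < r →
    Real.exp (-r ^ 2) ≤ δ * (2 + r ^ 2) ^ (-P) := by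
  obtain ⟨X, hX⟩ := eventually_atTop.1 ((tendsto_rpow_mul_exp_neg_mul_atTop_nhds_zero P 1
    one_pos).eventually_le_const (show 0 < δ * Real.exp (-2) by positivity))
  refine ⟨|X|, abs_nonneg _, fun r hr => ?_⟩
  have h1 := hX (2 + r ^ 2) (by nlinarith [le_abs_self X, sq_nonneg (r - 1)])
  have h2 : 0 < (2 + r ^ 2) ^ P := by positivity
  rw [show -1 * (2 + r ^ 2) = -r ^ 2 + -2 by ring, Real.exp_add, ← mul_assoc,
    mul_le_mul_iff_left₀ (Real.exp_pos _)] at h1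
  rwa [Real.rpow_neg (by positivity), ← div_eq_mul_inv, le_div_iff₀' h2]

theorem Sz.tail (D : ℕ) {i γ m M p κ : ℝ} (hi : 0 < i) (hγ : 0 < γ) (hm : 0 < m) (hM : 0 < M)
    (hp : 0 ≤ p) (hκ : 0 < κ) : ∃ R₀, 0 ≤ R₀ ∧
    ∀ (β : ℝ) (W : V (D + 1) → ℝ), Sz i γ β m M W → β ≤ 2 → ∀ w ∈ Icc (0 : ℝ) 1,
      ∀ l ∈ Icc (1 : ℝ) 2, ∀ z, R₀ < ‖z‖ →
        (w + W z) ^ i * gs l z ≤ κ * (2 + R₀ ^ 2) ^ (-p) * HH i γ β W z ∧
        2 * l * ((w + W z) ^ (i + 1) * ‖z‖ ^ 2 * gs l z) ≤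
          κ * (2 + R₀ ^ 2) ^ (-p) * (W z * HH i γ β W z) := by
  obtain ⟨K, hK⟩ : ∃ K, K = (1 + M) ^ (i + 1) := ⟨_, rfl⟩
  have hK0 : 0 < K := by rw [hK]; positivity
  have hn : 0 < min 1 m := lt_min one_pos hm
  obtain ⟨R₀, hR, h0⟩ := gpLim_exp (p + (i + γ) / 2 + 2)
    (show 0 < κ * m ^ i * min 1 m / (4 * K) by positivity)
  refine ⟨R₀, hR, fun β W h hβ w hw l hl z hz => ?_⟩
  have h1 := h0 _ hz
  have hW := h.pos z
  have hWM := h.le z
  have hb := h.b1
  have hs := sq_nonneg ‖z‖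
  obtain ⟨x, hx⟩ : ∃ x, x = 2 + ‖z‖ ^ 2 := ⟨_, rfl⟩
  have hx1 : 1 ≤ x := by linarith
  have hx0 : 0 < x := by linarith
  have hg : gs l z ≤ Real.exp (-‖z‖ ^ 2) := Real.exp_le_exp.2 (by nlinarith [hl.1])
  have hg0 := gs_pos l z
  have h2 : x ^ (-p) ≤ (2 + R₀ ^ 2) ^ (-p) :=
    Real.rpow_le_rpow_of_nonpos (by positivity) (by nlinarith) (by linarith)
  have h3 : m ^ i * x ^ (-(i + γ) / 2) ≤ HH i γ β W z := by
    refine le_trans (mul_le_mul_of_nonneg_left ?_ (by positivity)) (h.HH_mem z).1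
    exact Real.rpow_le_rpow_of_nonpos (by linarith) (by linarith) (by linarith)
  obtain ⟨A, hA⟩ : ∃ A, A = κ * (2 + R₀ ^ 2) ^ (-p) * HH i γ β W z := ⟨_, rfl⟩
  have h4 : κ * x ^ (-p) * (m ^ i * x ^ (-(i + γ) / 2)) ≤ A := by rw [hA]; gcongr
  have hA0 : 0 ≤ A := le_trans (by positivity) h4
  have h5 : 4 * K * (x ^ 2 * gs l z) ≤ min 1 m * A := by
    rw [← hx, show -(p + (i + γ) / 2 + 2) = -p + -(i + γ) / 2 - (2 : ℕ) by push_cast; ring,
      Real.rpow_sub_natCast hx0.ne', Real.rpow_add hx0] at h1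
    calc _ ≤ 4 * K * (x ^ 2 * (κ * m ^ i * min 1 m / (4 * K) *
          (x ^ (-p) * x ^ (-(i + γ) / 2) / x ^ 2))) := by gcongr; exact hg.trans h1
      _ = min 1 m * (κ * x ^ (-p) * (m ^ i * x ^ (-(i + γ) / 2))) := by field_simp
      _ ≤ _ := by gcongr
  have h6 : (w + W z) ^ (i + 1) ≤ K := by
    rw [hK]; gcongr <;> linarith [hw.1, hw.2]
  have h7 : (w + W z) ^ i ≤ K := by
    refine le_trans (Real.rpow_le_rpow (by linarith [hw.1]) (by linarith [hw.2]) hi.le :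
      _ ≤ (1 + M) ^ i) ?_
    rw [hK]
    exact Real.rpow_le_rpow_of_exponent_le (by linarith) (by linarith)
  have h8 : m ≤ W z * x := by
    refine (h.lo z).trans (mul_le_mul_of_nonneg_left (Real.sqrt_le_iff.2 ⟨hx0.le, ?_⟩) hW.le)
    nlinarith
  constructor
  · rw [← hA]
    calc _ ≤ K * (1 * gs l z) := by rw [one_mul]; gcongr
      _ ≤ 4 * K * (x ^ 2 * gs l z) := by
        gcongr
        · linarith
        · exact one_le_pow₀ hx1
      _ ≤ 1 * A := h5.trans (by gcongr; exact min_le_left _ _)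
      _ = A := one_mul A
  · rw [mul_left_comm _ (W z), ← hA, ← mul_le_mul_iff_right₀ hx0]
    calc _ ≤ x * (2 * 2 * (K * x * gs l z)) := by
          have := hw.1
          gcongr
          · exact hl.2
          · linarith
      _ = 4 * K * (x ^ 2 * gs l z) := by ring
      _ ≤ W z * x * A := h5.trans (by gcongr; exact (min_le_right _ _).trans h8)
      _ = _ := by ring

end Pool.Agent.Lib.MP_0a1ca9_gt.Gp
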