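import Pool.Agent.Lib.MP_0a1ca9_gt.GpSide
import Pool.Agent.Lib.MP_0a1ca9_gt.GpLim

/-! The sum of the two inequalities. -/

open MeasureTheory Set Metric Function Filter
open scoped ENNReal RealInnerProductSpace

namespace Pool.Agent.Lib.MP_0a1ca9_gt.Gp

variable {D D' : ℕ} {i γ c m M σ σ' : ℝ} {W : V D' → V (D + 1) → ℝ} {U : V D → V (D' + 1) → ℝ}

theorem gpKey_int {Y : Type*} [MeasurableSpace Y] (μ : Measure Y) {B K : Set Y}
    (hB : MeasurableSet B) (hK : MeasurableSet K) (hKB : K ⊆ B) {A X C I : Y → ℝ≥0∞}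
    (mC : Measurable C) (mI : Measurable I) {d G k g e : ℝ≥0∞} (hd : d ≠ ∞) (hk : k ≠ ∞)
    (h1 : ∀ b ∈ K, d * A b + G ≤ k * X b + g * C b + e * I b)
    (h0 : ∀ b ∈ B, d * A b ≤ k * X b + g * C b) :
    d * (∫⁻ b in B, A b ∂μ) + G * μ K ≤
      k * (∫⁻ b in B, X b ∂μ) + g * (∫⁻ b, C b ∂μ) + e * ∫⁻ b, I b ∂μ := by
  have e1 : d * (∫⁻ b in B, A b ∂μ) + G * μ K =
      ∫⁻ b in B, (d * A b + K.indicator (fun _ => G) b) ∂μ := by
    rw [lintegral_add_right _ (measurable_const.indicator hK), lintegral_const_mul' _ _ hd,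
      lintegral_indicator_const hK, Measure.restrict_apply hK, inter_eq_left.2 hKB]
  have e2 : ∫⁻ b in B, (k * X b + g * C b + e * I b) ∂μ =
      k * (∫⁻ b in B, X b ∂μ) + g * (∫⁻ b in B, C b ∂μ) + e * ∫⁻ b in B, I b ∂μ := by
    rw [lintegral_add_right _ (mI.const_mul e), lintegral_add_right _ (mC.const_mul g),
      lintegral_const_mul' _ _ hk, lintegral_const_mul _ mC, lintegral_const_mul _ mI]
  rw [e1]
  refine le_trans (setLIntegral_mono' hB (g := fun b => k * X b + g * C b + e * I b) ?_) ?_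
  · intro b hb
    by_cases k1 : b ∈ K
    · rw [indicator_of_mem k1]
      exact h1 b k1
    · rw [indicator_of_notMem k1, add_zero]
      exact (h0 b hb).trans le_self_add
  · rw [e2]
    gcongr <;> exact Measure.restrict_le_self

theorem gpKey_eps {A : ℝ≥0∞} (hA : A ≠ ∞) {e : ℝ} (he : 0 < e) :
    ∃ δ : ℝ, 0 < δ ∧ A * ENNReal.ofReal δ ≤ ENNReal.ofReal e := by
  have h0 : 0 ≤ A.toReal := ENNReal.toReal_nonneg
  refine ⟨e / (A.toReal + 1), by positivity, ?_⟩
  nth_rewrite 1 [← ENNReal.ofReal_toReal hA]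
  rw [← ENNReal.ofReal_mul h0]
  refine ENNReal.ofReal_le_ofReal ?_
  rw [← mul_div_assoc, div_le_iff₀ (by positivity)]
  nlinarith

theorem gpKey_cost {X : Type*} [MeasurableSpace X] (T : Finset (ℝ × ℝ)) {e : ℝ × ℝ → X → ℝ}
    (he : ∀ τ, Measurable (e τ)) {g : X → ℝ → ℝ} (hg : ∀ s, Measurable fun x => g x s) :
    Measurable fun x => ENNReal.ofReal (cost T e g x) :=
  (Finset.measurable_sum T fun τ _ => (he τ).mul ((hg τ.1).const_mul _)).ennreal_ofReal

theorem gpKey_jac {d : ℕ} {R : ℝ} {b : V d} (hb : b ∈ closedBall (0 : V d) R) :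
    jac b ≤ √(1 + R ^ 2) := by
  rw [mem_closedBall_zero_iff] at hb
  unfold jac
  gcongr

theorem gpKey_sd0 {β R ε' : ℝ} {W : V (D + 1) → ℝ} {f : V D → ℝ → ℝ} {T : Finset (ℝ × ℝ)}
    {e : ℝ × ℝ → V D → ℝ} (h : SD σ i γ c β W f R ε' T e 0 0) {ε : ℝ} (hε : 0 ≤ ε) (hi : 0 < i)
    (hc : 0 < c) : ENNReal.ofReal (D + 1) * AA σ i γ c β f R ε' ≤
      ENNReal.ofReal ((1 + ε) * (i + 1) / c) *
        (∫⁻ a in closedBall 0 R, ENNReal.ofReal (cost T e (mg σ (HH i γ β W)) a)) +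
      ENNReal.ofReal γ * CC i γ β W := by
  unfold SD at h
  rw [ENNReal.ofReal_zero, add_zero, zero_mul, add_zero] at h
  refine h.trans ?_
  gcongr

theorem Ch.step (h : Ch i γ c m M W U) (hσ : σ ^ 2 = 1) (hσ' : σ' = -σ) {G ε R ε' ε'' : ℝ}
    (hG : 0 ≤ G) (hε : 0 ≤ ε) (hε' : 0 < ε') (hε'' : 0 < ε'') {K : Set (V D')}
    (hK : MeasurableSet K) (hKR : K ⊆ closedBall 0 R)
    (hS : ∀ b ∈ K, ∀ T Z η, Dec (closedBall 0 R) ε' (fun a s => PP σ' i γ U a b s) T Z η →
      SD σ i γ c (1 + ‖b‖ ^ 2) (W b) (fun a s => PP σ' i γ U a b s) R ε' T (η 0) G ε) :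
    ENNReal.ofReal (D + 1) * (∫⁻ b in closedBall 0 R,
        AA σ i γ c (1 + ‖b‖ ^ 2) (fun a s => PP σ' i γ U a b s) R ε') +
      ENNReal.ofReal (D' + 1) * (∫⁻ a in closedBall 0 R,
        AA σ' i γ c (1 + ‖a‖ ^ 2) (fun b s => PP σ i γ W b a s) R ε') +
      ENNReal.ofReal G * volume K ≤
    ENNReal.ofReal ((1 + ε) * (i + 1) + γ + ε) * (∫⁻ b, II i γ (1 + ‖b‖ ^ 2) (W b)) +
      ENNReal.ofReal ε'' := by
  have hi := (h.sW 0).i0
  have hγ := (h.sW 0).g0
  have hc := h.c0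
  have hσ2 : σ' ^ 2 = 1 := by rw [hσ', neg_sq, hσ]
  have hσ3 : σ = -σ' := by rw [hσ', neg_neg]
  obtain ⟨C1, hC1, b1⟩ := h.PP_le
  obtain ⟨C2, hC2, b2⟩ := h.symm.PP_le
  set k := ENNReal.ofReal ((1 + ε) * (i + 1) / c) with hk
  obtain ⟨δ, hδ, hδ'⟩ := gpKey_eps (A := k * (volume (closedBall (0 : V D) R) *
    volume (closedBall (0 : V D') R))) (ENNReal.mul_ne_top ENNReal.ofReal_ne_top
      (ENNReal.mul_ne_top measure_closedBall_lt_top.ne measure_closedBall_lt_top.ne)) hε''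
  have cf : Continuous (uncurry fun (x : V D × V D') s => PP σ' i γ U x.1 x.2 s) :=
    (h.continuous_PP σ').comp (f := fun p : (V D × V D') × ℝ => (p.1.1, p.1.2, p.2)) (by fun_prop)
  have cg : Continuous (uncurry fun (x : V D × V D') s => PP σ i γ W x.2 x.1 s) :=
    (h.symm.continuous_PP σ).comp (f := fun p : (V D × V D') × ℝ => (p.1.2, p.1.1, p.2))
      (by fun_prop)
  obtain ⟨T, Z, e, e', d1, d2, hd⟩ := exists_dec
    ((isCompact_closedBall (0 : V D) R).prod (isCompact_closedBall (0 : V D') R)) cf cg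
    (fun x s => h.PP_nonneg _ _ _ _) (fun x s => h.symm.PP_nonneg _ _ _ _)
    (C := (C1 + C2) * √(1 + R ^ 2))
    (fun x hx s => (b1 σ' hσ2 _ _ s).trans (by
      have := gpKey_jac hx.2
      have := (jac_pos x.2).le
      gcongr
      linarith))
    (fun x hx s => (b2 σ hσ _ _ s).trans (by
      have := gpKey_jac hx.1
      have := (jac_pos x.1).le
      gcongr
      linarith)) hε' hδ
  have m1 := gpKey_cost T (d1.meas 0) (g := fun (x : V D × V D') s => PP σ i γ W x.2 x.1 s)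
    fun s => (cg.comp (f := fun x => (x, s)) (by fun_prop)).measurable
  have m2 := gpKey_cost T (d2.meas 0) (g := fun (x : V D × V D') s => PP σ' i γ U x.1 x.2 s)
    fun s => (cf.comp (f := fun x => (x, s)) (by fun_prop)).measurable
  set c1 := fun x => ENNReal.ofReal
    (cost T (e 0) (fun (x : V D × V D') s => PP σ i γ W x.2 x.1 s) x)
  set c2 := fun x => ENNReal.ofReal
    (cost T (e' 0) (fun (x : V D × V D') s => PP σ' i γ U x.1 x.2 s) x)
  have D1 : ∀ b ∈ closedBall (0 : V D') R, Dec (closedBall 0 R) ε'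
      (fun a s => PP σ' i γ U a b s) T Z fun θ τ a => e θ τ (a, b) := fun b hb =>
    d1.comp (φ := fun a => (a, b)) measurable_prodMk_right fun a ha => ⟨ha, hb⟩
  have D2 : ∀ a ∈ closedBall (0 : V D) R, Dec (closedBall 0 R) ε'
      (fun b s => PP σ i γ W b a s) T Z fun θ τ b => e' θ τ (a, b) := fun a ha =>
    d2.comp (φ := fun b => (a, b)) measurable_prodMk_left fun b hb => ⟨ha, hb⟩
  have s1 := gpKey_int volume measurableSet_closedBall hK hKR h.measurable_CC h.measurable_II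
    (A := fun b => AA σ i γ c (1 + ‖b‖ ^ 2) (fun a s => PP σ' i γ U a b s) R ε')
    (X := fun b => ∫⁻ a in closedBall 0 R, c1 (a, b)) (d := ENNReal.ofReal (D + 1)) (k := k)
    (G := ENNReal.ofReal G) (g := ENNReal.ofReal γ) (e := ENNReal.ofReal ε)
    ENNReal.ofReal_ne_top ENNReal.ofReal_ne_top (fun b hb => (hS b hb T Z _ (D1 b (hKR hb)) :))
    fun b hb => (gpKey_sd0 ((h.fib hσ hσ' b).side0 (D1 b hb)) hε hi hc :)
  have s2 := gpKey_int volume measurableSet_closedBall MeasurableSet.empty (empty_subset _)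
    h.symm.measurable_CC h.symm.measurable_II
    (A := fun a => AA σ' i γ c (1 + ‖a‖ ^ 2) (fun b s => PP σ i γ W b a s) R ε')
    (X := fun a => ∫⁻ b in closedBall 0 R, c2 (a, b)) (d := ENNReal.ofReal (D' + 1)) (k := k)
    (G := 0) (g := ENNReal.ofReal γ) (e := 0)
    ENNReal.ofReal_ne_top ENNReal.ofReal_ne_top (fun _ hb => hb.elim)
    fun a ha => (gpKey_sd0 ((h.symm.fib hσ2 hσ3 a).side0 (D2 a ha)) hε hi hc :)
  have hd' : ∀ a ∈ closedBall (0 : V D) R, ∀ b ∈ closedBall (0 : V D') R, c1 (a, b) + c2 (a, b) ≤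
      (∫⁻ s, ENNReal.ofReal (PP σ' i γ U a b s * PP σ i γ W b a s)) + ENNReal.ofReal δ :=
    fun a ha b hb => hd (a, b) ⟨ha, hb⟩
  clear_value c1 c2
  rw [zero_mul, zero_mul, add_zero, add_zero,
    lintegral_lintegral_swap (f := fun a b => c2 (a, b)) m2.aemeasurable] at s2
  have s3 : (∫⁻ b in closedBall 0 R, ∫⁻ a in closedBall 0 R, c1 (a, b)) +
      (∫⁻ b in closedBall 0 R, ∫⁻ a in closedBall 0 R, c2 (a, b)) ≤
      ENNReal.ofReal c * (∫⁻ b, II i γ (1 + ‖b‖ ^ 2) (W b)) +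
        volume (closedBall (0 : V D) R) * volume (closedBall (0 : V D') R) * ENNReal.ofReal δ := by
    rw [← lintegral_add_left m1.lintegral_prod_left']
    refine le_trans (setLIntegral_mono' measurableSet_closedBall (g := fun b =>
      ENNReal.ofReal c * II i γ (1 + ‖b‖ ^ 2) (W b) +
        ENNReal.ofReal δ * volume (closedBall (0 : V D) R)) fun b hb => ?_) ?_
    · rw [← lintegral_add_left (f := fun a => c1 (a, b)) (m1.comp measurable_prodMk_right),
        ← h.pairing hσ hσ' b]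
      refine le_trans (setLIntegral_mono' measurableSet_closedBall fun a ha => hd' a ha b hb) ?_
      rw [lintegral_add_right _ measurable_const, setLIntegral_const]
      gcongr
      exact Measure.restrict_le_self
    · rw [lintegral_add_right _ measurable_const, setLIntegral_const,
        lintegral_const_mul _ h.measurable_II, mul_assoc, mul_comm (ENNReal.ofReal δ)]
      gcongr
      exact Measure.restrict_le_self
  have e1 : ENNReal.ofReal ((1 + ε) * (i + 1) + γ + ε) =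
      k * ENNReal.ofReal c + ENNReal.ofReal γ + ENNReal.ofReal ε := by
    rw [hk, ← ENNReal.ofReal_mul (by positivity), div_mul_cancel₀ _ hc.ne',
      ENNReal.ofReal_add (by positivity) hε, ENNReal.ofReal_add (by positivity) hγ.le]
  rw [add_right_comm, e1]
  refine (add_le_add s1 s2).trans ?_
  have e2 := h.II_eq
  generalize (∫⁻ b, II i γ (1 + ‖b‖ ^ 2) (W b)) = I at *
  calc _ = k * ((∫⁻ b in closedBall 0 R, ∫⁻ a in closedBall 0 R, c1 (a, b)) +
          (∫⁻ b in closedBall 0 R, ∫⁻ a in closedBall 0 R, c2 (a, b))) +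
        ENNReal.ofReal γ * I + ENNReal.ofReal ε * I := by
        conv_rhs => rw [mul_add, e2, mul_add, ← e2]
        ring
    _ ≤ k * (ENNReal.ofReal c * I + volume (closedBall (0 : V D) R) *
          volume (closedBall (0 : V D') R) * ENNReal.ofReal δ) +
        ENNReal.ofReal γ * I + ENNReal.ofReal ε * I := by gcongr
    _ = (k * ENNReal.ofReal c + ENNReal.ofReal γ + ENNReal.ofReal ε) * I +
        k * (volume (closedBall (0 : V D) R) * volume (closedBall (0 : V D') R)) *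
          ENNReal.ofReal δ := by ring
    _ ≤ _ := by gcongr

theorem Ch.key (h : Ch i γ c m M W U) (hσ : σ ^ 2 = 1) (hσ' : σ' = -σ) {G ε : ℝ}
    (hG : 0 ≤ G) (hε : 0 ≤ ε) {K : Set (V D')} (hK : MeasurableSet K) (hK1 : K ⊆ closedBall 0 1)
    (hS : ∀ᶠ n : ℕ in atTop, ∀ b ∈ K, ∀ T Z η,
      Dec (closedBall 0 (n + 1 : ℝ)) (n + 1)⁻¹ (fun a s => PP σ' i γ U a b s) T Z η →
      SD σ i γ c (1 + ‖b‖ ^ 2) (W b) (fun a s => PP σ' i γ U a b s) (n + 1) (n + 1)⁻¹ T (η 0) G ε) :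
    G * volume.real K ≤ ε * (i + 2) * (∫⁻ b, II i γ (1 + ‖b‖ ^ 2) (W b)).toReal := by
  have hi := (h.sW 0).i0
  have hγ := (h.sW 0).g0
  have hσ2 : σ' ^ 2 = 1 := by rw [hσ', neg_sq, hσ]
  have hσ3 : σ = -σ' := by rw [hσ', neg_neg]
  have t1 := h.tendsto_AA hσ hσ'
  have t2 := h.symm.tendsto_AA hσ2 hσ3
  rw [h.symm.II_eq, add_comm, ← h.II_eq] at t2
  have hI := h.II_lt_top.ne
  have hv : volume K ≠ ∞ := ((measure_mono hK1).trans_lt measure_closedBall_lt_top).ne
  refine le_of_forall_pos_le_add fun δ hδ => ?_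
  have s := le_of_tendsto (((ENNReal.Tendsto.const_mul (a := ENNReal.ofReal (D + 1)) t1
    (Or.inr ENNReal.ofReal_ne_top)).add (ENNReal.Tendsto.const_mul (a := ENNReal.ofReal (D' + 1)) t2
    (Or.inr ENNReal.ofReal_ne_top))).add_const (ENNReal.ofReal G * volume K))
    (hS.mono fun n hn => h.step hσ hσ' hG hε (by positivity) hδ hK
      (hK1.trans (closedBall_subset_closedBall (by simp))) hn)
  rw [← ENNReal.ofReal_toReal hI, ← ENNReal.ofReal_toReal hv] at s
  have h0 : 0 ≤ (∫⁻ b, II i γ (1 + ‖b‖ ^ 2) (W b)).toReal := ENNReal.toReal_nonneg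
  have h1 : 0 ≤ (volume K).toReal := ENNReal.toReal_nonneg
  rw [Measure.real]
  generalize (∫⁻ b, II i γ (1 + ‖b‖ ^ 2) (W b)).toReal = x at *
  generalize (volume K).toReal = v at *
  rw [← ENNReal.ofReal_mul (by positivity), ← ENNReal.ofReal_mul (by positivity),
    ← ENNReal.ofReal_mul hG, ← ENNReal.ofReal_mul (by positivity),
    ← ENNReal.ofReal_add (by positivity) (by positivity),
    ← ENNReal.ofReal_add (by positivity) (by positivity),
    ← ENNReal.ofReal_add (by positivity) hδ.le,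
    ENNReal.ofReal_le_ofReal_iff (by positivity)] at s
  have e : γ = D + D' + 1 - i := by linarith [h.ig]
  rw [e] at s
  linarith

end Pool.Agent.Lib.MP_0a1ca9_gt.Gp
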