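import Pool.Agent.Lib.MP_0a1ca9_gt.GpMarg
import Pool.Agent.Lib.MP_0a1ca9_gt.GpFirst

/-! The linear case and the gain. -/

open MeasureTheory Set
open scoped RealInnerProductSpace

namespace Pool.Agent.Lib.MP_0a1ca9_gt.Gp

variable {D : ℕ} {σ l : ℝ}

theorem gpLin_shift (hσ : σ ^ 2 = 1) (F : ℝ → ℝ) (a : V D) (s : ℝ) :
    mg σ (fun z => F (‖z‖ ^ 2)) a s =
      ∫ u : V D, F (s ^ 2 / (1 + ‖a‖ ^ 2) + (‖u‖ ^ 2 + ⟪a, u⟫ ^ 2)) := by
  unfold mg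
  rw [← integral_add_right_eq_self _ ((σ * s / (1 + ‖a‖ ^ 2)) • a)]
  refine integral_congr_ae (.of_forall fun u => congrArg F ?_)
  have hN : 1 + ‖a‖ ^ 2 ≠ 0 := by positivity
  have h1 : s ^ 2 = (σ * s) ^ 2 := by rw [mul_pow, hσ, one_mul]
  rw [norm_cns_sq, inner_add_right, norm_add_sq_real, real_inner_smul_right, real_inner_smul_right,
    real_inner_self_eq_norm_sq, norm_smul, mul_pow, Real.norm_eq_abs, sq_abs, real_inner_comm a u,
    h1]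
  field_simp
  ring

theorem gpLin_int {Y : Type*} [MeasurableSpace Y] {μ : Measure Y} {Q : Y → ℝ} (hQ : Measurable Q)
    (Q0 : ∀ u, 0 ≤ Q u) (hl : 0 < l) (h : Integrable (fun u => Real.exp (-(l / 2 * Q u))) μ) :
    Integrable (fun u => Q u * Real.exp (-(l * Q u))) μ := by
  refine (h.const_mul (2 / l)).mono' (Measurable.aestronglyMeasurable (by fun_prop))
    (.of_forall fun u => ?_)
  have h1 : l / 2 * Q u ≤ Real.exp (l / 2 * Q u) := by linarith [Real.add_one_le_exp (l / 2 * Q u)]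
  rw [Real.norm_of_nonneg (mul_nonneg (Q0 u) (Real.exp_pos _).le)]
  calc Q u * Real.exp (-(l * Q u)) = 2 / l * (l / 2 * Q u * Real.exp (-(l * Q u))) := by
        field_simp
    _ ≤ 2 / l * (Real.exp (l / 2 * Q u) * Real.exp (-(l * Q u))) := by gcongr
    _ = _ := by
        rw [← Real.exp_add]
        congr 2
        ring

theorem gpLin_int0 (hl : 0 < l) (a : V D) :
    Integrable fun u : V D => Real.exp (-(l * (‖u‖ ^ 2 + ⟪a, u⟫ ^ 2))) := by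
  refine (Cd.integrable_gauss D hl).mono' (Continuous.aestronglyMeasurable (by fun_prop))
    (.of_forall fun u => ?_)
  rw [Real.norm_of_nonneg (Real.exp_pos _).le, Real.exp_le_exp]
  nlinarith [sq_nonneg ⟪a, u⟫]

theorem gpLin_int1 (hl : 0 < l) (a : V D) : Integrable fun u : V D =>
    (‖u‖ ^ 2 + ⟪a, u⟫ ^ 2) * Real.exp (-(l * (‖u‖ ^ 2 + ⟪a, u⟫ ^ 2))) :=
  gpLin_int (Continuous.measurable (by fun_prop)) (fun u => by positivity) hl
    (gpLin_int0 (half_pos hl) a)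

theorem gpLin_virial (hl : 0 < l) (a : V D) :
    D * ∫ u : V D, Real.exp (-(l * (‖u‖ ^ 2 + ⟪a, u⟫ ^ 2))) ≤
      2 * l * ∫ u : V D, (‖u‖ ^ 2 + ⟪a, u⟫ ^ 2) * Real.exp (-(l * (‖u‖ ^ 2 + ⟪a, u⟫ ^ 2))) := by
  set I := ∫ u : V D, Real.exp (-(l * (‖u‖ ^ 2 + ⟪a, u⟫ ^ 2))) with hI
  set J := ∫ u : V D, (‖u‖ ^ 2 + ⟪a, u⟫ ^ 2) * Real.exp (-(l * (‖u‖ ^ 2 + ⟪a, u⟫ ^ 2))) with hJ
  have I0 : 0 ≤ I := integral_nonneg fun u => (Real.exp_pos _).le
  have key : ∀ t : ℝ, 1 < t → D * I ≤ t ^ D * (t + 1) * l * J := by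
    intro t ht
    have t0 : 0 < t := by linarith
    have h1 := Measure.integral_comp_smul (volume : Measure (V D))
      (fun u => Real.exp (-(l * (‖u‖ ^ 2 + ⟪a, u⟫ ^ 2)))) t
    rw [← hI, finrank_euclideanSpace_fin, abs_of_pos (by positivity), smul_eq_mul] at h1
    have h2 : I - l * (t ^ 2 - 1) * J ≤ (t ^ D)⁻¹ * I := by
      rw [← h1, hI, hJ, ← integral_const_mul,
        ← integral_sub (gpLin_int0 hl a) ((gpLin_int1 hl a).const_mul _)]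
      refine integral_mono ((gpLin_int0 hl a).sub ((gpLin_int1 hl a).const_mul _))
        ((gpLin_int0 hl a).comp_smul t0.ne') fun u => ?_
      simp only [norm_smul, real_inner_smul_right, mul_pow, Real.norm_eq_abs, sq_abs]
      generalize ‖u‖ ^ 2 = x
      generalize ⟪a, u⟫ ^ 2 = y
      rw [show -(l * (t ^ 2 * x + t ^ 2 * y)) = -(l * (t ^ 2 - 1) * (x + y)) + -(l * (x + y)) by ring,
        Real.exp_add]
      nlinarith [Real.add_one_le_exp (-(l * (t ^ 2 - 1) * (x + y))), Real.exp_pos (-(l * (x + y)))]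
    have h3 : 1 + D * (t - 1) ≤ t ^ D := by
      simpa using one_add_mul_le_pow (a := t - 1) (by linarith) D
    have h4 : t ^ D * (I - l * (t ^ 2 - 1) * J) ≤ I := by
      refine (mul_le_mul_of_nonneg_left h2 (by positivity)).trans (le_of_eq ?_)
      field_simp
    refine le_of_mul_le_mul_left (a := t - 1) ?_ (by linarith)
    nlinarith [mul_le_mul_of_nonneg_right h3 I0]
  have hc : Filter.Tendsto (fun t : ℝ => t ^ D * (t + 1) * l * J) (nhdsWithin 1 (Ioi 1))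
      (nhds (1 ^ D * (1 + 1) * l * J)) :=
    (Continuous.tendsto (by fun_prop) 1).mono_left nhdsWithin_le_nhds
  have := ge_of_tendsto hc (Filter.eventually_of_mem self_mem_nhdsWithin key)
  rw [one_pow] at this
  linarith

theorem gpLin_tri {g : ℝ → ℝ} (τ : ℝ × ℝ) : (fun s => g s * tri τ 1 s) =
    (Icc (min τ.1 τ.2) (max τ.1 τ.2)).indicator fun s => g s * ell τ s := by
  funext s
  rw [tri_one, indicator]
  simp only [mem_Icc]
  split_ifs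
  · rfl
  · exact mul_zero _

theorem gpLin_one (C : ℝ) {m : ℝ} (hm : 0 < m) {τ : ℝ × ℝ} (hτ : τ.1 ≠ τ.2) :
    ∫ s, (1 - 2 * m * s ^ 2) * (C * Real.exp (-(m * s ^ 2))) * tri τ 1 s =
      ar τ * (C * Real.exp (-(m * τ.1 ^ 2))) - C * Real.exp (-(m * τ.1 ^ 2)) *
        (Real.exp (2 * m * cen τ * (τ.1 - τ.2)) - 1 - 2 * m * cen τ * (τ.1 - τ.2)) /
          (4 * m * ar τ) := by
  have h0 : τ.2 - τ.1 ≠ 0 := sub_ne_zero.2 hτ.symm
  have h0' : τ.1 - τ.2 ≠ 0 := sub_ne_zero.2 hτ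
  have hd : ∀ s, HasDerivAt (fun s => C * Real.exp (-(m * s ^ 2)) *
      (s * (τ.2 - s) - 1 / (2 * m)) / (τ.2 - τ.1))
      ((1 - 2 * m * s ^ 2) * (C * Real.exp (-(m * s ^ 2))) * ell τ s) s := by
    intro s
    have h1 := (((hasDerivAt_pow 2 s).const_mul m).fun_neg.exp.const_mul C).fun_mul
      (((hasDerivAt_id' s).fun_mul ((hasDerivAt_id' s).const_sub τ.2)).sub_const (1 / (2 * m)))
    refine (h1.div_const (τ.2 - τ.1)).congr_deriv ?_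
    unfold ell
    field_simp
    ring
  have h2 : Real.exp (-(m * τ.2 ^ 2)) =
      Real.exp (-(m * τ.1 ^ 2)) * Real.exp (2 * m * cen τ * (τ.1 - τ.2)) := by
    rw [← Real.exp_add, cen]
    congr 1
    ring
  rw [gpLin_tri, integral_indicator measurableSet_Icc, integral_Icc_eq_integral_Ioc,
    ← intervalIntegral.integral_of_le min_le_max,
    intervalIntegral.integral_eq_sub_of_hasDerivAt (fun s _ => hd s)
      (Continuous.intervalIntegrable (by unfold ell; fun_prop) _ _)]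
  rcases lt_or_gt_of_ne hτ with h | h
  · rw [min_eq_left h.le, max_eq_right h.le, h2, ar, abs_of_pos (sub_pos.2 h)]
    generalize Real.exp (2 * m * cen τ * (τ.1 - τ.2)) = E
    rw [cen]
    field_simp
    ring
  · rw [min_eq_right h.le, max_eq_left h.le, h2, ar, abs_of_neg (sub_neg.2 h), neg_sub]
    generalize Real.exp (2 * m * cen τ * (τ.1 - τ.2)) = E
    rw [cen]
    field_simp
    ring

theorem gpLin_exp {x M : ℝ} (hM : 0 ≤ M) (h : -M ≤ x) :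
    Real.exp (-M) ^ 2 * x ^ 2 ≤ Real.exp (2 * x) - 1 - 2 * x := by
  have h1 := Real.add_one_le_exp x
  have h2 : Real.exp (-M) ≤ 1 := Real.exp_le_one_iff.2 (by linarith)
  have h3 := Real.exp_pos (-M)
  have h4 : (Real.exp (-M) * x) ^ 2 ≤ (Real.exp x - 1) ^ 2 := by
    rcases le_total 0 x with hx | hx
    · exact pow_le_pow_left₀ (by positivity) (by nlinarith) 2
    · have h5 : Real.exp (-M) ≤ Real.exp x := Real.exp_le_exp.2 h
      have h6 : Real.exp x * (-x + 1) ≤ Real.exp x * Real.exp (-x) :=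
        mul_le_mul_of_nonneg_left (Real.add_one_le_exp _) (Real.exp_pos _).le
      rw [← Real.exp_add, add_neg_cancel, Real.exp_zero] at h6
      rw [← neg_sq, ← neg_sq (Real.exp x - 1)]
      exact pow_le_pow_left₀ (by nlinarith) (by nlinarith) 2
  rw [two_mul x, Real.exp_add]
  nlinarith

theorem mg_gs (hσ : σ ^ 2 = 1) (l : ℝ) (a : V D) (s : ℝ) : mg σ (gs l) a s =
    (∫ u : V D, Real.exp (-(l * (‖u‖ ^ 2 + ⟪a, u⟫ ^ 2)))) *
      Real.exp (-(l / (1 + ‖a‖ ^ 2) * s ^ 2)) := by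
  refine (gpLin_shift hσ (fun x => Real.exp (-(l * x))) a s).trans ?_
  rw [← integral_mul_const]
  refine integral_congr_ae (.of_forall fun u => ?_)
  simp only [← Real.exp_add]
  congr 1
  ring

theorem mg_div (hσ : σ ^ 2 = 1) (hl : 0 < l) (a : V D) (s : ℝ) :
    mg σ (fun z => (D + 1 - 2 * l * ‖z‖ ^ 2) * gs l z) a s ≤
      (1 - 2 * (l / (1 + ‖a‖ ^ 2)) * s ^ 2) * mg σ (gs l) a s := by
  refine (gpLin_shift hσ (fun x => (D + 1 - 2 * l * x) * Real.exp (-(l * x))) a s).trans_le ?_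
  have h1 : ∀ u : V D, (D + 1 - 2 * l * (s ^ 2 / (1 + ‖a‖ ^ 2) + (‖u‖ ^ 2 + ⟪a, u⟫ ^ 2))) *
      Real.exp (-(l * (s ^ 2 / (1 + ‖a‖ ^ 2) + (‖u‖ ^ 2 + ⟪a, u⟫ ^ 2)))) =
      ((D + 1 - 2 * (l / (1 + ‖a‖ ^ 2)) * s ^ 2) * Real.exp (-(l * (‖u‖ ^ 2 + ⟪a, u⟫ ^ 2))) -
        2 * l * ((‖u‖ ^ 2 + ⟪a, u⟫ ^ 2) * Real.exp (-(l * (‖u‖ ^ 2 + ⟪a, u⟫ ^ 2))))) *
        Real.exp (-(l / (1 + ‖a‖ ^ 2) * s ^ 2)) := by
    intro u
    rw [show -(l * (s ^ 2 / (1 + ‖a‖ ^ 2) + (‖u‖ ^ 2 + ⟪a, u⟫ ^ 2))) =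
      -(l * (‖u‖ ^ 2 + ⟪a, u⟫ ^ 2)) + -(l / (1 + ‖a‖ ^ 2) * s ^ 2) by ring, Real.exp_add]
    ring
  simp only [h1]
  rw [integral_mul_const, integral_sub ((gpLin_int0 hl a).const_mul _)
    ((gpLin_int1 hl a).const_mul _), integral_const_mul, integral_const_mul, mg_gs hσ, ← mul_assoc]
  refine mul_le_mul_of_nonneg_right ?_ (Real.exp_pos _).le
  linarith [gpLin_virial hl a]

theorem lin_tri (hσ : σ ^ 2 = 1) (hl : 0 < l) (a : V D) {τ : ℝ × ℝ} (hτ : τ.1 ≠ τ.2) :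
    (∫ z, (D + 1 - 2 * l * ‖z‖ ^ 2) * gs l z * tri τ 1 ⟪yy σ a, z⟫) + gn l a τ ≤
      ar τ * mg σ (gs l) a τ.1 := by
  have hΦ : Integrable fun z : V (D + 1) => (D + 1 - 2 * l * ‖z‖ ^ 2) * gs l z := by
    refine (((Cd.integrable_gauss (D + 1) hl).const_mul (D + 1)).sub ((gpLin_int
      (Q := fun z : V (D + 1) => ‖z‖ ^ 2) (by fun_prop) (fun u => by positivity) hl
      (Cd.integrable_gauss (D + 1) (half_pos hl))).const_mul (2 * l))).congr (.of_forall fun z => ?_)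
    simp only [gs, Pi.sub_apply]
    ring
  obtain ⟨h1, h2⟩ := marg_mg hσ hΦ a
  have h3 := fun s => tri_mem hτ le_rfl s
  have h4 : ∀ s, |tri τ 1 s| ≤ 1 := fun s => by
    rw [abs_of_nonneg (h3 s).1]
    exact (h3 s).2.2
  have hm : 0 < l / (1 + ‖a‖ ^ 2) := by positivity
  have h5 := gpLin_one (∫ u : V D, Real.exp (-(l * (‖u‖ ^ 2 + ⟪a, u⟫ ^ 2)))) hm hτ
  rw [h2 _ (measurable_tri τ 1) h4, gn, mg_gs hσ, mg_gs (one_pow 2), ← le_sub_iff_add_le, ← h5]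
  refine integral_mono (h1.mul_bdd (measurable_tri τ 1).aestronglyMeasurable (.of_forall h4)) ?_
    fun s => ?_
  · rw [gpLin_tri]
    exact (Continuous.integrableOn_Icc (by unfold ell; fun_prop)).integrable_indicator
      measurableSet_Icc
  · have h6 := mg_div hσ hl a s
    rw [mg_gs hσ] at h6
    exact mul_le_mul_of_nonneg_right h6 (h3 s).1

theorem gn_nonneg (hl : 0 < l) (a : V D) (τ : ℝ × ℝ) : 0 ≤ gn l a τ := by
  have h1 := ar_nonneg τ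
  refine div_nonneg (mul_nonneg (integral_nonneg fun z => (gs_pos _ _).le) ?_) (by positivity)
  linarith [Real.add_one_le_exp (2 * (l / (1 + ‖a‖ ^ 2)) * cen τ * (τ.1 - τ.2))]

theorem gn_lower (D : ℕ) (R : ℝ) {δ : ℝ} (hδ : 0 < δ) : ∃ κ > 0, ∀ l ∈ Icc (1 : ℝ) 2, ∀ a : V D,
    ‖a‖ ≤ R → ∀ τ : ℝ × ℝ, τ.1 ≠ τ.2 → |τ.1| ≤ R → |τ.2| ≤ R → δ ≤ cen τ →
      κ * ar τ ≤ gn l a τ := by
  have hR : 0 < 2 * (1 + R ^ 2) := by positivity
  have C0 : 0 < ∫ u : V D, Real.exp (-(2 * (1 + R ^ 2) * ‖u‖ ^ 2)) :=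
    integral_exp_pos (Cd.integrable_gauss D hR)
  refine ⟨(∫ u : V D, Real.exp (-(2 * (1 + R ^ 2) * ‖u‖ ^ 2))) * Real.exp (-(2 * R ^ 2)) *
    (Real.exp (-R ^ 2) ^ 2 * ((1 + R ^ 2)⁻¹ * δ ^ 2)), by positivity,
    fun l hl a ha τ hτ h1 h2 h3 => ?_⟩
  have l0 : 0 < l := by linarith [hl.1]
  have a2 : ‖a‖ ^ 2 ≤ R ^ 2 := pow_le_pow_left₀ (norm_nonneg a) ha 2
  have e2 : τ.1 ^ 2 ≤ R ^ 2 := by rw [← sq_abs]; exact pow_le_pow_left₀ (abs_nonneg _) h1 2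
  have f2 : τ.2 ^ 2 ≤ R ^ 2 := by rw [← sq_abs]; exact pow_le_pow_left₀ (abs_nonneg _) h2 2
  have r0 := ar_pos hτ
  have b1 : ∫ u : V D, Real.exp (-(2 * (1 + R ^ 2) * ‖u‖ ^ 2)) ≤
      ∫ u : V D, Real.exp (-(l * (‖u‖ ^ 2 + ⟪a, u⟫ ^ 2))) := by
    refine integral_mono (Cd.integrable_gauss D hR) (gpLin_int0 l0 a) fun u => ?_
    have c1 : ⟪a, u⟫ ^ 2 ≤ (‖a‖ * ‖u‖) ^ 2 := by
      rw [← sq_abs]
      exact pow_le_pow_left₀ (abs_nonneg _) (abs_real_inner_le_norm a u) 2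
    have c2 : ‖u‖ ^ 2 + ⟪a, u⟫ ^ 2 ≤ (1 + R ^ 2) * ‖u‖ ^ 2 := by nlinarith [sq_nonneg ‖u‖]
    refine Real.exp_le_exp.2 (neg_le_neg ?_)
    rw [mul_assoc]
    exact mul_le_mul hl.2 c2 (by positivity) zero_le_two
  rw [gn, mg_gs (one_pow 2)]
  have m1 : (1 + R ^ 2)⁻¹ ≤ l / (1 + ‖a‖ ^ 2) := by
    rw [← one_div]
    exact div_le_div₀ l0.le hl.1 (by positivity) (by linarith)
  have m2 : l / (1 + ‖a‖ ^ 2) ≤ 2 := (div_le_self l0.le (by nlinarith [sq_nonneg ‖a‖])).trans hl.2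
  generalize l / (1 + ‖a‖ ^ 2) = m at m1 m2 ⊢
  have m0 : 0 < m := lt_of_lt_of_le (by positivity) m1
  have b2 : Real.exp (-(2 * R ^ 2)) ≤ Real.exp (-(m * τ.1 ^ 2)) :=
    Real.exp_le_exp.2 (neg_le_neg (mul_le_mul m2 e2 (sq_nonneg _) zero_le_two))
  have b3 := gpLin_exp (sq_nonneg R) (x := m * cen τ * (τ.1 - τ.2)) (by
    rw [cen]
    nlinarith [mul_nonneg m0.le (sq_nonneg τ.1), mul_le_mul m2 f2 (sq_nonneg _) zero_le_two])
  have b4 : (m * cen τ * (τ.1 - τ.2)) ^ 2 = m * cen τ ^ 2 * ar τ * (4 * m * ar τ) := by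
    have : (τ.1 - τ.2) ^ 2 = 4 * ar τ ^ 2 := by
      rw [ar, div_pow, sq_abs]
      ring
    rw [mul_pow, this]
    ring
  have b5 : (1 + R ^ 2)⁻¹ * δ ^ 2 ≤ m * cen τ ^ 2 :=
    mul_le_mul m1 (pow_le_pow_left₀ hδ.le h3 2) (sq_nonneg _) m0.le
  rw [b4, ← mul_assoc 2, ← mul_assoc 2] at b3
  rw [le_div_iff₀ (by positivity), mul_assoc, mul_assoc]
  refine mul_le_mul (mul_le_mul b1 b2 (Real.exp_pos _).le (C0.le.trans b1)) (le_trans ?_ b3)
    (by positivity) (mul_nonneg (C0.le.trans b1) (Real.exp_pos _).le)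
  rw [mul_assoc, mul_assoc (m * cen τ ^ 2)]
  gcongr

end Pool.Agent.Lib.MP_0a1ca9_gt.Gp
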