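import Pool.Agent.Lib.MP_0a1ca9_gt.GpDec
import Pool.Agent.Lib.MP_0a1ca9_gt.GpApp
import Pool.Agent.Lib.MP_0a1ca9_gt.CdMain

/-! The charts adapted to a splitting. -/

open MeasureTheory Set Metric Function
open scoped ENNReal RealInnerProductSpace

namespace Pool.Agent.Lib.MP_0a1ca9_gt.Gp

open Cd

variable {D D' k : ℕ} {E : Type*} [NormedAddCommGroup E] [InnerProductSpace ℝ E]

/-- The last coordinates. -/
noncomputable def tl (z : V (D + 1)) : V D := WithLp.toLp 2 fun j => z j.succ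

@[simp] theorem tl_cns (x : ℝ) (z : V D) : tl (cns x z) = z := rfl

theorem continuous_tl : Continuous (tl : V (D + 1) → V D) := by
  unfold tl
  fun_prop

/-- Orthogonal splittings. -/
structure Spl (A : V D →ₗᵢ[ℝ] V k) (B : V D' →ₗᵢ[ℝ] V k) : Prop where
  kk : k = D + D'
  orth : ∀ a b, ⟪A a, B b⟫ = 0
  mp : MeasurePreserving (fun p : V D × V D' => A p.1 + B p.2) (volume.prod volume) volume

theorem Spl.symm {A : V D →ₗᵢ[ℝ] V k} {B : V D' →ₗᵢ[ℝ] V k} (h : Spl A B) : Spl B A :=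
  ⟨h.kk.trans (add_comm _ _), fun b a => by rw [real_inner_comm, h.orth], by
    simpa only [Function.comp_def, Prod.fst_swap, Prod.snd_swap, add_comm] using
      h.mp.comp Measure.measurePreserving_swap⟩

/-- The function of degree `-1` on the fibres of a splitting. -/
noncomputable def ch (ρ : E → ℝ) (q : E) (r : V k →ₗᵢ[ℝ] E) (p : E) (A : V D →ₗᵢ[ℝ] V k)
    (B : V D' →ₗᵢ[ℝ] V k) (b : V D') (z : V (D + 1)) : ℝ := UU ρ q r p (A (tl z) + B b, z 0)

variable {i γ c m M : ℝ} {ρ : E → ℝ} {p q : E} {r : V k →ₗᵢ[ℝ] E} {A : V D →ₗᵢ[ℝ] V k}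
  {B : V D' →ₗᵢ[ℝ] V k}

theorem gpSol_norm (h : Spl A B) (a : V D) (b : V D') : ‖A a + B b‖ ^ 2 = ‖a‖ ^ 2 + ‖b‖ ^ 2 := by
  rw [norm_add_sq_real, h.orth, A.norm_map, B.norm_map]
  ring

theorem gpSol_even (h : Sol k i c ρ) {s : ℝ} (hs : s ≠ 0) (x : E) : ρ (dir (s • x)) = ρ (dir x) := by
  by_cases hx : x = 0
  · rw [hx, smul_zero]
  have h1 := norm_ne_zero_iff.2 hx
  rcases lt_or_gt_of_ne hs with l | l
  · rw [← h.even _ (norm_dir hx)]
    congr 1
    simp only [dir, norm_smul, Real.norm_eq_abs, abs_of_neg l, smul_smul, ← neg_smul]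
    congr 1
    field_simp
  · congr 1
    simp only [dir, norm_smul, Real.norm_eq_abs, abs_of_pos l, smul_smul]
    congr 1
    field_simp

theorem gpSol_swap {f : ℝ × V D × V D' → ℝ≥0∞} (hf : Measurable f) :
    ∫⁻ b, ∫⁻ x, ∫⁻ a, f (x, a, b) = ∫⁻ x, ∫⁻ t, f (x, t) ∂volume.prod volume := by
  rw [lintegral_lintegral_swap (Measurable.lintegral_prod_right'
    (f := fun y : (V D' × ℝ) × V D => f (y.1.2, y.2, y.1.1)) (hf.comp (by fun_prop))).aemeasurable]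
  exact lintegral_congr fun x => (lintegral_prod_symm (fun t => f (x, t))
    (hf.comp measurable_prodMk_left).aemeasurable).symm

theorem gpSol_swap' {f : ℝ × V D × V D' → ℝ≥0∞} (hf : Measurable f) :
    ∫⁻ x, ∫⁻ t, f (x, t) ∂volume.prod volume = ∫⁻ a, ∫⁻ x, ∫⁻ b, f (x, a, b) := by
  have h1 : Measurable fun y : V D × ℝ => ∫⁻ b, f (y.2, y.1, b) := Measurable.lintegral_prod_right'
    (f := fun y : (V D × ℝ) × V D' => f (y.1.2, y.1.1, y.2)) (hf.comp (by fun_prop))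
  rw [lintegral_lintegral_swap (f := fun a x => ∫⁻ b, f (x, a, b)) h1.aemeasurable]
  exact lintegral_congr fun x => lintegral_prod (fun t => f (x, t))
    (hf.comp measurable_prodMk_left).aemeasurable

theorem Spl.nn_eq (h : Spl A B) (b : V D') (z : V (D + 1)) :
    nn (A (tl z) + B b, z 0) = √(1 + ‖b‖ ^ 2 + ‖z‖ ^ 2) := by
  obtain ⟨t, y, rfl⟩ := exists_cns z
  rw [nn, norm_cns_sq, tl_cns, cns_zero, gpSol_norm h]
  congr 1
  ring

theorem continuous_ch (h : Sol k i c ρ) (hf : Frm p r q) :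
    Continuous (uncurry (ch ρ q r p A B)) := by
  have h1 : Continuous (UU ρ q r p) :=
    (h.continuous_comp hf.symm).div continuous_nn fun w => (nn_pos w).ne'
  have h2 := A.continuous
  have h3 := B.continuous
  have h4 := continuous_tl (D := D)
  exact h1.comp (f := fun y : V D' × V (D + 1) => (A (tl y.2) + B y.1, y.2 0)) (by fun_prop)

theorem HH_ch (h : Sol k i c ρ) (hs : Spl A B) (ig : i + γ = k + 1) (b : V D') (z : V (D + 1)) :
    HH i γ (1 + ‖b‖ ^ 2) (ch ρ q r p A B b) z =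
      ρ (dir (XX q r p (A (tl z) + B b, z 0))) ^ i / nn (A (tl z) + B b, z 0) ^ (k + 1) := by
  have hn := nn_pos (A (tl z) + B b, z 0)
  have e : (k + 1 : ℕ) = i + γ := by rw [ig, Nat.cast_succ]
  rw [HH, ← Real.sq_sqrt (by positivity : 0 ≤ 1 + ‖b‖ ^ 2 + ‖z‖ ^ 2), ← hs.nn_eq, ch, UU,
    Real.div_rpow (h.nonneg _) hn.le, ← Real.rpow_natCast, ← Real.rpow_mul hn.le,
    ← Real.rpow_natCast, e, Real.rpow_add hn, Nat.cast_ofNat,
    show (2 : ℝ) * (-γ / 2) = -γ by ring, Real.rpow_neg hn.le, ← div_eq_mul_inv, div_div]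

theorem ch_eq (h : Sol k i c ρ) (hf : Frm p r q) (hs : Spl A B) (hi : 0 < i) (ig : i + γ = k + 1)
    (b : V D') (x : ℝ) (z : V D) :
    ∫⁻ a, ∫⁻ w, ENNReal.ofReal (HH i γ (1 + ‖a‖ ^ 2) (ch ρ p r q B A a)
      (cns (-(x + ⟪a, z⟫) - ⟪b, w⟫) w)) = ENNReal.ofReal (c * ch ρ q r p A B b (cns x z)) := by
  have h4 : Continuous fun t : V k => ENNReal.ofReal
      (ρ (dir (XX p r q (t, -x - ⟪t, A z + B b⟫))) ^ i /
        nn (t, -x - ⟪t, A z + B b⟫) ^ (k + 1)) :=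
    ENNReal.continuous_ofReal.comp ((((h.continuous_comp hf).comp (by fun_prop)).rpow_const
      fun _ => Or.inr hi.le).div (by fun_prop) fun _ => (pow_pos (nn_pos _) (k + 1)).ne')
  refine Eq.trans ?_ (h.eq p r q hf x (A z + B b))
  rw [← hs.mp.lintegral_comp h4.measurable]
  refine Eq.trans ?_ (lintegral_prod _ (h4.measurable.comp hs.mp.measurable).aemeasurable).symm
  refine lintegral_congr fun a => lintegral_congr fun w => ?_
  have e : -x - ⟪A a + B w, A z + B b⟫ = -(x + ⟪a, z⟫) - ⟪b, w⟫ := by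
    rw [inner_add_left, inner_add_right, inner_add_right, hs.orth, hs.symm.orth, A.inner_map_map,
      B.inner_map_map, real_inner_comm b w]
    ring
  rw [HH_ch h hs.symm ig, tl_cns, cns_zero, ← e, add_comm (B w)]
  rfl

theorem ch_cross (h : Sol k i c ρ) (hf : Frm p r q) (hs : Spl A B) (hi : 0 < i)
    (ig : i + γ = k + 1) : ∫⁻ b, CC i γ (1 + ‖b‖ ^ 2) (ch ρ q r p A B b) =
      ∫⁻ a, NN i γ (1 + ‖a‖ ^ 2) (ch ρ p r q B A a) := by
  let X : ℝ × (V D × V D') × ℝ → E := fun y => y.1 • p + r (A y.2.1.1 + B y.2.1.2) + y.2.2 • q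
  let g : ℝ × (V D × V D') × ℝ → ℝ := fun y => ρ (dir (X y)) / ‖X y‖ *
    (ρ (dir (X y)) ^ i / ‖X y‖ ^ (k + 1)) * ((y.1 ^ 2 + ‖y.2.1.1‖ ^ 2) / ‖X y‖ ^ 2)
  have hX : ∀ y, ‖X y‖ ^ 2 = y.1 ^ 2 + (‖y.2.1.1‖ ^ 2 + ‖y.2.1.2‖ ^ 2) + y.2.2 ^ 2 := fun y => by
    rw [CdEq_norm_sq hf, gpSol_norm hs]
  have cX : Continuous X := by
    have h1 := r.continuous
    have h2 := A.continuous
    have h3 := B.continuous
    fun_prop
  have h0 : ∀ y ∈ ({0}ᶜ : Set (ℝ × (V D × V D') × ℝ)), ‖X y‖ ≠ 0 := by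
    rintro ⟨x, ⟨a, b⟩, u⟩ hy e
    have h1 := hX (x, (a, b), u)
    rw [e] at h1
    have h2 : x = 0 := by nlinarith [sq_nonneg ‖a‖, sq_nonneg ‖b‖, sq_nonneg u]
    have h3 : u = 0 := by nlinarith [sq_nonneg ‖a‖, sq_nonneg ‖b‖, sq_nonneg x]
    have h4 : ‖a‖ = 0 := by nlinarith [sq_nonneg x, sq_nonneg ‖b‖, sq_nonneg u]
    have h5 : ‖b‖ = 0 := by nlinarith [sq_nonneg x, sq_nonneg ‖a‖, sq_nonneg u]
    rw [norm_eq_zero] at h4 h5
    exact hy (by rw [h2, h3, h4, h5]; rfl)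
  have cρ : ContinuousOn (fun y => ρ (dir (X y))) {0}ᶜ :=
    h.cont.comp ((cX.norm.continuousOn.inv₀ h0).smul cX.continuousOn) fun y hy => by
      simpa using norm_dir (norm_ne_zero_iff.1 (h0 y hy))
  have mg : Measurable fun y => ENNReal.ofReal (g y) :=
    (measurable_of_continuousOn_compl_singleton 0 (((cρ.div cX.norm.continuousOn h0).mul
      ((cρ.rpow_const fun _ _ => Or.inr hi.le).div (cX.norm.pow _).continuousOn fun y hy =>
        pow_ne_zero _ (h0 y hy))).mul (ContinuousOn.div (by fun_prop)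
          (cX.norm.pow _).continuousOn fun y hy => pow_ne_zero _ (h0 y hy)))).ennreal_ofReal
  have key := lintegral_cross (volume.prod volume) mg fun s hs0 x t u => by
    have e1 : X (s * x, s • t, s * u) = s • X (x, t, u) := by
      simp only [X, Prod.smul_fst, Prod.smul_snd, map_smul, map_add]
      module
    have e2 : Module.finrank ℝ (V D × V D') = k := by simp [hs.kk]
    have h1 : |s| ≠ 0 := abs_ne_zero.2 hs0
    rw [← ENNReal.ofReal_mul (by positivity), e2]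
    congr 1
    simp only [g]
    rw [e1, gpSol_even h hs0, Prod.smul_fst, norm_smul, norm_smul, Real.norm_eq_abs, mul_pow s,
      ← sq_abs s]
    by_cases h2 : ‖X (x, t, u)‖ = 0
    · simp [h2]
    · field_simp
      ring
  have m1 : Measurable fun y : ℝ × V D × V D' => ENNReal.ofReal (g (y.1, y.2, 1)) :=
    mg.comp (by fun_prop)
  have m2 : Measurable fun y : ℝ × V D × V D' => ENNReal.ofReal (g (1, y.2, y.1)) :=
    mg.comp (by fun_prop)
  have l1 : ∀ b, CC i γ (1 + ‖b‖ ^ 2) (ch ρ q r p A B b) =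
      ∫⁻ x, ∫⁻ a, ENNReal.ofReal (g (x, (a, b), 1)) := fun b => by
    have e : ∀ z : V (D + 1), ch ρ q r p A B b z * HH i γ (1 + ‖b‖ ^ 2) (ch ρ q r p A B b) z *
        (‖z‖ ^ 2 / (1 + ‖b‖ ^ 2 + ‖z‖ ^ 2)) = g (z 0, (tl z, b), 1) := fun z => by
      obtain ⟨x, a, rfl⟩ := exists_cns z
      have e1 : XX q r p (A a + B b, x) = X (x, (a, b), 1) := by
        simp only [XX, X, one_smul]
        abel
      have e2 := hX (x, (a, b), 1)
      rw [HH_ch h hs ig, ch, UU, tl_cns, cns_zero, ← hf.symm.norm_XX, e1, norm_cns_sq]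
      simp only [g, e2]
      congr 2
      ring
    have h4 := continuous_tl (D := D)
    simp only [CC, e]
    exact lintegral_cns' (f := fun z => ENNReal.ofReal (g (z 0, (tl z, b), 1)))
      (mg.comp (Continuous.measurable (by fun_prop)))
  have l2 : ∀ a, NN i γ (1 + ‖a‖ ^ 2) (ch ρ p r q B A a) =
      ∫⁻ u, ∫⁻ b, ENNReal.ofReal (g (1, (a, b), u)) := fun a => by
    have e : ∀ z : V (D' + 1), ch ρ p r q B A a z * HH i γ (1 + ‖a‖ ^ 2) (ch ρ p r q B A a) z *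
        ((1 + ‖a‖ ^ 2) / (1 + ‖a‖ ^ 2 + ‖z‖ ^ 2)) = g (1, (a, tl z), z 0) := fun z => by
      obtain ⟨u, b, rfl⟩ := exists_cns z
      have e1 : XX p r q (B b + A a, u) = X (1, (a, b), u) := by
        simp only [XX, X, one_smul, add_comm (B b)]
      have e2 := hX (1, (a, b), u)
      rw [HH_ch h hs.symm ig, ch, UU, tl_cns, cns_zero, ← hf.norm_XX, e1, norm_cns_sq]
      simp only [g, e2, one_pow]
      congr 2
      ring
    have h4 := continuous_tl (D := D')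
    simp only [NN, e]
    exact lintegral_cns' (f := fun z => ENNReal.ofReal (g (1, (a, tl z), z 0)))
      (mg.comp (Continuous.measurable (by fun_prop)))
  simp only [l1, l2]
  rw [gpSol_swap m1, ← gpSol_swap' m2]
  exact key

theorem ch_sz (h : Sol k i c ρ) (hf : Frm p r q) (hs : Spl A B) (hi : 0 < i) (hγ : 0 < γ)
    (ig : i + γ = k + 1) (hD : (D : ℝ) ≤ i) (hD' : 1 ≤ D') (hm : 0 < m)
    (hb : ∀ u, ‖u‖ = 1 → ρ u ∈ Icc m M) (b : V D') :
    Sz i γ (1 + ‖b‖ ^ 2) m M (ch ρ q r p A B b) := by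
  have h1 : (1 : ℝ) ≤ D' := by exact_mod_cast hD'
  have h2 : ∀ z, ch ρ q r p A B b z * √(1 + ‖b‖ ^ 2 + ‖z‖ ^ 2) ∈ Icc m M := fun z => by
    rw [← hs.nn_eq, ch, UU_mul]
    exact hb _ (norm_dir (hf.symm.XX_ne _))
  exact ⟨hi, hD, hγ, by rw [ig, hs.kk]; push_cast; linarith, le_add_of_nonneg_right (sq_nonneg _),
    hm, (continuous_ch h hf).uncurry_left b, fun z => (h2 z).1, fun z => (h2 z).2⟩

theorem ch_ch (h : Sol k i c ρ) (hf : Frm p r q) (hs : Spl A B) (hi : 0 < i) (hγ : 0 < γ)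
    (ig : i + γ = k + 1) (hD : (D : ℝ) ≤ i) (hD' : (D' : ℝ) ≤ i) (h1 : 1 ≤ D) (h1' : 1 ≤ D')
    (hc : 0 < c) (hm : 0 < m) (hb : ∀ u, ‖u‖ = 1 → ρ u ∈ Icc m M) :
    Ch i γ c m M (ch ρ q r p A B) (ch ρ p r q B A) :=
  ⟨by rw [ig, hs.kk]; push_cast; ring, hc, continuous_ch h hf, continuous_ch h hf.symm,
    ch_sz h hf hs hi hγ ig hD h1' hm hb, ch_sz h hf.symm hs.symm hi hγ ig hD' h1 hm hb,
    ch_eq h hf hs hi ig, ch_eq h hf.symm hs.symm hi ig, ch_cross h hf hs hi ig,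
    ch_cross h hf.symm hs.symm hi ig⟩

end Pool.Agent.Lib.MP_0a1ca9_gt.Gp
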