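import Pool.Agent.Lib.MP_0a1ca9_gt.TpDef

/-! The order `n - 1`: components of low level, and generic tuples. -/

open MeasureTheory Set Filter Topology Module
open scoped ENNReal RealInnerProductSpace

namespace Pool.Agent.Lib.MP_0a1ca9_gt.Cd

variable {k : ℕ} {H : V k × ℝ → ℝ}

/-- Sketch: `tendsto_order`. Lower bound `b < bt`: `t < H (a, ·)` on the compact `[z, b]` persists
(`isCompact_Icc.eventually_forall_of_forall_eventually`, as in `measurable_bt`), `bt_spec`.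
Upper bound: `H (a, y) < t` and `z < y` persist, `csInf_le`. -/
theorem Dec.continuousAt_bt (h : Dec H) {a : V k} {t z : ℝ} (ht : 0 < t) (hz : t < H (a, z))
    (hs : ∀ y, bt H (a, t, z) < y → H (a, y) < t) : ContinuousAt (bt H) (a, t, z) := by
  have hc := h.cont
  obtain ⟨h1, h2, -, -, h3⟩ := h.comp ht hz
  have h0 : ∀ᶠ ω : V k × ℝ × ℝ in 𝓝 (a, t, z), 0 < ω.2.1 :=
    (isOpen_lt continuous_const (by fun_prop)).mem_nhds ht
  refine tendsto_order.2 ⟨fun b hb => ?_, fun y hy => ?_⟩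
  · obtain ⟨x, x1, x2⟩ := exists_between h1
    have h4 : ∀ᶠ ω : V k × ℝ × ℝ in 𝓝 (a, t, z), ∀ y ∈ Icc x b, ω.2.1 < H (ω.1, y) :=
      isCompact_Icc.eventually_forall_of_forall_eventually fun y hy =>
        (isOpen_lt (f := fun p : (V k × ℝ × ℝ) × ℝ => p.1.2.1)
          (g := fun p : (V k × ℝ × ℝ) × ℝ => H (p.1.1, p.2)) (by fun_prop) (by fun_prop)).mem_nhds
          (h3 y (x1.trans_le hy.1) (hy.2.trans_lt hb)).1
    have h5 : ∀ᶠ ω : V k × ℝ × ℝ in 𝓝 (a, t, z), x < ω.2.2 :=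
      (isOpen_lt continuous_const (by fun_prop)).mem_nhds x2
    filter_upwards [h0, h4, h5] with ω k0 k4 k5
    obtain ⟨k1, k2, -⟩ := h.bt_spec ω.1 ω.2.2 k0
    exact not_le.1 fun k3 => not_le.2 (k4 _ ⟨k5.le.trans k1, k3⟩) k2
  · obtain ⟨x, x1, x2⟩ := exists_between hy
    have h4 : ∀ᶠ ω : V k × ℝ × ℝ in 𝓝 (a, t, z), H (ω.1, x) < ω.2.1 :=
      (isOpen_lt (f := fun ω : V k × ℝ × ℝ => H (ω.1, x)) (by fun_prop) (by fun_prop)).mem_nhds
        (hs x x1)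
    have h5 : ∀ᶠ ω : V k × ℝ × ℝ in 𝓝 (a, t, z), ω.2.2 < x :=
      (isOpen_lt (by fun_prop) continuous_const).mem_nhds (h2.trans x1)
    filter_upwards [h4, h5] with ω k4 k5
    exact lt_of_le_of_lt (csInf_le ⟨ω.2.2, fun _ e => e.1⟩ ⟨k5.le, k4.le⟩) x2

theorem tpLow_one (h : Dec H) {a : V k} {N t : ℝ} (hN : 0 ≤ N) (ht : 0 < t)
    (h1 : ∀ y ∈ Icc 0 N, t < H (a, y)) (h2 : ∀ z z', N ≤ z → z < z' → H (a, z') < H (a, z)) :
    N < bt H (a, t, 0) ∧ ContinuousAt (bt H) (a, t, 0) := by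
  obtain ⟨k1, k2, -⟩ := h.bt_spec a 0 ht
  have k3 : N < bt H (a, t, 0) := not_le.1 fun e => not_le.2 (h1 _ ⟨k1, e⟩) k2
  exact ⟨k3, h.continuousAt_bt ht (h1 0 ⟨le_rfl, hN⟩) fun y hy => (h2 _ _ k3.le hy).trans_le k2⟩

/-- Sketch: `T` is the minimum of `H (a, ·)` on `[-N', N']`, `N' = max (max N Z) 0 + 1`;
`Dec.comp`, `continuousAt_bt` for `H` and for `Dec.flip`. -/
theorem Dec.low (h : Dec H) (ht : Tail H) (a : V k) (N : ℝ) : ∃ T > 0, ∀ t ∈ Ioo 0 T,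
    t < H (a, 0) ∧ N < bt H (a, t, 0) ∧ al H (a, t, 0) < -N ∧ ContinuousAt (cc H) (a, t, 0) ∧
      ContinuousAt (rr H) (a, t, 0) := by
  obtain ⟨Z, hZ⟩ := ht a
  have hc := h.cont
  obtain ⟨M, m0, m1, m2⟩ : ∃ M : ℝ, 0 ≤ M ∧ N ≤ M ∧ Z ≤ M :=
    ⟨max 0 (max N Z), le_max_left _ _, le_max_of_le_right (le_max_left _ _),
      le_max_of_le_right (le_max_right _ _)⟩
  obtain ⟨y, -, hy⟩ := (isCompact_Icc (a := -M) (b := M)).exists_isMinOn
    (f := fun y => H (a, y)) ⟨0, neg_nonpos.2 m0, m0⟩ (by fun_prop)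
  refine ⟨H (a, y), h.pos _, fun t ht => ?_⟩
  have h1 : ∀ x ∈ Icc (-M) M, t < H (a, x) := fun x hx => ht.2.trans_le (hy hx)
  obtain ⟨k1, k2⟩ := tpLow_one h m0 ht.1 (fun x hx => h1 x ⟨by linarith [hx.1], hx.2⟩)
    fun z z' e e' => (hZ z z' (m2.trans e) e').1
  obtain ⟨k3, k4⟩ := tpLow_one h.flip (a := a) m0 ht.1
    (fun x hx => h1 (-x) ⟨neg_le_neg hx.2, by linarith [hx.1]⟩)
    fun z z' e e' => (hZ z z' (m2.trans e) e').2
  have k5 : ContinuousAt (al H) (a, t, 0) :=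
    (k4.comp_of_eq (f := fun ω : V k × ℝ × ℝ => (ω.1, ω.2.1, -ω.2.2)) (by fun_prop)
      (by simp)).neg
  refine ⟨h1 0 ⟨neg_nonpos.2 m0, m0⟩, m1.trans_lt k1, ?_, (k5.add k2).div_const 2,
    (k2.sub k5).div_const 2⟩
  simp only [al, neg_zero]
  exact neg_lt_neg (m1.trans_lt k3)

/-- Sketch: `R₀ = rr H (a, T' / 2, 0)`, `T' = min T T₀`; `low` with `N = x`, intermediate values. -/
theorem Dec.exists_rr (h : Dec H) (ht : Tail H) (a : V k) {T : ℝ} (hT : 0 < T) :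
    ∃ R₀ : ℝ, ∀ x ≥ R₀, ∃ t ∈ Ioo 0 T, rr H (a, t, 0) = x := by
  obtain ⟨T₀, t0, h0⟩ := h.low ht a 0
  obtain ⟨s, s0, s1⟩ := exists_between (lt_min hT t0)
  refine ⟨rr H (a, s, 0), fun x hx => ?_⟩
  obtain ⟨T₁, t1, h1⟩ := h.low ht a x
  obtain ⟨u, u0, u1⟩ := exists_between (lt_min s0 t1)
  rw [lt_min_iff] at s1 u1
  obtain ⟨-, k1, k2, -⟩ := h1 u ⟨u0, u1.2⟩
  have hc : ContinuousOn (fun t => rr H (a, t, 0)) (Icc u s) := fun t e =>
    ((h0 t ⟨u0.trans_le e.1, e.2.trans_lt s1.2⟩).2.2.2.2.comp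
      (f := fun t : ℝ => (a, t, (0 : ℝ))) (by fun_prop)).continuousWithinAt
  obtain ⟨t, e, e'⟩ := intermediate_value_Icc' u1.1.le hc
    (show x ∈ Icc _ _ from ⟨hx, by simp only [rr]; linarith⟩)
  exact ⟨t, ⟨u0.trans_le e.1, e.2.trans_lt s1.1⟩, e'⟩

/-- Sketch: the preimage of `S` under the affine map `a ↦ cns 1 a` is an affine subspace; it is not
everything since `cns 1 0` and the `cns 1 a - cns 1 0` span; `Measure.addHaar_affineSubspace`. -/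
theorem ae_cns_notMem {S : Submodule ℝ (V (k + 1))} (hS : S ≠ ⊤) : ∀ᵐ a : V k, cns 1 a ∉ S := by
  let s : AffineSubspace ℝ (V k) := ⟨{a | cns 1 a ∈ S}, fun c p q r hp hq hr => by
    have e : cns 1 (c • (p -ᵥ q) +ᵥ r) = c • (cns 1 p - cns 1 q) + cns 1 r := by
      ext j
      refine Fin.cases ?_ (fun j => ?_) j <;> simp
    exact (show cns 1 _ ∈ S from e ▸ S.add_mem (S.smul_mem c (S.sub_mem hp hq)) hr)⟩
  refine measure_eq_zero_iff_ae_notMem.1 (Measure.addHaar_affineSubspace volume s fun e => hS ?_)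
  have h : ∀ a, cns 1 a ∈ S := fun a => (show a ∈ s from e ▸ AffineSubspace.mem_top ℝ _ a)
  refine eq_top_iff.2 fun x _ => ?_
  obtain ⟨t, y, rfl⟩ := exists_cns x
  have e : cns t y = t • cns 1 0 + (cns 1 y - cns 1 0) := by
    ext j
    refine Fin.cases ?_ (fun j => ?_) j <;> simp
  exact e ▸ S.add_mem (S.smul_mem t (h 0)) (S.sub_mem (h y) (h 0))

theorem Dec.ae_notMem (h : Dec H) {S : Submodule ℝ (V (k + 1))} (hS : S ≠ ⊤) :
    ∀ᵐ ω ∂cmu H, yy ω ∉ S := by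
  exact h.ae_cmu.2 ((Measure.quasiMeasurePreserving_fst.ae (ae_cns_notMem hS)).mono
    fun _ e _ _ => e)

/-- Sketch: `ae_cmu`, `isOpen_good`. -/
theorem Dec.exists_near (h : Dec H) {P : V k × ℝ × ℝ → Prop} (hP : ∀ᵐ ω ∂cmu H, P ω)
    {ω₀ : V k × ℝ × ℝ} (h0 : 0 < ω₀.2.1) (h1 : ω₀.2.1 < H (ω₀.1, ω₀.2.2)) {s : Set (V k × ℝ × ℝ)}
    (hs : s ∈ 𝓝 ω₀) : ∃ ω ∈ s, P ω := by
  obtain ⟨ω, k1, k2, k3⟩ := (Measure.dense_of_ae (h.ae_cmu.1 hP)).inter_nhds_nonempty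
    (inter_mem hs (h.isOpen_good.mem_nhds ⟨h0, h1⟩))
  exact ⟨ω, k2, k1 k3.1 k3.2⟩

/-- Sketch: `measurePreserving_piFinSuccAbove`, `Measure.measurePreserving_swap`,
`Measure.ae_ae_of_ae_prod`. -/
theorem ae_cons {Ω : Type*} [MeasurableSpace Ω] (μ : Measure Ω) [SigmaFinite μ] {l : ℕ}
    {P : (Fin (l + 1) → Ω) → Prop} (hP : ∀ᵐ X ∂Measure.pi fun _ => μ, P X) :
    ∀ᵐ X ∂Measure.pi fun _ : Fin l => μ, ∀ᵐ ω ∂μ, P (Fin.cons ω X) := by
  have h1 := ((measurePreserving_piFinSuccAbove (fun _ : Fin (l + 1) => μ) 0).symm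
    _).quasiMeasurePreserving.ae hP
  have h2 := Measure.ae_ae_of_ae_prod (Measure.measurePreserving_swap.quasiMeasurePreserving.ae h1)
  simpa [MeasurableEquiv.piFinSuccAbove, Fin.insertNthEquiv] using h2

/-- Sketch: induction on `l` (all `P`), `ae_cons`, `ae_notMem` for the span, `exists_near`,
`linearIndependent_fin_cons`, `Dec.comp` for `0 < rr`. -/
theorem Dec.exists_indep (h : Dec H) {l : ℕ} (hl : l ≤ k + 1) {P : (Fin l → V k × ℝ × ℝ) → Prop}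
    (hP : ∀ᵐ X ∂Measure.pi fun _ => cmu H, P X) :
    ∃ X, P X ∧ LinearIndependent ℝ (fun j => yy (X j)) ∧ ∀ j, 0 < rr H (X j) := by
  induction l with
  | zero =>
    have : (ae (Measure.pi fun _ : Fin 0 => cmu H)).NeBot := ae_neBot.2 fun e => by
      have := Measure.pi_univ fun _ : Fin 0 => cmu H
      simp [e] at this
    obtain ⟨X, hX⟩ := hP.exists
    exact ⟨X, hX, linearIndependent_empty_type, fun j => j.elim0⟩
  | succ l ih =>
    obtain ⟨X, h1, h2, h3⟩ := ih (Nat.le_of_succ_le hl) (ae_cons _ hP)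
    have hS : Submodule.span ℝ (range fun j => yy (X j)) ≠ ⊤ := fun e => by
      have := finrank_le_of_span_eq_top e
      rw [finrank_euclideanSpace_fin, Fintype.card_fin] at this
      omega
    have hg : ∀ᵐ ω ∂cmu H, 0 < rr H ω := h.ae_cmu.2 (ae_of_all _ fun ω k1 k2 => by
      obtain ⟨k3, k4, -⟩ := h.comp k1 k2
      exact half_pos (sub_pos.2 (k3.trans k4)))
    obtain ⟨ω, -, k1, k2, k3⟩ := h.exists_near (h1.and ((h.ae_notMem hS).and hg))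
      (ω₀ := (0, H (0, 0) / 2, 0)) (half_pos (h.pos _)) (half_lt_self (h.pos _)) univ_mem
    refine ⟨Fin.cons ω X, k1, ?_, fun j => Fin.cases k3 h3 j⟩
    have e : (fun j => yy ((Fin.cons ω X : Fin (l + 1) → _) j)) =
        Fin.cons (yy ω) fun j => yy (X j) := funext fun j => Fin.cases rfl (fun _ => rfl) j
    rw [e]
    exact linearIndependent_finCons.2 ⟨h2, k2⟩

end Pool.Agent.Lib.MP_0a1ca9_gt.Cd
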