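import Pool.Agent.Lib.MP_0a1ca9_gt.TpGain
import Pool.Agent.Lib.MP_0a1ca9_gt.TpLow

/-! The order `n - 1`: the centres of the components lie in a hyperplane. -/

open MeasureTheory Set Filter Topology Module Submodule
open scoped ENNReal RealInnerProductSpace

namespace Pool.Agent.Lib.MP_0a1ca9_gt.Cd

variable {k : ℕ} {H : V k × ℝ → ℝ}

/-- Components of low level. -/
def Lw (H : V k × ℝ → ℝ) (a : V k) (N t : ℝ) : Prop :=
  0 < t ∧ t < H (a, 0) ∧ N < bt H (a, t, 0) ∧ al H (a, t, 0) < -N ∧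
    ContinuousAt (cc H) (a, t, 0) ∧ ContinuousAt (rr H) (a, t, 0)

theorem Dec.ev_low (h : Dec H) (ht : Tail H) (a : V k) (N : ℝ) : ∀ᶠ t in 𝓝[>] 0, Lw H a N t := by
  obtain ⟨T, hT, h1⟩ := h.low ht a N
  filter_upwards [Ioo_mem_nhdsGT hT] with t ht using ⟨ht.1, h1 t ht⟩

theorem Dec.ev_match (h : Dec H) (ht : Tail H) (a a' : V k) {x : ℝ} (hx : 0 < x) {P : ℝ → Prop}
    (hP : ∀ᶠ t in 𝓝[>] 0, P t) :
    ∀ᶠ t in 𝓝[>] 0, ∃ t', P t' ∧ rr H (a', t', 0) = x * rr H (a, t, 0) := by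
  obtain ⟨T, hT, h1⟩ := mem_nhdsGT_iff_exists_Ioo_subset.1 hP
  obtain ⟨R, h2⟩ := h.exists_rr ht a' hT
  filter_upwards [h.ev_low ht a (R / x)] with t h3
  obtain ⟨t', h4, h5⟩ := h2 (x * rr H (a, t, 0)) ((div_le_iff₀' hx).1 (by
    rw [rr]; linarith [h3.2.2.1, h3.2.2.2.1]))
  exact ⟨t', h1 h4, h5⟩

theorem Dec.key (h : Dec H) (b : Basis (Fin (k + 1)) ℝ (V (k + 1))) {C R : Fin k → ℝ}
    (hR : ∀ j, 0 < R j) (hf : ∀ᵐ ω₁ ∂cmu H, ∀ᵐ ω₂ ∂cmu H, ¬Gain (sv (fun j => b j.succ) C R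
      (yy ω₁) (yy ω₂) (cc H ω₁) (cc H ω₂) (rr H ω₁) (rr H ω₂))) {a₁ a₂ : V k} {t₁ t₂ p : ℝ}
    {θ : Fin k → ℝ} (e₁ : cns 1 a₁ = b 0) (e₂ : cns 1 a₂ = p • b 0 + ∑ j, θ j • b j.succ)
    (hp : p ≠ 0) (g₁ : Lw H a₁ (∑ j, |θ j| * R j + |∑ j, θ j * C j|) t₁)
    (g₂ : Lw H a₂ (∑ j, |θ j| * R j + |∑ j, θ j * C j|) t₂)
    (hm : |(|p| * rr H (a₁, t₁, 0) - rr H (a₂, t₂, 0))| < ∑ j, |θ j| * R j) :
    p * cc H (a₁, t₁, 0) - cc H (a₂, t₂, 0) + ∑ j, θ j * C j = 0 := by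
  by_contra hD
  let co : Fin (k + 1) → V k × ℝ × ℝ → ℝ := fun i ω => b.coord i (yy ω)
  have hco : ∀ i, Continuous (co i) := fun i => (b.coord i).continuous_of_finiteDimensional.comp
    (continuous_cns.comp (continuous_const.prodMk continuous_fst))
  have hy : ∀ ω, yy ω = co 0 ω • b 0 + ∑ j : Fin k, co j.succ ω • b j.succ := fun ω => by
    rw [← b.sum_repr (yy ω), Fin.sum_univ_succ]
    rfl
  have v1 : co 0 (a₁, t₁, 0) = 1 := by simp [co, yy, e₁]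
  have v2 : ∀ j : Fin k, co j.succ (a₁, t₁, 0) = 0 := fun j => by simp [co, yy, e₁]
  have v3 : co 0 (a₂, t₂, 0) = p := by simp [co, yy, e₂]
  have v4 : ∀ j : Fin k, co j.succ (a₂, t₂, 0) = θ j := fun j => by
    simp [co, yy, e₂, Finsupp.single_apply]
  let D : (V k × ℝ × ℝ) × V k × ℝ × ℝ → ℝ := fun q =>
    co 0 q.2 * (cc H q.1 - ∑ j : Fin k, co j.succ q.1 * C j) -
      co 0 q.1 * (cc H q.2 - ∑ j : Fin k, co j.succ q.2 * C j)
  let B : (V k × ℝ × ℝ) × V k × ℝ × ℝ → ℝ := fun q =>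
    ∑ j : Fin k, |co 0 q.2 * co j.succ q.1 - co 0 q.1 * co j.succ q.2| * R j
  have c1 : ContinuousAt (fun q : (V k × ℝ × ℝ) × V k × ℝ × ℝ => cc H q.1)
      ((a₁, t₁, 0), (a₂, t₂, 0)) := g₁.2.2.2.2.1.comp_of_eq continuousAt_fst rfl
  have c2 : ContinuousAt (fun q : (V k × ℝ × ℝ) × V k × ℝ × ℝ => cc H q.2)
      ((a₁, t₁, 0), (a₂, t₂, 0)) := g₂.2.2.2.2.1.comp_of_eq continuousAt_snd rfl
  have c3 : ContinuousAt (fun q : (V k × ℝ × ℝ) × V k × ℝ × ℝ => |co 0 q.2| * rr H q.1)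
      ((a₁, t₁, 0), (a₂, t₂, 0)) :=
    ContinuousAt.mul (by fun_prop) (g₁.2.2.2.2.2.comp_of_eq continuousAt_fst rfl)
  have c4 : ContinuousAt (fun q : (V k × ℝ × ℝ) × V k × ℝ × ℝ => |co 0 q.1| * rr H q.2)
      ((a₁, t₁, 0), (a₂, t₂, 0)) :=
    ContinuousAt.mul (by fun_prop) (g₂.2.2.2.2.2.comp_of_eq continuousAt_snd rfl)
  have cD : ContinuousAt D ((a₁, t₁, 0), (a₂, t₂, 0)) :=
    (ContinuousAt.mul (by fun_prop) (c1.sub (by fun_prop))).sub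
      (ContinuousAt.mul (by fun_prop) (c2.sub (by fun_prop)))
  have cB : ContinuousAt B ((a₁, t₁, 0), (a₂, t₂, 0)) := by fun_prop
  have vD : D ((a₁, t₁, 0), (a₂, t₂, 0)) =
      p * cc H (a₁, t₁, 0) - cc H (a₂, t₂, 0) + ∑ j, θ j * C j := by
    simp only [D, v1, v2, v3, v4]
    simp
    ring
  have vB : B ((a₁, t₁, 0), (a₂, t₂, 0)) = ∑ j, |θ j| * R j := by simp [B, v1, v2, v4]
  have k1 : ∀ᶠ q in 𝓝 (((a₁, t₁, 0), (a₂, t₂, 0)) : (V k × ℝ × ℝ) × V k × ℝ × ℝ),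
      co 0 q.1 ≠ 0 ∧ co 0 q.2 ≠ 0 ∧ |(|co 0 q.2| * rr H q.1 - |co 0 q.1| * rr H q.2)| < B q ∧
        B q + |D q| < |co 0 q.2| * rr H q.1 + |co 0 q.1| * rr H q.2 ∧ D q ≠ 0 := by
    refine (ContinuousAt.eventually_ne (by fun_prop) (by simp [v1])).and
      ((ContinuousAt.eventually_ne (by fun_prop) (by simpa [v3])).and
      (((c3.sub c4).abs.eventually_lt cB (by simpa [vB, v1, v3])).and
      (((cB.add cD.abs).eventually_lt (c3.add c4) ?_).and (cD.eventually_ne (vD ▸ hD)))))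
    simp only [Pi.add_apply, vB, vD, v1, v3, abs_one, one_mul]
    have k2 : ∀ {a N t}, Lw H a N t → |cc H (a, t, 0)| + N < rr H (a, t, 0) := fun g => by
      rw [← lt_sub_iff_add_lt, abs_lt, cc, rr]
      constructor <;> linarith [g.2.2.1, g.2.2.2.1]
    have k3 : 0 ≤ ∑ j, |θ j| * R j + |∑ j, θ j * C j| := add_nonneg
      (Finset.sum_nonneg fun j _ => mul_nonneg (abs_nonneg _) (hR j).le) (abs_nonneg _)
    have k4 := mul_le_mul_of_nonneg_left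
      (show |cc H (a₁, t₁, 0)| ≤ rr H (a₁, t₁, 0) by linarith [k2 g₁]) (abs_nonneg p)
    linarith [k2 g₂, abs_add_le (p * cc H (a₁, t₁, 0) - cc H (a₂, t₂, 0)) (∑ j, θ j * C j),
      abs_sub (p * cc H (a₁, t₁, 0)) (cc H (a₂, t₂, 0)), abs_mul p (cc H (a₁, t₁, 0))]
  obtain ⟨s₁, n₁, s₂, n₂, k2⟩ := mem_nhds_prod_iff.1 k1
  obtain ⟨ω₁, m₁, k3⟩ := h.exists_near hf g₁.1 g₁.2.1 n₁
  obtain ⟨ω₂, m₂, k4⟩ := h.exists_near k3 g₂.1 g₂.2.1 n₂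
  obtain ⟨k5, k6, k7, k8, k9⟩ := k2 (mk_mem_prod m₁ m₂)
  exact k4 (gain_of b C hR (hy ω₁) (hy ω₂) k5 k6 rfl k7 k8 k9)

theorem span_ne_top {l : ℕ} (hl : l ≤ k) (v : Fin l → V (k + 1)) : span ℝ (range v) ≠ ⊤ := by
  intro e
  have := finrank_range_le_card (R := ℝ) v
  rw [Set.finrank, e] at this
  simp at this
  omega

theorem Dec.affine (hk : k ≠ 0) (h : Dec H) (ht : Tail H) (hf : Flat (cmu H) yy (cc H) (rr H)) :
    ∃ (x₀ : ℝ) (s₀ : V k), ∀ᵐ ω ∂cmu H, cc H ω = x₀ + ⟪ω.1, s₀⟫ := by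
  obtain ⟨l, rfl⟩ := Nat.exists_eq_succ_of_ne_zero hk
  obtain ⟨X, hX, li, hr⟩ := h.exists_indep (by omega) (ae_cons _ hf)
  set Y : Fin l → V (l + 1 + 1) := fun j => yy (X j) with hY
  obtain ⟨a₂, n₂⟩ := (ae_cns_notMem (span_ne_top (k := l + 1) (by omega) Y)).exists
  obtain ⟨a₁, n₁⟩ := (ae_cns_notMem (span_ne_top le_rfl (Fin.cons (cns 1 a₂) Y))).exists
  have liB := linearIndependent_finCons.2 ⟨linearIndependent_finCons.2 ⟨li, n₂⟩, n₁⟩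
  rw [Fin.range_cons] at n₁
  have n₃ : cns 1 a₂ ∉ span ℝ (insert (cns 1 a₁) (range Y)) := fun e =>
    n₁ (mem_span_insert_exchange e n₂)
  have n₄ : cns 1 a₁ ∉ span ℝ (range Y) := fun e => n₁ (span_mono (subset_insert _ _) e)
  have hA : ∀ᵐ ω ∂cmu H, ∃ (p x δ N : ℝ) (θ : Fin l → ℝ), p ≠ 0 ∧ x ≠ 0 ∧ 0 < δ ∧
      cns 1 a₂ = p • cns 1 a₁ + (x • yy ω + ∑ j, θ j • Y j) ∧ ∀ t₁ t₂, Lw H a₁ N t₁ →
        Lw H a₂ N t₂ → |(|p| * rr H (a₁, t₁, 0) - rr H (a₂, t₂, 0))| < δ →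
        p * cc H (a₁, t₁, 0) - cc H (a₂, t₂, 0) + (x * cc H ω + ∑ j, θ j * cc H (X j)) = 0 := by
    filter_upwards [hX, h.ae_notMem (S := span ℝ (insert (cns 1 a₂) (range Y))) fun e => n₁ (e ▸ mem_top),
      h.ae_notMem (S := span ℝ (insert (cns 1 a₁) (range Y))) fun e => n₃ (e ▸ mem_top),
      h.ae_cmu.2 (ae_of_all _ fun ω h1 h2 => (⟨h1, h2⟩ : 0 < ω.2.1 ∧ ω.2.1 < H (ω.1, ω.2.2)))]
      with ω k1 k2 k3 k4
    have k5 : yy ω ∉ span ℝ (range Y) := fun e => k2 (span_mono (subset_insert _ _) e)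
    have k6 : LinearIndependent ℝ (Fin.cons (cns 1 a₁) (Fin.cons (yy ω) Y) :
        Fin (l + 1 + 1) → V (l + 1 + 1)) := linearIndependent_finCons.2
      ⟨linearIndependent_finCons.2 ⟨li, k5⟩, fun e => k3 (mem_span_insert_exchange
        (Fin.range_cons _ _ ▸ e) n₄)⟩
    let b := basisOfLinearIndependentOfCardEqFinrank k6 (by simp)
    have hb : ⇑b = _ := coe_basisOfLinearIndependentOfCardEqFinrank k6 _
    have k7 := (b.sum_repr (cns 1 a₂)).symm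
    rw [Fin.sum_univ_succ] at k7
    have k8 : ∀ j, 0 < rr H ((Fin.cons ω X : Fin (l + 1) → _) j) := fun j => by
      refine Fin.cases ?_ hr j
      obtain ⟨u1, u2, -⟩ := h.comp k4.1 k4.2
      exact half_pos (sub_pos.2 (u1.trans u2))
    have k9 : (fun j => yy ((Fin.cons ω X : Fin (l + 1) → _) j)) = fun j : Fin (l + 1) => b j.succ :=
      funext fun j => by rw [hb]; exact Fin.cases rfl (fun _ => rfl) j
    have k10 := k7
    rw [Fin.sum_univ_succ, hb] at k10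
    simp only [Fin.cons_zero, Fin.cons_succ] at k10
    have k11 : ∑ j : Fin l, b.repr (cns 1 a₂) j.succ.succ • Y j ∈ span ℝ (range Y) :=
      sum_mem fun j _ => smul_mem _ _ (subset_span ⟨j, rfl⟩)
    have k12 : b.repr (cns 1 a₂) 0 ≠ 0 := fun e => k2 (mem_span_insert_exchange
      (mem_span_insert.2 ⟨_, _, k11, by rw [e, zero_smul, zero_add] at k10; exact k10⟩) n₂)
    have k13 : b.repr (cns 1 a₂) (Fin.succ 0) ≠ 0 := fun e => n₃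
      (mem_span_insert.2 ⟨_, _, k11, by rw [e, zero_smul, zero_add] at k10; exact k10⟩)
    rw [k9] at k1
    exact ⟨_, _, _, _, _, k12, k13, Finset.sum_pos'
      (f := fun j : Fin (l + 1) => |b.repr (cns 1 a₂) j.succ| * rr H ((Fin.cons ω X : Fin _ → _) j))
      (fun j _ => mul_nonneg (abs_nonneg _) (k8 j).le)
      ⟨0, Finset.mem_univ _, mul_pos (abs_pos.2 k13) (k8 0)⟩, k10, fun t₁ t₂ g₁ g₂ hm =>
      (congrArg _ (Fin.sum_univ_succ _).symm).trans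
        (h.key b k8 k1 (by rw [hb]; rfl) k7 k12 g₁ g₂ hm)⟩
  obtain ⟨γ₁, γ₂, hγ₁, hγ₂⟩ : ∃ γ₁ γ₂, (∀ᶠ t in 𝓝[>] 0, cc H (a₁, t, 0) = γ₁) ∧
      ∀ᶠ t in 𝓝[>] 0, cc H (a₂, t, 0) = γ₂ := by
    obtain ⟨ω, -, p, x, δ, N, θ, k1, -, k2, -, k3⟩ := h.exists_near hA (ω₀ := (0, H (0, 0) / 2, 0))
      (half_pos (h.pos _)) (half_lt_self (h.pos _)) univ_mem
    obtain ⟨T, hT, k4⟩ := mem_nhdsGT_iff_exists_Ioo_subset.1 ((h.ev_low ht a₁ N).and
      (h.ev_match ht a₁ a₂ (abs_pos.2 k1) (h.ev_low ht a₂ N)))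
    have := Subtype.preconnectedSpace (isPreconnected_Ioo (a := (0 : ℝ)) (b := T))
    have k5 : IsLocallyConstant fun t : Ioo (0 : ℝ) T => cc H (a₁, t, 0) := by
      refine (IsLocallyConstant.iff_eventually_eq _).2 fun t => ?_
      obtain ⟨k5, t', k6, k7⟩ := k4 t.2
      have k8 : ContinuousAt (fun t : Ioo (0 : ℝ) T => rr H (a₁, t, 0)) t :=
        k5.2.2.2.2.2.comp_of_eq (by fun_prop) rfl
      filter_upwards [((k8.const_mul |p|).sub_const (rr H (a₂, t', 0))).abs.eventually_lt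
        continuousAt_const (by simpa [k7] using k2)] with u hu
      have k9 := k3 _ _ (k4 u.2).1 k6 hu
      have k10 := k3 _ _ k5 k6 (by simpa [k7] using k2)
      exact mul_left_cancel₀ k1 (by linarith)
    have k6 : ∀ᶠ t in 𝓝[>] 0, cc H (a₁, t, 0) = cc H (a₁, T / 2, 0) := by
      filter_upwards [Ioo_mem_nhdsGT hT] with t ht using
        k5.apply_eq_of_preconnectedSpace ⟨t, ht⟩ ⟨T / 2, half_pos hT, half_lt_self hT⟩
    refine ⟨_, p * cc H (a₁, T / 2, 0) + (x * cc H ω + ∑ j, θ j * cc H (X j)), k6, ?_⟩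
    filter_upwards [h.ev_low ht a₂ N, h.ev_match ht a₂ a₁ (inv_pos.2 (abs_pos.2 k1))
      ((h.ev_low ht a₁ N).and k6)] with t k7 ⟨t', k8, k9⟩
    have := k3 _ _ k8.1 k7 (by rw [k9, mul_inv_cancel_left₀ (abs_pos.2 k1).ne']; simpa using k2)
    rw [k8.2] at this
    linarith
  let b := basisOfLinearIndependentOfCardEqFinrank liB (by simp)
  have hb : ⇑b = _ := coe_basisOfLinearIndependentOfCardEqFinrank liB _
  let L := b.constr ℝ (Fin.cons γ₁ (Fin.cons γ₂ fun j => cc H (X j)) : Fin (l + 1 + 1) → ℝ)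
  have L0 : ∀ j, L (b j) = _ := b.constr_basis ℝ _
  rw [hb] at L0
  have L1 : L (cns 1 a₁) = γ₁ := L0 0
  have L2 : L (cns 1 a₂) = γ₂ := L0 (Fin.succ 0)
  have L3 : ∀ j, L (Y j) = cc H (X j) := fun j => L0 j.succ.succ
  obtain ⟨x₀, s₀, e⟩ := exists_cns ((InnerProductSpace.toDual ℝ _).symm L.toContinuousLinearMap)
  refine ⟨x₀, s₀, ?_⟩
  filter_upwards [hA] with ω ⟨p, x, δ, N, θ, k1, k2, k3, k4, k5⟩
  obtain ⟨t, ⟨k6, k7⟩, t', k8, k9⟩ := (((h.ev_low ht a₁ N).and hγ₁).and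
    (h.ev_match ht a₁ a₂ (abs_pos.2 k1) ((h.ev_low ht a₂ N).and hγ₂))).exists
  have k10 := k5 _ _ k6 k8.1 (by simpa [k9] using k3)
  have k11 := congrArg L k4
  simp only [map_add, map_smul, map_sum, L1, L2, L3, smul_eq_mul] at k11
  have k12 : L (yy ω) = x₀ + ⟪ω.1, s₀⟫ := by
    have := InnerProductSpace.toDual_symm_apply (𝕜 := ℝ) (x := yy ω)
      (y := L.toContinuousLinearMap)
    rw [e, yy, inner_cns, mul_one, real_inner_comm] at this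
    exact this.symm
  rw [k7, k8.2] at k10
  exact mul_left_cancel₀ k2 (by rw [← k12]; linarith)

end Pool.Agent.Lib.MP_0a1ca9_gt.Cd
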