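import Pool.Agent.Lib.MP_0a1ca9_gt.TpDef

/-! The order `n - 1`: the first variation vanishes. -/

open MeasureTheory Set Filter Topology
open scoped ENNReal RealInnerProductSpace

namespace Pool.Agent.Lib.MP_0a1ca9_gt.Cd

variable {k : ℕ}

theorem tpFirst_young (a : ℝ≥0∞) {b : ℝ≥0∞} (hb : b ≠ ∞) (n : ℕ) :
    (n + 1) * (a * b ^ n) ≤ a ^ (n + 1) + n * b ^ (n + 1) := by
  by_cases ha : a = ∞
  · simp [ha]
  lift a to NNReal using ha
  lift b to NNReal using hb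
  have h1 := pow_add_mul_le_add_pow (a := (b : ℝ)) (b := a - b) b.2
    (by linarith [a.coe_nonneg, b.coe_nonneg]) (n + 1)
  rw [add_sub_cancel, Nat.add_sub_cancel] at h1
  have h2 : ((n : NNReal) + 1) * (a * b ^ n) ≤ a ^ (n + 1) + n * b ^ (n + 1) := by
    rw [← NNReal.coe_le_coe]
    push_cast at h1 ⊢
    rw [pow_succ (b : ℝ)] at h1 ⊢
    linarith
  exact_mod_cast h2

/-- Sketch: `FF τ = ∫⁻ w : ℝ × V k, g τ w ^ (k + 2)` with `g` of `spread_le` (`mp_cns` as in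
`strip_le'`); `h0`, `hp`, `hq` of `spread_le` (the weight is `nn ^ 0 = 1`); `ENNReal.young_inequality`
gives `K * spr τ ≤ FF τ / (k + 2) + FF 0 * (k + 1) / (k + 2)` and `K * spr 0 = FF 0`; `spr_lim` with
`fv = 0` a.e. (`Dec.comp`: `U ^ (k + 1)` takes the same value at both ends). -/
theorem Chart.first {m M c L : ℝ} {U W : V k × ℝ → ℝ} (h : Chart (k + 1) m M c U W) (hL : 0 ≤ L)
    (lip : ∀ a z z', |U (a, z) - U (a, z')| ≤ L * |z - z'| / (nn (a, z) * nn (a, z'))) :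
    FF (cmu (Hh (k + 1) U)) yy (cc (Hh (k + 1) U)) (rr (Hh (k + 1) U)) 0 ≠ ∞ ∧
      ∀ ε > 0, ∀ᶠ τ in 𝓝[>] (0 : ℝ),
        FF (cmu (Hh (k + 1) U)) yy (cc (Hh (k + 1) U)) (rr (Hh (k + 1) U)) 0 ≤
          FF (cmu (Hh (k + 1) U)) yy (cc (Hh (k + 1) U)) (rr (Hh (k + 1) U)) τ +
            ENNReal.ofReal (τ * ε) := by
  have hd := h.dec
  have hsp := fun τ hτ => h.spread_le (τ := τ) hτ
  have hlim := (h.spr_lim hL lip).2
  have hpa := fun τ : ℝ => h.pairing (cmu (Hh (k + 1) U)) (a := Prod.fst)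
    (C := fun ω => (1 + τ) * cc (Hh (k + 1) U) ω) (r := rr (Hh (k + 1) U))
  have hfv : ∫ ω, fv (Hh (k + 1) U) U ω ∂cmu (Hh (k + 1) U) = 0 := by
    refine integral_eq_zero_of_ae (hd.ae_cmu.2 (ae_of_all _ ?_))
    rintro ⟨a, t, z⟩ h1 h2
    obtain ⟨-, -, k3, k4, -⟩ := hd.comp h1 h2
    have k5 := k3.trans k4.symm
    rw [Hh, Hh, sub_self, Real.rpow_zero, Real.rpow_zero, mul_one, mul_one,
      Real.rpow_left_inj (h.pos _).le (h.pos _).le (by positivity)] at k5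
    simp only [fv, k5, sub_self, Pi.zero_apply]
  rw [hfv] at hlim
  have he1 := h.e1
  set H := Hh (k + 1) U
  have hal := hd.measurable_al
  have hbt := hd.measurable_bt
  have hcc : Measurable (cc H) := by unfold cc; fun_prop
  have hrr : Measurable (rr H) := by unfold rr; fun_prop
  have hyy : Measurable (yy (k := k)) := by unfold yy; fun_prop
  have hc := h.c0
  let g : ℝ → ℝ × V k → ℝ≥0∞ := fun τ w =>
    cmu H {ω | |w.1 + ⟪ω.1, w.2⟫ + (1 + τ) * cc H ω| ≤ rr H ω}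
  have hg : ∀ τ, Measurable (g τ) := fun τ =>
    measurable_measure_prodMk_right (s := {p : (V k × ℝ × ℝ) × ℝ × V k |
      |p.2.1 + ⟪p.1.1, p.2.2⟫ + (1 + τ) * cc H p.1| ≤ rr H p.1})
      (measurableSet_le (by fun_prop) (by fun_prop))
  have hF : ∀ τ, FF (cmu H) yy (cc H) (rr H) τ = ∫⁻ w, g τ w ^ (k + 2) := fun τ => by
    have hm : Measurable fun w : V (k + 1) =>
        cmu H {ω | |⟪yy ω, w⟫ + (1 + τ) * cc H ω| ≤ rr H ω} :=
      measurable_measure_prodMk_right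
        (s := {p : (V k × ℝ × ℝ) × V (k + 1) | |⟪yy p.1, p.2⟫ + (1 + τ) * cc H p.1| ≤ rr H p.1})
        (measurableSet_le (by fun_prop) (by fun_prop))
    rw [FF, ← (mp_cns k).lintegral_comp (hm.pow_const _), ← Measure.volume_eq_prod]
    simp only [yy, inner_cns, one_mul, g]
  have h0 : ∀ w, g 0 w = ENNReal.ofReal (c * W (w.2, w.1)) := by
    intro w
    rw [← he1, ← hd.cmu_meet (y := fun a => -w.1 - ⟪a, w.2⟫) (by fun_prop)]
    simp only [g, cc, rr]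
    congr 1
    ext ω
    simp only [mem_ofPred_eq, abs_le]
    constructor <;> rintro ⟨k1, k2⟩ <;> constructor <;> linarith
  obtain ⟨κ, hκ0, hκ⟩ : ∃ κ : ℝ, 0 < κ ∧ κ = c ^ (k + 1 : ℝ) * c := ⟨_, by positivity, rfl⟩
  have hp : ∀ τ, ∫⁻ w, g τ w * g 0 w ^ (k + 1) =
      ENNReal.ofReal κ * ∫⁻ ω, spr H U τ ω ∂cmu H := by
    intro τ
    have h1 := hpa τ measurable_fst (by fun_prop) hrr
    simp only [sub_self, Real.rpow_zero, ENNReal.ofReal_one, one_mul, ← h0] at h1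
    rw [← hκ, ← Nat.cast_add_one] at h1
    simp only [ENNReal.rpow_natCast] at h1
    refine h1.trans (congrArg _ (lintegral_congr fun ω => ?_))
    rw [spr, cc, rr]
    congr 3 <;> ring
  have hF0 : FF (cmu H) yy (cc H) (rr H) 0 = ENNReal.ofReal κ * ∫⁻ ω, spr H U 0 ω ∂cmu H := by
    rw [hF, ← hp]
    exact lintegral_congr fun w => pow_succ' _ _
  have hfin : FF (cmu H) yy (cc H) (rr H) 0 ≠ ∞ :=
    hF0 ▸ ENNReal.mul_ne_top ENNReal.ofReal_ne_top (hsp 0 le_rfl).2.ne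
  refine ⟨hfin, fun ε hε => ?_⟩
  have h1 : -(ε / ((k + 2) * κ)) < 0 := neg_neg_of_pos (by positivity)
  filter_upwards [hlim.eventually (lt_mem_nhds h1), self_mem_nhdsWithin] with τ h2 hτ
  have hτ' : 0 < τ := hτ
  obtain ⟨h3, h4⟩ := hsp τ hτ'.le
  have h5 : ∫⁻ ω, spr H U 0 ω ∂cmu H ≤
      ∫⁻ ω, spr H U τ ω ∂cmu H + ENNReal.ofReal (τ * (ε / ((k + 2) * κ))) := by
    rw [lt_inv_mul_iff₀ hτ'] at h2
    rw [← ENNReal.ofReal_toReal h4.ne, ← ENNReal.ofReal_toReal (h3.trans_lt h4).ne,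
      ← ENNReal.ofReal_add ENNReal.toReal_nonneg (by positivity)]
    exact ENNReal.ofReal_le_ofReal (by linarith)
  have h6 : ((k + 1 : ℕ) + 1 : ℝ≥0∞) * (ENNReal.ofReal κ * ∫⁻ ω, spr H U τ ω ∂cmu H) ≤
      FF (cmu H) yy (cc H) (rr H) τ + (k + 1 : ℕ) * FF (cmu H) yy (cc H) (rr H) 0 := by
    rw [← hp, hF, hF, ← lintegral_const_mul _ ((hg τ).fun_mul ((hg 0).pow_const _)),
      ← lintegral_const_mul _ ((hg 0).pow_const _), ← lintegral_add_left ((hg τ).pow_const _)]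
    exact lintegral_mono fun w => tpFirst_young _ (h0 w ▸ ENNReal.ofReal_ne_top) _
  have h7 : ((k + 1 : ℕ) + 1 : ℝ≥0∞) *
      (ENNReal.ofReal κ * ENNReal.ofReal (τ * (ε / ((k + 2) * κ)))) = ENNReal.ofReal (τ * ε) := by
    rw [← Nat.cast_add_one, ← ENNReal.ofReal_natCast, ← ENNReal.ofReal_mul hκ0.le,
      ← ENNReal.ofReal_mul (by positivity)]
    congr 1
    push_cast
    field_simp
    ring
  refine (ENNReal.add_le_add_iff_left (ENNReal.mul_ne_top (ENNReal.natCast_ne_top (k + 1))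
    hfin)).1 ?_
  calc _ = ((k + 1 : ℕ) + 1 : ℝ≥0∞) * (ENNReal.ofReal κ * ∫⁻ ω, spr H U 0 ω ∂cmu H) := by
        rw [← hF0, add_mul, one_mul]
    _ ≤ _ := mul_le_mul_right (mul_le_mul_right h5 _) _
    _ ≤ _ := by
        rw [mul_add, mul_add, h7, ← add_assoc]
        exact add_le_add_left (h6.trans_eq (add_comm _ _)) _

end Pool.Agent.Lib.MP_0a1ca9_gt.Cd
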