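import Pool.Agent.Lib.MP_0a1ca9_gt.TpVol
import Pool.Agent.Lib.MP_0a1ca9_gt.TpAff
import Pool.Agent.Lib.MP_0a1ca9_gt.TpFirst
import Pool.Agent.Lib.MP_0a1ca9_gt.CdMain

/-! The classification for the order `n - 1`. -/

open MeasureTheory Set Filter Topology Metric Module
open scoped ENNReal RealInnerProductSpace

namespace Pool.Agent.Lib.MP_0a1ca9_gt.Cd

variable {k : ℕ}

theorem Dec.sym_of_ae {H : V k × ℝ → ℝ} (h : Dec H) {e : V k → ℝ} (he : Continuous e)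
    (h1 : ∀ᵐ ω ∂cmu H, cc H ω = e ω.1) (a : V k) (z : ℝ) : H (a, 2 * e a - z) = H (a, z) := by
  have hc := h.cont
  have ho : IsOpen {ω : V k × ℝ × ℝ |
      H (ω.1, 2 * e ω.1 - ω.2.2) < ω.2.1 ∧ ω.2.1 < H (ω.1, ω.2.2)} := by
    refine IsOpen.and (isOpen_lt ?_ ?_) (isOpen_lt ?_ ?_) <;> fun_prop
  have h3 : ∀ z, H (a, z) ≤ H (a, 2 * e a - z) := by
    intro z
    by_contra k0
    obtain ⟨t, k1, k2⟩ := exists_between (not_le.1 k0)
    obtain ⟨⟨a', t', z'⟩, k3, k4⟩ := h.exists_near h1 (ω₀ := (a, t, z)) ((h.pos _).trans k1) k2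
      (ho.mem_nhds ⟨k1, k2⟩)
    obtain ⟨k5, k6, -, -, k7⟩ := h.comp ((h.pos _).trans k3.1) k3.2
    simp only [cc] at k4 k5 k6
    exact not_lt.2 k3.1.le (k7 (2 * e a' - z') (by linarith) (by linarith)).1
  exact le_antisymm (by simpa using h3 (2 * e a - z)) (h3 z)

theorem Chart.sym_top {m M c L : ℝ} {U W : V k × ℝ → ℝ} (h : Chart (k + 1) m M c U W) (hk : k ≠ 0)
    (hL : 0 ≤ L)
    (lip : ∀ a z z', |U (a, z) - U (a, z')| ≤ L * |z - z'| / (nn (a, z) * nn (a, z')))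
    (ht : Tail U) (rel : ∀ s x, x ≠ 0 → W (s, x) * |x| = U (x⁻¹ • s, x⁻¹)) (a : V k) (z : ℝ) :
    U (a, -z) = U (a, z) := by
  have hH : ∀ p, Hh (k + 1) U p = U p ^ ((k : ℝ) + 1) := fun p => by simp [Hh]
  have hd := h.dec
  have hal := hd.measurable_al
  have hbt := hd.measurable_bt
  have hi : (0 : ℝ) < k + 1 := by positivity
  obtain ⟨x₀, s₀, h1⟩ := hd.affine hk (fun a => (ht a).imp fun Z hZ z z' k1 k2 => by
    simp only [hH]
    exact (hZ z z' k1 k2).imp (fun k => Real.rpow_lt_rpow (h.pos _).le k hi)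
      fun k => Real.rpow_lt_rpow (h.pos _).le k hi)
    (ae_flat _ (by unfold yy; fun_prop) (by unfold cc; fun_prop) (by unfold rr; fun_prop)
      (h.first hL lip).1 (h.first hL lip).2)
  have h2 := hd.sym_of_ae (e := fun a => x₀ + ⟪a, s₀⟫) (by fun_prop) h1
  have U1 : ∀ a z, U (a, 2 * (x₀ + ⟪a, s₀⟫) - z) = U (a, z) := fun a z =>
    (Real.rpow_left_inj (h.pos _).le (h.pos _).le hi.ne').1 (by rw [← hH, ← hH, h2])
  have W1 : ∀ s x, W (-s - (2 : ℝ) • s₀, -x - 2 * x₀) = W (s, x) := fun s x => by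
    have k1 := h.e1 (-x - 2 * x₀) (-s - (2 : ℝ) • s₀)
    have k2 : ∀ a : V k, -(-x - 2 * x₀) - ⟪a, -s - (2 : ℝ) • s₀⟫ =
        2 * (x₀ + ⟪a, s₀⟫) - (-x - ⟪a, s⟫) := fun a => by
      rw [inner_sub_right, inner_neg_right, real_inner_smul_right]; ring
    simp only [k2, h2] at k1
    rw [h.e1, ENNReal.ofReal_eq_ofReal_iff (mul_pos h.c0 (h.symm.pos _)).le
      (mul_pos h.c0 (h.symm.pos _)).le] at k1
    exact (mul_left_cancel₀ h.c0.ne' k1).symm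
  have W2 : ∀ (s : V k) (x : ℝ), 2 * (x₀ * x + ⟪s, s₀⟫) - 1 ≠ 0 →
      W (s, x) * |2 * (x₀ * x + ⟪s, s₀⟫) - 1| =
        W ((2 * (x₀ * x + ⟪s, s₀⟫) - 1)⁻¹ • s, (2 * (x₀ * x + ⟪s, s₀⟫) - 1)⁻¹ * x) := by
    intro s x hx
    have hW := h.cV
    have : (𝓝[{0}ᶜ] x).NeBot := mem_closure_iff_nhdsWithin_neBot.1 (dense_compl_singleton 0 x)
    have k1 : ContinuousAt (fun x => (2 * (x₀ * x + ⟪s, s₀⟫) - 1)⁻¹) x :=
      ContinuousAt.inv₀ (by fun_prop) hx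
    refine tendsto_nhds_unique_of_eventuallyEq (l := 𝓝[{0}ᶜ] x)
      (f := fun x => W (s, x) * |2 * (x₀ * x + ⟪s, s₀⟫) - 1|) (g := fun x =>
        W ((2 * (x₀ * x + ⟪s, s₀⟫) - 1)⁻¹ • s, (2 * (x₀ * x + ⟪s, s₀⟫) - 1)⁻¹ * x))
      (ContinuousAt.continuousWithinAt (by fun_prop))
      (ContinuousAt.continuousWithinAt (by fun_prop)) ?_
    filter_upwards [self_mem_nhdsWithin, mem_nhdsWithin_of_mem_nhds
      (ContinuousAt.eventually_ne (g := fun x => 2 * (x₀ * x + ⟪s, s₀⟫) - 1) (by fun_prop) hx)]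
      with y k2 k3
    have k4 : y ≠ 0 := k2
    set t := 2 * (x₀ * y + ⟪s, s₀⟫) - 1 with e
    have k5 := rel (t⁻¹ • s) (t⁻¹ * y) (by positivity)
    rw [smul_smul, show (t⁻¹ * y)⁻¹ * t⁻¹ = y⁻¹ by field_simp,
      show (t⁻¹ * y)⁻¹ = 2 * (x₀ + ⟪y⁻¹ • s, s₀⟫) - y⁻¹ by
        rw [real_inner_smul_left, mul_inv, inv_inv, e]; field_simp, U1, ← rel s y k4, abs_mul,
      abs_inv] at k5
    rw [← mul_assoc, mul_left_inj' (abs_pos.2 k4).ne'] at k5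
    rw [← k5, inv_mul_cancel_right₀ (abs_pos.2 k3).ne']
  by_cases h0 : x₀ ^ 2 + ‖s₀‖ ^ 2 = 0
  · have k1 : x₀ = 0 := by nlinarith [sq_nonneg x₀, sq_nonneg ‖s₀‖]
    have k2 : s₀ = 0 := by simpa [k1] using h0
    simpa [k1, k2] using U1 a z
  have h3 : 0 < x₀ ^ 2 + ‖s₀‖ ^ 2 := lt_of_le_of_ne (by positivity) (Ne.symm h0)
  set ν := x₀ ^ 2 + ‖s₀‖ ^ 2 with hν
  obtain ⟨σ, h4, h5⟩ : ∃ σ : ℝ, 0 < σ ∧ ν * (σ * (σ + 2)) = 1 := by
    refine ⟨√(1 + ν⁻¹) - 1, sub_pos.2 (Real.lt_sqrt_of_sq_lt (by simpa)), ?_⟩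
    have := Real.sq_sqrt (show 0 ≤ 1 + ν⁻¹ by positivity)
    rw [show (√(1 + ν⁻¹) - 1) * (√(1 + ν⁻¹) - 1 + 2) = √(1 + ν⁻¹) ^ 2 - 1 by ring, this]
    field_simp
    ring
  have h6 : 2 * (x₀ * (σ * x₀) + ⟪σ • s₀, s₀⟫) - 1 = -(σ / (σ + 2)) := by
    rw [real_inner_smul_left, real_inner_self_eq_norm_sq]
    field_simp
    linear_combination 2 * h5 - 2 * σ * (σ + 2) * hν
  have h7 := W2 (σ • s₀) (σ * x₀) (by rw [h6]; exact neg_ne_zero.2 (by positivity))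
  have h8 : (-(σ / (σ + 2)))⁻¹ * σ = -σ - 2 := by field_simp; ring
  rw [h6, smul_smul, ← mul_assoc, h8, sub_smul, sub_mul, neg_smul, neg_mul, W1, abs_neg,
    abs_of_pos (by positivity), mul_right_eq_self₀, div_eq_one_iff_eq (by positivity)] at h7
  exact absurd h7 (not_or.2 ⟨by linarith, (h.symm.pos _).ne'⟩)

variable {E : Type*} [NormedAddCommGroup E] [InnerProductSpace ℝ E]

theorem dir_pos_smul {t : ℝ} (ht : 0 < t) (x : E) : dir (t • x) = dir x := by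
  rw [dir, dir, norm_smul, Real.norm_of_nonneg ht.le, smul_smul, mul_inv, mul_right_comm,
    inv_mul_cancel₀ ht.ne', one_mul]

theorem XX_swap (p : E) (r : V k →ₗᵢ[ℝ] E) (q : E) (s : V k) {x : ℝ} (hx : x ≠ 0) :
    XX q r p (s, x) = x • XX p r q (x⁻¹ • s, x⁻¹) := by
  simp only [XX, map_smul, smul_add, smul_smul, mul_inv_cancel₀ hx, one_smul]
  abel

theorem Frm.tail {p q : E} {r : V k →ₗᵢ[ℝ] E} (hf : Frm p r q) {ρ : E → ℝ} {m Λ : ℝ} (hm : 0 < m)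
    (hb : ∀ w, ‖w‖ = 1 → m ≤ ρ w) (hΛ : 0 ≤ Λ)
    (hl : ∀ u v : E, ‖u‖ = 1 → ‖v‖ = 1 → |ρ u - ρ v| ≤ Λ * ‖u - v‖) (a : V k) :
    ∃ Z : ℝ, ∀ z z', Z ≤ z → z < z' → UU ρ p r q (a, z') < UU ρ p r q (a, z) := by
  refine ⟨max (1 + ‖a‖) (8 * (Λ * (1 + ‖a‖)) / m), fun z z' h1 h2 => ?_⟩
  rw [max_le_iff, div_le_iff₀ hm] at h1
  have ha := norm_nonneg a
  have hz : 0 < z := by linarith [h1.1]
  have hz' : 0 < z' := hz.trans h2
  have k1 : ∀ {y}, 0 < y → dir (XX p r q (a, y)) = dir (XX q r p (y⁻¹ • a, y⁻¹)) := fun hy => by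
    rw [XX_swap q r p a hy.ne', dir_pos_smul hy]
  have k2 := (le_abs_self _).trans (hl _ _ (norm_dir (hf.XX_ne (a, z'))) (norm_dir (hf.XX_ne (a, z))))
  have k3 : ‖dir (XX p r q (a, z')) - dir (XX p r q (a, z))‖ ≤ 2 * (1 + ‖a‖) * (z' - z) / (z * z') := by
    rw [k1 hz, k1 hz']
    refine (hf.symm.dir_XX_sub _ _).trans ((div_le_self (by positivity) (one_le_nn _)).trans
      (le_of_eq ?_))
    rw [← sub_smul, norm_smul, Real.norm_eq_abs, abs_of_neg (sub_neg.2 (inv_strictAnti₀ hz h2))]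
    field_simp
    ring
  have k4 : ∀ {y}, 1 + ‖a‖ ≤ y → nn (a, y) ≤ 2 * y := fun hy =>
    (pow_le_pow_iff_left₀ (nn_pos _).le (by linarith) two_ne_zero).1 (by rw [nn_sq]; nlinarith)
  have k5 := nn_pos (a, z)
  have k6 := nn_pos (a, z')
  have k7 : (z' - z) / 2 ≤ nn (a, z') - nn (a, z) := by
    refine le_of_mul_le_mul_right ?_ (add_pos k5 k6)
    nlinarith [nn_sq (a, z), nn_sq (a, z'), mul_le_mul_of_nonneg_left
      (add_le_add (k4 h1.1) (k4 (h1.1.trans h2.le))) (sub_pos.2 h2).le]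
  have k8 := hb _ (norm_dir (hf.XX_ne (a, z)))
  have k9 : Λ * (2 * (1 + ‖a‖) * (z' - z) / (z * z')) * nn (a, z) < m * ((z' - z) / 2) := by
    have := sub_pos.2 h2
    calc _ ≤ Λ * (2 * (1 + ‖a‖) * (z' - z) / (z * z')) * (2 * z) := by gcongr; exact k4 h1.1
      _ = 8 * (Λ * (1 + ‖a‖)) / z' * ((z' - z) / 2) := by field_simp; ring
      _ < _ := by gcongr; rw [div_lt_iff₀ hz']; nlinarith
  rw [UU, UU, div_lt_div_iff₀ k6 k5]
  nlinarith [mul_le_mul_of_nonneg_right (k2.trans (mul_le_mul_of_nonneg_left k3 hΛ)) k5.le,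
    mul_le_mul k8 k7 (by linarith) (hm.le.trans k8)]

variable [FiniteDimensional ℝ E]

theorem Sol.const_top {c : ℝ} {ρ : E → ℝ} (h : Sol k (k + 1) c ρ) (hE : finrank ℝ E = k + 2)
    (hk : k ≠ 0) (hc : 0 < c) {u v : E} (hu : ‖u‖ = 1) (hv : ‖v‖ = 1) : ρ u = ρ v := by
  refine h.const_of hE hk (lt_add_of_pos_left _ (by positivity)) le_rfl (Or.inr (by linarith)) hc
    (fun {m M Λ L p q r} hf hC hb hΛ hl hL lip => hC.sym_top hk hL lip (fun a => ?_)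
      fun s x hx => ?_) hu hv
  · have hf' : Frm p r (-q) := ⟨hf.np, by rw [norm_neg, hf.nq], by rw [inner_neg_right, hf.pq, neg_zero],
      hf.pr, fun a => by rw [inner_neg_left, hf.qr, neg_zero]⟩
    have e : ∀ y, UU ρ p r (-q) (a, y) = UU ρ p r q (a, -y) := fun y => by simp [UU, XX, nn_neg]
    obtain ⟨Z, h1⟩ := hf.tail hC.m0 hb hΛ hl a
    obtain ⟨Z', h2⟩ := hf'.tail hC.m0 hb hΛ hl a
    exact ⟨max Z Z', fun z z' k1 k2 => ⟨h1 z z' (le_of_max_le_left k1) k2,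
      e z ▸ e z' ▸ h2 z z' (le_of_max_le_right k1) k2⟩⟩
  · rw [UU, UU, ← hf.symm.norm_XX, ← hf.norm_XX, XX_swap p r q s hx, norm_smul, Real.norm_eq_abs]
    have k1 := abs_pos.2 hx
    have k2 : ρ (dir (x • XX p r q (x⁻¹ • s, x⁻¹))) = ρ (dir (XX p r q (x⁻¹ • s, x⁻¹))) := by
      rcases lt_or_gt_of_ne hx with k | k
      · rw [← h.even _ (norm_dir (hf.XX_ne _)), ← neg_smul_neg, dir_pos_smul (neg_pos.2 k)]
        simp [dir]
      · rw [dir_pos_smul k]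
    rw [k2]
    field_simp

variable [MeasurableSpace E] [BorelSpace E]

theorem main_n1 (hE : 3 ≤ finrank ℝ E) {L : Set E} (hL : IsStarBody L) (hsym : -L = L) :
    Homothetic L (interBody ((finrank ℝ E : ℝ) - 1) L) ↔ ∃ R : ℝ, 0 ≤ R ∧ L = closedBall 0 R := by
  have : Nontrivial E := Module.nontrivial_of_finrank_pos (R := ℝ) (by omega)
  obtain ⟨k, hk⟩ := Nat.exists_eq_add_of_le' (show 2 ≤ finrank ℝ E by omega)
  rw [show (finrank ℝ E : ℝ) - 1 = k + 1 by rw [hk]; push_cast; ring]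
  constructor
  · intro h
    obtain ⟨r, hr, h⟩ := interRadial_eq_of_homothetic (by omega) hL hsym h
    obtain ⟨u, hu⟩ := exists_norm_eq E zero_le_one
    exact ⟨_, eq_closedBall hL.1 hL.2.1 hL.2.2.1 fun v hv =>
      (sol_radial hk (by positivity) hL.2.2.2 hr h).const_top hk (by omega) (by positivity) hv hu⟩
  · rintro ⟨R, hR, rfl⟩
    exact homothetic_closedBall hk (by positivity) hR

end Pool.Agent.Lib.MP_0a1ca9_gt.Cd
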