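import Pool.Agent.Lib.MP_0a1ca9_gt.GpRigid
import Pool.Agent.Lib.MP_0a1ca9_gt.GpSol
import Pool.Agent.Lib.MP_0a1ca9_gt.TpMain

/-! The classification for all orders. -/

open MeasureTheory Set Metric Module
open scoped ENNReal RealInnerProductSpace

namespace Pool.Agent.Lib.MP_0a1ca9_gt.Gp

open Cd

variable {D D' k : ℕ} {E : Type*} [NormedAddCommGroup E] [InnerProductSpace ℝ E]
  [FiniteDimensional ℝ E]

theorem sol_const (hE : finrank ℝ E = k + 2) {i c : ℝ} {ρ : E → ℝ} (h : Sol k i c ρ)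
    (hk : k = D + D') (i2 : i < k + 1) (hD : (D : ℝ) ≤ i) (hD' : (D' : ℝ) ≤ i) (h1 : 1 ≤ D)
    (h1' : 1 ≤ D') (hc : 0 < c) {u v : E} (hu : ‖u‖ = 1) (hv : ‖v‖ = 1) : ρ u = ρ v := by
  have hi : 0 < i := lt_of_lt_of_le (by exact_mod_cast h1) hD
  obtain ⟨a, ha, hmin⟩ := (isCompact_sphere (0 : E) 1).exists_isMinOn ⟨u, by simpa⟩ h.cont
  obtain ⟨b, hb, hmax⟩ := (isCompact_sphere (0 : E) 1).exists_isMaxOn ⟨u, by simpa⟩ h.cont
  rw [mem_sphere_zero_iff_norm] at ha hb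
  rcases (h.nonneg a).eq_or_lt with h0 | h0
  · have : ∀ w : E, ‖w‖ = 1 → ρ w = 0 := fun w hw => by
      obtain ⟨r, hr, h1, h2⟩ := exists_third (by omega) w a
      exact h.zero_perp hE hi hw hr h1
        (h.zero_perp hE hi hr ha (by rw [real_inner_comm, h2]) h0.symm)
    rw [this u hu, this v hv]
  have hbd : ∀ w, ‖w‖ = 1 → ρ w ∈ Icc (ρ a) (ρ b) := fun w hw =>
    ⟨hmin (by simpa : w ∈ sphere 0 1), hmax (by simpa : w ∈ sphere 0 1)⟩
  by_cases k1 : u - v = 0
  · rw [sub_eq_zero.1 k1]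
  by_cases k2 : u + v = 0
  · rw [eq_neg_of_add_eq_zero_left k2, h.even v hv]
  obtain ⟨r, hf⟩ := exists_frm hE (norm_dir k2) (norm_dir k1) (by
    rw [dir, dir, real_inner_smul_right, real_inner_smul_left, inner_add_left, inner_sub_right,
      inner_sub_right, real_inner_self_eq_norm_sq, real_inner_self_eq_norm_sq, hu, hv,
      real_inner_comm]
    ring)
  obtain ⟨A, B, hAB, hmp⟩ := exists_ap hk
  have h5 := (ch_ch (γ := k + 1 - i) h hf.symm ⟨hk, hAB, hmp⟩ hi (by linarith) (by ring) hD hD' h1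
    h1' hc h0 hbd).even (‖u - v‖ / ‖u + v‖)
  simp only [ch, tl_cns, cns_zero, map_zero, add_zero] at h5
  have k1 := norm_pos_iff.2 k1
  have k2 := norm_pos_iff.2 k2
  have k3 : ∀ t : ℝ, XX (dir (u + v)) r (dir (u - v)) (0, t * (‖u - v‖ / ‖u + v‖)) =
      ‖u + v‖⁻¹ • (u + v + t • (u - v)) := fun t => by
    simp only [XX, dir, smul_smul, map_zero]
    rw [show t * (‖u - v‖ / ‖u + v‖) * ‖u - v‖⁻¹ = ‖u + v‖⁻¹ * t by field_simp]
    module
  have k4 := k3 1
  have k5 := k3 (-1)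
  rw [one_mul, show u + v + (1 : ℝ) • (u - v) = (2 : ℝ) • u by module, smul_smul] at k4
  rw [neg_one_mul, show u + v + (-1 : ℝ) • (u - v) = (2 : ℝ) • v by module, smul_smul] at k5
  rw [UU, UU, k4, k5, dir_smul hu (by positivity), dir_smul hv (by positivity), nn_neg,
    div_left_inj' (nn_pos _).ne'] at h5
  exact h5.symm

variable [MeasurableSpace E] [BorelSpace E]

theorem main_full {i : ℝ} (i1 : 1 < i) (i2 : i ≤ (finrank ℝ E : ℝ) - 1) {L : Set E}
    (hL : IsStarBody L) (hsym : -L = L) :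
    Homothetic L (interBody i L) ↔ ∃ R : ℝ, 0 ≤ R ∧ L = closedBall 0 R := by
  rcases i2.eq_or_lt with rfl | i2
  · have : (2 : ℝ) < finrank ℝ E := by linarith
    exact main_n1 (by exact_mod_cast this) hL hsym
  by_cases h1 : i ≤ (finrank ℝ E : ℝ) / 2
  · exact main_all i1 i2 (Or.inl h1) hL hsym
  by_cases h2 : (finrank ℝ E : ℝ) - 2 ≤ i
  · exact main_all i1 i2 (Or.inr (Or.inl h2)) hL hsym
  have h4 : 4 < finrank ℝ E := by
    have : (4 : ℝ) < finrank ℝ E := by linarith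
    exact_mod_cast this
  obtain ⟨k, hE⟩ : ∃ k, finrank ℝ E = k + 2 := ⟨finrank ℝ E - 2, by omega⟩
  have : Nontrivial E := Module.nontrivial_of_finrank_pos (R := ℝ) (by omega)
  rw [hE] at h1 i2
  push_cast at h1 i2
  have hD : ∀ j : ℕ, 2 * j ≤ k + 2 → (j : ℝ) ≤ i := fun j hj => by
    have : (2 * j : ℝ) ≤ k + 2 := by exact_mod_cast hj
    linarith
  constructor
  · intro h
    obtain ⟨r, hr, h⟩ := interRadial_eq_of_homothetic (by omega) hL hsym h
    obtain ⟨u, hu⟩ := exists_norm_eq E zero_le_one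
    exact ⟨_, eq_closedBall hL.1 hL.2.1 hL.2.2.1 fun v hv =>
      sol_const (D := k / 2) (D' := k - k / 2) hE (sol_radial hE (by linarith) hL.2.2.2 hr h)
        (by omega) (by linarith) (hD _ (by omega)) (hD _ (by omega)) (by omega) (by omega)
        (by positivity) hv hu⟩
  · rintro ⟨R, hR, rfl⟩
    exact homothetic_closedBall hE (by linarith) hR

theorem neg_eq_of_dilate {i r : ℝ} (hr : 0 < r) {L : Set E}
    (h : interBody i L = (fun a => (0 : E) + r • a) '' L) : -L = L := by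
  have k : ∀ a ∈ L, -a ∈ L := fun a ha => by
    have h1 := neg_mem_interBody i L (x := 0 + r • a) (h ▸ ⟨a, ha, rfl⟩)
    rw [h] at h1
    obtain ⟨b, hb, e⟩ := h1
    simp only [zero_add, ← smul_neg] at e
    rwa [← smul_right_injective E hr.ne' e]
  exact Set.ext fun a => ⟨fun ha => by simpa using k _ ha, fun ha => k a ha⟩

end Pool.Agent.Lib.MP_0a1ca9_gt.Gp
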