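import Pool.Agent.Lib.MP_0a1ca9_gt.GpTm

/-! Marginals. -/

open MeasureTheory Set Function
open scoped ENNReal RealInnerProductSpace

namespace Pool.Agent.Lib.MP_0a1ca9_gt.Gp

variable {D : ℕ} {σ : ℝ} {Φ : V (D + 1) → ℝ}

theorem gpMarg_mp (hσ : σ ^ 2 = 1) (a : V D) :
    MeasurePreserving (fun p : ℝ × V D => cns (σ * p.1 - ⟪a, p.2⟫) p.2)
      ((volume : Measure ℝ).prod volume) volume := by
  have h1 : MeasurePreserving (fun s : ℝ => σ * s) volume volume := by
    rcases sq_eq_one_iff.1 hσ with rfl | rfl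
    · simp only [one_mul]
      exact MeasurePreserving.id _
    · simpa only [neg_one_mul] using Measure.measurePreserving_neg (volume : Measure ℝ)
  have h2 := (MeasurePreserving.id (volume : Measure (V D))).skew_product
    (g := fun (z : V D) (s : ℝ) => σ * s - ⟪a, z⟫) (μc := volume) (μd := volume) (by fun_prop)
    (Filter.Eventually.of_forall fun z =>
      ((measurePreserving_sub_right volume ⟪a, z⟫).comp h1).map_eq)
  exact (mp_cns D).comp (Measure.measurePreserving_swap.comp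
    (h2.comp Measure.measurePreserving_swap))

theorem gpMarg_inner (hσ : σ ^ 2 = 1) (a z : V D) (s : ℝ) :
    ⟪yy σ a, cns (σ * s - ⟪a, z⟫) z⟫ = s := by
  rw [inner_yy, sub_add_cancel, ← mul_assoc, ← sq, hσ, one_mul]

theorem marg_mg (hσ : σ ^ 2 = 1) (hΦ : Integrable Φ) (a : V D) : Marg Φ (yy σ a) (mg σ Φ a) := by
  have h := gpMarg_mp hσ a
  refine ⟨(h.integrable_comp_of_integrable hΦ).integral_prod_left, fun χ hχ hb => ?_⟩
  have hi : Integrable fun z => Φ z * χ ⟪yy σ a, z⟫ :=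
    hΦ.mul_bdd (c := 1) (hχ.comp (by fun_prop)).aestronglyMeasurable
      (Filter.Eventually.of_forall fun z => hb _)
  rw [← h.map_eq] at hi
  rw [← h.map_eq, integral_map h.measurable.aemeasurable hi.1, integral_prod _
    (by exact (integrable_map_measure hi.1 h.measurable.aemeasurable).1 hi)]
  simp only [gpMarg_inner hσ, integral_mul_const, mg]

theorem lintegral_mg (hσ : σ ^ 2 = 1) {F : V (D + 1) → ℝ≥0∞} (hF : Measurable F) {ψ : ℝ → ℝ≥0∞}
    (hψ : Measurable ψ) (a : V D) :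
    ∫⁻ s, ψ s * ∫⁻ z : V D, F (cns (σ * s - ⟪a, z⟫) z) = ∫⁻ z, F z * ψ ⟪yy σ a, z⟫ := by
  have hm : Measurable fun z => F z * ψ ⟪yy σ a, z⟫ := hF.mul (hψ.comp (by fun_prop))
  have h := gpMarg_mp hσ a
  rw [← h.lintegral_comp hm, lintegral_prod _ (by exact (hm.comp h.measurable).aemeasurable)]
  refine lintegral_congr fun s => ?_
  simp only [gpMarg_inner hσ]
  rw [lintegral_mul_const _ (by fun_prop), mul_comm]

theorem ae_off (hσ : σ ^ 2 = 1) {Z : Set ℝ} (hZ : Z.Countable) :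
    ∀ᵐ z : V (D + 1), ∀ᵐ a : V D, ⟪yy σ a, z⟫ ∉ Z := by
  have hm : MeasurableSet {p : V (D + 1) × V D | ⟪yy σ p.2, p.1⟫ ∉ Z} :=
    (((continuous_yy σ).comp continuous_snd).inner continuous_fst).measurable
      hZ.measurableSet.compl
  refine (Measure.ae_ae_comm hm).2 (Filter.Eventually.of_forall fun a => ?_)
  have h := gpMarg_mp hσ a
  rw [← h.map_eq, ae_map_iff h.measurable.aemeasurable
    (by exact (continuous_const.inner continuous_id).measurable hZ.measurableSet.compl)]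
  simp only [gpMarg_inner hσ]
  exact Measure.quasiMeasurePreserving_fst.ae (hZ.ae_notMem volume)

theorem abs_inner_yy (hσ : σ ^ 2 = 1) (a : V D) (z : V (D + 1)) : |⟪yy σ a, z⟫| ≤ jac a * ‖z‖ := by
  refine (abs_real_inner_le_norm _ _).trans_eq ?_
  rw [jac, show 1 + ‖a‖ ^ 2 = ‖cns 1 a‖ ^ 2 by rw [norm_cns_sq, one_pow], Real.sqrt_sq (norm_nonneg _), yy, norm_smul,
    Real.norm_eq_abs, show |σ| = 1 by rcases sq_eq_one_iff.1 hσ with rfl | rfl <;> simp, one_mul]

end Pool.Agent.Lib.MP_0a1ca9_gt.Gp
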