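import Pool.Agent.Lib.MP_0a1ca9_gt.GpLin

/-! The first variation for shifted powers. -/

open MeasureTheory Set
open scoped RealInnerProductSpace

namespace Pool.Agent.Lib.MP_0a1ca9_gt.Gp

variable {D : ℕ} {σ l R : ℝ} {μ : Measure (V D)} [IsFiniteMeasure μ] {T : Finset (ℝ × ℝ)}
  {h : ℝ × ℝ → V D → ℝ}

theorem gpPer_cont (σ : ℝ) {C : ℝ} {H : V (D + 1) → ℝ} (hH : Tm C H) :
    Continuous fun p : V D × ℝ => mg σ H p.1 p.2 :=
  (continuous_mg (Y := Unit) (Ψ := fun _ => H) (hH.1.comp continuous_snd) (fun _ => hH) σ).comp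
    (continuous_const.prodMk continuous_id : Continuous fun p : V D × ℝ => ((), p))

theorem gpPer_meas (σ : ℝ) {C : ℝ} {H : V (D + 1) → ℝ} (hH : Tm C H) (s : ℝ) :
    Measurable fun a : V D => mg σ H a s :=
  ((gpPer_cont σ hH).comp (continuous_id.prodMk continuous_const)).measurable

theorem gpPer_bd (hσ : σ ^ 2 = 1) (R : ℝ) {C : ℝ} {H : V (D + 1) → ℝ} (hH : Tm C H) :
    ∃ B, ∀ a : V D, ‖a‖ ≤ R → ∀ s, |mg σ H a s| ≤ B := by
  obtain ⟨J, hJ, hb⟩ := exists_mg_le D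
  have hC : 0 ≤ C := by
    have h1 := (abs_nonneg _).trans (hH.2 0)
    exact (le_div_iff₀ (pow_pos (jac_pos _) _)).1 h1 |>.trans_eq' (zero_mul _)
  refine ⟨C * J * √(1 + R ^ 2), fun a ha s => (hb σ C H hσ hH a s).trans ?_⟩
  have h1 : jac a ≤ √(1 + R ^ 2) := by
    unfold jac
    gcongr
  have h2 : 1 ≤ √(1 + s ^ 2) := Real.one_le_sqrt.2 (by nlinarith [sq_nonneg s])
  have h3 := (jac_pos a).le
  exact (div_le_self (by positivity) h2).trans (by gcongr)

theorem integrable_cost (hσ : σ ^ 2 = 1) (hμ : ∀ᵐ a ∂μ, ‖a‖ ≤ R) (hF : Fam μ T h) {C : ℝ}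
    {H : V (D + 1) → ℝ} (hH : Tm C H) : Integrable (cost T h (mg σ H)) μ := by
  obtain ⟨B, hB⟩ := gpPer_bd hσ R hH
  obtain ⟨C', hC'⟩ := hF.bd
  unfold cost
  refine integrable_finsetSum _ fun τ hτ => ?_
  refine Integrable.of_bound ((hF.meas τ).mul (measurable_const.mul
    (gpPer_meas σ hH τ.1))).aestronglyMeasurable (C' * (ar τ * B)) ?_
  filter_upwards [hμ, hC'] with a ha hb
  have h1 := hF.nn τ a
  have h2 := ar_nonneg τ
  have h3 := hb τ hτ
  have h4 := hB a ha τ.1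
  rw [Real.norm_eq_abs, abs_mul, abs_mul, abs_of_nonneg h1, abs_of_nonneg h2]
  exact mul_le_mul h3 (by gcongr) (by positivity) (h1.trans h3)

theorem gpPer_phi (hl : 0 < l) :
    Integrable fun z : V (D + 1) => (D + 1 - 2 * l * ‖z‖ ^ 2) * gs l z := by
  refine (((integrable_gs (D + 1) hl).const_mul ((D : ℝ) + 1)).sub
    ((integrable_gs_sq (D + 1) hl).const_mul (2 * l))).congr (ae_of_all _ fun z => ?_)
  simp only [Pi.sub_apply]
  ring

theorem gpPer_mul (hF : Fam μ T h) (σ : ℝ) {f : ℝ → ℝ} (hf : ContinuousOn f (Ici 0))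
    {φ : V (D + 1) → ℝ} (hφ : Integrable φ) :
    Integrable fun z => φ z * f (WW μ (yy σ) T h 1 z) := by
  have hy := (continuous_yy (D := D) σ).measurable
  obtain ⟨B, hB⟩ := hF.WW_mem hy
  obtain ⟨M, hM⟩ := (isCompact_Icc (a := 0) (b := B)).exists_bound_of_continuousOn
    (hf.mono Icc_subset_Ici_self)
  have e : (fun z => f (WW μ (yy σ) T h 1 z)) = fun z => f (max 0 (WW μ (yy σ) T h 1 z)) := by
    funext z
    rw [max_eq_right (hB 1 le_rfl z).1]
  have hc : Continuous fun x : ℝ => f (max 0 x) :=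
    hf.comp_continuous (continuous_const.max continuous_id) fun x => mem_Ici.2 (le_max_left _ _)
  refine hφ.mul_bdd (c := M) ?_ (ae_of_all _ fun z => hM _ ⟨(hB 1 le_rfl z).1, (hB 1 le_rfl z).2.2⟩)
  rw [e]
  exact (hc.measurable.comp (hF.measurable_WW hy 1)).aestronglyMeasurable

theorem gpPer_prod (hF : Fam μ T h) (σ : ℝ) {φ : V (D + 1) → ℝ} (hφ : Integrable φ)
    {τ : ℝ × ℝ} (hτ : τ ∈ T) :
    Integrable (fun p : V (D + 1) × V D => φ p.1 * (h τ p.2 * tri τ 1 ⟪yy σ p.2, p.1⟫))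
      (volume.prod μ) := by
  obtain ⟨C', hC'⟩ := hF.bd
  have hm : Measurable fun p : V (D + 1) × V D => ⟪yy σ p.2, p.1⟫ :=
    (((continuous_yy σ).comp continuous_snd).inner continuous_fst).measurable
  refine (hφ.comp_fst μ).mul_bdd (c := C') (((hF.meas τ).comp measurable_snd).mul
    ((measurable_tri τ 1).comp hm)).aestronglyMeasurable ?_
  filter_upwards [Measure.quasiMeasurePreserving_snd.ae hC'] with p hp
  obtain ⟨h1, -, h2⟩ := tri_mem (hF.ne τ hτ) le_rfl ⟪yy σ p.2, p.1⟫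
  have h3 := hF.nn τ p.2
  rw [Real.norm_eq_abs, abs_of_nonneg (mul_nonneg h3 h1)]
  exact (mul_le_of_le_one_right h3 h2).trans (hp τ hτ)

theorem lin_fam (hσ : σ ^ 2 = 1) (hμ : ∀ᵐ a ∂μ, ‖a‖ ≤ R) (hF : Fam μ T h) (hl : 0 < l)
    {G : V D → ℝ} (Gi : Integrable G μ) (hG : ∀ᵐ a ∂μ, G a ≤ ∑ τ ∈ T, h τ a * gn l a τ) :
    (D + 1) * (∫ z, gs l z * WW μ (yy σ) T h 1 z) + ∫ a, G a ∂μ ≤
      ∫ a, cost T h (mg σ (gs l)) a ∂μ +
        2 * l * ∫ z, gs l z * ‖z‖ ^ 2 * WW μ (yy σ) T h 1 z := by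
  obtain ⟨Cg, hg⟩ := tm_gs D hl
  have hφ := gpPer_phi (D := D) hl
  set φ : V (D + 1) → ℝ := fun z => (D + 1 - 2 * l * ‖z‖ ^ 2) * gs l z with eφ
  have hP : Integrable (Function.uncurry fun (z : V (D + 1)) (a : V D) =>
      ∑ τ ∈ T, φ z * (h τ a * tri τ 1 ⟪yy σ a, z⟫)) (volume.prod μ) :=
    integrable_finsetSum T fun τ hτ => gpPer_prod hF σ hφ hτ
  have e1 : ∫ z, φ z * WW μ (yy σ) T h 1 z =
      ∫ a, (∫ z, ∑ τ ∈ T, φ z * (h τ a * tri τ 1 ⟪yy σ a, z⟫)) ∂μ := by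
    rw [← integral_integral_swap hP]
    refine integral_congr_ae (ae_of_all _ fun z => ?_)
    simp only [WW, ← integral_const_mul, Finset.mul_sum]
  have i1 := gpPer_mul hF σ continuousOn_id (integrable_gs (D + 1) hl)
  have i2 := gpPer_mul hF σ continuousOn_id (integrable_gs_sq (D + 1) hl)
  simp only [id] at i1 i2
  have e2 : ∫ z, φ z * WW μ (yy σ) T h 1 z = (D + 1) * (∫ z, gs l z * WW μ (yy σ) T h 1 z) -
      2 * l * ∫ z, gs l z * ‖z‖ ^ 2 * WW μ (yy σ) T h 1 z := by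
    rw [← integral_const_mul, ← integral_const_mul,
      ← integral_sub (i1.const_mul _) (i2.const_mul _)]
    refine integral_congr_ae (ae_of_all _ fun z => ?_)
    simp only [eφ]
    ring
  have key : ∫ a, (∫ z, ∑ τ ∈ T, φ z * (h τ a * tri τ 1 ⟪yy σ a, z⟫)) + G a ∂μ ≤
      ∫ a, cost T h (mg σ (gs l)) a ∂μ := by
    refine integral_mono_ae (hP.integral_prod_right.add Gi) (integrable_cost hσ hμ hF hg) ?_
    filter_upwards [hG] with a ha
    have it : ∀ τ ∈ T, Integrable fun z => φ z * tri τ 1 ⟪yy σ a, z⟫ := fun τ hτ =>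
      hφ.mul_bdd (c := 1) ((measurable_tri τ 1).comp
        (continuous_const.inner continuous_id).measurable).aestronglyMeasurable
        (ae_of_all _ fun z => by
          obtain ⟨h1, -, h2⟩ := tri_mem (hF.ne τ hτ) le_rfl ⟪yy σ a, z⟫
          rwa [Real.norm_eq_abs, abs_of_nonneg h1])
    have e3 : ∫ z, ∑ τ ∈ T, φ z * (h τ a * tri τ 1 ⟪yy σ a, z⟫) =
        ∑ τ ∈ T, h τ a * ∫ z, φ z * tri τ 1 ⟪yy σ a, z⟫ := by
      simp_rw [mul_left_comm (φ _), ← integral_const_mul]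
      exact integral_finsetSum T fun τ hτ => (it τ hτ).const_mul _
    rw [e3]
    refine (add_le_add_right ha _).trans ?_
    rw [← Finset.sum_add_distrib]
    refine Finset.sum_le_sum fun τ hτ => ?_
    rw [← mul_add]
    exact mul_le_mul_of_nonneg_left (lin_tri hσ hl a (hF.ne τ hτ)) (hF.nn τ a)
  have i3 : Integrable (fun a => ∫ z, ∑ τ ∈ T, φ z * (h τ a * tri τ 1 ⟪yy σ a, z⟫)) μ :=
    hP.integral_prod_right
  rw [integral_add i3 Gi] at key
  linarith

omit [IsFiniteMeasure μ] in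
theorem gpPer_uc (hμ : ∀ᵐ a ∂μ, ‖a‖ ≤ R) (T : Finset (ℝ × ℝ)) {g : V D → ℝ → ℝ}
    (hg : Continuous fun p : V D × ℝ => g p.1 p.2) (η : ℝ) (hη : η > 0) :
    ∃ δ > 0, ∀ᵐ a ∂μ, ∀ τ ∈ T, ∀ s, |s - τ.1| ≤ δ → g a s ≤ g a τ.1 + η := by
  have hK : IsCompact (Metric.closedBall (0 : V D) R ×ˢ (Prod.fst '' (T : Set (ℝ × ℝ)))) :=
    (isCompact_closedBall _ _).prod (T.finite_toSet.image _).isCompact
  have h1 := hK.uniformContinuousAt_of_continuousAt (fun p : V D × ℝ => g p.1 p.2)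
    (fun p _ => hg.continuousAt) (Metric.dist_mem_uniformity hη)
  obtain ⟨δ, hδ, h2⟩ := Metric.mem_uniformity_dist.1 h1
  refine ⟨δ / 2, half_pos hδ, ?_⟩
  filter_upwards [hμ] with a ha τ hτ s hs
  have h3 : dist (a, τ.1) (a, s) < δ := by
    rw [Prod.dist_eq, dist_self, Real.dist_eq, abs_sub_comm]
    exact max_lt hδ (by linarith)
  have h4 : dist (g a τ.1) (g a s) < η :=
    h2 h3 ⟨mem_closedBall_zero_iff.2 ha, τ, hτ, rfl⟩
  rw [Real.dist_eq, abs_lt] at h4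
  linarith [h4.1]

theorem per_l (hσ : σ ^ 2 = 1) (hμ : ∀ᵐ a ∂μ, ‖a‖ ≤ R) (hF : Fam μ T h) (hl : 0 < l) {i w C : ℝ}
    (hi : 0 < i) (hD : (D : ℝ) ≤ i) (hw : 0 ≤ w) {H : V (D + 1) → ℝ} (hH : Tm C H)
    (hle : ∀ᵐ z, (i + 1) * (w + WW μ (yy σ) T h 1 z) ^ i * gs l z ≤ H z)
    {G : V D → ℝ} (Gi : Integrable G μ) (hG : ∀ᵐ a ∂μ, G a ≤ ∑ τ ∈ T, h τ a * gn l a τ) :
    (D + 1) * (∫ z, gs l z * (w + WW μ (yy σ) T h 1 z) ^ (i + 1)) + (i + 1) * w ^ i * ∫ a, G a ∂μ ≤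
      ∫ a, cost T h (mg σ H) a ∂μ +
        2 * l * ∫ z, gs l z * ‖z‖ ^ 2 * (w + WW μ (yy σ) T h 1 z) ^ (i + 1) := by
  have hy := (continuous_yy (D := D) σ).measurable
  obtain ⟨B, hB⟩ := hF.WW_mem hy
  obtain ⟨Cg, hg⟩ := tm_gs D hl
  have lin := lin_fam hσ hμ hF hl Gi hG
  set c := (i + 1) * w ^ i with ec
  have hc : 0 ≤ c := by positivity
  have hT : Tm (C + |c| * Cg) fun z => H z + -c * gs l z :=
    hH.add (hg.mul (Ψ := fun _ => -c) continuous_const fun _ => (abs_neg c).le)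
  have W0 : ∀ z, 0 ≤ WW μ (yy σ) T h 1 z := fun z => (hB 1 le_rfl z).1
  have a0 : ∀ᵐ z, 0 ≤ H z + -c * gs l z := by
    filter_upwards [hle] with z hz
    have h1 : w ^ i ≤ (w + WW μ (yy σ) T h 1 z) ^ i :=
      Real.rpow_le_rpow hw (by linarith [W0 z]) hi.le
    have h2 : c * gs l z ≤ (i + 1) * (w + WW μ (yy σ) T h 1 z) ^ i * gs l z :=
      mul_le_mul_of_nonneg_right (mul_le_mul_of_nonneg_left h1 (by linarith)) (gs_pos l z).le
    linarith
  have b0 : ∀ z, 0 ≤ H z + -c * gs l z := fun z =>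
    (isClosed_le continuous_const hT.1).closure_subset (Measure.dense_of_ae a0 z)
  obtain ⟨B', hB'⟩ := gpPer_bd hσ R hT
  have fo := first_order (d := D + 1) hF hy hl (adm_rpow (d := D + 1) hw hi (by push_cast; linarith))
    (fun x hx => by
      have h1 := rpow_tangent hi.le (add_nonneg hw hx) hw
      have h2 : 0 ≤ w ^ (i + 1) := by positivity
      linarith) hT.integrable a0
    (by
      filter_upwards [hle] with z hz x hx
      have h1 := rpow_tangent hi.le (add_nonneg hw hx.1) (add_nonneg hw (W0 z))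
      have h2 := mul_le_mul_of_nonneg_right h1 (gs_pos l z).le
      have h3 := mul_le_mul_of_nonneg_right hz (sub_nonneg.2 hx.2)
      rw [← ec]
      nlinarith)
    (marg_mg hσ hT.integrable) (gpPer_meas σ hT)
    (fun a s => integral_nonneg fun z => b0 _) (B := B')
    (by filter_upwards [hμ] with a ha s using (le_abs_self _).trans (hB' a ha s))
    (gpPer_uc hμ T (gpPer_cont σ hT))
  have hp : ContinuousOn (fun x : ℝ => (w + x) ^ (i + 1)) (Ici 0) :=
    ((continuous_const.add continuous_id).rpow_const fun _ => Or.inr (by linarith)).continuousOn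
  have sp : ∀ φ : V (D + 1) → ℝ, Integrable φ →
      ∫ z, φ z * ((w + WW μ (yy σ) T h 1 z) ^ (i + 1) - c * WW μ (yy σ) T h 1 z) =
        (∫ z, φ z * (w + WW μ (yy σ) T h 1 z) ^ (i + 1)) -
          c * ∫ z, φ z * WW μ (yy σ) T h 1 z := by
    intro φ hφ
    rw [← integral_const_mul, ← integral_sub (gpPer_mul hF σ hp hφ)
      ((gpPer_mul hF σ (f := fun x => x) continuousOn_id hφ).const_mul c)]
    refine integral_congr_ae (ae_of_all _ fun z => ?_)
    simp only []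
    ring
  have ecost : ∫ a, cost T h (mg σ fun z => H z + -c * gs l z) a ∂μ =
      ∫ a, cost T h (mg σ H) a ∂μ - c * ∫ a, cost T h (mg σ (gs l)) a ∂μ := by
    rw [← integral_const_mul, ← integral_sub (integrable_cost hσ hμ hF hH)
      ((integrable_cost hσ hμ hF hg).const_mul c)]
    refine integral_congr_ae (ae_of_all _ fun a => ?_)
    have e : ∀ s, mg σ (fun z => H z + -c * gs l z) a s = mg σ H a s + -c * mg σ (gs l) a s := by
      intro s
      unfold mg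
      rw [integral_add (hH.slice σ a s) ((hg.slice σ a s).const_mul _), integral_const_mul]
    simp only [cost, e, Finset.mul_sum, ← Finset.sum_sub_distrib]
    exact Finset.sum_congr rfl fun τ _ => by ring
  rw [← ec, sp _ (integrable_gs (D + 1) hl), sp _ (integrable_gs_sq (D + 1) hl), ecost] at fo
  have := mul_le_mul_of_nonneg_left lin hc
  push_cast at fo
  nlinarith

end Pool.Agent.Lib.MP_0a1ca9_gt.Gp
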