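import Pool.Agent.Lib.MP_0a1ca9_gt.GpKey

/-! Rigidity. -/

open MeasureTheory Set Metric Function Filter
open scoped ENNReal RealInnerProductSpace

namespace Pool.Agent.Lib.MP_0a1ca9_gt.Gp

theorem Dec.gain {D : ℕ} {K : Set (V D)} {ε : ℝ} {f : V D → ℝ → ℝ} {T : Finset (ℝ × ℝ)}
    {Z : Set ℝ} {η : ℝ → ℝ × ℝ → V D → ℝ} (hD : Dec K ε f T Z η) {a : V D} (ha : a ∈ K)
    {s₀ δ R θ θ₁ θ₂ κ l : ℝ} (hl : 0 < l) (hs : 0 < s₀) (hδ : 0 < δ) (hR : s₀ + δ ≤ R)
    (hκ : 0 ≤ κ) (h0 : 0 ≤ θ₁) (hθ : θ ≤ θ₁) (hε : R ≤ ε⁻¹)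
    (h1 : ∀ s, s ∈ Icc (-s₀) (-s₀ + δ) ∨ s ∈ Icc R (R + 1) → f a s ≤ θ₁)
    (h2 : ∀ s ∈ Icc s₀ (s₀ + δ), θ₂ + ε ≤ f a s)
    (hg : ∀ τ : ℝ × ℝ, τ.1 ≠ τ.2 → |τ.1| ≤ R → |τ.2| ≤ R → δ / 2 ≤ cen τ → κ * ar τ ≤ gn l a τ) :
    κ * (θ₂ - θ₁) * δ / 2 ≤ ∑ τ ∈ T, η θ τ a * gn l a τ := by
  refine (gain_lower hD.ne (fun τ => hD.nn θ₁ τ a) hD.cnt hs hδ hR hκ (fun s hZ k => ?_)
    (fun s hZ k => ?_) (fun τ _ => gn_nonneg hl a τ) fun τ hτ => hg τ (hD.ne τ hτ)).trans
    (Finset.sum_le_sum fun τ _ =>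
      mul_le_mul_of_nonneg_right (hD.anti _ _ τ a hθ) (gn_nonneg hl a τ))
  · rw [hD.thr _ h0 a s hZ]
    exact max_le (by linarith [hD.up a ha s hZ, h1 s k]) le_rfl
  · rw [hD.thr _ h0 a s hZ]
    have := hD.lo a ha s hZ (abs_le.2 ⟨by linarith [k.1], by linarith [k.2]⟩)
    exact le_max_of_le_left (by linarith [h2 s k])

variable {D D' : ℕ} {i γ c m M σ σ' : ℝ} {W : V D' → V (D + 1) → ℝ} {U : V D → V (D' + 1) → ℝ}

theorem Ch.one_side (h : Ch i γ c m M W U) (hσ : σ ^ 2 = 1) (hσ' : σ' = -σ) (a : V D) {s : ℝ}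
    (hs : 0 < s) : PP σ' i γ U a 0 s ≤ PP σ' i γ U a 0 (-s) := by
  have s2 : σ' ^ 2 = 1 := by rw [hσ', neg_sq, hσ]
  have hi := (h.sW 0).i0
  have hγ := (h.sW 0).g0
  have hc := h.c0
  have hM : 0 < M := ((h.sW 0).pos 0).trans_le ((h.sW 0).le 0)
  by_contra hlt
  have u0 := h.PP_nonneg σ' a 0 (-s)
  obtain ⟨g, hg⟩ : ∃ g, g = (PP σ' i γ U a 0 s - PP σ' i γ U a 0 (-s)) / 4 := ⟨_, rfl⟩
  obtain ⟨θ₁, hθ₁⟩ : ∃ t, t = PP σ' i γ U a 0 (-s) + g := ⟨_, rfl⟩
  have g0 : 0 < g := by linarith [not_le.1 hlt]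
  have t0 : 0 < θ₁ := by linarith
  obtain ⟨δ, hδ, δ1, hA, hB⟩ : ∃ δ > 0, δ ≤ 1 ∧ (∀ a' ∈ closedBall a δ, ∀ b ∈ closedBall 0 δ,
      ∀ t ∈ Icc (-s) (-s + δ), PP σ' i γ U a' b t ≤ θ₁) ∧ ∀ a' ∈ closedBall a δ,
      ∀ b ∈ closedBall 0 δ, ∀ t ∈ Icc s (s + δ), θ₁ + g + g ≤ PP σ' i γ U a' b t := by
    obtain ⟨d1, e1, k1⟩ := Metric.continuous_iff.1 (h.continuous_PP σ') (a, 0, -s) g g0
    obtain ⟨d2, e2, k2⟩ := Metric.continuous_iff.1 (h.continuous_PP σ') (a, 0, s) g g0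
    have e3 : 0 < min (min d1 d2) 1 := lt_min (lt_min e1 e2) one_pos
    have e4 := min_le_left (min d1 d2) 1
    have e5 := min_le_right (min d1 d2) 1
    have e6 := min_le_left d1 d2
    have e7 := min_le_right d1 d2
    have k3 : ∀ a' ∈ closedBall a (min (min d1 d2) 1 / 2),
        ∀ b ∈ closedBall (0 : V D') (min (min d1 d2) 1 / 2), ∀ x : ℝ,
        ∀ t ∈ Icc x (x + min (min d1 d2) 1 / 2), dist (a', b, t) (a, 0, x) < min d1 d2 := by
      intro a' ha' b hb x t ht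
      rw [mem_closedBall] at ha' hb
      simp only [Prod.dist_eq, max_lt_iff, Real.dist_eq, abs_lt]
      exact ⟨by linarith, by linarith, by linarith [ht.1], by linarith [ht.2]⟩
    refine ⟨_, half_pos e3, by linarith, fun a' ha' b hb t ht => ?_, fun a' ha' b hb t ht => ?_⟩
    · have := k1 _ ((k3 a' ha' b hb _ t ht).trans_le e6)
      rw [Real.dist_eq, abs_lt] at this
      linarith [this.2]
    · have := k2 _ ((k3 a' ha' b hb _ t ht).trans_le e7)
      rw [Real.dist_eq, abs_lt] at this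
      linarith [this.1]
  obtain ⟨C, C0, hC⟩ := h.PP_le
  obtain ⟨R, hR⟩ : ∃ R, R = s + 1 + ‖a‖ + C * 2 / θ₁ := ⟨_, rfl⟩
  have r0 : 0 ≤ C * 2 / θ₁ := by positivity
  have n0 := norm_nonneg a
  have hjac : ∀ {d : ℕ} (x : V d), jac x ≤ 1 + ‖x‖ := fun x =>
    Real.sqrt_le_iff.2 ⟨by positivity, by nlinarith [norm_nonneg x]⟩
  have hKa : ∀ a' ∈ closedBall a δ, ‖a'‖ ≤ R := fun a' ha' => by
    have := norm_le_of_mem_closedBall ha'
    linarith
  have hKb : ∀ b ∈ closedBall (0 : V D') δ, ‖b‖ ≤ 1 := fun b hb =>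
    (mem_closedBall_zero_iff.1 hb).trans δ1
  have hfar : ∀ a', ∀ b ∈ closedBall (0 : V D') δ, ∀ t ∈ Icc R (R + 1), PP σ' i γ U a' b t ≤ θ₁ := by
    intro a' b hb t ht
    have k1 : t ≤ √(1 + t ^ 2) := Real.le_sqrt_of_sq_le (by linarith)
    have k2 : C * 2 / θ₁ ≤ √(1 + t ^ 2) := by linarith [ht.1]
    refine (hC σ' s2 a' b t).trans ((div_le_iff₀ (by positivity)).2 ?_)
    rw [div_le_iff₀ t0] at k2
    nlinarith [hjac b, hKb b hb]
  obtain ⟨κ, κ0, hκ⟩ := gn_lower D R (half_pos hδ)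
  obtain ⟨κ₁, κ₁0, hκ₁⟩ := h.le_PP R
  have va : 0 < volume.real (closedBall a δ) :=
    ENNReal.toReal_pos (measure_closedBall_pos _ _ hδ).ne' measure_closedBall_lt_top.ne
  have vb : 0 < volume.real (closedBall (0 : V D') δ) :=
    ENNReal.toReal_pos (measure_closedBall_pos _ _ hδ).ne' measure_closedBall_lt_top.ne
  obtain ⟨v, hv⟩ : ∃ v, v = volume.real (closedBall a δ) := ⟨_, rfl⟩
  rw [← hv] at va
  obtain ⟨e, e0, e1, e2, e3⟩ : ∃ e > 0, e ≤ κ₁ * (1 + R ^ 2) ^ (-(i + γ) / 2) / 2 ∧ e ≤ θ₁ ∧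
      e ≤ c / v := ⟨min _ (min _ _), lt_min (by positivity) (lt_min t0 (by positivity)),
    min_le_left _ _, (min_le_right _ _).trans (min_le_left _ _),
    (min_le_right _ _).trans (min_le_right _ _)⟩
  have kp0 : 0 < kp γ 2 := div_pos (mul_pos (Real.exp_pos _) (lt_min one_pos (by positivity)))
    (Real.Gamma_pos_of_pos (half_pos hγ))
  obtain ⟨A, hA'⟩ : ∃ A, A = kp γ 2 * ((i + 1) * (e * v / c) ^ i * (κ * g * δ / 2 * v / c)) :=
    ⟨_, rfl⟩
  have A0 : 0 < A := by rw [hA']; positivity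
  obtain ⟨I, hI⟩ : ∃ I, I = (∫⁻ b, II i γ (1 + ‖b‖ ^ 2) (W b)).toReal := ⟨_, rfl⟩
  have I0 : 0 ≤ I := hI ▸ ENNReal.toReal_nonneg
  obtain ⟨R₀, R0, hT⟩ := Sz.tail D (p := (i + γ) / 2 * i)
    (κ := A * volume.real (closedBall (0 : V D') δ) / ((i + 2) * (I + 1))) hi hγ (h.sW 0).m0 hM
    (by positivity) (by positivity)
  obtain ⟨x, hx⟩ : ∃ x, x = (2 + R₀ ^ 2) ^ (-(i + γ) / 2) := ⟨_, rfl⟩
  have x0 : 0 < x := by rw [hx]; positivity
  have x1 : x ≤ 1 := hx ▸ Real.rpow_le_one_of_one_le_of_nonpos (by nlinarith) (by linarith)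
  have x2 : (2 + R₀ ^ 2) ^ (-((i + γ) / 2 * i)) = x ^ i := by
    rw [hx, ← Real.rpow_mul (by positivity)]
    congr 1
    ring
  rw [x2] at hT
  have xi : 0 < x ^ i := by positivity
  have ex : 0 < e * x := by positivity
  have ex1 : e * x ≤ e := mul_le_of_le_one_right e0.le x1
  have hlow : ∀ a' ∈ closedBall a δ, ∀ b ∈ closedBall (0 : V D') δ, ∀ t, |t| ≤ jac a' * R₀ →
      2 * (e * x) ≤ PP σ' i γ U a' b t := by
    intro a' ha' b hb t ht
    refine le_trans ?_ (hκ₁ σ' s2 a' b t (hKa a' ha') (hKb b hb))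
    have k1 : t ^ 2 ≤ (1 + R ^ 2) * R₀ ^ 2 := by
      have k2 : jac a' ^ 2 ≤ 1 + R ^ 2 := by
        rw [jac, Real.sq_sqrt (by positivity)]
        nlinarith [hKa a' ha', norm_nonneg a']
      calc t ^ 2 = |t| ^ 2 := (sq_abs t).symm
        _ ≤ (jac a' * R₀) ^ 2 := by gcongr
        _ ≤ _ := by rw [mul_pow]; gcongr
    have k3 : (1 + R ^ 2) ^ (-(i + γ) / 2) * x ≤ (1 + t ^ 2) ^ (-(i + γ) / 2) := by
      rw [hx, ← Real.mul_rpow (by positivity) (by positivity)]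
      exact Real.rpow_le_rpow_of_nonpos (by positivity) (by nlinarith) (by linarith)
    nlinarith [mul_le_mul_of_nonneg_left k3 κ₁0.le, mul_le_mul_of_nonneg_right e1 x0.le]
  have key := h.key hσ hσ' (G := A * x ^ i)
    (ε := A * volume.real (closedBall (0 : V D') δ) / ((i + 2) * (I + 1)) * x ^ i) (by positivity)
    (by positivity) measurableSet_closedBall (closedBall_subset_closedBall δ1) (by
      have t1 : Tendsto (fun n : ℕ => (n + 1 : ℝ)) atTop atTop :=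
        tendsto_atTop_add_const_right _ _ tendsto_natCast_atTop_atTop
      filter_upwards [t1.eventually_ge_atTop R, t1.eventually_ge_atTop ((1 + R) * R₀),
        t1.inv_tendsto_atTop.eventually_le_const g0, t1.inv_tendsto_atTop.eventually_le_const ex]
        with n n1 n2 n3 n4 b hb T Z η hD
      simp only [Pi.inv_apply] at n3 n4
      have hβ : 1 + ‖b‖ ^ 2 ≤ 2 := by nlinarith [hKb b hb, norm_nonneg b]
      have hw : e * x * v / c ∈ Icc (0 : ℝ) 1 := ⟨by positivity, by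
        rw [div_le_one hc]
        rw [le_div_iff₀ va] at e3
        nlinarith⟩
      have := (h.fib hσ hσ' b).side hD hβ (G := (i + 1) * (e * x * v / c) ^ i *
        (κ * (θ₁ + g - θ₁) * δ / 2 * v / c)) (by rw [add_sub_cancel_left]; positivity)
        (ε := A * volume.real (closedBall (0 : V D') δ) / ((i + 2) * (I + 1)) * x ^ i)
        (by positivity) fun l hl => by
          have l0 : 0 < l := by linarith [hl.1]
          have k := hT _ _ (h.sW b) hβ _ hw l hl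
          rw [hv] at k ⊢
          refine (h.fib hσ hσ' b).pl hD (R₀ := R₀) l0 ex.le
            (by rw [add_sub_cancel_left]; positivity) (by positivity) measurableSet_closedBall
            (fun a' ha' => mem_closedBall_zero_iff.2 ((hKa a' ha').trans n1))
            (fun a' ha' t ht => ⟨?_, by linarith [hlow a' ha' b hb t ht]⟩)
            (fun a' ha' => hD.gain (mem_closedBall_zero_iff.2 ((hKa a' ha').trans n1)) l0 hs hδ
              (by linarith) κ0.le t0.le (ex1.trans e2) (by rwa [inv_inv])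
              (fun t ht => ht.elim (hA a' ha' b hb t) (hfar a' b hb t))
              (fun t ht => by linarith [hB a' ha' b hb t ht]) (hκ l hl a' (hKa a' ha')))
            (fun z hz => (k z hz).1.trans (le_add_of_nonneg_left ?_))
            fun z hz => (k z hz).2.trans (le_add_of_nonneg_left ?_)
          · rw [inv_inv]
            exact (ht.trans (mul_le_mul_of_nonneg_right
              ((hjac a').trans (by linarith [hKa a' ha'])) R0)).trans n2
          · have := (h.sW b).pos z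
            have := gs_pos l z
            positivity
          · have := (h.sW b).pos z
            have := gs_pos l z
            positivity
      convert this using 1
      rw [hA', add_sub_cancel_left, show e * x * v / c = e * v / c * x by ring,
        Real.mul_rpow (by positivity) x0.le]
      ring)
  rw [← hI] at key
  have k1 : A * volume.real (closedBall (0 : V D') δ) / ((i + 2) * (I + 1)) * x ^ i * (i + 2) * I =
      A * x ^ i * volume.real (closedBall (0 : V D') δ) * (I / (I + 1)) := by field_simp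
  have k2 : I / (I + 1) < 1 := (div_lt_one (by linarith)).2 (by linarith)
  rw [k1] at key
  nlinarith [mul_pos (mul_pos A0 xi) vb]

theorem Ch.even (h : Ch i γ c m M W U) (x : ℝ) : W 0 (cns (-x) 0) = W 0 (cns x 0) := by
  have k0 : ∀ a s, PP (-1) i γ U a 0 (-s) = PP 1 i γ U a 0 s := fun a s => by simp [PP, mg]
  have k1 : ∀ a s, 0 < s → PP (-1) i γ U a 0 (-s) = PP (-1) i γ U a 0 s := fun a s hs => by
    refine le_antisymm ?_ (h.one_side (σ := 1) (by norm_num) rfl a hs)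
    have := h.one_side (σ := -1) (σ' := 1) (by norm_num) (by norm_num) a hs
    rwa [← k0, ← k0, neg_neg] at this
  have k2 : ∀ a s, PP (-1) i γ U a 0 (-s) = PP (-1) i γ U a 0 s := fun a s => by
    rcases lt_trichotomy s 0 with l | rfl | l
    · simpa using (k1 a (-s) (by linarith)).symm
    · simp
    · exact k1 a s l
  have k3 := (h.fib (σ := 1) (by norm_num) rfl 0).eq
  have k4 := k3 (cns (-x) 0)
  have k5 := k3 (cns x 0)
  simp only [inner_yy, inner_zero_right, add_zero, one_mul, k2] at k4 k5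
  rw [k4, ENNReal.ofReal_eq_ofReal_iff (mul_pos h.c0 ((h.sW 0).pos _)).le
    (mul_pos h.c0 ((h.sW 0).pos _)).le] at k5
  exact mul_left_cancel₀ h.c0.ne' k5

end Pool.Agent.Lib.MP_0a1ca9_gt.Gp
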