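import Pool.Agent.Lib.MP_0a1ca9_gt.GpDec

/-! Decomposition of a triangle and of a rectangle along the running minimum. -/

open MeasureTheory Set

namespace Pool.Agent.Lib.MP_0a1ca9_gt.Gp

variable {X : Type*} [MeasurableSpace X] {g : X → ℝ → ℝ}

theorem gpRun_scale (p j l u : ℝ) {h : ℝ} (hh : h ≠ 0) :
    tri (p + j * h, p + l * h) 1 (p + u * h) = tri (j, l) 1 u := by
  refine if_congr ?_ ?_ rfl
  · simp only [cen, ar, div_pow, sq_abs]
    rw [← mul_le_mul_iff_left₀ (sq_pos_of_ne_zero hh : 0 < h ^ 2) (b := _ * (u - _) ^ 2)]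
    constructor <;> intro k <;> linarith
  · simp only [ell, add_sub_add_left_eq_sub, ← sub_mul]
    exact mul_div_mul_right _ _ hh

theorem gpRun_tent {K b u : ℝ} (h0 : 0 < K) (h1 : K < b) (hu : u ≠ K) :
    tri (0, K) 1 u + (b - K) / b * (tri (K, 0) 1 u + tri (K, b) 1 u) = tri (0, b) 1 u := by
  have h2 := h0.trans h1
  have h3 := sub_pos.2 h1
  simp only [tri_one, ell, min_eq_left h0.le, max_eq_right h0.le, min_eq_right h0.le,
    max_eq_left h0.le, min_eq_left h1.le, max_eq_right h1.le, min_eq_left h2.le,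
    max_eq_right h2.le, sub_zero, zero_sub, neg_div_neg_eq]
  rcases lt_or_gt_of_ne hu with k | k
  · by_cases k0 : 0 ≤ u
    · simp only [k0, k.le, (k.trans h1).le, k.not_ge, and_self, false_and, if_true, if_false]
      field_simp
      ring
    · simp [k0, k.not_ge]
  · by_cases k0 : u ≤ b
    · simp only [k0, k.le, (h0.trans k).le, k.not_ge, and_self, and_false, if_true, if_false]
      field_simp
      ring
    · simp [k0, k.not_ge]

theorem gpRun_two {A B s : ℝ} (h : A < B) (h1 : s ≠ A) (h2 : s ≠ B) :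
    tri (A, B) 1 s + tri (B, A) 1 s = if A < s ∧ s < B then 1 else 0 := by
  simp only [tri_one, ell, min_eq_left h.le, max_eq_right h.le, min_eq_right h.le,
    max_eq_left h.le, h1.symm.le_iff_lt, h2.le_iff_lt]
  have h3 := sub_ne_zero.2 h.ne
  have h4 := sub_ne_zero.2 h.ne'
  split_ifs
  · field_simp
    ring
  · exact add_zero 0

/-- The running minimum. -/
noncomputable def gpRun_min (g : X → ℝ → ℝ) (p h : ℝ) (x : X) : ℕ → ℝ
  | 0 => g x p
  | i + 1 => min (gpRun_min g p h x i) (g x (p + (i + 1 : ℕ) * h))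

theorem gpRun_meas (gm : ∀ s, Measurable fun x => g x s) (p h : ℝ) (i : ℕ) :
    Measurable fun x => gpRun_min g p h x i := by
  induction i with
  | zero => exact gm p
  | succ i ih => exact ih.min (gm _)

omit [MeasurableSpace X] in
theorem gpRun_le (g : X → ℝ → ℝ) (p h : ℝ) (x : X) {l i : ℕ} (hl : l ≤ i) :
    gpRun_min g p h x i ≤ g x (p + l * h) := by
  induction i, hl using Nat.le_induction with
  | base =>
    rcases l with _ | l
    · rw [Nat.cast_zero, zero_mul, add_zero]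
      rfl
    · exact min_le_right _ _
  | succ i _ ih => exact (min_le_left _ _).trans ih

theorem gpRun_single {T : Finset (ℝ × ℝ)} {τ : ℝ × ℝ} (hτ : τ ∈ T) (F : ℝ × ℝ → ℝ) :
    ∑ σ ∈ T, (if σ = τ then 1 else 0) * F σ = F τ := by
  simp [hτ]

theorem gpRun_ind (gm : ∀ s, Measurable fun x => g x s) (p : ℝ) {h : ℝ} (hh : h ≠ 0) {n : ℕ}
    {T : Finset (ℝ × ℝ)}
    (hT : ∀ j : ℕ, j ≤ n → ∀ l : ℕ, l ≤ n → j ≠ l → (p + j * h, p + l * h) ∈ T) (i : ℕ) :
    ∀ b : ℕ, i < b → b ≤ n →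
      ∃ e : ℝ × ℝ → X → ℝ, (∀ τ, Measurable (e τ)) ∧ (∀ τ x, 0 ≤ e τ x) ∧
      (∀ x s, (∀ j : ℕ, j ≤ n → s ≠ p + j * h) →
        st T (fun τ => e τ x) s = tri (p, p + b * h) 1 s) ∧
      ∀ x, cost T e g x = |h| / 2 * (∑ j ∈ Finset.range i, gpRun_min g p h x j +
        (b - i) * gpRun_min g p h x i) := by
  have h0 : p + (0 : ℕ) * h = p := by simp
  induction i with
  | zero =>
    intro b hb hbn
    have hm := hT 0 n.zero_le b hbn hb.ne
    rw [h0] at hm
    refine ⟨fun τ _ => if τ = (p, p + b * h) then 1 else 0, fun _ => measurable_const,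
      fun τ _ => by positivity, fun _ s _ => gpRun_single hm _, fun x => ?_⟩
    rw [cost, gpRun_single hm]
    simp only [ar, add_sub_cancel_left, abs_mul, Nat.abs_cast, gpRun_min, Finset.sum_range_zero,
      Nat.cast_zero]
    ring
  | succ i ih =>
    intro b hb hbn
    obtain ⟨e, h1, h2, h3, h4⟩ := ih (i + 1) i.lt_succ_self (by omega)
    obtain ⟨e', k1, k2, k3, k4⟩ := ih b (by omega) hbn
    have m1 := hT (i + 1) (by omega) 0 n.zero_le i.succ_ne_zero
    have m2 := hT (i + 1) (by omega) b hbn hb.ne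
    rw [h0] at m1
    have hK : (0 : ℝ) < (i + 1 : ℕ) := Nat.cast_pos.2 i.succ_pos
    have hKb : ((i + 1 : ℕ) : ℝ) < b := Nat.cast_lt.2 hb
    have lin : ∀ (x : X) (F : ℝ × ℝ → ℝ), ∑ τ ∈ T, (e τ x + (b - (i + 1 : ℕ)) / b *
        ((if τ = (p + (i + 1 : ℕ) * h, p) then 1 else 0) +
          if τ = (p + (i + 1 : ℕ) * h, p + b * h) then 1 else 0)) * F τ =
        ∑ τ ∈ T, e τ x * F τ + (b - (i + 1 : ℕ)) / b *
          (F (p + (i + 1 : ℕ) * h, p) + F (p + (i + 1 : ℕ) * h, p + b * h)) := fun x F => by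
      rw [← gpRun_single m1 F, ← gpRun_single m2 F, ← Finset.sum_add_distrib, Finset.mul_sum,
        ← Finset.sum_add_distrib]
      exact Finset.sum_congr rfl fun τ _ => by ring
    refine ⟨fun τ x => if g x (p + (i + 1 : ℕ) * h) ≤ gpRun_min g p h x i then
      e τ x + (b - (i + 1 : ℕ)) / b * ((if τ = (p + (i + 1 : ℕ) * h, p) then 1 else 0) +
        if τ = (p + (i + 1 : ℕ) * h, p + b * h) then 1 else 0) else e' τ x, fun τ => ?_,
      fun τ x => ?_, fun x s hs => ?_, fun x => ?_⟩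
    · exact Measurable.ite (measurableSet_le (gm _) (gpRun_meas gm p h i)) ((h1 τ).add_const _)
        (k1 τ)
    · have h5 := h2 τ x
      have h6 := (sub_pos.2 hKb).le
      beta_reduce
      by_cases c : g x (p + (i + 1 : ℕ) * h) ≤ gpRun_min g p h x i
      · rw [if_pos c]
        positivity
      · rw [if_neg c]
        exact k2 τ x
    · by_cases c : g x (p + (i + 1 : ℕ) * h) ≤ gpRun_min g p h x i
      · have h5 := h3 x s hs
        simp only [st, if_pos c] at h5 ⊢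
        rw [lin, h5]
        obtain ⟨u, rfl⟩ : ∃ u, s = p + u * h := ⟨(s - p) / h, by field_simp; ring⟩
        have h6 := gpRun_tent hK hKb (u := u) fun e => hs (i + 1) (by omega) (by rw [e])
        simpa only [← gpRun_scale p _ _ u hh, zero_mul, add_zero] using h6
      · simp only [if_neg c]
        exact k3 x s hs
    · by_cases c : g x (p + (i + 1 : ℕ) * h) ≤ gpRun_min g p h x i
      · have h5 := h4 x
        have h6 := (hK.trans hKb).ne'
        simp only [cost, if_pos c] at h5 ⊢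
        rw [lin, h5, Finset.sum_range_succ, gpRun_min, min_eq_right c]
        simp only [ar, sub_add_cancel_left, add_sub_add_left_eq_sub, ← sub_mul, abs_neg, abs_mul,
          abs_of_pos hK, abs_of_pos (sub_pos.2 hKb)]
        push_cast
        field_simp
        ring
      · have h5 := k4 x
        simp only [cost, if_neg c] at h5 ⊢
        rw [h5, Finset.sum_range_succ, gpRun_min, min_eq_left (not_le.1 c).le]
        push_cast
        ring

theorem run_tri (gm : ∀ s, Measurable fun x => g x s) (p : ℝ) {h : ℝ} (hh : h ≠ 0) {n : ℕ}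
    (hn : 0 < n) {T : Finset (ℝ × ℝ)}
    (hT : ∀ j : ℕ, j ≤ n → ∀ l : ℕ, l ≤ n → j ≠ l → (p + j * h, p + l * h) ∈ T) :
    ∃ e : ℝ × ℝ → X → ℝ, (∀ τ, Measurable (e τ)) ∧ (∀ τ x, 0 ≤ e τ x) ∧
      (∀ x s, (∀ j : ℕ, j ≤ n → s ≠ p + j * h) →
        st T (fun τ => e τ x) s = tri (p, p + n * h) 1 s) ∧
      ∀ x (v : ℕ → ℝ), (∀ i < n, ∃ l : ℕ, l ≤ i ∧ g x (p + l * h) ≤ v i) →
        cost T e g x ≤ |h| / 2 * ∑ i ∈ Finset.range n, v i := by
  obtain ⟨m, rfl⟩ := Nat.exists_eq_succ_of_ne_zero hn.ne'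
  obtain ⟨e, h1, h2, h3, h4⟩ := gpRun_ind gm p hh hT m (m + 1) m.lt_succ_self le_rfl
  refine ⟨e, h1, h2, h3, fun x v hv => ?_⟩
  rw [h4, Nat.cast_succ, add_sub_cancel_left, one_mul, ← Finset.sum_range_succ]
  refine mul_le_mul_of_nonneg_left (Finset.sum_le_sum fun i hi => ?_) (by positivity)
  obtain ⟨l, hl, h5⟩ := hv i (Finset.mem_range.1 hi)
  exact (gpRun_le g p h x hl).trans h5

theorem run_rect (gm : ∀ s, Measurable fun x => g x s) (p : ℝ) {h : ℝ} (hh : 0 < h) {a b : ℕ}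
    (hab : a ≤ b) {T : Finset (ℝ × ℝ)}
    (hT : ∀ j ∈ Icc a (b + 1), ∀ l ∈ Icc a (b + 1), j ≠ l → (p + j * h, p + l * h) ∈ T) :
    ∃ e : ℝ × ℝ → X → ℝ, (∀ τ, Measurable (e τ)) ∧ (∀ τ x, 0 ≤ e τ x) ∧
      (∀ x s, (∀ j : ℕ, s ≠ p + j * h) →
        st T (fun τ => e τ x) s = if p + a * h < s ∧ s < p + (b + 1) * h then 1 else 0) ∧
      ∀ x (vL vR : ℕ → ℝ), (∀ i ∈ Icc a b, ∃ l ∈ Icc a i, g x (p + l * h) ≤ vL i) →
        (∀ i ∈ Icc a b, ∃ l ∈ Icc (i + 1) (b + 1), g x (p + l * h) ≤ vR i) →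
        cost T e g x ≤ h / 2 * ∑ i ∈ Finset.Icc a b, (vL i + vR i) := by
  obtain ⟨m, rfl⟩ := Nat.exists_eq_add_of_le hab
  have c1 : ∀ j : ℕ, p + a * h + j * h = p + (a + j : ℕ) * h := fun j => by
    push_cast
    ring
  have c2 : ∀ j : ℕ, j ≤ m + 1 →
      p + (a + m + 1 : ℕ) * h + j * -h = p + (a + (m + 1 - j) : ℕ) * h := fun j hj => by
    push_cast [hj]
    ring
  obtain ⟨e, h1, h2, h3, h4⟩ := run_tri gm (p + a * h) hh.ne' m.succ_pos (T := T)
    fun j hj l hl hne => by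
      rw [c1, c1]
      exact hT _ ⟨by omega, by omega⟩ _ ⟨by omega, by omega⟩ (by omega)
  obtain ⟨e', k1, k2, k3, k4⟩ := run_tri gm (p + (a + m + 1 : ℕ) * h) (neg_ne_zero.2 hh.ne')
    m.succ_pos (T := T) fun j hj l hl hne => by
      rw [c2 j hj, c2 l hl]
      exact hT _ ⟨by omega, by omega⟩ _ ⟨by omega, by omega⟩ (by omega)
  refine ⟨fun τ x => e τ x + e' τ x, fun τ => (h1 τ).add (k1 τ),
    fun τ x => add_nonneg (h2 τ x) (k2 τ x), fun x s hs => ?_, fun x vL vR hL hR => ?_⟩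
  · have e1 := h3 x s fun j _ => by rw [c1]; exact hs _
    have e2 := k3 x s fun j hj => by rw [c2 j hj]; exact hs _
    rw [c1] at e1
    rw [c2 _ le_rfl, Nat.sub_self, add_zero] at e2
    simp only [st, add_mul, Finset.sum_add_distrib] at e1 e2 ⊢
    rw [e1, e2, ← one_mul h, ← add_mul, one_mul, ← Nat.cast_succ]
    refine gpRun_two ?_ (hs a) (hs _)
    have : (a : ℝ) < (a + m + 1 : ℕ) := by exact_mod_cast (by omega)
    exact add_lt_add_right (mul_lt_mul_of_pos_right this hh) p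
  · have e1 := h4 x (fun i => vL (a + i)) fun i hi => by
      obtain ⟨l, hl, h5⟩ := hL (a + i) ⟨by omega, by omega⟩
      obtain ⟨l, rfl⟩ := Nat.exists_eq_add_of_le hl.1
      exact ⟨l, by have := hl.2; omega, by rwa [c1]⟩
    have e2 := k4 x (fun i => vR (a + (m + 1 - 1 - i))) fun i hi => by
      obtain ⟨l, hl, h5⟩ := hR (a + (m + 1 - 1 - i)) ⟨by omega, by omega⟩
      have h6 := hl.1
      have h7 := hl.2
      refine ⟨a + m + 1 - l, by omega, ?_⟩
      rwa [c2 _ (by omega), show a + (m + 1 - (a + m + 1 - l)) = l by omega]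
    rw [Finset.sum_range_reflect (fun i => vR (a + i)), abs_neg] at e2
    rw [abs_of_pos hh] at e1 e2
    rw [← Finset.Ico_add_one_right_eq_Icc, Finset.sum_Ico_eq_sum_range,
      show a + m + 1 - a = m + 1 by omega]
    simp only [cost, add_mul, Finset.sum_add_distrib, mul_add] at e1 e2 ⊢
    exact add_le_add e1 e2

end Pool.Agent.Lib.MP_0a1ca9_gt.Gp
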