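import Pool.Agent.Lib.MP_0a1ca9_gt.GpFibre

/-! Integration over the Gaussian weights. -/

open MeasureTheory Set Metric
open scoped ENNReal RealInnerProductSpace

namespace Pool.Agent.Lib.MP_0a1ca9_gt.Gp

theorem gpSide_gamma {r p : ℝ} (hr : 0 < r) (hp : 0 < p) :
    ∫⁻ l in Ioi (0 : ℝ), ENNReal.ofReal (l ^ (p - 1) * Real.exp (-(l * r))) =
      ENNReal.ofReal (Real.Gamma p) * ENNReal.ofReal (r ^ (-p)) := by
  have hG := Real.Gamma_pos_of_pos hp
  have h1 := Real.integral_rpow_mul_exp_neg_mul_Ioi hp hr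
  rw [one_div, Real.inv_rpow hr.le, ← Real.rpow_neg hr.le] at h1
  rw [← ENNReal.ofReal_mul hG.le, mul_comm, ← h1, ofReal_integral_eq_lintegral_ofReal
    (Integrable.of_integral_ne_zero (by rw [h1]; positivity))
    ((ae_restrict_mem measurableSet_Ioi).mono fun l hl =>
      mul_nonneg (Real.rpow_nonneg (le_of_lt hl) _) (Real.exp_pos _).le)]
  simp only [mul_comm r]

theorem gpSide_meas {Y : Type*} [MeasurableSpace Y] (ν : Measure Y) [SFinite ν]
    {Φ : Y → ℝ≥0∞} (hΦ : Measurable Φ) {ψ : Y → ℝ} (hψ : Measurable ψ) (β p : ℝ) :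
    Measurable fun l : ℝ => ENNReal.ofReal (l ^ (p - 1) * Real.exp (-(l * β))) *
      ∫⁻ y, Φ y * ENNReal.ofReal (Real.exp (-(l * ψ y))) ∂ν :=
  Measurable.mul (by fun_prop) (Measurable.lintegral_prod_right (by fun_prop))

theorem lintegral_gamma {Y : Type*} [MeasurableSpace Y] (ν : Measure Y) [SFinite ν]
    {Φ : Y → ℝ≥0∞} (hΦ : Measurable Φ) {ψ : Y → ℝ} (hψ : Measurable ψ) {β p : ℝ}
    (h0 : ∀ y, 0 < β + ψ y) (hp : 0 < p) :
    ∫⁻ l in Ioi (0 : ℝ), ENNReal.ofReal (l ^ (p - 1) * Real.exp (-(l * β))) *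
        ∫⁻ y, Φ y * ENNReal.ofReal (Real.exp (-(l * ψ y))) ∂ν =
      ENNReal.ofReal (Real.Gamma p) * ∫⁻ y, Φ y * ENNReal.ofReal ((β + ψ y) ^ (-p)) ∂ν := by
  simp only [← lintegral_const_mul' _ _ ENNReal.ofReal_ne_top]
  rw [lintegral_lintegral_swap (Measurable.aemeasurable (by fun_prop))]
  refine lintegral_congr fun y => ?_
  rw [mul_left_comm, ← gpSide_gamma (h0 y) hp, ← lintegral_const_mul _ (by fun_prop)]
  refine setLIntegral_congr_fun measurableSet_Ioi fun l hl => ?_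
  have hl' : 0 < l := hl
  rw [mul_left_comm, ← ENNReal.ofReal_mul (by positivity), mul_assoc, ← Real.exp_add]
  congr 4
  ring

variable {D : ℕ} {σ i γ c β β' m M R ε' G ε : ℝ} {W : V (D + 1) → ℝ} {f : V D → ℝ → ℝ}
  {T : Finset (ℝ × ℝ)}

theorem gpSide_cont (σ s : ℝ) :
    Continuous fun q : V D × V D => cns (σ * s - ⟪q.1, q.2⟫) q.2 :=
  continuous_cns.comp (Continuous.prodMk (by fun_prop) continuous_snd)

theorem gpSide_cost {μ : Measure (V D)} [SFinite μ] {h : ℝ × ℝ → V D → ℝ} (hF : Fam μ T h)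
    {C : ℝ} {Φ : V (D + 1) → ℝ} (hΦ : Tm C Φ) (h0 : ∀ z, 0 ≤ Φ z) :
    ∫⁻ a, ENNReal.ofReal (cost T h (mg σ Φ) a) ∂μ = ∑ τ ∈ T, ∫⁻ q : V D × V D,
      ENNReal.ofReal (h τ q.1 * ar τ) * ENNReal.ofReal (Φ (cns (σ * τ.1 - ⟪q.1, q.2⟫) q.2))
        ∂μ.prod volume := by
  have hm : ∀ τ : ℝ × ℝ, Measurable fun q : V D × V D => ENNReal.ofReal (h τ q.1 * ar τ) *
      ENNReal.ofReal (Φ (cns (σ * τ.1 - ⟪q.1, q.2⟫) q.2)) := fun τ =>
    (((hF.meas τ).comp measurable_fst).mul_const _).ennreal_ofReal.mul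
      (hΦ.1.comp (gpSide_cont σ τ.1)).measurable.ennreal_ofReal
  rw [Finset.sum_congr rfl fun τ _ => lintegral_prod _ (hm τ).aemeasurable,
    ← lintegral_finsetSum _ fun τ _ => (hm τ).lintegral_prod_right']
  refine lintegral_congr fun a => ?_
  refine (ENNReal.ofReal_sum_of_nonneg fun τ _ => mul_nonneg (hF.nn τ a)
    (mul_nonneg (ar_nonneg τ) (integral_nonneg fun z => h0 _))).trans
    (Finset.sum_congr rfl fun τ _ => ?_)
  dsimp only
  rw [lintegral_const_mul' _ _ ENNReal.ofReal_ne_top, ← mul_assoc,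
    ENNReal.ofReal_mul (mul_nonneg (hF.nn τ a) (ar_nonneg τ)),
    ofReal_integral_eq_lintegral_ofReal (hΦ.slice σ a τ.1) (ae_of_all _ fun z => h0 _)]

theorem gpSide_mass (hγ : 0 < γ) (h1 : 1 ≤ β) (hβ : β ≤ β') :
    ENNReal.ofReal (Real.Gamma (γ / 2)) * ENNReal.ofReal (kp γ β') ≤
      ∫⁻ l in Ioi (0 : ℝ), (Icc (1 : ℝ) 2).indicator (fun l =>
        ENNReal.ofReal (l ^ (γ / 2 - 1) * Real.exp (-(l * β)))) l ∧
    ∫⁻ l in Ioi (0 : ℝ), (Icc (1 : ℝ) 2).indicator (fun l =>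
        ENNReal.ofReal (l ^ (γ / 2 - 1) * Real.exp (-(l * β)))) l ≤
      ENNReal.ofReal (Real.Gamma (γ / 2)) := by
  have hG := Real.Gamma_pos_of_pos (half_pos hγ)
  constructor
  · rw [lintegral_indicator measurableSet_Icc, Measure.restrict_restrict measurableSet_Icc,
      inter_eq_left.2 (Icc_subset_Ioi_iff one_le_two |>.2 one_pos), ← ENNReal.ofReal_mul hG.le, kp,
      mul_div_cancel₀ _ hG.ne']
    refine le_trans ?_ (setLIntegral_mono' measurableSet_Icc fun l hl =>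
      ENNReal.ofReal_le_ofReal (show Real.exp (-(2 * β')) * min 1 (2 ^ (γ / 2 - 1)) ≤ _ from ?_))
    · rw [setLIntegral_const, Real.volume_Icc]
      norm_num
    · rw [mul_comm]
      refine mul_le_mul ?_ (Real.exp_le_exp.2 (by nlinarith [hl.2])) (Real.exp_pos _).le
        (Real.rpow_nonneg (by linarith [hl.1]) _)
      rcases le_total 0 (γ / 2 - 1) with e | e
      · exact (min_le_left _ _).trans (Real.one_le_rpow hl.1 e)
      · exact (min_le_right _ _).trans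
          (Real.rpow_le_rpow_of_nonpos (by linarith [hl.1]) hl.2 e)
  · refine (lintegral_mono fun l => indicator_le_self _ _ l).trans ?_
    rw [gpSide_gamma (by linarith) (half_pos hγ)]
    exact mul_le_of_le_one_right' (ENNReal.ofReal_le_one.2
      (Real.rpow_le_one_of_one_le_of_nonpos h1 (by linarith)))

theorem side_int (hW : Sz i γ β m M W) {μ : Measure (V D)} [IsFiniteMeasure μ]
    {h : ℝ × ℝ → V D → ℝ} (hF : Fam μ T h) (hβ : β ≤ β') (hG : 0 ≤ G) (hε : 0 ≤ ε)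
    (p0 : ∀ l, 0 < l → PL σ i γ β W μ T h l 0 0) (p1 : ∀ l ∈ Icc (1 : ℝ) 2, PL σ i γ β W μ T h l G ε) :
    ENNReal.ofReal (D + 1) *
        (∫⁻ z, ENNReal.ofReal (WW μ (yy σ) T h 1 z ^ (i + 1) * (β + ‖z‖ ^ 2) ^ (-γ / 2))) +
        ENNReal.ofReal (kp γ β' * G) ≤
      ENNReal.ofReal ((1 + ε) * (i + 1)) *
        ∫⁻ a, ENNReal.ofReal (cost T h (mg σ (HH i γ β W)) a) ∂μ +
      ENNReal.ofReal γ * CC i γ β W + ENNReal.ofReal ε * II i γ β W := by
  have hp := half_pos hW.g0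
  have hΓ := Real.Gamma_pos_of_pos hp
  have hi := hW.i0
  have hb : ∀ {d : ℕ} (z : V d), 0 < β + ‖z‖ ^ 2 := fun z => by
    have := hW.b1
    positivity
  have hy := (continuous_yy (D := D) σ).measurable
  obtain ⟨B, hB⟩ := hF.WW_mem hy
  have mW := hF.measurable_WW hy 1
  have cW := hW.cW
  have ci : Continuous fun z => W z ^ i := cW.rpow_const fun _ => Or.inr hi.le
  obtain ⟨k1, k2⟩ := gpSide_mass hW.g0 hW.b1 hβ
  set w : ℝ → ℝ≥0∞ := fun l => ENNReal.ofReal (l ^ (γ / 2 - 1) * Real.exp (-(l * β))) with hw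
  have mw : Measurable ((Icc (1 : ℝ) 2).indicator w) :=
    Measurable.indicator (by rw [hw]; fun_prop) measurableSet_Icc
  set K := ∫⁻ a, ENNReal.ofReal (cost T h (mg σ (HH i γ β W)) a) ∂μ with hK
  set X := ENNReal.ofReal ε * (ENNReal.ofReal (i + 1) * K + II i γ β W) with hX
  let cc : ℝ × ℝ → V D × V D → V (D + 1) := fun τ q => cns (σ * τ.1 - ⟪q.1, q.2⟫) q.2
  have mc : ∀ τ, Measurable (cc τ) := fun τ => (gpSide_cont σ τ.1).measurable
  let Φ : ℝ × ℝ → V D × V D → ℝ≥0∞ := fun τ q =>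
    ENNReal.ofReal (h τ q.1 * ar τ) * ENNReal.ofReal (W (cc τ q) ^ i)
  have mΦ : ∀ τ, Measurable (Φ τ) := fun τ =>
    (((hF.meas τ).comp measurable_fst).mul_const _).ennreal_ofReal.mul
      (ci.measurable.comp (mc τ)).ennreal_ofReal
  have mψ : ∀ τ, Measurable fun q => ‖cc τ q‖ ^ 2 := fun τ => (mc τ).norm.pow_const 2
  have mA : Measurable fun z => ENNReal.ofReal (WW μ (yy σ) T h 1 z ^ (i + 1)) := by fun_prop
  have mB : Measurable fun z => ENNReal.ofReal (W z ^ (i + 1) * ‖z‖ ^ 2) := by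
    have := cW.measurable
    fun_prop
  have mn : Measurable fun z : V (D + 1) => ‖z‖ ^ 2 := by fun_prop
  have key : ∀ l ∈ Ioi (0 : ℝ), ENNReal.ofReal (D + 1) * (w l *
      ∫⁻ z, ENNReal.ofReal (WW μ (yy σ) T h 1 z ^ (i + 1)) *
        ENNReal.ofReal (Real.exp (-(l * ‖z‖ ^ 2)))) +
      ENNReal.ofReal G * (Icc (1 : ℝ) 2).indicator w l ≤
      ENNReal.ofReal (i + 1) * ∑ τ ∈ T, (w l * ∫⁻ q, Φ τ q *
        ENNReal.ofReal (Real.exp (-(l * ‖cc τ q‖ ^ 2))) ∂μ.prod volume) +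
      2 * (ENNReal.ofReal (l ^ (γ / 2 + 1 - 1) * Real.exp (-(l * β))) *
        ∫⁻ z, ENNReal.ofReal (W z ^ (i + 1) * ‖z‖ ^ 2) *
          ENNReal.ofReal (Real.exp (-(l * ‖z‖ ^ 2)))) +
      X * (Icc (1 : ℝ) 2).indicator w l := fun l hl => by
    have hl' : 0 < l := hl
    obtain ⟨C, hC⟩ := tm_gs D hl'
    have tm := hC.mul ci (B := M ^ i) fun z => by
      rw [abs_of_nonneg (Real.rpow_nonneg (hW.pos z).le _)]
      exact Real.rpow_le_rpow (hW.pos z).le (hW.le z) hi.le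
    have e2 : ENNReal.ofReal (l ^ (γ / 2 + 1 - 1) * Real.exp (-(l * β))) =
        w l * ENNReal.ofReal l := by
      rw [hw, ← ENNReal.ofReal_mul (by positivity), show γ / 2 + 1 - 1 = γ / 2 - 1 + 1 by ring,
        Real.rpow_add_one hl'.ne', mul_right_comm]
    have H : ∀ G ε, PL σ i γ β W μ T h l G ε → ENNReal.ofReal (D + 1) * (w l *
      ∫⁻ z, ENNReal.ofReal (WW μ (yy σ) T h 1 z ^ (i + 1)) *
        ENNReal.ofReal (Real.exp (-(l * ‖z‖ ^ 2)))) + ENNReal.ofReal G * w l ≤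
      ENNReal.ofReal (i + 1) * ∑ τ ∈ T, (w l * ∫⁻ q, Φ τ q *
        ENNReal.ofReal (Real.exp (-(l * ‖cc τ q‖ ^ 2))) ∂μ.prod volume) +
      2 * (ENNReal.ofReal (l ^ (γ / 2 + 1 - 1) * Real.exp (-(l * β))) *
        ∫⁻ z, ENNReal.ofReal (W z ^ (i + 1) * ‖z‖ ^ 2) *
          ENNReal.ofReal (Real.exp (-(l * ‖z‖ ^ 2)))) +
      ENNReal.ofReal ε * (ENNReal.ofReal (i + 1) * K + II i γ β W) * w l := fun G ε H => by
      have H := mul_le_mul_right H (w l)
      rw [gpSide_cost hF tm fun z => mul_nonneg (Real.rpow_nonneg (hW.pos z).le _) (gs_pos l z).le,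
        ENNReal.ofReal_mul zero_le_two, ENNReal.ofReal_ofNat] at H
      simp only [ENNReal.ofReal_mul (Real.rpow_nonneg (hB 1 le_rfl _).1 _),
        ENNReal.ofReal_mul (Real.rpow_nonneg (hW.pos _).le i), ← mul_assoc,
        ENNReal.ofReal_mul (mul_nonneg (Real.rpow_nonneg (hW.pos _).le _) (sq_nonneg _)), gs] at H
      rw [e2, ← Finset.mul_sum]
      refine le_trans (le_of_eq ?_) (H.trans_eq ?_)
      · ring
      · simp only [Φ, cc, hK]
        ring
    by_cases e : l ∈ Icc (1 : ℝ) 2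
    · rw [indicator_of_mem e]
      exact H G ε (p1 l e)
    · simpa only [indicator_of_notMem e, mul_zero, ENNReal.ofReal_zero, zero_mul] using
        H 0 0 (p0 l hl')
  have int := setLIntegral_mono' (μ := volume) measurableSet_Ioi key
  have mS := fun τ => gpSide_meas (μ.prod volume) (mΦ τ) (mψ τ) β (γ / 2)
  rw [lintegral_add_right _ (mw.const_mul _), lintegral_add_right _ (mw.const_mul _),
    lintegral_add_right _ ((gpSide_meas volume mB mn β _).const_mul _),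
    lintegral_const_mul' _ _ ENNReal.ofReal_ne_top, lintegral_const_mul _ mw,
    lintegral_const_mul _ mw, lintegral_const_mul' _ _ ENNReal.ofReal_ne_top,
    lintegral_const_mul' _ _ ENNReal.ofNat_ne_top, lintegral_finsetSum _ fun τ _ => mS τ,
    lintegral_gamma volume mA mn hb hp, lintegral_gamma volume mB mn hb (by linarith),
    Finset.sum_congr rfl fun τ _ => lintegral_gamma _ (mΦ τ) (mψ τ) (fun q => hb _) hp,
    ← Finset.mul_sum, Real.Gamma_add_one hp.ne', ENNReal.ofReal_mul hp.le] at int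
  have e1 : K = ∑ τ ∈ T, ∫⁻ q, Φ τ q * ENNReal.ofReal ((β + ‖cc τ q‖ ^ 2) ^ (-(γ / 2)))
      ∂μ.prod volume := by
    rw [hK, gpSide_cost hF hW.tm fun z => (hW.HH_pos z).le]
    simp only [HH, ENNReal.ofReal_mul (Real.rpow_nonneg (hW.pos _).le i), ← mul_assoc, neg_div]
    rfl
  have e2 : CC i γ β W = ∫⁻ z, ENNReal.ofReal (W z ^ (i + 1) * ‖z‖ ^ 2) *
      ENNReal.ofReal ((β + ‖z‖ ^ 2) ^ (-(γ / 2 + 1))) := lintegral_congr fun z => by
    rw [← ENNReal.ofReal_mul (mul_nonneg (Real.rpow_nonneg (hW.pos _).le _) (sq_nonneg _)), HH,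
      Real.rpow_add_one (hW.pos z).ne', neg_add', Real.rpow_sub_one (hb z).ne', neg_div]
    congr 1
    ring
  have e3 : ENNReal.ofReal γ = 2 * ENNReal.ofReal (γ / 2) := by
    rw [← ENNReal.ofReal_ofNat, ← ENNReal.ofReal_mul zero_le_two]
    congr 1
    ring
  rw [← e1, ← e2] at int
  refine (ENNReal.mul_le_mul_iff_right (ENNReal.ofReal_pos.2 hΓ).ne' ENNReal.ofReal_ne_top).1 ?_
  simp only [ENNReal.ofReal_mul (Real.rpow_nonneg (hB 1 le_rfl _).1 _), neg_div]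
  rw [mul_comm _ G, ENNReal.ofReal_mul hG, ENNReal.ofReal_mul (add_nonneg zero_le_one hε),
    ENNReal.ofReal_add zero_le_one hε, ENNReal.ofReal_one, e3]
  refine le_trans (le_of_eq ?_) (((add_le_add_right (mul_le_mul_right k1 _) _).trans int).trans
    ((add_le_add_right (mul_le_mul_right k2 _) _).trans_eq ?_))
  · ring
  · rw [hX]
    ring

theorem Fib.side {Z : Set ℝ} {η : ℝ → ℝ × ℝ → V D → ℝ} (hF : Fib σ i γ c β m M W f)
    (hD : Dec (closedBall 0 R) ε' f T Z η) (hβ : β ≤ β') (hG : 0 ≤ G) (hε : 0 ≤ ε)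
    (p1 : ∀ l ∈ Icc (1 : ℝ) 2,
      PL σ i γ β W (volume.restrict (closedBall 0 R)) T (fun τ a => η 0 τ a / c) l G ε) :
    SD σ i γ c β W f R ε' T (η 0) (kp γ β' * G) ε := by
  have hc := hF.c0
  have hi := hF.i0
  have H := side_int hF.toSz (hF.fam hD) hβ hG hε (fun l hl => hF.pl0 hD hl) p1
  obtain ⟨B, hB⟩ := (hF.fam hD).WW_mem (continuous_yy (D := D) σ).measurable
  have e : ∀ a, cost T (fun τ a => η 0 τ a / c) (mg σ (HH i γ β W)) a =
      c⁻¹ * cost T (η 0) (mg σ (HH i γ β W)) a := fun a => by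
    rw [cost, cost, Finset.mul_sum]
    exact Finset.sum_congr rfl fun τ _ => by ring
  simp only [e, ENNReal.ofReal_mul (inv_nonneg.2 hc.le)] at H
  rw [lintegral_const_mul' _ _ ENNReal.ofReal_ne_top, ← mul_assoc,
    ← ENNReal.ofReal_mul (by positivity), ← div_eq_mul_inv] at H
  refine le_trans (add_le_add_left (mul_le_mul_right (lintegral_mono_ae
    ((hF.LL_le hD).mono fun z hz => ?_)) _) _) H
  rw [ENNReal.ofReal_mul (Real.rpow_nonneg (hB 1 le_rfl _).1 _),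
    ← ENNReal.ofReal_rpow_of_nonneg (hB 1 le_rfl _).1 (by linarith)]
  exact mul_le_mul_left (ENNReal.rpow_le_rpow hz (by linarith)) _

theorem Fib.side0 {Z : Set ℝ} {η : ℝ → ℝ × ℝ → V D → ℝ} (hF : Fib σ i γ c β m M W f)
    (hD : Dec (closedBall 0 R) ε' f T Z η) : SD σ i γ c β W f R ε' T (η 0) 0 0 := by
  simpa using hF.side hD le_rfl le_rfl le_rfl fun l hl => hF.pl0 hD (by linarith [hl.1])

end Pool.Agent.Lib.MP_0a1ca9_gt.Gp
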