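import Pool.Agent.Lib.MP_0a1ca9_gt.GpDec

/-! Functions with integrable decay. -/

open MeasureTheory Set Function
open scoped ENNReal RealInnerProductSpace

namespace Pool.Agent.Lib.MP_0a1ca9_gt.Gp

variable {D : ℕ} {σ C : ℝ} {Φ : V (D + 1) → ℝ}

theorem gpTm_sq {d : ℕ} (z : V d) : jac z ^ 2 = 1 + ‖z‖ ^ 2 := Real.sq_sqrt (by positivity)

theorem gpTm_one {d : ℕ} (z : V d) : 1 ≤ jac z :=
  Real.one_le_sqrt.2 (le_add_of_nonneg_right (sq_nonneg _))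

theorem gpTm_pow {d : ℕ} (z : V d) (n : ℕ) :
    (jac z ^ n)⁻¹ = (1 + ‖z‖ ^ 2) ^ (-(n : ℝ) / 2) := by
  have h : (0 : ℝ) ≤ 1 + ‖z‖ ^ 2 := by positivity
  rw [jac, Real.sqrt_eq_rpow, ← Real.rpow_natCast, ← Real.rpow_mul h, ← Real.rpow_neg h]
  congr 1
  ring

theorem gpTm_int (d : ℕ) : Integrable fun z : V d => (jac z ^ (d + 1))⁻¹ := by
  simp only [gpTm_pow]
  refine integrable_rpow_neg_one_add_norm_sq ?_
  simp

theorem gpTm_cns (x : ℝ) (z : V D) : jac z ≤ jac (cns x z) := by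
  refine Real.sqrt_le_sqrt ?_
  rw [norm_cns_sq]
  linarith [sq_nonneg x]

theorem gpTm_nn (h : Tm C Φ) : 0 ≤ C := by
  have h1 := (abs_nonneg _).trans (h.2 0)
  exact (div_nonneg_iff.1 h1).elim And.left fun h2 =>
    absurd h2.2 (not_le.2 (pow_pos (jac_pos _) _))

theorem gpTm_le (h : Tm C Φ) (x : ℝ) (z : V D) :
    |Φ (cns x z)| ≤ C / jac (cns x z) * (jac z ^ (D + 1))⁻¹ := by
  refine (h.2 _).trans ?_
  have h1 := gpTm_nn h
  have h2 := jac_pos z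
  have h3 := jac_pos (cns x z)
  rw [pow_succ' _ (D + 1), ← div_div, div_eq_mul_inv _ (_ ^ _)]
  gcongr
  exact gpTm_cns x z

theorem gpTm_le' (h : Tm C Φ) (x : ℝ) (z : V D) :
    ‖Φ (cns x z)‖ ≤ C * (jac z ^ (D + 1))⁻¹ := by
  refine (gpTm_le h x z).trans ?_
  have h2 := jac_pos z
  gcongr
  exact div_le_self (gpTm_nn h) (gpTm_one _)

theorem gpTm_cont (h : Continuous Φ) (σ : ℝ) (a : V D) (s : ℝ) :
    Continuous fun z : V D => Φ (cns (σ * s - ⟪a, z⟫) z) :=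
  h.comp (continuous_cns.comp (Continuous.prodMk (by fun_prop) continuous_id))

theorem Tm.integrable (h : Tm C Φ) : Integrable Φ := by
  refine ((gpTm_int (D + 1)).const_mul C).mono' h.1.aestronglyMeasurable
    (Filter.Eventually.of_forall fun z => ?_)
  rw [← div_eq_mul_inv]
  exact h.2 z

theorem Tm.slice (h : Tm C Φ) (σ : ℝ) (a : V D) (s : ℝ) :
    Integrable fun z : V D => Φ (cns (σ * s - ⟪a, z⟫) z) := by
  exact ((gpTm_int D).const_mul C).mono' (gpTm_cont h.1 σ a s).aestronglyMeasurable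
    (Filter.Eventually.of_forall fun z => gpTm_le' h _ z)

theorem gpTm_sqrt (hσ : σ ^ 2 = 1) (a z : V D) (s : ℝ) :
    √(1 + s ^ 2) ≤ jac a * jac (cns (σ * s - ⟪a, z⟫) z) := by
  set w := cns (σ * s - ⟪a, z⟫) z with hw
  have h1 : ⟪cns 1 a, w⟫ = σ * s := by
    rw [hw, inner_cns]
    ring
  have h2 := real_inner_mul_inner_self_le (cns 1 a) w
  rw [h1, real_inner_self_eq_norm_sq, real_inner_self_eq_norm_sq, norm_cns_sq] at h2
  rw [jac, jac, ← Real.sqrt_mul (by positivity)]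
  refine Real.sqrt_le_sqrt ?_
  have h3 : σ * s * (σ * s) = s ^ 2 := by linear_combination s ^ 2 * hσ
  rw [h3] at h2
  nlinarith [sq_nonneg ‖a‖]

theorem exists_mg_le (D : ℕ) : ∃ J, 0 ≤ J ∧ ∀ (σ C : ℝ) (Φ : V (D + 1) → ℝ), σ ^ 2 = 1 → Tm C Φ →
    ∀ a s, |mg σ Φ a s| ≤ C * J * jac a / √(1 + s ^ 2) := by
  refine ⟨∫ z : V D, (jac z ^ (D + 1))⁻¹,
    integral_nonneg fun z => inv_nonneg.2 (pow_pos (jac_pos z) _).le, fun σ C Φ hσ h a s => ?_⟩
  have h1 := norm_integral_le_of_norm_le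
    (f := fun z : V D => Φ (cns (σ * s - ⟪a, z⟫) z))
    ((gpTm_int D).const_mul (C * jac a / √(1 + s ^ 2))) (Filter.Eventually.of_forall fun z => by
      refine (gpTm_le h _ z).trans ?_
      have h2 := jac_pos z
      have h3 := jac_pos (cns (σ * s - ⟪a, z⟫) z)
      gcongr ?_ * _
      rw [div_le_div_iff₀ h3 (by positivity), mul_assoc]
      exact mul_le_mul_of_nonneg_left (gpTm_sqrt hσ a z s) (gpTm_nn h))
  rw [integral_const_mul] at h1
  refine h1.trans_eq ?_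
  ring

theorem continuous_mg {Y : Type*} [TopologicalSpace Y] [FirstCountableTopology Y]
    {Ψ : Y → V (D + 1) → ℝ} (hΨ : Continuous (uncurry Ψ)) (h : ∀ y, Tm C (Ψ y)) (σ : ℝ) :
    Continuous fun p : Y × V D × ℝ => mg σ (Ψ p.1) p.2.1 p.2.2 := by
  refine continuous_of_dominated (bound := fun z : V D => C * (jac z ^ (D + 1))⁻¹)
    (fun p => (gpTm_cont (h p.1).1 σ _ _).aestronglyMeasurable)
    (fun p => Filter.Eventually.of_forall fun z => gpTm_le' (h p.1) _ z)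
    ((gpTm_int D).const_mul C) (Filter.Eventually.of_forall fun z => ?_)
  have h1 : Continuous fun p : Y × V D × ℝ => cns (σ * p.2.2 - ⟪p.2.1, z⟫) z :=
    continuous_cns.comp (Continuous.prodMk (by fun_prop) continuous_const)
  exact hΨ.comp (continuous_fst.prodMk h1)

theorem Tm.add {C' : ℝ} {Ψ : V (D + 1) → ℝ} (h : Tm C Φ) (h' : Tm C' Ψ) :
    Tm (C + C') fun z => Φ z + Ψ z := by
  refine ⟨h.1.add h'.1, fun z => (abs_add_le _ _).trans ?_⟩
  rw [add_div]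
  exact add_le_add (h.2 z) (h'.2 z)

theorem Tm.mul (h : Tm C Φ) {Ψ : V (D + 1) → ℝ} (hΨ : Continuous Ψ) {B : ℝ} (hB : ∀ z, |Ψ z| ≤ B) :
    Tm (B * C) fun z => Ψ z * Φ z := by
  refine ⟨hΨ.mul h.1, fun z => ?_⟩
  rw [abs_mul, mul_div_assoc]
  exact mul_le_mul (hB z) (h.2 z) (abs_nonneg _) ((abs_nonneg _).trans (hB z))

theorem tm_gs (D : ℕ) {l : ℝ} (hl : 0 < l) : ∃ C, Tm C (gs l : V (D + 1) → ℝ) := by
  refine ⟨(D + 2).factorial / l ^ (D + 2) * Real.exp l, by unfold gs; fun_prop, fun z => ?_⟩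
  have h0 := jac_pos z
  have h1 : jac z ≤ 1 + ‖z‖ ^ 2 := by
    rw [← gpTm_sq]
    nlinarith [gpTm_one z]
  have h2 := Real.pow_div_factorial_le_exp (l * (1 + ‖z‖ ^ 2)) (by positivity) (D + 2)
  have h3 : (0 : ℝ) < (D + 2).factorial := by positivity
  rw [div_le_iff₀ h3, mul_pow, mul_add, mul_one, Real.exp_add] at h2
  rw [abs_of_pos (gs_pos l z), le_div_iff₀ (by positivity), gs, Real.exp_neg, div_mul_eq_mul_div,
    le_div_iff₀ (by positivity), mul_assoc, inv_mul_le_iff₀ (Real.exp_pos _)]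
  calc jac z ^ (D + 2) * l ^ (D + 2) ≤ (1 + ‖z‖ ^ 2) ^ (D + 2) * l ^ (D + 2) := by gcongr
    _ ≤ _ := by linarith

variable {i γ β m M : ℝ} {W : V (D + 1) → ℝ}

theorem gpTm_q (h : Sz i γ β m M W) (z : V (D + 1)) : 1 ≤ β + ‖z‖ ^ 2 := by
  linarith [h.b1, sq_nonneg ‖z‖]

theorem Sz.pos (h : Sz i γ β m M W) (z : V (D + 1)) : 0 < W z := by
  by_contra h0
  exact (h.m0.trans_le (h.lo z)).not_ge
    (mul_nonpos_of_nonpos_of_nonneg (not_lt.1 h0) (Real.sqrt_nonneg _))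

theorem Sz.le (h : Sz i γ β m M W) (z : V (D + 1)) : W z ≤ M := by
  exact (le_mul_of_one_le_right (h.pos z).le (Real.one_le_sqrt.2 (gpTm_q h z))).trans (h.hi z)

theorem Sz.HH_pos (h : Sz i γ β m M W) (z : V (D + 1)) : 0 < HH i γ β W z := by
  exact mul_pos (Real.rpow_pos_of_pos (h.pos z) _)
    (Real.rpow_pos_of_pos (one_pos.trans_le (gpTm_q h z)) _)

theorem Sz.HH_mem (h : Sz i γ β m M W) (z : V (D + 1)) :
    m ^ i * (β + ‖z‖ ^ 2) ^ (-(i + γ) / 2) ≤ HH i γ β W z ∧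
      HH i γ β W z ≤ M ^ i * (β + ‖z‖ ^ 2) ^ (-(i + γ) / 2) := by
  have hq := one_pos.trans_le (gpTm_q h z)
  have e : HH i γ β W z = (W z * √(β + ‖z‖ ^ 2)) ^ i * (β + ‖z‖ ^ 2) ^ (-(i + γ) / 2) := by
    rw [HH, Real.mul_rpow (h.pos z).le (Real.sqrt_nonneg _), Real.sqrt_eq_rpow,
      ← Real.rpow_mul hq.le, mul_assoc, ← Real.rpow_add hq]
    congr 2
    ring
  have h1 := (Real.rpow_pos_of_pos hq (-(i + γ) / 2)).le
  rw [e]
  exact ⟨mul_le_mul_of_nonneg_right (Real.rpow_le_rpow h.m0.le (h.lo z) h.i0.le) h1,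
    mul_le_mul_of_nonneg_right (Real.rpow_le_rpow (h.m0.le.trans (h.lo z)) (h.hi z) h.i0.le) h1⟩

theorem Sz.tm (h : Sz i γ β m M W) : Tm (M ^ i) (HH i γ β W) := by
  refine ⟨(h.cW.rpow_const fun z => Or.inl (h.pos z).ne').mul
    (Continuous.rpow_const (by fun_prop) fun z => Or.inl (one_pos.trans_le (gpTm_q h z)).ne'),
    fun z => ?_⟩
  rw [abs_of_pos (h.HH_pos z), div_eq_mul_inv, gpTm_pow]
  refine (h.HH_mem z).2.trans (mul_le_mul_of_nonneg_left ?_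
    (Real.rpow_nonneg ((h.pos z).le.trans (h.le z)) _))
  have h1 := h.ig
  refine (Real.rpow_le_rpow_of_exponent_le (gpTm_q h z) (z := -((D + 2 : ℕ) : ℝ) / 2) ?_).trans
    (Real.rpow_le_rpow_of_nonpos (by positivity) (by linarith [h.b1]) ?_)
  · push_cast
    linarith
  · have : (0 : ℝ) ≤ (D + 2 : ℕ) := Nat.cast_nonneg _
    linarith

end Pool.Agent.Lib.MP_0a1ca9_gt.Gp
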