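import Pool.Agent.Lib.MP_0a1ca9_gt.NbLaw

/-! The averaging step, with a gain modulo multiples of `Y ^ 2`. -/

open MeasureTheory Set Filter Topology

namespace Pool.Agent.Lib.MP_0a1ca9_gt.Nb

theorem sq_cont : Continuous sq := by unfold sq; fun_prop

theorem sq_nn (s : ℝ) : 0 ≤ sq s := Real.sqrt_nonneg _

theorem sq_sq {s : ℝ} (h : s ^ 2 ≤ 1) : sq s ^ 2 = 1 - s ^ 2 := Real.sq_sqrt (sub_nonneg.2 h)

theorem sq_anti {s s' : ℝ} (h : s ^ 2 ≤ s' ^ 2) : sq s' ≤ sq s :=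
  Real.sqrt_le_sqrt (sub_le_sub_left h 1)

theorem sq_le_one (s : ℝ) : sq s ≤ 1 := Real.sqrt_le_one.2 (sub_le_self _ (sq_nonneg s))

theorem avg_pt {t Y Y' : ℝ} (ht : |t| ≤ 1) (h0 : 0 ≤ Y') (h : Y' ≤ Y) (h1 : Y ≤ 1) :
    sq (t * Y) ≤ sq (t * Y') ∧ sq (t * Y') - sq (t * Y) ≤ sq Y' - sq Y ∧
      (sq (t * Y') - sq (t * Y)) * sq t ≤ Y ^ 2 - Y' ^ 2 := by
  have t1 : t ^ 2 ≤ 1 := (sq_le_one_iff_abs_le_one t).2 ht
  have y1 : Y' ^ 2 ≤ Y ^ 2 := pow_le_pow_left₀ h0 h 2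
  have y2 : Y ^ 2 ≤ 1 := pow_le_one₀ (h0.trans h) h1
  have a1 : (t * Y) ^ 2 ≤ Y ^ 2 := by rw [mul_pow]; nlinarith [sq_nonneg Y]
  have a2 : (t * Y') ^ 2 ≤ Y' ^ 2 := by rw [mul_pow]; nlinarith [sq_nonneg Y']
  have a3 : (t * Y') ^ 2 ≤ (t * Y) ^ 2 := by rw [mul_pow, mul_pow]; nlinarith [sq_nonneg t]
  have a4 : (t * Y') ^ 2 ≤ t ^ 2 := by rw [mul_pow]; nlinarith [sq_nonneg t]
  have b1 := sq_anti a1
  have b2 := sq_anti a2
  have b3 := sq_anti a3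
  have b4 := sq_anti a4
  have b5 := sq_anti y1
  have c : (sq (t * Y') - sq (t * Y)) * (sq (t * Y') + sq (t * Y)) ≤ Y ^ 2 - Y' ^ 2 := by
    have e1 := sq_sq (a1.trans y2)
    have e2 := sq_sq (a4.trans t1)
    rw [mul_pow] at e1 e2
    nlinarith
  refine ⟨b3, not_lt.1 fun hc => ?_, le_trans (mul_le_mul_of_nonneg_left
    (b4.trans (le_add_of_nonneg_right (sq_nn _))) (sub_nonneg.2 b3)) c⟩
  have e1 := sq_sq y2
  have e2 := sq_sq (y1.trans y2)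
  have d1 := mul_lt_mul_of_pos_right hc
    (show 0 < sq (t * Y') + sq (t * Y) by linarith [sq_nn (t * Y)])
  have d2 := mul_le_mul_of_nonneg_left (add_le_add b2 b1) (sub_nonneg.2 b5)
  nlinarith

variable {ν : Measure ℝ} {m : ℝ}

theorem Law.intg (hν : Law ν m) {g : ℝ → ℝ} (hg : Continuous g) : Integrable g ν := by
  have := hν.prob
  obtain ⟨C, hC⟩ := (isCompact_Icc (a := (-1 : ℝ)) (b := 1)).exists_bound_of_continuousOn
    hg.continuousOn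
  exact (integrable_const C).mono' hg.aestronglyMeasurable
    (hν.lt.mono fun t ht => hC t (abs_le.1 ht.le))

theorem Law.split (hν : Law ν m) {P : ℝ} (hP : 0 < P) : ∃ C, 1 ≤ C ∧ ∀ Y Y', 0 ≤ Y' → Y' ≤ Y →
    Y ≤ 1 → ∫ t, (sq (t * Y') - sq (t * Y)) ∂ν ≤ C * (Y ^ 2 - Y' ^ 2) + P * (sq Y' - sq Y) := by
  have := hν.prob
  let S : ℕ → Set ℝ := fun n => {t | sq t < 1 / ((n : ℝ) + 1)}
  have hS : ∀ n, MeasurableSet (S n) := fun n => (isOpen_lt sq_cont continuous_const).measurableSet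
  have h1 := tendsto_measure_iInter_atTop (μ := ν) (s := S) (fun n => (hS n).nullMeasurableSet)
    (fun n n' h t (ht : sq t < _) => ht.trans_le (Nat.one_div_le_one_div h))
    ⟨0, measure_ne_top _ _⟩
  have h2 : ν (⋂ n, S n) = 0 := by
    refine measure_mono_null (t := {t | ¬|t| < 1}) (fun t ht h => ?_) hν.lt
    obtain ⟨n, hn⟩ := exists_nat_one_div_lt (Real.sqrt_pos.2
      (sub_pos.2 ((sq_lt_one_iff_abs_lt_one t).2 h)))
    exact hn.not_gt (mem_iInter.1 ht n)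
  rw [h2] at h1
  obtain ⟨n, hn⟩ := (h1.eventually (gt_mem_nhds (ENNReal.ofReal_pos.2 hP))).exists
  have h3 : ν.real (S n) ≤ P := ENNReal.toReal_le_of_le_ofReal hP.le hn.le
  have n0 : (0 : ℝ) ≤ n := n.cast_nonneg
  refine ⟨n + 1, by linarith, fun Y Y' h0 h hY => ?_⟩
  have y1 : Y' ^ 2 ≤ Y ^ 2 := pow_le_pow_left₀ h0 h 2
  have y2 := sub_nonneg.2 (sq_anti y1)
  calc _ ≤ ∫ t, ((n + 1) * (Y ^ 2 - Y' ^ 2) + (S n).indicator (fun _ => sq Y' - sq Y) t) ∂ν := by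
        refine integral_mono_ae (hν.intg (by have := sq_cont; fun_prop))
          ((integrable_const _).add ((integrable_const _).indicator (hS n)))
          (hν.lt.mono fun t ht => ?_)
        obtain ⟨a1, a2, a3⟩ := avg_pt ht.le h0 h hY
        by_cases h4 : t ∈ S n
        · simp only [indicator_of_mem h4]
          nlinarith
        · have h5 : 1 ≤ (n + 1) * sq t := (div_le_iff₀' (by linarith)).1 (not_lt.1 h4)
          simp only [indicator_of_notMem h4]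
          nlinarith
    _ ≤ _ := by
      rw [integral_add (integrable_const _) ((integrable_const _).indicator (hS n)),
        integral_indicator (hS n)]
      simp only [integral_const, probReal_univ, smul_eq_mul, one_mul, measureReal_restrict_apply_univ]
      gcongr

theorem avg_low {g : ℝ → ℝ} (hg : Continuous g) (hm : MonotoneOn g (Icc 0 1)) {b Y Y' : ℝ}
    (hb : 0 < b) (h0 : 2 * b ≤ Y') (h : Y' ≤ Y) (h1 : Y ≤ 1) :
    b / 4 * (g b - g (b / 2)) * (Y ^ 2 - Y' ^ 2) ≤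
      ∫ t in (0 : ℝ)..1 / 2, (g (t * Y) - g (t * Y')) := by
  let f : ℝ → ℝ := fun s => g (Y' / 2) - g s
  have hf : Continuous f := by fun_prop
  have hi := fun a b => hf.intervalIntegrable (μ := volume) a b
  have y0 : 0 < Y' := by linarith
  have e : ∀ Z : ℝ, 0 < Z → ∫ t in (0 : ℝ)..1 / 2, f (t * Z) = Z⁻¹ * ∫ s in (0 : ℝ)..Z / 2, f s :=
    fun Z hZ => by
      rw [intervalIntegral.integral_comp_mul_right f hZ.ne', zero_mul, smul_eq_mul, one_div_mul_eq_div]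
  have e1 : ∫ t in (0 : ℝ)..1 / 2, (g (t * Y) - g (t * Y')) =
      Y'⁻¹ * (∫ s in (0 : ℝ)..Y' / 2, f s) - Y⁻¹ * ∫ s in (0 : ℝ)..Y / 2, f s := by
    rw [← e _ y0, ← e _ (y0.trans_le h), ← intervalIntegral.integral_sub
      (Continuous.intervalIntegrable (by fun_prop) _ _)
      (Continuous.intervalIntegrable (by fun_prop) _ _)]
    simp only [f, sub_sub_sub_cancel_left]
  have k1 : ∫ s in (0 : ℝ)..Y / 2, f s ≤ ∫ s in (0 : ℝ)..Y' / 2, f s := by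
    rw [← intervalIntegral.integral_add_adjacent_intervals (hi 0 (Y' / 2)) (hi _ (Y / 2)),
      add_le_iff_nonpos_right, ← neg_nonneg, ← intervalIntegral.integral_neg]
    exact intervalIntegral.integral_nonneg (by linarith) fun s hs => neg_nonneg.2 (sub_nonpos.2
      (hm ⟨by linarith, by linarith⟩ ⟨by linarith [hs.1], by linarith [hs.2]⟩ hs.1))
  have k0 : 0 ≤ g b - g (b / 2) :=
    sub_nonneg.2 (hm ⟨by linarith, by linarith⟩ ⟨by linarith, by linarith⟩ (by linarith))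
  have k2 : b / 2 * (g b - g (b / 2)) ≤ ∫ s in (0 : ℝ)..Y' / 2, f s := by
    rw [← intervalIntegral.integral_add_adjacent_intervals (hi 0 (b / 2)) (hi _ (Y' / 2))]
    refine le_add_of_le_of_nonneg ?_ (intervalIntegral.integral_nonneg (by linarith) fun s hs =>
      sub_nonneg.2 (hm ⟨by linarith [hs.1], by linarith [hs.2]⟩ ⟨by linarith, by linarith⟩ hs.2))
    refine le_trans (by simp [mul_sub]) (intervalIntegral.integral_mono_on (by linarith)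
      (intervalIntegrable_const (c := g b - g (b / 2))) (hi _ _) fun s hs => sub_le_sub
        (hm ⟨by linarith, by linarith⟩ ⟨by linarith, by linarith⟩ (by linarith))
        (hm ⟨hs.1, by linarith [hs.2]⟩ ⟨by linarith, by linarith⟩ hs.2))
  have k3 : (Y ^ 2 - Y' ^ 2) / 2 ≤ Y'⁻¹ - Y⁻¹ := by
    rw [inv_sub_inv y0.ne' (y0.trans_le h).ne', le_div_iff₀ (mul_pos y0 (y0.trans_le h))]
    have : Y' * Y ≤ 1 := mul_le_one₀ (h.trans h1) (by linarith) h1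
    have h2 : (Y + Y') / 2 * (Y' * Y) ≤ 1 := mul_le_one₀ (by linarith) (by nlinarith) this
    nlinarith
  have k4 := mul_le_mul k2 k3 (by nlinarith) ((by positivity : 0 ≤ b / 2 * _).trans k2)
  have k5 := mul_le_mul_of_nonneg_left k1 (inv_nonneg.2 (y0.le.trans h))
  rw [e1]
  nlinarith

/-- the increasing weight -/
noncomputable def wt (β β₂ s : ℝ) : ℝ := s ^ 2 - β * sq s + β₂ * |s|

theorem wt_sub (β β₂ : ℝ) {t Y Y' : ℝ} (ht : |t| ≤ 1) (h0 : 0 ≤ Y') (h : Y' ≤ Y) (h1 : Y ≤ 1) :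
    |(t * Y) ^ 2 - (t * Y') ^ 2| + β * |sq (t * Y) - sq (t * Y')| + β₂ * |t * Y - t * Y'| =
      wt β β₂ (t * Y) - wt β β₂ (t * Y') := by
  have y1 : Y' ^ 2 ≤ Y ^ 2 := pow_le_pow_left₀ h0 h 2
  rw [abs_of_nonneg (by rw [mul_pow, mul_pow]; nlinarith [sq_nonneg t]),
    abs_of_nonpos (sub_nonpos.2 (avg_pt ht h0 h h1).1), ← mul_sub, wt, wt, abs_mul, abs_mul,
    abs_mul, abs_of_nonneg h0, abs_of_nonneg (h0.trans h), abs_of_nonneg (sub_nonneg.2 h)]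
  ring

theorem avg_mem {t Y : ℝ} (ht : |t| ≤ 1) (h0 : 0 ≤ Y) (h1 : Y ≤ 1) : t * Y ∈ Icc (-1 : ℝ) 1 :=
  abs_le.1 (by rw [abs_mul, abs_of_nonneg h0]; exact mul_le_one₀ ht h0 h1)

theorem Law.wt_le (hν : Law ν m) {β β₂ : ℝ} (hβ : 0 ≤ β₂) {Y Y' : ℝ} (h : Y' ≤ Y)
    (h0 : 0 ≤ Y') : ∫ t, (wt β β₂ (t * Y) - wt β β₂ (t * Y')) ∂ν ≤ m * (Y ^ 2 - Y' ^ 2) +
      β * ∫ t, (sq (t * Y') - sq (t * Y)) ∂ν + β₂ * (Y - Y') := by
  have := hν.prob
  have := sq_cont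
  have e : ∫ t, (t ^ 2 * (Y ^ 2 - Y' ^ 2) + β * (sq (t * Y') - sq (t * Y)) + β₂ * (Y - Y')) ∂ν =
      m * (Y ^ 2 - Y' ^ 2) + β * ∫ t, (sq (t * Y') - sq (t * Y)) ∂ν + β₂ * (Y - Y') := by
    rw [integral_add (hν.intg (by fun_prop)) (integrable_const _),
      integral_add (hν.intg (by fun_prop)) (hν.intg (by fun_prop)), integral_mul_const,
      integral_const_mul, hν.mom]
    simp
  rw [← e]
  refine integral_mono_ae (hν.intg (by unfold wt; fun_prop)) (hν.intg (by fun_prop))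
    (hν.lt.mono fun t ht => ?_)
  have := mul_le_mul_of_nonneg_left (mul_le_of_le_one_left (sub_nonneg.2 h) ht.le) hβ
  simp only [wt, abs_mul, abs_of_nonneg h0, abs_of_nonneg (h0.trans h)]
  nlinarith

theorem Law.gain (hν : Law ν m) : ∃ p, 0 < p ∧ ∀ g : ℝ → ℝ, Continuous g →
    (∀ t Y Y', |t| ≤ 1 → 0 ≤ Y' → Y' ≤ Y → Y ≤ 1 → g (t * Y') ≤ g (t * Y)) →
    ∀ b μ Y Y', 0 < b → 0 ≤ μ → μ ≤ p * b → 0 ≤ Y' → Y' ≤ Y → Y ≤ 1 → (μ = 0 ∨ 2 * b ≤ Y') →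
      μ * (g b - g (b / 2)) * (Y ^ 2 - Y' ^ 2) ≤ ∫ t, (g (t * Y) - g (t * Y')) ∂ν := by
  obtain ⟨p, hp, H⟩ := hν.low
  refine ⟨p / 4, by positivity, fun g hg hm b μ Y Y' hb h0 h1 h2 h3 h4 h5 => ?_⟩
  rcases h5 with rfl | h5
  · rw [zero_mul, zero_mul]
    exact integral_nonneg_of_ae (hν.lt.mono fun t ht => sub_nonneg.2 (hm t Y Y' ht.le h2 h3 h4))
  have hm' : MonotoneOn g (Icc 0 1) := fun x hx y hy h => by
    simpa using hm 1 y x (by simp) hx.1 h hy.2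
  have k0 : 0 ≤ (g b - g (b / 2)) * (Y ^ 2 - Y' ^ 2) := mul_nonneg
    (sub_nonneg.2 (hm' ⟨by linarith, by linarith⟩ ⟨by linarith, by linarith⟩ (by linarith)))
    (sub_nonneg.2 (pow_le_pow_left₀ h2 h3 2))
  have k1 := mul_le_mul_of_nonneg_left (avg_low hg hm' hb h5 h3 h4) hp.le
  have k2 := H (fun t => g (t * Y) - g (t * Y')) (by fun_prop) fun t ht =>
    sub_nonneg.2 (hm t Y Y' (abs_le.2 ht) h2 h3 h4)
  have k3 := mul_le_mul_of_nonneg_right h1 k0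
  nlinarith

theorem avg_par {i C p : ℝ} (hi : 0 < i) (hC : 1 ≤ C) (hp : 0 < p) : ∃ β η μ b : ℝ, 0 < β ∧
    0 < η ∧ η ≤ 1 ∧ 0 < μ ∧ 0 < b ∧ b ≤ 1 / 2 ∧ β ≤ b ∧ μ ≤ p * b ∧ 6 * i * μ * b ^ 2 ≤ 1 ∧
    2 * η + 2 * i * β * C ≤ 3 / 4 * i * μ * b ^ 2 ∧ 28 * i * μ * b ^ 2 * b ≤ β / 8 := by
  obtain ⟨b, b0, b1, b2⟩ : ∃ b : ℝ, 0 < b ∧ b ≤ 1 / 2 ∧ b ≤ 1 / (2000 * i * C) :=
    ⟨min _ _, by positivity, min_le_left _ _, min_le_right _ _⟩
  obtain ⟨μ, m0, m1, m2, m3⟩ : ∃ μ : ℝ, 0 < μ ∧ μ ≤ p * b ∧ μ ≤ 1 ∧ μ ≤ 1 / (6 * i) :=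
    ⟨min _ (min _ _), by positivity, min_le_left _ _, (min_le_right _ _).trans (min_le_left _ _),
      (min_le_right _ _).trans (min_le_right _ _)⟩
  rw [le_div_iff₀ (by positivity)] at b2 m3
  have h1 : b ^ 2 ≤ 1 := by nlinarith
  have h2 : 6 * i * μ * b ^ 2 ≤ 1 := by nlinarith [mul_pos hi m0]
  have h3 : 0 < μ * b ^ 2 := by positivity
  refine ⟨μ * b ^ 2 / (8 * C), i * μ * b ^ 2 / 4, μ, b, by positivity, by positivity, by linarith,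
    m0, b0, b1, ?_, m1, h2, le_of_eq (by field_simp; ring), ?_⟩
  · rw [div_le_iff₀ (by positivity)]
    nlinarith
  · rw [div_div, le_div_iff₀ (by positivity)]
    nlinarith

theorem Law.avg {i : ℝ} (hν : Law ν m) (hi : 0 < i) (him : i * m ≤ 1) :
    ∃ β β₂ η μ b : ℝ, 0 < β₂ ∧ β₂ ≤ β ∧ β ≤ 1 ∧ 0 < η ∧ η ≤ 1 ∧ b ∈ Icc (0 : ℝ) 1 ∧
      ∀ k : ℝ → ℝ, Continuous k →
        (∀ s ∈ Icc (-1 : ℝ) 1, ∀ s' ∈ Icc (-1 : ℝ) 1, |k s - k s'| ≤
          i * (1 + η) * (|s ^ 2 - s' ^ 2| + β * |sq s - sq s'| + β₂ * |s - s'|)) →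
        |μ * (k b - k (b / 2))| ≤ 1 ∧ ∀ Y ∈ Icc (0 : ℝ) 1, ∀ Y' ∈ Icc (0 : ℝ) 1,
          |∫ t, k (t * Y) ∂ν - ∫ t, k (t * Y') ∂ν - μ * (k b - k (b / 2)) * (Y ^ 2 - Y' ^ 2)| ≤
            (1 - η) * |Y ^ 2 - Y' ^ 2| + β / 4 * |Y - Y'| + β₂ / 4 * |sq Y - sq Y'| := by
  obtain ⟨C, hC, hs⟩ := hν.split (P := 1 / (128 * i * (i + 1))) (by positivity)
  obtain ⟨p, hp, hg⟩ := hν.gain
  obtain ⟨β, η, μ, b, β0, η0, η1, μ0, b0, b1, β1, μ1, a1, a2, a3⟩ := avg_par hi hC hp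
  obtain ⟨β₂, c0, c1, c2, c3⟩ : ∃ β₂ : ℝ, 0 < β₂ ∧ β₂ ≤ β ∧ 2 * i * β₂ ≤ β / 8 ∧
      2 * i * β * (1 / (128 * i * (i + 1))) = β₂ / 4 := by
    refine ⟨β / (16 * (i + 1)), by positivity, div_le_self β0.le (by linarith), ?_, by
      field_simp; ring⟩
    rw [← mul_div_assoc, div_le_iff₀ (by positivity)]
    nlinarith
  refine ⟨β, β₂, η, μ, b, c0, c1, by linarith, η0, η1, ⟨b0.le, by linarith⟩, fun k hk H => ?_⟩
  set J := i * (1 + η) with hJ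
  have J0 : i ≤ J := by nlinarith
  have J1 : J ≤ 2 * i := by nlinarith
  have hw : Continuous (wt β β₂) := by have := sq_cont; unfold wt; fun_prop
  have H' : ∀ t Y Y', |t| ≤ 1 → 0 ≤ Y' → Y' ≤ Y → Y ≤ 1 →
      |k (t * Y) - k (t * Y')| ≤ J * (wt β β₂ (t * Y) - wt β β₂ (t * Y')) :=
    fun t Y Y' ht h0 h h1 => wt_sub β β₂ ht h0 h h1 ▸
      H _ (avg_mem ht (h0.trans h) h1) _ (avg_mem ht h0 (h.trans h1))
  have w0 : 3 / 4 * b ^ 2 ≤ wt β β₂ b - wt β β₂ (b / 2) ∧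
      wt β β₂ b - wt β β₂ (b / 2) ≤ 3 * b ^ 2 := by
    have e1 := sq_anti (show (b / 2) ^ 2 ≤ b ^ 2 by nlinarith)
    have e2 := sq_sq (show b ^ 2 ≤ 1 by nlinarith)
    have e3 : sq (b / 2) - sq b ≤ b ^ 2 := by
      nlinarith [sq_le_one (b / 2), sq_le_one b, sq_nn b]
    have e4 := mul_le_mul (show β ≤ 1 by linarith) e3 (sub_nonneg.2 e1) zero_le_one
    have e5 := mul_nonneg β0.le (sub_nonneg.2 e1)
    simp only [wt, abs_of_pos b0, abs_of_pos (half_pos b0)]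
    constructor <;> nlinarith
  have w1 : |μ * (k b - k (b / 2))| ≤ 6 * i * μ * b ^ 2 := by
    have := H' 1 b (b / 2) (by simp) (by linarith) (by linarith) (by linarith)
    rw [one_mul, one_mul] at this
    rw [abs_mul, abs_of_pos μ0]
    have h2 := mul_le_mul J1 w0.2 (by nlinarith [w0.1]) (by linarith)
    nlinarith
  refine ⟨w1.trans a1, ?_⟩
  set c := μ * (k b - k (b / 2)) with hc
  have key : ∀ μ' Y Y', 0 ≤ μ' → μ' ≤ p * b → 0 ≤ Y' → Y' ≤ Y → Y ≤ 1 → (μ' = 0 ∨ 2 * b ≤ Y') →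
      |∫ t, k (t * Y) ∂ν - ∫ t, k (t * Y') ∂ν - μ' * (k b - k (b / 2)) * (Y ^ 2 - Y' ^ 2)| ≤
        (1 + η + 2 * i * β * C - 3 / 4 * i * μ' * b ^ 2) * (Y ^ 2 - Y' ^ 2) + β / 8 * (Y - Y') +
          β₂ / 4 * (sq Y' - sq Y) := fun μ' Y Y' m0 m1 h0 h h1 h2 => by
    have y1 := sub_nonneg.2 (pow_le_pow_left₀ h0 h 2)
    have y2 := sub_nonneg.2 (sq_anti (pow_le_pow_left₀ h0 h 2))
    have y3 := sub_nonneg.2 h
    have e : ∀ σ : ℝ, ∫ t, ((J * wt β β₂ (t * Y) + σ * k (t * Y)) -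
        (J * wt β β₂ (t * Y') + σ * k (t * Y'))) ∂ν =
        J * ∫ t, (wt β β₂ (t * Y) - wt β β₂ (t * Y')) ∂ν +
          σ * (∫ t, k (t * Y) ∂ν - ∫ t, k (t * Y') ∂ν) := fun σ => by
      rw [← integral_sub (hν.intg (by fun_prop)) (hν.intg (by fun_prop)), ← integral_const_mul,
        ← integral_const_mul, ← integral_add (hν.intg (by fun_prop)) (hν.intg (by fun_prop))]
      exact integral_congr_ae (ae_of_all _ fun t => by ring)
    have g1 := hg (fun s => J * wt β β₂ s + 1 * k s) (by fun_prop) (fun t Y Y' ht h0 h h1 => by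
      linarith only [(abs_le.1 (H' t Y Y' ht h0 h h1)).1]) b μ' Y Y' b0 m0 m1 h0 h h1 h2
    have g2 := hg (fun s => J * wt β β₂ s + -1 * k s) (by fun_prop) (fun t Y Y' ht h0 h h1 => by
      linarith only [(abs_le.1 (H' t Y Y' ht h0 h h1)).2]) b μ' Y Y' b0 m0 m1 h0 h h1 h2
    rw [e] at g1 g2
    have g3 : J * ∫ t, (wt β β₂ (t * Y) - wt β β₂ (t * Y')) ∂ν ≤
        (1 + η + 2 * i * β * C) * (Y ^ 2 - Y' ^ 2) + β / 8 * (Y - Y') +
          β₂ / 4 * (sq Y' - sq Y) := by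
      have k1 := (hν.wt_le (β := β) c0.le h h0).trans (add_le_add (add_le_add le_rfl
        (mul_le_mul_of_nonneg_left (hs Y Y' h0 h h1) β0.le)) le_rfl)
      have k2 := mul_le_mul_of_nonneg_left k1 (hi.le.trans J0)
      have k3 : J * m ≤ 1 + η := by rw [hJ]; nlinarith only [him, η0]
      have k4 := mul_le_mul_of_nonneg_right k3 y1
      have k5 := mul_le_mul_of_nonneg_right J1 (show 0 ≤ β * (C * (Y ^ 2 - Y' ^ 2) +
        1 / (128 * i * (i + 1)) * (sq Y' - sq Y)) + β₂ * (Y - Y') by positivity)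
      have k6 := mul_le_mul_of_nonneg_right c2 y3
      rw [← c3]
      linarith only [k2, k4, k5, k6]
    have g4 := mul_le_mul_of_nonneg_left (mul_le_mul J0 w0.1 (by positivity) (hi.le.trans J0))
      (mul_nonneg m0 y1)
    rw [abs_le]
    constructor <;> linarith only [g1, g2, g3, g4]
  let φ : ℝ → ℝ := fun Y => ∫ t, k (t * Y) ∂ν - c * Y ^ 2
  let ω : ℝ → ℝ := fun Y => (1 - η) * Y ^ 2 + β / 4 * Y - β₂ / 4 * sq Y
  have k1 : ∀ Y Y', 2 * b ≤ Y' → Y' ≤ Y → Y ≤ 1 → |φ Y - φ Y'| ≤ ω Y - ω Y' :=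
    fun Y Y' h0 h h1 => by
      have h2 : 0 ≤ Y' := by linarith
      have := key μ Y Y' μ0.le μ1 h2 h h1 (Or.inr h0)
      have y1 := mul_le_mul_of_nonneg_right a2 (sub_nonneg.2 (pow_le_pow_left₀ h2 h 2))
      have y2 := mul_nonneg β0.le (sub_nonneg.2 h)
      rw [abs_le] at this ⊢
      simp only [φ, ω, hc]
      constructor <;> linarith only [this.1, this.2, y1, y2]
  have k2 : ∀ Y Y', 0 ≤ Y' → Y' ≤ Y → Y ≤ 2 * b → |φ Y - φ Y'| ≤ ω Y - ω Y' :=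
    fun Y Y' h0 h h1 => by
      have := key 0 Y Y' le_rfl (by positivity) h0 h (by linarith) (Or.inl rfl)
      have y0 := sub_nonneg.2 (pow_le_pow_left₀ h0 h 2)
      have y1 := mul_le_mul_of_nonneg_right a2 y0
      have y2 := mul_le_mul_of_nonneg_right a3 (sub_nonneg.2 h)
      have y3 := mul_le_mul_of_nonneg_right (abs_le.1 w1).1 y0
      have y4 := mul_le_mul_of_nonneg_right (abs_le.1 w1).2 y0
      have y5 := mul_le_mul_of_nonneg_left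
        (show Y ^ 2 - Y' ^ 2 ≤ 4 * b * (Y - Y') by nlinarith only [h, h1])
        (show 0 ≤ i * μ * b ^ 2 by positivity)
      rw [abs_le] at this ⊢
      simp only [φ, ω]
      constructor <;> linarith only [this.1, this.2, y1, y2, y3, y4, y5]
  have k3 : ∀ Y Y', 0 ≤ Y' → Y' ≤ Y → Y ≤ 1 → |φ Y - φ Y'| ≤
      (1 - η) * |Y ^ 2 - Y' ^ 2| + β / 4 * |Y - Y'| + β₂ / 4 * |sq Y - sq Y'| :=
    fun Y Y' h0 h h1 => by
      rw [abs_of_nonneg (sub_nonneg.2 (pow_le_pow_left₀ h0 h 2)), abs_of_nonneg (sub_nonneg.2 h),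
        abs_of_nonpos (sub_nonpos.2 (sq_anti (pow_le_pow_left₀ h0 h 2)))]
      refine le_trans ?_ (show ω Y - ω Y' ≤ _ from le_of_eq (by simp only [ω]; ring))
      rcases le_total (2 * b) Y' with h2 | h2
      · exact k1 Y Y' h2 h h1
      rcases le_total Y (2 * b) with h3 | h3
      · exact k2 Y Y' h0 h h3
      linarith only [abs_sub_le (φ Y) (φ (2 * b)) (φ Y'), k1 Y _ le_rfl h3 h1,
        k2 _ Y' h0 h2 le_rfl]
  intro Y hY Y' hY'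
  rw [show ∫ t, k (t * Y) ∂ν - ∫ t, k (t * Y') ∂ν - c * (Y ^ 2 - Y' ^ 2) = φ Y - φ Y' by
    simp only [φ]; ring]
  rcases le_total Y' Y with h | h
  · exact k3 Y Y' hY'.1 h hY.2
  · rw [abs_sub_comm, abs_sub_comm (Y ^ 2), abs_sub_comm Y, abs_sub_comm (sq Y)]
    exact k3 Y' Y hY.1 h hY'.2

end Pool.Agent.Lib.MP_0a1ca9_gt.Nb
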