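import Pool.Agent.Lib.MP_cbd9f1_co.Equil

/-! The fixed point theorem of Schauder. -/

open Set Metric

namespace Pool.Agent.Lib.MP_0a1ca9_gt.Nb

variable {X : Type*} [NormedAddCommGroup X] [NormedSpace ℝ X] {C : Set X} {T : X → X}

theorem approx_fix (hc : IsCompact C) (hv : Convex ℝ C) (hne : C.Nonempty) (hT : Continuous T)
    (hm : MapsTo T C C) {ε : ℝ} (hε : 0 < ε) : ∃ y ∈ C, ‖T y - y‖ ≤ ε := by
  obtain ⟨t, htC, htf, hcov⟩ := finite_approx_of_totallyBounded hc.totallyBounded ε hε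
  have := htf.fintype
  have hpos : 0 < Fintype.card t := by
    obtain ⟨y, hy⟩ := hne
    obtain ⟨z, hz, -⟩ := mem_iUnion₂.1 (hcov hy)
    exact Fintype.card_pos_iff.2 ⟨⟨z, hz⟩⟩
  obtain ⟨k, hk⟩ := Nat.exists_eq_succ_of_ne_zero hpos.ne'
  let e := (Fintype.equivFinOfCardEq hk).symm
  obtain ⟨μ, hμ, H⟩ := MP_cbd9f1_co.equil k
    (fun μ i => -‖T (∑ j, μ j • (e j : X)) - (e i : X)‖) fun i => by fun_prop
  have hy : ∑ j, μ j • (e j : X) ∈ C :=
    hv.sum_mem (fun j _ => hμ.1 j) hμ.2 fun j _ => htC (e j).2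
  refine ⟨_, hy, ?_⟩
  obtain ⟨z, hz, hb⟩ := mem_iUnion₂.1 (hcov (hm hy))
  set w := T (∑ j, μ j • (e j : X))
  have h1 : w - ∑ j, μ j • (e j : X) = ∑ j, μ j • (w - (e j : X)) := by
    simp only [smul_sub, Finset.sum_sub_distrib, ← Finset.sum_smul, hμ.2, one_smul]
  rw [h1]
  calc _ ≤ ∑ j, μ j * ε := by
        refine norm_sum_le_of_le _ fun j _ => ?_
        rw [norm_smul, Real.norm_of_nonneg (hμ.1 j)]
        by_cases h0 : μ j = 0
        · simp [h0]
        · refine mul_le_mul_of_nonneg_left ?_ (hμ.1 j)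
          have h2 := H (e.symm ⟨z, hz⟩) j h0
          rw [Equiv.apply_symm_apply] at h2
          have h3 : ‖w - z‖ < ε := by rwa [mem_ball, dist_eq_norm] at hb
          linarith
    _ = ε := by rw [← Finset.sum_mul, hμ.2, one_mul]

theorem schauder (hc : IsCompact C) (hv : Convex ℝ C) (hne : C.Nonempty) (hT : Continuous T)
    (hm : MapsTo T C C) : ∃ y ∈ C, T y = y := by
  obtain ⟨y, hy, hmin⟩ := hc.exists_isMinOn hne
    (f := fun y => ‖T y - y‖) (by fun_prop : Continuous _).continuousOn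
  refine ⟨y, hy, sub_eq_zero.1 (norm_le_zero_iff.1 (le_of_forall_pos_le_add fun ε hε => ?_))⟩
  obtain ⟨z, hz, h⟩ := approx_fix hc hv hne hT hm hε
  rw [zero_add]
  exact (hmin hz).trans h

end Pool.Agent.Lib.MP_0a1ca9_gt.Nb
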