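import Pool.Agent.Lib.MP_0a1ca9_gt.NbEst
import Pool.Agent.Lib.MP_0a1ca9_gt.NbSch
import Pool.Agent.Lib.MP_0a1ca9_gt.NbAvg

/-! The profile of a body of revolution that solves the equation with a shifted centre. -/

open Set MeasureTheory Filter Topology

namespace Pool.Agent.Lib.MP_0a1ca9_gt.Nb

variable {ν : Measure ℝ} {i m : ℝ}

/-- The normalised mean of the power of the profile over a great sphere. -/
noncomputable def gg (ν : Measure ℝ) (i : ℝ) (r : ℝ → ℝ) (Y : ℝ) : ℝ :=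
  ∫ τ, (r (τ * Y) / r 0) ^ i ∂ν

/-- The three-term modulus. -/
noncomputable def ww (β γ s s' : ℝ) : ℝ := |s ^ 2 - s' ^ 2| + β * |yy s - yy s'| + γ * |s - s'|

/-- The modulus of continuity after removal of a multiple of the square. -/
def Lip (A β γ c : ℝ) (r : ℝ → ℝ) : Prop :=
  ∀ s s' : ℝ, |s| ≤ 1 → |s'| ≤ 1 → |r s - r s' - c * (s ^ 2 - s' ^ 2)| ≤ A * ww β γ s s'

/-- The slope of the mean. -/
noncomputable def slope (i m μ b c : ℝ) (r : ℝ → ℝ) : ℝ :=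
  i * m * c + μ * ((r b / r 0) ^ i - (r (b / 2) / r 0) ^ i - i * c * (b ^ 2 - (b / 2) ^ 2))

theorem pow_strict {δ : ℝ} (hi : 0 < i) (hδ : 0 < δ) : ∃ D > 0, D ≤ 1 / 4 ∧ ∀ x x' c : ℝ,
    |x - 1| ≤ D → |x' - 1| ≤ D → |c - 1| ≤ D →
      |(x / c) ^ i - (x' / c) ^ i - i * (x - x')| ≤ δ * |x - x'| := by
  have hd : HasStrictDerivAt (fun x : ℝ => x ^ i - i * x) (i * 1 ^ (i - 1) - i * 1) 1 :=
    (Real.hasStrictDerivAt_rpow_const (Or.inl one_ne_zero)).sub
      ((hasStrictDerivAt_id 1).const_mul i)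
  obtain ⟨s, hs, hl⟩ := hd.hasStrictFDerivAt.exists_lipschitzOnWith_of_nnnorm_lt (δ / 4).toNNReal
    (by
      rw [← NNReal.coe_lt_coe, Real.coe_toNNReal _ (by positivity)]
      simpa using hδ)
  obtain ⟨ρ, hρ, hb⟩ := Metric.mem_nhds_iff.1 hs
  refine ⟨min (1 / 4) (min (ρ / 4) (δ / (4 * i))), by positivity, min_le_left _ _,
    fun x x' c hx hx' hc => ?_⟩
  have c1 := (abs_le.1 (hc.trans (min_le_left _ _))).1
  have c2 := (le_div_iff₀ (by positivity)).1 (hc.trans ((min_le_right _ _).trans (min_le_right _ _)))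
  have c0 : 0 < c := by linarith
  have mem : ∀ z, |z - 1| ≤ min (1 / 4) (min (ρ / 4) (δ / (4 * i))) → z / c ∈ s := fun z hz => by
    refine hb ?_
    have h1 := hz.trans ((min_le_right _ _).trans (min_le_left _ _))
    have h2 := hc.trans ((min_le_right _ _).trans (min_le_left _ _))
    rw [Metric.mem_ball, Real.dist_eq, div_sub_one c0.ne', abs_div, abs_of_pos c0, div_lt_iff₀ c0]
    have : |z - c| ≤ ρ / 2 := by
      rw [abs_le] at h1 h2 ⊢
      constructor <;> linarith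
    nlinarith
  have h := hl.dist_le_mul _ (mem x hx) _ (mem x' hx')
  rw [Real.dist_eq, Real.dist_eq, ← sub_div, abs_div, abs_of_pos c0,
    Real.coe_toNNReal _ (by positivity)] at h
  have e : (x / c) ^ i - (x' / c) ^ i - i * (x - x') =
      (x / c) ^ i - i * (x / c) - ((x' / c) ^ i - i * (x' / c)) - i * (c - 1) * ((x - x') / c) := by
    field_simp
    ring
  have h2 : |x - x'| / c ≤ 2 * |x - x'| := by
    rw [div_le_iff₀ c0]
    nlinarith [abs_nonneg (x - x')]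
  rw [e]
  refine (abs_sub _ _).trans ?_
  rw [abs_mul, abs_mul, abs_div, abs_of_pos c0, abs_of_pos hi]
  have h3 : i * |c - 1| * (|x - x'| / c) ≤ δ / 4 * (|x - x'| / c) :=
    mul_le_mul_of_nonneg_right (by linarith) (by positivity)
  nlinarith [mul_le_mul_of_nonneg_left h2 hδ.le]

theorem cont_pow (hi : 0 < i) {r : ℝ → ℝ} (hr : Continuous r) :
    Continuous fun s => (r s / r 0) ^ i :=
  Continuous.rpow_const (by fun_prop) fun _ => Or.inr hi.le

/-- The averaging step. -/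
theorem exists_avg (hν : Law ν m) (hi : 0 < i) (him : i * m ≤ 1) :
    ∃ β γ η μ b D : ℝ, 0 < γ ∧ γ ≤ β ∧ β ≤ 1 ∧ 0 < η ∧ η ≤ 1 ∧ 0 < D ∧ D ≤ 1 / 4 ∧
      ∀ r : ℝ → ℝ, Continuous r → (∀ s, |r s - 1| ≤ D) → (∀ Y, |gg ν i r Y - 1| ≤ 1 / 4) ∧
        ∀ A c : ℝ, 0 < A → |c| ≤ A → Lip A β γ c r → |slope i m μ b c r - i * m * c| ≤ A ∧
          Mod (A * (1 - η)) (A * (β / 4)) (A * (γ / 4))
            fun Y => gg ν i r Y - slope i m μ b c r * Y ^ 2 := by
  obtain ⟨β, γ, η, μ, b, g0, g1, b1, η0, η1, hb, H⟩ := hν.avg hi him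
  obtain ⟨D₀, d0, d1, hp⟩ := pow_strict (δ := i * η / 2) hi (by positivity)
  have := hν.prob
  refine ⟨β, γ, η, μ, b, min D₀ (1 / (16 * i)), g0, g1, b1, η0, η1, by positivity,
    (min_le_left _ _).trans d1, fun r hr h1 => ?_⟩
  have hp' := fun s s' => hp _ _ _ ((h1 s).trans (min_le_left _ _))
    ((h1 s').trans (min_le_left _ _)) ((h1 0).trans (min_le_left _ _))
  have hc := cont_pow hi hr
  have hI : ∀ Y, Integrable (fun τ => (r (τ * Y) / r 0) ^ i) ν := fun Y =>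
    hν.intg (hc.comp (continuous_mul_const Y))
  refine ⟨fun Y => ?_, fun A c A0 hA hL => ?_⟩
  · have h : gg ν i r Y - 1 = ∫ τ, ((r (τ * Y) / r 0) ^ i - 1) ∂ν := by
      rw [integral_sub (hI Y) (integrable_const _)]
      simp [gg]
    rw [h, ← Real.norm_eq_abs]
    refine (norm_integral_le_of_norm_le_const (C := 1 / 4) (ae_of_all _ fun τ => ?_)).trans (by simp)
    have k := hp' (τ * Y) 0
    have h0 : 0 < r 0 := by linarith [(abs_le.1 ((h1 0).trans (min_le_left _ _))).1]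
    rw [div_self h0.ne', Real.one_rpow] at k
    have k1 : |r (τ * Y) - r 0| ≤ 2 * (1 / (16 * i)) := by
      linarith [abs_sub_le (r (τ * Y)) 1 (r 0), (h1 (τ * Y)).trans (min_le_right _ _),
        (h1 0).trans (min_le_right _ _), abs_sub_comm 1 (r 0)]
    have k2 : i * |r (τ * Y) - r 0| ≤ 1 / 8 :=
      (mul_le_mul_of_nonneg_left k1 hi.le).trans (le_of_eq (by field_simp; ring))
    have k3 := abs_sub_abs_le_abs_sub ((r (τ * Y) / r 0) ^ i - 1) (i * (r (τ * Y) - r 0))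
    rw [abs_mul, abs_of_pos hi] at k3
    rw [Real.norm_eq_abs]
    nlinarith [mul_nonneg hi.le (abs_nonneg (r (τ * Y) - r 0))]
  obtain ⟨k1, k2⟩ := H (fun s => ((r s / r 0) ^ i - i * c * s ^ 2) / A) (by fun_prop)
    fun s hs s' hs' => by
      have k := hL s s' (abs_le.2 hs) (abs_le.2 hs')
      have k3 : |c * (s ^ 2 - s' ^ 2)| ≤ A * ww β γ s s' := by
        rw [abs_mul]
        refine mul_le_mul hA ?_ (abs_nonneg _) A0.le
        have := g0.trans_le g1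
        rw [ww, add_assoc]
        exact le_add_of_nonneg_right (by positivity)
      have k4 := abs_sub_abs_le_abs_sub (r s - r s') (c * (s ^ 2 - s' ^ 2))
      have k5 := abs_add_le ((r s / r 0) ^ i - (r s' / r 0) ^ i - i * (r s - r s'))
        (i * (r s - r s' - c * (s ^ 2 - s' ^ 2)))
      rw [abs_mul, abs_of_pos hi] at k5
      rw [← sub_div, abs_div, abs_of_pos A0, div_le_iff₀ A0]
      change _ ≤ i * (1 + η) * ww β γ s s' * A
      refine (le_of_eq (by congr 1; ring)).trans (k5.trans ?_)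
      nlinarith [hp' s s', mul_le_mul_of_nonneg_left k hi.le,
        mul_le_mul_of_nonneg_left (show |r s - r s'| ≤ 2 * (A * ww β γ s s') by linarith)
          (show 0 ≤ i * η / 2 by positivity)]
  have e : slope i m μ b c r - i * m * c = A * (μ * (((r b / r 0) ^ i - i * c * b ^ 2) / A -
      ((r (b / 2) / r 0) ^ i - i * c * (b / 2) ^ 2) / A)) := by
    rw [slope]
    field_simp
    ring
  refine ⟨by rw [e, abs_mul, abs_of_pos A0]; exact mul_le_of_le_one_right A0.le k1,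
    fun Y Y' S S' y0 y0' h h' => ?_⟩
  have hg : ∀ Y, ∫ t, ((r (t * Y) / r 0) ^ i - i * c * (t * Y) ^ 2) / A ∂ν =
      (gg ν i r Y - i * m * c * Y ^ 2) / A := fun Y => by
    rw [integral_div, integral_sub (hI Y) (hν.intg (by fun_prop)), gg, ← hν.mom]
    simp only [mul_pow, mul_comm _ (Y ^ 2), ← mul_assoc, integral_const_mul]
    ring
  have k := k2 Y ⟨y0, by nlinarith [sq_nonneg S]⟩ Y' ⟨y0', by nlinarith [sq_nonneg S']⟩
  simp only [hg] at k
  have k3 : |sq Y - sq Y'| ≤ |S - S'| := by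
    rw [sq, sq, show 1 - Y ^ 2 = S ^ 2 by linarith, show 1 - Y' ^ 2 = S' ^ 2 by linarith,
      Real.sqrt_sq_eq_abs, Real.sqrt_sq_eq_abs]
    exact abs_abs_sub_abs_le_abs_sub S S'
  have k4 := mul_le_mul_of_nonneg_left k A0.le
  rw [← abs_of_pos A0, ← abs_mul, abs_of_pos A0] at k4
  refine (le_of_eq ?_).trans (k4.trans ?_)
  · congr 1
    rw [eq_add_of_sub_eq e]
    field_simp
    ring
  · nlinarith [mul_le_mul_of_nonneg_left k3 (show 0 ≤ A * (γ / 4) by positivity)]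

/-- The shift of the centre for the square. -/
theorem shift_two {ε t t' s s' : ℝ} (e0 : 0 < ε) (e1 : ε ≤ 1 / 8) (ht : 1 / 2 ≤ t)
    (ht' : 1 / 2 ≤ t') (hs : |s| ≤ 1) (hs' : |s'| ≤ 1) :
    |FF (fun Y => Y ^ 2) ε t s - FF (fun Y => Y ^ 2) ε t' s' + (s ^ 2 - s' ^ 2)| ≤
      13 * ε * |s ^ 2 - s' ^ 2| + 70 * (ε * |s - s'| + ε * |t - t'|) := by
  obtain ⟨h0, ha, hd⟩ := div_est e0 ht ht'
  obtain ⟨h0', ha', -⟩ := div_est e0 ht' ht
  unfold FF
  generalize ε / t = a at *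
  generalize ε / t' = a' at *
  have ds := mul_nonneg e0.le (abs_nonneg (s - s'))
  have dt := mul_nonneg e0.le (abs_nonneg (t - t'))
  have hρ := inv_MM_sub (e := ε * |s - s'| + ε * |t - t'|) h0 (by linarith) h0' (by linarith) hs
    hs' (by linarith [mul_le_mul_of_nonneg_right ha (abs_nonneg (s - s'))])
  obtain ⟨q, r1, r2⟩ := inv_MM_le h0 ha e1 hs
  obtain ⟨q', -, r2'⟩ := inv_MM_le h0' ha' e1 hs'
  have r0 : 1 - 2 * ε ≤ (MM a s)⁻¹ := by
    rw [inv_eq_one_div, le_div_iff₀ (inv_pos.1 q)]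
    nlinarith [MM_le h0 hs, inv_pos.1 q]
  simp only [div_eq_inv_mul, mul_pow, yy_sq hs, yy_sq hs']
  generalize (MM a s)⁻¹ = ρ at *
  generalize (MM a' s')⁻¹ = ρ' at *
  generalize ε * |s - s'| + ε * |t - t'| = e at *
  have e2 : ρ * (ρ ^ 2 * (1 - s ^ 2)) - ρ' * (ρ' ^ 2 * (1 - s' ^ 2)) + (s ^ 2 - s' ^ 2) =
      (1 - ρ ^ 3) * (s ^ 2 - s' ^ 2) + (ρ - ρ') * ((ρ ^ 2 + ρ * ρ' + ρ' ^ 2) * (1 - s' ^ 2)) := by
    ring
  have k1 : |1 - ρ ^ 3| ≤ 13 * ε := by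
    have k2 : ρ ^ 3 ≤ (1 + 3 * ε) ^ 3 := by gcongr
    have k3 : (1 - 2 * ε) ^ 3 ≤ ρ ^ 3 := by gcongr; linarith
    rw [abs_le]
    constructor <;> nlinarith [mul_pos e0 e0]
  have k2 : |(ρ ^ 2 + ρ * ρ' + ρ' ^ 2) * (1 - s' ^ 2)| ≤ 16 / 3 := by
    have k3 : 0 ≤ 1 - s' ^ 2 := by nlinarith [sq_abs s', abs_nonneg s']
    rw [abs_of_nonneg (by positivity)]
    have k4 : ρ ^ 2 + ρ * ρ' + ρ' ^ 2 ≤ 16 / 3 := by nlinarith
    nlinarith [sq_nonneg s', mul_pos q q', sq_nonneg ρ, sq_nonneg ρ']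
  rw [e2]
  refine (abs_add_le _ _).trans ?_
  rw [abs_mul, abs_mul (ρ - ρ')]
  have e0' : 0 ≤ e := by linarith [abs_nonneg (ρ - ρ')]
  linarith [mul_le_mul_of_nonneg_right k1 (abs_nonneg (s ^ 2 - s' ^ 2)),
    mul_le_mul hρ k2 (abs_nonneg _) (by positivity)]

/-- The shift of the centre for a function with a slope. -/
theorem shift_slope {g : ℝ → ℝ} {A β γ η κ ε t t' s s' : ℝ} (A0 : 0 < A) (A1 : A ≤ 1 / 8)
    (g0 : 0 < γ) (g1 : γ ≤ β) (b1 : β ≤ 1) (η0 : 0 < η) (η1 : η ≤ 1) (hκ : |κ| ≤ 2 * A)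
    (hg : Mod (A * (1 - η)) (A * (β / 4)) (A * (γ / 4)) fun Y => g Y - κ * Y ^ 2)
    (hb : ∀ Y, |g Y - 1| ≤ 1 / 4) (e0 : 0 < ε) (e1 : ε ≤ 1 / 8) (ht : 1 / 2 ≤ t)
    (ht' : 1 / 2 ≤ t') (hs : |s| ≤ 1) (hs' : |s'| ≤ 1) :
    |FF g ε t s - FF g ε t' s' + κ * (s ^ 2 - s' ^ 2)| ≤
      A * (1 - η + 39 * ε) * |s ^ 2 - s' ^ 2| + A * (β / 2) * |yy s - yy s'| +
        A * (γ / 2) * |s - s'| + 140 * (ε * |s - s'| + ε * |t - t'|) := by
  have k1 := shift_est hg (by nlinarith) (by nlinarith) (by nlinarith) (by nlinarith)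
    (by positivity) (by nlinarith) (fun Y hY => by
      have h1 := abs_le.1 (hb Y)
      have h2 : |κ * Y ^ 2| ≤ 2 * A * 1 := by
        rw [abs_mul, abs_of_nonneg (sq_nonneg Y)]
        exact mul_le_mul hκ (pow_le_one₀ hY.1 hY.2) (sq_nonneg Y) (by positivity)
      rw [abs_le] at h2 ⊢
      constructor <;> linarith) e0 e1 ht ht' hs hs'
  have k2 := mul_le_mul hκ (shift_two e0 e1 ht ht' hs hs') (abs_nonneg _) (by positivity)
  rw [← abs_mul] at k2
  refine (le_of_eq ?_).trans ((abs_add_le _ _).trans ((add_le_add k1 k2).trans ?_))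
  · congr 1
    simp only [FF]
    ring
  · have p1 := mul_nonneg e0.le (abs_nonneg (s - s'))
    have p2 := mul_nonneg e0.le (abs_nonneg (t - t'))
    have p3 : 0 ≤ A * ε * η * |s ^ 2 - s' ^ 2| := by positivity
    nlinarith [mul_le_mul_of_nonneg_right A1 (add_nonneg p1 p2)]

/-- Truncation to the interval from one half to two. -/
noncomputable def cl (x : ℝ) : ℝ := max (1 / 2) (min 2 x)

theorem cl_mem (x : ℝ) : cl x ∈ Icc (1 / 2 : ℝ) 2 :=
  ⟨le_max_left _ _, max_le (by norm_num) (min_le_left _ _)⟩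

theorem cl_eq {x : ℝ} (h : |x - 1| ≤ 1 / 4) : cl x = x := by
  rw [abs_le] at h
  rw [cl, min_eq_right (by linarith), max_eq_right (by linarith)]

/-- A profile, extended to the line. -/
noncomputable def ev (r : C(Icc (-1 : ℝ) 1, ℝ)) (t : ℝ) : ℝ :=
  cl (r (projIcc (-1) 1 (by norm_num) t))

theorem ev_mem (r : C(Icc (-1 : ℝ) 1, ℝ)) (t : ℝ) : ev r t ∈ Icc (1 / 2 : ℝ) 2 := cl_mem _

theorem ev_ne (r : C(Icc (-1 : ℝ) 1, ℝ)) (t : ℝ) : ev r t ≠ 0 :=
  (lt_of_lt_of_le (by norm_num) (ev_mem r t).1).ne'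

theorem continuous_ev : Continuous fun p : C(Icc (-1 : ℝ) 1, ℝ) × ℝ => ev p.1 p.2 := by
  unfold ev cl
  exact continuous_const.max (continuous_const.min (continuous_eval.comp
    (continuous_fst.prodMk ((continuous_projIcc (h := by norm_num)).comp continuous_snd))))

theorem continuous_gg [IsProbabilityMeasure ν] (hi : 0 < i) :
    Continuous fun p : C(Icc (-1 : ℝ) 1, ℝ) × ℝ => gg ν i (ev p.1) p.2 := by
  have hc : Continuous fun q : (C(Icc (-1 : ℝ) 1, ℝ) × ℝ) × ℝ =>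
      (ev q.1.1 (q.2 * q.1.2) / ev q.1.1 0) ^ i :=
    ((continuous_ev.comp (f := fun q : (C(Icc (-1 : ℝ) 1, ℝ) × ℝ) × ℝ => (q.1.1, q.2 * q.1.2))
      (by fun_prop)).div (continuous_ev.comp
      (f := fun q : (C(Icc (-1 : ℝ) 1, ℝ) × ℝ) × ℝ => (q.1.1, 0)) (by fun_prop))
      fun _ => ev_ne _ _).rpow_const fun _ => Or.inr hi.le
  refine continuous_of_dominated (bound := fun _ => 4 ^ i)
    (fun p => (hc.comp (Continuous.prodMk_right p)).aestronglyMeasurable)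
    (fun p => ae_of_all _ fun τ => ?_) (integrable_const _)
    (ae_of_all _ fun τ => hc.comp (Continuous.prodMk_left τ))
  have h1 : ev p.1 (τ * p.2) ∈ Icc (1 / 2 : ℝ) 2 := cl_mem _
  have h2 : ev p.1 0 ∈ Icc (1 / 2 : ℝ) 2 := cl_mem _
  have h3 : 0 ≤ ev p.1 (τ * p.2) / ev p.1 0 := div_nonneg (by linarith [h1.1]) (by linarith [h2.1])
  rw [Real.norm_of_nonneg (Real.rpow_nonneg h3 _)]
  refine Real.rpow_le_rpow h3 ?_ hi.le
  rw [div_le_iff₀ (by linarith [h2.1])]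
  linarith [h1.2, h2.1]

theorem abs_coe (s : Icc (-1 : ℝ) 1) : |(s : ℝ)| ≤ 1 := abs_le.2 s.2

theorem continuous_step [IsProbabilityMeasure ν] (hi : 0 < i) {ε : ℝ} (e0 : 0 < ε) (e1 : ε ≤ 1 / 8) :
    Continuous fun p : C(Icc (-1 : ℝ) 1, ℝ) × Icc (-1 : ℝ) 1 =>
      FF (gg ν i (ev p.1)) ε (ev p.1 p.2) p.2 := by
  have h1 : Continuous fun p : C(Icc (-1 : ℝ) 1, ℝ) × Icc (-1 : ℝ) 1 => ev p.1 p.2 :=
    continuous_ev.comp (f := fun p : C(Icc (-1 : ℝ) 1, ℝ) × Icc (-1 : ℝ) 1 => (p.1, (p.2 : ℝ)))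
      (by fun_prop)
  have h2 : Continuous fun p : C(Icc (-1 : ℝ) 1, ℝ) × Icc (-1 : ℝ) 1 => ε / ev p.1 p.2 :=
    continuous_const.div h1 fun p => ev_ne _ _
  have h3 : Continuous fun p : C(Icc (-1 : ℝ) 1, ℝ) × Icc (-1 : ℝ) 1 =>
      MM (ε / ev p.1 p.2) p.2 := by
    unfold MM
    fun_prop
  have h4 : ∀ p : C(Icc (-1 : ℝ) 1, ℝ) × Icc (-1 : ℝ) 1, MM (ε / ev p.1 p.2) p.2 ≠ 0 := fun p => by
    obtain ⟨k1, k2, -⟩ := div_est (t := ev p.1 p.2) e0 (cl_mem _).1 (cl_mem 0).1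
    exact (inv_pos.1 (inv_MM_le k1 k2 e1 (abs_coe p.2)).1).ne'
  have h5 : Continuous fun p : C(Icc (-1 : ℝ) 1, ℝ) × Icc (-1 : ℝ) 1 => yy p.2 := by
    unfold yy
    fun_prop
  exact ((continuous_gg hi).comp (continuous_fst.prodMk (h5.div h3 h4))).div h3 h4

/-- The invariant class. -/
def Cl (A B C D : ℝ) : Set C(Icc (-1 : ℝ) 1, ℝ) :=
  {r | (∀ s, |r s - 1| ≤ D) ∧ ∀ s s', |r s - r s'| ≤
    A * |(s : ℝ) ^ 2 - s' ^ 2| + B * |yy s - yy s'| + C * |(s : ℝ) - s'|}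

theorem isCompact_Cl (A B C D : ℝ) : IsCompact (Cl A B C D) := by
  have hb : ∀ s : Icc (-1 : ℝ) 1, Continuous fun s' : Icc (-1 : ℝ) 1 =>
      A * |(s : ℝ) ^ 2 - s' ^ 2| + B * |yy s - yy s'| + C * |(s : ℝ) - s'| := fun s => by
    unfold yy
    fun_prop
  have hlim : ∀ s : Icc (-1 : ℝ) 1, Tendsto (fun s' : Icc (-1 : ℝ) 1 =>
      A * |(s : ℝ) ^ 2 - s' ^ 2| + B * |yy s - yy s'| + C * |(s : ℝ) - s'|) (𝓝 s) (𝓝 0) :=
    fun s => by simpa using (hb s).tendsto s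
  refine ArzelaAscoli.isCompact_of_equicontinuous _ ?_ fun s =>
    Metric.equicontinuousAt_of_continuity_modulus _ (hlim s) _ (.of_forall fun s' r => r.2.2 s s')
  have he : ContinuousMap.toFun '' Cl A B C D = (Set.pi univ fun _ => Icc (1 - D) (1 + D)) ∩
      ⋂ s, ⋂ s', {r : Icc (-1 : ℝ) 1 → ℝ | |r s - r s'| ≤
        A * |(s : ℝ) ^ 2 - s' ^ 2| + B * |yy s - yy s'| + C * |(s : ℝ) - s'|} := by
    ext r
    simp only [mem_inter_iff, mem_iInter, mem_univ_pi, mem_Icc]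
    constructor
    · rintro ⟨r, ⟨h1, h2⟩, rfl⟩
      exact ⟨fun s => ⟨(by linarith [(abs_le.1 (h1 s)).1] : 1 - D ≤ r s),
        (by linarith [(abs_le.1 (h1 s)).2] : r s ≤ 1 + D)⟩, h2⟩
    · rintro ⟨h1, h2⟩
      refine ⟨⟨r, continuous_iff_continuousAt.2 fun s => ?_⟩,
        ⟨fun s => abs_le.2 ⟨(by linarith [(h1 s).1] : -D ≤ r s - 1),
          sub_le_iff_le_add'.2 (h1 s).2⟩, h2⟩, rfl⟩
      exact tendsto_iff_dist_tendsto_zero.2 (squeeze_zero (fun _ => dist_nonneg)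
        (fun s' => (dist_comm _ _).trans_le (h2 s s')) (hlim s))
  rw [he]
  exact (isCompact_univ_pi fun _ => isCompact_Icc).inter_right
    (isClosed_iInter fun s => isClosed_iInter fun s' => isClosed_le (by fun_prop) continuous_const)

/-- The invariant class of profiles with their slopes. -/
def Cs (A β γ D : ℝ) : Set (C(Icc (-1 : ℝ) 1, ℝ) × ℝ) :=
  {p | (∀ s, |p.1 s - 1| ≤ D) ∧ |p.2| ≤ A ∧ ∀ s s' : Icc (-1 : ℝ) 1,
    |p.1 s - p.1 s' - p.2 * (s ^ 2 - s' ^ 2)| ≤ A * ww β γ s s'}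

theorem lip_of {A β γ c κ x s s' : ℝ} (hc : |c| ≤ κ)
    (h : |x - c * (s ^ 2 - s' ^ 2)| ≤ A * ww β γ s s') :
    |x| ≤ (κ + A) * |s ^ 2 - s' ^ 2| + A * β * |yy s - yy s'| + A * γ * |s - s'| := by
  have k := abs_sub_abs_le_abs_sub x (c * (s ^ 2 - s' ^ 2))
  rw [abs_mul] at k
  rw [ww] at h
  linarith [mul_le_mul_of_nonneg_right hc (abs_nonneg (s ^ 2 - s' ^ 2))]

theorem isCompact_Cs (A β γ D : ℝ) : IsCompact (Cs A β γ D) := by
  refine ((isCompact_Cl (A + A) (A * β) (A * γ) D).prod (isCompact_Icc (a := -A) (b := A))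
    ).of_isClosed_subset ?_ fun p hp => ⟨⟨hp.1, fun s s' => lip_of hp.2.1 (hp.2.2 s s')⟩,
      abs_le.1 hp.2.1⟩
  simp only [Cs, ofPred_and, ofPred_forall]
  exact (isClosed_iInter fun s => isClosed_le (by fun_prop) continuous_const).inter
    ((isClosed_le (by fun_prop) continuous_const).inter (isClosed_iInter fun s =>
      isClosed_iInter fun s' => isClosed_le (by fun_prop) continuous_const))

theorem abs_comb {a b x y K : ℝ} (ha : 0 ≤ a) (hb : 0 ≤ b) (hab : a + b = 1) (hx : |x| ≤ K)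
    (hy : |y| ≤ K) : |a * x + b * y| ≤ K := by
  refine (abs_add_le _ _).trans ?_
  rw [abs_mul, abs_mul, abs_of_nonneg ha, abs_of_nonneg hb]
  calc _ ≤ a * K + b * K := by gcongr
    _ = K := by rw [← add_mul, hab, one_mul]

theorem convex_Cs (A β γ D : ℝ) : Convex ℝ (Cs A β γ D) := by
  intro r hr r' hr' a b ha hb hab
  refine ⟨fun s => ?_, abs_comb ha hb hab hr.2.1 hr'.2.1, fun s s' => ?_⟩
  · convert abs_comb ha hb hab (hr.1 s) (hr'.1 s) using 2
    simp only [Prod.fst_add, Prod.smul_fst, ContinuousMap.add_apply, ContinuousMap.smul_apply,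
      smul_eq_mul]
    linear_combination hab
  · convert abs_comb ha hb hab (hr.2.2 s s') (hr'.2.2 s s') using 2
    simp only [Prod.fst_add, Prod.smul_fst, Prod.snd_add, Prod.smul_snd, ContinuousMap.add_apply,
      ContinuousMap.smul_apply, smul_eq_mul]
    ring

/-- The profile of the solution. -/
theorem exists_profile (hν : Law ν m) (hi : 0 < i) (him : i * m ≤ 1) :
    ∃ ε₀ : ℝ, 0 < ε₀ ∧ ∀ ε, 0 < ε → ε < ε₀ → ∃ r : ℝ → ℝ, ε ≤ 1 / 8 ∧ Continuous r ∧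
      (∀ s, |r s - 1| ≤ 1 / 4) ∧ (∀ Y, |gg ν i r Y - 1| ≤ 1 / 4) ∧
      (∀ s, |s| ≤ 1 → FF (gg ν i r) ε (r s) s = r s) ∧
      ∀ s t t', |s| ≤ 1 → 1 / 2 ≤ t → 1 / 2 ≤ t' →
        |FF (gg ν i r) ε t s - FF (gg ν i r) ε t' s| ≤ |t - t'| / 2 := by
  obtain ⟨β, γ, η, μ, b, D, g0, g1, b1, η0, η1, D0, D1, H⟩ := exists_avg hν hi him
  have := hν.prob
  obtain ⟨A, hA⟩ : ∃ A, D = 8 * A := ⟨D / 8, by ring⟩
  have A0 : 0 < A := by linarith
  refine ⟨min (η / 320) (A * γ / 600), by positivity, fun ε e0 he => ?_⟩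
  have e2 := he.le.trans (min_le_left _ _)
  have e3 := he.le.trans (min_le_right _ _)
  have e1 : ε ≤ 1 / 8 := by linarith
  have m0 := mul_pos hi hν.pos
  have Ag : A * γ ≤ 1 := mul_le_one₀ (by linarith) g0.le (g1.trans b1)
  have hce : ∀ r, Continuous (ev r) := fun r => continuous_ev.comp (Continuous.prodMk_right r)
  have hev : ∀ p ∈ Cs A β γ D, ∀ s (hs : s ∈ Icc (-1 : ℝ) 1), ev p.1 s = p.1 ⟨s, hs⟩ :=
    fun r hr s hs => by rw [ev, projIcc_of_mem _ hs, cl_eq ((hr.1 _).trans D1)]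
  have hD : ∀ p ∈ Cs A β γ D, ∀ s, |ev p.1 s - 1| ≤ D := fun r hr s => by
    rw [ev, cl_eq ((hr.1 _).trans D1)]
    exact hr.1 _
  have hL : ∀ p ∈ Cs A β γ D, Lip A β γ p.2 (ev p.1) := fun r hr s s' hs hs' => by
    rw [hev r hr s (abs_le.1 hs), hev r hr s' (abs_le.1 hs')]
    exact hr.2.2 _ _
  have hM := fun p (hp : p ∈ Cs A β γ D) => (H _ (hce _) (hD p hp)).2 A p.2 A0 hp.2.1 (hL p hp)
  have hκ : ∀ p ∈ Cs A β γ D, |slope i m μ b p.2 (ev p.1)| ≤ 2 * A := fun p hp => by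
    have k := abs_sub_abs_le_abs_sub (slope i m μ b p.2 (ev p.1)) (i * m * p.2)
    rw [abs_mul, abs_of_pos m0] at k
    nlinarith [(hM p hp).1, hp.2.1, abs_nonneg p.2]
  have hS := fun p (hp : p ∈ Cs A β γ D) (s s' t t' : ℝ) (hs : |s| ≤ 1) (hs' : |s'| ≤ 1)
    (ht : 1 / 2 ≤ t) (ht' : 1 / 2 ≤ t') => shift_slope A0 (by linarith) g0 g1 b1 η0 η1 (hκ p hp)
      (hM p hp).2 (H _ (hce _) (hD p hp)).1 e0 e1 ht ht' hs hs'
  let T := ContinuousMap.curry ⟨_, continuous_step (ν := ν) hi e0 e1⟩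
  have hT : ∀ r s, T r s = FF (gg ν i (ev r)) ε (ev r s) s := fun _ _ => rfl
  have hq : ∀ x : ℝ, Continuous fun p : C(Icc (-1 : ℝ) 1, ℝ) × ℝ => (ev p.1 x / ev p.1 0) ^ i :=
    fun x => ((continuous_ev.comp (continuous_fst.prodMk continuous_const)).div
      (continuous_ev.comp (continuous_fst.prodMk continuous_const)) fun _ => ev_ne _ _).rpow_const
      fun _ => Or.inr hi.le
  obtain ⟨p, hp, hfix⟩ := schauder (T := fun p => ((1 / 2 : ℝ) • p.1 + (1 / 2 : ℝ) • T p.1,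
    1 / 2 * p.2 + 1 / 2 * -slope i m μ b p.2 (ev p.1))) (isCompact_Cs A β γ D) (convex_Cs A β γ D)
    ⟨(1, 0), fun s => by simpa using D0.le, by simpa using A0.le, fun s s' => by
      have := g0.trans_le g1
      simp only [ContinuousMap.one_apply, sub_self, zero_mul, abs_zero, ww]
      positivity⟩ (by
      have := T.continuous
      have := hq b
      have := hq (b / 2)
      unfold slope
      fun_prop) (fun p hp => by
    have h2 : ∀ s s' : Icc (-1 : ℝ) 1, |T p.1 s - T p.1 s' - -slope i m μ b p.2 (ev p.1) *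
        (s ^ 2 - s' ^ 2)| ≤ A * ww β γ s s' := fun s s' => by
      have k := hS p hp s s' _ _ (abs_coe s) (abs_coe s') (ev_mem p.1 s).1 (ev_mem p.1 s').1
      have k1 := mul_le_mul_of_nonneg_left
        (lip_of hp.2.1 (hL p hp s s' (abs_coe s) (abs_coe s'))) e0.le
      have k2 : A * (320 * ε) * |(s : ℝ) ^ 2 - s' ^ 2| ≤ A * η * |(s : ℝ) ^ 2 - s' ^ 2| := by
        gcongr
        linarith
      have k3 : 280 * ε * (A * β * |yy s - yy s'|) ≤ 1 * (A * β * |yy s - yy s'|) :=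
        mul_le_mul_of_nonneg_right (by linarith) (by have := g0.trans_le g1; positivity)
      have k4 : 280 * ε * (1 + A * γ) * |(s : ℝ) - s'| ≤ A * γ * |(s : ℝ) - s'| :=
        mul_le_mul_of_nonneg_right (by nlinarith [mul_le_mul_of_nonneg_left Ag e0.le])
          (abs_nonneg _)
      have k5 : 0 ≤ A * ε * |(s : ℝ) ^ 2 - s' ^ 2| := by positivity
      rw [hT, hT, neg_mul, sub_neg_eq_add, ww]
      linarith
    have hh : (1 / 2 : ℝ) + 1 / 2 = 1 := by norm_num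
    refine ⟨fun s => ?_, ?_, fun s s' => ?_⟩
    · have k := lip_of ((abs_neg _).trans_le (hκ p hp)) (h2 s ⟨1, by norm_num⟩)
      have k1 : |(s : ℝ) ^ 2 - 1 ^ 2| ≤ 1 :=
        abs_le.2 ⟨by nlinarith [sq_nonneg (s : ℝ)], by nlinarith [s.2.1, s.2.2]⟩
      have y1 : yy 1 = 0 := by simp [yy]
      have k2 : |yy s - yy 1| ≤ 1 := by
        rw [y1, sub_zero, abs_of_nonneg (yy_nonneg _)]
        exact yy_le _
      have k3 : |(s : ℝ) - 1| ≤ 2 := abs_le.2 ⟨by linarith [s.2.1], by linarith [s.2.2]⟩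
      have k4 : |T p.1 ⟨1, by norm_num⟩ - 1| ≤ 3 * ε := by
        obtain ⟨q1, q2, -⟩ := div_est (t := ev p.1 1) e0 (cl_mem _).1 (cl_mem 0).1
        obtain ⟨q3, q4, -⟩ := inv_MM_le q1 q2 e1 (abs_one.le : |(1 : ℝ)| ≤ 1)
        have q5 := MM_le q1 (abs_one.le : |(1 : ℝ)| ≤ 1)
        have q7 : T p.1 ⟨1, by norm_num⟩ = (MM (ε / ev p.1 1) 1)⁻¹ := by
          simp [hT, FF, y1, gg, ev_ne]
        have q8 := mul_inv_cancel₀ (inv_pos.1 q3).ne'
        rw [q7, abs_le]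
        exact ⟨by nlinarith [mul_le_mul_of_nonneg_right q5 q3.le], by linarith⟩
      have k5 : A * γ ≤ A * β := by gcongr
      have k6 : A * β ≤ A * 1 := by gcongr
      have k7 : |T p.1 s - 1| ≤ D := by
        linarith [abs_sub_le (T p.1 s) (T p.1 ⟨1, by norm_num⟩) 1,
          mul_le_mul_of_nonneg_left k1 (show 0 ≤ 2 * A + A by positivity),
          mul_le_mul_of_nonneg_left k2 (mul_pos A0 (g0.trans_le g1)).le,
          mul_le_mul_of_nonneg_left k3 (mul_pos A0 g0).le]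
      convert abs_comb (by norm_num) (by norm_num) hh (hp.1 s) k7 using 2
      simp only [ContinuousMap.add_apply, ContinuousMap.smul_apply, smul_eq_mul]
      ring
    · have k : |(1 - i * m) * p.2| ≤ A := by
        rw [abs_mul, abs_of_nonneg (by linarith)]
        nlinarith [hp.2.1, abs_nonneg p.2]
      convert abs_comb (by norm_num) (by norm_num) hh k ((abs_neg _).trans_le (hM p hp).1) using 2
      ring
    · convert abs_comb (by norm_num) (by norm_num) hh (hp.2.2 s s') (h2 s s') using 2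
      simp only [ContinuousMap.add_apply, ContinuousMap.smul_apply, smul_eq_mul]
      ring)
  refine ⟨ev p.1, e1, hce _, fun s => (hD p hp s).trans D1, (H _ (hce _) (hD p hp)).1,
    fun s hs => ?_, fun s t t' hs ht ht' => ?_⟩
  · have k := DFunLike.congr_fun (congrArg Prod.fst hfix) ⟨s, abs_le.1 hs⟩
    simp only [ContinuousMap.add_apply, ContinuousMap.smul_apply, smul_eq_mul] at k
    rw [← hT p.1 ⟨s, abs_le.1 hs⟩, hev p hp s (abs_le.1 hs)]
    linarith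
  · have k := hS p hp s s t t' hs hs ht ht'
    simp only [sub_self, abs_zero, mul_zero, add_zero, zero_add] at k
    nlinarith [abs_nonneg (t - t')]

end Pool.Agent.Lib.MP_0a1ca9_gt.Nb
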