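import Pool.Agent.Lib.MP_0a1ca9_gt.NbAvg
import Pool.Agent.Lib.MP_0a1ca9_gt.NbFix

/-! The one-dimensional problem. -/

open MeasureTheory Set

namespace Pool.Agent.Lib.MP_0a1ca9_gt.Nb

/-- the length of `ε e + t v` when `⟪v, e⟫ = s` -/
noncomputable def nn (ε t s : ℝ) : ℝ := √(ε ^ 2 + 2 * ε * t * s + t ^ 2)

/-- solutions of the one-dimensional problem -/
structure Sol (ν : Measure ℝ) (i ε : ℝ) (r : ℝ → ℝ) : Prop where
  cont : Continuous r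
  pos : ∀ s, 0 < r s
  iff : ∀ s ∈ Icc (-1 : ℝ) 1, ∀ t, 0 ≤ t →
    (nn ε t s ≤ gg ν i r (t * sq s / nn ε t s) ↔ t ≤ r s)

theorem sol_of_profile {ν : Measure ℝ} {i ε : ℝ} {r : ℝ → ℝ} (e0 : 0 < ε) (e1 : ε ≤ 1 / 8)
    (hc : Continuous r) (h1 : ∀ s, |r s - 1| ≤ 1 / 4) (h2 : ∀ Y, |gg ν i r Y - 1| ≤ 1 / 4)
    (h3 : ∀ s, |s| ≤ 1 → FF (gg ν i r) ε (r s) s = r s)
    (h4 : ∀ s t t', |s| ≤ 1 → 1 / 2 ≤ t → 1 / 2 ≤ t' →
      |FF (gg ν i r) ε t s - FF (gg ν i r) ε t' s| ≤ |t - t'| / 2) : Sol ν i ε r := by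
  have r0 := fun s => (abs_le.1 (h1 s)).1
  refine ⟨hc, fun s => by linarith [r0 s], fun s hs t ht => ?_⟩
  have hs' := abs_le.2 hs
  rcases le_total t (1 / 2) with h | h
  · refine iff_of_true (le_trans (b := ε + t) (Real.sqrt_le_iff.2 ⟨by linarith, ?_⟩) ?_)
      (by linarith [r0 s])
    · nlinarith [mul_nonneg (mul_nonneg e0.le ht) (sub_nonneg.2 hs.2)]
    · linarith [(abs_le.1 (h2 (t * sq s / nn ε t s))).1]
  have t0 : 0 < t := by linarith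
  obtain ⟨k1, k2, -⟩ := div_est e0 h h
  have k3 := inv_pos.1 (inv_MM_le k1 k2 e1 hs').1
  have k4 : nn ε t s = t * MM (ε / t) s := by
    rw [nn, MM, ← Real.sqrt_sq t0.le, ← Real.sqrt_mul (sq_nonneg t), Real.sqrt_sq t0.le]
    congr 1
    field_simp
    ring
  have k5 := h4 s t (r s) hs' h (by linarith [r0 s])
  rw [h3 s hs'] at k5
  rw [k4, mul_div_mul_left _ _ t0.ne', ← le_div_iff₀ k3]
  change t ≤ FF (gg ν i r) ε t s ↔ _
  rcases le_or_gt t (r s) with k | k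
  · rw [abs_of_nonpos (sub_nonpos.2 k)] at k5
    exact iff_of_true (by linarith [(abs_le.1 k5).1]) k
  · rw [abs_of_pos (sub_pos.2 k)] at k5
    exact iff_of_false (by linarith [(abs_le.1 k5).2] |> fun h : FF (gg ν i r) ε t s < t => h.not_ge)
      k.not_ge

end Pool.Agent.Lib.MP_0a1ca9_gt.Nb
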