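import Mathlib

/-! Elementary estimates for the change of the centre of a body of revolution. -/

open Set

namespace Pool.Agent.Lib.MP_0a1ca9_gt.Nb

/-- The sine of the angle with cosine `s`. -/
noncomputable def yy (s : ℝ) : ℝ := √(1 - s ^ 2)

/-- The norm of `v + a e` for unit vectors with inner product `s`. -/
noncomputable def MM (a s : ℝ) : ℝ := √(1 + 2 * a * s + a ^ 2)

/-- The radial function of the centred body, read from the shifted centre. -/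
noncomputable def FF (g : ℝ → ℝ) (ε t s : ℝ) : ℝ := g (yy s / MM (ε / t) s) / MM (ε / t) s

/-- The three-term modulus for functions of the sine. -/
def Mod (α β γ : ℝ) (g : ℝ → ℝ) : Prop :=
  ∀ Y Y' S S' : ℝ, 0 ≤ Y → 0 ≤ Y' → Y ^ 2 + S ^ 2 = 1 → Y' ^ 2 + S' ^ 2 = 1 →
    |g Y - g Y'| ≤ α * |Y ^ 2 - Y' ^ 2| + β * |Y - Y'| + γ * |S - S'|

theorem yy_nonneg (s : ℝ) : 0 ≤ yy s := Real.sqrt_nonneg _

theorem yy_sq {s : ℝ} (hs : |s| ≤ 1) : yy s ^ 2 = 1 - s ^ 2 :=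
  Real.sq_sqrt (by nlinarith [sq_abs s, abs_nonneg s])

theorem yy_le (s : ℝ) : yy s ≤ 1 := Real.sqrt_le_one.2 (by nlinarith [sq_nonneg s])

theorem MM_ge {a s : ℝ} (h0 : 0 ≤ a) (hs : |s| ≤ 1) : 1 - a ≤ MM a s :=
  Real.le_sqrt_of_sq_le (by nlinarith [(abs_le.1 hs).1])

theorem MM_le {a s : ℝ} (h0 : 0 ≤ a) (hs : |s| ≤ 1) : MM a s ≤ 1 + a :=
  Real.sqrt_le_iff.2 ⟨by linarith, by nlinarith [(abs_le.1 hs).2]⟩

theorem MM_sq {a s : ℝ} (h0 : 0 ≤ a) (hs : |s| ≤ 1) : MM a s ^ 2 = 1 + 2 * a * s + a ^ 2 :=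
  Real.sq_sqrt (by nlinarith [(abs_le.1 hs).1, sq_nonneg (1 - a)])

theorem mul_sub_le (x y x' y' : ℝ) : |x * y - x' * y'| ≤ |x| * |y - y'| + |y'| * |x - x'| := by
  rw [← abs_mul, ← abs_mul]
  refine le_trans (le_of_eq ?_) (abs_add_le _ _)
  congr 1
  ring

theorem circ {a s : ℝ} (h0 : 0 ≤ a) (h1 : a < 1) (hs : |s| ≤ 1) :
    (yy s / MM a s) ^ 2 + ((s + a) / MM a s) ^ 2 = 1 := by
  have hM : 0 < MM a s := by linarith [MM_ge h0 hs]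
  rw [div_pow, div_pow, ← add_div, div_eq_one_iff_eq (by positivity), yy_sq hs, MM_sq h0 hs]
  ring

theorem inv_MM_sub {a a' s s' e : ℝ} (h0 : 0 ≤ a) (h1 : a ≤ 1 / 4) (h0' : 0 ≤ a')
    (h1' : a' ≤ 1 / 4) (hs : |s| ≤ 1) (hs' : |s'| ≤ 1)
    (he : 2 * a * |s - s'| + 5 / 2 * |a - a'| ≤ 10 * e) :
    |(MM a s)⁻¹ - (MM a' s')⁻¹| ≤ 13 * e := by
  have hM := MM_ge h0 hs
  have hM' := MM_ge h0' hs'
  have h2 : |MM a s ^ 2 - MM a' s' ^ 2| ≤ 10 * e := by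
    rw [MM_sq h0 hs, MM_sq h0' hs']
    have : 1 + 2 * a * s + a ^ 2 - (1 + 2 * a' * s' + a' ^ 2) =
        2 * a * (s - s') + (2 * s' + a + a') * (a - a') := by ring
    rw [this]
    refine (abs_add_le _ _).trans (le_trans ?_ he)
    rw [abs_mul, abs_mul (2 * s' + a + a'), abs_of_nonneg (by linarith : 0 ≤ 2 * a)]
    have : |2 * s' + a + a'| ≤ 5 / 2 := by
      rw [abs_le] at hs' ⊢
      constructor <;> linarith
    gcongr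
  generalize MM a s = M at *
  generalize MM a' s' = M' at *
  have p : 0 < M := by linarith
  have p' : 0 < M' := by linarith
  have h3 : M⁻¹ - M'⁻¹ = -(M ^ 2 - M' ^ 2) / ((M + M') * (M * M')) := by
    field_simp
    ring
  have h4 : 27 / 32 ≤ (M + M') * (M * M') := by
    have : 9 / 16 ≤ M * M' := by nlinarith
    nlinarith
  rw [h3, abs_div, abs_neg, abs_of_pos (by positivity : 0 < (M + M') * (M * M')),
    div_le_iff₀ (by positivity)]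
  have : 0 ≤ e := by linarith [abs_nonneg (M ^ 2 - M' ^ 2)]
  nlinarith

theorem shift_sq {ρ ρ' y y' s s' e : ℝ} (q : 0 < ρ) (q' : 0 < ρ') (r : ρ ≤ 4 / 3)
    (r' : ρ' ≤ 4 / 3) (hρ : |ρ - ρ'| ≤ 13 * e) (hy : y ^ 2 = 1 - s ^ 2)
    (hy' : y' ^ 2 = 1 - s' ^ 2) :
    |(ρ * y) ^ 2 - (ρ' * y') ^ 2| ≤ ρ ^ 2 * |s ^ 2 - s' ^ 2| + 35 * e := by
  have e0 : 0 ≤ e := by linarith [abs_nonneg (ρ - ρ')]
  rw [mul_pow, mul_pow]
  refine (mul_sub_le _ _ _ _).trans (add_le_add (le_of_eq ?_) ?_)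
  · rw [abs_of_nonneg (sq_nonneg ρ), hy, hy', abs_sub_comm]
    congr 2
    ring
  · have h1 : |ρ ^ 2 - ρ' ^ 2| ≤ 8 / 3 * (13 * e) := by
      rw [sq_sub_sq, abs_mul, abs_of_pos (add_pos q q')]
      gcongr
      linarith
    have h2 : |y' ^ 2| ≤ 1 := by
      rw [abs_of_nonneg (sq_nonneg _)]
      linarith [sq_nonneg s']
    linarith [mul_le_mul h2 h1 (abs_nonneg _) zero_le_one]

theorem shift_core {G G' α β γ ε ρ ρ' d2 dy ds e X Y Z : ℝ} (a0 : 0 ≤ α) (a1 : α ≤ 1)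
    (b0 : 0 ≤ β) (b1 : β ≤ 1) (c0 : 0 ≤ γ) (c1 : γ ≤ 1) (e0 : 0 < ε) (e1 : ε ≤ 1 / 8)
    (q : 0 < ρ) (r1 : ρ ≤ 1 + 3 * ε) (r2 : ρ ≤ 4 / 3) (hρ : |ρ - ρ'| ≤ 13 * e) (hB : |G'| ≤ 2)
    (p2 : 0 ≤ d2) (py : 0 ≤ dy) (ps : 0 ≤ ds) (hG : |G - G'| ≤ α * X + β * Y + γ * Z)
    (k1 : X ≤ ρ ^ 2 * d2 + 35 * e) (k2 : Y ≤ 4 / 3 * dy + 13 * e)
    (k3 : Z ≤ 4 / 3 * ds + 22 * e) :
    |ρ * G - ρ' * G'| ≤ (1 + 13 * ε) * α * d2 + 2 * β * dy + 2 * γ * ds + 120 * e := by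
  have e0' : 0 ≤ e := by linarith [abs_nonneg (ρ - ρ')]
  refine (mul_sub_le _ _ _ _).trans ?_
  have k4 : |G'| * |ρ - ρ'| ≤ 2 * (13 * e) := by gcongr
  have k5 : ρ ^ 3 ≤ 1 + 13 * ε := by
    have : ρ ^ 3 ≤ (1 + 3 * ε) ^ 3 := by gcongr
    nlinarith [mul_pos e0 e0]
  have k6 : |G - G'| ≤ α * (ρ ^ 2 * d2) + β * (4 / 3 * dy) + γ * (4 / 3 * ds) + 70 * e := by
    linarith [mul_le_mul_of_nonneg_left k1 a0, mul_le_mul_of_nonneg_left k2 b0,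
      mul_le_mul_of_nonneg_left k3 c0, mul_le_mul_of_nonneg_right a1 e0',
      mul_le_mul_of_nonneg_right b1 e0', mul_le_mul_of_nonneg_right c1 e0']
  rw [abs_of_pos q]
  linarith [mul_le_mul_of_nonneg_left k6 q.le, mul_le_mul_of_nonneg_right k5 (mul_nonneg a0 p2),
    mul_le_mul_of_nonneg_right r2 (mul_nonneg b0 py),
    mul_le_mul_of_nonneg_right r2 (mul_nonneg c0 ps), mul_le_mul_of_nonneg_right r2 e0',
    mul_nonneg b0 py, mul_nonneg c0 ps]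

theorem div_est {ε t t' : ℝ} (e0 : 0 < ε) (ht : 1 / 2 ≤ t) (ht' : 1 / 2 ≤ t') :
    0 ≤ ε / t ∧ ε / t ≤ 2 * ε ∧ |ε / t - ε / t'| ≤ 4 * (ε * |t - t'|) := by
  have t0 : 0 < t := by linarith
  have t0' : 0 < t' := by linarith
  refine ⟨by positivity, by rw [div_le_iff₀ t0]; nlinarith, ?_⟩
  have : ε / t - ε / t' = -(ε * (t - t')) / (t * t') := by field_simp; ring
  rw [this, abs_div, abs_neg, abs_mul, abs_of_pos e0, abs_of_pos (mul_pos t0 t0'),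
    div_le_iff₀ (mul_pos t0 t0')]
  have h1 : 1 / 4 ≤ t * t' := by nlinarith
  have h2 : 0 ≤ ε * |t - t'| := by positivity
  nlinarith

theorem sin_mem {a s : ℝ} (h0 : 0 ≤ a) (h1 : a < 1) (hs : |s| ≤ 1) :
    yy s / MM a s ∈ Icc (0 : ℝ) 1 := by
  have h : 0 ≤ yy s / MM a s := div_nonneg (yy_nonneg s) (Real.sqrt_nonneg _)
  exact ⟨h, by nlinarith [circ h0 h1 hs, sq_nonneg ((s + a) / MM a s)]⟩

theorem inv_MM_le {a s ε : ℝ} (h0 : 0 ≤ a) (ha : a ≤ 2 * ε) (e1 : ε ≤ 1 / 8) (hs : |s| ≤ 1) :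
    0 < (MM a s)⁻¹ ∧ (MM a s)⁻¹ ≤ 1 + 3 * ε ∧ (MM a s)⁻¹ ≤ 4 / 3 := by
  have hM := MM_ge h0 hs
  have p : 0 < MM a s := by linarith
  refine ⟨inv_pos.2 p, ?_, ?_⟩ <;> rw [inv_le_iff_one_le_mul₀ p] <;> nlinarith

theorem shift_est {g : ℝ → ℝ} {α β γ ε t t' s s' : ℝ} (hg : Mod α β γ g) (a0 : 0 ≤ α)
    (a1 : α ≤ 1) (b0 : 0 ≤ β) (b1 : β ≤ 1) (c0 : 0 ≤ γ) (c1 : γ ≤ 1)
    (hb : ∀ Y ∈ Icc (0 : ℝ) 1, |g Y| ≤ 2) (e0 : 0 < ε) (e1 : ε ≤ 1 / 8) (ht : 1 / 2 ≤ t)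
    (ht' : 1 / 2 ≤ t') (hs : |s| ≤ 1) (hs' : |s'| ≤ 1) :
    |FF g ε t s - FF g ε t' s'| ≤ (1 + 13 * ε) * α * |s ^ 2 - s' ^ 2| + 2 * β * |yy s - yy s'| +
      2 * γ * |s - s'| + 120 * (ε * |s - s'| + ε * |t - t'|) := by
  obtain ⟨h0, ha, hd⟩ := div_est e0 ht ht'
  obtain ⟨h0', ha', -⟩ := div_est e0 ht' ht
  unfold FF
  generalize ε / t = a at *
  generalize ε / t' = a' at *
  have ds := mul_nonneg e0.le (abs_nonneg (s - s'))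
  have dt := mul_nonneg e0.le (abs_nonneg (t - t'))
  have hρ := inv_MM_sub (e := ε * |s - s'| + ε * |t - t'|) h0 (by linarith) h0' (by linarith) hs
    hs' (by linarith [mul_le_mul_of_nonneg_right ha (abs_nonneg (s - s'))])
  obtain ⟨q, r1, r2⟩ := inv_MM_le h0 ha e1 hs
  obtain ⟨q', -, r2'⟩ := inv_MM_le h0' ha' e1 hs'
  have m := sin_mem h0 (by linarith) hs
  have m' := sin_mem h0' (by linarith) hs'
  have hG := hg _ _ _ _ m.1 m'.1 (circ h0 (by linarith) hs) (circ h0' (by linarith) hs')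
  have hB := hb _ m'
  simp only [div_eq_inv_mul] at hG hB ⊢
  refine shift_core a0 a1 b0 b1 c0 c1 e0 e1 q r1 r2 hρ hB (abs_nonneg _) (abs_nonneg _)
    (abs_nonneg _) hG (shift_sq q q' r2 r2' hρ (yy_sq hs) (yy_sq hs')) ?_ ?_
  · refine (mul_sub_le _ _ _ _).trans (add_le_add ?_ ?_)
    · rw [abs_of_pos q]
      gcongr
    · rw [abs_of_nonneg (yy_nonneg s')]
      linarith [mul_le_mul (yy_le s') hρ (abs_nonneg _) zero_le_one]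
  · refine (mul_sub_le _ _ _ _).trans ?_
    have h1 : |s + a - (s' + a')| ≤ |s - s'| + 4 * (ε * |t - t'|) := by
      rw [add_sub_add_comm]
      linarith [abs_add_le (s - s') (a - a')]
    have h2 : |s' + a'| ≤ 5 / 4 := by
      rw [abs_le] at hs' ⊢
      constructor <;> linarith
    rw [abs_of_pos q]
    linarith [mul_le_mul r2 h1 (abs_nonneg _) (by norm_num),
      mul_le_mul h2 hρ (abs_nonneg _) (by norm_num)]

end Pool.Agent.Lib.MP_0a1ca9_gt.Nb
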