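import Pool.Agent.Lib.MP_0a1ca9_gt.NbDef

/-! From the one-dimensional problem to star bodies. -/

open MeasureTheory Set Metric Module
open scoped RealInnerProductSpace

namespace Pool.Agent.Lib.MP_0a1ca9_gt.Nb

variable {ν : Measure ℝ} {m i ε : ℝ} {r : ℝ → ℝ}

theorem Sol.not_const (h : Sol ν i ε r) (hν : Law ν m) (hi : 0 < i) (hε : 0 < ε) (hε' : ε < 1) :
    ¬∀ Y ∈ Icc (0 : ℝ) 1, gg ν i r Y = 1 := by
  intro H
  have := hν.prob
  have h1 : ∀ s ∈ Icc (-1 : ℝ) 1, ∀ t, 0 ≤ t →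
      (ε ^ 2 + 2 * ε * t * s + t ^ 2 ≤ 1 ↔ t ≤ r s) := fun s hs t ht => by
    have s1 : s ^ 2 ≤ 1 := (sq_le_one_iff_abs_le_one s).2 (abs_le.2 hs)
    rw [← h.iff s hs t ht, H, nn, Real.sqrt_le_one]
    refine ⟨div_nonneg (mul_nonneg ht (sq_nn s)) (Real.sqrt_nonneg _),
      div_le_one_of_le₀ (Real.le_sqrt_of_sq_le ?_) (Real.sqrt_nonneg _)⟩
    rw [mul_pow, sq_sq s1]
    nlinarith [sq_nonneg (ε + t * s)]
  have h2 : ∀ s ∈ Icc (-1 : ℝ) 1, r s = √(1 - ε ^ 2 + (ε * s) ^ 2) - ε * s := fun s hs => by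
    have e0 : 0 < 1 - ε ^ 2 := by nlinarith
    have e1 := Real.sq_sqrt (show 0 ≤ 1 - ε ^ 2 + (ε * s) ^ 2 by positivity)
    have e2 : ε * s ≤ √(1 - ε ^ 2 + (ε * s) ^ 2) := Real.le_sqrt_of_sq_le (by linarith)
    refine le_antisymm ?_ ((h1 s hs _ (sub_nonneg.2 e2)).1 (by nlinarith))
    have e3 := (h1 s hs _ (h.pos s).le).2 le_rfl
    exact le_sub_iff_add_le.2 (Real.le_sqrt_of_sq_le (by nlinarith))
  have h3 : ∀ s ∈ Icc (-1 : ℝ) 1, r (-s) / r 0 = (r s / r 0)⁻¹ := fun s hs => by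
    have e0 : 0 < 1 - ε ^ 2 := by nlinarith
    have e1 := Real.sq_sqrt (show 0 ≤ 1 - ε ^ 2 + (ε * s) ^ 2 by positivity)
    have e2 := Real.sq_sqrt e0.le
    rw [inv_div, div_eq_div_iff (h.pos 0).ne' (h.pos s).ne', h2 s hs,
      h2 (-s) ⟨by linarith [hs.2], by linarith [hs.1]⟩, h2 0 ⟨by norm_num, by norm_num⟩, mul_neg,
      neg_sq]
    simp only [mul_zero, ne_eq, OfNat.ofNat_ne_zero, not_false_eq_true, zero_pow, add_zero,
      sub_zero]
    nlinarith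
  let y : ℝ → ℝ := fun s => (r s / r 0) ^ i
  have y0 : ∀ s, 0 < y s := fun s => Real.rpow_pos_of_pos (div_pos (h.pos s) (h.pos 0)) i
  have yc : Continuous y := (h.cont.div_const _).rpow_const fun _ => Or.inr hi.le
  have k1 : ∫ s, y s ∂ν = 1 := by simpa [gg] using H 1 ⟨zero_le_one, le_rfl⟩
  have k2 : ∫ s, y (-s) ∂ν = 1 := by
    rw [← k1, ← integral_map (φ := fun t : ℝ => -t) (by fun_prop) yc.aestronglyMeasurable, hν.symm]
  have k3 : ∀ s ∈ Icc (-1 : ℝ) 1, y (-s) = (y s)⁻¹ := fun s hs => by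
    simp only [y]
    rw [h3 s hs, Real.inv_rpow (div_pos (h.pos s) (h.pos 0)).le]
  have k4 : ∀ s ∈ Icc (-1 : ℝ) 1, y s + y (-s) - 2 = (y s - 1) ^ 2 / y s := fun s hs => by
    rw [k3 s hs]
    field_simp [(y0 s).ne']
    ring
  have k5 : ∫ s, (y s + y (-s) - 2) ∂ν = 0 := by
    rw [integral_sub (hν.intg (by fun_prop)) (integrable_const _),
      integral_add (hν.intg yc) (hν.intg (by fun_prop)), k1, k2]
    norm_num
  rw [integral_eq_zero_iff_of_nonneg_ae (hν.lt.mono fun s hs => by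
    change 0 ≤ y s + y (-s) - 2
    rw [k4 s (abs_le.1 hs.le)]
    exact div_nonneg (sq_nonneg _) (y0 s).le) (hν.intg (by fun_prop))] at k5
  refine hν.pos.ne' (hν.mom.symm.trans (integral_eq_zero_of_ae ?_))
  filter_upwards [hν.lt, k5] with s hs k6
  have hs' := abs_le.1 hs.le
  have k7 : y s = 1 := by
    have : (y s - 1) ^ 2 / y s = 0 := (k4 s hs').symm.trans k6
    exact sub_eq_zero.1 (eq_zero_of_pow_eq_zero ((div_eq_zero_iff.1 this).resolve_right (y0 s).ne'))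
  have k8 : r s / r 0 = 1 := (Real.rpow_left_inj (div_pos (h.pos s) (h.pos 0)).le zero_le_one
    hi.ne').1 (k7.trans (Real.one_rpow i).symm)
  have k9 := h3 s hs'
  rw [k8, inv_one, ← k8, div_left_inj' (h.pos 0).ne', h2 s hs',
    h2 (-s) ⟨by linarith [hs'.2], by linarith [hs'.1]⟩, mul_neg, neg_sq] at k9
  have : s = 0 := (mul_eq_zero.1 (show ε * s = 0 by linarith)).resolve_left hε.ne'
  simp [this]

variable {E : Type*} [NormedAddCommGroup E] [InnerProductSpace ℝ E]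

/-- the star body with radial function `a` -/
def body (a : E → ℝ) : Set E := {x | ∃ (u : E) (c : ℝ), ‖u‖ = 1 ∧ 0 ≤ c ∧ c ≤ a u ∧ x = c • u}

theorem smul_mem_body {a : E → ℝ} (ha : ∀ u, 0 ≤ a u) {u : E} (hu : ‖u‖ = 1) {c : ℝ}
    (hc : 0 ≤ c) : c • u ∈ body a ↔ c ≤ a u := by
  refine ⟨?_, fun h => ⟨u, c, hu, hc, h, rfl⟩⟩
  rintro ⟨u', c', hu', hc', h, e⟩
  have h1 : c = c' := by
    have := congrArg norm e
    rwa [norm_smul, norm_smul, hu, hu', mul_one, mul_one, Real.norm_of_nonneg hc,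
      Real.norm_of_nonneg hc'] at this
  subst h1
  rcases hc.eq_or_lt with hz | hpos
  · rw [← hz]; exact ha u
  · rwa [smul_right_injective E hpos.ne' e]

theorem exists_polar [Nontrivial E] (z : E) : ∃ u : E, ‖u‖ = 1 ∧ z = ‖z‖ • u := by
  by_cases h : z = 0
  · obtain ⟨u, hu⟩ := exists_norm_eq E zero_le_one
    exact ⟨u, hu, by simp [h]⟩
  · exact ⟨dir z, norm_dir h, by rw [dir, smul_inv_smul₀ (norm_ne_zero_iff.2 h)]⟩

theorem body_star [Nontrivial E] [FiniteDimensional ℝ E] {a : E → ℝ} (hc : Continuous a)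
    (ha : ∀ u, 0 < a u) : IsStarBody (body a) ∧ (0 : E) ∈ interior (body a) ∧
      ∀ u, ‖u‖ = 1 → radial (body a) u = a u := by
  have h1 : ∀ u, ‖u‖ = 1 → radial (body a) u = a u := fun u hu =>
    radial_eq (ha u).le fun c hc => smul_mem_body (fun u => (ha u).le) hu hc
  obtain ⟨u₀, hu₀, hm⟩ := (isCompact_sphere (0 : E) 1).exists_isMinOn
    (NormedSpace.sphere_nonempty.2 zero_le_one) hc.continuousOn
  have h2 : ball (0 : E) (a u₀) ⊆ body a := fun z hz => by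
    obtain ⟨u, hu, e⟩ := exists_polar z
    exact ⟨u, _, hu, norm_nonneg z, (mem_ball_zero_iff.1 hz).le.trans
      (hm (mem_sphere_zero_iff_norm.2 hu)), e⟩
  refine ⟨⟨?_, h2 (mem_ball_self (ha _)), ?_, hc.continuousOn.congr fun u hu =>
    h1 u (mem_sphere_zero_iff_norm.1 hu)⟩, mem_interior.2 ⟨_, h2, isOpen_ball,
      mem_ball_self (ha _)⟩, h1⟩
  · have e : body a = (fun p : ℝ × E => (p.1 * a p.2) • p.2) '' (Icc 0 1 ×ˢ sphere 0 1) := by
      ext z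
      constructor
      · rintro ⟨u, c, hu, h0, h, rfl⟩
        exact ⟨(c / a u, u), ⟨⟨div_nonneg h0 (ha u).le, (div_le_one (ha u)).2 h⟩,
          mem_sphere_zero_iff_norm.2 hu⟩, by simp only [div_mul_cancel₀ _ (ha u).ne']⟩
      · rintro ⟨⟨t, u⟩, ⟨ht, hu⟩, rfl⟩
        exact ⟨u, _, mem_sphere_zero_iff_norm.1 hu, mul_nonneg ht.1 (ha u).le,
          mul_le_of_le_one_left (ha u).le ht.2, rfl⟩
    rw [e]
    exact (isCompact_Icc.prod (isCompact_sphere _ _)).image (by fun_prop)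
  · rintro _ ⟨u, c, hu, h0, h, rfl⟩ s t hs ht e
    refine ⟨u, t * c, hu, mul_nonneg ht h0, (mul_le_of_le_one_left h0 (by linarith)).trans h, ?_⟩
    rw [smul_zero, zero_add, smul_smul]

theorem geo_norm {e v : E} (he : ‖e‖ = 1) (hv : ‖v‖ = 1) (ε t : ℝ) :
    ‖ε • e + t • v‖ = nn ε t ⟪v, e⟫ := by
  rw [nn, ← Real.sqrt_sq (norm_nonneg _), norm_add_sq_real, norm_smul, norm_smul, he, hv,
    inner_smul_left, inner_smul_right, real_inner_comm]
  simp only [mul_one, Real.norm_eq_abs, sq_abs, conj_trivial, mul_assoc]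

theorem geo_sq {e v u : E} (he : ‖e‖ = 1) (hv : ‖v‖ = 1) {ε t : ℝ} (ht : 0 ≤ t)
    (h0 : nn ε t ⟪v, e⟫ ≠ 0) (h : ε • e + t • v = nn ε t ⟪v, e⟫ • u) :
    sq ⟪u, e⟫ = t * sq ⟪v, e⟫ / nn ε t ⟪v, e⟫ := by
  have h1 := congrArg (fun z => ⟪z, e⟫) h
  simp only [inner_add_left, inner_smul_left, conj_trivial, real_inner_self_eq_norm_sq, he] at h1
  have s1 : ⟪v, e⟫ ^ 2 ≤ 1 := (sq_le_one_iff_abs_le_one _).2
    (by simpa [he, hv] using abs_real_inner_le_norm v e)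
  have h2 : nn ε t ⟪v, e⟫ ^ 2 = ε ^ 2 + 2 * ε * t * ⟪v, e⟫ + t ^ 2 :=
    Real.sq_sqrt (by nlinarith [sq_nonneg (ε + t * ⟪v, e⟫), sq_nonneg t])
  rw [← Real.sqrt_sq (div_nonneg (mul_nonneg ht (sq_nn _)) (Real.sqrt_nonneg _) :
    0 ≤ t * sq ⟪v, e⟫ / nn ε t ⟪v, e⟫), sq]
  congr 1
  rw [div_pow, mul_pow, sq_sq s1, eq_div_iff (pow_ne_zero 2 h0), sub_mul, ← mul_pow,
    mul_comm ⟪u, e⟫, ← h1, h2]
  ring

variable [FiniteDimensional ℝ E] [MeasurableSpace E] [BorelSpace E]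

theorem exists_body (hE : 3 ≤ finrank ℝ E) (hi : 0 < i)
    (H : ∀ ν, Law ν (1 / ((finrank ℝ E : ℝ) - 1)) → ∃ ε₀, 0 < ε₀ ∧ ∀ ε, 0 < ε → ε < ε₀ →
      ∃ r, Sol ν i ε r) :
    ∃ ε₀, 0 < ε₀ ∧ ∀ x : E, x ≠ 0 → ‖x‖ < ε₀ → ∃ (L : Set E) (c : ℝ), IsStarBody L ∧
      (0 : E) ∈ interior L ∧ 0 < c ∧ interBody i L = (fun a => x + c • a) '' L ∧
      interRadial i L (‖x‖⁻¹ • x) = 1 ∧ ∀ (p : E) (R : ℝ), L ≠ closedBall p R := by
  obtain ⟨ν, ω, hω, hν, hT⟩ := exists_law hE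
  obtain ⟨ε₀, h0, H⟩ := H ν hν
  have := hν.prob
  have : Nontrivial E := Module.nontrivial_of_finrank_pos (R := ℝ) (by omega)
  refine ⟨min ε₀ 1, lt_min h0 one_pos, fun x hx hx' => ?_⟩
  have hε := norm_pos_iff.2 hx
  obtain ⟨r, hr⟩ := H _ hε (hx'.trans_le (min_le_left _ _))
  have he : ‖‖x‖⁻¹ • x‖ = 1 := norm_dir hx
  have ex : x = ‖x‖ • ‖x‖⁻¹ • x := (smul_inv_smul₀ hε.ne' x).symm
  generalize ‖x‖⁻¹ • x = e at he ex ⊢
  generalize ‖x‖ = ε at hε hr hx' ex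
  subst ex
  set w := 1 / ((finrank ℝ E : ℝ) - 1) * ω with hw
  have w0 : 0 < w := mul_pos hν.pos hω
  set c := w ^ i⁻¹ * r 0 with hc
  have c0 : 0 < c := mul_pos (Real.rpow_pos_of_pos w0 _) (hr.pos 0)
  let a : E → ℝ := fun v => r ⟪v, e⟫ / c
  have a0 : ∀ v, 0 < a v := fun v => div_pos (hr.pos _) c0
  have rc := hr.cont
  obtain ⟨b1, b2, b3⟩ := body_star (a := a) (by fun_prop) a0
  have b4 : ∀ u, ‖u‖ = 1 → interRadial i (body a) u = gg ν i r (sq ⟪u, e⟫) := fun u hu => by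
    have e1 := hT u e hu he (fun s => (r s / c) ^ i)
      ((rc.div_const c).rpow_const fun _ => Or.inr hi.le)
    have e2 : ∀ v : sphere (0 : (ℝ ∙ u)ᗮ) 1, radial (body a) ((v : (ℝ ∙ u)ᗮ) : E) =
        r ⟪((v : (ℝ ∙ u)ᗮ) : E), e⟫ / c := fun v => b3 _ (norm_eq_of_mem_sphere v)
    simp only [interRadial, e2]
    rw [e1, ← mul_assoc, ← hw, ← integral_const_mul, gg]
    refine integral_congr_ae (ae_of_all _ fun t => ?_)
    change w * (_ / c) ^ i = (_ / r 0) ^ i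
    rw [hc, mul_comm (w ^ i⁻¹), ← div_div, Real.div_rpow (div_pos (hr.pos _) (hr.pos 0)).le
      (Real.rpow_nonneg w0.le _), Real.rpow_inv_rpow w0.le hi.ne', mul_div_cancel₀ _ w0.ne']
  have g0 : gg ν i r 0 = 1 := by simp [gg, (hr.pos 0).ne']
  have g1 : gg ν i r (sq 1) = 1 := by simpa [sq] using g0
  have hs : ∀ v : E, ‖v‖ = 1 → ⟪v, e⟫ ∈ Icc (-1 : ℝ) 1 := fun v hv =>
    abs_le.1 (by simpa [he, hv] using abs_real_inner_le_norm v e)
  have b5 : ∀ (v : E) (t : ℝ), ‖v‖ = 1 → 0 ≤ t →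
      (ε • e + t • v ∈ interBody i (body a) ↔ t ≤ r ⟪v, e⟫) := fun v t hv ht => by
    obtain ⟨u, hu, e1⟩ := exists_polar (ε • e + t • v)
    rw [geo_norm he hv] at e1
    rw [← hr.iff _ (hs v hv) t ht, e1, smul_mem_interBody (by omega) i _ hu
      (show 0 ≤ nn ε t ⟪v, e⟫ from Real.sqrt_nonneg _), b4 u hu]
    by_cases h1 : nn ε t ⟪v, e⟫ = 0
    · rw [h1, div_zero, g0, ← b4 u hu]
      exact iff_of_true (interRadial_nonneg (by omega) _ _ _) zero_le_one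
    · rw [geo_sq he hv ht h1 e1]
  have b6 : interBody i (body a) = (fun z => ε • e + c • z) '' body a := by
    ext z
    constructor
    · intro hz
      obtain ⟨v, hv, e1⟩ := exists_polar (z - ε • e)
      have e2 : z = ε • e + ‖z - ε • e‖ • v := by rw [← e1, add_sub_cancel]
      refine ⟨(‖z - ε • e‖ / c) • v, ⟨v, _, hv, by positivity, div_le_div_of_nonneg_right
        ((b5 v _ hv (norm_nonneg _)).1 (e2 ▸ hz)) c0.le, rfl⟩, ?_⟩
      simp only [smul_smul, mul_div_cancel₀ _ c0.ne']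
      exact e2.symm
    · rintro ⟨_, ⟨v, t, hv, h1, h2, rfl⟩, rfl⟩
      simp only [smul_smul]
      exact (b5 v _ hv (mul_nonneg c0.le h1)).2 ((le_div_iff₀' c0).1 h2)
  refine ⟨body a, c, b1, b2, c0, b6, ?_, fun p R hB => ?_⟩
  · rw [b4 e he, real_inner_self_eq_norm_sq, he, one_pow, g1]
  have b7 : ∀ z, z ∈ interBody i (body a) ↔ ‖z - (ε • e + c • p)‖ ≤ c * R := fun z => by
    rw [b6, hB]
    constructor
    · rintro ⟨y, hy, rfl⟩
      rw [add_sub_add_left_eq_sub, ← smul_sub, norm_smul, Real.norm_of_nonneg c0.le]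
      exact mul_le_mul_of_nonneg_left (mem_closedBall_iff_norm.1 hy) c0.le
    · intro h
      refine ⟨c⁻¹ • (z - ε • e), mem_closedBall_iff_norm.2 ?_, by
        simp only [smul_inv_smul₀ c0.ne', add_sub_cancel]⟩
      rwa [← inv_smul_smul₀ c0.ne' p, ← smul_sub, norm_smul, norm_inv, Real.norm_of_nonneg c0.le,
        inv_mul_le_iff₀ c0, sub_sub]
  generalize ε • e + c • p = q at b7
  generalize c * R = ρ at b7
  have b8 : q = 0 := by
    obtain ⟨u, hu, e1⟩ := exists_polar q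
    have ρ0 : 0 ≤ ρ := (norm_nonneg _).trans ((b7 _).1 (b6 ▸ mem_image_of_mem _ b1.2.1))
    have h1 := (b7 _).1 (neg_mem_interBody i _ ((b7 (q + ρ • u)).2 (by
      rw [add_sub_cancel_left, norm_smul, hu, mul_one, Real.norm_of_nonneg ρ0])))
    rw [show -(q + ρ • u) - q = -((2 * ‖q‖ + ρ) • u) by rw [add_smul, mul_smul, ← e1]; module,
      norm_neg, norm_smul, hu, mul_one, Real.norm_of_nonneg (by positivity)] at h1
    exact norm_le_zero_iff.1 (by linarith)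
  have b9 : ∀ u : E, ‖u‖ = 1 → gg ν i r (sq ⟪u, e⟫) = ρ := fun u hu => by
    have h1 : ∀ t, 0 ≤ t → (t ≤ interRadial i (body a) u ↔ t ≤ ρ) := fun t ht => by
      rw [← smul_mem_interBody (by omega) i _ hu ht, b7, b8, sub_zero, norm_smul, hu, mul_one,
        Real.norm_of_nonneg ht]
    have h2 := interRadial_nonneg (by omega) i (body a) u
    have h3 := (h1 _ h2).1 le_rfl
    exact b4 u hu ▸ le_antisymm h3 ((h1 ρ (h2.trans h3)).2 le_rfl)
  refine hr.not_const hν hi hε (hx'.trans_le (min_le_right _ _)) fun Y hY => ?_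
  obtain ⟨k, hk⟩ : ∃ k, finrank ℝ E = k + 1 + 1 := ⟨finrank ℝ E - 2, by omega⟩
  have : Nontrivial (ℝ ∙ e)ᗮ :=
    Module.nontrivial_of_finrank_pos (R := ℝ) (by rw [finrank_perp hk he]; omega)
  obtain ⟨f, hf⟩ := exists_norm_eq (ℝ ∙ e)ᗮ zero_le_one
  have f0 : ⟪(f : E), e⟫ = 0 := Submodule.mem_orthogonal_singleton_iff_inner_left.1 f.2
  have y1 : Y ^ 2 ≤ 1 := pow_le_one₀ hY.1 hY.2
  have k1 := b9 (sq Y • e + Y • f) (by
    rw [geo_norm he (show ‖(f : E)‖ = 1 from hf), f0, nn, sq_sq y1]; simp)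
  have k2 := b9 e he
  rw [inner_add_left, inner_smul_left, inner_smul_left, f0] at k1
  rw [real_inner_self_eq_norm_sq, he] at k1 k2
  simp only [conj_trivial, one_pow, mul_one, mul_zero, add_zero] at k1 k2
  rw [show sq (sq Y) = Y by rw [sq, sq_sq y1, sub_sub_cancel, Real.sqrt_sq hY.1]] at k1
  rw [k1, ← k2, g1]

end Pool.Agent.Lib.MP_0a1ca9_gt.Nb
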