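import Pool.Agent.Lib.MP_0a1ca9_gt.Star

/-! The law of one coordinate on a great subsphere. -/

open MeasureTheory Set Metric Module
open scoped RealInnerProductSpace Pointwise

namespace Pool.Agent.Lib.MP_0a1ca9_gt.Nb

/-- the sine as a function of the cosine -/
noncomputable def sq (s : ℝ) : ℝ := √(1 - s ^ 2)

/-- what is used of the law of a coordinate -/
structure Law (ν : Measure ℝ) (m : ℝ) : Prop where
  prob : IsProbabilityMeasure ν
  lt : ∀ᵐ t ∂ν, |t| < 1
  symm : ν.map (fun t => -t) = ν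
  mom : ∫ t, t ^ 2 ∂ν = m
  pos : 0 < m
  low : ∃ p, 0 < p ∧ ∀ g : ℝ → ℝ, Continuous g → (∀ t ∈ Icc (-1 : ℝ) 1, 0 ≤ g t) →
    p * ∫ t in (0 : ℝ)..1 / 2, g t ≤ ∫ t, g t ∂ν

section

variable {F F' : Type*} [NormedAddCommGroup F] [InnerProductSpace ℝ F] [FiniteDimensional ℝ F]
  [MeasurableSpace F] [BorelSpace F] [NormedAddCommGroup F'] [InnerProductSpace ℝ F']
  [FiniteDimensional ℝ F'] [MeasurableSpace F'] [BorelSpace F']

/-- the image of the spherical measure under a linear form -/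
noncomputable def law (a : F) : Measure ℝ :=
  (volume : Measure F).toSphere.map fun v : sphere (0 : F) 1 => ⟪(v : F), a⟫

theorem law_meas (a : F) : Measurable fun v : sphere (0 : F) 1 => ⟪(v : F), a⟫ := by fun_prop

theorem law_int (a : F) {g : ℝ → ℝ} (hg : Continuous g) :
    ∫ t, g t ∂law a = ∫ v : sphere (0 : F) 1, g ⟪(v : F), a⟫ ∂(volume : Measure F).toSphere :=
  integral_map (law_meas a).aemeasurable hg.aestronglyMeasurable

theorem law_eq (h : finrank ℝ F = finrank ℝ F') {a : F} {a' : F'} (ha : ‖a‖ = ‖a'‖) :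
    law a = law a' := by
  obtain ⟨Ψ, rfl⟩ : ∃ Ψ : F ≃ₗᵢ[ℝ] F', Ψ a = a' := by
    obtain ⟨f⟩ := exists_iso h
    obtain ⟨g⟩ := exists_iso (E := F') rfl
    exact ⟨(f.symm.trans g).trans (Submodule.reflection (ℝ ∙ (g (f.symm a) - a'))ᗮ),
      Submodule.reflection_sub (by rw [g.norm_map, f.symm.norm_map, ha])⟩
  ext s hs
  rw [law, law, Measure.map_apply (law_meas _) hs, Measure.map_apply (law_meas _) hs,
    Measure.toSphere_apply' _ (law_meas _ hs), Measure.toSphere_apply' _ (law_meas _ hs), h,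
    ← Ψ.measurePreserving.measure_preimage_emb Ψ.toHomeomorph.measurableEmbedding]
  congr 2
  ext x
  constructor
  · rintro ⟨c, hc, _, ⟨v, hv, rfl⟩, rfl⟩
    exact ⟨c, hc, Ψ v, ⟨⟨Ψ v, by simp⟩, by simpa using hv, rfl⟩, (Ψ.map_smul c v).symm⟩
  · rintro ⟨c, hc, _, ⟨v, hv, rfl⟩, e⟩
    refine ⟨c, hc, Ψ.symm v, ⟨⟨Ψ.symm v, by simp⟩, ?_, rfl⟩, Ψ.injective ?_⟩
    · change ⟪Ψ.symm v, a⟫ ∈ s
      rwa [← Ψ.inner_map_map, Ψ.apply_symm_apply]
    · simpa using e

theorem law_smul (a : F) (c : ℝ) : law (c • a) = (law a).map fun t => t * c := by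
  rw [law, law, Measure.map_map (by fun_prop) (law_meas a)]
  congr 1
  funext v
  simp [inner_smul_right, mul_comm]

omit [FiniteDimensional ℝ F] [MeasurableSpace F] [BorelSpace F] in
theorem law_abs (v : sphere (0 : F) 1) {a : F} (ha : ‖a‖ = 1) : |⟪(v : F), a⟫| ≤ 1 := by
  simpa [ha] using abs_real_inner_le_norm (v : F) a

theorem law_lt (h : 2 ≤ finrank ℝ F) {a : F} (ha : ‖a‖ = 1) : ∀ᵐ t ∂law a, |t| < 1 := by
  have h0 : a ≠ 0 := by rintro rfl; simp at ha
  have hm : MeasurableSet {t : ℝ | ¬|t| < 1} := by measurability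
  have ht : (ℝ ∙ a : Submodule ℝ F) ≠ ⊤ := fun e => by
    have := finrank_span_singleton (K := ℝ) h0
    rw [e, finrank_top] at this
    omega
  rw [ae_iff, law, Measure.map_apply (law_meas _) hm, Measure.toSphere_apply' _ (law_meas _ hm)]
  refine mul_eq_zero_of_right _ (measure_mono_null ?_ (Measure.addHaar_submodule _ _ ht))
  rintro _ ⟨c, -, _, ⟨v, hv, rfl⟩, rfl⟩
  have h1 : |⟪a, (v : F)⟫ / (‖a‖ * ‖(v : F)‖)| = 1 := by
    rw [ha, norm_eq_of_mem_sphere v, mul_one, div_one, real_inner_comm]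
    exact le_antisymm (law_abs v ha) (not_lt.1 hv)
  obtain ⟨-, r, -, e⟩ := (abs_real_inner_div_norm_mul_norm_eq_one_iff _ _).1 h1
  exact Submodule.smul_mem _ _ (e ▸ Submodule.smul_mem _ _ (Submodule.mem_span_singleton_self a))

theorem law_intg {g : sphere (0 : F) 1 → ℝ} (hg : Continuous g) :
    Integrable g (volume : Measure F).toSphere :=
  hg.integrable_of_hasCompactSupport (HasCompactSupport.of_compactSpace _)

theorem law_mom {a : F} (ha : ‖a‖ = 1) :
    finrank ℝ F * ∫ t, t ^ 2 ∂law a = (volume : Measure F).toSphere.real univ := by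
  let b := stdOrthonormalBasis ℝ F
  have h1 : ∀ j, ∫ t, t ^ 2 ∂law a = ∫ v : sphere (0 : F) 1, ⟪(v : F), b j⟫ ^ 2
      ∂(volume : Measure F).toSphere := fun j => by
    rw [law_eq rfl (ha.trans (b.orthonormal.1 j).symm), law_int _ (by fun_prop)]
  have h2 := Finset.sum_congr (s₁ := Finset.univ) rfl fun j _ => h1 j
  rw [Finset.sum_const, Finset.card_fin, nsmul_eq_mul,
    ← integral_finsetSum _ fun j _ => law_intg (by fun_prop)] at h2
  rw [h2]
  simp only [b.sum_sq_inner_left, norm_eq_of_mem_sphere, one_pow, integral_const, smul_eq_mul,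
    mul_one]

theorem law_arc {g : ℝ → ℝ} (hg : Continuous g) (h0 : ∀ t ∈ Icc (-1 : ℝ) 1, 0 ≤ g t) {x y : ℝ}
    (hx : x ∈ Icc (1 / 2 : ℝ) 1) (hy : y ∈ Icc (-1 : ℝ) 0)
    (h : ∀ θ, |Real.sin θ * x + Real.cos θ * y| ≤ 1) :
    ∫ t in (0 : ℝ)..1 / 2, g t ≤
      2 * ∫ θ in (0 : ℝ)..Real.pi / 2, g (Real.sin θ * x + Real.cos θ * y) := by
  have h1 := intervalIntegral.integral_comp_mul_deriv (a := 0) (b := Real.pi / 2)
    (f := fun θ => Real.sin θ * x + Real.cos θ * y)
    (f' := fun θ => Real.cos θ * x + -Real.sin θ * y)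
    (fun θ _ => ((Real.hasDerivAt_sin θ).mul_const x).add ((Real.hasDerivAt_cos θ).mul_const y))
    (by fun_prop) hg
  simp only [Real.sin_zero, Real.cos_zero, Real.sin_pi_div_two, Real.cos_pi_div_two, zero_mul,
    one_mul, zero_add, add_zero] at h1
  calc _ ≤ ∫ t in y..x, g t := intervalIntegral.integral_mono_interval hy.2 (by norm_num) hx.1
        ((ae_restrict_iff' measurableSet_Ioc).2 (ae_of_all _ fun t ht =>
          h0 t ⟨hy.1.trans ht.1.le, ht.2.trans hx.2⟩)) (hg.intervalIntegrable _ _)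
    _ ≤ _ := by
      rw [← h1, ← intervalIntegral.integral_const_mul]
      refine intervalIntegral.integral_mono_on (by positivity)
        (Continuous.intervalIntegrable (by fun_prop) _ _)
        (Continuous.intervalIntegrable (by fun_prop) _ _) fun θ _ => ?_
      rw [mul_comm]
      refine mul_le_mul_of_nonneg_right ?_ (h0 _ (abs_le.1 (h θ)))
      nlinarith [Real.cos_le_one θ, Real.sin_le_one θ, Real.neg_one_le_sin θ, hx.1, hx.2, hy.1,
        hy.2, Real.neg_one_le_cos θ]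

theorem law_low {a a' : F} (ha : ‖a‖ = 1) (ha' : ‖a'‖ = 1) (h : ⟪a, a'⟫ = 0) :
    ∃ p, 0 < p ∧ ∀ g : ℝ → ℝ, Continuous g → (∀ t ∈ Icc (-1 : ℝ) 1, 0 ≤ g t) →
      p * ∫ t in (0 : ℝ)..1 / 2, g t ≤ ∫ t, g t ∂law a := by
  set σ := (volume : Measure F).toSphere
  have hn : ∀ θ, ‖Real.sin θ • a + Real.cos θ • a'‖ = 1 := fun θ => by
    rw [← sq_eq_sq₀ (norm_nonneg _) zero_le_one, norm_add_sq_real, inner_smul_left,
      inner_smul_right, h, norm_smul, norm_smul, ha, ha']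
    simp
  have hi : ∀ (v : sphere (0 : F) 1) (θ : ℝ), ⟪(v : F), Real.sin θ • a + Real.cos θ • a'⟫ =
      Real.sin θ * ⟪(v : F), a⟫ + Real.cos θ * ⟪(v : F), a'⟫ := fun v θ => by
    rw [inner_add_right, inner_smul_right, inner_smul_right]
  let U : Set (sphere (0 : F) 1) := {v | 1 / 2 < ⟪(v : F), a⟫ ∧ ⟪(v : F), a'⟫ < 0}
  have hc : ∀ b : F, Continuous fun v : sphere (0 : F) 1 => ⟪(v : F), b⟫ := fun b => by fun_prop
  have hU : IsOpen U :=
    (isOpen_lt continuous_const (hc a)).inter (isOpen_lt (hc a') continuous_const)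
  have h1 : 0 < σ.real U := by
    refine ENNReal.toReal_pos (hU.measure_ne_zero _ ⟨⟨(4 / 5 : ℝ) • a + (-3 / 5 : ℝ) • a', ?_⟩,
      ?_, ?_⟩) (measure_ne_top _ _)
    · rw [mem_sphere_zero_iff_norm, ← sq_eq_sq₀ (norm_nonneg _) zero_le_one, norm_add_sq_real,
        inner_smul_left, inner_smul_right, h, norm_smul, norm_smul, ha, ha']
      norm_num
    · simp only [inner_add_left, inner_smul_left, real_inner_self_eq_norm_sq, ha,
        real_inner_comm a a', h]
      norm_num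
    · simp only [inner_add_left, inner_smul_left, real_inner_self_eq_norm_sq, ha', h]
      norm_num
  refine ⟨σ.real U / Real.pi, by positivity, fun g hg h0 => ?_⟩
  let G : sphere (0 : F) 1 → ℝ := fun v => ∫ θ in (0 : ℝ)..Real.pi / 2,
    g (Real.sin θ * ⟪(v : F), a⟫ + Real.cos θ * ⟪(v : F), a'⟫)
  have h2 : ∫ v, G v ∂σ = Real.pi / 2 * ∫ t, g t ∂law a := by
    have e : ∀ θ, ∫ v : sphere (0 : F) 1,
        g (Real.sin θ * ⟪(v : F), a⟫ + Real.cos θ * ⟪(v : F), a'⟫) ∂σ = ∫ t, g t ∂law a :=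
      fun θ => by rw [law_eq rfl (ha.trans (hn θ).symm), law_int _ hg]; simp only [hi]; rfl
    rw [← intervalIntegral_integral_swap]
    · simp only [e, intervalIntegral.integral_const, sub_zero, smul_eq_mul]
    · have hc : Continuous fun p : ℝ × sphere (0 : F) 1 =>
          g (Real.sin p.1 * ⟪(p.2 : F), a⟫ + Real.cos p.1 * ⟪(p.2 : F), a'⟫) := by fun_prop
      have := (hc.continuousOn.integrableOn_compact (μ := volume.prod σ)
        (isCompact_uIcc.prod isCompact_univ : IsCompact (uIcc 0 (Real.pi / 2) ×ˢ univ))).mono_set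
        (prod_mono uIoc_subset_uIcc subset_rfl)
      rwa [IntegrableOn, ← Measure.prod_restrict, Measure.restrict_univ] at this
  have hG : Continuous G := by
    refine intervalIntegral.continuous_parametric_intervalIntegral_of_continuous' ?_ _ _
    change Continuous fun p : sphere (0 : F) 1 × ℝ =>
      g (Real.sin p.2 * ⟪(p.1 : F), a⟫ + Real.cos p.2 * ⟪(p.1 : F), a'⟫)
    fun_prop
  have h3 : σ.real U * ((∫ t in (0 : ℝ)..1 / 2, g t) / 2) ≤ ∫ v, G v ∂σ := by
    rw [mul_comm]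
    refine (setIntegral_ge_of_const_le_real hU.measurableSet (measure_ne_top _ _)
      (fun v hv => ?_) (law_intg hG).integrableOn).trans
      (setIntegral_le_integral (law_intg hG) (ae_of_all _ fun v => ?_))
    · rw [div_le_iff₀' two_pos]
      exact law_arc hg h0 ⟨hv.1.le, (abs_le.1 (law_abs v ha)).2⟩
        ⟨(abs_le.1 (law_abs v ha')).1, hv.2.le⟩ fun θ => hi v θ ▸ law_abs v (hn θ)
    · exact intervalIntegral.integral_nonneg (by positivity) fun θ _ =>
        h0 _ (abs_le.1 (hi v θ ▸ law_abs v (hn θ)))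
  rw [div_mul_eq_mul_div, div_le_iff₀ Real.pi_pos]
  linarith

end

theorem exists_law {E : Type*} [NormedAddCommGroup E] [InnerProductSpace ℝ E]
    [FiniteDimensional ℝ E] [MeasurableSpace E] [BorelSpace E] (hE : 3 ≤ finrank ℝ E) :
    ∃ (ν : Measure ℝ) (ω : ℝ), 0 < ω ∧ Law ν (1 / ((finrank ℝ E : ℝ) - 1)) ∧
      ∀ u e : E, ‖u‖ = 1 → ‖e‖ = 1 → ∀ h : ℝ → ℝ, Continuous h →
        ∫ v : sphere (0 : (ℝ ∙ u)ᗮ) 1, h ⟪((v : (ℝ ∙ u)ᗮ) : E), e⟫
          ∂(volume : Measure (ℝ ∙ u)ᗮ).toSphere = ω * ∫ t, h (t * sq ⟪u, e⟫) ∂ν := by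
  obtain ⟨k, hk⟩ : ∃ k, finrank ℝ E = k + 2 + 1 := ⟨finrank ℝ E - 3, by omega⟩
  let a : V (k + 2) := EuclideanSpace.single 0 1
  have ha : ‖a‖ = 1 := by simp [a]
  have hV : finrank ℝ (V (k + 2)) = k + 2 := finrank_euclideanSpace_fin
  set σ := (volume : Measure (V (k + 2))).toSphere with hσ
  have h0 : σ univ ≠ 0 := by
    rw [Ne, Measure.measure_univ_eq_zero]; exact Measure.toSphere_ne_zero _
  have h1 : 0 < σ.real univ := ENNReal.toReal_pos h0 (measure_ne_top _ _)
  have hi : ∀ g : ℝ → ℝ, σ.real univ * ∫ t, g t ∂((σ univ)⁻¹ • law a) = ∫ t, g t ∂law a :=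
    fun g => by
      rw [integral_smul_measure, ENNReal.toReal_inv, smul_eq_mul, ← measureReal_def,
        mul_inv_cancel_left₀ h1.ne']
  have hm : (0 : ℝ) < finrank ℝ E - 1 := by
    rw [hk]; push_cast; linarith [(Nat.cast_nonneg k : (0 : ℝ) ≤ k)]
  refine ⟨(σ univ)⁻¹ • law a, σ.real univ, h1, ⟨⟨?_⟩, Measure.ae_smul_measure
    (law_lt (by omega) ha) _, ?_, ?_, by positivity, ?_⟩, fun u e hu he h hh => ?_⟩
  · rw [Measure.smul_apply, law, Measure.map_apply (law_meas a) MeasurableSet.univ, preimage_univ,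
      smul_eq_mul, ENNReal.inv_mul_cancel h0 (measure_ne_top _ _)]
  · rw [Measure.map_smul]
    congr 1
    have := law_smul a (-1)
    rw [law_eq (a' := a) rfl (by simp)] at this
    simpa using this.symm
  · have := law_mom ha
    rw [← hi, hV, ← hσ, mul_left_comm] at this
    have h2 := mul_left_cancel₀ h1.ne' (this.trans (mul_one _).symm)
    rw [eq_div_iff hm.ne', hk]
    push_cast at h2 ⊢
    linarith
  · obtain ⟨p, hp, H⟩ := law_low (a' := EuclideanSpace.single 1 1) ha (by simp)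
      (by simp [a, EuclideanSpace.inner_single_left])
    refine ⟨p / σ.real univ, by positivity, fun g hg hg' => ?_⟩
    rw [div_mul_eq_mul_div, div_le_iff₀' h1, hi]
    exact H g hg hg'
  · let w : (ℝ ∙ u)ᗮ := ⟨e - ⟪u, e⟫ • u, Submodule.mem_orthogonal_singleton_iff_inner_right.2 (by
      rw [inner_sub_right, inner_smul_right, real_inner_self_eq_norm_sq, hu]; ring)⟩
    have hw : ‖w‖ = ‖sq ⟪u, e⟫ • a‖ := by
      rw [norm_smul, ha, mul_one, sq, Real.norm_of_nonneg (Real.sqrt_nonneg _),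
        ← Real.sqrt_sq (norm_nonneg w)]
      congr 1
      change ‖e - ⟪u, e⟫ • u‖ ^ 2 = _
      rw [norm_sub_sq_real, inner_smul_right, norm_smul, hu, he, real_inner_comm, mul_one,
        Real.norm_eq_abs, sq_abs]
      ring
    rw [hi, ← integral_map (φ := fun t => t * sq ⟪u, e⟫) (by fun_prop) hh.aestronglyMeasurable,
      ← law_smul, ← law_eq ((finrank_perp hk hu).trans hV.symm) hw, law_int _ hh]
    refine integral_congr_ae (ae_of_all _ fun v => congrArg h ?_)
    change _ = ⟪((v : (ℝ ∙ u)ᗮ) : E), e - ⟪u, e⟫ • u⟫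
    rw [inner_sub_right, inner_smul_right,
      Submodule.mem_orthogonal_singleton_iff_inner_left.1 (v : (ℝ ∙ u)ᗮ).2, mul_zero, sub_zero]

end Pool.Agent.Lib.MP_0a1ca9_gt.Nb
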