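import Pool.Agent.Lib.MP_0a1ca9_gt.TMain

open Metric Pool.Agent.Lib.MP_0a1ca9_gt

namespace Pool.Agent.Lib.MP_0a1ca9_gt.OldDimThree

/-- In dimension three, for every real order `1 < i < 2`, an origin-symmetric star body is
homothetic to its intersection body of order `i` if and only if it is a centred ball. -/
theorem result {E : Type*} [NormedAddCommGroup E] [InnerProductSpace ℝ E] [FiniteDimensional ℝ E]
    [MeasurableSpace E] [BorelSpace E] (hE : Module.finrank ℝ E = 3) (i : ℝ) (hi : 1 < i)
    (hi2 : i < 2) (L : Set E) (hL : IsStarBody L) (hsym : -L = L) :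
    Homothetic L (interBody i L) ↔ ∃ R : ℝ, 0 ≤ R ∧ L = closedBall 0 R :=
  main_three hE hi hi2 hL hsym

end Pool.Agent.Lib.MP_0a1ca9_gt.OldDimThree
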