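import Pool.Agent.Lib.MP_0a1ca9_gt.Star

open Metric Pool.Agent.Lib.MP_0a1ca9_gt

namespace Pool.Agent.Lib.MP_0a1ca9_gt.OldHalfRange

/-- For every real order `1 < i ≤ n / 2`, an origin-symmetric star body is homothetic to its
intersection body of order `i` if and only if it is a centred ball. -/
theorem result {E : Type*} [NormedAddCommGroup E] [InnerProductSpace ℝ E] [FiniteDimensional ℝ E]
    [MeasurableSpace E] [BorelSpace E] (i : ℝ) (hi : 1 < i)
    (hin : i ≤ (Module.finrank ℝ E : ℝ) / 2) (L : Set E) (hL : IsStarBody L) (hsym : -L = L) :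
    Homothetic L (interBody i L) ↔ ∃ R : ℝ, 0 ≤ R ∧ L = closedBall 0 R :=
  main_centred hi hin hL hsym

end Pool.Agent.Lib.MP_0a1ca9_gt.OldHalfRange
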