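import Pool.Agent.Lib.MP_0a1ca9_gt.CdMain

open Metric Pool.Agent.Lib.MP_0a1ca9_gt

namespace Pool.Agent.Lib.MP_0a1ca9_gt.OldRanges

/-- Let `1 < i < n - 1` be real, and an integer if `n / 2 < i < n - 2`. An origin-symmetric star
body is homothetic to its intersection body of order `i` if and only if it is a centred ball.
For `n = 3` and `n = 4` this covers every real `1 < i < n - 1`. -/
theorem result {E : Type*} [NormedAddCommGroup E] [InnerProductSpace ℝ E] [FiniteDimensional ℝ E]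
    [MeasurableSpace E] [BorelSpace E] (i : ℝ) (hi : 1 < i)
    (hi2 : i < (Module.finrank ℝ E : ℝ) - 1)
    (hw : (Module.finrank ℝ E : ℝ) / 2 < i → i < (Module.finrank ℝ E : ℝ) - 2 → ∃ j : ℕ, i = j)
    (L : Set E) (hL : IsStarBody L) (hsym : -L = L) :
    Homothetic L (interBody i L) ↔ ∃ R : ℝ, 0 ≤ R ∧ L = closedBall 0 R :=
  Cd.main_all hi hi2 (or_iff_not_imp_left.2 fun h1 => or_iff_not_imp_left.2 fun h2 =>
    hw (not_le.1 h1) (not_le.1 h2)) hL hsym

end Pool.Agent.Lib.MP_0a1ca9_gt.OldRanges
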