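import Pool.Agent.Lib.MP_0a1ca9_gt.Coord

/-! The one-dimensional rearrangement inequality behind Steiner symmetrization. -/

open MeasureTheory Set Metric Module
open scoped ENNReal

namespace Pool.Agent.Lib.MP_0a1ca9_gt

/-- The centred open interval with the same length. -/
def ctr (E : Set ℝ) : Set ℝ := Ioo (-((volume E).toReal / 2)) ((volume E).toReal / 2)

theorem measurableSet_ctr (E : Set ℝ) : MeasurableSet (ctr E) := measurableSet_Ioo

theorem chord_le {A B s : ℝ} (h0 : 0 ≤ s) (h1 : s ≤ 1) :
    |(1 - s) * A + s * B| ≤ (1 - s) * |A| + s * |B| := by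
  calc _ ≤ |(1 - s) * A| + |s * B| := abs_add_le _ _
    _ = _ := by rw [abs_mul, abs_mul, abs_of_nonneg h0, abs_of_nonneg (by linarith)]

theorem chord_ge {A B s : ℝ} (h : s ≤ 0 ∨ 1 ≤ s) :
    (1 - s) * |A| + s * |B| ≤ |(1 - s) * A + s * B| := by
  rcases h with h | h
  · have h1 : |(1 - s) * A| ≤ |(1 - s) * A + s * B| + |s * B| := by
      have := abs_sub ((1 - s) * A + s * B) (s * B)
      simpa using this
    rw [abs_mul, abs_mul, abs_of_nonpos h, abs_of_nonneg (by linarith)] at h1
    linarith
  · have h1 : |s * B| ≤ |(1 - s) * A + s * B| + |(1 - s) * A| := by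
      have := abs_sub ((1 - s) * A + s * B) ((1 - s) * A)
      simpa using this
    rw [abs_mul, abs_mul, abs_of_nonpos (by linarith : 1 - s ≤ 0),
      abs_of_nonneg (by linarith : 0 ≤ s)] at h1
    linarith

theorem one_dim {E : Set ℝ} (hE : MeasurableSet E) {R : ℝ} (hR : E ⊆ Ioo (-R) R) :
    ∃ m : ℝ, ∀ a c : ℝ,
      ∫⁻ t, (ctr E).indicator (fun t => ENNReal.ofReal |a + c * m + c * t|) t ≤
        ∫⁻ t, E.indicator (fun t => ENNReal.ofReal |a + c * t|) t := by
  set l := (volume E).toReal with hl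
  have hfin : volume E ≠ ∞ := ((measure_mono hR).trans_lt measure_Ioo_lt_top).ne
  have hl0 : 0 ≤ l := ENNReal.toReal_nonneg
  rcases hl0.eq_or_lt with h0 | hpos
  · refine ⟨0, fun a c => ?_⟩
    have : ctr E = ∅ := by rw [ctr, ← hl, ← h0]; simp
    simp [this]
  set m := (∫ t in E, t) / l with hm
  refine ⟨m, fun a c => ?_⟩
  set p := m - l / 2 with hp
  set J : Set ℝ := Ioo p (p + l) with hJ
  have hshift : ∫⁻ t, (ctr E).indicator (fun t => ENNReal.ofReal |a + c * m + c * t|) t =
      ∫⁻ t, J.indicator (fun t => ENNReal.ofReal |a + c * t|) t := by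
    rw [← lintegral_add_left_eq_self
      (fun t => J.indicator (fun t => ENNReal.ofReal |a + c * t|) t) m]
    refine lintegral_congr fun t => ?_
    have hiff : t ∈ ctr E ↔ m + t ∈ J := by
      simp only [ctr, ← hl, hJ, hp, mem_Ioo]
      constructor <;> rintro ⟨h1, h2⟩ <;> constructor <;> linarith
    by_cases ht : t ∈ ctr E
    · rw [indicator_of_mem ht, indicator_of_mem (hiff.1 ht)]; congr 2; ring
    · rw [indicator_of_notMem ht, indicator_of_notMem (fun h => ht (hiff.2 h))]
  have hint : ∀ g : ℝ → ℝ, Continuous g → IntegrableOn g E := fun g hg =>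
    (hg.continuousOn.integrableOn_compact isCompact_Icc (K := Icc (-R) R)).mono_set
      (hR.trans Ioo_subset_Icc_self)
  have hintJ : ∀ g : ℝ → ℝ, Continuous g → IntegrableOn g J := fun g hg =>
    (hg.continuousOn.integrableOn_compact isCompact_Icc (K := Icc p (p + l))).mono_set
      Ioo_subset_Icc_self
  have hφ : Continuous fun t : ℝ => |a + c * t| := by fun_prop
  rw [hshift, lintegral_indicator hE, lintegral_indicator measurableSet_Ioo,
    ← ofReal_integral_eq_lintegral_ofReal (hint _ hφ) (ae_of_all _ fun _ => abs_nonneg _),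
    ← ofReal_integral_eq_lintegral_ofReal (hintJ _ hφ) (ae_of_all _ fun _ => abs_nonneg _)]
  refine ENNReal.ofReal_le_ofReal ?_
  set A := a + c * p
  set B := a + c * (p + l)
  set L : ℝ → ℝ := fun t => (|A| - (|B| - |A|) / l * p) + (|B| - |A|) / l * t with hL
  have hLc : Continuous L := by fun_prop
  have hLE : ∫ t in E, L t = l * (|A| - (|B| - |A|) / l * p) + (|B| - |A|) / l * (m * l) := by
    simp only [hL]
    rw [integral_add (hint _ (by fun_prop)) (hint _ (by fun_prop)), integral_const_mul, hm,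
      div_mul_cancel₀ _ hpos.ne']
    simp [hl, measureReal_def]
  have hLJ : ∫ t in J, L t = l * (|A| - (|B| - |A|) / l * p) + (|B| - |A|) / l * (m * l) := by
    simp only [hL]
    rw [integral_add (hintJ _ (by fun_prop)) (hintJ _ (by fun_prop)), integral_const_mul]
    have h1 : ∫ t in J, t = m * l := by
      rw [hJ, ← integral_Ioc_eq_integral_Ioo, ← intervalIntegral.integral_of_le (by linarith),
        integral_id, hp]
      ring
    rw [h1]
    simp [hJ, hpos.le]
  have hkey : ∫ t in J, (|a + c * t| - L t) ≤ ∫ t in E, (|a + c * t| - L t) := by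
    rw [← integral_indicator hE, ← integral_indicator measurableSet_Ioo]
    refine integral_mono ((integrable_indicator_iff measurableSet_Ioo).2 (hintJ _ (hφ.sub hLc)))
      ((integrable_indicator_iff hE).2 (hint _ (hφ.sub hLc))) fun t => ?_
    have e1 : a + c * t = (1 - (t - p) / l) * A + (t - p) / l * B := by
      simp only [A, B]; field_simp; ring
    have e2 : L t = (1 - (t - p) / l) * |A| + (t - p) / l * |B| := by
      simp only [hL]; field_simp; ring
    by_cases htJ : t ∈ Ioo p (p + l)
    · rw [indicator_of_mem htJ]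
      by_cases htE : t ∈ E
      · rw [indicator_of_mem htE]
      · rw [indicator_of_notMem htE, e1, e2, sub_nonpos]
        refine chord_le (div_nonneg (by linarith [htJ.1]) hpos.le) ?_
        rw [div_le_one hpos]; linarith [htJ.2]
    · rw [indicator_of_notMem htJ]
      by_cases htE : t ∈ E
      · rw [indicator_of_mem htE, e1, e2, sub_nonneg]
        refine chord_ge ?_
        simp only [mem_Ioo, not_and_or, not_lt] at htJ
        rcases htJ with h | h
        · exact Or.inl (div_nonpos_of_nonpos_of_nonneg (by linarith) hpos.le)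
        · right; rw [le_div_iff₀ hpos]; linarith
      · rw [indicator_of_notMem htE]
  rw [integral_sub (hintJ _ hφ) (hintJ _ hLc), integral_sub (hint _ hφ) (hint _ hLc), hLE, hLJ]
    at hkey
  linarith

theorem mp_cons (k : ℕ) : MeasurePreserving
    (fun p : ℝ × (Fin k → ℝ) => (Fin.cons p.1 p.2 : Fin (k + 1) → ℝ))
    ((volume : Measure ℝ).prod volume) volume := by
  have h1 := (volume_preserving_piFinSuccAbove (fun _ : Fin (k + 1) => ℝ) 0).symm
  have h4 : (fun p : ℝ × (Fin k → ℝ) => (Fin.cons p.1 p.2 : Fin (k + 1) → ℝ)) =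
      ⇑(MeasurableEquiv.piFinSuccAbove (fun _ : Fin (k + 1) => ℝ) 0).symm := by
    ext p k
    refine Fin.cases ?_ (fun k => ?_) k <;>
      simp [MeasurableEquiv.piFinSuccAbove, Fin.insertNthEquiv]
  rw [h4]
  exact h1

/-- The integrand of the multi-dimensional inequality. -/
noncomputable def lin {k : ℕ} (E : Fin k → Set ℝ) (c : Fin k → ℝ) (a : ℝ) (z : Fin k → ℝ) : ℝ≥0∞ :=
  (Set.pi univ E).indicator (fun z => ENNReal.ofReal |a + ∑ j, c j * z j|) z

theorem measurable_lin {k : ℕ} {E : Fin k → Set ℝ} (hE : ∀ j, MeasurableSet (E j))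
    (c : Fin k → ℝ) : Measurable fun p : ℝ × (Fin k → ℝ) => lin E c p.1 p.2 := by
  have : (fun p : ℝ × (Fin k → ℝ) => lin E c p.1 p.2) =
      (Prod.snd ⁻¹' Set.pi univ E).indicator
        (fun p => ENNReal.ofReal |p.1 + ∑ j, c j * p.2 j|) := by
    ext p; simp only [lin, indicator, mem_preimage]; rfl
  rw [this]
  exact Measurable.indicator (by fun_prop) (measurable_snd (MeasurableSet.univ_pi hE))

theorem cons_mem_pi {k : ℕ} (E : Fin (k + 1) → Set ℝ) (t : ℝ) (y : Fin k → ℝ) :
    (Fin.cons t y : Fin (k + 1) → ℝ) ∈ Set.pi univ E ↔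
      t ∈ E 0 ∧ y ∈ Set.pi univ fun j => E j.succ := by
  simp [mem_pi, Fin.forall_fin_succ]

theorem lin_cons {k : ℕ} (E : Fin (k + 1) → Set ℝ) (c : Fin (k + 1) → ℝ) (a t : ℝ)
    (y : Fin k → ℝ) : lin E c a (Fin.cons t y) =
      (E 0).indicator (fun t => lin (fun j => E j.succ) (fun j => c j.succ) (a + c 0 * t) y) t := by
  by_cases ht : t ∈ E 0
  · by_cases hy : y ∈ Set.pi univ fun j => E j.succ
    · rw [lin, indicator_of_mem ((cons_mem_pi E t y).2 ⟨ht, hy⟩), indicator_of_mem ht, lin,
        indicator_of_mem hy]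
      simp [Fin.sum_univ_succ, add_assoc]
    · rw [lin, indicator_of_notMem (fun h => hy ((cons_mem_pi E t y).1 h).2), indicator_of_mem ht,
        lin, indicator_of_notMem hy]
  · rw [lin, indicator_of_notMem (fun h => ht ((cons_mem_pi E t y).1 h).1), indicator_of_notMem ht]

theorem lin_cons' {k : ℕ} (E : Fin (k + 1) → Set ℝ) (c : Fin (k + 1) → ℝ) (a t : ℝ)
    (y : Fin k → ℝ) : lin E c a (Fin.cons t y) =
      (Set.pi univ fun j => E j.succ).indicator (fun y => (E 0).indicator
        (fun t => ENNReal.ofReal |(a + ∑ j, c j.succ * y j) + c 0 * t|) t) y := by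
  rw [lin_cons]
  by_cases ht : t ∈ E 0
  · by_cases hy : y ∈ Set.pi univ fun j => E j.succ
    · rw [indicator_of_mem ht, lin, indicator_of_mem hy, indicator_of_mem hy, indicator_of_mem ht]
      congr 2; ring
    · rw [indicator_of_mem ht, lin, indicator_of_notMem hy, indicator_of_notMem hy]
  · by_cases hy : y ∈ Set.pi univ fun j => E j.succ
    · rw [indicator_of_notMem ht, indicator_of_mem hy, indicator_of_notMem ht]
    · rw [indicator_of_notMem ht, indicator_of_notMem hy]

theorem lintegral_cons {k : ℕ} {f : (Fin (k + 1) → ℝ) → ℝ≥0∞} (hf : Measurable f) :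
    ∫⁻ x, f x = ∫⁻ y : Fin k → ℝ, ∫⁻ t : ℝ, f (Fin.cons t y) := by
  rw [← (mp_cons k).lintegral_comp hf, lintegral_prod_symm]
  exact (hf.comp (mp_cons k).measurable).aemeasurable

theorem lintegral_cons' {k : ℕ} {f : (Fin (k + 1) → ℝ) → ℝ≥0∞} (hf : Measurable f) :
    ∫⁻ x, f x = ∫⁻ t : ℝ, ∫⁻ y : Fin k → ℝ, f (Fin.cons t y) := by
  rw [← (mp_cons k).lintegral_comp hf, lintegral_prod]
  exact (hf.comp (mp_cons k).measurable).aemeasurable

theorem multi_shift {R : ℝ} : ∀ (k : ℕ) (E : Fin k → Set ℝ) (_ : ∀ j, MeasurableSet (E j))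
    (_ : ∀ j, E j ⊆ Ioo (-R) R) (c : Fin k → ℝ), ∃ μ : ℝ, ∀ a : ℝ,
      ∫⁻ z, lin (fun j => ctr (E j)) c (a + μ) z ≤ ∫⁻ z, lin E c a z
  | 0, E, _, _, c => ⟨0, fun a => by simp [lin]⟩
  | k + 1, E, hE, hR, c => by
    obtain ⟨μ, hμ⟩ := multi_shift k (fun j => E j.succ) (fun j => hE _) (fun j => hR _)
      (fun j => c j.succ)
    obtain ⟨m, hm⟩ := one_dim (hE 0) (hR 0)
    refine ⟨μ + c 0 * m, fun a => ?_⟩
    let E' : Fin (k + 1) → Set ℝ := Fin.cons (E 0) fun j => ctr (E j.succ)
    have hE' : ∀ j, MeasurableSet (E' j) := by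
      intro j; refine Fin.cases (hE 0) (fun j => measurableSet_ctr _) j
    have hm1 : ∀ {G : Fin (k + 1) → Set ℝ} (_ : ∀ j, MeasurableSet (G j)) (b : ℝ),
        Measurable (lin G c b) := fun hG b =>
      (measurable_lin hG c).comp (measurable_const.prodMk measurable_id)
    calc ∫⁻ z, lin (fun j => ctr (E j)) c (a + (μ + c 0 * m)) z
        ≤ ∫⁻ z, lin E' c (a + μ) z := by
          rw [lintegral_cons (hm1 (fun j => measurableSet_ctr _) _), lintegral_cons (hm1 hE' _)]
          refine lintegral_mono fun y => ?_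
          simp only [lin_cons']
          by_cases hy : y ∈ Set.pi univ fun j : Fin k => ctr (E j.succ)
          · have hy' : y ∈ Set.pi univ fun j : Fin k => E' j.succ := hy
            simp only [indicator_of_mem hy, indicator_of_mem hy']
            have := hm (a + μ + ∑ j, c j.succ * y j) (c 0)
            refine le_trans (le_of_eq ?_) this
            refine lintegral_congr fun t => ?_
            congr 1; ext t; congr 2; ring
          · simp [indicator_of_notMem hy]
      _ ≤ ∫⁻ z, lin E c a z := by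
          rw [lintegral_cons' (hm1 hE' _), lintegral_cons' (hm1 hE _)]
          refine lintegral_mono fun t => ?_
          simp only [lin_cons]
          by_cases ht : t ∈ E 0
          · have ht' : t ∈ E' 0 := ht
            simp only [indicator_of_mem ht, indicator_of_mem ht']
            refine le_trans (le_of_eq ?_) (hμ (a + c 0 * t))
            refine lintegral_congr fun y => ?_
            congr 1; ring
          · have ht' : t ∉ E' 0 := ht
            simp [indicator_of_notMem ht']

theorem multi {R : ℝ} {k : ℕ} {E : Fin k → Set ℝ} (hE : ∀ j, MeasurableSet (E j))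
    (hR : ∀ j, E j ⊆ Ioo (-R) R) (c : Fin k → ℝ) :
    ∫⁻ z, lin (fun j => ctr (E j)) c 0 z ≤ ∫⁻ z, lin E c 0 z := by
  obtain ⟨μ, hμ⟩ := multi_shift k E hE hR c
  refine le_trans ?_ (hμ 0)
  rw [zero_add]
  have hm1 : ∀ b : ℝ, Measurable (lin (fun j => ctr (E j)) c b) := fun b =>
    (measurable_lin (fun j => measurableSet_ctr _) c).comp (measurable_const.prodMk measurable_id)
  have hneg := lintegral_neg_eq_self (μ := (volume : Measure (Fin k → ℝ)))
    (lin (fun j => ctr (E j)) c μ)
  have h2 : 2 * ∫⁻ z, lin (fun j => ctr (E j)) c 0 z ≤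
      2 * ∫⁻ z, lin (fun j => ctr (E j)) c μ z := by
    rw [← lintegral_const_mul _ (hm1 0)]
    conv_rhs => rw [two_mul]; arg 2; rw [← hneg]
    rw [← lintegral_add_left (hm1 μ)]
    refine lintegral_mono fun z => ?_
    simp only [lin]
    by_cases hz : z ∈ Set.pi univ fun j => ctr (E j)
    · have hz' : -z ∈ Set.pi univ fun j => ctr (E j) := by
        intro j hj
        have := hz j hj
        simp only [ctr, mem_Ioo, Pi.neg_apply] at this ⊢
        constructor <;> linarith [this.1, this.2]
      rw [indicator_of_mem hz, indicator_of_mem hz, indicator_of_mem hz',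
        ← ENNReal.ofReal_add (abs_nonneg _) (abs_nonneg _), ← ENNReal.ofReal_ofNat,
        ← ENNReal.ofReal_mul (by norm_num)]
      refine ENNReal.ofReal_le_ofReal ?_
      simp only [Pi.neg_apply, mul_neg, Finset.sum_neg_distrib, zero_add]
      have := abs_sub (μ + ∑ j, c j * z j) (μ + -∑ j, c j * z j)
      rw [show μ + ∑ j, c j * z j - (μ + -∑ j, c j * z j) = 2 * ∑ j, c j * z j by ring, abs_mul,
        abs_two] at this
      exact this
    · rw [indicator_of_notMem hz]; simp
  exact (ENNReal.mul_le_mul_iff_right (by norm_num) (by norm_num)).1 h2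

end Pool.Agent.Lib.MP_0a1ca9_gt
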