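import Mathlib

/-! Polar coordinates for lower Lebesgue integrals. -/

open MeasureTheory Set Metric Module
open scoped ENNReal

namespace Pool.Agent.Lib.MP_0a1ca9_gt

variable {F : Type*} [NormedAddCommGroup F] [NormedSpace ℝ F] [MeasurableSpace F] [BorelSpace F]
  [FiniteDimensional ℝ F]

theorem lintegral_polar [Nontrivial F] (μ : Measure F) [μ.IsAddHaarMeasure] {f : F → ℝ≥0∞}
    (hf : Measurable f) :
    ∫⁻ x, f x ∂μ = ∫⁻ u : sphere (0 : F) 1, ∫⁻ r in Ioi (0 : ℝ),
      ENNReal.ofReal (r ^ (finrank ℝ F - 1)) * f (r • (u : F)) ∂volume ∂μ.toSphere := by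
  have h1 : ∫⁻ x, f x ∂μ = ∫⁻ x : ({(0)}ᶜ : Set F), f x.1 ∂(μ.comap (↑)) := by
    rw [lintegral_subtype_comap (measurableSet_singleton _).compl f, restrict_compl_singleton]
  have hm : Measurable fun p : sphere (0 : F) 1 × Ioi (0 : ℝ) => f (p.2.1 • (p.1 : F)) := by
    apply hf.comp
    exact (measurable_subtype_coe.comp measurable_snd).smul
      (measurable_subtype_coe.comp measurable_fst)
  have h2 := μ.measurePreserving_homeomorphUnitSphereProd.lintegral_comp hm
  have h3 : ∀ x : ({(0)}ᶜ : Set F), ((homeomorphUnitSphereProd F x).2.1 : ℝ) •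
      ((homeomorphUnitSphereProd F x).1 : F) = x.1 := by
    intro x
    have hx : ‖x.1‖ ≠ 0 := norm_ne_zero_iff.2 x.2
    simp [smul_smul, hx]
  simp only [h3] at h2
  rw [h1, h2, lintegral_prod _ hm.aemeasurable]
  refine lintegral_congr fun u => ?_
  rw [Measure.volumeIoiPow, lintegral_withDensity_eq_lintegral_mul]
  · rw [← lintegral_subtype_comap measurableSet_Ioi]
    rfl
  · exact (measurable_subtype_coe.pow_const _).ennreal_ofReal
  · exact hm.comp (measurable_const.prodMk measurable_id)

/-- The direction of a vector. -/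
noncomputable def dir (x : F) : F := ‖x‖⁻¹ • x

omit [MeasurableSpace F] [BorelSpace F] [FiniteDimensional ℝ F] in
theorem dir_smul {u : F} (hu : ‖u‖ = 1) {r : ℝ} (hr : 0 < r) : dir (r • u) = u := by
  simp [dir, norm_smul, hu, smul_smul, abs_of_pos hr, hr.ne']

omit [MeasurableSpace F] [BorelSpace F] [FiniteDimensional ℝ F] in
theorem norm_dir {x : F} (hx : x ≠ 0) : ‖dir x‖ = 1 := by
  simp [dir, norm_smul, norm_ne_zero_iff.2 hx]

theorem measurable_dir : Measurable (dir : F → F) :=
  (measurable_norm.inv).smul measurable_id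

/-- The open star set with radial function `a`. -/
def St (a : F → ℝ) : Set F := {x | ‖x‖ < a (dir x)}

theorem measurableSet_St {a : F → ℝ} (ha : Measurable a) : MeasurableSet (St a) :=
  measurableSet_lt measurable_norm (ha.comp measurable_dir)

theorem lintegral_pow_Ioo (k : ℕ) (a : ℝ) (ha : 0 ≤ a) :
    ∫⁻ r in Ioo (0 : ℝ) a, ENNReal.ofReal (r ^ k) = ENNReal.ofReal (a ^ (k + 1) / (k + 1)) := by
  rw [restrict_Ioo_eq_restrict_Ioc,
    ← ofReal_integral_eq_lintegral_ofReal (intervalIntegral.intervalIntegrable_pow _).1,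
    ← intervalIntegral.integral_of_le ha]
  · simp
  · filter_upwards [ae_restrict_mem measurableSet_Ioc] with y hy
    exact pow_nonneg hy.1.le _

/-- Weighted integral over a star set. -/
theorem lintegral_St [Nontrivial F] (μ : Measure F) [μ.IsAddHaarMeasure] {a : F → ℝ}
    (ha : Measurable a) (ha0 : ∀ u, ‖u‖ = 1 → 0 ≤ a u) {h : F → ℝ≥0∞} (hh : Measurable h) (k : ℕ) :
    ∫⁻ x, (St a).indicator
        (fun x => h (dir x) * ENNReal.ofReal (‖x‖ ^ k / ‖x‖ ^ (finrank ℝ F - 1))) x ∂μ =
      ∫⁻ u : sphere (0 : F) 1, h u * ENNReal.ofReal (a u ^ (k + 1) / (k + 1)) ∂μ.toSphere := by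
  rw [lintegral_polar μ]
  · refine lintegral_congr fun u => ?_
    have hu : ‖(u : F)‖ = 1 := by simp
    rw [← lintegral_pow_Ioo k _ (ha0 u hu), ← lintegral_const_mul _ (by fun_prop),
      ← lintegral_indicator measurableSet_Ioi, ← lintegral_indicator measurableSet_Ioo]
    refine lintegral_congr fun r => ?_
    by_cases hr : 0 < r
    · have hn : ‖r • (u : F)‖ = r := by simp [norm_smul, hu, abs_of_pos hr]
      by_cases hra : r < a u
      · have : r • (u : F) ∈ St a := by simp only [St, mem_ofPred_eq, hn, dir_smul hu hr, hra]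
        rw [indicator_of_mem (by simpa using hr), indicator_of_mem this,
          indicator_of_mem (show r ∈ Ioo 0 (a u) from ⟨hr, hra⟩), hn, dir_smul hu hr,
          mul_left_comm, ← ENNReal.ofReal_mul (by positivity)]
        congr 2
        field_simp
      · have : r • (u : F) ∉ St a := by simp only [St, mem_ofPred_eq, hn, dir_smul hu hr, hra]; simp
        rw [indicator_of_mem (by simpa using hr), indicator_of_notMem this,
          indicator_of_notMem (fun h => hra h.2), mul_zero]
    · rw [indicator_of_notMem (by simpa using hr), indicator_of_notMem (fun h => hr h.1)]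
  · refine Measurable.indicator ?_ (measurableSet_St ha)
    exact (hh.comp measurable_dir).mul (by fun_prop)

/-- Volume of a star set. -/
theorem measure_St [Nontrivial F] (μ : Measure F) [μ.IsAddHaarMeasure] {a : F → ℝ}
    (ha : Measurable a) (ha0 : ∀ u, ‖u‖ = 1 → 0 ≤ a u) :
    μ (St a) = ∫⁻ u : sphere (0 : F) 1,
      ENNReal.ofReal (a u ^ finrank ℝ F / finrank ℝ F) ∂μ.toSphere := by
  have h := lintegral_St μ ha ha0 (h := fun _ => 1) measurable_const (finrank ℝ F - 1)
  have hpos : 0 < finrank ℝ F := finrank_pos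
  have h1 : finrank ℝ F - 1 + 1 = finrank ℝ F := by omega
  have h2 : ((finrank ℝ F - 1 : ℕ) : ℝ) + 1 = finrank ℝ F := by exact_mod_cast h1
  simp only [one_mul, h1, h2] at h
  rw [← h, ← lintegral_indicator_one (measurableSet_St ha)]
  refine lintegral_congr_ae ?_
  filter_upwards [compl_mem_ae_iff.2 (measure_singleton (0 : F))] with x hx
  have hx' : ‖x‖ ≠ 0 := norm_ne_zero_iff.2 hx
  by_cases hs : x ∈ St a
  · simp [indicator_of_mem hs, hx']
  · simp [indicator_of_notMem hs]

end Pool.Agent.Lib.MP_0a1ca9_gt
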