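import Pool.Agent.Lib.MP_0a1ca9_gt.Graph

/-! The spherical Radon transform: mean value identity and Busemann's intersection inequality. -/

open MeasureTheory Set Metric Module
open scoped ENNReal RealInnerProductSpace

namespace Pool.Agent.Lib.MP_0a1ca9_gt

variable {E : Type*} [NormedAddCommGroup E] [InnerProductSpace ℝ E] [FiniteDimensional ℝ E]
  [MeasurableSpace E] [BorelSpace E]

/-- The graph embedding as a linear map. -/
noncomputable def grf {d : ℕ} (w : V d) : V d →ₗ[ℝ] V (d + 1) where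
  toFun y := cns ⟪w, y⟫ y
  map_add' y z := by rw [inner_add_right, cns_add]
  map_smul' c y := by rw [inner_smul_right, cns_smul]; rfl

theorem normDet_grf {d : ℕ} (w : V d) : (grf w).normDet = jac w := by
  have h := (grf w).normDet_sq_eq_det_gram (EuclideanSpace.basisFun (Fin d) ℝ)
  have h2 : Matrix.gram ℝ (fun j => grf w (EuclideanSpace.basisFun (Fin d) ℝ j)) =
      1 + Matrix.replicateCol Unit w.ofLp * Matrix.replicateRow Unit w.ofLp := by
    ext j k
    rw [Matrix.gram_apply]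
    change ⟪cns _ _, cns _ _⟫ = _
    rw [inner_cns]
    by_cases hjk : j = k
    · subst hjk; simp [Matrix.mul_apply, EuclideanSpace.inner_single_right, add_comm]
    · simp [Matrix.mul_apply, EuclideanSpace.inner_single_right, hjk, Ne.symm hjk]
  rw [h2, Matrix.det_one_add_replicateCol_mul_replicateRow] at h
  have h3 : (grf w).normDet ^ 2 = 1 + ‖w‖ ^ 2 := by
    rw [EuclideanSpace.real_norm_sq_eq]
    simpa [dotProduct, sq] using h
  rw [jac, ← h3, Real.sqrt_sq (LinearMap.normDet_nonneg _)]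

omit [MeasurableSpace E] [BorelSpace E] [FiniteDimensional ℝ E] in
theorem finrank_perp {d : ℕ} (hE : finrank ℝ E = d + 1) {u : E} (hu : ‖u‖ = 1) :
    finrank ℝ (ℝ ∙ u)ᗮ = d := by
  have : Fact (finrank ℝ E = d + 1) := ⟨hE⟩
  exact Submodule.finrank_orthogonal_span_singleton (by rintro rfl; simp at hu)

omit [MeasurableSpace E] [BorelSpace E] in
theorem exists_iso {d : ℕ} (hE : finrank ℝ E = d) : Nonempty (V d ≃ₗᵢ[ℝ] E) :=
  ⟨((stdOrthonormalBasis ℝ E).reindex (finCongr hE)).repr.symm⟩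

/-- The normal direction of the graph of `w`. -/
noncomputable def nrm {d : ℕ} (Ψ : V (d + 1) ≃ₗᵢ[ℝ] E) (w : V d) : E := Ψ (dir (cns 1 (-w)))

omit [MeasurableSpace E] [BorelSpace E] [FiniteDimensional ℝ E] in
theorem norm_nrm {d : ℕ} (Ψ : V (d + 1) ≃ₗᵢ[ℝ] E) (w : V d) : ‖nrm Ψ w‖ = 1 := by
  rw [nrm, Ψ.norm_map, norm_dir]
  intro h
  simpa using congrArg (fun x : V (d + 1) => x 0) h

omit [MeasurableSpace E] [BorelSpace E] in
theorem exists_graph_map {d : ℕ} (Ψ : V (d + 1) ≃ₗᵢ[ℝ] E) (w : V d) :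
    ∃ (g : V d ≃ₗᵢ[ℝ] (ℝ ∙ nrm Ψ w)ᗮ) (T : V d →ₗ[ℝ] V d), |LinearMap.det T| = jac w ∧
      ∀ y, ((g (T y) : (ℝ ∙ nrm Ψ w)ᗮ) : E) = Ψ (cns ⟪w, y⟫ y) := by
  have hE : finrank ℝ E = d + 1 := by rw [← Ψ.toLinearEquiv.finrank_eq]; simp
  obtain ⟨g⟩ := exists_iso (finrank_perp hE (norm_nrm Ψ w))
  have hmem : ∀ y, (Ψ.toLinearIsometry.toLinearMap ∘ₗ grf w) y ∈ (ℝ ∙ nrm Ψ w)ᗮ := by
    intro y
    rw [Submodule.mem_orthogonal_singleton_iff_inner_right]
    change ⟪Ψ _, Ψ (cns _ _)⟫ = 0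
    rw [Ψ.inner_map_map, dir, inner_smul_left, inner_cns]
    simp
  let j := LinearMap.codRestrict _ _ hmem
  refine ⟨g, g.symm.toLinearIsometry.toLinearMap ∘ₗ j, ?_, fun y => ?_⟩
  · rw [← LinearMap.normDet_eq_abs_det, LinearMap.normDet_comp_of_finrank_eq _ _
      (by rw [finrank_perp hE (norm_nrm Ψ w)]; simp), LinearIsometry.normDet_eq_one,
      LinearMap.normDet_codRestrict, LinearMap.normDet_comp, normDet_grf, one_mul]
    have : (Ψ.toLinearIsometry.toLinearMap.domRestrict (grf w).range) =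
        (Ψ.toLinearIsometry.comp (grf w).range.subtypeₗᵢ).toLinearMap := rfl
    rw [this, LinearIsometry.normDet_eq_one, one_mul]
  · simp [j, grf]

theorem vol_section {d : ℕ} (Ψ : V (d + 1) ≃ₗᵢ[ℝ] E) (w : V d) {M : Set E} (hM : MeasurableSet M) :
    volume ((↑) ⁻¹' M : Set (ℝ ∙ nrm Ψ w)ᗮ) = ENNReal.ofReal (jac w) * volume (sec w (Ψ ⁻¹' M)) := by
  obtain ⟨g, T, hT, h⟩ := exists_graph_map Ψ w
  have hT0 : LinearMap.det T ≠ 0 := fun h0 => by
    rw [h0, abs_zero] at hT; exact (jac_pos w).ne hT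
  have hm : MeasurableSet ((↑) ⁻¹' M : Set (ℝ ∙ nrm Ψ w)ᗮ) := measurable_subtype_coe hM
  rw [← g.measurePreserving.measure_preimage hm.nullMeasurableSet, ← vol_preimage T hT0, hT]
  congr 2
  ext y
  simp only [mem_preimage, h, sec, mem_ofPred_eq]

theorem sec_ball {d : ℕ} (w : V d) : ∃ T : V d →ₗ[ℝ] V d, |LinearMap.det T| = jac w ∧
    sec w (ball 0 1) = T ⁻¹' ball 0 1 := by
  obtain ⟨g, T, hT, h⟩ := exists_graph_map (LinearIsometryEquiv.refl ℝ (V (d + 1))) w
  refine ⟨T, hT, ?_⟩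
  ext y
  have := h y
  simp only [LinearIsometryEquiv.coe_refl, id_eq] at this
  simp only [sec, mem_ofPred_eq, mem_preimage, mem_ball_zero_iff, ← this]
  rw [← g.norm_map (T y)]
  rfl

/-- The spherical Radon transform (unnormalized) of a nonnegative function. -/
noncomputable def rad (g : E → ℝ≥0∞) (u : E) : ℝ≥0∞ :=
  ∫⁻ v : sphere (0 : (ℝ ∙ u)ᗮ) 1, g ((v : (ℝ ∙ u)ᗮ) : E) ∂(volume : Measure (ℝ ∙ u)ᗮ).toSphere

theorem rad_St {m : ℕ} (Ψ : V (m + 2) ≃ₗᵢ[ℝ] E) (w : V (m + 1)) {a : E → ℝ} (ha : Measurable a)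
    (ha0 : ∀ u, ‖u‖ = 1 → 0 ≤ a u) :
    rad (fun v => ENNReal.ofReal (a v ^ (m + 1) / (m + 1 : ℕ))) (nrm Ψ w) =
      ENNReal.ofReal (jac w) * volume (sec w (Ψ ⁻¹' St a)) := by
  have hE : finrank ℝ E = m + 1 + 1 := by rw [← Ψ.toLinearEquiv.finrank_eq]; simp
  have hr := finrank_perp hE (norm_nrm Ψ w)
  have : Nontrivial (ℝ ∙ nrm Ψ w)ᗮ := Module.nontrivial_of_finrank_pos (R := ℝ) (by omega)
  have h := measure_St (volume : Measure (ℝ ∙ nrm Ψ w)ᗮ) (a := fun v => a v)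
    (ha.comp measurable_subtype_coe) (fun u hu => ha0 _ hu)
  rw [hr] at h
  rw [rad, ← h, ← vol_section Ψ w (measurableSet_St ha)]
  rfl

theorem sphere_even {d : ℕ} (Ψ : V (d + 1) ≃ₗᵢ[ℝ] E) : ∃ c : ℝ≥0∞, c ≠ ∞ ∧ ∀ h : E → ℝ≥0∞,
    Measurable h → (∀ u, h (-u) = h u) →
      ∫⁻ u : sphere (0 : E) 1, h u ∂(volume : Measure E).toSphere =
        c * ∫⁻ w : V d, h (nrm Ψ w) * ENNReal.ofReal (jac w ^ (d + 1))⁻¹ := by
  have hE : finrank ℝ E = d + 1 := by rw [← Ψ.toLinearEquiv.finrank_eq]; simp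
  have : Nontrivial E := Module.nontrivial_of_finrank_pos (R := ℝ) (by omega)
  set c := ∫⁻ s : ℝ, (Ioo (-1 : ℝ) 1).indicator (fun s => ENNReal.ofReal (|s| ^ d)) s with hc
  have hcfin : c ≠ ∞ := by
    refine ne_top_of_le_ne_top (b := volume (Ioo (-1 : ℝ) 1)) measure_Ioo_lt_top.ne ?_
    rw [← lintegral_indicator_one measurableSet_Ioo]
    refine lintegral_mono fun s => ?_
    by_cases hs : s ∈ Ioo (-1 : ℝ) 1
    · rw [indicator_of_mem hs, indicator_of_mem hs, Pi.one_apply, ENNReal.ofReal_le_one]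
      exact pow_le_one₀ (abs_nonneg _) (abs_lt.2 hs).le
    · simp [indicator_of_notMem hs]
  refine ⟨(d + 1 : ℕ) * c, by finiteness, fun h hh heven => ?_⟩
  have h1 := lintegral_St (volume : Measure E) (a := fun _ => 1) measurable_const
    (fun _ _ => zero_le_one) hh d
  have h2 := lintegral_ball_even (h := fun x => h (Ψ x)) (hh.comp Ψ.continuous.measurable)
    (fun u => by simp [heven])
  have hm : Measurable ((ball (0 : E) 1).indicator fun x => h (dir x)) :=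
    Measurable.indicator (hh.comp measurable_dir) measurableSet_ball
  have h3 : ∫⁻ x, (ball (0 : V (d + 1)) 1).indicator (fun x => h (Ψ (dir x))) x =
      ∫⁻ x, (ball (0 : E) 1).indicator (fun x => h (dir x)) x := by
    rw [← Ψ.measurePreserving.lintegral_comp hm]
    refine lintegral_congr fun x => ?_
    by_cases hx : x ∈ ball (0 : V (d + 1)) 1
    · rw [indicator_of_mem hx, indicator_of_mem (by simpa using hx)]; simp [dir]
    · rw [indicator_of_notMem hx, indicator_of_notMem (by simpa using hx)]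
  have h4 : ∫⁻ x, (ball (0 : E) 1).indicator (fun x => h (dir x)) x =
      ∫⁻ x, (St fun _ : E => (1 : ℝ)).indicator
        (fun x => h (dir x) * ENNReal.ofReal (‖x‖ ^ d / ‖x‖ ^ (finrank ℝ E - 1))) x := by
    refine lintegral_congr_ae ?_
    filter_upwards [compl_mem_ae_iff.2 (measure_singleton (0 : E))] with x hx
    have hx' : ‖x‖ ≠ 0 := norm_ne_zero_iff.2 hx
    have : (St fun _ : E => (1 : ℝ)) = ball 0 1 := by ext; simp [St]
    rw [this, hE]
    by_cases hs : x ∈ ball (0 : E) 1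
    · simp [indicator_of_mem hs, hx']
    · simp [indicator_of_notMem hs]
  have hm' : Measurable fun u : sphere (0 : E) 1 => h u := hh.comp measurable_subtype_coe
  rw [h3, h4, h1, lintegral_mul_const _ hm'] at h2
  rw [mul_assoc]
  change _ = _ * (c * ∫⁻ w : V d, h (Ψ (dir (cns 1 (-w)))) * _)
  rw [← h2, mul_left_comm, ← ENNReal.ofReal_natCast, ← ENNReal.ofReal_mul (by positivity)]
  simp only [one_pow, Nat.cast_add, Nat.cast_one]
  rw [mul_one_div_cancel (by positivity)]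
  simp

omit [FiniteDimensional ℝ E] [MeasurableSpace E] [BorelSpace E] in
theorem St_one : (St fun _ : E => (1 : ℝ)) = ball 0 1 := by ext; simp [St]

omit [FiniteDimensional ℝ E] [MeasurableSpace E] [BorelSpace E] in
theorem preimage_St_one {d : ℕ} (Ψ : V d ≃ₗᵢ[ℝ] E) :
    Ψ ⁻¹' (St fun _ : E => (1 : ℝ)) = ball 0 1 := by ext; simp [St]

theorem jac_sec_ball {d : ℕ} (w : V d) :
    volume (ball (0 : V d) 1) = ENNReal.ofReal (jac w) * volume (sec w (ball 0 1)) := by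
  obtain ⟨T, hT, h⟩ := sec_ball w
  have hT0 : LinearMap.det T ≠ 0 := fun h0 => by
    rw [h0, abs_zero] at hT; exact (jac_pos w).ne hT
  rw [h, ← hT, vol_preimage T hT0]

theorem lintegral_div_nat {α : Type*} [MeasurableSpace α] (μ : Measure α) (f : α → ℝ)
    {k : ℕ} (hk : k ≠ 0) :
    (k : ℝ≥0∞) * ∫⁻ x, ENNReal.ofReal (f x / k) ∂μ = ∫⁻ x, ENNReal.ofReal (f x) ∂μ := by
  rw [← lintegral_const_mul' _ _ (ENNReal.natCast_ne_top k)]
  refine lintegral_congr fun x => ?_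
  rw [← ENNReal.ofReal_natCast, ← ENNReal.ofReal_mul (by positivity), mul_div_cancel₀]
  exact_mod_cast hk

/-- The Radon transform preserves the mean. -/
theorem mean_identity {m : ℕ} (Ψ : V (m + 2) ≃ₗᵢ[ℝ] E) {a : E → ℝ} (ha : Measurable a)
    (ha0 : ∀ u, ‖u‖ = 1 → 0 ≤ a u) {φ : E → ℝ≥0∞} (hφ : Measurable φ) (heven : ∀ u, φ (-u) = φ u)
    (hsec : ∀ w, φ (nrm Ψ w) = ENNReal.ofReal (jac w) * volume (sec w (Ψ ⁻¹' St a))) :
    ∫⁻ u : sphere (0 : E) 1, φ u ∂(volume : Measure E).toSphere = volume (ball (0 : V (m + 1)) 1) *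
      ∫⁻ u : sphere (0 : E) 1, ENNReal.ofReal (a u ^ (m + 1)) ∂(volume : Measure E).toSphere := by
  have hE : finrank ℝ E = m + 2 := by rw [← Ψ.toLinearEquiv.finrank_eq]; simp
  have : Nontrivial E := Module.nontrivial_of_finrank_pos (R := ℝ) (by omega)
  obtain ⟨c, -, hc⟩ := sphere_even Ψ
  set c₁ := ∫⁻ z : V m, ENNReal.ofReal (jac z ^ (m + 1))⁻¹
  have key : ∀ {a : E → ℝ} (_ : Measurable a) (_ : ∀ u, ‖u‖ = 1 → 0 ≤ a u) {φ : E → ℝ≥0∞}
      (_ : Measurable φ) (_ : ∀ u, φ (-u) = φ u)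
      (_ : ∀ w, φ (nrm Ψ w) = ENNReal.ofReal (jac w) * volume (sec w (Ψ ⁻¹' St a))),
      ((m + 1 : ℕ) : ℝ≥0∞) * ∫⁻ u : sphere (0 : E) 1, φ u ∂(volume : Measure E).toSphere =
        c * c₁ * ∫⁻ u : sphere (0 : E) 1, ENNReal.ofReal (a u ^ (m + 1))
          ∂(volume : Measure E).toSphere := by
    intro a ha ha0 φ hφ heven hsec
    have hM : MeasurableSet (Ψ ⁻¹' St a) := Ψ.continuous.measurable (measurableSet_St ha)
    have h1 : ∀ w, φ (nrm Ψ w) * ENNReal.ofReal (jac w ^ (m + 1 + 1))⁻¹ =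
        ENNReal.ofReal (jac w ^ (m + 1))⁻¹ * volume (sec w (Ψ ⁻¹' St a)) := by
      intro w
      have := jac_pos w
      rw [hsec, mul_right_comm, ← ENNReal.ofReal_mul this.le]
      congr 2
      field_simp
      ring
    have h2 := lintegral_St (volume : Measure E) ha ha0 (h := fun _ => 1) measurable_const m
    have hm : Measurable ((St a).indicator fun x : E => ENNReal.ofReal ‖x‖⁻¹) :=
      Measurable.indicator (by fun_prop) (measurableSet_St ha)
    have h3 : ∫⁻ x, (Ψ ⁻¹' St a).indicator (fun x => ENNReal.ofReal ‖x‖⁻¹) x =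
        ∫⁻ x, (St a).indicator (fun x : E => ENNReal.ofReal ‖x‖⁻¹) x := by
      rw [← Ψ.measurePreserving.lintegral_comp hm]
      refine lintegral_congr fun x => ?_
      by_cases hx : Ψ x ∈ St a
      · rw [indicator_of_mem hx, indicator_of_mem (show x ∈ Ψ ⁻¹' St a from hx), Ψ.norm_map]
      · rw [indicator_of_notMem hx, indicator_of_notMem (show x ∉ Ψ ⁻¹' St a from hx)]
    have h4 : ∫⁻ x, (St a).indicator (fun x : E => ENNReal.ofReal ‖x‖⁻¹) x =
        ∫⁻ x, (St a).indicator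
          (fun x : E => 1 * ENNReal.ofReal (‖x‖ ^ m / ‖x‖ ^ (finrank ℝ E - 1))) x := by
      refine lintegral_congr_ae ?_
      filter_upwards [compl_mem_ae_iff.2 (measure_singleton (0 : E))] with x hx
      have hx' : ‖x‖ ≠ 0 := norm_ne_zero_iff.2 hx
      by_cases hs : x ∈ St a
      · rw [indicator_of_mem hs, indicator_of_mem hs, hE, one_mul]
        congr 1
        simp only [show m + 2 - 1 = m + 1 from rfl]
        field_simp
        ring
      · simp [indicator_of_notMem hs]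
    rw [hc φ hφ heven]
    simp only [h1]
    rw [mean_section hM, h3, h4, h2, ← lintegral_div_nat (volume : Measure E).toSphere
      (fun u => a u ^ (m + 1)) (Nat.succ_ne_zero m)]
    simp only [one_mul, Nat.succ_eq_add_one, Nat.cast_add, Nat.cast_one]
    ring
  have k1 := key ha ha0 hφ heven hsec
  have k2 := key (a := fun _ => 1) measurable_const (fun _ _ => zero_le_one)
    (φ := fun _ => volume (ball (0 : V (m + 1)) 1)) measurable_const (fun _ => rfl)
    (fun w => by rw [preimage_St_one]; exact jac_sec_ball w)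
  simp only [lintegral_const, one_pow, ENNReal.ofReal_one, one_mul] at k2
  have hs0 : (volume : Measure E).toSphere univ ≠ 0 := by
    rw [Ne, Measure.measure_univ_eq_zero]; exact Measure.toSphere_ne_zero _
  rw [← mul_assoc] at k2
  have k3 := (ENNReal.mul_left_inj hs0 (measure_ne_top _ _)).1 k2
  rw [← k3, mul_assoc] at k1
  exact (ENNReal.mul_right_inj (by simp) (by simp)).1 k1

/-- Busemann's intersection inequality. -/
theorem busemann {m : ℕ} (Ψ : V (m + 2) ≃ₗᵢ[ℝ] E) {a : E → ℝ} (ha : Measurable a)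
    (ha0 : ∀ u, ‖u‖ = 1 → 0 ≤ a u) {R : ℝ} (haR : ∀ u, ‖u‖ = 1 → a u ≤ R) (h0R : a 0 ≤ R)
    {φ : E → ℝ≥0∞} (hφ : Measurable φ) (heven : ∀ u, φ (-u) = φ u)
    (hsec : ∀ w, φ (nrm Ψ w) = ENNReal.ofReal (jac w) * volume (sec w (Ψ ⁻¹' St a))) :
    (volume : Measure E).toSphere univ ^ (m + 1) *
      ∫⁻ u : sphere (0 : E) 1, φ u ^ (m + 2) ∂(volume : Measure E).toSphere ≤
    volume (ball (0 : V (m + 1)) 1) ^ (m + 2) * (volume : Measure E).toSphere univ *
      (∫⁻ u : sphere (0 : E) 1, ENNReal.ofReal (a u ^ (m + 2))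
        ∂(volume : Measure E).toSphere) ^ (m + 1) := by
  have hE : finrank ℝ E = m + 2 := by rw [← Ψ.toLinearEquiv.finrank_eq]; simp
  have : Nontrivial E := Module.nontrivial_of_finrank_pos (R := ℝ) (by omega)
  obtain ⟨c, hcfin, hc⟩ := sphere_even Ψ
  set σ := (volume : Measure E).toSphere
  set κ := volume (ball (0 : V (m + 1)) 1)
  have hκ0 : κ ≠ 0 := (measure_ball_pos _ _ one_pos).ne'
  have hκ1 : κ ≠ ∞ := measure_ball_lt_top.ne
  have hs0 : σ univ ≠ 0 := by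
    rw [Ne, Measure.measure_univ_eq_zero]; exact Measure.toSphere_ne_zero _
  have hs1 : σ univ ≠ ∞ := measure_ne_top _ _
  have key1 : ∀ {a : E → ℝ} {φ : E → ℝ≥0∞} (_ : Measurable φ) (_ : ∀ u, φ (-u) = φ u)
      (_ : ∀ w, φ (nrm Ψ w) = ENNReal.ofReal (jac w) * volume (sec w (Ψ ⁻¹' St a))),
      ∫⁻ u : sphere (0 : E) 1, φ u ^ (m + 2) ∂σ =
        c * ∫⁻ w, volume (sec w (Ψ ⁻¹' St a)) ^ (m + 2) := by
    intro a φ hφ heven hsec
    rw [hc (fun u => φ u ^ (m + 2)) (hφ.pow_const _) (fun u => by rw [heven])]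
    congr 1
    refine lintegral_congr fun w => ?_
    have := jac_pos w
    rw [hsec, mul_pow, mul_right_comm, ← ENNReal.ofReal_pow this.le,
      ← ENNReal.ofReal_mul (by positivity), mul_inv_cancel₀ (by positivity)]
    simp
  have key2 : ∀ {a : E → ℝ} (_ : Measurable a) (_ : ∀ u, ‖u‖ = 1 → 0 ≤ a u),
      ((m + 2 : ℕ) : ℝ≥0∞) ^ (m + 1) * ∫⁻ w, sx (sec w (Ψ ⁻¹' St a)) =
        (∫⁻ u : sphere (0 : E) 1, ENNReal.ofReal (a u ^ (m + 2)) ∂σ) ^ (m + 1) := by
    intro a ha ha0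
    have hM : MeasurableSet (Ψ ⁻¹' St a) := Ψ.continuous.measurable (measurableSet_St ha)
    rw [← blaschke hM, Ψ.measurePreserving.measure_preimage (measurableSet_St ha).nullMeasurableSet,
      measure_St _ ha ha0, hE, ← mul_pow, lintegral_div_nat _ _ (Nat.succ_ne_zero _)]
  have hM : MeasurableSet (Ψ ⁻¹' St a) := Ψ.continuous.measurable (measurableSet_St ha)
  have hineq : sx (ball (0 : V (m + 1)) 1) * ∫⁻ w, volume (sec w (Ψ ⁻¹' St a)) ^ (m + 2) ≤
      (∫⁻ w, sx (sec w (Ψ ⁻¹' St a))) * κ ^ (m + 2) := by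
    rw [← lintegral_const_mul _ ((measurable_vol_sec hM).pow_const _),
      ← lintegral_mul_const' _ _ (by finiteness)]
    refine lintegral_mono fun w => random_simplex (measurableSet_sec w hM) (R := R) fun y hy => ?_
    have h1 : ‖Ψ (cns ⟪w, y⟫ y)‖ < a (dir (Ψ (cns ⟪w, y⟫ y))) := hy
    have h2 : a (dir (Ψ (cns ⟪w, y⟫ y))) ≤ R := by
      by_cases h0 : Ψ (cns ⟪w, y⟫ y) = 0
      · rw [h0, dir, smul_zero]; exact h0R
      · exact haR _ (norm_dir h0)
    have h3 : ‖y‖ ≤ ‖Ψ (cns ⟪w, y⟫ y)‖ := by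
      rw [Ψ.norm_map, norm_cns]
      exact Real.le_sqrt_of_sq_le (by nlinarith [sq_nonneg ⟪w, y⟫])
    rw [mem_ball_zero_iff]; linarith
  have heq : sx (ball (0 : V (m + 1)) 1) * ∫⁻ w : V (m + 1), volume (sec w (ball 0 1)) ^ (m + 2) =
      (∫⁻ w : V (m + 1), sx (sec w (ball 0 1))) * κ ^ (m + 2) := by
    rw [← lintegral_const_mul _ ((measurable_vol_sec measurableSet_ball).pow_const _),
      ← lintegral_mul_const' _ _ (by finiteness)]
    refine lintegral_congr fun w => ?_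
    obtain ⟨T, hT, h⟩ := sec_ball w
    have hT0 : LinearMap.det T ≠ 0 := fun h0 => by
      rw [h0, abs_zero] at hT; exact (jac_pos w).ne hT
    rw [h]
    exact sx_ellipsoid T hT0
  have e1 := key1 hφ heven hsec
  have e2 := key2 ha ha0
  have e3 := key1 (a := fun _ => 1) (φ := fun _ => κ) measurable_const (fun _ => rfl)
    (fun w => by rw [preimage_St_one]; exact jac_sec_ball w)
  have e4 := key2 (a := fun _ => 1) measurable_const (fun _ _ => zero_le_one)
  simp only [lintegral_const, one_pow, ENNReal.ofReal_one, one_mul, preimage_St_one] at e3 e4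
  set N := ((m + 2 : ℕ) : ℝ≥0∞) ^ (m + 1)
  set S := sx (ball (0 : V (m + 1)) 1)
  have hc0 : c ≠ 0 := by
    rintro rfl
    simp [hκ0, hs0] at e3
  have e5 : N * S * (κ ^ (m + 2) * σ univ) = c * κ ^ (m + 2) * σ univ ^ (m + 1) := by
    rw [e3, ← e4]
    calc _ = N * c * (S * ∫⁻ w : V (m + 1), volume (sec w (ball 0 1)) ^ (m + 2)) := by ring
      _ = _ := by rw [heq]; ring
  have hR0 : c * κ ^ (m + 2) * σ univ ^ (m + 1) ≠ 0 := by simp [hc0, hκ0, hs0]
  have hR1 : c * κ ^ (m + 2) * σ univ ^ (m + 1) ≠ ∞ := by finiteness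
  have hNS0 : N * S ≠ 0 := fun h => hR0 (by rw [← e5, h, zero_mul])
  have hNS1 : N * S ≠ ∞ := fun h => hR1 (by
    rw [← e5, h, ENNReal.top_mul (by simp [hκ0, hs0])])
  refine (ENNReal.mul_le_mul_iff_right hNS0 hNS1).1 ?_
  calc N * S * (σ univ ^ (m + 1) * ∫⁻ u : sphere (0 : E) 1, φ u ^ (m + 2) ∂σ)
      = N * c * σ univ ^ (m + 1) * (S * ∫⁻ w, volume (sec w (Ψ ⁻¹' St a)) ^ (m + 2)) := by
        rw [e1]; ring
    _ ≤ N * c * σ univ ^ (m + 1) * ((∫⁻ w, sx (sec w (Ψ ⁻¹' St a))) * κ ^ (m + 2)) := by gcongr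
    _ = (c * κ ^ (m + 2) * σ univ ^ (m + 1)) * (N * ∫⁻ w, sx (sec w (Ψ ⁻¹' St a))) := by ring
    _ = _ := by rw [← e5, e2]; ring

end Pool.Agent.Lib.MP_0a1ca9_gt
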