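import Pool.Agent.Lib.MP_0a1ca9_gt.Steiner

/-! Busemann's random simplex inequality. -/

open MeasureTheory Set Metric Module
open scoped ENNReal RealInnerProductSpace

namespace Pool.Agent.Lib.MP_0a1ca9_gt

variable {m : ℕ}

theorem inter_isometry {d : ℕ} (U : V d ≃ₗᵢ[ℝ] V d) {P Q : Set (V d)} (hP : MeasurableSet P)
    (hQ : MeasurableSet Q) (e : V d) : inter (U ⁻¹' P) (U ⁻¹' Q) e = inter P Q (U e) := by
  have hm : Measurable (P.indicator fun x => ∫⁻ t : ℝ, Q.indicator (1 : V d → ℝ≥0∞) (x + t • U e)) :=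
    Measurable.indicator ((measurable_inter_inner hQ).comp
      (measurable_id.prodMk measurable_const)) hP
  rw [inter, inter, ← U.measurePreserving.lintegral_comp hm]
  refine lintegral_congr fun x => ?_
  by_cases hx : U x ∈ P
  · rw [indicator_of_mem hx, indicator_of_mem (show x ∈ U ⁻¹' P from hx)]
    refine lintegral_congr fun t => ?_
    rw [← map_smul, ← map_add]
    rfl
  · rw [indicator_of_notMem hx, indicator_of_notMem (show x ∉ U ⁻¹' P from hx)]

theorem inter_average {P Q : Set (V (m + 1))} (hP : MeasurableSet P) (hQ : MeasurableSet Q) {R : ℝ}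
    (hPR : P ⊆ ball 0 R) (hQR : Q ⊆ ball 0 R) :
    volume P * volume Q ≤ ENNReal.ofReal ((2 * R) ^ m) *
      ∫⁻ e : sphere (0 : V (m + 1)) 1, inter P Q e ∂(volume : Measure (V (m + 1))).toSphere := by
  have hm : Measurable fun p : sphere (0 : V (m + 1)) 1 × V (m + 1) => P.indicator
      (fun x => ∫⁻ t : ℝ, Q.indicator (1 : V (m + 1) → ℝ≥0∞) (x + t • (p.1 : V (m + 1)))) p.2 := by
    have : (fun p : sphere (0 : V (m + 1)) 1 × V (m + 1) => P.indicator
        (fun x => ∫⁻ t : ℝ, Q.indicator (1 : V (m + 1) → ℝ≥0∞) (x + t • (p.1 : V (m + 1)))) p.2) =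
        (Prod.snd ⁻¹' P).indicator fun p : sphere (0 : V (m + 1)) 1 × V (m + 1) =>
          ∫⁻ t : ℝ, Q.indicator (1 : V (m + 1) → ℝ≥0∞) (p.2 + t • (p.1 : V (m + 1))) := by
      ext p; rfl
    rw [this]
    exact Measurable.indicator ((measurable_inter_inner hQ).comp
      (measurable_snd.prodMk (measurable_subtype_coe.comp measurable_fst))) (measurable_snd hP)
  simp only [inter]
  rw [lintegral_lintegral_swap hm.aemeasurable, ← lintegral_const_mul' _ _ ENNReal.ofReal_ne_top,
    ← lintegral_indicator_one hP, ← lintegral_mul_const _ (measurable_one.indicator hP)]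
  refine lintegral_mono fun x => ?_
  by_cases hx : x ∈ P
  · simp only [indicator_of_mem hx, Pi.one_apply, one_mul]
    have hf : Measurable fun z => Q.indicator (1 : V (m + 1) → ℝ≥0∞) (x + z) :=
      (measurable_one.indicator hQ).comp (by fun_prop)
    rw [← lintegral_indicator_one hQ,
      ← lintegral_add_left_eq_self (fun z => Q.indicator (1 : V (m + 1) → ℝ≥0∞) z) x,
      lintegral_polar _ hf, ← lintegral_const_mul' _ _ ENNReal.ofReal_ne_top]
    refine lintegral_mono fun e => ?_
    rw [← lintegral_const_mul' _ _ ENNReal.ofReal_ne_top, ← lintegral_indicator measurableSet_Ioi]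
    refine lintegral_mono fun t => ?_
    by_cases ht : t ∈ Ioi (0 : ℝ)
    · rw [indicator_of_mem ht]
      by_cases hq : x + t • (e : V (m + 1)) ∈ Q
      · gcongr
        have h1 : ‖t • (e : V (m + 1))‖ = t := by
          simp [norm_smul, abs_of_pos (show 0 < t from ht)]
        have h2 : ‖t • (e : V (m + 1))‖ ≤ ‖x + t • (e : V (m + 1))‖ + ‖x‖ := by
          simpa using norm_sub_le (x + t • (e : V (m + 1))) x
        have h3 := mem_ball_zero_iff.1 (hQR hq)
        have h4 := mem_ball_zero_iff.1 (hPR hx)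
        simp only [finrank_euclideanSpace, Fintype.card_fin, add_tsub_cancel_right]
        exact pow_le_pow_left₀ (le_of_lt ht) (by linarith) _
      · simp [indicator_of_notMem hq]
    · simp [indicator_of_notMem ht]
  · simp [indicator_of_notMem hx]

/-- Admissible competitors. -/
structure Adm (R r : ℝ) (A : Set (V (m + 1))) : Prop where
  meas : MeasurableSet A
  sub : A ⊆ ball 0 R
  vol : volume A = volume (ball (0 : V (m + 1)) r)

theorem Adm.vol_sdiff {R r : ℝ} {A : Set (V (m + 1))} (h : Adm R r A) :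
    volume (ball (0 : V (m + 1)) r \ A) = volume (A \ ball 0 r) := by
  have h1 := measure_sdiff_add_inter (μ := (volume : Measure (V (m + 1)))) A
    (measurableSet_ball (x := 0) (ε := r))
  have h2 := measure_sdiff_add_inter (μ := (volume : Measure (V (m + 1)))) (ball 0 r) h.meas
  rw [← h.vol, ← h1, inter_comm] at h2
  exact (ENNReal.add_left_inj ((measure_mono inter_subset_right).trans_lt
    measure_ball_lt_top).ne).1 h2

theorem Adm.ne_top {R r : ℝ} {A : Set (V (m + 1))} (h : Adm R r A) :
    volume (A \ ball 0 r) ≠ ∞ :=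
  ((measure_mono (sdiff_subset.trans h.sub)).trans_lt measure_ball_lt_top).ne

theorem improve {R r : ℝ} (hr : 0 < r) (hrR : r ≤ R) : ∃ κ : ℝ, 0 < κ ∧
    ∀ A : Set (V (m + 1)), Adm R r A → ∃ A' : Set (V (m + 1)), Adm R r A' ∧ sx A' ≤ sx A ∧
      (volume (A' \ ball 0 r)).toReal + κ * (volume (A \ ball 0 r)).toReal ^ 2 ≤
        (volume (A \ ball 0 r)).toReal := by
  have hR : 0 < R := hr.trans_le hrR
  set σ := (volume : Measure (V (m + 1))).toSphere
  set K : ℝ := 2 * ((2 * R) ^ m * (σ.real univ + 1)) with hK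
  have hK0 : 0 < K := by positivity
  refine ⟨1 / (2 * R * K), by positivity, fun A hA => ?_⟩
  set η := (volume (A \ ball 0 r)).toReal with hη
  have hη0 : 0 ≤ η := ENNReal.toReal_nonneg
  rcases hη0.eq_or_lt with h0 | hpos
  · exact ⟨A, hA, le_rfl, by rw [← hη, ← h0]; simp⟩
  have m2 := hA.meas.diff (measurableSet_ball (x := 0) (ε := r))
  have m3 := (measurableSet_ball (x := 0) (ε := r)).diff hA.meas
  have hex : ∃ e : sphere (0 : V (m + 1)) 1,
      ENNReal.ofReal (η ^ 2 / K) < inter (A \ ball 0 r) (ball 0 r \ A) e := by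
    by_contra hcon
    push Not at hcon
    have h1 := inter_average m2 m3 (sdiff_subset.trans hA.sub)
      (sdiff_subset.trans (ball_subset_ball hrR))
    have h2 : ∫⁻ e : sphere (0 : V (m + 1)) 1, inter (A \ ball 0 r) (ball 0 r \ A) e ∂σ ≤
        ENNReal.ofReal (η ^ 2 / K) * σ univ := by
      rw [← lintegral_const]; exact lintegral_mono hcon
    have h3 := h1.trans (mul_le_mul_right h2 _)
    rw [hA.vol_sdiff, ← ENNReal.ofReal_toReal hA.ne_top, ← hη,
      ← ENNReal.ofReal_toReal (measure_ne_top σ univ), ← ENNReal.ofReal_mul hη0,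
      ← ENNReal.ofReal_mul (by positivity), ← ENNReal.ofReal_mul (by positivity),
      ENNReal.ofReal_le_ofReal_iff (by positivity)] at h3
    have h4 : (2 * R) ^ m * (η ^ 2 / K * (σ univ).toReal) ≤ η ^ 2 / 2 := by
      have : (2 * R) ^ m * (η ^ 2 / K * (σ.real univ + 1)) = η ^ 2 / 2 := by
        rw [hK]; field_simp
      rw [← this]
      gcongr
      simp [measureReal_def]
    nlinarith
  obtain ⟨e, he⟩ := hex
  have hn : ‖(cns 1 0 : V (m + 1))‖ = ‖(e : V (m + 1))‖ := by
    have h1 := norm_cns_sq (m := m) 1 0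
    simp only [one_pow, norm_zero, ne_eq, OfNat.ofNat_ne_zero, not_false_eq_true, zero_pow,
      add_zero] at h1
    rw [norm_eq_of_mem_sphere e]
    nlinarith [norm_nonneg (cns 1 0 : V (m + 1))]
  let U := (ℝ ∙ ((cns 1 0 : V (m + 1)) - e))ᗮ.reflection
  have hU : U (cns 1 0) = e := Submodule.reflection_sub hn
  have hball : ∀ s : ℝ, U ⁻¹' ball (0 : V (m + 1)) s = ball 0 s := fun s => by
    ext x; simp
  have hUm : MeasurableSet (U ⁻¹' A) := U.continuous.measurable hA.meas
  have hUs : U ⁻¹' A ⊆ ball 0 R := by rw [← hball R]; exact preimage_mono hA.sub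
  refine ⟨stn (U ⁻¹' A), ⟨measurableSet_stn hUm, stn_subset hR.le hUs, ?_⟩, ?_, ?_⟩
  · rw [vol_stn hUm hR.le hUs, U.measurePreserving.measure_preimage hA.meas.nullMeasurableSet,
      hA.vol]
  · exact (sx_stn hUm hR.le hUs).trans (sx_isometry U hA.meas).le
  · have hg := gain hUm hr.le hrR hUs
    have e1 : U ⁻¹' A \ ball 0 r = U ⁻¹' (A \ ball 0 r) := by rw [preimage_sdiff, hball]
    have e2 : ball 0 r \ U ⁻¹' A = U ⁻¹' (ball 0 r \ A) := by rw [preimage_sdiff, hball]
    rw [e1, e2, inter_isometry U m2 m3, hU,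
      U.measurePreserving.measure_preimage m2.nullMeasurableSet] at hg
    have hfin : volume (stn (U ⁻¹' A) \ ball 0 r) ≠ ∞ :=
      ((measure_mono (sdiff_subset.trans (stn_subset hR.le hUs))).trans_lt measure_ball_lt_top).ne
    have hg2 := (add_le_add_right he.le _).trans hg
    rw [← ENNReal.ofReal_toReal hA.ne_top, ← hη, ← ENNReal.ofReal_toReal hfin,
      ← ENNReal.ofReal_mul (by positivity), ← ENNReal.ofReal_mul (by positivity),
      ← ENNReal.ofReal_add (by positivity) (by positivity),
      ENNReal.ofReal_le_ofReal_iff (by positivity)] at hg2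
    have : 1 / (2 * R * K) * η ^ 2 = (η ^ 2 / K) / (2 * R) := by field_simp
    rw [this, ← sub_nonneg]
    have h5 : η - ((volume (stn (U ⁻¹' A) \ ball 0 r)).toReal + η ^ 2 / K / (2 * R)) =
        (2 * R * η - (2 * R * (volume (stn (U ⁻¹' A) \ ball 0 r)).toReal + η ^ 2 / K)) /
          (2 * R) := by field_simp
    rw [h5]
    exact div_nonneg (by linarith) (by positivity)

theorem exists_close {R r : ℝ} (hr : 0 < r) (hrR : r ≤ R) {A : Set (V (m + 1))} (hA : Adm R r A)
    {ε : ℝ} (hε : 0 < ε) : ∃ A' : Set (V (m + 1)), Adm R r A' ∧ sx A' ≤ sx A ∧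
      (volume (A' \ ball 0 r)).toReal < ε := by
  obtain ⟨κ, hκ, himp⟩ := improve (m := m) hr hrR
  by_contra hcon
  push Not at hcon
  let S : Set ℝ := {η | ∃ A' : Set (V (m + 1)), Adm R r A' ∧ sx A' ≤ sx A ∧
    η = (volume (A' \ ball 0 r)).toReal}
  have hne : S.Nonempty := ⟨_, A, hA, le_rfl, rfl⟩
  have hlb : ∀ η ∈ S, ε ≤ η := by
    rintro η ⟨A', h1, h2, rfl⟩; exact hcon A' h1 h2
  have hbdd : BddBelow S := ⟨ε, hlb⟩
  obtain ⟨η, ⟨A', h1, h2, rfl⟩, hlt⟩ := exists_lt_of_csInf_lt hne
    (show sInf S < sInf S + κ * ε ^ 2 by have : 0 < κ * ε ^ 2 := by positivity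
                                         linarith)
  obtain ⟨A'', h3, h4, h5⟩ := himp A' h1
  have h6 : sInf S ≤ (volume (A'' \ ball 0 r)).toReal := csInf_le hbdd ⟨A'', h3, h4.trans h2, rfl⟩
  have h7 : κ * ε ^ 2 ≤ κ * (volume (A' \ ball 0 r)).toReal ^ 2 := by
    gcongr; exact hcon A' h1 h2
  linarith

theorem sx_ball_le {R r : ℝ} (hrR : r ≤ R) : ∃ C : ℝ≥0∞, C ≠ ∞ ∧ ∀ A : Set (V (m + 1)), Adm R r A →
    sx (ball (0 : V (m + 1)) r) ≤ sx A + C * volume (A \ ball 0 r) := by
  obtain ⟨M, hM⟩ := (isCompact_univ_pi fun _ : Fin (m + 1) =>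
    isCompact_closedBall (0 : V (m + 1)) R).exists_bound_of_continuousOn continuous_dt.continuousOn
  set b := volume (ball (0 : V (m + 1)) r)
  have hb : b ≠ ∞ := measure_ball_lt_top.ne
  refine ⟨ENNReal.ofReal M * ((m + 1 : ℕ) * b ^ m), by finiteness, fun A hA => ?_⟩
  have m3 := (measurableSet_ball (x := 0) (ε := r)).diff hA.meas
  let W : Fin (m + 1) → Set (Fin (m + 1) → V (m + 1)) := fun j =>
    Set.pi univ (Function.update (fun _ => ball 0 r) j (ball 0 r \ A))
  have hW : ∀ j, MeasurableSet (W j) := fun j => MeasurableSet.univ_pi fun i => by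
    by_cases h : i = j
    · subst h; simpa using m3
    · simp [Function.update_of_ne h, measurableSet_ball]
  have hWv : ∀ j, volume (W j) = b ^ m * volume (A \ ball 0 r) := fun j => by
    rw [volume_pi_pi, Fin.prod_univ_succAbove _ j]
    simp [hA.vol_sdiff, mul_comm, b]
  calc sx (ball (0 : V (m + 1)) r) ≤ ∫⁻ Y : Fin (m + 1) → V (m + 1),
        ((Set.pi univ fun _ => A).indicator (fun Y => ENNReal.ofReal |dt Y|) Y +
          ENNReal.ofReal M * ∑ j, (W j).indicator 1 Y) := by
        refine lintegral_mono fun Y => ?_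
        by_cases hY : Y ∈ Set.pi univ fun _ : Fin (m + 1) => ball (0 : V (m + 1)) r
        · by_cases hYA : Y ∈ Set.pi univ fun _ : Fin (m + 1) => A
          · simp only [indicator_of_mem hY, indicator_of_mem hYA]
            exact le_self_add
          · simp only [indicator_of_mem hY, indicator_of_notMem hYA, zero_add]
            simp only [mem_pi, mem_univ, forall_true_left, not_forall] at hYA
            obtain ⟨j, hj⟩ := hYA
            have hYW : Y ∈ W j := fun i _ => by
              by_cases h : i = j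
              · subst h; simpa using ⟨by simpa using hY i trivial, hj⟩
              · simpa [Function.update_of_ne h] using hY i trivial
            have h1 : (1 : ℝ≥0∞) ≤ ∑ j, (W j).indicator 1 Y := by
              refine le_trans ?_ (Finset.single_le_sum (f := fun j => (W j).indicator 1 Y)
                (fun _ _ => zero_le) (Finset.mem_univ j))
              simp [indicator_of_mem hYW]
            calc ENNReal.ofReal |dt Y| ≤ ENNReal.ofReal M * 1 := by
                  rw [mul_one]
                  exact ENNReal.ofReal_le_ofReal (hM Y fun i _ =>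
                    ball_subset_closedBall (ball_subset_ball hrR (hY i trivial)))
              _ ≤ _ := by gcongr
        · simp [indicator_of_notMem hY]
    _ = _ := by
        rw [lintegral_add_left (measurable_sx_integrand hA.meas),
          lintegral_const_mul' _ _ ENNReal.ofReal_ne_top,
          lintegral_finsetSum _ fun j _ => measurable_one.indicator (hW j)]
        simp only [lintegral_indicator_one (hW _), hWv]
        simp [sx, mul_assoc]

theorem sx_ball_le_adm {R r : ℝ} (hr : 0 < r) (hrR : r ≤ R) {A : Set (V (m + 1))}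
    (hA : Adm R r A) : sx (ball (0 : V (m + 1)) r) ≤ sx A := by
  obtain ⟨C, hC, h⟩ := sx_ball_le (m := m) hrR
  refine ENNReal.le_of_forall_pos_le_add fun ε hε _ => ?_
  obtain ⟨A', h1, h2, h3⟩ := exists_close hr hrR hA
    (show 0 < (ε : ℝ) / (C.toReal + 1) by positivity)
  refine (h A' h1).trans (add_le_add h2 ?_)
  rw [← ENNReal.ofReal_toReal hC, ← ENNReal.ofReal_toReal h1.ne_top,
    ← ENNReal.ofReal_mul ENNReal.toReal_nonneg, ← ENNReal.ofReal_coe_nnreal]
  refine ENNReal.ofReal_le_ofReal ?_
  rw [lt_div_iff₀ (by positivity)] at h3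
  nlinarith [ENNReal.toReal_nonneg (a := volume (A' \ ball 0 r))]

/-- Busemann's random simplex inequality. -/
theorem random_simplex {A : Set (V (m + 1))} (hA : MeasurableSet A) {R : ℝ} (h : A ⊆ ball 0 R) :
    sx (ball (0 : V (m + 1)) 1) * volume A ^ (m + 2) ≤
      sx A * volume (ball (0 : V (m + 1)) 1) ^ (m + 2) := by
  by_cases h0 : volume A = 0
  · simp [h0]
  have hfin : volume A ≠ ∞ := ((measure_mono h).trans_lt measure_ball_lt_top).ne
  set b := volume (ball (0 : V (m + 1)) 1) with hb
  have hb0 : 0 < b.toReal :=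
    ENNReal.toReal_pos (measure_ball_pos _ _ one_pos).ne' measure_ball_lt_top.ne
  have ha0 : 0 < (volume A).toReal := ENNReal.toReal_pos h0 hfin
  set r : ℝ := ((volume A).toReal / b.toReal) ^ ((m + 1 : ℕ) : ℝ)⁻¹ with hr
  have hr0 : 0 < r := by positivity
  have hrp : r ^ (m + 1) = (volume A).toReal / b.toReal :=
    Real.rpow_inv_natCast_pow (by positivity) (by omega)
  have hvol : volume A = volume (ball (0 : V (m + 1)) r) := by
    have hb' : b = ENNReal.ofReal b.toReal :=
      (ENNReal.ofReal_toReal (measure_ball_lt_top.ne : b ≠ ∞)).symm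
    rw [Measure.addHaar_ball_of_pos _ _ hr0, finrank_euclideanSpace, Fintype.card_fin, hrp, ← hb]
    conv_rhs => arg 2; rw [hb']
    rw [← ENNReal.ofReal_mul (by positivity), div_mul_cancel₀ _ hb0.ne',
      ENNReal.ofReal_toReal hfin]
  have hadm : Adm (max R r) r A := ⟨hA, h.trans (ball_subset_ball (le_max_left _ _)), hvol⟩
  have h1 := sx_ball_le_adm hr0 (le_max_right _ _) hadm
  let T : V (m + 1) →ₗ[ℝ] V (m + 1) := r⁻¹ • LinearMap.id
  have hT : LinearMap.det T ≠ 0 := by
    simp only [T, LinearMap.det_smul, LinearMap.det_id]; positivity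
  have hpre : T ⁻¹' ball (0 : V (m + 1)) 1 = ball 0 r := by
    ext x
    simp only [T, mem_preimage, mem_ball_zero_iff, LinearMap.smul_apply, LinearMap.id_apply,
      norm_smul, norm_inv, Real.norm_eq_abs, abs_of_pos hr0]
    rw [inv_mul_lt_iff₀ hr0, mul_one]
  have h2 := sx_ellipsoid T hT
  rw [hpre, ← hvol] at h2
  rw [h2]
  gcongr

end Pool.Agent.Lib.MP_0a1ca9_gt
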