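import Pool.Agent.Lib.MP_0a1ca9_gt.OneDim

/-! Steiner symmetrization of measurable sets. -/

open MeasureTheory Set Metric Module
open scoped ENNReal RealInnerProductSpace

namespace Pool.Agent.Lib.MP_0a1ca9_gt

variable {m : ℕ}

/-- The slice of a set along the first coordinate axis. -/
def slice (A : Set (V (m + 1))) (y : V m) : Set ℝ := {t | cns t y ∈ A}

/-- Drop the first coordinate. -/
noncomputable def tl (x : V (m + 1)) : V m := WithLp.toLp 2 fun k => x k.succ

@[simp] theorem tl_cns (t : ℝ) (y : V m) : tl (cns t y) = y := by ext k; simp [tl]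

theorem measurable_tl : Measurable (tl : V (m + 1) → V m) := by
  apply Continuous.measurable
  unfold tl
  fun_prop

theorem measurableSet_slice {A : Set (V (m + 1))} (hA : MeasurableSet A) (y : V m) :
    MeasurableSet (slice A y) :=
  (Measurable.cns measurable_id measurable_const) hA

theorem measurable_vol_slice {A : Set (V (m + 1))} (hA : MeasurableSet A) :
    Measurable fun y => volume (slice A y) :=
  measurable_measure_prodMk_right (s := (fun p : ℝ × V m => cns p.1 p.2) ⁻¹' A)
    (continuous_cns.measurable hA)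

theorem vol_eq_slice {A : Set (V (m + 1))} (hA : MeasurableSet A) :
    volume A = ∫⁻ y, volume (slice A y) := by
  rw [← lintegral_indicator_one hA, lintegral_cns (measurable_one.indicator hA)]
  refine lintegral_congr fun y => ?_
  rw [← lintegral_indicator_one (measurableSet_slice hA y)]
  rfl

/-- Steiner symmetral. -/
def stn (A : Set (V (m + 1))) : Set (V (m + 1)) := {x | x 0 ∈ ctr (slice A (tl x))}

theorem slice_stn (A : Set (V (m + 1))) (y : V m) : slice (stn A) y = ctr (slice A y) := by
  ext t; simp [slice, stn]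

theorem measurableSet_stn {A : Set (V (m + 1))} (hA : MeasurableSet A) : MeasurableSet (stn A) := by
  have h1 : Measurable fun x : V (m + 1) => (volume (slice A (tl x))).toReal / 2 :=
    (((measurable_vol_slice hA).comp measurable_tl).ennreal_toReal).div_const 2
  have h2 : Measurable fun x : V (m + 1) => x 0 := by fun_prop
  exact (measurableSet_lt h1.neg h2).inter (measurableSet_lt h2 h1)

theorem vol_ctr {E : Set ℝ} (hE : volume E ≠ ∞) : volume (ctr E) = volume E := by
  rw [ctr, Real.volume_Ioo, show (volume E).toReal / 2 - -((volume E).toReal / 2) =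
    (volume E).toReal by ring, ENNReal.ofReal_toReal hE]

theorem slice_ball {r : ℝ} (hr : 0 ≤ r) (y : V m) :
    slice (ball (0 : V (m + 1)) r) y = Ioo (-√(r ^ 2 - ‖y‖ ^ 2)) √(r ^ 2 - ‖y‖ ^ 2) := by
  ext t
  simp only [slice, mem_ofPred_eq, mem_ball_zero_iff, mem_Ioo]
  rw [← abs_lt, Real.lt_sqrt (abs_nonneg t), sq_abs, ← sq_lt_sq₀ (norm_nonneg _) hr, norm_cns_sq]
  constructor <;> intro h <;> linarith

theorem slice_mono {A B : Set (V (m + 1))} (h : A ⊆ B) (y : V m) : slice A y ⊆ slice B y :=
  fun _ ht => h ht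

theorem slice_subset {A : Set (V (m + 1))} {R : ℝ} (hR : 0 ≤ R) (h : A ⊆ ball 0 R) (y : V m) :
    slice A y ⊆ Ioo (-R) R := by
  refine (slice_mono h y).trans ?_
  rw [slice_ball hR]
  have : √(R ^ 2 - ‖y‖ ^ 2) ≤ R := by
    rw [Real.sqrt_le_left hR]; nlinarith [sq_nonneg ‖y‖]
  exact Ioo_subset_Ioo (by linarith) this

theorem ctr_subset {E : Set ℝ} {h : ℝ} (h0 : 0 ≤ h) (hE : volume E ≤ volume (Ioo (-h) h)) :
    ctr E ⊆ Ioo (-h) h := by
  have : (volume E).toReal ≤ 2 * h := by
    rw [Real.volume_Ioo] at hE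
    have := ENNReal.toReal_mono ENNReal.ofReal_ne_top hE
    rw [ENNReal.toReal_ofReal (by linarith)] at this
    linarith
  exact Ioo_subset_Ioo (by linarith) (by linarith)

theorem subset_ctr {E : Set ℝ} {h : ℝ} (hfin : volume E ≠ ∞) (hE : volume (Ioo (-h) h) ≤ volume E) :
    Ioo (-h) h ⊆ ctr E := by
  have : 2 * h ≤ (volume E).toReal := by
    rw [Real.volume_Ioo, ENNReal.ofReal_le_iff_le_toReal hfin] at hE
    linarith
  exact Ioo_subset_Ioo (by linarith) (by linarith)

theorem stn_subset {A : Set (V (m + 1))} {R : ℝ} (hR : 0 ≤ R) (h : A ⊆ ball 0 R) :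
    stn A ⊆ ball 0 R := by
  intro x hx
  obtain ⟨t, y, rfl⟩ := exists_cns x
  have h1 : t ∈ slice (stn A) y := hx
  rw [slice_stn] at h1
  have h2 := measure_mono (μ := (volume : Measure ℝ)) (slice_mono h y)
  rw [slice_ball hR] at h2
  have h3 := ctr_subset (Real.sqrt_nonneg _) h2 h1
  rw [← slice_ball hR] at h3
  exact h3

theorem vol_slice_ne_top {A : Set (V (m + 1))} {R : ℝ} (hR : 0 ≤ R) (h : A ⊆ ball 0 R) (y : V m) :
    volume (slice A y) ≠ ∞ :=
  ((measure_mono (slice_subset hR h y)).trans_lt measure_Ioo_lt_top).ne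

theorem vol_stn {A : Set (V (m + 1))} (hA : MeasurableSet A) {R : ℝ} (hR : 0 ≤ R)
    (h : A ⊆ ball 0 R) : volume (stn A) = volume A := by
  rw [vol_eq_slice (measurableSet_stn hA), vol_eq_slice hA]
  refine lintegral_congr fun y => ?_
  rw [slice_stn, vol_ctr (vol_slice_ne_top hR h y)]

theorem dt_cns (Y : Fin (m + 1) → V m) : ∃ c : Fin (m + 1) → ℝ, ∀ z : Fin (m + 1) → ℝ,
    dt (fun j => cns (z j) (Y j)) = ∑ j, c j * z j := by
  refine ⟨fun j => (-1) ^ (j : ℕ) * (Matrix.of fun a b => Y (j.succAbove a) b).det, fun z => ?_⟩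
  rw [dt, Matrix.det_succ_column_zero]
  refine Finset.sum_congr rfl fun j _ => ?_
  have : (Matrix.of fun j k => cns (z j) (Y j) k).submatrix j.succAbove Fin.succ =
      Matrix.of fun a b => Y (j.succAbove a) b := by
    ext a b; simp
  rw [this]
  simp only [Matrix.of_apply, cns_zero]
  ring

theorem sx_stn {A : Set (V (m + 1))} (hA : MeasurableSet A) {R : ℝ} (hR : 0 ≤ R)
    (h : A ⊆ ball 0 R) : sx (stn A) ≤ sx A := by
  rw [sx, sx, lintegral_cns_pi (measurable_sx_integrand (measurableSet_stn hA)),
    lintegral_cns_pi (measurable_sx_integrand hA)]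
  refine lintegral_mono fun Y => ?_
  obtain ⟨c, hc⟩ := dt_cns Y
  have key : ∀ (B : Set (V (m + 1))) (z : Fin (m + 1) → ℝ),
      (Set.pi univ fun _ : Fin (m + 1) => B).indicator (fun Y => ENNReal.ofReal |dt Y|)
        (fun j => cns (z j) (Y j)) = lin (fun j => slice B (Y j)) c 0 z := by
    intro B z
    by_cases hz : z ∈ Set.pi univ fun j => slice B (Y j)
    · rw [lin, indicator_of_mem hz, indicator_of_mem (show (fun j => cns (z j) (Y j)) ∈
        Set.pi univ fun _ : Fin (m + 1) => B from hz), hc, zero_add]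
    · rw [lin, indicator_of_notMem hz, indicator_of_notMem (show (fun j => cns (z j) (Y j)) ∉
        Set.pi univ fun _ : Fin (m + 1) => B from hz)]
  simp only [key, slice_stn]
  exact multi (fun j => measurableSet_slice hA _) (fun j => slice_subset hR h _) c

theorem gain_one {E : Set ℝ} (hE : MeasurableSet E) {R h : ℝ} (h0 : 0 ≤ h) (hER : E ⊆ Ioo (-R) R)
    (hJR : Ioo (-h) h ⊆ Ioo (-R) R) :
    ENNReal.ofReal (2 * R) * volume (ctr E \ Ioo (-h) h) +
      volume (E \ Ioo (-h) h) * volume (Ioo (-h) h \ E) ≤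
        ENNReal.ofReal (2 * R) * volume (E \ Ioo (-h) h) := by
  have hb : ∀ S : Set ℝ, S ⊆ Ioo (-R) R → volume S ≤ ENNReal.ofReal (2 * R) := fun S hS => by
    refine (measure_mono hS).trans (le_of_eq ?_)
    rw [Real.volume_Ioo]; congr 1; ring
  have hfin : volume E ≠ ∞ := ((hb E hER).trans_lt ENNReal.ofReal_lt_top).ne
  rcases le_total (volume E) (volume (Ioo (-h) h)) with hle | hle
  · rw [sdiff_eq_empty.2 (ctr_subset h0 hle), measure_empty, mul_zero, zero_add, mul_comm]
    gcongr
    exact hb _ (sdiff_subset.trans hJR)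
  · have h1 := measure_sdiff_add_inter (μ := (volume : Measure ℝ)) (ctr E)
      (measurableSet_Ioo (a := -h) (b := h))
    rw [inter_eq_right.2 (subset_ctr hfin hle), vol_ctr hfin,
      ← measure_sdiff_add_inter (Ioo (-h) h) hE,
      ← measure_sdiff_add_inter E (measurableSet_Ioo (a := -h) (b := h)), inter_comm,
      ← add_assoc] at h1
    have h2 : volume (E ∩ Ioo (-h) h) ≠ ∞ :=
      ((measure_mono inter_subset_left).trans_lt hfin.lt_top).ne
    have h3 := (ENNReal.add_left_inj h2).1 h1
    conv_rhs => rw [← h3, mul_add]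
    gcongr
    exact hb _ (sdiff_subset.trans hER)

/-- The line-interaction functional. -/
noncomputable def inter {d : ℕ} (P Q : Set (V d)) (e : V d) : ℝ≥0∞ :=
  ∫⁻ x, P.indicator (fun x => ∫⁻ t : ℝ, Q.indicator 1 (x + t • e)) x

theorem measurable_inter_inner {d : ℕ} {Q : Set (V d)} (hQ : MeasurableSet Q) :
    Measurable fun p : V d × V d => ∫⁻ t : ℝ, Q.indicator (1 : V d → ℝ≥0∞) (p.1 + t • p.2) := by
  have : Measurable fun q : (V d × V d) × ℝ =>
      Q.indicator (1 : V d → ℝ≥0∞) (q.1.1 + q.2 • q.1.2) :=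
    (measurable_one.indicator hQ).comp (by fun_prop)
  exact this.lintegral_prod_right'

theorem inter_axis {P Q : Set (V (m + 1))} (hP : MeasurableSet P) (hQ : MeasurableSet Q) :
    inter P Q (cns 1 0) = ∫⁻ y, volume (slice P y) * volume (slice Q y) := by
  rw [inter, lintegral_cns]
  · refine lintegral_congr fun y => ?_
    rw [← lintegral_indicator_one (measurableSet_slice hP y), ← lintegral_mul_const _
      (measurable_one.indicator (measurableSet_slice hP y))]
    refine lintegral_congr fun s => ?_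
    by_cases hs : s ∈ slice P y
    · rw [indicator_of_mem hs, indicator_of_mem (show cns s y ∈ P from hs), Pi.one_apply, one_mul,
        ← lintegral_indicator_one (measurableSet_slice hQ y),
        ← lintegral_add_left_eq_self (fun t => (slice Q y).indicator (1 : ℝ → ℝ≥0∞) t) s]
      refine lintegral_congr fun t => ?_
      rw [← cns_smul, ← cns_add, mul_one, smul_zero, add_zero]
      rfl
    · rw [indicator_of_notMem hs, indicator_of_notMem (show cns s y ∉ P from hs), zero_mul]
  · exact Measurable.indicator ((measurable_inter_inner hQ).comp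
      (measurable_id.prodMk measurable_const)) hP

theorem gain {A : Set (V (m + 1))} (hA : MeasurableSet A) {R r : ℝ} (hr : 0 ≤ r) (hrR : r ≤ R)
    (h : A ⊆ ball 0 R) :
    ENNReal.ofReal (2 * R) * volume (stn A \ ball 0 r) +
      inter (A \ ball 0 r) (ball 0 r \ A) (cns 1 0) ≤
        ENNReal.ofReal (2 * R) * volume (A \ ball 0 r) := by
  have hR : 0 ≤ R := hr.trans hrR
  have m1 := (measurableSet_stn hA).diff (measurableSet_ball (x := 0) (ε := r))
  have m2 := hA.diff (measurableSet_ball (x := 0) (ε := r))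
  have m3 := (measurableSet_ball (x := 0) (ε := r)).diff hA
  rw [inter_axis m2 m3, vol_eq_slice m1, vol_eq_slice m2,
    ← lintegral_const_mul _ (measurable_vol_slice m1),
    ← lintegral_const_mul _ (measurable_vol_slice m2),
    ← lintegral_add_left ((measurable_vol_slice m1).const_mul _)]
  refine lintegral_mono fun y => ?_
  have e : ∀ B C : Set (V (m + 1)), slice (B \ C) y = slice B y \ slice C y := fun _ _ => rfl
  simp only [e, slice_stn, slice_ball hr]
  refine gain_one (measurableSet_slice hA y) (Real.sqrt_nonneg _) (slice_subset hR h y) ?_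
  rw [← slice_ball hr]
  exact slice_subset hR (ball_subset_ball hrR) y

end Pool.Agent.Lib.MP_0a1ca9_gt
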