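import Pool.Agent.Lib.MP_0a1ca9_gt.TStrip
import Pool.Agent.Lib.MP_0a1ca9_gt.Star

/-! The equation in the charts attached to orthonormal frames. -/

open MeasureTheory Set Metric Module
open scoped ENNReal RealInnerProductSpace

namespace Pool.Agent.Lib.MP_0a1ca9_gt

variable {E : Type*} [NormedAddCommGroup E] [InnerProductSpace ℝ E]

/-- Orthonormal triples. -/
structure Frm (p r q : E) : Prop where
  np : ‖p‖ = 1
  nr : ‖r‖ = 1
  nq : ‖q‖ = 1
  pr : ⟪p, r⟫ = 0
  pq : ⟪p, q⟫ = 0
  rq : ⟪r, q⟫ = 0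

theorem Frm.symm {p r q : E} (h : Frm p r q) : Frm q r p :=
  ⟨h.nq, h.nr, h.np, by rw [real_inner_comm, h.rq], by rw [real_inner_comm, h.pq],
    by rw [real_inner_comm, h.pr]⟩

/-- The chart of a frame. -/
def XX (p r q : E) (w : ℝ × ℝ) : E := p + w.1 • r + w.2 • q

theorem Frm.norm_sq {p r q : E} (h : Frm p r q) (a b c : ℝ) :
    ‖a • p + b • r + c • q‖ ^ 2 = a ^ 2 + b ^ 2 + c ^ 2 := by
  have h1 := h.symm
  have k1 : ⟪p, p⟫ = 1 := by rw [real_inner_self_eq_norm_sq, h.np, one_pow]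
  have k2 : ⟪r, r⟫ = 1 := by rw [real_inner_self_eq_norm_sq, h.nr, one_pow]
  have k3 : ⟪q, q⟫ = 1 := by rw [real_inner_self_eq_norm_sq, h.nq, one_pow]
  rw [← real_inner_self_eq_norm_sq]
  simp only [inner_add_left, inner_add_right, real_inner_smul_left, real_inner_smul_right,
    k1, k2, k3, h.pr, h.pq, h.rq, h1.pr, h1.pq, h1.rq]
  ring

theorem Frm.norm_XX {p r q : E} (h : Frm p r q) (w : ℝ × ℝ) : ‖XX p r q w‖ = nn w := by
  have := h.norm_sq 1 w.1 w.2
  rw [one_smul, one_pow] at this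
  rw [nn, ← this, Real.sqrt_sq (norm_nonneg _), XX]

theorem Frm.XX_ne {p r q : E} (h : Frm p r q) (w : ℝ × ℝ) : XX p r q w ≠ 0 := by
  rw [← norm_ne_zero_iff, h.norm_XX]
  exact (nn_pos w).ne'

theorem norm_dir_sub {x y : E} (hx : x ≠ 0) (hy : y ≠ 0) :
    ‖dir x - dir y‖ ≤ 2 * ‖x - y‖ / ‖y‖ := by
  have h1 := norm_pos_iff.2 hx
  have h2 := norm_pos_iff.2 hy
  have e : dir x - dir y = ‖y‖⁻¹ • ((‖y‖ - ‖x‖) • dir x + (x - y)) := by
    have : ‖x‖ • dir x = x := by rw [dir, smul_smul, mul_inv_cancel₀ h1.ne', one_smul]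
    rw [sub_smul, this, sub_add_sub_cancel, smul_sub, smul_smul, inv_mul_cancel₀ h2.ne', one_smul]
    rfl
  rw [e, norm_smul, norm_inv, norm_norm, div_eq_inv_mul]
  refine mul_le_mul_of_nonneg_left ((norm_add_le _ _).trans ?_) (by positivity)
  rw [norm_smul, norm_dir hx, mul_one, Real.norm_eq_abs, abs_sub_comm]
  linarith [abs_norm_sub_norm_le x y]

theorem Frm.dir_XX_sub {p r q : E} (h : Frm p r q) (w w' : ℝ × ℝ) :
    ‖dir (XX p r q w) - dir (XX p r q w')‖ ≤ 2 * (|w.1 - w'.1| + |w.2 - w'.2|) / nn w' := by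
  refine (norm_dir_sub (h.XX_ne w) (h.XX_ne w')).trans ?_
  rw [h.norm_XX]
  have := nn_pos w'
  gcongr
  have e : XX p r q w - XX p r q w' = (w.1 - w'.1) • r + (w.2 - w'.2) • q := by
    simp only [XX]; module
  rw [e]
  refine (norm_add_le _ _).trans (le_of_eq ?_)
  rw [norm_smul, norm_smul, h.nr, h.nq, mul_one, mul_one, Real.norm_eq_abs, Real.norm_eq_abs]

theorem Frm.continuous_dir {p r q : E} (h : Frm p r q) : Continuous fun w => dir (XX p r q w) := by
  simp only [dir, h.norm_XX]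
  exact (continuous_nn.inv₀ fun w => (nn_pos w).ne').smul (by unfold XX; fun_prop)

theorem lintegral_abs_Ioo {b : ℝ} (hb : 0 ≤ b) :
    ∫⁻ y in Ioo (-b) b, ENNReal.ofReal |y| = ENNReal.ofReal (b ^ 2) := by
  have h1 : ∫ y in (-b)..b, |y| = b ^ 2 := by
    rw [← intervalIntegral.integral_add_adjacent_intervals (b := 0)
      (continuous_abs.intervalIntegrable _ _) (continuous_abs.intervalIntegrable _ _),
      intervalIntegral.integral_congr (a := -b) (g := fun y => -y) fun y hy => abs_of_nonpos (by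
        rw [uIcc_of_le (by linarith)] at hy; exact hy.2),
      intervalIntegral.integral_congr (a := 0) (g := fun y => y) fun y hy => abs_of_nonneg (by
        rw [uIcc_of_le hb] at hy; exact hy.1), intervalIntegral.integral_neg, integral_id,
      integral_id]
    ring
  rw [restrict_Ioo_eq_restrict_Ioc, ← ofReal_integral_eq_lintegral_ofReal
    (continuous_abs.intervalIntegrable _ _).1 (ae_of_all _ fun y => abs_nonneg y),
    ← intervalIntegral.integral_of_le (by linarith), h1]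

variable [FiniteDimensional ℝ E]

theorem exists_third (hE : finrank ℝ E = 3) (p q : E) :
    ∃ r : E, ‖r‖ = 1 ∧ ⟪p, r⟫ = 0 ∧ ⟪q, r⟫ = 0 := by
  classical
  have h1 : finrank ℝ (Submodule.span ℝ (({p, q} : Finset E) : Set E)) ≤ 2 :=
    (finrank_span_finset_le_card _).trans Finset.card_le_two
  have h2 := (Submodule.span ℝ (({p, q} : Finset E) : Set E)).finrank_add_finrank_orthogonal
  have : Nontrivial (Submodule.span ℝ (({p, q} : Finset E) : Set E))ᗮ :=
    Module.nontrivial_of_finrank_pos (R := ℝ) (by omega)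
  obtain ⟨r, hr⟩ := exists_norm_eq (Submodule.span ℝ (({p, q} : Finset E) : Set E))ᗮ zero_le_one
  exact ⟨r, hr, r.2 p (Submodule.subset_span (by simp)), r.2 q (Submodule.subset_span (by simp))⟩

omit [FiniteDimensional ℝ E] in
theorem Frm.exists_iso (hE : finrank ℝ E = 3) {p r q : E} (h : Frm p r q) :
    ∃ Ψ : V 3 ≃ₗᵢ[ℝ] E, ∀ t (y : V 2), Ψ (cns t y) = y 0 • p + y 1 • r + t • q := by
  have h1 := h.symm
  have ho : Orthonormal ℝ ![q, p, r] := by
    constructor
    · intro j; fin_cases j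
      exacts [h.nq, h.np, h.nr]
    · intro j k hjk
      fin_cases j <;> fin_cases k <;>
        first | exact absurd rfl hjk | exact h.pr | exact h.pq | exact h.rq | exact h1.pr |
          exact h1.pq | exact h1.rq
  let b := (basisOfOrthonormalOfCardEqFinrank ho (by simp [hE])).toOrthonormalBasis
    (by rw [coe_basisOfOrthonormalOfCardEqFinrank]; exact ho)
  have hb : (b : Fin 3 → E) = ![q, p, r] := by
    rw [Basis.coe_toOrthonormalBasis, coe_basisOfOrthonormalOfCardEqFinrank]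
  refine ⟨b.repr.symm, fun t y => ?_⟩
  rw [← b.sum_repr_symm, Fin.sum_univ_three, hb]
  change t • q + y 0 • p + y 1 • r = _
  abel

variable [MeasurableSpace E] [BorelSpace E]

theorem Frm.rad_eq (hE : finrank ℝ E = 3) {p r q : E} (h : Frm p r q) {a : E → ℝ}
    (ha : Measurable a) (h0 : ∀ u, 0 ≤ a u) (hev : ∀ u, a (-u) = a u) (x s : ℝ) :
    rad (fun v => ENNReal.ofReal (a v ^ (1 + 1) / (1 + 1 : ℕ))) (dir (XX q r p (s, x))) =
      ENNReal.ofReal (nn (s, x)) * ∫⁻ t, ENNReal.ofReal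
        (a (dir (XX p r q (t, -x - t * s))) ^ 2 / nn (t, -x - t * s) ^ 2) := by
  obtain ⟨Ψ, hΨ⟩ := h.exists_iso hE
  let w : V 2 := !₂[-x, -s]
  have h1 : nrm Ψ w = dir (XX q r p (s, x)) := by
    have : Ψ (cns 1 (-w)) = XX q r p (s, x) := by
      rw [hΨ]; simp [w, XX]; abel
    rw [nrm, ← this, dir, dir, map_smul, Ψ.norm_map]
  have h2 : jac w = nn (s, x) := by
    rw [jac, nn, EuclideanSpace.real_norm_sq_eq]
    simp [w]
    congr 1
    ring
  rw [← h1, rad_St Ψ w ha fun u _ => h0 u, h2]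
  congr 1
  have hS := measurableSet_St ha
  have mp : MeasurePreserving (fun y : ℝ × ℝ => (!₂[y.1, y.2] : V 2)) volume volume :=
    (PiLp.volume_preserving_toLp (Fin 2)).comp (volume_preserving_finTwoArrow ℝ).symm
  let F : ℝ × ℝ → ℝ≥0∞ := fun y =>
    (St a).indicator 1 (y.1 • p + y.2 • r + (-x * y.1 - s * y.2) • q)
  have hF : Measurable F := (measurable_one.indicator hS).comp (by fun_prop)
  have hsec := measurableSet_sec w (Ψ.continuous.measurable hS)
  have h3 : volume (sec w (Ψ ⁻¹' St a)) = ∫⁻ y, F y := by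
    rw [← lintegral_indicator_one hsec, ← mp.lintegral_comp (measurable_one.indicator hsec)]
    refine lintegral_congr fun y => ?_
    have : Ψ (cns ⟪w, !₂[y.1, y.2]⟫ !₂[y.1, y.2]) =
        y.1 • p + y.2 • r + (-x * y.1 - s * y.2) • q := by
      rw [hΨ]
      simp [w, PiLp.inner_apply, mul_comm, sub_eq_add_neg]
    simp only [F]
    rw [← this]
    rfl
  have hm : Measurable fun y : ℝ × ℝ => ENNReal.ofReal |y.1| * F (y.1, y.1 * y.2) :=
    Measurable.mul (by fun_prop) (hF.comp (by fun_prop))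
  have h4 : ∫⁻ y, F y = ∫⁻ y, ∫⁻ t, ENNReal.ofReal |y| * F (y, y * t) := by
    rw [Measure.volume_eq_prod, lintegral_prod _ hF.aemeasurable]
    refine lintegral_congr_ae ?_
    filter_upwards [compl_mem_ae_iff.2 (measure_singleton (0 : ℝ))] with y hy
    rw [lintegral_scale volume (f := fun t => F (y, t)) (hF.comp (by fun_prop)) hy,
      lintegral_const_mul' _ _ ENNReal.ofReal_ne_top]
    simp
  rw [h3, h4, lintegral_lintegral_swap hm.aemeasurable]
  refine lintegral_congr fun t => ?_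
  have hn := nn_pos (t, -x - t * s)
  rw [← div_pow, ← lintegral_abs_Ioo (div_nonneg (h0 _) hn.le),
    ← lintegral_indicator measurableSet_Ioo]
  refine lintegral_congr_ae ?_
  filter_upwards [compl_mem_ae_iff.2 (measure_singleton (0 : ℝ))] with y hy
  have hy' : y ≠ 0 := hy
  have e1 : y • p + (y * t) • r + (-x * y - s * (y * t)) • q = y • XX p r q (t, -x - t * s) := by
    simp only [XX]; module
  have e2 : a (dir (y • XX p r q (t, -x - t * s))) = a (dir (XX p r q (t, -x - t * s))) := by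
    rcases lt_or_gt_of_ne hy' with k | k
    · rw [← hev]
      congr 1
      simp only [dir, norm_smul, Real.norm_eq_abs, abs_of_neg k, smul_smul, ← neg_smul, h.norm_XX]
      congr 1
      field_simp
    · congr 1
      simp only [dir, norm_smul, Real.norm_eq_abs, abs_of_pos k, smul_smul, h.norm_XX]
      congr 1
      field_simp
  have e3 : y • XX p r q (t, -x - t * s) ∈ St a ↔ y ∈ Ioo
      (-(a (dir (XX p r q (t, -x - t * s))) / nn (t, -x - t * s)))
      (a (dir (XX p r q (t, -x - t * s))) / nn (t, -x - t * s)) := by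
    rw [St, mem_ofPred_eq, e2, norm_smul, h.norm_XX, mem_Ioo, ← abs_lt, lt_div_iff₀ hn,
      Real.norm_eq_abs]
  simp only [F]
  rw [e1]
  by_cases k : y • XX p r q (t, -x - t * s) ∈ St a
  · rw [indicator_of_mem k, indicator_of_mem (e3.1 k), Pi.one_apply, mul_one]
  · rw [indicator_of_notMem k, indicator_of_notMem fun k' => k (e3.2 k'), mul_zero]

omit [FiniteDimensional ℝ E] [MeasurableSpace E] [BorelSpace E] in
/-- Solutions of the equation, in all charts. -/
structure Sol (i c : ℝ) (ρ : E → ℝ) : Prop where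
  cont : ContinuousOn ρ (sphere 0 1)
  nonneg : ∀ u, 0 ≤ ρ u
  even : ∀ u, ‖u‖ = 1 → ρ (-u) = ρ u
  eq : ∀ p r q : E, Frm p r q → ∀ x s : ℝ, ∫⁻ t, ENNReal.ofReal
    (ρ (dir (XX p r q (t, -x - t * s))) ^ i / nn (t, -x - t * s) ^ 2) =
      ENNReal.ofReal (c * (ρ (dir (XX q r p (s, x))) / nn (s, x)))

theorem sol_radial (hE : finrank ℝ E = 3) {i : ℝ} (hi : 0 ≤ i) {L : Set E}
    (hL : ContinuousOn (radial L) (sphere 0 1)) {c : ℝ} (hc : 0 < c)
    (h : ∀ u, ‖u‖ = 1 → interRadial i L u = c * radial L u) : Sol i c (radial L) := by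
  have hev : ∀ u, ‖u‖ = 1 → radial L (-u) = radial L u := fun u hu => by
    have h2 := h (-u) (by rw [norm_neg, hu])
    rw [interRadial_neg, h u hu, mul_right_inj' hc.ne'] at h2
    exact h2.symm
  refine ⟨hL, radial_nonneg L, hev, fun p r q hf x s => ?_⟩
  let a : E → ℝ := fun x => radial L (dir x) ^ (i / 2)
  have hdu : ∀ u : E, ‖u‖ = 1 → dir u = u := fun u hu => by simp [dir, hu]
  have ha2 : ∀ u, ‖u‖ = 1 → a u ^ 2 = radial L u ^ i := fun u hu => by
    simp only [a]
    rw [hdu u hu, ← Real.rpow_mul_natCast (radial_nonneg _ _)]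
    norm_num
  have ham : Measurable a := by
    refine Measurable.pow_const (measurable_of_continuousOn_compl_singleton 0 ?_) _
    refine hL.comp (f := dir) ?_ fun x hx => by simpa using norm_dir hx
    exact (continuous_norm.continuousOn.inv₀ fun x hx => norm_ne_zero_iff.2 hx).smul
      continuousOn_id
  have h1 := hf.rad_eq hE ham (fun u => Real.rpow_nonneg (radial_nonneg _ _) _) (fun u => by
    by_cases hu : u = 0
    · simp [hu]
    · have : dir (-u) = -dir u := by simp [dir]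
      simp only [a, this, hev _ (norm_dir hu)]) x s
  have h2 := ofReal_interRadial (m := 1) hE hi hL (dir (XX q r p (s, x)))
  have h3 : rad (fun v => ENNReal.ofReal (a v ^ (1 + 1) / (1 + 1 : ℕ))) (dir (XX q r p (s, x))) =
      rad (fun v => ENNReal.ofReal (radial L v ^ i / (1 + 1 : ℕ))) (dir (XX q r p (s, x))) :=
    lintegral_congr fun v => congrArg (fun y : ℝ => ENNReal.ofReal (y / (1 + 1 : ℕ)))
      (ha2 _ (norm_eq_of_mem_sphere v))
  rw [h3, ← h2, h _ (norm_dir (hf.symm.XX_ne _))] at h1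
  simp only [ha2 _ (norm_dir (hf.XX_ne _))] at h1
  have hn := nn_pos (s, x)
  rw [← ENNReal.mul_right_inj (a := ENNReal.ofReal (nn (s, x))) (ENNReal.ofReal_pos.2 hn).ne'
    ENNReal.ofReal_ne_top, ← h1, ← ENNReal.ofReal_mul hn.le]
  congr 1
  field_simp

end Pool.Agent.Lib.MP_0a1ca9_gt
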