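import Pool.Agent.Lib.MP_0a1ca9_gt.TRank

/-! A rearrangement inequality for the excess multiplicity of plane convex sets. -/

open MeasureTheory Set
open scoped ENNReal

namespace Pool.Agent.Lib.MP_0a1ca9_gt

variable {n : ℕ}

theorem measurable_filter {X ι β : Type*} [MeasurableSpace X] [Fintype ι] [MeasurableSpace β]
    {P : X → ι → Prop} [∀ x, DecidablePred (P x)] (hP : ∀ e, MeasurableSet {x | P x e})
    (f : Finset ι → β) : Measurable fun x => f (Finset.univ.filter (P x)) := by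
  classical
  have h1 : Measurable P := measurable_pi_lambda _ fun e => measurableSet_setOfPred.1 (hP e)
  have h2 := (measurable_of_finite fun p : ι → Prop => f (Finset.univ.filter p)).comp h1
  convert h2 using 2
  simp only [Function.comp_apply]
  congr

theorem isCompact_slice {K : Set (ℝ × ℝ)} (hK : IsCompact K) (s : ℝ) :
    IsCompact {x | (x, s) ∈ K} ∧ IsCompact {x | (s, x) ∈ K} := by
  constructor
  · exact (hK.image continuous_fst).of_isClosed_subset (hK.isClosed.preimage (by fun_prop))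
      fun x hx => ⟨_, hx, rfl⟩
  · exact (hK.image continuous_snd).of_isClosed_subset (hK.isClosed.preimage (by fun_prop))
      fun x hx => ⟨_, hx, rfl⟩

open Classical in
theorem nul_mono {A B : Finset (Fin n × Fin n)} (h : A ⊆ B) : nul A ≤ nul B := by
  have hk : Function.Injective fun e : Fin n × Fin n => toLex e := toLex.injective
  rw [nul_eq hk, nul_eq hk]
  refine Finset.card_le_card fun e he => ?_
  rw [Finset.mem_filter] at he ⊢
  exact ⟨h he.1, esp_mono (Finset.filter_subset_filter _ h) he.2⟩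

/-- The two sets have a common chord of length `ε`. -/
def Al (J K : Set ℝ) (ε : ℝ) : Prop := ∃ x, x ∈ J ∧ x ∈ K ∧ x + ε ∈ J ∧ x + ε ∈ K

open Classical in
theorem line_formula (l u : Fin n → ℝ) :
    ∫⁻ x, ((((Finset.univ.filter fun j => x ∈ Icc (l j) (u j)).card - 1).choose 2 : ℕ) : ℝ≥0∞) =
      ∫⁻ ε in Ioi (0 : ℝ), (nul (Finset.univ.filter fun e : Fin n × Fin n =>
        e.1 < e.2 ∧ Al (Icc (l e.1) (u e.1)) (Icc (l e.2) (u e.2)) ε) : ℝ≥0∞) := by
  let key : Fin n → ℝ ×ₗ Fin n := fun j => toLex (l j, j)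
  have hk : Function.Injective key := fun j k h => congrArg (fun p => (ofLex p).2) h
  have hl : ∀ j k, key k < key j → l k ≤ l j := fun j k h => by
    rcases Prod.Lex.toLex_lt_toLex.1 h with h | h
    · exact h.le
    · exact h.1.le
  let φ : Fin n → ℝ → ℝ≥0∞ := fun j x =>
    (((Finset.univ.filter fun k =>
      key k < key j ∧ x ∈ Icc (l j) (u j) ∧ x ∈ Icc (l k) (u k)).card - 1 : ℕ) : ℝ≥0∞)
  have hφ : ∀ j, Measurable (φ j) := fun j =>
    measurable_filter (P := fun x k => key k < key j ∧ x ∈ Icc (l j) (u j) ∧ x ∈ Icc (l k) (u k))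
      (fun k => (MeasurableSet.const _).inter (measurableSet_Icc.inter measurableSet_Icc))
      fun A => ((A.card - 1 : ℕ) : ℝ≥0∞)
  have h1 : ∀ x, ((((Finset.univ.filter fun j => x ∈ Icc (l j) (u j)).card - 1).choose 2 : ℕ) :
      ℝ≥0∞) = ∑ j, φ j x := by
    intro x
    rw [choose_eq_sum hk, Finset.sum_filter, Nat.cast_sum]
    refine Finset.sum_congr rfl fun j _ => ?_
    simp only [φ]
    congr 1
    split_ifs with h
    · rw [Finset.filter_filter]
      congr 2
      exact Finset.filter_congr fun k _ => by simp only [h, true_and, and_comm]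
    · rw [Finset.filter_eq_empty_iff.2 fun k _ hk' => h hk'.2.1]
      rfl
  have h2 : ∀ ε ∈ Ioi (0 : ℝ), (nul (Finset.univ.filter fun e : Fin n × Fin n =>
      e.1 < e.2 ∧ Al (Icc (l e.1) (u e.1)) (Icc (l e.2) (u e.2)) ε) : ℝ≥0∞) =
      ∑ j, φ j (l j + ε) := by
    intro ε hε
    have hε' : 0 < ε := hε
    have hiff : ∀ j k, key k < key j → (Al (Icc (l j) (u j)) (Icc (l k) (u k)) ε ↔
        l j + ε ∈ Icc (l j) (u j) ∧ l j + ε ∈ Icc (l k) (u k)) := by
      intro j k h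
      have := hl j k h
      constructor
      · rintro ⟨x, h1, h2, h3, h4⟩
        exact ⟨⟨by linarith, by linarith [h1.1, h3.2]⟩, by linarith, by linarith [h1.1, h4.2]⟩
      · rintro ⟨h1, h2⟩
        exact ⟨l j, ⟨le_rfl, by linarith [h1.2]⟩, ⟨this, by linarith [h2.2]⟩, h1, h2⟩
    rw [nul_chordal hk (S := fun j k => Al (Icc (l j) (u j)) (Icc (l k) (u k)) ε)
      (fun j k ⟨x, h1, h2, h3, h4⟩ => ⟨x, h2, h1, h4, h3⟩), Nat.cast_sum]
    · refine Finset.sum_congr rfl fun j _ => ?_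
      simp only [φ]
      congr 3
      exact Finset.filter_congr fun k _ => and_congr_right fun h => hiff j k h
    · intro j k k' h h' hS hS'
      have h3 := ((hiff j k h).1 hS).2
      have h4 := ((hiff j k' h').1 hS').2
      exact ⟨l j, ⟨hl j k h, by linarith [h3.2]⟩, ⟨hl j k' h', by linarith [h4.2]⟩, h3, h4⟩
  rw [setLIntegral_congr_fun measurableSet_Ioi h2]
  simp_rw [h1]
  rw [lintegral_finsetSum _ fun j _ => hφ j,
    lintegral_finsetSum (f := fun j ε => φ j (l j + ε)) _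
      fun j _ => (hφ j).comp (measurable_const_add (l j))]
  refine Finset.sum_congr rfl fun j _ => ?_
  rw [← lintegral_add_left_eq_self (φ j) (l j), restrict_Ioi_eq_restrict_Ici,
    ← lintegral_indicator measurableSet_Ici]
  refine lintegral_congr fun ε => ?_
  by_cases h : ε ∈ Ici (0 : ℝ)
  · rw [indicator_of_mem h]
  · rw [indicator_of_notMem h]
    simp only [φ]
    rw [Finset.filter_eq_empty_iff.2 fun k _ hk' => h (by simpa using hk'.2.1.1)]
    simp

open Classical in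
theorem slide (c r : Fin n × Fin n → ℝ) {κ : ℝ} (h0 : 0 ≤ κ) (h1 : κ ≤ 1) :
    ∫⁻ s, (nul (Finset.univ.filter fun e => |s - c e| ≤ r e) : ℝ≥0∞) ≤
      ∫⁻ s, (nul (Finset.univ.filter fun e => |s - κ * c e| ≤ r e) : ℝ≥0∞) := by
  let key : Fin n × Fin n → ℝ ×ₗ (Fin n ×ₗ Fin n) := fun e => toLex (-r e, toLex e)
  have hk : Function.Injective key := fun j k h =>
    toLex.injective (congrArg (fun p => (ofLex p).2) h)
  have hr : ∀ e f, key f < key e → r e ≤ r f := fun e f h => by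
    rcases Prod.Lex.toLex_lt_toLex.1 h with h | h
    · exact neg_le_neg_iff.1 h.le
    · exact neg_le_neg_iff.1 h.1.le
  let φ : (Fin n × Fin n → ℝ) → Fin n × Fin n → ℝ → ℝ≥0∞ := fun d e s =>
    (fun A : Finset (Fin n × Fin n) =>
      if e ∈ A ∧ ev e ∈ esp (A.filter fun f => key f < key e) then (1 : ℝ≥0∞) else 0)
      (Finset.univ.filter fun f => |s - d f| ≤ r f)
  have hφ : ∀ d e, Measurable (φ d e) := fun d e =>
    measurable_filter (P := fun s f => |s - d f| ≤ r f)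
      (fun f => measurableSet_le (by fun_prop) measurable_const)
      fun A : Finset (Fin n × Fin n) =>
        if e ∈ A ∧ ev e ∈ esp (A.filter fun f => key f < key e) then (1 : ℝ≥0∞) else 0
  have h2 : ∀ (d : Fin n × Fin n → ℝ) s,
      (nul (Finset.univ.filter fun e => |s - d e| ≤ r e) : ℝ≥0∞) = ∑ e, φ d e s := by
    intro d s
    rw [nul_eq hk, Finset.card_filter, Finset.sum_filter, Nat.cast_sum]
    refine Finset.sum_congr rfl fun e _ => ?_
    simp only [φ, Finset.mem_filter, Finset.mem_univ, true_and]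
    by_cases h : |s - d e| ≤ r e
    · simp only [h, true_and, if_true]
      split_ifs <;> simp
    · simp [h]
  rw [lintegral_congr (h2 c), lintegral_congr (h2 fun e => κ * c e),
    lintegral_finsetSum _ fun e _ => hφ _ e, lintegral_finsetSum _ fun e _ => hφ _ e]
  refine Finset.sum_le_sum fun e _ => ?_
  rw [← lintegral_add_left_eq_self (φ c e) (c e),
    ← lintegral_add_left_eq_self (φ (fun e => κ * c e) e) (κ * c e)]
  refine lintegral_mono fun s => ?_
  simp only [φ]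
  split_ifs with h3 h4
  · exact le_rfl
  · refine absurd ⟨?_, esp_mono (fun f hf => ?_) h3.2⟩ h4
    · simpa using h3.1
    · have h5 : |s| ≤ r e := by simpa using h3.1
      simp only [Finset.mem_filter, Finset.mem_univ, true_and] at hf ⊢
      refine ⟨?_, hf.2⟩
      have h6 := h5.trans (hr e f hf.2)
      have h7 := hf.1
      have e1 : κ * c e + s - κ * c f = (1 - κ) * s + κ * (c e + s - c f) := by ring
      rw [e1, abs_le]
      rw [abs_le] at h6 h7
      constructor <;> nlinarith [h6.1, h6.2, h7.1, h7.2]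
  · exact zero_le
  · exact le_rfl

theorem exists_Icc {J : Set ℝ} (hc : IsCompact J) (hv : Convex ℝ J) : ∃ l u, J = Icc l u := by
  rcases J.eq_empty_or_nonempty with rfl | h
  · exact ⟨1, 0, by simp⟩
  · exact ⟨_, _, eq_Icc_of_connected_compact ⟨h, hv.isPreconnected⟩ hc⟩

/-- The pairs `(ε, s)` such that two plane sets have a common chord of length `ε` at height `s`. -/
theorem isCompact_al {P Q : Set (ℝ × ℝ)} (hP : IsCompact P) (hQ : IsCompact Q) :
    IsCompact {a : ℝ × ℝ | Al {x | (x, a.2) ∈ P} {x | (x, a.2) ∈ Q} a.1} := by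
  have h1 : IsCompact (((P ∩ Q) ×ˢ (P ∩ Q)) ∩ {p : (ℝ × ℝ) × ℝ × ℝ | p.1.2 = p.2.2}) :=
    ((hP.inter hQ).prod (hP.inter hQ)).inter_right (isClosed_eq (by fun_prop) (by fun_prop))
  convert h1.image (f := fun p => (p.2.1 - p.1.1, p.1.2)) (by fun_prop) using 1
  ext a
  constructor
  · rintro ⟨x, h1, h2, h3, h4⟩
    exact ⟨((x, a.2), (x + a.1, a.2)), ⟨⟨⟨h1, h2⟩, h3, h4⟩, rfl⟩, by simp⟩
  · rintro ⟨⟨⟨x, s⟩, y, t⟩, ⟨⟨⟨h1, h2⟩, h3, h4⟩, h5⟩, rfl⟩
    obtain rfl : s = t := h5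
    refine ⟨x, h1, h2, ?_, ?_⟩ <;> simpa

open Classical in
theorem plane_formula {Q : Fin n → Set (ℝ × ℝ)} (hc : ∀ j, IsCompact (Q j))
    (hv : ∀ j, Convex ℝ (Q j)) :
    ∫⁻ w, ((((Finset.univ.filter fun j => w ∈ Q j).card - 1).choose 2 : ℕ) : ℝ≥0∞) =
      ∫⁻ ε in Ioi (0 : ℝ), ∫⁻ s, (nul (Finset.univ.filter fun e : Fin n × Fin n =>
        e.1 < e.2 ∧ Al {x | (x, s) ∈ Q e.1} {x | (x, s) ∈ Q e.2} ε) : ℝ≥0∞) := by
  have hm : Measurable fun w : ℝ × ℝ =>
      ((((Finset.univ.filter fun j => w ∈ Q j).card - 1).choose 2 : ℕ) : ℝ≥0∞) :=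
    measurable_filter (P := fun w j => w ∈ Q j) (fun j => (hc j).measurableSet)
      fun A => (((A.card - 1).choose 2 : ℕ) : ℝ≥0∞)
  have hm2 : Measurable fun a : ℝ × ℝ => (nul (Finset.univ.filter fun e : Fin n × Fin n =>
      e.1 < e.2 ∧ Al {x | (x, a.2) ∈ Q e.1} {x | (x, a.2) ∈ Q e.2} a.1) : ℝ≥0∞) :=
    measurable_filter (P := fun (a : ℝ × ℝ) (e : Fin n × Fin n) =>
      e.1 < e.2 ∧ Al {x | (x, a.2) ∈ Q e.1} {x | (x, a.2) ∈ Q e.2} a.1)
      (fun e => (MeasurableSet.const _).inter (isCompact_al (hc _) (hc _)).measurableSet)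
      fun A => (nul A : ℝ≥0∞)
  rw [lintegral_lintegral_swap hm2.aemeasurable, Measure.volume_eq_prod,
    lintegral_prod_symm _ hm.aemeasurable]
  refine lintegral_congr fun s => ?_
  have h1 : ∀ j, ∃ l u, {x | (x, s) ∈ Q j} = Icc l u := fun j => by
    refine exists_Icc ?_ ?_
    · exact (isCompact_slice (hc j) s).1
    · intro x hx y hy a b ha hb hab
      have := hv j hx hy ha hb hab
      simp only [Prod.smul_mk, Prod.mk_add_mk, smul_eq_mul] at this
      rwa [← add_mul, hab, one_mul] at this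
  choose l u hlu using h1
  simp only [hlu]
  rw [← line_formula]
  refine lintegral_congr fun x => ?_
  congr 4
  exact Finset.filter_congr fun j _ => by rw [← hlu]; rfl

open Classical in
/-- The rearrangement inequality for finitely many convex sets. -/
theorem plane_mono {Q Q' : Fin n → Set (ℝ × ℝ)} (hc : ∀ j, IsCompact (Q j))
    (hv : ∀ j, Convex ℝ (Q j)) (hc' : ∀ j, IsCompact (Q' j)) (hv' : ∀ j, Convex ℝ (Q' j))
    {κ : ℝ} (h0 : 0 ≤ κ) (h1 : κ ≤ 1)
    (h : ∀ j, ∀ p ∈ Q' j, ∀ p' ∈ Q' j, ((1 + κ) / 2) • p - ((1 - κ) / 2) • p' ∈ Q j) :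
    ∫⁻ w, ((((Finset.univ.filter fun j => w ∈ Q' j).card - 1).choose 2 : ℕ) : ℝ≥0∞) ≤
      ∫⁻ w, ((((Finset.univ.filter fun j => w ∈ Q j).card - 1).choose 2 : ℕ) : ℝ≥0∞) := by
  rw [plane_formula hc hv, plane_formula hc' hv']
  refine lintegral_mono fun ε => ?_
  have h2 : ∀ e : Fin n × Fin n, ∃ c r : ℝ, ∀ s,
      (e.1 < e.2 ∧ Al {x | (x, s) ∈ Q' e.1} {x | (x, s) ∈ Q' e.2} ε) ↔ |s - c| ≤ r := by
    intro e
    by_cases he : e.1 < e.2
    · obtain ⟨l, u, hlu⟩ := exists_Icc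
        (J := {s | Al {x | (x, s) ∈ Q' e.1} {x | (x, s) ∈ Q' e.2} ε})
        (isCompact_slice (isCompact_al (hc' e.1) (hc' e.2)) ε).2 (by
          rintro s ⟨x, h1, h2, h3, h4⟩ t ⟨y, h5, h6, h7, h8⟩ a b ha hb hab
          have e1 : a * x + b * y + ε = a * (x + ε) + b * (y + ε) := by
            rw [mul_add, mul_add, add_add_add_comm, ← add_mul, hab, one_mul]
          refine ⟨a * x + b * y, hv' _ h1 h5 ha hb hab, hv' _ h2 h6 ha hb hab, ?_, ?_⟩
          · rw [e1]; exact hv' _ h3 h7 ha hb hab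
          · rw [e1]; exact hv' _ h4 h8 ha hb hab)
      refine ⟨(l + u) / 2, (u - l) / 2, fun s => ?_⟩
      have : Al {x | (x, s) ∈ Q' e.1} {x | (x, s) ∈ Q' e.2} ε ↔ s ∈ Icc l u := by rw [← hlu]; rfl
      rw [this, abs_le, mem_Icc]
      constructor
      · rintro ⟨-, h3, h4⟩
        constructor <;> linarith
      · rintro ⟨h3, h4⟩
        exact ⟨he, by linarith, by linarith⟩
    · exact ⟨0, -1, fun s => ⟨fun h => absurd h.1 he, fun h => by linarith [abs_nonneg (s - 0)]⟩⟩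
  choose c r hcr using h2
  simp only [hcr]
  refine (slide c r h0 h1).trans (lintegral_mono fun s => ?_)
  refine Nat.cast_le.2 (nul_mono fun e he => ?_)
  simp only [Finset.mem_filter, Finset.mem_univ, true_and] at he ⊢
  obtain ⟨h3, x, h4, h5, h6, h7⟩ := (hcr e (c e + (s - κ * c e))).2 (by simpa using he)
  obtain ⟨-, y, h8, h9, h10, h11⟩ := (hcr e (c e - (s - κ * c e))).2
    (by rw [sub_sub_cancel_left, abs_neg]; exact he)
  have e1 : ((1 + κ) / 2 * x - (1 - κ) / 2 * (y + ε), s) =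
      ((1 + κ) / 2) • (x, c e + (s - κ * c e)) - ((1 - κ) / 2) • (y + ε, c e - (s - κ * c e)) := by
    refine Prod.ext rfl ?_
    simp only [Prod.smul_mk, Prod.mk_sub_mk, smul_eq_mul]
    ring
  have e2 : ((1 + κ) / 2 * x - (1 - κ) / 2 * (y + ε) + ε, s) =
      ((1 + κ) / 2) • (x + ε, c e + (s - κ * c e)) - ((1 - κ) / 2) • (y, c e - (s - κ * c e)) := by
    refine Prod.ext ?_ ?_ <;> simp only [Prod.smul_mk, Prod.mk_sub_mk, smul_eq_mul] <;> ring
  refine ⟨h3, (1 + κ) / 2 * x - (1 - κ) / 2 * (y + ε), ?_, ?_, ?_, ?_⟩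
  · change _ ∈ Q e.1
    rw [e1]; exact h _ _ h4 _ h10
  · change _ ∈ Q e.2
    rw [e1]; exact h _ _ h5 _ h11
  · change _ ∈ Q e.1
    rw [e2]; exact h _ _ h6 _ h8
  · change _ ∈ Q e.2
    rw [e2]; exact h _ _ h7 _ h9

end Pool.Agent.Lib.MP_0a1ca9_gt
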