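import Pool.Agent.Lib.MP_0a1ca9_gt.TSym

/-! A gain of regularity for solutions of the equation. -/

open MeasureTheory Set Filter Topology Real

namespace Pool.Agent.Lib.MP_0a1ca9_gt

/-- The derivative of `x ^ i`. -/
noncomputable def ww (i x : ℝ) : ℝ := i * x ^ (i - 1)

/-- The function of degree zero attached to a function of degree `-1`, in a chart. -/
noncomputable def uu (U : ℝ × ℝ → ℝ) (p : ℝ × ℝ) : ℝ := U p * nn p

theorem continuous_ww {i : ℝ} (hi : 1 < i) : Continuous (ww i) :=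
  continuous_const.mul (continuous_id.rpow_const fun _ => Or.inr (by linarith))

theorem taylor_rpow {i m M ε θ x y : ℝ} (hi : 1 < i) (hx : x ∈ Icc m M) (hy : y ∈ Icc m M)
    (hxy : |y - x| ≤ ε)
    (hmod : ∀ x ∈ Icc m M, ∀ y ∈ Icc m M, |y - x| ≤ ε → |ww i y - ww i x| ≤ θ) :
    |y ^ i - x ^ i - ww i x * (y - x)| ≤ θ * |y - x| := by
  have := (convex_uIcc x y).norm_image_sub_le_of_norm_hasDerivWithin_le
    (f := fun z => z ^ i - ww i x * z) (f' := fun z => ww i z - ww i x)
    (fun z _ => by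
      have := (((Real.hasDerivAt_rpow_const (x := z) (Or.inr hi.le)).fun_sub
        ((hasDerivAt_id' z).const_mul (ww i x))).hasDerivWithinAt (s := uIcc x y))
      rwa [mul_one] at this)
    (fun z hz => hmod x hx z (uIcc_subset_Icc hx hy hz) ((abs_sub_left_of_mem_uIcc hz).trans hxy))
    left_mem_uIcc right_mem_uIcc
  rw [Real.norm_eq_abs, Real.norm_eq_abs] at this
  convert this using 2
  ring

theorem subdiv {k f : ℝ → ℝ} (hk : Continuous k) (hf : Continuous f) {h θ K M ω t A B : ℝ}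
    (h0 : 0 ≤ h) (hK : ∀ s, |k s| ≤ K) (hM : ∀ s, |f s| ≤ M) (hω : ∀ s, |f (s + t) - f s| ≤ ω)
    (hθ : ∀ s ∈ Icc A B, ∀ s' ∈ Icc A B, |s - s'| ≤ h → |k s - k s'| ≤ θ) (N : ℕ)
    (hN : A + N * h ≤ B) :
    |∫ s in A..A + N * h, k s * (f (s + t) - f s)| ≤ N * (θ * ω * h + K * (2 * M * |t|)) := by
  induction N with
  | zero => simp
  | succ N ih =>
    push_cast at hN ⊢
    set a := A + N * h with ha
    have hb : A + (N + 1) * h = a + h := by rw [ha]; ring
    have hA : A ≤ a := le_add_of_nonneg_right (by positivity)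
    rw [hb] at hN ⊢
    have h1 : |∫ s in a..a + h, (k s - k a) * (f (s + t) - f s)| ≤ θ * ω * h := by
      have := intervalIntegral.norm_integral_le_of_norm_le_const (a := a) (b := a + h) (C := θ * ω)
        (f := fun s => (k s - k a) * (f (s + t) - f s)) fun s hs => by
          rw [uIoc_of_le (by linarith)] at hs
          have h2 := hθ s ⟨hA.trans hs.1.le, hs.2.trans hN⟩ a ⟨hA, by linarith⟩
            (abs_le.2 ⟨by linarith [hs.1], by linarith [hs.2]⟩)
          rw [Real.norm_eq_abs, abs_mul]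
          exact mul_le_mul h2 (hω s) (abs_nonneg _) ((abs_nonneg _).trans h2)
      rwa [add_sub_cancel_left, abs_of_nonneg h0] at this
    have h2 : ∀ x, |∫ s in x + t..x, f s| ≤ M * |t| := fun x => by
      have := intervalIntegral.norm_integral_le_of_norm_le_const (a := x + t) (b := x) (C := M)
        (f := f) fun s _ => hM s
      rwa [sub_add_cancel_left, abs_neg] at this
    have h3 : |∫ s in a..a + h, (f (s + t) - f s)| ≤ 2 * M * |t| := by
      rw [intervalIntegral.integral_sub ((by fun_prop : Continuous _).intervalIntegrable _ _)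
        (hf.intervalIntegrable _ _), intervalIntegral.integral_comp_add_right,
        intervalIntegral.integral_interval_sub_interval_comm (hf.intervalIntegrable _ _)
        (hf.intervalIntegrable _ _) (hf.intervalIntegrable _ _)]
      linarith [abs_sub (∫ s in a + t..a, f s) (∫ s in a + h + t..a + h, f s), h2 a, h2 (a + h)]
    have h4 : ∫ s in a..a + h, k s * (f (s + t) - f s) =
        (∫ s in a..a + h, (k s - k a) * (f (s + t) - f s)) +
          k a * ∫ s in a..a + h, (f (s + t) - f s) := by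
      rw [← intervalIntegral.integral_const_mul, ← intervalIntegral.integral_add
        ((by fun_prop : Continuous _).intervalIntegrable _ _)
        ((by fun_prop : Continuous _).intervalIntegrable _ _)]
      exact intervalIntegral.integral_congr fun s _ => by ring
    rw [← intervalIntegral.integral_add_adjacent_intervals (b := a)
      ((by fun_prop : Continuous _).intervalIntegrable _ _)
      ((by fun_prop : Continuous _).intervalIntegrable _ _), h4]
    have h5 : |k a * ∫ s in a..a + h, (f (s + t) - f s)| ≤ K * (2 * M * |t|) := by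
      rw [abs_mul]
      exact mul_le_mul (hK a) h3 (abs_nonneg _) ((abs_nonneg _).trans (hK a))
    have h6 := ih (by linarith)
    refine (abs_add_le _ _).trans ((add_le_add h6 (abs_add_le _ _)).trans ?_)
    linarith

theorem nn_line (a s : ℝ) : nn (a, -(a * s)) ^ 2 = 1 + (a * nn (s, 0)) ^ 2 := by
  rw [mul_pow, nn_sq, nn_sq]; ring

theorem integrable_line (s : ℝ) : Integrable fun a => (nn (a, -(a * s)) ^ 2)⁻¹ := by
  simp_rw [nn_line]
  exact integrable_inv_one_add_sq.comp_mul_right' (nn_pos _).ne'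

theorem integral_line (s : ℝ) : ∫ a, (nn (a, -(a * s)) ^ 2)⁻¹ = π / nn (s, 0) := by
  simp_rw [nn_line]
  rw [Measure.integral_comp_mul_right (fun x => (1 + x ^ 2)⁻¹), integral_univ_inv_one_add_sq,
    abs_of_pos (inv_pos.2 (nn_pos _)), smul_eq_mul, div_eq_inv_mul]

theorem inv_nn_sub (a z : ℝ) {δ : ℝ} (hδ : |δ| ≤ 1) :
    |(nn (a, z + δ) ^ 2)⁻¹ - (nn (a, z) ^ 2)⁻¹| ≤ 2 * |δ| * (nn (a, z) ^ 2)⁻¹ := by
  have h1 := nn_pos (a, z + δ)
  have h2 := nn_pos (a, z)
  have e : (nn (a, z + δ) ^ 2)⁻¹ - (nn (a, z) ^ 2)⁻¹ =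
      δ * ((δ - 2 * (z + δ)) / nn (a, z + δ) ^ 2) * (nn (a, z) ^ 2)⁻¹ := by
    field_simp
    rw [nn_sq, nn_sq]
    ring
  have h3 : |(δ - 2 * (z + δ)) / nn (a, z + δ) ^ 2| ≤ 2 := by
    rw [abs_div, abs_of_pos (pow_pos h1 2), div_le_iff₀ (pow_pos h1 2), nn_sq, abs_le]
    rw [abs_le] at hδ
    constructor <;> nlinarith [sq_nonneg a, sq_nonneg (z + δ - 1), sq_nonneg (z + δ + 1),
      sq_nonneg (z + δ)]
  rw [e, abs_mul, abs_mul, abs_of_pos (a := (nn (a, z) ^ 2)⁻¹) (by positivity), mul_comm 2 |δ|]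
  gcongr

/-- The weight of the second iterate. -/
noncomputable def Th (p : ℝ × ℝ) : ℝ := (nn (p.2, 0))⁻¹ * (nn (p.1, -(p.1 * p.2)) ^ 2)⁻¹

theorem continuous_Th : Continuous Th :=
  ((by fun_prop : Continuous _).inv₀ fun _ => (nn_pos _).ne').mul
    ((by fun_prop : Continuous _).inv₀ fun _ => (pow_pos (nn_pos _) 2).ne')

theorem Th_pos (p : ℝ × ℝ) : 0 < Th p :=
  mul_pos (inv_pos.2 (nn_pos _)) (inv_pos.2 (pow_pos (nn_pos _) 2))

theorem Th_le (p : ℝ × ℝ) : Th p ≤ 1 :=
  mul_le_one₀ (inv_le_one_of_one_le₀ (one_le_nn _)) (inv_pos.2 (pow_pos (nn_pos _) 2)).le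
    (inv_le_one_of_one_le₀ (one_le_pow₀ (one_le_nn _)))

theorem integrable_Th : Integrable Th := by
  rw [Measure.volume_eq_prod, integrable_prod_iff' continuous_Th.aestronglyMeasurable]
  refine ⟨ae_of_all _ fun s => (integrable_line s).const_mul (nn (s, 0))⁻¹, ?_⟩
  refine ((integrable_line 0).const_mul π).congr (ae_of_all _ fun s => ?_)
  simp only [Real.norm_eq_abs, abs_of_pos (Th_pos _)]
  simp only [Th]
  rw [integral_const_mul, integral_line]
  have := nn_pos (s, 0)
  simp only [mul_zero, neg_zero]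
  field_simp

/-- The good region. -/
def Kn (n : ℕ) : Set (ℝ × ℝ) :=
  {a : ℝ | 1 ≤ (n + 1) * |a| ∧ |a| ≤ n + 1} ×ˢ Ioc (-(n + 1 : ℝ)) (n + 1)

theorem measurableSet_An (n : ℕ) : MeasurableSet {a : ℝ | 1 ≤ (n + 1) * |a| ∧ |a| ≤ n + 1} :=
  ms_le_and (by fun_prop) (by fun_prop) (by fun_prop) (by fun_prop)

theorem measurableSet_Kn (n : ℕ) : MeasurableSet (Kn n) :=
  (measurableSet_An n).prod measurableSet_Ioc

theorem exists_tail {η : ℝ} (hη : 0 < η) : ∃ n, ∫ p in (Kn n)ᶜ, Th p ≤ η := by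
  have h1 := tendsto_setIntegral_of_antitone (f := Th) (μ := volume) (s := fun n => (Kn n)ᶜ)
    (fun n => (measurableSet_Kn n).compl) (fun a b hab => compl_subset_compl.2 fun p hp => by
      have : (a : ℝ) ≤ b := by exact_mod_cast hab
      obtain ⟨⟨k1, k2⟩, k3, k4⟩ := hp
      exact ⟨⟨k1.trans (by gcongr), by linarith⟩, by linarith, by linarith⟩)
    ⟨0, integrable_Th.integrableOn⟩
  have h2 : volume (⋂ n, (Kn n)ᶜ) = 0 := by
    refine measure_mono_null (t := {0} ×ˢ univ) (fun p hp => ⟨?_, trivial⟩)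
      (by rw [Measure.volume_eq_prod, Measure.prod_prod]; simp)
    by_contra h0
    have h3 : 0 < |p.1| := abs_pos.2 h0
    obtain ⟨n, hn⟩ := exists_nat_ge (|p.1|⁻¹ + |p.1| + |p.2|)
    have h4 := inv_pos.2 h3
    have h5 := abs_nonneg p.2
    refine mem_iInter.1 hp n ⟨⟨?_, by linarith⟩, by linarith [neg_abs_le p.2],
      by linarith [le_abs_self p.2]⟩
    rw [← inv_le_iff_one_le_mul₀ h3]
    linarith
  rw [setIntegral_measure_zero _ h2] at h1
  exact (h1.eventually (ge_mem_nhds hη)).exists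

namespace Chart

variable {i m M c : ℝ} {U V : ℝ × ℝ → ℝ} (h : Chart i m M c U V)
include h

theorem mem (p : ℝ × ℝ) : uu U p ∈ Icc m M := ⟨h.lo p, h.hi p⟩

theorem continuous_uu : Continuous (uu U) := h.cU.mul continuous_nn

theorem abs_ww (p : ℝ × ℝ) : |ww i (uu U p)| ≤ ww i M := by
  have h1 := h.i1
  have h2 := h.m0.le.trans (h.lo p)
  rw [ww, abs_of_nonneg (by unfold uu; positivity)]
  exact mul_le_mul_of_nonneg_left (Real.rpow_le_rpow h2 (h.hi p) (by linarith)) (by linarith)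

theorem integral_eq (x s : ℝ) : Integrable (fun a => Hh i U (a, -(a * s) + x)) ∧
    ∫ a, Hh i U (a, -(a * s) + x) = c * V (s, -x) := by
  have h1 := h.e1 (-x) s
  simp only [neg_neg, sub_eq_neg_add] at h1
  have h2 : AEStronglyMeasurable (fun a => Hh i U (a, -(a * s) + x)) volume :=
    (h.dec.cont.comp (by fun_prop)).aestronglyMeasurable
  have h3 : 0 ≤ᵐ[volume] fun a => Hh i U (a, -(a * s) + x) := ae_of_all _ fun a => (h.H_pos _).le
  exact ⟨(lintegral_ofReal_ne_top_iff_integrable h2 h3).1 (h1 ▸ ENNReal.ofReal_ne_top), by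
    rw [integral_eq_lintegral_of_nonneg_ae h3 h2, h1,
      ENNReal.toReal_ofReal (mul_pos h.c0 (h.symm.pos _)).le]⟩

theorem one {ε θ δ ω : ℝ}
    (hmod : ∀ x ∈ Icc m M, ∀ y ∈ Icc m M, |y - x| ≤ ε → |ww i y - ww i x| ≤ θ) (hθ : 0 ≤ θ)
    (hδ : |δ| ≤ 1) (s : ℝ) (hε : ∀ a z, |uu U (a, z + δ) - uu U (a, z)| ≤ ε)
    (hω : ∀ a z, |uu U (a, z + δ) - uu U (a, z)| ≤ ω) :
    |c * (uu V (s, -δ) - uu V (s, 0)) - nn (s, 0) * ∫ a, ww i (uu U (a, -(a * s))) *
      (uu U (a, -(a * s) + δ) - uu U (a, -(a * s))) * (nn (a, -(a * s)) ^ 2)⁻¹| ≤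
      π * (θ * ω + M ^ i * (2 * |δ|)) + c * (M * |δ|) := by
  obtain ⟨i1, e1⟩ := h.integral_eq δ s
  obtain ⟨i0, e0⟩ := h.integral_eq 0 s
  simp only [add_zero, neg_zero] at i0 e0
  have hu := h.continuous_uu
  have hw := continuous_ww h.i1
  have hH := h.dec.cont
  set g : ℝ → ℝ := fun a => ww i (uu U (a, -(a * s))) *
    (uu U (a, -(a * s) + δ) - uu U (a, -(a * s))) * (nn (a, -(a * s)) ^ 2)⁻¹ with hg
  have hgc : Continuous g := (by fun_prop : Continuous _).mul
    ((by fun_prop : Continuous _).inv₀ fun _ => (pow_pos (nn_pos _) 2).ne')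
  let r : ℝ → ℝ := fun a => Hh i U (a, -(a * s) + δ) - Hh i U (a, -(a * s)) - g a
  have hr : ∀ a, ‖r a‖ ≤ (θ * ω + M ^ i * (2 * |δ|)) * (nn (a, -(a * s)) ^ 2)⁻¹ := fun a => by
    set z := -(a * s)
    have k : ∀ p, Hh i U p = uu U p ^ i * (nn p ^ 2)⁻¹ := fun p => by
      rw [uu, ← Hh_mul (h.pos p).le, mul_inv_cancel_right₀ (pow_pos (nn_pos _) 2).ne']
    have k1 := (taylor_rpow h.i1 (h.mem (a, z)) (h.mem (a, z + δ)) (hε a z) hmod).trans
      (mul_le_mul_of_nonneg_left (hω a z) hθ)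
    have k2 := inv_nn_sub a z hδ
    have k3 : |uu U (a, z + δ) ^ i| ≤ M ^ i := by
      have := h.m0.le.trans (h.mem (a, z + δ)).1
      rw [abs_of_nonneg (Real.rpow_nonneg this _)]
      exact Real.rpow_le_rpow this (h.hi _) (by linarith [h.i1])
    have e : r a = (uu U (a, z + δ) ^ i - uu U (a, z) ^ i - ww i (uu U (a, z)) *
        (uu U (a, z + δ) - uu U (a, z))) * (nn (a, z) ^ 2)⁻¹ +
        uu U (a, z + δ) ^ i * ((nn (a, z + δ) ^ 2)⁻¹ - (nn (a, z) ^ 2)⁻¹) := by
      simp only [r, hg, k]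
      ring
    have k4 : 0 < (nn (a, z) ^ 2)⁻¹ := inv_pos.2 (pow_pos (nn_pos _) 2)
    rw [e, Real.norm_eq_abs]
    refine (abs_add_le _ _).trans ?_
    rw [abs_mul, abs_mul, abs_of_pos k4, add_mul, mul_assoc (M ^ i)]
    exact add_le_add (mul_le_mul_of_nonneg_right k1 k4.le)
      (mul_le_mul k3 k2 (abs_nonneg _) ((abs_nonneg _).trans k3))
  have hb := (integrable_line s).const_mul (θ * ω + M ^ i * (2 * |δ|))
  have ir : Integrable r := hb.mono' (by fun_prop : Continuous r).aestronglyMeasurable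
    (ae_of_all _ hr)
  have h1 := norm_integral_le_of_norm_le hb (ae_of_all _ hr)
  have hn := nn_pos (s, 0)
  rw [integral_const_mul, integral_line, Real.norm_eq_abs, ← mul_div_assoc, le_div_iff₀ hn] at h1
  have h2 : ∫ a, g a = c * V (s, -δ) - c * V (s, 0) - ∫ a, r a := by
    rw [← e1, ← e0, ← integral_sub i1 i0, ← integral_sub (i1.sub' i0) ir]
    exact integral_congr_ae (ae_of_all _ fun a => by simp [r])
  have h3 : |nn (s, -δ) - nn (s, 0)| ≤ |δ| := by
    have k1 := nn_le_add s (-δ) 0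
    have k2 := nn_le_add s 0 (-δ)
    simp only [sub_zero, abs_neg, sub_neg_eq_add, zero_add] at k1 k2
    exact abs_le.2 ⟨by linarith, by linarith⟩
  have h4 : V (s, -δ) ≤ M :=
    (le_mul_of_one_le_right (h.symm.pos _).le (one_le_nn _)).trans (h.hiV (s, -δ))
  have h5 := h.symm.pos (s, -δ)
  have e : c * (uu V (s, -δ) - uu V (s, 0)) - nn (s, 0) * ∫ a, g a =
      (∫ a, r a) * nn (s, 0) + c * (V (s, -δ) * (nn (s, -δ) - nn (s, 0))) := by
    rw [h2, uu, uu]; ring
  rw [e]
  refine (abs_add_le _ _).trans (add_le_add ?_ ?_)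
  · rwa [abs_mul, abs_of_pos hn, mul_comm π]
  · rw [abs_mul, abs_mul, abs_of_pos h.c0, abs_of_pos h5]
    have := h.c0
    have := h.M0
    gcongr

end Chart

theorem step {i m M c : ℝ} (hi : 1 < i) (hc : 0 < c) (hM : 0 < M) {η : ℝ} (hη : 0 < η) :
    ∃ ε > 0, ∀ d > 0, ∃ C ≥ 0, ∀ U V, Chart i m M c U V →
      (∀ p p', dist p p' ≤ d → |uu U p - uu U p'| ≤ ε) →
      (∀ p p', dist p p' ≤ d → |uu V p - uu V p'| ≤ ε) → ∀ δ ω, |δ| ≤ d → |δ| ≤ 1 →
      (∀ a z, |uu U (a, z + δ) - uu U (a, z)| ≤ ω) →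
      (∀ a z, |uu V (a, z + -δ) - uu V (a, z)| ≤ ω) →
      |uu U (0, δ) - uu U (0, 0)| ≤ η * ω + C * |δ| := by
  set W := ww i M with hW
  have hW0 : 0 ≤ W := mul_nonneg (by linarith) (Real.rpow_nonneg hM.le _)
  have hπ := Real.pi_pos
  obtain ⟨τ, hτ, hτ1⟩ := exists_pos_mul_lt (a := c ^ 2 * η / 2) (by positivity) (W * W)
  obtain ⟨n, hn⟩ := exists_tail hτ
  set R : ℝ := n + 1 with hR
  have hR1 : 1 ≤ R := le_add_of_nonneg_left n.cast_nonneg
  obtain ⟨θ, hθ, hθ1⟩ := exists_pos_mul_lt (a := c ^ 2 * η / 2) (by positivity)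
    ((c + W * π) * π + (2 * W + W * W) * (2 * R) * (2 * R))
  obtain ⟨ε, hε, hmod⟩ := Metric.uniformContinuousOn_iff_le.1
    ((isCompact_Icc (a := m) (b := M)).uniformContinuousOn_of_continuous
      (continuous_ww hi).continuousOn) θ hθ
  obtain ⟨d0, hd0, hTh⟩ := Metric.uniformContinuousOn_iff_le.1
    (((isCompact_Icc (a := -R) (b := R)).prod
      (isCompact_Icc (a := -R) (b := R))).uniformContinuousOn_of_continuous
      continuous_Th.continuousOn) θ hθ
  refine ⟨ε, hε, fun d hd => ?_⟩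
  have hl : 0 < min d0 (d / R) := lt_min hd0 (by positivity)
  obtain ⟨N, hN⟩ := exists_nat_ge (2 * R / min d0 (d / R))
  have hN0 : (0 : ℝ) < N := lt_of_lt_of_le (by positivity) hN
  have hN1 : 2 * R / N ≤ min d0 (d / R) := by rwa [div_le_comm₀ hN0 hl]
  have hMi := Real.rpow_pos_of_pos hM i
  refine ⟨((c + W * π) * (π * M ^ i * 2 + c * M) + N * (W * W * (2 * M * R)) * (2 * R)) / c ^ 2,
    by positivity, fun U V h eU eV δ ω hδ hδ1 ωU ωV => ?_⟩
  have hω : 0 ≤ ω := (abs_nonneg _).trans (ωU 0 0)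
  have hmod' : ∀ x ∈ Icc m M, ∀ y ∈ Icc m M, |y - x| ≤ ε → |ww i y - ww i x| ≤ θ :=
    fun x hx y hy k => hmod y hy x hx k
  have hu := h.continuous_uu
  have hv := h.symm.continuous_uu
  have hw := continuous_ww hi
  have hT := continuous_Th
  have h1 := fun s => h.one hmod' hθ.le hδ1 s (fun a z => eU _ _ (by simpa [Prod.dist_eq])) ωU
  have h2 := h.symm.one hmod' hθ.le (δ := -δ) (by rwa [abs_neg]) 0
    (fun a z => eV _ _ (by simpa [Prod.dist_eq])) ωV
  have n0 : nn (0, 0) = 1 := by simp [nn]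
  simp only [mul_zero, neg_zero, zero_add, neg_neg, abs_neg, n0, one_mul] at h2
  set e := π * (θ * ω + M ^ i * (2 * |δ|)) + c * (M * |δ|) with he
  let k : ℝ × ℝ → ℝ := fun p => ww i (uu V (p.2, 0)) * ww i (uu U (p.1, -(p.1 * p.2))) * Th p
  let Φ : ℝ × ℝ → ℝ := fun p =>
    k p * (uu U (p.1, -(p.1 * p.2) + δ) - uu U (p.1, -(p.1 * p.2)))
  have hk : ∀ p, |k p| ≤ W * W * Th p := fun p => by
    simp only [k, abs_mul, abs_of_pos (Th_pos p)]
    exact mul_le_mul_of_nonneg_right (mul_le_mul (h.symm.abs_ww _) (h.abs_ww _) (abs_nonneg _) hW0)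
      (Th_pos p).le
  have hΦ : ∀ p, ‖Φ p‖ ≤ W * W * ω * Th p := fun p => by
    simp only [Φ, Real.norm_eq_abs]
    rw [abs_mul, mul_right_comm]
    exact mul_le_mul (hk p) (ωU _ _) (abs_nonneg _) ((abs_nonneg _).trans (hk p))
  have iT := integrable_Th.const_mul (W * W * ω)
  have iΦ : Integrable Φ := iT.mono' (by fun_prop : Continuous Φ).aestronglyMeasurable
    (ae_of_all _ hΦ)
  have i0 : Integrable fun s => (nn (s, 0) ^ 2)⁻¹ := by simpa using integrable_line 0
  have e0 : ∫ s, (nn (s, 0) ^ 2)⁻¹ = π := by simpa [n0] using integral_line 0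
  have h4 : |c * (∫ s, ww i (uu V (s, 0)) * (uu V (s, -δ) - uu V (s, 0)) * (nn (s, 0) ^ 2)⁻¹) -
      ∫ p, Φ p| ≤ W * e * π := by
    have iΦ' := iΦ
    rw [Measure.volume_eq_prod] at iΦ' ⊢
    have i1 : Integrable fun s =>
        ww i (uu V (s, 0)) * (uu V (s, -δ) - uu V (s, 0)) * (nn (s, 0) ^ 2)⁻¹ := by
      refine (i0.const_mul (W * ω)).mono' (Continuous.aestronglyMeasurable
        ((by fun_prop : Continuous _).mul ((by fun_prop : Continuous _).inv₀ fun _ =>
          (pow_pos (nn_pos _) 2).ne'))) (ae_of_all _ fun s => ?_)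
      have k1 := inv_pos.2 (pow_pos (nn_pos (s, 0)) 2)
      have k2 := ωV s 0
      rw [zero_add] at k2
      rw [Real.norm_eq_abs, abs_mul, abs_mul, abs_of_pos k1]
      exact mul_le_mul_of_nonneg_right (mul_le_mul (h.symm.abs_ww _) k2 (abs_nonneg _) hW0) k1.le
    rw [integral_prod_symm _ iΦ', ← integral_const_mul,
      ← integral_sub (i1.const_mul c) iΦ'.integral_prod_right, ← e0, ← integral_const_mul,
      ← Real.norm_eq_abs]
    refine norm_integral_le_of_norm_le (i0.const_mul _) (ae_of_all _ fun s => ?_)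
    have k1 := nn_pos (s, 0)
    have k2 : ∫ a, Φ (a, s) = ww i (uu V (s, 0)) * (nn (s, 0))⁻¹ * ∫ a, ww i (uu U (a, -(a * s))) *
        (uu U (a, -(a * s) + δ) - uu U (a, -(a * s))) * (nn (a, -(a * s)) ^ 2)⁻¹ := by
      rw [← integral_const_mul]
      exact integral_congr_ae (ae_of_all _ fun a => by simp only [Φ, k, Th]; ring)
    have k3 : ∀ w x y : ℝ, c * (w * x * (nn (s, 0) ^ 2)⁻¹) - w * (nn (s, 0))⁻¹ * y =
        w * (c * x - nn (s, 0) * y) * (nn (s, 0) ^ 2)⁻¹ := fun w x y => by field_simp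
    have k4 := inv_pos.2 (pow_pos k1 2)
    rw [k2, k3, Real.norm_eq_abs, abs_mul, abs_mul, abs_of_pos k4]
    exact mul_le_mul_of_nonneg_right (mul_le_mul (h.symm.abs_ww _) (h1 s) (abs_nonneg _) hW0) k4.le
  have h6 : |∫ p in (Kn n)ᶜ, Φ p| ≤ W * W * ω * τ := by
    refine (norm_integral_le_of_norm_le iT.integrableOn (ae_of_all _ hΦ)).trans ?_
    rw [integral_const_mul]
    exact mul_le_mul_of_nonneg_left hn (by positivity)
  have h7 : |∫ p in Kn n, Φ p| ≤ N * ((2 * W + W * W) * θ * ω * (2 * R / N) +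
      W * W * (2 * M * (R * |δ|))) * (2 * R) := by
    have iΦ' := iΦ
    rw [Measure.volume_eq_prod] at iΦ' ⊢
    have hsub : {a : ℝ | 1 ≤ R * |a| ∧ |a| ≤ R} ⊆ Icc (-R) R := fun a ha => abs_le.1 ha.2
    rw [Kn, setIntegral_prod _ iΦ'.integrableOn, ← Real.norm_eq_abs, ← hR]
    refine (norm_setIntegral_le_of_norm_le_const (C := N * ((2 * W + W * W) * θ * ω * (2 * R / N) +
      W * W * (2 * M * (R * |δ|)))) ((measure_mono hsub).trans_lt measure_Icc_lt_top)
      fun a ha => ?_).trans (mul_le_mul_of_nonneg_left ?_ (by positivity))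
    · have ha0 : 0 < |a| := pos_of_mul_pos_left (b := R) (by linarith [ha.1]) (by linarith)
      have ha1 := abs_pos.1 ha0
      have k1 := subdiv (k := fun s => k (a, s)) (f := fun s => uu U (a, -(a * s))) (by fun_prop)
        (by fun_prop) (h := 2 * R / N) (θ := (2 * W + W * W) * θ) (K := W * W) (M := M) (ω := ω)
        (t := -δ / a) (A := -R) (B := R) (by positivity)
        (fun s => (hk _).trans (mul_le_of_le_one_right (by positivity) (Th_le _)))
        (fun s => abs_le.2 ⟨by linarith [(h.mem (a, -(a * s))).1, h.m0], h.hi _⟩)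
        (fun s => by
          rw [show -(a * (s + -δ / a)) = -(a * s) + δ by field_simp; ring]; exact ωU _ _)
        (fun s hs s' hs' hss => by
          have l1 := hss.trans (hN1.trans (min_le_right _ _))
          have l2 : d / R ≤ d := div_le_self hd.le hR1
          have l3 := hmod' _ (h.symm.mem _) _ (h.symm.mem _) (eV (s, 0) (s', 0) (by
            simpa [Prod.dist_eq, Real.dist_eq] using l1.trans l2))
          have l4 := hmod' _ (h.mem _) _ (h.mem _) (eU (a, -(a * s)) (a, -(a * s')) (by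
            rw [Prod.dist_eq, dist_self, dist_neg_neg, Real.dist_eq, ← mul_sub, abs_mul,
              max_eq_right (by positivity)]
            rw [le_div_iff₀ (by linarith)] at l1
            exact (mul_le_mul_of_nonneg_right ha.2 (abs_nonneg _)).trans (by linarith)))
          have l5 : |Th (a, s) - Th (a, s')| ≤ θ := hTh _ ⟨hsub ha, hs⟩ _ ⟨hsub ha, hs'⟩ (by
            simpa [Prod.dist_eq, Real.dist_eq] using hss.trans (hN1.trans (min_le_left _ _)))
          have l6 : ∀ x y z x' y' z' : ℝ, x * y * z - x' * y' * z' =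
              (x - x') * y * z + x' * (y - y') * z + x' * y' * (z - z') := by intros; ring
          have l7 : |Th (a, s)| ≤ 1 := by rw [abs_of_pos (Th_pos _)]; exact Th_le _
          have l8 := h.abs_ww (a, -(a * s))
          have l9 := h.abs_ww (a, -(a * s'))
          have l10 := h.symm.abs_ww (s', 0)
          simp only [k]
          rw [l6]
          refine (abs_add_three _ _ _).trans ?_
          simp only [abs_mul]
          calc _ ≤ θ * W * 1 + W * θ * 1 + W * W * θ := by gcongr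
            _ = _ := by ring) N (by field_simp; linarith)
      rw [show -R + N * (2 * R / N) = R by field_simp; ring,
        intervalIntegral.integral_of_le (by linarith)] at k1
      have k2 : |-δ / a| ≤ R * |δ| := by
        rw [abs_div, abs_neg, div_le_iff₀ ha0, mul_right_comm]
        exact le_mul_of_one_le_left (abs_nonneg _) ha.1
      have k3 : ∀ s, -(a * (s + -δ / a)) = -(a * s) + δ := fun s => by field_simp; ring
      simp only [k3] at k1
      exact k1.trans (by gcongr)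
    · refine (measureReal_mono hsub measure_Icc_lt_top.ne).trans (le_of_eq ?_)
      rw [Real.volume_real_Icc_of_le (by linarith)]
      ring
  have h8 := integral_add_compl (measurableSet_Kn n) iΦ
  have h9 : N * ((2 * W + W * W) * θ * ω * (2 * R / N) + W * W * (2 * M * (R * |δ|))) * (2 * R) =
      (2 * W + W * W) * (2 * R) * (2 * R) * θ * ω +
        N * (W * W * (2 * M * R)) * (2 * R) * |δ| := by field_simp
  have h10 := mul_le_mul_of_nonneg_left h2 hc.le
  rw [← abs_of_pos hc, ← abs_mul, abs_of_pos hc] at h10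
  have h11 := mul_le_mul_of_nonneg_right hτ1.le hω
  have h12 := mul_le_mul_of_nonneg_right hθ1.le hω
  refine le_of_mul_le_mul_left ?_ (pow_pos hc 2)
  rw [mul_add, ← mul_assoc (c ^ 2) (_ / _), mul_div_cancel₀ _ (pow_pos hc 2).ne',
    ← abs_of_pos (pow_pos hc 2), ← abs_mul, abs_of_pos (pow_pos hc 2)]
  rw [h9] at h7
  rw [abs_le] at h4 h6 h7 h10 ⊢
  constructor <;> linarith [h4.1, h4.2, h6.1, h6.2, h7.1, h7.2, h10.1, h10.2]

end Pool.Agent.Lib.MP_0a1ca9_gt
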