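import Pool.Agent.Lib.MP_0a1ca9_gt.TSym

/-! The first variation under spreading of components: symmetry. -/

open MeasureTheory Set Filter Topology
open scoped ENNReal

namespace Pool.Agent.Lib.MP_0a1ca9_gt

theorem measurable_spr {H U : ℝ × ℝ → ℝ} (hd : Dec H) (hU : Continuous U) (τ : ℝ) :
    Measurable (spr H U τ) := by
  have hal := hd.measurable_al
  have hbt := hd.measurable_bt
  have hm : Measurable ({p : (ℝ × ℝ × ℝ) × ℝ |
      al H p.1 + τ * ((al H p.1 + bt H p.1) / 2) ≤ p.2 ∧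
        p.2 ≤ bt H p.1 + τ * ((al H p.1 + bt H p.1) / 2)}.indicator
      fun p => ENNReal.ofReal (U (p.1.1, p.2))) :=
    Measurable.indicator (by fun_prop) (by refine ms_le_and ?_ ?_ ?_ ?_ <;> fun_prop)
  convert hm.lintegral_prod_right' (ν := volume) using 2 with ω
  rw [spr, ← lintegral_indicator measurableSet_Icc]
  rfl

theorem toReal_lintegral_Icc {f : ℝ → ℝ} (hf : Continuous f) (h0 : ∀ x, 0 ≤ f x) {α β : ℝ}
    (h : α ≤ β) : (∫⁻ z in Icc α β, ENNReal.ofReal (f z)).toReal =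
      (∫ x in (0 : ℝ)..β, f x) - ∫ x in (0 : ℝ)..α, f x := by
  rw [intervalIntegral.integral_interval_sub_left (hf.intervalIntegrable _ _)
    (hf.intervalIntegrable _ _), intervalIntegral.integral_of_le h, ← integral_Icc_eq_integral_Ioc,
    integral_eq_lintegral_of_nonneg_ae (ae_of_all _ h0) hf.aestronglyMeasurable]

namespace Chart

variable {i m M c L : ℝ} {U V : ℝ × ℝ → ℝ} (h : Chart i m M c U V)
include h

theorem one_le_K : 1 ≤ M ^ i / m ^ i := by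
  rw [one_le_div (Real.rpow_pos_of_pos h.m0 _)]
  exact Real.rpow_le_rpow h.m0.le ((h.lo 0).trans (h.hi 0)) (by linarith [h.i1])

theorem nn_le {p p' : ℝ × ℝ} (hp : Hh i U p' ≤ Hh i U p) : nn p ≤ M ^ i / m ^ i * nn p' := by
  have h1 := h.H_lo p'
  have h2 := h.H_hi p
  have h3 := h.one_le_K
  have hm : 0 < m ^ i := Real.rpow_pos_of_pos h.m0 _
  have h4 := h.H_pos p'
  have h5 := nn_pos p
  have h6 := nn_pos p'
  set K := M ^ i / m ^ i with hK
  have h7 : M ^ i = K * m ^ i := by rw [hK]; field_simp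
  refine (sq_le_sq₀ h5.le (by positivity)).1 ?_
  refine le_of_mul_le_mul_left ?_ h4
  calc Hh i U p' * nn p ^ 2 ≤ Hh i U p * nn p ^ 2 := by gcongr
    _ ≤ K * m ^ i := h7 ▸ h2
    _ ≤ K * (Hh i U p' * nn p' ^ 2) := by gcongr
    _ ≤ K * K * (Hh i U p' * nn p' ^ 2) := by
      rw [mul_assoc]
      exact mul_le_mul_of_nonneg_left (le_mul_of_one_le_left (by positivity) h3) (by positivity)
    _ = _ := by ring

theorem deriv_bound (hL : 0 ≤ L)
    (lip : ∀ a z z', |U (a, z) - U (a, z')| ≤ L * |z - z'| / (nn (a, z) * nn (a, z')))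
    {a z α β θ : ℝ} (hαβ : α ≤ β) (h1 : Hh i U (a, α) = Hh i U (a, β))
    (h2 : Hh i U (a, β) ≤ Hh i U (a, z)) (h3 : 0 ≤ θ) (h4 : θ ≤ (2 * (M ^ i / m ^ i))⁻¹) :
    |U (a, β + θ * ((α + β) / 2)) * ((α + β) / 2) - U (a, α + θ * ((α + β) / 2)) * ((α + β) / 2)| ≤
      (β - α) * (4 * (M ^ i / m ^ i) ^ 2 * L / nn (a, z)) := by
  have k1 := h.nn_le h1.le
  have k2 := h.nn_le h1.ge
  have k3 := h.nn_le h2
  have hK := h.one_le_K
  set K := M ^ i / m ^ i
  set e := (α + β) / 2 with he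
  have pα := nn_pos (a, α)
  have pβ := nn_pos (a, β)
  have pz := nn_pos (a, z)
  have k4 : |e| ≤ (nn (a, α) + nn (a, β)) / 2 := by
    rw [he, abs_div, abs_two]
    linarith [abs_add_le α β, abs_le_nn a α, abs_le_nn a β]
  have k5 : |e| ≤ K * nn (a, α) := by nlinarith
  have k6 : |e| ≤ K * nn (a, β) := by nlinarith
  have k7 : ∀ y, |e| ≤ K * nn (a, y) → nn (a, y) / 2 ≤ nn (a, y + θ * e) := by
    intro y hy
    have k8 := nn_le_add a y (y + θ * e)
    rw [sub_add_cancel_left, abs_neg, abs_mul, abs_of_nonneg h3] at k8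
    have k9 : θ * |e| ≤ (2 * K)⁻¹ * (K * nn (a, y)) := by gcongr
    have k10 : (2 * K)⁻¹ * (K * nn (a, y)) = nn (a, y) / 2 := by field_simp
    linarith
  have k11 := lip a (β + θ * e) (α + θ * e)
  rw [add_sub_add_right_eq_sub, abs_of_nonneg (sub_nonneg.2 hαβ)] at k11
  have hl := sub_nonneg.2 hαβ
  rw [← sub_mul, abs_mul]
  calc _ ≤ L * (β - α) / (nn (a, β) / 2 * (nn (a, α) / 2)) * (K * nn (a, α)) := by
        refine mul_le_mul (k11.trans ?_) k5 (abs_nonneg _) (by positivity)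
        have := k7 α k5
        have := k7 β k6
        have := nn_pos (a, β + θ * e)
        gcongr
    _ = (β - α) * (4 * K ^ 2 * L / (K * nn (a, β))) := by field_simp; ring
    _ ≤ _ := by gcongr

theorem gain_pos {a α β : ℝ} (hαβ : α < β) (h1 : Hh i U (a, α) = Hh i U (a, β))
    (he : (α + β) / 2 ≠ 0) : 0 < U (a, β) * ((α + β) / 2) - U (a, α) * ((α + β) / 2) := by
  have key : ∀ x y, Hh i U (a, x) = Hh i U (a, y) → x ^ 2 < y ^ 2 → U (a, x) < U (a, y) := by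
    intro x y h2 h3
    by_contra h4
    have h5 : nn (a, x) < nn (a, y) := Real.sqrt_lt_sqrt (by positivity) (by simpa using h3)
    have h6 := Real.rpow_lt_rpow_of_neg (nn_pos _) h5 (z := i - 2) (by linarith [h.i2])
    have h7 := Real.rpow_le_rpow (h.pos _).le (not_lt.1 h4) (z := i) (by linarith [h.i1])
    refine absurd h2 (ne_of_gt ?_)
    exact mul_lt_mul' h7 h6 (Real.rpow_pos_of_pos (nn_pos _) _).le
      (Real.rpow_pos_of_pos (h.pos _) _)
  rw [← sub_mul]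
  rcases lt_or_gt_of_ne he with k | k
  · exact mul_pos_of_neg_of_neg (sub_neg.2 (key β α h1.symm (by nlinarith))) k
  · exact mul_pos (sub_pos.2 (key α β h1 (by nlinarith))) k

theorem ae_centre (hL : 0 ≤ L)
    (lip : ∀ a z z', |U (a, z) - U (a, z')| ≤ L * |z - z'| / (nn (a, z) * nn (a, z'))) :
    ∀ᵐ ω ∂cmu (Hh i U), (al (Hh i U) ω + bt (Hh i U) ω) / 2 = 0 := by
  have hd := h.dec
  have hsp := fun τ hτ => h.spread_le (τ := τ) hτ
  have hdb := fun a z α β θ => h.deriv_bound hL lip (a := a) (z := z) (α := α) (β := β) (θ := θ)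
  have hgp := fun a α β => h.gain_pos (a := a) (α := α) (β := β)
  have hHi := h.H_hi
  have hK := h.one_le_K
  set H := Hh i U
  set K := M ^ i / m ^ i
  have hal := hd.measurable_al
  have hbt := hd.measurable_bt
  have hcU := h.cU
  have hG : ∀ᵐ ω ∂cmu H, 0 < ω.2.1 ∧ ω.2.1 < H (ω.1, ω.2.2) :=
    hd.ae_cmu.2 (ae_of_all _ fun ω h1 h2 => ⟨h1, h2⟩)
  let F : ℝ → ℝ × ℝ × ℝ → ℝ := fun τ ω => (spr H U τ ω).toReal
  let D : ℝ × ℝ × ℝ → ℝ := fun ω =>
    U (ω.1, bt H ω) * ((al H ω + bt H ω) / 2) - U (ω.1, al H ω) * ((al H ω + bt H ω) / 2)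
  let B : ℝ × ℝ × ℝ → ℝ := fun ω => (bt H ω - al H ω) * (4 * K ^ 2 * L / nn (ω.1, ω.2.2))
  have hFm : ∀ τ, Measurable (F τ) := fun τ => (measurable_spr hd hcU τ).ennreal_toReal
  have hFi : ∀ τ, 0 ≤ τ → Integrable (F τ) (cmu H) := fun τ hτ =>
    integrable_toReal_of_lintegral_ne_top (measurable_spr hd hcU τ).aemeasurable
      ((hsp τ hτ).1.trans_lt (hsp τ hτ).2).ne
  have hFle : ∀ τ, 0 ≤ τ → ∫ ω, F τ ω ∂cmu H ≤ ∫ ω, F 0 ω ∂cmu H := by
    intro τ hτ
    rw [integral_toReal (measurable_spr hd hcU τ).aemeasurable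
      (ae_lt_top (measurable_spr hd hcU τ) ((hsp τ hτ).1.trans_lt (hsp τ hτ).2).ne),
      integral_toReal (measurable_spr hd hcU 0).aemeasurable
      (ae_lt_top (measurable_spr hd hcU 0) (hsp τ hτ).2.ne)]
    exact ENNReal.toReal_mono (hsp τ hτ).2.ne (hsp τ hτ).1
  have hder : ∀ ω : ℝ × ℝ × ℝ, 0 < ω.2.1 ∧ ω.2.1 < H (ω.1, ω.2.2) → ∀ θ,
      HasDerivAt (fun τ => F τ ω)
        (U (ω.1, bt H ω + θ * ((al H ω + bt H ω) / 2)) * ((al H ω + bt H ω) / 2) -
          U (ω.1, al H ω + θ * ((al H ω + bt H ω) / 2)) * ((al H ω + bt H ω) / 2)) θ := by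
    rintro ⟨a, t, z⟩ hω θ
    obtain ⟨k1, k2, -⟩ := hd.comp hω.1 hω.2
    have hf : Continuous fun x => U (a, x) := by fun_prop
    have k3 : (fun τ => F τ (a, t, z)) = fun τ =>
        (∫ x in (0 : ℝ)..(bt H (a, t, z) + τ * ((al H (a, t, z) + bt H (a, t, z)) / 2)), U (a, x)) -
        ∫ x in (0 : ℝ)..(al H (a, t, z) + τ * ((al H (a, t, z) + bt H (a, t, z)) / 2)), U (a, x) :=
      funext fun τ => toReal_lintegral_Icc hf (fun x => (h.pos _).le) (by linarith)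
    rw [k3]
    have k4 : ∀ y e : ℝ, HasDerivAt (fun τ => ∫ x in (0 : ℝ)..(y + τ * e), U (a, x))
        (U (a, y + θ * e) * e) θ := fun y e =>
      HasDerivAt.comp (h₂ := fun u => ∫ x in (0 : ℝ)..u, U (a, x)) (h := fun τ => y + τ * e) θ
        (intervalIntegral.integral_hasDerivAt_right (hf.intervalIntegrable _ _)
          (hf.stronglyMeasurableAtFilter _ _) hf.continuousAt)
        ((hasDerivAt_mul_const e).const_add y)
    exact (k4 _ _).sub (k4 _ _)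
  have hB : Integrable B (cmu H) := by
    refine ⟨Measurable.aestronglyMeasurable (by fun_prop), ?_⟩
    have k1 : ∀ᵐ ω ∂cmu H, ‖B ω‖ₑ = ENNReal.ofReal (bt H ω - al H ω) *
        ENNReal.ofReal (4 * K ^ 2 * L / nn (ω.1, ω.2.2)) := by
      filter_upwards [hG] with ⟨a, t, z⟩ hω
      obtain ⟨k1, k2, -⟩ := hd.comp hω.1 hω.2
      have := nn_pos (a, z)
      have k3 := (sub_pos.2 (k1.trans k2)).le
      rw [Real.enorm_eq_ofReal (by positivity), ENNReal.ofReal_mul k3]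
    rw [HasFiniteIntegral, lintegral_congr_ae k1,
      hd.lintegral_len (G := fun p => ENNReal.ofReal (4 * K ^ 2 * L / nn p)) (by fun_prop)]
    refine lt_of_le_of_lt (lintegral_mono (g := fun p => ENNReal.ofReal (M ^ i * (4 * K ^ 2 * L)) *
      ENNReal.ofReal (nn p ^ 3)⁻¹) fun p => ?_) ?_
    · have := nn_pos p
      have hM := h.M0
      simp only []
      rw [← ENNReal.ofReal_mul (hd.pos p).le, ← ENNReal.ofReal_mul (by positivity)]
      refine ENNReal.ofReal_le_ofReal ?_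
      calc _ = H p * nn p ^ 2 * (4 * K ^ 2 * L) * (nn p ^ 3)⁻¹ := by field_simp
        _ ≤ _ := by gcongr; exact hHi p
    · rw [lintegral_const_mul' _ _ ENNReal.ofReal_ne_top]
      exact ENNReal.mul_lt_top ENNReal.ofReal_lt_top lintegral_nn_lt_top
  have hbd : ∀ ω : ℝ × ℝ × ℝ, 0 < ω.2.1 ∧ ω.2.1 < H (ω.1, ω.2.2) → ∀ θ ∈ Icc 0 (2 * K)⁻¹,
      ‖U (ω.1, bt H ω + θ * ((al H ω + bt H ω) / 2)) * ((al H ω + bt H ω) / 2) -
        U (ω.1, al H ω + θ * ((al H ω + bt H ω) / 2)) * ((al H ω + bt H ω) / 2)‖ ≤ B ω := by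
    rintro ⟨a, t, z⟩ hω θ hθ
    obtain ⟨k1, k2, k3, k4, -⟩ := hd.comp hω.1 hω.2
    exact hdb a z _ _ θ (k1.trans k2).le (k3.trans k4.symm) (k4.trans_le hω.2.le) hθ.1 hθ.2
  have hK0 : 0 < (2 * K)⁻¹ := by positivity
  have hlim : Tendsto (fun τ : ℝ => ∫ ω, τ⁻¹ • (F (0 + τ) ω - F 0 ω) ∂cmu H) (𝓝[>] 0)
      (𝓝 (∫ ω, D ω ∂cmu H)) := by
    refine tendsto_integral_filter_of_dominated_convergence B (Eventually.of_forall fun τ =>
      (((hFm _).sub (hFm _)).const_smul τ⁻¹).aestronglyMeasurable) ?_ hB ?_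
    · filter_upwards [Ioc_mem_nhdsGT hK0] with τ hτ
      filter_upwards [hG] with ω hω
      have k1 := norm_image_sub_le_of_norm_deriv_le_segment' (a := 0) (b := (2 * K)⁻¹)
        (fun θ _ => (hder ω hω θ).hasDerivWithinAt)
        (fun θ hθ => hbd ω hω θ (Ico_subset_Icc_self hθ)) τ ⟨hτ.1.le, hτ.2⟩
      rw [norm_smul, norm_inv, Real.norm_of_nonneg hτ.1.le, zero_add, inv_mul_le_iff₀ hτ.1]
      rwa [sub_zero, mul_comm] at k1
    · filter_upwards [hG] with ω hω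
      simpa [D] using (hder ω hω 0).tendsto_slope_zero_right
  have hD0 : ∫ ω, D ω ∂cmu H ≤ 0 := by
    refine le_of_tendsto hlim ?_
    filter_upwards [self_mem_nhdsWithin] with τ hτ
    have hτ' : 0 < τ := hτ
    rw [integral_smul, zero_add, integral_sub (hFi τ hτ'.le) (hFi 0 le_rfl)]
    exact mul_nonpos_of_nonneg_of_nonpos (by positivity) (sub_nonpos.2 (hFle τ hτ'.le))
  have hDp : ∀ ω : ℝ × ℝ × ℝ, 0 < ω.2.1 ∧ ω.2.1 < H (ω.1, ω.2.2) →
      (al H ω + bt H ω) / 2 ≠ 0 → 0 < D ω := by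
    rintro ⟨a, t, z⟩ hω
    obtain ⟨k1, k2, k3, k4, -⟩ := hd.comp hω.1 hω.2
    exact hgp a _ _ (k1.trans k2) (k3.trans k4.symm)
  have hDn : 0 ≤ᵐ[cmu H] D := by
    filter_upwards [hG] with ω hω
    by_cases k : (al H ω + bt H ω) / 2 = 0
    · simp [D, k]
    · exact (hDp ω hω k).le
  have hDi : Integrable D (cmu H) := by
    refine hB.mono' (Measurable.aestronglyMeasurable (by fun_prop)) ?_
    filter_upwards [hG] with ω hω
    simpa [D] using hbd ω hω 0 ⟨le_rfl, hK0.le⟩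
  filter_upwards [(integral_eq_zero_iff_of_nonneg_ae hDn hDi).1
    (le_antisymm hD0 (integral_nonneg_of_ae hDn)), hG] with ω k hω
  by_contra k'
  exact (hDp ω hω k').ne' k

theorem symmetric (hL : 0 ≤ L)
    (lip : ∀ a z z', |U (a, z) - U (a, z')| ≤ L * |z - z'| / (nn (a, z) * nn (a, z')))
    (a z : ℝ) : U (a, -z) = U (a, z) := by
  have hd := h.dec
  have hc := hd.cont
  have h1 := hd.ae_cmu.1 (h.ae_centre hL lip)
  have ho : IsOpen {ω : ℝ × ℝ × ℝ | Hh i U (ω.1, -ω.2.2) < ω.2.1 ∧ ω.2.1 < Hh i U (ω.1, ω.2.2)} := by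
    refine IsOpen.and (isOpen_lt ?_ ?_) (isOpen_lt ?_ ?_) <;> fun_prop
  have h2 : {ω : ℝ × ℝ × ℝ | Hh i U (ω.1, -ω.2.2) < ω.2.1 ∧ ω.2.1 < Hh i U (ω.1, ω.2.2)} = ∅ := by
    rw [← ho.measure_eq_zero_iff volume, measure_eq_zero_iff_ae_notMem]
    filter_upwards [h1] with ⟨a, t, z⟩ k hω
    have k0 : 0 < t := (h.H_pos _).trans hω.1
    obtain ⟨k1, k2, -, -, k3⟩ := hd.comp k0 hω.2
    have k4 := k k0 hω.2
    exact not_lt.2 hω.1.le (k3 (-z) (by linarith) (by linarith)).1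
  have h3 : ∀ z, Hh i U (a, z) ≤ Hh i U (a, -z) := by
    intro z
    by_contra k
    obtain ⟨t, k1, k2⟩ := exists_between (not_le.1 k)
    exact (eq_empty_iff_forall_notMem.1 h2) (a, t, z) ⟨k1, k2⟩
  have h4 : Hh i U (a, -z) = Hh i U (a, z) := le_antisymm (by simpa using h3 (-z)) (h3 z)
  rw [Hh, Hh, nn_neg, mul_left_inj' (Real.rpow_pos_of_pos (nn_pos _) _).ne'] at h4
  exact (Real.rpow_left_inj (h.pos _).le (h.pos _).le (by linarith [h.i1])).1 h4

end Chart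

end Pool.Agent.Lib.MP_0a1ca9_gt
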