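import Pool.Agent.Lib.MP_0a1ca9_gt.TEq
import Pool.Agent.Lib.MP_0a1ca9_gt.TVar
import Pool.Agent.Lib.MP_0a1ca9_gt.TLip

/-! The classification in dimension three, for orders between one and two. -/

open MeasureTheory Set Metric Module
open scoped ENNReal RealInnerProductSpace

namespace Pool.Agent.Lib.MP_0a1ca9_gt

variable {E : Type*} [NormedAddCommGroup E] [InnerProductSpace ℝ E]

theorem Frm.dir_zero {p r q : E} (h : Frm p r q) : dir (XX p r q (0, 0)) = p := by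
  simp [XX, dir, h.np]

/-- The function of degree `-1` attached to `ρ`, in a chart. -/
noncomputable def UU (ρ : E → ℝ) (p r q : E) (w : ℝ × ℝ) : ℝ := ρ (dir (XX p r q w)) / nn w

theorem UU_mul (ρ : E → ℝ) (p r q : E) (w : ℝ × ℝ) :
    UU ρ p r q w * nn w = ρ (dir (XX p r q w)) := div_mul_cancel₀ _ (nn_pos w).ne'

namespace Sol

variable {i c m M : ℝ} {ρ : E → ℝ} (h : Sol i c ρ)
include h

theorem continuous_comp {p r q : E} (hf : Frm p r q) :
    Continuous fun w => ρ (dir (XX p r q w)) :=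
  h.cont.comp_continuous hf.continuous_dir fun w => by simpa using norm_dir (hf.XX_ne w)

theorem chart (i1 : 1 < i) (i2 : i < 2) (hc : 0 < c) (hm : 0 < m)
    (hb : ∀ u, ‖u‖ = 1 → ρ u ∈ Icc m M) {p r q : E} (hf : Frm p r q) :
    Chart i m M c (UU ρ p r q) (UU ρ q r p) := by
  have k1 : ∀ {p r q : E}, Frm p r q → Continuous (UU ρ p r q) := fun hf =>
    (h.continuous_comp hf).div continuous_nn fun w => (nn_pos w).ne'
  have k2 : ∀ {p r q : E}, Frm p r q → ∀ w, UU ρ p r q w * nn w ∈ Icc m M := fun hf w => by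
    rw [UU_mul]; exact hb _ (norm_dir (hf.XX_ne w))
  have k3 : ∀ {p r q : E}, Frm p r q → ∀ x s, ∫⁻ a, ENNReal.ofReal
      (Hh i (UU ρ p r q) (a, -x - a * s)) = ENNReal.ofReal (c * UU ρ q r p (s, x)) := by
    intro p r q hf x s
    rw [UU, ← h.eq p r q hf x s]
    refine lintegral_congr fun a => congrArg _ ?_
    rw [eq_div_iff (pow_pos (nn_pos _) 2).ne', Hh_mul (div_nonneg (h.nonneg _) (nn_pos _).le)]
    exact congrArg (· ^ i) (UU_mul _ _ _ _ _)
  exact ⟨i1, i2, hm, hc, k1 hf, k1 hf.symm, fun w => (k2 hf w).1, fun w => (k2 hf w).2,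
    fun w => (k2 hf.symm w).1, fun w => (k2 hf.symm w).2, k3 hf, k3 hf.symm⟩

variable [FiniteDimensional ℝ E] (hE : finrank ℝ E = 3)
include hE

theorem zero_perp (hi : 0 < i) {p q : E} (hp : ‖p‖ = 1) (hq : ‖q‖ = 1) (hpq : ⟪p, q⟫ = 0)
    (h0 : ρ q = 0) : ρ p = 0 := by
  obtain ⟨r, hr, h1, h2⟩ := exists_third hE p q
  have hf : Frm p r q := ⟨hp, hr, hq, h1, hpq, by rw [real_inner_comm, h2]⟩
  have h3 := h.eq p r q hf 0 0
  have h4 : Continuous fun t : ℝ => ENNReal.ofReal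
      (ρ (dir (XX p r q (t, -0 - t * 0))) ^ i / nn (t, -0 - t * 0) ^ 2) :=
    ENNReal.continuous_ofReal.comp ((((h.continuous_comp hf).comp (by fun_prop)).rpow_const
      fun _ => Or.inr hi.le).div (by fun_prop) fun _ => (pow_pos (nn_pos _) 2).ne')
  rw [hf.symm.dir_zero, h0, zero_div, mul_zero, ENNReal.ofReal_zero,
    lintegral_eq_zero_iff h4.measurable, h4.ae_eq_iff_eq volume continuous_zero] at h3
  have h5 := congrFun h3 0
  simp only [neg_zero, mul_zero, sub_zero, hf.dir_zero, Pi.zero_apply, ENNReal.ofReal_eq_zero] at h5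
  by_contra k
  exact absurd h5 (not_le.2 (div_pos (Real.rpow_pos_of_pos
    ((h.nonneg p).lt_of_ne' k) _) (pow_pos (nn_pos _) 2)))

theorem lipschitz (i1 : 1 < i) (i2 : i < 2) (hc : 0 < c) (hm : 0 < m) (hM : 0 < M)
    (hb : ∀ u, ‖u‖ = 1 → ρ u ∈ Icc m M) :
    ∃ Λ ≥ 0, ∀ u v : E, ‖u‖ = 1 → ‖v‖ = 1 → |ρ u - ρ v| ≤ Λ * ‖u - v‖ := by
  obtain ⟨ε, hε, hs⟩ := step (m := m) i1 hc hM (η := 1 / 8) (by norm_num)
  obtain ⟨d, hd, huc⟩ := Metric.uniformContinuousOn_iff_le.1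
    ((isCompact_sphere (0 : E) 1).uniformContinuousOn_of_continuous h.cont) ε hε
  obtain ⟨C, hC, hs⟩ := hs (d / 4) (by positivity)
  have hl : 0 < min (d / 8) (1 / 2) := lt_min (by positivity) (by norm_num)
  set C' := 2 * C + M / min (d / 8) (1 / 2) with hC'
  have hC0 : 0 < C' := by positivity
  have hbd : ∀ u v : E, ‖u‖ = 1 → ‖v‖ = 1 → |ρ u - ρ v| ≤ M := fun u v hu hv =>
    abs_le.2 ⟨by linarith [(hb u hu).1, (hb v hv).2], by linarith [(hb u hu).2, (hb v hv).1]⟩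
  have heq : ∀ {p r q : E}, Frm p r q → ∀ w w', dist w w' ≤ d / 4 →
      |uu (UU ρ p r q) w - uu (UU ρ p r q) w'| ≤ ε := fun {p r q} hf w w' hw => by
    simp only [uu, UU_mul]
    refine huc _ (by simpa using norm_dir (hf.XX_ne w)) _ (by simpa using norm_dir (hf.XX_ne w')) ?_
    rw [Prod.dist_eq, max_le_iff, Real.dist_eq, Real.dist_eq] at hw
    rw [dist_eq_norm]
    exact (hf.dir_XX_sub w w').trans ((div_le_self (by positivity) (one_le_nn _)).trans
      (by linarith [hw.1, hw.2]))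
  have key : ∀ δ1 Λ : ℝ, 0 < δ1 → 0 ≤ Λ →
      (∀ u v : E, ‖u‖ = 1 → ‖v‖ = 1 → |ρ u - ρ v| ≤ Λ * (‖u - v‖ + δ1)) →
      ∀ u v : E, ‖u‖ = 1 → ‖v‖ = 1 → |ρ u - ρ v| ≤ (Λ / 2 + C') * (‖u - v‖ + δ1) := by
    intro δ1 Λ hδ1 hΛ hP u v hu hv
    have hn := norm_nonneg (u - v)
    rcases le_total (min (d / 8) (1 / 2)) ‖u - v‖ with k | k
    · refine (hbd u v hu hv).trans ?_
      rw [← div_mul_cancel₀ M hl.ne']
      gcongr
      · nlinarith
      · linarith
    by_cases huv : u = v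
    · simp only [huv, sub_self, abs_zero]; positivity
    have hω : ∀ {p r q : E}, Frm p r q → ∀ a z δ, |δ| ≤ 2 * ‖u - v‖ →
        |uu (UU ρ p r q) (a, z + δ) - uu (UU ρ p r q) (a, z)| ≤ Λ * (4 * ‖u - v‖ + δ1) := by
      intro p r q hf a z δ hδ
      simp only [uu, UU_mul]
      refine (hP _ _ (norm_dir (hf.XX_ne _)) (norm_dir (hf.XX_ne _))).trans ?_
      gcongr
      refine (hf.dir_XX_sub _ _).trans ((div_le_self (by positivity) (one_le_nn _)).trans ?_)
      simp only [sub_self, abs_zero, add_sub_cancel_left]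
      linarith
    rw [le_min_iff] at k
    set κ := ⟪u, v⟫ with hκ
    have k1 : ‖u - v‖ ^ 2 = 2 - 2 * κ := by rw [norm_sub_sq_real, hu, hv]; ring
    have k2 : 1 / 2 ≤ κ := by nlinarith [k.2]
    have k3 : ⟪u, v - κ • u⟫ = 0 := by
      rw [inner_sub_right, real_inner_smul_right, real_inner_self_eq_norm_sq, hu]; ring
    have k4 : ‖v - κ • u‖ ^ 2 = 1 - κ ^ 2 := by
      rw [norm_sub_sq_real, real_inner_smul_right, real_inner_comm, ← hκ, norm_smul, hu, hv,
        Real.norm_eq_abs, mul_one, sq_abs]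
      ring
    have k5 : ‖v - κ • u‖ ≤ ‖u - v‖ :=
      (pow_le_pow_iff_left₀ (norm_nonneg _) hn two_ne_zero).1 (by nlinarith [sq_nonneg (1 - κ)])
    have k6 : v - κ • u ≠ 0 := fun k6 => by
      rw [k6, norm_zero] at k4
      have : ‖u - v‖ ^ 2 = 0 := by nlinarith
      exact huv (by simpa [sub_eq_zero] using this)
    obtain ⟨r, hr, h1, h2⟩ := exists_third hE u (dir (v - κ • u))
    have hf : Frm u r (dir (v - κ • u)) := ⟨hu, hr, norm_dir k6, h1,
      by rw [dir, real_inner_smul_right, k3, mul_zero], by rw [real_inner_comm, h2]⟩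
    have k7 : |‖v - κ • u‖ / κ| ≤ 2 * ‖u - v‖ := by
      rw [abs_of_nonneg (by positivity), div_le_iff₀ (by linarith)]
      nlinarith
    have k8 := hs _ _ (h.chart i1 i2 hc hm hb hf) (heq hf) (heq hf.symm) _ _ (by linarith [k.1])
      (by linarith [k.2]) (fun a z => hω hf a z _ k7)
      (fun a z => hω hf.symm a z _ (by rwa [abs_neg]))
    have k9 : XX u r (dir (v - κ • u)) (0, ‖v - κ • u‖ / κ) = κ⁻¹ • v := by
      have := norm_ne_zero_iff.2 k6
      have : κ ≠ 0 := by linarith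
      simp only [XX, dir, smul_smul]
      rw [show ‖v - κ • u‖ / κ * ‖v - κ • u‖⁻¹ = κ⁻¹ by field_simp, smul_sub, smul_smul,
        inv_mul_cancel₀ this]
      simp
    simp only [uu, UU_mul] at k8
    rw [k9, dir_smul hv (by positivity), hf.dir_zero, abs_sub_comm] at k8
    have k10 : 0 ≤ M / min (d / 8) (1 / 2) * (‖u - v‖ + δ1) := by positivity
    nlinarith [mul_le_mul_of_nonneg_left k7 hC, mul_nonneg hΛ hδ1.le, mul_nonneg hC hδ1.le]
  refine ⟨2 * C', by positivity, fun u v hu hv => le_of_forall_pos_le_add fun e he => ?_⟩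
  set δ1 := e / (2 * C')
  have hδ1 : 0 < δ1 := by positivity
  let S := {Λ : ℝ | ∃ u v : E, ‖u‖ = 1 ∧ ‖v‖ = 1 ∧ Λ = |ρ u - ρ v| / (‖u - v‖ + δ1)}
  have hS : BddAbove S := ⟨M / δ1, by
    rintro _ ⟨u, v, hu, hv, rfl⟩
    exact div_le_div₀ hM.le (hbd u v hu hv) hδ1 (le_add_of_nonneg_left (norm_nonneg _))⟩
  have h1 : ∀ u v : E, ‖u‖ = 1 → ‖v‖ = 1 → |ρ u - ρ v| ≤ sSup S * (‖u - v‖ + δ1) :=
    fun u v hu hv => (div_le_iff₀ (by positivity)).1 (le_csSup hS ⟨u, v, hu, hv, rfl⟩)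
  have h2 : sSup S ≤ sSup S / 2 + C' := csSup_le ⟨_, u, v, hu, hv, rfl⟩ (by
    rintro _ ⟨u, v, hu, hv, rfl⟩
    exact (div_le_iff₀ (by positivity)).2 (key δ1 _ hδ1 (Real.sSup_nonneg (by
      rintro _ ⟨u, v, -, -, rfl⟩; positivity)) h1 u v hu hv))
  calc _ ≤ 2 * C' * (‖u - v‖ + δ1) := (h1 u v hu hv).trans (by gcongr; linarith)
    _ = _ := by simp only [δ1]; field_simp

theorem const (i1 : 1 < i) (i2 : i < 2) (hc : 0 < c) {u v : E} (hu : ‖u‖ = 1) (hv : ‖v‖ = 1) :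
    ρ u = ρ v := by
  obtain ⟨a, ha, hmin⟩ := (isCompact_sphere (0 : E) 1).exists_isMinOn ⟨u, by simpa⟩ h.cont
  obtain ⟨b, hb, hmax⟩ := (isCompact_sphere (0 : E) 1).exists_isMaxOn ⟨u, by simpa⟩ h.cont
  rw [mem_sphere_zero_iff_norm] at ha hb
  rcases (h.nonneg a).eq_or_lt with h0 | h0
  · have : ∀ w : E, ‖w‖ = 1 → ρ w = 0 := fun w hw => by
      obtain ⟨r, hr, h1, h2⟩ := exists_third hE w a
      exact h.zero_perp hE (by linarith) hw hr h1
        (h.zero_perp hE (by linarith) hr ha (by rw [real_inner_comm, h2]) h0.symm)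
    rw [this u hu, this v hv]
  have hbd : ∀ w, ‖w‖ = 1 → ρ w ∈ Icc (ρ a) (ρ b) := fun w hw =>
    ⟨hmin (by simpa : w ∈ sphere 0 1), hmax (by simpa : w ∈ sphere 0 1)⟩
  have hM := h0.trans_le (hbd b hb).1
  obtain ⟨Λ, hΛ, hl⟩ := h.lipschitz hE i1 i2 hc h0 hM hbd
  by_cases h1 : u - v = 0
  · rw [sub_eq_zero.1 h1]
  by_cases h2 : u + v = 0
  · rw [eq_neg_of_add_eq_zero_left h2, h.even v hv]
  obtain ⟨r, hr, h3, h4⟩ := exists_third hE (dir (u + v)) (dir (u - v))
  have hf : Frm (dir (u + v)) r (dir (u - v)) := ⟨norm_dir h2, hr, norm_dir h1, h3, by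
    rw [dir, dir, real_inner_smul_right, real_inner_smul_left, inner_add_left, inner_sub_right,
      inner_sub_right, real_inner_self_eq_norm_sq, real_inner_self_eq_norm_sq, hu, hv,
      real_inner_comm]
    ring, by rw [real_inner_comm, h4]⟩
  have h5 := (h.chart i1 i2 hc h0 hbd hf).symmetric (L := 2 * Λ + ρ b) (by positivity)
    (fun s z z' => by
      have k1 := nn_pos (s, z)
      have k2 := nn_pos (s, z')
      have k3 := (hl _ _ (norm_dir (hf.XX_ne (s, z))) (norm_dir (hf.XX_ne (s, z')))).trans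
        (mul_le_mul_of_nonneg_left (hf.dir_XX_sub _ _) hΛ)
      have k4 := hbd _ (norm_dir (hf.XX_ne (s, z')))
      have k5 : |nn (s, z') - nn (s, z)| ≤ |z - z'| := abs_le.2
        ⟨by linarith [nn_le_add s z z'], by linarith [nn_le_add s z' z, abs_sub_comm z z']⟩
      have k6 : ∀ x y : ℝ, x / nn (s, z) - y / nn (s, z') =
          ((x - y) * nn (s, z') + y * (nn (s, z') - nn (s, z))) / (nn (s, z) * nn (s, z')) :=
        fun x y => by field_simp; ring
      simp only [sub_self, abs_zero, zero_add] at k3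
      rw [← mul_div_assoc, le_div_iff₀ k2] at k3
      rw [UU, UU, k6, abs_div, abs_of_pos (mul_pos k1 k2)]
      gcongr
      refine (abs_add_le _ _).trans ?_
      rw [abs_mul, abs_mul, abs_of_pos k2, abs_of_pos (h0.trans_le k4.1)]
      nlinarith [mul_le_mul k4.2 k5 (abs_nonneg _) hM.le]) 0 (‖u - v‖ / ‖u + v‖)
  have k1 := norm_pos_iff.2 h1
  have k2 := norm_pos_iff.2 h2
  have k3 : ∀ t : ℝ, XX (dir (u + v)) r (dir (u - v)) (0, t * (‖u - v‖ / ‖u + v‖)) =
      ‖u + v‖⁻¹ • (u + v + t • (u - v)) := fun t => by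
    simp only [XX, dir, smul_smul]
    rw [show t * (‖u - v‖ / ‖u + v‖) * ‖u - v‖⁻¹ = ‖u + v‖⁻¹ * t by field_simp]
    module
  have k4 := k3 1
  have k5 := k3 (-1)
  rw [one_mul, show u + v + (1 : ℝ) • (u - v) = (2 : ℝ) • u by module, smul_smul] at k4
  rw [neg_one_mul, show u + v + (-1 : ℝ) • (u - v) = (2 : ℝ) • v by module, smul_smul] at k5
  rw [UU, UU, k4, k5, dir_smul hu (by positivity), dir_smul hv (by positivity), nn_neg,
    div_left_inj' (nn_pos _).ne'] at h5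
  exact h5.symm

end Sol

variable [FiniteDimensional ℝ E] [MeasurableSpace E] [BorelSpace E]

theorem interRadial_eq_of_homothetic (hE1 : 1 ≤ finrank ℝ E) {i : ℝ} {L : Set E}
    (hL : IsStarBody L) (hsym : -L = L) (h : Homothetic L (interBody i L)) :
    ∃ r > 0, ∀ u, ‖u‖ = 1 → interRadial i L u = r * radial L u := by
  obtain ⟨x, r, hr, hI⟩ := h
  have hcI : IsCompact (interBody i L) := hI ▸ hL.1.image (by fun_prop)
  have hx : x = 0 := by
    obtain ⟨y, hy, hmax⟩ := hcI.exists_isMaxOn (f := fun y => ⟪x, y⟫)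
      ⟨x, by rw [hI]; exact ⟨0, hL.2.1, by simp⟩⟩ (by fun_prop)
    have h1 := neg_mem_interBody i L hy
    rw [hI] at h1
    obtain ⟨a, ha, e⟩ := h1
    have ha' : -a ∈ L := by rw [← hsym]; simpa using ha
    have h2 : x + r • (-a) ∈ interBody i L := by rw [hI]; exact ⟨-a, ha', rfl⟩
    have h3 : ⟪x, x + r • (-a)⟫ ≤ ⟪x, y⟫ := hmax h2
    have h4 : x + r • (-a) = y + (2 : ℝ) • x := by
      have : y = -(x + r • a) := by simp only at e; rw [e, neg_neg]
      rw [this]; module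
    rw [h4, inner_add_right, inner_smul_right, real_inner_self_eq_norm_sq] at h3
    have : ‖x‖ ^ 2 ≤ 0 := by linarith
    simpa using this
  subst hx
  refine ⟨r, hr, fun u hu => eq_of_forall_le_iff fun c => ?_⟩
  have hρ := mul_nonneg hr.le (radial_nonneg L u)
  rcases le_total c 0 with hc | hc
  · simp [hc.trans hρ, hc.trans (interRadial_nonneg hE1 i L u)]
  · rw [← smul_mem_interBody hE1 i L hu hc, ← div_le_iff₀' hr,
      ← smul_mem_iff hL.1 hL.2.1 hL.2.2.1 hu (div_nonneg hc hr.le), hI]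
    constructor
    · rintro ⟨a, ha, e⟩
      simp only [zero_add] at e
      rwa [div_eq_inv_mul, mul_smul, ← e, smul_smul, inv_mul_cancel₀ hr.ne', one_smul]
    · intro ha
      exact ⟨_, ha, by simp [smul_smul, mul_div_cancel₀ _ hr.ne']⟩

theorem homothetic_closedBall {m : ℕ} (hE : finrank ℝ E = m + 2) {i : ℝ} (hi : 0 < i) {R : ℝ}
    (hR : 0 ≤ R) : Homothetic (closedBall (0 : E) R) (interBody i (closedBall 0 R)) := by
  have : Nontrivial E := Module.nontrivial_of_finrank_pos (R := ℝ) (by omega)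
  set κ := (volume (ball (0 : V (m + 1)) 1)).toReal
  have hκ0 : 0 < κ :=
    ENNReal.toReal_pos (measure_ball_pos _ _ one_pos).ne' measure_ball_lt_top.ne
  obtain ⟨r, hr, hrR⟩ : ∃ r : ℝ, 0 < r ∧ κ * R ^ i = r * R := by
    rcases hR.eq_or_lt with h | h
    · exact ⟨1, one_pos, by rw [← h, Real.zero_rpow hi.ne']; simp⟩
    · exact ⟨κ * R ^ i / R, by positivity, by field_simp⟩
  refine ⟨0, r, hr, ?_⟩
  ext y
  have himg : y ∈ (fun a => (0 : E) + r • a) '' closedBall 0 R ↔ ‖y‖ ≤ r * R := by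
    constructor
    · rintro ⟨a, ha, rfl⟩
      simp only [zero_add, norm_smul, Real.norm_of_nonneg hr.le]
      exact mul_le_mul_of_nonneg_left (mem_closedBall_zero_iff.1 ha) hr.le
    · intro hy
      refine ⟨r⁻¹ • y, ?_, by simp [smul_smul, hr.ne']⟩
      rw [mem_closedBall_zero_iff, norm_smul, norm_inv, Real.norm_of_nonneg hr.le,
        inv_mul_le_iff₀ hr]
      exact hy
  rw [himg, ← hrR]
  obtain ⟨u, hu, hy⟩ : ∃ u : E, ‖u‖ = 1 ∧ y = ‖y‖ • u := by
    by_cases hy : y = 0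
    · obtain ⟨u, hu⟩ := exists_norm_eq E zero_le_one
      exact ⟨u, hu, by simp [hy]⟩
    · exact ⟨dir y, norm_dir hy, by
        rw [dir, smul_smul, mul_inv_cancel₀ (norm_ne_zero_iff.2 hy), one_smul]⟩
  conv_lhs => rw [hy]
  rw [smul_mem_interBody (by omega) i _ hu (norm_nonneg y), interRadial_closedBall hE i hR hu]

theorem main_three (hE : finrank ℝ E = 3) {i : ℝ} (i1 : 1 < i) (i2 : i < 2) {L : Set E}
    (hL : IsStarBody L) (hsym : -L = L) :
    Homothetic L (interBody i L) ↔ ∃ R : ℝ, 0 ≤ R ∧ L = closedBall 0 R := by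
  have : Nontrivial E := Module.nontrivial_of_finrank_pos (R := ℝ) (by omega)
  constructor
  · intro h
    obtain ⟨r, hr, h⟩ := interRadial_eq_of_homothetic (by omega) hL hsym h
    obtain ⟨u, hu⟩ := exists_norm_eq E zero_le_one
    exact ⟨_, eq_closedBall hL.1 hL.2.1 hL.2.2.1 fun v hv =>
      (sol_radial hE (by linarith) hL.2.2.2 hr h).const hE i1 i2 hr hv hu⟩
  · rintro ⟨R, hR, rfl⟩
    exact homothetic_closedBall (m := 1) hE (by linarith) hR

end Pool.Agent.Lib.MP_0a1ca9_gt
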