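import Pool.Agent.Lib.MP_0a1ca9_gt.TLine
import Pool.Agent.Lib.MP_0a1ca9_gt.Graph

/-! From finite families to measures: powers with exponent between two and three. -/

open MeasureTheory Set
open scoped ENNReal Nat

namespace Pool.Agent.Lib.MP_0a1ca9_gt

/-- The exponential generating function of the excess multiplicity. -/
noncomputable def Sf (x : ℝ) : ℝ≥0∞ := ∑' k : ℕ, ENNReal.ofReal (((k - 1).choose 2 : ℕ) * x ^ k / k !)

theorem measurable_Sf : Measurable Sf := Measurable.tsum fun k => by fun_prop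

theorem ofReal_exp {y : ℝ} (hy : 0 ≤ y) :
    ENNReal.ofReal (Real.exp y) = ∑' l : ℕ, ENNReal.ofReal (y ^ l / l !) := by
  rw [← ENNReal.ofReal_tsum_of_nonneg (fun l => by positivity) (Real.summable_pow_div_factorial y),
    Real.exp_eq_exp_ℝ, NormedSpace.exp_eq_tsum_div]

theorem Sf_eq (x : ℝ) :
    Sf x = ∑' k : ℕ, ENNReal.ofReal (x ^ (k + 3) / (2 * (k + 3) * k !)) := by
  rw [Sf, ← Summable.sum_add_tsum_nat_add' (k := 3) ENNReal.summable]
  simp only [Finset.sum_range_succ, Finset.sum_range_zero]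
  norm_num
  refine tsum_congr fun k => ?_
  congr 1
  rw [Nat.cast_choose_two, Nat.factorial_succ, Nat.factorial_succ, Nat.factorial_succ]
  push_cast
  field_simp
  ring

theorem Sf_le {x : ℝ} (hx : 0 ≤ x) : Sf x ≤ ENNReal.ofReal (x ^ 3) * ENNReal.ofReal (Real.exp x) ∧
    Sf x ≤ ENNReal.ofReal (x ^ 2) * ENNReal.ofReal (Real.exp x) := by
  rw [Sf_eq, ofReal_exp hx, ← ENNReal.tsum_mul_left, ← ENNReal.tsum_mul_left]
  constructor
  · refine ENNReal.tsum_le_tsum fun k => ?_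
    rw [← ENNReal.ofReal_mul (by positivity), ← mul_div_assoc, ← pow_add, add_comm 3 k]
    refine ENNReal.ofReal_le_ofReal (div_le_div_of_nonneg_left (by positivity) (by positivity) ?_)
    exact le_mul_of_one_le_left (by positivity) (by linarith [(Nat.cast_nonneg k : (0 : ℝ) ≤ k)])
  · rw [tsum_eq_zero_add' (f := fun l : ℕ => ENNReal.ofReal (x ^ 2) * ENNReal.ofReal (x ^ l / l !))
      ENNReal.summable]
    refine le_add_left (ENNReal.tsum_le_tsum fun k => ?_)
    rw [← ENNReal.ofReal_mul (by positivity), ← mul_div_assoc, ← pow_add,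
      show 2 + (k + 1) = k + 3 by ring, Nat.factorial_succ]
    refine ENNReal.ofReal_le_ofReal (div_le_div_of_nonneg_left (by positivity) (by positivity) ?_)
    push_cast
    exact mul_le_mul_of_nonneg_right (by linarith [(Nat.cast_nonneg k : (0 : ℝ) ≤ k)])
      (by positivity)

theorem Sf_pos {x : ℝ} (hx : 0 < x) : 0 < Sf x := by
  rw [Sf_eq]
  exact lt_of_lt_of_le (ENNReal.ofReal_pos.2 (by positivity)) (ENNReal.le_tsum 0)

theorem pois_sum {g h t : ℝ} (hg : 0 ≤ g) (hh : 0 ≤ h) (ht : 0 ≤ t) :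
    ∑' n : ℕ, ENNReal.ofReal (t ^ n / n !) * ∑ k ∈ Finset.range (n + 1),
      n.choose k • ((((k - 1).choose 2 : ℕ) : ℝ≥0∞) *
        (ENNReal.ofReal g ^ k * ENNReal.ofReal h ^ (n - k))) =
      Sf (t * g) * ENNReal.ofReal (Real.exp (t * h)) := by
  rw [Sf, ofReal_exp (mul_nonneg ht hh), ← ENNReal.tsum_mul_right]
  simp_rw [← ENNReal.tsum_mul_left]
  rw [← ENNReal.tsum_prod' (f := fun p : ℕ × ℕ =>
    ENNReal.ofReal (((p.1 - 1).choose 2 : ℕ) * (t * g) ^ p.1 / p.1 !) *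
      ENNReal.ofReal ((t * h) ^ p.2 / p.2 !)),
    ← Finset.HasAntidiagonal.sigmaAntidiagonalEquivProd.tsum_eq, ENNReal.tsum_sigma']
  refine tsum_congr fun n => ?_
  have h1 := Finset.tsum_subtype (Finset.HasAntidiagonal.antidiagonal n) fun p : ℕ × ℕ =>
    ENNReal.ofReal (((p.1 - 1).choose 2 : ℕ) * (t * g) ^ p.1 / p.1 !) *
      ENNReal.ofReal ((t * h) ^ p.2 / p.2 !)
  refine Eq.trans ?_ h1.symm
  rw [Finset.Nat.sum_antidiagonal_eq_sum_range_succ fun k l =>
    ENNReal.ofReal (((k - 1).choose 2 : ℕ) * (t * g) ^ k / k !) *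
      ENNReal.ofReal ((t * h) ^ l / l !), Finset.mul_sum]
  refine Finset.sum_congr rfl fun k hk => ?_
  obtain ⟨l, rfl⟩ := Nat.exists_eq_add_of_le (Nat.lt_succ_iff.1 (Finset.mem_range.1 hk))
  rw [Nat.add_sub_cancel_left, nsmul_eq_mul, ← ENNReal.ofReal_natCast, ← ENNReal.ofReal_natCast,
    ← ENNReal.ofReal_pow hg, ← ENNReal.ofReal_pow hh, ← ENNReal.ofReal_mul (by positivity),
    ← ENNReal.ofReal_mul (by positivity), ← ENNReal.ofReal_mul (by positivity),
    ← ENNReal.ofReal_mul (by positivity), ← ENNReal.ofReal_mul (by positivity)]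
  congr 1
  have h2 : (((k + l).choose k : ℕ) : ℝ) * k ! * l ! = (k + l)! := by
    have := Nat.add_choose_mul_factorial_mul_factorial l k
    rw [add_comm l k, mul_right_comm] at this
    exact_mod_cast this
  have h3 : (((k + l).choose k : ℕ) : ℝ) ≠ 0 := by
    exact_mod_cast (Nat.choose_pos (Nat.le_add_right k l)).ne'
  rw [← h2, mul_pow, mul_pow, pow_add]
  field_simp

variable {Ω : Type*} [MeasurableSpace Ω]

open Classical in
theorem lintegral_count (μ : Measure Ω) [IsFiniteMeasure μ] {A : Set Ω} (hA : MeasurableSet A)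
    (n : ℕ) (f : ℕ → ℝ≥0∞) :
    ∫⁻ ω : Fin n → Ω, f (Finset.univ.filter fun j => ω j ∈ A).card ∂Measure.pi (fun _ => μ) =
      ∑ k ∈ Finset.range (n + 1), n.choose k • (f k * (μ A ^ k * μ Aᶜ ^ (n - k))) := by
  have h1 : ∀ ω : Fin n → Ω, f (Finset.univ.filter fun j => ω j ∈ A).card =
      ∑ T ∈ (Finset.univ : Finset (Fin n)).powerset,
        (univ.pi fun j => if j ∈ T then A else Aᶜ).indicator (fun _ => f T.card) ω := by
    intro ω
    rw [Finset.sum_eq_single (Finset.univ.filter fun j => ω j ∈ A)]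
    · rw [indicator_of_mem]
      intro j _
      by_cases h : ω j ∈ A <;> simp [h]
    · intro T _ hT
      refine indicator_of_notMem (fun h => hT ?_) _
      ext j
      have := h j (mem_univ j)
      by_cases hj : j ∈ T
      · simpa [hj] using this
      · simpa [hj] using this
    · intro h
      exact absurd (Finset.mem_powerset.2 (Finset.subset_univ _)) h
  have hm : ∀ T : Finset (Fin n), MeasurableSet (univ.pi fun j => if j ∈ T then A else Aᶜ) :=
    fun T => MeasurableSet.univ_pi fun j => by split_ifs; exacts [hA, hA.compl]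
  simp_rw [h1]
  rw [lintegral_finsetSum _ fun T _ => measurable_const.indicator (hm T)]
  have h2 := Finset.sum_powerset_apply_card (fun k => f k * (μ A ^ k * μ Aᶜ ^ (n - k)))
    (x := (Finset.univ : Finset (Fin n)))
  rw [Finset.card_univ, Fintype.card_fin] at h2
  rw [← h2]
  refine Finset.sum_congr rfl fun T _ => ?_
  rw [lintegral_indicator_const (hm T), Measure.pi_pi]
  simp_rw [apply_ite μ]
  rw [Finset.prod_ite, Finset.prod_const, Finset.prod_const, Finset.filter_mem_eq_inter,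
    Finset.univ_inter, Finset.filter_not, Finset.filter_mem_eq_inter, Finset.univ_inter,
    Finset.card_univ_sdiff, Fintype.card_fin]

/-- The data of a family of plane convex sets and of its contraction. -/
structure Fam (Q Q' : Ω → Set (ℝ × ℝ)) (κ : ℝ) : Prop where
  ms : MeasurableSet {p : Ω × ℝ × ℝ | p.2 ∈ Q p.1}
  ms' : MeasurableSet {p : Ω × ℝ × ℝ | p.2 ∈ Q' p.1}
  hc : ∀ ω, IsCompact (Q ω)
  hv : ∀ ω, Convex ℝ (Q ω)
  hc' : ∀ ω, IsCompact (Q' ω)
  hv' : ∀ ω, Convex ℝ (Q' ω)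
  h0 : 0 ≤ κ
  h1 : κ ≤ 1
  sub : ∀ ω, ∀ p ∈ Q' ω, ∀ p' ∈ Q' ω, ((1 + κ) / 2) • p - ((1 - κ) / 2) • p' ∈ Q ω

open Classical in
theorem pois_formula (μ : Measure Ω) [IsFiniteMeasure μ] {Q : Ω → Set (ℝ × ℝ)}
    (hQ : MeasurableSet {p : Ω × ℝ × ℝ | p.2 ∈ Q p.1}) {t : ℝ} (ht : 0 ≤ t) :
    ∑' n : ℕ, ENNReal.ofReal (t ^ n / n !) * ∫⁻ ω : Fin n → Ω, ∫⁻ w,
      ((((Finset.univ.filter fun j => w ∈ Q (ω j)).card - 1).choose 2 : ℕ) : ℝ≥0∞) ∂volume
        ∂Measure.pi (fun _ => μ) =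
      ENNReal.ofReal (Real.exp (t * μ.real univ)) *
        ∫⁻ w, ENNReal.ofReal (Real.exp (-(t * μ.real {ω | w ∈ Q ω}))) *
          Sf (t * μ.real {ω | w ∈ Q ω}) := by
  have hm : ∀ n : ℕ, Measurable fun p : (Fin n → Ω) × ℝ × ℝ =>
      ((((Finset.univ.filter fun j => p.2 ∈ Q (p.1 j)).card - 1).choose 2 : ℕ) : ℝ≥0∞) := fun n =>
    measurable_filter (P := fun (p : (Fin n → Ω) × ℝ × ℝ) j => p.2 ∈ Q (p.1 j))
      (fun j => hQ.preimage (f := fun p : (Fin n → Ω) × ℝ × ℝ => (p.1 j, p.2)) (by fun_prop))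
      fun A => (((A.card - 1).choose 2 : ℕ) : ℝ≥0∞)
  have h1 : ∀ n : ℕ, ENNReal.ofReal (t ^ n / n !) * ∫⁻ ω : Fin n → Ω, ∫⁻ w,
      ((((Finset.univ.filter fun j => w ∈ Q (ω j)).card - 1).choose 2 : ℕ) : ℝ≥0∞) ∂volume
        ∂Measure.pi (fun _ => μ) = ∫⁻ w, ENNReal.ofReal (t ^ n / n !) * ∫⁻ ω : Fin n → Ω,
      ((((Finset.univ.filter fun j => w ∈ Q (ω j)).card - 1).choose 2 : ℕ) : ℝ≥0∞)
        ∂Measure.pi (fun _ => μ) := fun n => by
    rw [lintegral_lintegral_swap (hm n).aemeasurable,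
      lintegral_const_mul' _ _ ENNReal.ofReal_ne_top]
  simp_rw [h1]
  rw [← lintegral_tsum fun n => ((hm n).lintegral_prod_left'.const_mul _).aemeasurable,
    ← lintegral_const_mul' _ _ ENNReal.ofReal_ne_top]
  refine lintegral_congr fun w => ?_
  have hA : MeasurableSet {ω | w ∈ Q ω} := hQ.preimage (f := fun ω => (ω, w)) (by fun_prop)
  have h2 := fun n => lintegral_count μ hA n fun k => (((k - 1).choose 2 : ℕ) : ℝ≥0∞)
  simp only [mem_ofPred_eq] at h2
  simp_rw [h2]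
  rw [← ofReal_measureReal (s := {ω | w ∈ Q ω}), ← ofReal_measureReal (s := {ω | w ∈ Q ω}ᶜ),
    pois_sum measureReal_nonneg measureReal_nonneg ht, ← mul_assoc,
    ← ENNReal.ofReal_mul (by positivity), ← Real.exp_add, measureReal_compl hA, mul_comm]
  congr 3
  ring

/-- The mixing constant. -/
noncomputable def mixC (q : ℝ) : ℝ≥0∞ :=
  ∫⁻ t in Ioi (0 : ℝ), ENNReal.ofReal (t ^ (-q - 1)) * (ENNReal.ofReal (Real.exp (-t)) * Sf t)

theorem mixC_ne_zero (q : ℝ) : mixC q ≠ 0 := by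
  intro h
  have hS := measurable_Sf
  rw [mixC, lintegral_eq_zero_iff (by fun_prop)] at h
  have h1 : ∀ᵐ t ∂volume.restrict (Ioi (0 : ℝ)), False := by
    filter_upwards [h, ae_restrict_mem measurableSet_Ioi] with t h2 ht
    have ht' : 0 < t := ht
    exact mul_ne_zero (ENNReal.ofReal_pos.2 (by positivity)).ne'
      (mul_ne_zero (ENNReal.ofReal_pos.2 (by positivity)).ne' (Sf_pos ht').ne') h2
  rw [Filter.eventually_false_iff_eq_bot, ae_eq_bot, Measure.restrict_eq_zero] at h1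
  simp at h1

theorem mixC_ne_top {q : ℝ} (h2 : 2 < q) (h3 : q < 3) : mixC q ≠ ∞ := by
  have key : ∀ (k : ℕ) (t : ℝ), 0 < t →
      Sf t ≤ ENNReal.ofReal (t ^ k) * ENNReal.ofReal (Real.exp t) →
      ENNReal.ofReal (t ^ (-q - 1)) * (ENNReal.ofReal (Real.exp (-t)) * Sf t) ≤
        ‖t ^ (-q - 1 + k)‖ₑ := by
    intro k t ht h
    refine (mul_le_mul_right (mul_le_mul_right h _) _).trans (le_of_eq ?_)
    rw [← ENNReal.ofReal_mul (by positivity), ← ENNReal.ofReal_mul (by positivity),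
      ← ENNReal.ofReal_mul (by positivity), Real.enorm_eq_ofReal (by positivity),
      Real.rpow_add_natCast ht.ne', Real.exp_neg]
    congr 1
    field_simp
  rw [mixC, ← Ioc_union_Ioi_eq_Ioi zero_le_one]
  refine ((lintegral_union_le _ _ _).trans_lt (ENNReal.add_lt_top.2 ⟨?_, ?_⟩)).ne
  · rw [← restrict_Ioo_eq_restrict_Ioc]
    refine lt_of_le_of_lt (setLIntegral_mono' measurableSet_Ioo fun t ht =>
      key 3 t ht.1 (Sf_le ht.1.le).1) ?_
    exact ((intervalIntegral.integrableOn_Ioo_rpow_iff one_pos).2 (by push_cast; linarith)).2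
  · refine lt_of_le_of_lt (setLIntegral_mono' measurableSet_Ioi fun t ht =>
      key 2 t (one_pos.trans ht) (Sf_le (one_pos.trans ht).le).2) ?_
    exact (integrableOn_Ioi_rpow_of_lt (by push_cast; linarith) one_pos).2

theorem mix_eq {q x : ℝ} (hq : 0 < q) (hx : 0 ≤ x) :
    ∫⁻ t in Ioi (0 : ℝ), ENNReal.ofReal (t ^ (-q - 1)) *
      (ENNReal.ofReal (Real.exp (-(t * x))) * Sf (t * x)) = mixC q * ENNReal.ofReal x ^ q := by
  have hS := measurable_Sf
  rcases hx.eq_or_lt with rfl | hx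
  · have : Sf 0 = 0 := by rw [Sf_eq]; simp
    simp [this, hq]
  rw [mixC, ← lintegral_indicator measurableSet_Ioi, ← lintegral_indicator measurableSet_Ioi,
    lintegral_scale volume (Measurable.indicator (by fun_prop) measurableSet_Ioi) (r := x⁻¹)
      (inv_ne_zero hx.ne'), ← lintegral_const_mul' _ _ ENNReal.ofReal_ne_top,
    ← lintegral_mul_const' _ _ (by finiteness)]
  refine lintegral_congr fun t => ?_
  by_cases ht : 0 < t
  · rw [indicator_of_mem (show x⁻¹ • t ∈ Ioi 0 from mul_pos (inv_pos.2 hx) ht),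
      indicator_of_mem (show t ∈ Ioi 0 from ht), smul_eq_mul,
      show x⁻¹ * t * x = t by field_simp, ← mul_assoc,
      mul_right_comm (ENNReal.ofReal (t ^ (-q - 1))), ENNReal.ofReal_rpow_of_pos hx, ← ENNReal.ofReal_mul (by positivity),
      ← ENNReal.ofReal_mul (by positivity)]
    congr 2
    rw [Module.finrank_self, pow_one, abs_of_pos (inv_pos.2 hx), Real.mul_rpow (inv_pos.2 hx).le
      ht.le, Real.inv_rpow hx.le, Real.rpow_sub_one hx.ne', Real.rpow_neg hx.le]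
    field_simp
  · rw [indicator_of_notMem (show t ∉ Ioi 0 from ht), indicator_of_notMem, mul_zero, zero_mul]
    exact fun h => ht ((mul_pos_iff_of_pos_left (inv_pos.2 hx)).1 h)

theorem Fam.rpow_le_fin {Q Q' : Ω → Set (ℝ × ℝ)} {κ : ℝ} (h : Fam Q Q' κ) (μ : Measure Ω)
    [IsFiniteMeasure μ] {q : ℝ} (h2 : 2 < q) (h3 : q < 3) :
    ∫⁻ w, μ {ω | w ∈ Q' ω} ^ q ≤ ∫⁻ w, μ {ω | w ∈ Q ω} ^ q := by
  have hS := measurable_Sf
  have key : ∀ {P : Ω → Set (ℝ × ℝ)} (_ : MeasurableSet {p : Ω × ℝ × ℝ | p.2 ∈ P p.1}),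
      mixC q * ∫⁻ w, μ {ω | w ∈ P ω} ^ q = ∫⁻ t in Ioi (0 : ℝ), ENNReal.ofReal (t ^ (-q - 1)) *
        ∫⁻ w, ENNReal.ofReal (Real.exp (-(t * μ.real {ω | w ∈ P ω}))) *
          Sf (t * μ.real {ω | w ∈ P ω}) := by
    intro P hP
    have hg : Measurable fun w : ℝ × ℝ => μ.real {ω | w ∈ P ω} :=
      (measurable_measure_prodMk_right hP).ennreal_toReal
    simp_rw [← lintegral_const_mul' _ _ ENNReal.ofReal_ne_top]
    have hm : Measurable fun p : ℝ × ℝ × ℝ => ENNReal.ofReal (p.1 ^ (-q - 1)) *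
        (ENNReal.ofReal (Real.exp (-(p.1 * μ.real {ω | p.2 ∈ P ω}))) *
          Sf (p.1 * μ.real {ω | p.2 ∈ P ω})) := by
      have h4 : Measurable fun p : ℝ × ℝ × ℝ => p.1 * μ.real {ω | p.2 ∈ P ω} :=
        measurable_fst.mul (hg.comp measurable_snd)
      exact (measurable_fst.pow_const _).ennreal_ofReal.mul
        (h4.neg.exp.ennreal_ofReal.mul (hS.comp h4))
    rw [lintegral_lintegral_swap hm.aemeasurable,
      ← lintegral_const_mul' _ _ (mixC_ne_top h2 h3)]
    refine lintegral_congr fun w => ?_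
    rw [mix_eq (by linarith) measureReal_nonneg, ofReal_measureReal]
  rw [← ENNReal.mul_le_mul_iff_right (mixC_ne_zero q) (mixC_ne_top h2 h3), key h.ms, key h.ms']
  refine setLIntegral_mono' measurableSet_Ioi fun t ht => mul_le_mul_right ?_ _
  rw [← ENNReal.mul_le_mul_iff_right (a := ENNReal.ofReal (Real.exp (t * μ.real univ)))
    (ENNReal.ofReal_pos.2 (Real.exp_pos _)).ne' ENNReal.ofReal_ne_top,
    ← pois_formula μ h.ms (le_of_lt ht), ← pois_formula μ h.ms' (le_of_lt ht)]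
  refine ENNReal.tsum_le_tsum fun n => mul_le_mul_right (lintegral_mono fun ω => ?_) _
  exact plane_mono (fun j => h.hc _) (fun j => h.hv _) (fun j => h.hc' _) (fun j => h.hv' _)
    h.h0 h.h1 fun j => h.sub _

/-- The rearrangement inequality for exponents between two and three. -/
theorem Fam.rpow_le {Q Q' : Ω → Set (ℝ × ℝ)} {κ : ℝ} (h : Fam Q Q' κ) (μ : Measure Ω)
    [SigmaFinite μ] {q : ℝ} (h2 : 2 < q) (h3 : q < 3) :
    ∫⁻ w, μ {ω | w ∈ Q' ω} ^ q ≤ ∫⁻ w, μ {ω | w ∈ Q ω} ^ q := by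
  have h1 : ∀ w, μ {ω | w ∈ Q' ω} ^ q =
      ⨆ n, μ.restrict (spanningSets μ n) {ω | w ∈ Q' ω} ^ q := by
    intro w
    have hA : MeasurableSet {ω | w ∈ Q' ω} := h.ms'.preimage (f := fun ω => (ω, w)) (by fun_prop)
    rw [← Measure.iSup_restrict_spanningSets_of_measurableSet hA]
    exact (ENNReal.orderIsoRpow q (by linarith)).map_iSup _
  simp_rw [h1]
  rw [lintegral_iSup]
  · refine iSup_le fun n => ?_
    have : IsFiniteMeasure (μ.restrict (spanningSets μ n)) :=
      isFiniteMeasure_restrict.2 (measure_spanningSets_lt_top μ n).ne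
    refine (h.rpow_le_fin _ h2 h3).trans (lintegral_mono fun w => ?_)
    exact ENNReal.rpow_le_rpow (Measure.restrict_le_self _) (by linarith)
  · exact fun n => (measurable_measure_prodMk_right h.ms').pow_const _
  · intro m n hmn w
    exact ENNReal.rpow_le_rpow
      (Measure.restrict_mono (monotone_spanningSets μ hmn) le_rfl _) (by linarith)

end Pool.Agent.Lib.MP_0a1ca9_gt
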