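import Mathlib

/-! Cycle rank of a graph: telescoping along an order of the edges, and interval graphs. -/

open Finset Module

namespace Pool.Agent.Lib.MP_0a1ca9_gt

variable {n : ℕ}

/-- The vector of an edge. -/
noncomputable def ev (e : Fin n × Fin n) : Fin n → ℝ := Pi.single e.1 1 - Pi.single e.2 1

/-- The span of a set of edges. -/
noncomputable def esp (A : Finset (Fin n × Fin n)) : Submodule ℝ (Fin n → ℝ) :=
  Submodule.span ℝ (ev '' (A : Set (Fin n × Fin n)))

/-- The cycle rank of a set of edges. -/
noncomputable def nul (A : Finset (Fin n × Fin n)) : ℕ := A.card - finrank ℝ (esp A)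

theorem esp_mono {A B : Finset (Fin n × Fin n)} (h : A ⊆ B) : esp A ≤ esp B :=
  Submodule.span_mono (Set.image_mono h)

open Classical in
theorem nul_add {β : Type*} [LinearOrder β] {key : Fin n × Fin n → β}
    (hk : Function.Injective key) (A : Finset (Fin n × Fin n)) :
    (A.filter fun e => ev e ∈ esp (A.filter fun f => key f < key e)).card + finrank ℝ (esp A) =
      A.card := by
  induction A using Finset.induction_on_max_value key with
  | empty =>
    rw [esp, coe_empty, Set.image_empty, Submodule.span_empty, finrank_bot]
    simp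
  | insert a s ha hmax ih =>
    have h1 : ((insert a s).filter fun f => key f < key a) = s := by
      ext f
      simp only [mem_filter, mem_insert]
      constructor
      · rintro ⟨rfl | h, h'⟩
        · exact absurd h' (lt_irrefl _)
        · exact h
      · intro h
        exact ⟨Or.inr h, lt_of_le_of_ne (hmax f h) fun e => ha (hk e ▸ h)⟩
    have h2 : ∀ e ∈ s, ((insert a s).filter fun f => key f < key e) =
        s.filter fun f => key f < key e := by
      intro e he
      rw [filter_insert, if_neg (not_lt.2 (hmax e he))]
    have h3 : (s.filter fun e => ev e ∈ esp ((insert a s).filter fun f => key f < key e)) =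
        s.filter fun e => ev e ∈ esp (s.filter fun f => key f < key e) :=
      filter_congr fun e he => by rw [h2 e he]
    have h4 : esp (insert a s) = esp s ⊔ Submodule.span ℝ {ev a} := by
      rw [esp, coe_insert, Set.image_insert_eq, Submodule.span_insert, sup_comm]
      rfl
    rw [filter_insert, h1, h3, card_insert_of_notMem ha, h4]
    by_cases h : ev a ∈ esp s
    · rw [if_pos h, card_insert_of_notMem fun h' => ha (mem_filter.1 h').1,
        sup_eq_left.2 ((Submodule.span_singleton_le_iff_mem _ _).2 h)]
      omega
    · rw [if_neg h, Submodule.finrank_sup_span_singleton h]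
      omega

open Classical in
theorem nul_eq {β : Type*} [LinearOrder β] {key : Fin n × Fin n → β}
    (hk : Function.Injective key) (A : Finset (Fin n × Fin n)) :
    nul A = (A.filter fun e => ev e ∈ esp (A.filter fun f => key f < key e)).card := by
  have := nul_add hk A
  rw [nul]
  omega

open Classical in
theorem two_mul_card_lt {β : Type*} [LinearOrder β] {key : Fin n → β}
    (hk : Function.Injective key) {S : Fin n → Fin n → Prop} (hs : ∀ j k, S j k → S k j) :
    2 * (univ.filter fun e : Fin n × Fin n => key e.1 < key e.2 ∧ S e.1 e.2).card =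
      (univ.filter fun e : Fin n × Fin n => e.1 ≠ e.2 ∧ S e.1 e.2).card := by
  have h1 : (univ.filter fun e : Fin n × Fin n => key e.2 < key e.1 ∧ S e.1 e.2).card =
      (univ.filter fun e : Fin n × Fin n => key e.1 < key e.2 ∧ S e.1 e.2).card := by
    refine card_bij (fun e _ => e.swap) ?_ ?_ ?_
    · intro e he
      rw [mem_filter] at he ⊢
      exact ⟨mem_univ _, he.2.1, hs _ _ he.2.2⟩
    · intro e _ f _ h
      exact Prod.swap_injective h
    · intro e he
      rw [mem_filter] at he
      exact ⟨e.swap, mem_filter.2 ⟨mem_univ _, he.2.1, hs _ _ he.2.2⟩, rfl⟩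
  rw [two_mul]
  nth_rewrite 1 [← h1]
  rw [← card_union_of_disjoint]
  · congr 1
    ext e
    simp only [mem_union, mem_filter, mem_univ, true_and]
    constructor
    · rintro (h | h)
      · exact ⟨fun e' => absurd h.1 (by rw [e']; exact lt_irrefl _), h.2⟩
      · exact ⟨fun e' => absurd h.1 (by rw [e']; exact lt_irrefl _), h.2⟩
    · rintro ⟨h, h'⟩
      rcases lt_or_gt_of_ne (fun e' => h (hk e')) with h2 | h2
      · exact Or.inr ⟨h2, h'⟩
      · exact Or.inl ⟨h2, h'⟩
  · rw [disjoint_filter]
    intro e _ h h'
    exact absurd h.1 (not_lt.2 h'.1.le)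

open Classical in
/-- The cycle rank of a graph with a perfect elimination order. -/
theorem nul_chordal {β : Type*} [LinearOrder β] {key : Fin n → β}
    (hk : Function.Injective key) {S : Fin n → Fin n → Prop} (hs : ∀ j k, S j k → S k j)
    (hc : ∀ j k k', key k < key j → key k' < key j → S j k → S j k' → S k k') :
    nul (univ.filter fun e : Fin n × Fin n => e.1 < e.2 ∧ S e.1 e.2) =
      ∑ j, ((univ.filter fun k => key k < key j ∧ S j k).card - 1) := by
  set A := univ.filter fun e : Fin n × Fin n => e.1 < e.2 ∧ S e.1 e.2 with hA
  have hcard : A.card = ∑ j, (univ.filter fun k => key k < key j ∧ S j k).card := by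
    have h1 := two_mul_card_lt (key := id) Function.injective_id hs
    have h2 := two_mul_card_lt (key := fun j => OrderDual.toDual (key j))
      (OrderDual.toDual.injective.comp hk) hs
    have h3 : (univ.filter fun e : Fin n × Fin n => key e.2 < key e.1 ∧ S e.1 e.2).card =
        ∑ j, (univ.filter fun k => key k < key j ∧ S j k).card := by
      simp only [card_filter]
      rw [← univ_product_univ, sum_product]
    rw [← h3]
    have h4 : 2 * A.card = 2 * (univ.filter fun e : Fin n × Fin n =>
        key e.2 < key e.1 ∧ S e.1 e.2).card := h1.trans h2.symm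
    omega
  let T := {j : Fin n // ∃ k, key k < key j ∧ S j k}
  let p : T → Fin n := fun j => j.2.choose
  have hp : ∀ j : T, key (p j) < key j ∧ S j (p j) := fun j => j.2.choose_spec
  let b : T → Fin n → ℝ := fun j => ev (j, p j)
  have hneg : ∀ j k : Fin n, ev (k, j) = -ev (j, k) := fun j k => by simp [ev]
  have hli : LinearIndependent ℝ b := by
    rw [Fintype.linearIndependent_iff]
    intro g hg
    by_contra hne
    push Not at hne
    obtain ⟨j, hj, hmax⟩ := exists_max_image (univ.filter fun j : T => g j ≠ 0)
      (fun j => key j) ⟨hne.choose, mem_filter.2 ⟨mem_univ _, hne.choose_spec⟩⟩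
    have h1 := congrFun hg j
    rw [Finset.sum_apply, sum_eq_single j] at h1
    · have h2 : (j : Fin n) ≠ p j := fun e => absurd (hp j).1 (by rw [← e]; exact lt_irrefl _)
      simp only [b, ev, Pi.smul_apply, Pi.sub_apply, Pi.single_eq_same, Pi.single_eq_of_ne h2,
        sub_zero, smul_eq_mul, mul_one, Pi.zero_apply] at h1
      exact (mem_filter.1 hj).2 h1
    · intro j' _ hj'
      by_cases h0 : g j' = 0
      · simp [h0]
      · have h2 := hmax j' (mem_filter.2 ⟨mem_univ _, h0⟩)
        have h3 : (j : Fin n) ≠ j' := fun e => hj' (Subtype.ext e.symm)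
        have h4 : (j : Fin n) ≠ p j' := fun e =>
          absurd ((hp j').1.trans_le h2) (by rw [← e]; exact lt_irrefl _)
        simp only [b, ev, Pi.smul_apply, Pi.sub_apply, Pi.single_eq_of_ne h3,
          Pi.single_eq_of_ne h4, sub_zero, smul_zero]
    · intro h
      exact absurd (mem_univ _) h
  have hin : ∀ j k, key k < key j → S j k → ev (j, k) ∈ Submodule.span ℝ (Set.range b) := by
    intro j
    induction j using (Finite.wellFounded_of_trans_of_irrefl
      (fun a b : Fin n => key a < key b)).induction with
    | _ j ih =>
      intro k hkj hS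
      let j' : T := ⟨j, k, hkj, hS⟩
      have h1 : ev (j, k) = b j' + ev (p j', k) := by simp [b, ev, j']
      rw [h1]
      refine add_mem (Submodule.subset_span ⟨j', rfl⟩) ?_
      have h2 : S (p j') k := hc j _ _ (hp j').1 hkj (hp j').2 hS
      rcases lt_trichotomy (key k) (key (p j')) with h | h | h
      · exact ih _ (hp j').1 k h h2
      · rw [← hk h]
        simp [ev]
      · rw [hneg]
        exact neg_mem (ih _ hkj _ h (hs _ _ h2))
  have hsp : esp A = Submodule.span ℝ (Set.range b) := by
    refine le_antisymm (Submodule.span_le.2 ?_) (Submodule.span_le.2 ?_)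
    · rintro _ ⟨⟨j, k⟩, he, rfl⟩
      have he' := (mem_filter.1 he).2
      rcases lt_or_gt_of_ne (fun e => he'.1.ne (hk e)) with h | h
      · rw [hneg]
        exact neg_mem (hin _ _ h (hs _ _ he'.2))
      · exact hin _ _ h he'.2
    · rintro _ ⟨j, rfl⟩
      have h2 : (j : Fin n) ≠ p j := fun e => absurd (hp j).1 (by rw [← e]; exact lt_irrefl _)
      rcases lt_or_gt_of_ne h2 with h | h
      · exact Submodule.subset_span ⟨(j, p j), mem_filter.2 ⟨mem_univ _, h, (hp j).2⟩, rfl⟩
      · change ev _ ∈ _
        rw [hneg]
        exact neg_mem (Submodule.subset_span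
          ⟨(p j, j), mem_filter.2 ⟨mem_univ _, h, hs _ _ (hp j).2⟩, rfl⟩)
  have hT : Fintype.card T + ∑ j, ((univ.filter fun k => key k < key j ∧ S j k).card - 1) =
      ∑ j, (univ.filter fun k => key k < key j ∧ S j k).card := by
    rw [Fintype.card_subtype, card_filter, ← sum_add_distrib]
    refine sum_congr rfl fun j _ => ?_
    split_ifs with h
    · have : 0 < (univ.filter fun k => key k < key j ∧ S j k).card :=
        card_pos.2 ⟨h.choose, mem_filter.2 ⟨mem_univ _, h.choose_spec⟩⟩
      omega
    · have : (univ.filter fun k => key k < key j ∧ S j k) = ∅ :=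
        filter_eq_empty_iff.2 fun k _ hk' => h ⟨k, hk'⟩
      rw [this]
      rfl
  rw [nul, hsp, finrank_span_eq_card hli, hcard]
  omega

open Classical in
theorem choose_eq_sum {β : Type*} [LinearOrder β] {key : Fin n → β}
    (hk : Function.Injective key) (T : Finset (Fin n)) :
    (T.card - 1).choose 2 = ∑ j ∈ T, ((T.filter fun k => key k < key j).card - 1) := by
  induction T using Finset.induction_on_max_value key with
  | empty => simp
  | insert a s ha hmax ih =>
    have h1 : ((insert a s).filter fun f => key f < key a) = s := by
      ext f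
      simp only [mem_filter, mem_insert]
      constructor
      · rintro ⟨rfl | h, h'⟩
        · exact absurd h' (lt_irrefl _)
        · exact h
      · intro h
        exact ⟨Or.inr h, lt_of_le_of_ne (hmax f h) fun e => ha (hk e ▸ h)⟩
    have h2 : ∀ e ∈ s, ((insert a s).filter fun f => key f < key e) =
        s.filter fun f => key f < key e := by
      intro e he
      rw [filter_insert, if_neg (not_lt.2 (hmax e he))]
    rw [sum_insert ha, h1, sum_congr rfl fun e he => by rw [h2 e he], ← ih,
      card_insert_of_notMem ha, Nat.add_sub_cancel]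
    rcases s.card with _ | m
    · rfl
    · rw [Nat.add_sub_cancel, Nat.choose_succ_succ' m 1, Nat.choose_one_right]

end Pool.Agent.Lib.MP_0a1ca9_gt
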