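import Pool.Agent.Lib.MP_0a1ca9_gt.TPois

/-! The rearrangement inequality for strips, with a radial weight. -/

open MeasureTheory Set
open scoped ENNReal

namespace Pool.Agent.Lib.MP_0a1ca9_gt

/-- The norm of `(1, p.1, p.2)`. -/
noncomputable def nn (p : ℝ × ℝ) : ℝ := √(1 + p.1 ^ 2 + p.2 ^ 2)

theorem nn_sq (p : ℝ × ℝ) : nn p ^ 2 = 1 + p.1 ^ 2 + p.2 ^ 2 := Real.sq_sqrt (by positivity)

theorem one_le_nn (p : ℝ × ℝ) : 1 ≤ nn p :=
  Real.one_le_sqrt.2 (by nlinarith [sq_nonneg p.1, sq_nonneg p.2])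

theorem nn_pos (p : ℝ × ℝ) : 0 < nn p := one_pos.trans_le (one_le_nn p)

@[fun_prop]
theorem continuous_nn : Continuous nn := by unfold nn; fun_prop

theorem nn_swap (a z : ℝ) : nn (a, z) = nn (z, a) := by
  simp only [nn]; congr 1; ring

theorem nn_neg (a z : ℝ) : nn (a, -z) = nn (a, z) := by simp [nn]

theorem abs_le_nn (a z : ℝ) : |z| ≤ nn (a, z) :=
  Real.abs_le_sqrt (by nlinarith [sq_nonneg a])

theorem nn_le_add (a z z' : ℝ) : nn (a, z) ≤ nn (a, z') + |z - z'| := by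
  have h1 := abs_le_nn a z'
  have h2 := nn_sq (a, z')
  have h3 := nn_pos (a, z')
  have h4 : |z| ≤ |z'| + |z - z'| := by
    have := abs_add_le z' (z - z')
    rwa [add_sub_cancel] at this
  refine Real.sqrt_le_iff.2 ⟨by positivity, ?_⟩
  have h5 : |z| ^ 2 ≤ (|z'| + |z - z'|) ^ 2 := by gcongr
  simp only at h2 ⊢
  nlinarith [sq_abs z, sq_abs z', abs_nonneg (z - z')]

theorem lintegral_nn_lt_top : ∫⁻ p : ℝ × ℝ, ENNReal.ofReal (nn p ^ 3)⁻¹ < ∞ := by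
  have h := integrable_rpow_neg_one_add_norm_sq (μ := (volume : Measure (ℝ × ℝ))) (r := 3)
    (by simp; norm_num)
  refine lt_of_le_of_lt (lintegral_mono fun p => ?_) h.2
  rw [Real.enorm_eq_ofReal (by positivity)]
  refine ENNReal.ofReal_le_ofReal ?_
  have h1 : 1 + ‖p‖ ^ 2 ≤ nn p ^ 2 := by
    rw [nn_sq, Prod.norm_def]
    rcases le_total ‖p.1‖ ‖p.2‖ with h | h
    · rw [max_eq_right h, Real.norm_eq_abs, sq_abs]; nlinarith [sq_nonneg p.1]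
    · rw [max_eq_left h, Real.norm_eq_abs, sq_abs]; nlinarith [sq_nonneg p.2]
  have h2 := nn_pos p
  have h3 : (nn p ^ 3)⁻¹ = (nn p ^ 2) ^ (-3 / 2 : ℝ) := by
    rw [← Real.rpow_natCast, ← Real.rpow_natCast, ← Real.rpow_mul h2.le, ← Real.rpow_neg h2.le]
    norm_num
  rw [h3]
  exact Real.rpow_le_rpow_of_nonpos (by positivity) h1 (by norm_num)

variable {Ω : Type*} [MeasurableSpace Ω]

theorem ms_le_and {f g f' g' : Ω → ℝ} (hf : Measurable f) (hg : Measurable g) (hf' : Measurable f')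
    (hg' : Measurable g') : MeasurableSet {x | f x ≤ g x ∧ f' x ≤ g' x} :=
  (measurableSet_le hf hg).inter (measurableSet_le hf' hg')

theorem fam_strip {a c r : Ω → ℝ} (ha : Measurable a) (hc : Measurable c) (hr : Measurable r)
    {κ : ℝ} (h0 : 0 ≤ κ) (h1 : κ ≤ 1) (R : ℝ) :
    Fam (fun ω => {w : ℝ × ℝ | |w.1 + a ω * w.2 + κ * c ω| ≤ r ω ∧ w.1 ^ 2 + w.2 ^ 2 ≤ R})
      (fun ω => {w : ℝ × ℝ | |w.1 + a ω * w.2 + c ω| ≤ r ω ∧ w.1 ^ 2 + w.2 ^ 2 ≤ R}) κ := by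
  have hsq : ∀ x y x' y' s t : ℝ, 0 ≤ s → 0 ≤ t → s + t = 1 → x ^ 2 + y ^ 2 ≤ R →
      x' ^ 2 + y' ^ 2 ≤ R → (s * x + t * x') ^ 2 + (s * y + t * y') ^ 2 ≤ R := by
    intro x y x' y' s t hs ht hst h h'
    obtain rfl : t = 1 - s := by linarith
    nlinarith [mul_nonneg (mul_nonneg hs ht) (sq_nonneg (x - x')),
      mul_nonneg (mul_nonneg hs ht) (sq_nonneg (y - y')), mul_le_mul_of_nonneg_left h hs,
      mul_le_mul_of_nonneg_left h' ht]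
  have hab : ∀ x y s t ρ : ℝ, 0 ≤ s → 0 ≤ t → s + t = 1 → |x| ≤ ρ → |y| ≤ ρ →
      |s * x + t * y| ≤ ρ := by
    intro x y s t ρ hs ht hst h h'
    rw [abs_le] at h h' ⊢
    obtain rfl : t = 1 - s := by linarith
    constructor <;> nlinarith [h.1, h.2, h'.1, h'.2]
  have hcp : ∀ A C ρ : ℝ,
      IsCompact {w : ℝ × ℝ | |w.1 + A * w.2 + C| ≤ ρ ∧ w.1 ^ 2 + w.2 ^ 2 ≤ R} := by
    intro A C ρ
    refine (isCompact_closedBall (0 : ℝ × ℝ) (1 + |R|)).of_isClosed_subset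
      (by refine IsClosed.and (isClosed_le ?_ ?_) (isClosed_le ?_ ?_) <;> fun_prop) fun w hw => ?_
    have h2 := hw.2
    rw [mem_closedBall_zero_iff, Prod.norm_def, max_le_iff, Real.norm_eq_abs, Real.norm_eq_abs]
    constructor
    · nlinarith [sq_abs w.1, sq_nonneg w.2, le_abs_self R, sq_nonneg (|w.1| - 1), abs_nonneg R]
    · nlinarith [sq_abs w.2, sq_nonneg w.1, le_abs_self R, sq_nonneg (|w.2| - 1), abs_nonneg R]
  have hcv : ∀ A C ρ : ℝ,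
      Convex ℝ {w : ℝ × ℝ | |w.1 + A * w.2 + C| ≤ ρ ∧ w.1 ^ 2 + w.2 ^ 2 ≤ R} := by
    intro A C ρ x hx y hy s t hs ht hst
    refine ⟨?_, hsq _ _ _ _ s t hs ht hst hx.2 hy.2⟩
    convert hab _ _ s t ρ hs ht hst hx.1 hy.1 using 2
    obtain rfl : t = 1 - s := by linarith
    simp only [Prod.fst_add, Prod.smul_fst, Prod.snd_add, Prod.smul_snd, smul_eq_mul]
    ring
  refine ⟨?_, ?_, fun ω => hcp _ _ _, fun ω => hcv _ _ _, fun ω => hcp _ _ _, fun ω => hcv _ _ _,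
    h0, h1, ?_⟩
  · simp only [mem_ofPred_eq]
    refine ms_le_and ?_ ?_ ?_ ?_ <;> fun_prop
  · simp only [mem_ofPred_eq]
    refine ms_le_and ?_ ?_ ?_ ?_ <;> fun_prop
  intro ω p hp p' hp'
  have hs : 0 ≤ (1 + κ) / 2 := by linarith
  have ht : 0 ≤ (1 - κ) / 2 := by linarith
  constructor
  · convert hab _ _ _ _ _ hs ht (by ring) hp.1 ((abs_neg _).trans_le hp'.1) using 2
    simp only [Prod.fst_sub, Prod.smul_fst, Prod.snd_sub, Prod.smul_snd, smul_eq_mul]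
    ring
  · convert hsq p.1 p.2 (-p'.1) (-p'.2) _ _ hs ht (by ring) hp.2 (by simpa using hp'.2) using 2 <;>
      simp only [Prod.fst_sub, Prod.smul_fst, Prod.snd_sub, Prod.smul_snd, smul_eq_mul] <;> ring

theorem strip_le (μ : Measure Ω) [SigmaFinite μ] {a c r : Ω → ℝ} (ha : Measurable a)
    (hc : Measurable c) (hr : Measurable r) {κ : ℝ} (h0 : 0 ≤ κ) (h1 : κ ≤ 1) {q γ : ℝ}
    (h2 : 2 < q) (h3 : q < 3) (hγ : γ < 0) :
    ∫⁻ w : ℝ × ℝ, ENNReal.ofReal (nn w ^ γ) * μ {ω | |w.1 + a ω * w.2 + c ω| ≤ r ω} ^ q ≤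
      ∫⁻ w : ℝ × ℝ, ENNReal.ofReal (nn w ^ γ) * μ {ω | |w.1 + a ω * w.2 + κ * c ω| ≤ r ω} ^ q := by
  have key : ∀ {c : Ω → ℝ} (_ : Measurable c),
      ∫⁻ w : ℝ × ℝ, ENNReal.ofReal (nn w ^ γ) * μ {ω | |w.1 + a ω * w.2 + c ω| ≤ r ω} ^ q =
        ∫⁻ t in Ioi (0 : ℝ), ∫⁻ w : ℝ × ℝ, μ {ω | |w.1 + a ω * w.2 + c ω| ≤ r ω ∧
          w.1 ^ 2 + w.2 ^ 2 ≤ (t ^ γ⁻¹) ^ 2 - 1} ^ q := by
    intro c hc
    have hm : Measurable fun p : ℝ × ℝ × ℝ => μ {ω | |p.2.1 + a ω * p.2.2 + c ω| ≤ r ω ∧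
        p.2.1 ^ 2 + p.2.2 ^ 2 ≤ (p.1 ^ γ⁻¹) ^ 2 - 1} ^ q :=
      (measurable_measure_prodMk_right (s := {x : Ω × ℝ × ℝ × ℝ |
        |x.2.2.1 + a x.1 * x.2.2.2 + c x.1| ≤ r x.1 ∧
          x.2.2.1 ^ 2 + x.2.2.2 ^ 2 ≤ (x.2.1 ^ γ⁻¹) ^ 2 - 1})
        (by refine ms_le_and ?_ ?_ ?_ ?_ <;> fun_prop)).pow_const _
    rw [lintegral_lintegral_swap hm.aemeasurable]
    refine lintegral_congr fun w => ?_
    have h4 : ∀ t ∈ Ioi (0 : ℝ), μ {ω | |w.1 + a ω * w.2 + c ω| ≤ r ω ∧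
        w.1 ^ 2 + w.2 ^ 2 ≤ (t ^ γ⁻¹) ^ 2 - 1} ^ q = (Iic (nn w ^ γ)).indicator
          (fun _ => μ {ω | |w.1 + a ω * w.2 + c ω| ≤ r ω} ^ q) t := by
      intro t ht
      have ht' : 0 < t := ht
      have h5 : w.1 ^ 2 + w.2 ^ 2 ≤ (t ^ γ⁻¹) ^ 2 - 1 ↔ t ≤ nn w ^ γ := by
        rw [← Real.le_rpow_inv_iff_of_neg (nn_pos w) ht' hγ,
          ← sq_le_sq₀ (nn_pos w).le (by positivity), nn_sq]
        constructor <;> intro h <;> linarith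
      by_cases h6 : t ≤ nn w ^ γ
      · rw [indicator_of_mem (show t ∈ Iic _ from h6)]
        simp only [h5.2 h6, and_true]
      · rw [indicator_of_notMem (show t ∉ Iic _ from h6)]
        simp only [h5, h6, and_false, ofPred_false, measure_empty]
        exact ENNReal.zero_rpow_of_pos (by linarith)
    rw [setLIntegral_congr_fun measurableSet_Ioi h4, lintegral_indicator_const measurableSet_Iic,
      Measure.restrict_apply measurableSet_Iic, Iic_inter_Ioi, Real.volume_Ioc, sub_zero, mul_comm]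
  rw [key hc, key (hc.const_mul κ)]
  exact lintegral_mono fun t => (fam_strip ha hc hr h0 h1 _).rpow_le μ h2 h3

end Pool.Agent.Lib.MP_0a1ca9_gt
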