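import Pool.Agent.Lib.MP_0a1ca9_gt.TStrip
import Pool.Agent.Lib.MP_0a1ca9_gt.TComp

/-! The first variation under spreading of components: the integral inequality. -/

open MeasureTheory Set Filter Topology
open scoped ENNReal

namespace Pool.Agent.Lib.MP_0a1ca9_gt

/-- The function of degree `-2` attached to a function of degree `-1`, in a chart. -/
noncomputable def Hh (i : ℝ) (U : ℝ × ℝ → ℝ) (p : ℝ × ℝ) : ℝ := U p ^ i * nn p ^ (i - 2)

theorem Hh_mul {i : ℝ} {U : ℝ × ℝ → ℝ} {p : ℝ × ℝ} (h : 0 ≤ U p) :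
    Hh i U p * nn p ^ 2 = (U p * nn p) ^ i := by
  have := nn_pos p
  rw [Hh, Real.mul_rpow h this.le, mul_assoc, ← Real.rpow_natCast, ← Real.rpow_add this]
  norm_num

theorem continuous_Hh {i : ℝ} (hi : 0 ≤ i) {U : ℝ × ℝ → ℝ} (h : Continuous U) :
    Continuous (Hh i U) :=
  (h.rpow_const fun _ => Or.inr hi).mul (continuous_nn.rpow_const fun p => Or.inl (nn_pos p).ne')

/-- The equation in a pair of dual charts. -/
structure Chart (i m M c : ℝ) (U V : ℝ × ℝ → ℝ) : Prop where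
  i1 : 1 < i
  i2 : i < 2
  m0 : 0 < m
  c0 : 0 < c
  cU : Continuous U
  cV : Continuous V
  lo : ∀ p, m ≤ U p * nn p
  hi : ∀ p, U p * nn p ≤ M
  loV : ∀ p, m ≤ V p * nn p
  hiV : ∀ p, V p * nn p ≤ M
  e1 : ∀ x s, ∫⁻ a, ENNReal.ofReal (Hh i U (a, -x - a * s)) = ENNReal.ofReal (c * V (s, x))
  e2 : ∀ x s, ∫⁻ a, ENNReal.ofReal (Hh i V (a, -x - a * s)) = ENNReal.ofReal (c * U (s, x))

namespace Chart

variable {i m M c : ℝ} {U V : ℝ × ℝ → ℝ} (h : Chart i m M c U V)
include h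

theorem symm : Chart i m M c V U :=
  ⟨h.i1, h.i2, h.m0, h.c0, h.cV, h.cU, h.loV, h.hiV, h.lo, h.hi, h.e2, h.e1⟩

theorem pos (p : ℝ × ℝ) : 0 < U p := (mul_pos_iff_of_pos_right (nn_pos p)).1 (h.m0.trans_le (h.lo p))

theorem M0 : 0 < M := h.m0.trans_le ((h.lo 0).trans (h.hi 0))

theorem H_lo (p : ℝ × ℝ) : m ^ i ≤ Hh i U p * nn p ^ 2 := by
  rw [Hh_mul (h.pos p).le]
  exact Real.rpow_le_rpow h.m0.le (h.lo p) (by linarith [h.i1])

theorem H_hi (p : ℝ × ℝ) : Hh i U p * nn p ^ 2 ≤ M ^ i := by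
  rw [Hh_mul (h.pos p).le]
  exact Real.rpow_le_rpow (h.m0.le.trans (h.lo p)) (h.hi p) (by linarith [h.i1])

theorem H_pos (p : ℝ × ℝ) : 0 < Hh i U p :=
  mul_pos (Real.rpow_pos_of_pos (h.pos p) _) (Real.rpow_pos_of_pos (nn_pos p) _)

theorem dec : Dec (Hh i U) where
  cont := continuous_Hh (by linarith [h.i1]) h.cU
  pos := h.H_pos
  small := fun a t z ht => by
    have hM : 0 < M ^ i := Real.rpow_pos_of_pos h.M0 _
    have key : ∀ y, |y| = max |z| (M ^ i / t) → Hh i U (a, y) ≤ t := by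
      intro y hy
      have h1 := h.H_hi (a, y)
      have h2 : M ^ i / t ≤ nn (a, y) := ((le_max_right _ _).trans hy.ge).trans (abs_le_nn a y)
      have h3 := one_le_nn (a, y)
      rw [div_le_iff₀ ht] at h2
      have h4 : Hh i U (a, y) * nn (a, y) ^ 2 ≤ t * nn (a, y) ^ 2 := by nlinarith
      exact le_of_mul_le_mul_right h4 (by positivity)
    have h0 : 0 ≤ max |z| (M ^ i / t) := le_max_of_le_left (abs_nonneg z)
    exact ⟨max |z| (M ^ i / t), (le_abs_self z).trans (le_max_left _ _), key _ (abs_of_nonneg h0),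
      key _ (by rw [abs_neg, abs_of_nonneg h0])⟩

theorem pairing {Ω : Type*} [MeasurableSpace Ω] (μ : Measure Ω) [SFinite μ] {a C r : Ω → ℝ}
    (ha : Measurable a) (hC : Measurable C) (hr : Measurable r) :
    ∫⁻ w : ℝ × ℝ, ENNReal.ofReal (nn w ^ (i - 2)) * (μ {ω | |w.1 + a ω * w.2 + C ω| ≤ r ω} *
      ENNReal.ofReal (c * V (w.2, w.1)) ^ i) =
      ENNReal.ofReal (c ^ i * c) * ∫⁻ ω, ∫⁻ z in Icc (C ω - r ω) (C ω + r ω),
        ENNReal.ofReal (U (a ω, z)) ∂volume ∂μ := by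
  have hc := h.c0
  have hH : Measurable (Hh i V) := h.symm.dec.cont.measurable
  have hS : MeasurableSet {p : Ω × ℝ × ℝ | |p.2.1 + a p.1 * p.2.2 + C p.1| ≤ r p.1} :=
    measurableSet_le (by fun_prop) (by fun_prop)
  let Φ : Ω × ℝ × ℝ → ℝ≥0∞ := {p : Ω × ℝ × ℝ | |p.2.1 + a p.1 * p.2.2 + C p.1| ≤ r p.1}.indicator
    fun p => ENNReal.ofReal (c ^ i) * ENNReal.ofReal (Hh i V (p.2.2, p.2.1))
  have hΦ : Measurable Φ := Measurable.indicator (by fun_prop) hS
  have h1 : ∀ w : ℝ × ℝ, ENNReal.ofReal (nn w ^ (i - 2)) *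
      (μ {ω | |w.1 + a ω * w.2 + C ω| ≤ r ω} * ENNReal.ofReal (c * V (w.2, w.1)) ^ i) =
      ∫⁻ ω, Φ (ω, w) ∂μ := by
    intro w
    have hV := h.symm.pos (w.2, w.1)
    have hw := nn_pos w
    have h2 : ∫⁻ ω, Φ (ω, w) ∂μ = ∫⁻ ω, {ω | |w.1 + a ω * w.2 + C ω| ≤ r ω}.indicator
        (fun _ => ENNReal.ofReal (c ^ i) * ENNReal.ofReal (Hh i V (w.2, w.1))) ω ∂μ := rfl
    rw [h2, lintegral_indicator_const (measurableSet_le (by fun_prop) hr), mul_left_comm, mul_comm,
      ENNReal.ofReal_rpow_of_pos (by positivity), ← ENNReal.ofReal_mul (by positivity),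
      ← ENNReal.ofReal_mul (by positivity), Hh, Real.mul_rpow hc.le hV.le, nn_swap w.2 w.1]
    congr 2
    ring
  simp_rw [h1]
  rw [lintegral_lintegral_swap (f := fun w ω => Φ (ω, w))
    (hΦ.comp measurable_swap).aemeasurable, ← lintegral_const_mul' _ _ ENNReal.ofReal_ne_top]
  refine lintegral_congr fun ω => ?_
  have h3 : Measurable fun w => Φ (ω, w) := hΦ.comp measurable_prodMk_left
  rw [Measure.volume_eq_prod, lintegral_prod_symm _ h3.aemeasurable]
  have h4 : ∀ s, ∫⁻ x, Φ (ω, x, s) = ∫⁻ z, Φ (ω, -(s * a ω) - z, s) := fun s =>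
    (lintegral_sub_left_eq_self (fun x => Φ (ω, x, s)) _).symm
  simp_rw [h4]
  rw [lintegral_lintegral_swap (f := fun s z => Φ (ω, -(s * a ω) - z, s))
    (h3.comp (by fun_prop)).aemeasurable, ← lintegral_const_mul' _ _ ENNReal.ofReal_ne_top,
    ← lintegral_indicator measurableSet_Icc]
  refine lintegral_congr fun z => ?_
  have h5 : ∀ s, |-(s * a ω) - z + a ω * s + C ω| ≤ r ω ↔ z ∈ Icc (C ω - r ω) (C ω + r ω) := by
    intro s
    rw [abs_le, mem_Icc]
    constructor <;> rintro ⟨k1, k2⟩ <;> constructor <;> linarith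
  by_cases hz : z ∈ Icc (C ω - r ω) (C ω + r ω)
  · have h6 : ∀ s, Φ (ω, -(s * a ω) - z, s) =
        ENNReal.ofReal (c ^ i) * ENNReal.ofReal (Hh i V (s, -z - s * a ω)) := fun s => by
      simp only [Φ]
      rw [indicator_of_mem (by exact (h5 s).2 hz)]
      congr 4
      ring
    simp_rw [h6]
    rw [indicator_of_mem hz, lintegral_const_mul' _ _ ENNReal.ofReal_ne_top, h.e2,
      ← ENNReal.ofReal_mul (by positivity), ← ENNReal.ofReal_mul (by positivity), mul_assoc]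
  · rw [indicator_of_notMem hz]
    refine lintegral_eq_zero_of_ae_eq_zero (ae_of_all _ fun s => ?_)
    simp only [Φ, Pi.zero_apply]
    rw [indicator_of_notMem (by exact fun k => hz ((h5 s).1 k))]

/-- The integral of `U` over the spread components. -/
noncomputable def _root_.Pool.Agent.Lib.MP_0a1ca9_gt.spr (H U : ℝ × ℝ → ℝ) (τ : ℝ)
    (ω : ℝ × ℝ × ℝ) : ℝ≥0∞ :=
  ∫⁻ z in Icc (al H ω + τ * ((al H ω + bt H ω) / 2)) (bt H ω + τ * ((al H ω + bt H ω) / 2)),
    ENNReal.ofReal (U (ω.1, z))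

theorem spread_le {τ : ℝ} (hτ : 0 ≤ τ) :
    ∫⁻ ω, spr (Hh i U) U τ ω ∂cmu (Hh i U) ≤ ∫⁻ ω, spr (Hh i U) U 0 ω ∂cmu (Hh i U) ∧
      ∫⁻ ω, spr (Hh i U) U 0 ω ∂cmu (Hh i U) < ∞ := by
  set H := Hh i U with hH
  have hd := h.dec
  have hal := hd.measurable_al
  have hbt := hd.measurable_bt
  have hc := h.c0
  have hi1 := h.i1
  have hcV := h.cV
  rw [← hH] at hd hal hbt
  let g : ℝ → ℝ × ℝ → ℝ≥0∞ := fun τ w => cmu H {ω | |w.1 + ω.1 * w.2 +
    (1 + τ) * ((al H ω + bt H ω) / 2)| ≤ (bt H ω - al H ω) / 2}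
  have hg : ∀ τ, Measurable (g τ) := fun τ =>
    measurable_measure_prodMk_right (s := {p : (ℝ × ℝ × ℝ) × ℝ × ℝ | |p.2.1 + p.1.1 * p.2.2 +
      (1 + τ) * ((al H p.1 + bt H p.1) / 2)| ≤ (bt H p.1 - al H p.1) / 2})
      (measurableSet_le (by fun_prop) (by fun_prop))
  have h0 : ∀ w, g 0 w = ENNReal.ofReal (c * V (w.2, w.1)) := by
    intro w
    rw [← h.e1, ← hd.cmu_meet (y := fun a => -w.1 - a * w.2) (by fun_prop)]
    simp only [g]
    congr 1
    ext ω
    simp only [mem_ofPred_eq, abs_le]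
    constructor <;> rintro ⟨k1, k2⟩ <;> constructor <;> linarith
  have hp : ∀ τ, ∫⁻ w, ENNReal.ofReal (nn w ^ (i - 2)) * (g τ w * g 0 w ^ i) =
      ENNReal.ofReal (c ^ i * c) * ∫⁻ ω, spr H U τ ω ∂cmu H := by
    intro τ
    simp_rw [h0]
    rw [h.pairing (cmu H) measurable_fst (by fun_prop) (by fun_prop)]
    congr 1
    refine lintegral_congr fun ω => ?_
    rw [spr]
    congr 3 <;> ring
  have hq : ∀ w, g 0 w * g 0 w ^ i = g 0 w ^ (i + 1) := fun w => by
    rw [ENNReal.rpow_add_of_nonneg _ _ (by linarith) zero_le_one, ENNReal.rpow_one, mul_comm]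
  have hψ : Measurable fun w => ENNReal.ofReal (nn w ^ (i - 2)) := by fun_prop
  have hs : ∫⁻ w, ENNReal.ofReal (nn w ^ (i - 2)) * g τ w ^ (i + 1) ≤
      ∫⁻ w, ENNReal.ofReal (nn w ^ (i - 2)) * g 0 w ^ (i + 1) := by
    refine (strip_le (cmu H) measurable_fst (by fun_prop) (by fun_prop) (κ := (1 + τ)⁻¹)
      (by positivity) (inv_le_one_of_one_le₀ (by linarith)) (by linarith) (by linarith [h.i2])
      (by linarith [h.i2])).trans (le_of_eq (lintegral_congr fun w => ?_))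
    simp only [g]
    rw [add_zero]
    simp_rw [inv_mul_cancel_left₀ (show (1 + τ) ≠ 0 by positivity), one_mul]
  have hne : ENNReal.ofReal (c ^ i * c) ≠ 0 := (ENNReal.ofReal_pos.2 (by positivity)).ne'
  constructor
  · rw [← ENNReal.mul_le_mul_iff_right hne ENNReal.ofReal_ne_top, ← hp, ← hp]
    simp_rw [hq]
    have hpq : (i + 1).HolderConjugate ((i + 1) / i) := by
      rw [Real.holderConjugate_iff]
      exact ⟨by linarith, by field_simp; ring⟩
    have h5 := ENNReal.lintegral_mul_le_Lp_mul_Lq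
      (volume.withDensity fun w => ENNReal.ofReal (nn w ^ (i - 2))) hpq (hg τ).aemeasurable
      ((hg 0).pow_const i).aemeasurable
    rw [lintegral_withDensity_eq_lintegral_mul _ hψ ((hg τ).mul ((hg 0).pow_const i)),
      lintegral_withDensity_eq_lintegral_mul _ hψ ((hg τ).pow_const _),
      lintegral_withDensity_eq_lintegral_mul _ hψ (((hg 0).pow_const i).pow_const _)] at h5
    simp only [Pi.mul_apply, ← ENNReal.rpow_mul] at h5
    rw [mul_div_cancel₀ _ (by linarith : i ≠ 0)] at h5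
    refine h5.trans ((mul_le_mul_left (ENNReal.rpow_le_rpow hs (by positivity)) _).trans
      (le_of_eq ?_))
    rw [← ENNReal.rpow_add_of_nonneg _ _ (by positivity) (by positivity),
      show 1 / (i + 1) + 1 / ((i + 1) / i) = 1 by field_simp; ring, ENNReal.rpow_one]
  · refine ENNReal.lt_top_of_mul_ne_top_right (ne_of_lt ?_) hne
    rw [← hp]
    have hM := h.M0
    refine lt_of_le_of_lt (lintegral_mono (g := fun w => ENNReal.ofReal ((c * M) ^ (i + 1)) *
      ENNReal.ofReal (nn w ^ 3)⁻¹) fun w => ?_) ?_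
    · have hV := h.symm.pos (w.2, w.1)
      have hw := nn_pos w
      have h6 : c * V (w.2, w.1) ≤ c * M / nn w := by
        rw [mul_div_assoc]
        refine mul_le_mul_of_nonneg_left ((le_div_iff₀ hw).2 ?_) hc.le
        exact (congrArg _ (nn_swap w.1 w.2)).trans_le (h.hiV (w.2, w.1))
      simp only []
      rw [hq, h0, ENNReal.ofReal_rpow_of_pos (by positivity), ← ENNReal.ofReal_mul (by positivity),
        ← ENNReal.ofReal_mul (by positivity)]
      refine ENNReal.ofReal_le_ofReal ((mul_le_mul_of_nonneg_left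
        (Real.rpow_le_rpow (by positivity) h6 (by linarith)) (by positivity)).trans (le_of_eq ?_))
      rw [Real.div_rpow (by positivity) hw.le, mul_div_left_comm, ← Real.rpow_sub hw,
        ← Real.rpow_natCast, ← Real.rpow_neg hw.le]
      congr 2
      push_cast
      ring
    · rw [lintegral_const_mul' _ _ ENNReal.ofReal_ne_top]
      exact ENNReal.mul_lt_top ENNReal.ofReal_lt_top lintegral_nn_lt_top

end Chart

end Pool.Agent.Lib.MP_0a1ca9_gt
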