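import Pool.Agent.Lib.MP_0a1ca9_gt.CdVar

/-! The order `n - 1`: definitions. -/

open MeasureTheory Set Filter Topology
open scoped ENNReal RealInnerProductSpace

namespace Pool.Agent.Lib.MP_0a1ca9_gt.Cd

variable {k : ℕ}

/-- The volume of the intersection of `k + 2` strips, the centres being scaled by `κ`. -/
noncomputable def sv (Y : Fin k → V (k + 1)) (C R : Fin k → ℝ) (y₁ y₂ : V (k + 1))
    (c₁ c₂ r₁ r₂ κ : ℝ) : ℝ≥0∞ :=
  volume {w : V (k + 1) | (∀ j, |⟪Y j, w⟫ + κ * C j| ≤ R j) ∧ |⟪y₁, w⟫ + κ * c₁| ≤ r₁ ∧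
    |⟪y₂, w⟫ + κ * c₂| ≤ r₂}

/-- Strict decrease of first order at `1`. -/
def Gain (A : ℝ → ℝ≥0∞) : Prop :=
  ∃ η > 0, ∀ᶠ τ in 𝓝[>] (0 : ℝ), A (1 + τ) + ENNReal.ofReal (τ * η) ≤ A 1

/-- The functional along the spreading of the strips. -/
noncomputable def FF {Ω : Type*} [MeasurableSpace Ω] (μ : Measure Ω) (y : Ω → V (k + 1))
    (c r : Ω → ℝ) (τ : ℝ) : ℝ≥0∞ :=
  ∫⁻ w : V (k + 1), μ {ω | |⟪y ω, w⟫ + (1 + τ) * c ω| ≤ r ω} ^ (k + 2)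

/-- Almost no tuple of strips has a strict decrease. -/
def Flat {Ω : Type*} [MeasurableSpace Ω] (μ : Measure Ω) (y : Ω → V (k + 1)) (c r : Ω → ℝ) : Prop :=
  ∀ᵐ X ∂Measure.pi fun _ : Fin k => μ, ∀ᵐ ω₁ ∂μ, ∀ᵐ ω₂ ∂μ,
    ¬Gain (sv (fun j => y (X j)) (fun j => c (X j)) (fun j => r (X j)) (y ω₁) (y ω₂) (c ω₁) (c ω₂)
      (r ω₁) (r ω₂))

/-- Strict monotonicity far out on vertical lines. -/
def Tail (H : V k × ℝ → ℝ) : Prop :=
  ∀ a, ∃ Z : ℝ, ∀ z z', Z ≤ z → z < z' → H (a, z') < H (a, z) ∧ H (a, -z') < H (a, -z)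

/-- The normal vector of the strip of a component. -/
noncomputable def yy (ω : V k × ℝ × ℝ) : V (k + 1) := cns 1 ω.1

/-- The centre of a component. -/
noncomputable def cc (H : V k × ℝ → ℝ) (ω : V k × ℝ × ℝ) : ℝ := (al H ω + bt H ω) / 2

/-- The half length of a component. -/
noncomputable def rr (H : V k × ℝ → ℝ) (ω : V k × ℝ × ℝ) : ℝ := (bt H ω - al H ω) / 2

end Pool.Agent.Lib.MP_0a1ca9_gt.Cd
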