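import Pool.Agent.Lib.MP_0a1ca9_gt.TpDef

/-! The order `n - 1`: strict decrease of the volume when two strips are long. -/

open MeasureTheory Set Filter Topology Module
open scoped ENNReal RealInnerProductSpace

namespace Pool.Agent.Lib.MP_0a1ca9_gt.Cd

variable {k : ℕ}

theorem tpGain_strip {p α r s : ℝ} (h : p ≠ 0) :
    |p * s + α| ≤ r ↔ s ∈ Icc (-(α / p) - r / |p|) (-(α / p) + r / |p|) := by
  have e : p * s + α = p * (s + α / p) := by field_simp
  rw [e, abs_mul, mul_comm, ← le_div_iff₀ (abs_pos.2 h), abs_le, mem_Icc]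
  constructor <;> rintro ⟨h1, h2⟩ <;> constructor <;> linarith

theorem tpGain_len (x ρ x' ρ' : ℝ) :
    min (x + ρ) (x' + ρ') - max (x - ρ) (x' - ρ') = ρ + ρ' - max |x - x'| |ρ - ρ'| := by
  simp only [abs_eq_max_neg, min_def, max_def]
  split_ifs <;> linarith

/-- Sketch: both sets are closed intervals (`abs_le`, divide by `p₁`, `p₂`; or scale `s` by
`p₁ * p₂`), `Icc_inter_Icc`, `Real.volume_Icc`, cases on `max`, `min`. -/
theorem len_two {p₁ p₂ α₁ α₂ r₁ r₂ : ℝ} (h₁ : p₁ ≠ 0) (h₂ : p₂ ≠ 0) :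
    volume {s : ℝ | |p₁ * s + α₁| ≤ r₁ ∧ |p₂ * s + α₂| ≤ r₂} = ENNReal.ofReal
      ((|p₂| * r₁ + |p₁| * r₂ - max |p₂ * α₁ - p₁ * α₂| |(|p₂| * r₁ - |p₁| * r₂)|) / |p₁ * p₂|) := by
  have e : {s : ℝ | |p₁ * s + α₁| ≤ r₁ ∧ |p₂ * s + α₂| ≤ r₂} =
      Icc (-(α₁ / p₁) - r₁ / |p₁|) (-(α₁ / p₁) + r₁ / |p₁|) ∩
        Icc (-(α₂ / p₂) - r₂ / |p₂|) (-(α₂ / p₂) + r₂ / |p₂|) := by
    ext s
    exact and_congr (tpGain_strip h₁) (tpGain_strip h₂)
  have a₁ := abs_pos.2 h₁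
  have a₂ := abs_pos.2 h₂
  have hq : 0 < |p₁ * p₂| := abs_pos.2 (mul_ne_zero h₁ h₂)
  have e₁ : |-(α₁ / p₁) - -(α₂ / p₂)| * |p₁ * p₂| = |p₂ * α₁ - p₁ * α₂| := by
    rw [← abs_mul, ← abs_neg]
    congr 1
    field_simp
    ring
  have e₂ : |(r₁ / |p₁| - r₂ / |p₂|)| * |p₁ * p₂| = |(|p₂| * r₁ - |p₁| * r₂)| := by
    rw [← abs_abs (p₁ * p₂), ← abs_mul, abs_mul p₁]
    congr 1
    field_simp
  rw [e, Icc_inter_Icc, Real.volume_Icc, tpGain_len]
  congr 1
  rw [eq_div_iff hq.ne', sub_mul, max_mul_of_nonneg _ _ hq.le, e₁, e₂, abs_mul]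
  congr 1
  field_simp

theorem tpGain_cont (θ : Fin k → ℝ) (D m : ℝ) :
    Continuous fun u : Fin k → ℝ => max |∑ j, θ j * u j + D| m := by
  fun_prop

theorem tpGain_int (R : Fin k → ℝ) {f : (Fin k → ℝ) → ℝ} (hf : Continuous f) :
    IntegrableOn f (Set.pi univ fun j => Icc (-R j) (R j)) :=
  hf.continuousOn.integrableOn_compact (isCompact_univ_pi fun _ => isCompact_Icc)

theorem tpGain_cvx (S D m : ℝ) {τ : ℝ} (hτ : 0 ≤ τ) :
    (1 + τ) * max |S + D| m ≤ τ * max |S + 0| m + max |S + (1 + τ) * D| m := by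
  have h1 : τ * |S + 0| ≤ τ * max |S + 0| m := mul_le_mul_of_nonneg_left (le_max_left _ _) hτ
  have h2 : τ * m ≤ τ * max |S + 0| m := mul_le_mul_of_nonneg_left (le_max_right _ _) hτ
  have h3 := le_max_left |S + (1 + τ) * D| m
  have h4 := le_max_right |S + (1 + τ) * D| m
  have h5 : (1 + τ) * |S + D| ≤ τ * |S + 0| + |S + (1 + τ) * D| := by
    rw [← abs_of_nonneg (show 0 ≤ 1 + τ by linarith), ← abs_mul, abs_of_nonneg
      (show 0 ≤ 1 + τ by linarith)]
    conv_rhs => rw [← abs_of_nonneg hτ, ← abs_mul, abs_of_nonneg hτ]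
    refine le_of_eq_of_le ?_ (abs_add_le _ _)
    congr 1
    ring
  rcases le_total |S + D| m with h | h
  · rw [max_eq_right h]
    linarith
  · rw [max_eq_left h]
    linarith

theorem tpGain_mid (S D m : ℝ) : 2 * max |S + 0| m ≤ max |S + D| m + max |S + -D| m := by
  simp only [abs_eq_max_neg, max_def]
  split_ifs <;> linarith

/-- Sketch: `I κ = ∫ u in box, max |S u + κ * D| m`, `S u = ∑ θ j * u j`. Pointwise convexity in `κ`
gives `τ * (I 1 - I 0) ≤ I (1 + τ) - I 1`; `u ↦ -u` gives `I (-1) = I 1`; the integrand of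
`I 1 + I (-1) - 2 * I 0` is continuous, nonnegative and positive at the interior point
`u j = m / B * (if 0 ≤ θ j then R j else -R j)`, `B = ∑ |θ j| * R j`, where `S u = m`. -/
theorem box_gain {θ R : Fin k → ℝ} (hR : ∀ j, 0 < R j) {m D : ℝ} (h0 : 0 ≤ m)
    (hm : m < ∑ j, |θ j| * R j) (hD : D ≠ 0) : ∃ η > 0, ∀ τ ≥ (0 : ℝ),
      (∫ u in Set.pi univ fun j => Icc (-R j) (R j), max |∑ j, θ j * u j + D| m) + τ * η ≤
        ∫ u in Set.pi univ fun j => Icc (-R j) (R j), max |∑ j, θ j * u j + (1 + τ) * D| m := by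
  set Q : Set (Fin k → ℝ) := Set.pi univ fun j => Icc (-R j) (R j) with hQ
  have hQm : MeasurableSet Q := MeasurableSet.univ_pi fun _ => measurableSet_Icc
  let f : ℝ → (Fin k → ℝ) → ℝ := fun E u => max |∑ j, θ j * u j + E| m
  have hf : ∀ E, IntegrableOn (f E) Q := fun E => tpGain_int R (tpGain_cont θ E m)
  have hneg : ∫ u in Q, f (-D) u = ∫ u in Q, f D u := by
    have h1 := (Measure.measurePreserving_neg (volume : Measure (Fin k → ℝ))).setIntegral_preimage_emb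
      (MeasurableEquiv.neg (Fin k → ℝ)).measurableEmbedding (f D) Q
    have h2 : (Neg.neg ⁻¹' Q : Set (Fin k → ℝ)) = Q := by
      ext u
      simp only [hQ, mem_preimage, Set.mem_pi, mem_univ, true_imp_iff, mem_Icc, Pi.neg_apply]
      exact forall_congr' fun j => ⟨fun h => ⟨by linarith [h.2], by linarith [h.1]⟩,
        fun h => ⟨by linarith [h.2], by linarith [h.1]⟩⟩
    rw [h2] at h1
    rw [← h1]
    refine setIntegral_congr_fun hQm fun u _ => ?_
    simp only [f, Pi.neg_apply, mul_neg, Finset.sum_neg_distrib]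
    rw [← abs_neg]
    congr 2
    ring
  let g : (Fin k → ℝ) → ℝ := fun u => f D u + f (-D) u - 2 * f 0 u
  have hg : Continuous g :=
    ((tpGain_cont θ D m).add (tpGain_cont θ (-D) m)).sub (continuous_const.mul (tpGain_cont θ 0 m))
  have hpos : 0 < ∫ u in Q, g u := by
    rw [setIntegral_pos_iff_support_of_nonneg_ae
      (Eventually.of_forall fun u => sub_nonneg.2 (tpGain_mid _ _ _)) (tpGain_int R hg)]
    set B := ∑ j, |θ j| * R j with hB
    have hB0 : 0 < B := h0.trans_lt hm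
    have hlt : m / B < 1 := (div_lt_one hB0).2 hm
    have hge : 0 ≤ m / B := div_nonneg h0 hB0.le
    let u₀ : Fin k → ℝ := fun j => m / B * (if 0 ≤ θ j then R j else -R j)
    have hS : ∑ j, θ j * u₀ j = m := by
      have : ∀ j, θ j * u₀ j = m / B * (|θ j| * R j) := fun j => by
        simp only [u₀]
        split_ifs with h
        · rw [abs_of_nonneg h]; ring
        · rw [abs_of_neg (not_le.1 h)]; ring
      simp only [this]
      rw [← Finset.mul_sum, ← hB, div_mul_cancel₀ _ hB0.ne']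
    have ho : IsOpen (Function.support g ∩ Set.pi univ fun j => Ioo (-R j) (R j)) :=
      hg.isOpen_support.inter (isOpen_set_pi finite_univ fun _ _ => isOpen_Ioo)
    refine (ho.measure_pos volume ⟨u₀, ?_, fun j _ => ?_⟩).trans_le (measure_mono
      (inter_subset_inter_right _ (pi_mono fun j _ => Ioo_subset_Icc_self)))
    · refine ne_of_gt ?_
      simp only [g, f, hS]
      rcases hD.lt_or_gt with h | h <;> simp only [abs_eq_max_neg, max_def] <;> split_ifs <;>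
        linarith
    · have h1 := hR j
      have h2 : m / B * R j < R j := by nlinarith
      have h3 : 0 ≤ m / B * R j := mul_nonneg hge h1.le
      simp only [u₀, mem_Ioo]
      split_ifs <;> constructor <;> linarith
  have e : ∫ u in Q, g u = 2 * ((∫ u in Q, f D u) - ∫ u in Q, f 0 u) := by
    simp only [g]
    have h1 : IntegrableOn (fun u => f D u + f (-D) u) Q := (hf D).add (hf (-D))
    rw [integral_sub h1 ((hf 0).const_mul 2), integral_add (hf D) (hf (-D)),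
      integral_const_mul, hneg]
    ring
  refine ⟨(∫ u in Q, f D u) - ∫ u in Q, f 0 u, by linarith, fun τ hτ => ?_⟩
  have h1 : ∫ u in Q, (1 + τ) * f D u ≤ ∫ u in Q, (τ * f 0 u + f ((1 + τ) * D) u) :=
    integral_mono ((hf D).const_mul _) (((hf 0).const_mul τ).add (hf _))
      fun u => tpGain_cvx _ _ _ hτ
  rw [integral_add ((hf 0).const_mul τ) (hf _), integral_const_mul, integral_const_mul] at h1
  show (∫ u in Q, f D u) + _ ≤ ∫ u in Q, f ((1 + τ) * D) u
  linarith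

theorem tpGain_vol (b : Basis (Fin (k + 1)) ℝ (V (k + 1))) (C R : Fin k → ℝ)
    {y₁ y₂ : V (k + 1)} {c₁ c₂ r₁ r₂ p₁ p₂ D : ℝ} {θ₁ θ₂ : Fin k → ℝ}
    (e₁ : y₁ = p₁ • b 0 + ∑ j, θ₁ j • b j.succ) (e₂ : y₂ = p₂ • b 0 + ∑ j, θ₂ j • b j.succ)
    (h₁ : p₁ ≠ 0) (h₂ : p₂ ≠ 0)
    (eD : D = p₂ * (c₁ - ∑ j, θ₁ j * C j) - p₁ * (c₂ - ∑ j, θ₂ j * C j)) (hb : dt b ≠ 0) (κ : ℝ) :
    ENNReal.ofReal |dt b| * sv (fun j => b j.succ) C R y₁ y₂ c₁ c₂ r₁ r₂ κ =
      ∫⁻ u in Set.pi univ fun j => Icc (-R j) (R j), ENNReal.ofReal ((|p₂| * r₁ + |p₁| * r₂ -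
        max |∑ j, (p₂ * θ₁ j - p₁ * θ₂ j) * u j + κ * D| |(|p₂| * r₁ - |p₁| * r₂)|) / |p₁ * p₂|) := by
  let T : Set (Fin (k + 1) → ℝ) := {z | (∀ j : Fin k, |z j.succ + κ * C j| ≤ R j) ∧
    |p₁ * z 0 + (∑ j, θ₁ j * z j.succ + κ * c₁)| ≤ r₁ ∧
      |p₂ * z 0 + (∑ j, θ₂ j * z j.succ + κ * c₂)| ≤ r₂}
  have hT : MeasurableSet T := by
    refine IsClosed.measurableSet ?_
    simp only [T, Set.ofPred_and, Set.ofPred_forall]
    exact (isClosed_iInter fun j => isClosed_le (by fun_prop) continuous_const).inter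
      ((isClosed_le (by fun_prop) continuous_const).inter
        (isClosed_le (by fun_prop) continuous_const))
  have hF : Measurable (T.indicator (1 : (Fin (k + 1) → ℝ) → ℝ≥0∞)) := measurable_one.indicator hT
  have hφ : Measurable fun w : V (k + 1) => fun j => ⟪w, b j⟫ :=
    (continuous_pi fun j => by fun_prop).measurable
  have h1 : sv (fun j => b j.succ) C R y₁ y₂ c₁ c₂ r₁ r₂ κ =
      ∫⁻ w : V (k + 1), T.indicator 1 fun j => ⟪w, b j⟫ := by
    have h2 : sv (fun j => b j.succ) C R y₁ y₂ c₁ c₂ r₁ r₂ κ =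
        volume ((fun w : V (k + 1) => fun j => ⟪w, b j⟫) ⁻¹' T) := by
      unfold sv
      congr 1
      ext w
      simp only [T, mem_preimage, Set.mem_ofPred_eq, e₁, e₂, inner_add_left, sum_inner,
        real_inner_smul_left, real_inner_comm w, add_assoc]
    rw [h2, ← lintegral_indicator_one (hφ hT)]
    rfl
  rw [h1, ← lintegral_forms hb hF, lintegral_cons hF,
    ← lintegral_indicator (MeasurableSet.univ_pi fun _ => measurableSet_Icc), eq_comm,
    ← lintegral_add_right_eq_self _ (fun j => κ * C j)]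
  refine lintegral_congr fun y => ?_
  by_cases hy : ∀ j, |y j + κ * C j| ≤ R j
  · rw [indicator_of_mem (show y + (fun j => κ * C j) ∈ Set.pi univ fun j => Icc (-R j) (R j) from
      fun j _ => abs_le.1 (hy j))]
    have e : ∑ j, (p₂ * θ₁ j - p₁ * θ₂ j) * (y + fun j => κ * C j) j + κ * D =
        p₂ * (∑ j, θ₁ j * y j + κ * c₁) - p₁ * (∑ j, θ₂ j * y j + κ * c₂) := by
      have : ∀ j, (p₂ * θ₁ j - p₁ * θ₂ j) * (y + fun j => κ * C j) j =
          p₂ * (θ₁ j * y j) - p₁ * (θ₂ j * y j) + κ * p₂ * (θ₁ j * C j) -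
            κ * p₁ * (θ₂ j * C j) := fun j => by
        simp only [Pi.add_apply]
        ring
      simp only [this, Finset.sum_sub_distrib, Finset.sum_add_distrib, ← Finset.mul_sum, eD]
      ring
    have hM : MeasurableSet {s : ℝ | |p₁ * s + (∑ j, θ₁ j * y j + κ * c₁)| ≤ r₁ ∧
        |p₂ * s + (∑ j, θ₂ j * y j + κ * c₂)| ≤ r₂} := by
      refine IsClosed.measurableSet ?_
      rw [Set.ofPred_and]
      exact (isClosed_le (by fun_prop) continuous_const).inter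
        (isClosed_le (by fun_prop) continuous_const)
    rw [e, ← len_two h₁ h₂, ← lintegral_indicator_one hM]
    refine lintegral_congr fun t => ?_
    simp only [indicator, T, Set.mem_ofPred_eq, Fin.cons_succ, Fin.cons_zero, hy, implies_true,
      true_and, Pi.one_apply]
  · rw [indicator_of_notMem (show y + (fun j => κ * C j) ∉ Set.pi univ fun j => Icc (-R j) (R j)
      from fun h => hy fun j => abs_le.2 (h j trivial)), eq_comm]
    refine (lintegral_congr fun t => ?_).trans lintegral_zero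
    exact indicator_of_notMem (fun h => hy h.1) _

/-- Sketch: `lintegral_forms` (Graph.lean; `dt b ≠ 0` by `dt_eq`, `Basis.isUnit_det`),
`lintegral_cons` (OneDim.lean), the shift `u ↦ u - κ • C`, `len_two`: `ofReal |dt b| * sv κ` is the
integral over the box of `ofReal ((β - max |S u + κ * D| m) / |p₁ * p₂|)`, and the real number is
nonnegative on the box as long as `B + κ * |D| ≤ β`; `box_gain`. -/
theorem gain_of (b : Basis (Fin (k + 1)) ℝ (V (k + 1))) (C : Fin k → ℝ) {R : Fin k → ℝ}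
    (hR : ∀ j, 0 < R j) {y₁ y₂ : V (k + 1)} {c₁ c₂ r₁ r₂ p₁ p₂ D : ℝ} {θ₁ θ₂ : Fin k → ℝ}
    (e₁ : y₁ = p₁ • b 0 + ∑ j, θ₁ j • b j.succ) (e₂ : y₂ = p₂ • b 0 + ∑ j, θ₂ j • b j.succ)
    (h₁ : p₁ ≠ 0) (h₂ : p₂ ≠ 0)
    (eD : D = p₂ * (c₁ - ∑ j, θ₁ j * C j) - p₁ * (c₂ - ∑ j, θ₂ j * C j))
    (hm : |(|p₂| * r₁ - |p₁| * r₂)| < ∑ j, |p₂ * θ₁ j - p₁ * θ₂ j| * R j)
    (hl : ∑ j, |p₂ * θ₁ j - p₁ * θ₂ j| * R j + |D| < |p₂| * r₁ + |p₁| * r₂) (hD : D ≠ 0) :
    Gain (sv (fun j => b j.succ) C R y₁ y₂ c₁ c₂ r₁ r₂) := by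
  have hb : dt b ≠ 0 := by
    rw [dt_eq]
    exact (Basis.isUnit_det _ b).ne_zero
  have hd : 0 < |dt b| := abs_pos.2 hb
  have hq : 0 < |p₁ * p₂| := abs_pos.2 (mul_ne_zero h₁ h₂)
  have hD' : 0 < |D| := abs_pos.2 hD
  obtain ⟨η, hη, hg⟩ := box_gain hR (abs_nonneg _) hm hD
  set θ : Fin k → ℝ := fun j => p₂ * θ₁ j - p₁ * θ₂ j with hθ
  set β := |p₂| * r₁ + |p₁| * r₂ with hβ
  set m := |(|p₂| * r₁ - |p₁| * r₂)| with hm'
  set B := ∑ j, |θ j| * R j with hB
  set Q : Set (Fin k → ℝ) := Set.pi univ fun j => Icc (-R j) (R j) with hQ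
  have hQm : MeasurableSet Q := MeasurableSet.univ_pi fun _ => measurableSet_Icc
  have hnn : ∀ E, B + |E| ≤ β → ∀ u ∈ Q, 0 ≤ (β - max |∑ j, θ j * u j + E| m) / |p₁ * p₂| := by
    intro E hE u hu
    have h1 : |∑ j, θ j * u j| ≤ B := (Finset.abs_sum_le_sum_abs _ _).trans
      (Finset.sum_le_sum fun j _ => by
        rw [abs_mul]
        exact mul_le_mul_of_nonneg_left (abs_le.2 (hu j trivial)) (abs_nonneg _))
    have h2 := abs_add_le (∑ j, θ j * u j) E
    have h3 := abs_nonneg E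
    exact div_nonneg (sub_nonneg.2 (max_le (by linarith) (by linarith))) hq.le
  have key : ∀ κ, B + |κ * D| ≤ β →
      ENNReal.ofReal |dt b| * sv (fun j => b j.succ) C R y₁ y₂ c₁ c₂ r₁ r₂ κ = ENNReal.ofReal
        (((∫ _ in Q, β) - ∫ u in Q, max |∑ j, θ j * u j + κ * D| m) / |p₁ * p₂|) ∧
      0 ≤ ((∫ _ in Q, β) - ∫ u in Q, max |∑ j, θ j * u j + κ * D| m) / |p₁ * p₂| := by
    intro κ hκ
    rw [← integral_sub (tpGain_int R continuous_const) (tpGain_int R (tpGain_cont θ _ m)),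
      ← integral_div]
    refine ⟨?_, setIntegral_nonneg hQm (hnn _ hκ)⟩
    exact (tpGain_vol b C R e₁ e₂ h₁ h₂ eD hb κ).trans (ofReal_integral_eq_lintegral_ofReal
      (tpGain_int R ((continuous_const.sub (tpGain_cont θ _ m)).div_const _))
      ((ae_restrict_iff' hQm).2 (Eventually.of_forall (hnn _ hκ)))).symm
  refine ⟨η / (|p₁ * p₂| * |dt b|), by positivity, ?_⟩
  filter_upwards [Ioo_mem_nhdsGT (show (0 : ℝ) < (β - B - |D|) / |D| from
    div_pos (by linarith) hD')] with τ hτ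
  have h1 : B + |(1 + τ) * D| ≤ β := by
    have h2 := (lt_div_iff₀ hD').1 hτ.2
    rw [abs_mul, abs_of_nonneg (by linarith [hτ.1] : 0 ≤ 1 + τ)]
    linarith
  obtain ⟨k₁, k₂⟩ := key _ h1
  obtain ⟨k₃, -⟩ := key 1 (by rw [one_mul]; exact hl.le)
  have h3 := hg τ hτ.1.le
  rw [← ENNReal.mul_le_mul_iff_right (ENNReal.ofReal_pos.2 hd).ne' ENNReal.ofReal_ne_top, mul_add,
    k₁, k₃, ← ENNReal.ofReal_mul hd.le, ← ENNReal.ofReal_add k₂
      (by have := hτ.1; positivity), one_mul]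
  refine ENNReal.ofReal_le_ofReal ?_
  have e : |dt b| * (τ * (η / (|p₁ * p₂| * |dt b|))) = τ * η / |p₁ * p₂| := by
    field_simp
  rw [e, ← add_div]
  exact div_le_div_of_nonneg_right (by linarith) hq.le

end Pool.Agent.Lib.MP_0a1ca9_gt.Cd
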