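import Pool.Agent.Lib.MP_0a1ca9_gt.TpDef

/-! The order `n - 1`: almost every tuple of strips has vanishing first variation. -/

open MeasureTheory Set Filter Topology
open scoped ENNReal RealInnerProductSpace

namespace Pool.Agent.Lib.MP_0a1ca9_gt.Cd

variable {k : ℕ}

theorem tpVol_mon (p n : ℕ) {a : ℝ} (ha : 0 ≤ a) : Mon p fun m => a * (m.choose n : ℝ) := by
  induction p generalizing n a with
  | zero => exact fun m => by positivity
  | succ p ih =>
    cases n with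
    | zero =>
      have h := ih 0 le_rfl
      simp only [Nat.choose_zero_right, zero_mul] at h
      simpa only [Mon, Nat.choose_zero_right, sub_self] using h
    | succ n =>
      have h := ih n ha
      simpa only [Mon, Nat.choose_succ_succ', Nat.cast_add, mul_add, add_sub_cancel_right] using h

theorem tpVol_ms {d : ℕ} {J : Type*} [Fintype J] (y : J → V d) (c r : J → ℝ) :
    MeasurableSet {w : V d | ∀ j, |⟪y j, w⟫ + c j| ≤ r j} := by
  rw [ofPred_forall]
  exact MeasurableSet.iInter fun j => measurableSet_le (by fun_prop) measurable_const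

theorem tpVol_gauss {d : ℕ} {J : Type*} [Fintype J] (y : J → V d) (c r : J → ℝ) {l : ℝ}
    (hl : 0 < l) : ∫⁻ w : V d, ENNReal.ofReal (Real.exp (-(l * ‖w‖ ^ 2))) *
      {w : V d | ∀ j, |⟪y j, w⟫ + c j| ≤ r j}.indicator 1 w =
      ENNReal.ofReal (∫ w : V d, Real.exp (-(l * ‖w‖ ^ 2)) * (1 * (((Finset.univ.filter fun j =>
        (⟪y j, w⟫ + c j) ^ 2 ≤ r j * |r j|).card.choose (Fintype.card J) : ℕ) : ℝ))) := by
  have e : ∀ w : V d, Real.exp (-(l * ‖w‖ ^ 2)) * (1 * (((Finset.univ.filter fun j =>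
      (⟪y j, w⟫ + c j) ^ 2 ≤ r j * |r j|).card.choose (Fintype.card J) : ℕ) : ℝ)) =
      {w : V d | ∀ j, |⟪y j, w⟫ + c j| ≤ r j}.indicator
        (fun w => Real.exp (-(l * ‖w‖ ^ 2))) w := by
    intro w
    by_cases h : w ∈ {w : V d | ∀ j, |⟪y j, w⟫ + c j| ≤ r j}
    · rw [indicator_of_mem h, Finset.filter_true_of_mem fun j _ => (cdPow_abs _ _).2 (h j),
        Finset.card_univ, Nat.choose_self]
      simp
    · rw [indicator_of_notMem h, ← Finset.card_univ, Nat.choose_eq_zero_of_lt (Finset.card_lt_card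
        (Finset.filter_ssubset.2 ?_))]
      · simp
      · obtain ⟨j, hj⟩ := not_forall.1 h
        exact ⟨j, Finset.mem_univ j, fun h1 => hj ((cdPow_abs _ _).1 h1)⟩
  simp_rw [e]
  rw [ofReal_integral_eq_lintegral_ofReal ((integrable_gauss d hl).indicator (tpVol_ms y c r))
    (ae_of_all _ fun w => indicator_nonneg (fun w _ => (Real.exp_pos _).le) w)]
  refine lintegral_congr fun w => ?_
  by_cases h : w ∈ {w : V d | ∀ j, |⟪y j, w⟫ + c j| ≤ r j}
  · rw [indicator_of_mem h, indicator_of_mem h, Pi.one_apply, mul_one]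
  · rw [indicator_of_notMem h, indicator_of_notMem h, mul_zero, ENNReal.ofReal_zero]

/-- Sketch: `count_anti` with `F m = m.choose (Fintype.card J)` (all differences are binomial
coefficients, `Nat.choose_succ_succ`), `R j = r j * |r j|` (`cdPow_abs`); `F` of the count is the
indicator of the set; `gauss_sup` (CdSym.lean) removes the Gaussian weight. -/
theorem vol_anti {d : ℕ} {J : Type*} [Fintype J] (y : J → V d) (c r : J → ℝ) {κ : ℝ} (h0 : 0 ≤ κ)
    (h1 : κ ≤ 1) : volume {w : V d | ∀ j, |⟪y j, w⟫ + c j| ≤ r j} ≤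
      volume {w : V d | ∀ j, |⟪y j, w⟫ + κ * c j| ≤ r j} := by
  have h2 := tpVol_ms y c r
  have h3 := tpVol_ms y (fun j => κ * c j) r
  rw [← lintegral_indicator_one h2, ← lintegral_indicator_one h3,
    gauss_sup (measurable_one.indicator h2), gauss_sup (measurable_one.indicator h3)]
  refine iSup_mono fun n => ?_
  have hl : (0 : ℝ) < 1 / (n + 1 : ℝ) := by positivity
  rw [tpVol_gauss y c r hl, tpVol_gauss y (fun j => κ * c j) r hl]
  exact ENNReal.ofReal_le_ofReal (count_anti y c (fun j => r j * |r j|) hl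
    (fun p _ _ => tpVol_mon p (Fintype.card J) zero_le_one) h0 h1)

/-- Sketch: `vol_anti` for `J = Fin k ⊕ Bool`, `κ = (1 + τ)⁻¹`. -/
theorem sv_anti (Y : Fin k → V (k + 1)) (C R : Fin k → ℝ) (y₁ y₂ : V (k + 1)) (c₁ c₂ r₁ r₂ : ℝ)
    {τ : ℝ} (hτ : 0 ≤ τ) : sv Y C R y₁ y₂ c₁ c₂ r₁ r₂ (1 + τ) ≤ sv Y C R y₁ y₂ c₁ c₂ r₁ r₂ 1 := by
  have h := vol_anti (J := Fin k ⊕ Bool) (Sum.elim Y fun b => bif b then y₂ else y₁)
    (fun j => (1 + τ) * Sum.elim C (fun b => bif b then c₂ else c₁) j)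
    (Sum.elim R fun b => bif b then r₂ else r₁) (κ := (1 + τ)⁻¹) (by positivity)
    (inv_le_one_of_one_le₀ (by linarith))
  simpa only [sv, Sum.forall, Bool.forall_bool, Sum.elim_inl, Sum.elim_inr, cond_true, cond_false,
    inv_mul_cancel_left₀ (show (1 + τ) ≠ 0 by positivity), one_mul] using h

theorem tpVol_FF {Ω : Type*} [MeasurableSpace Ω] (μ : Measure Ω) [SigmaFinite μ]
    {y : Ω → V (k + 1)} {c r : Ω → ℝ} (hy : Measurable y) (hc : Measurable c) (hr : Measurable r)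
    (τ : ℝ) : (Measurable fun p : (Fin k → Ω) × Ω × Ω => sv (fun j => y (p.1 j))
      (fun j => c (p.1 j)) (fun j => r (p.1 j)) (y p.2.1) (y p.2.2) (c p.2.1) (c p.2.2) (r p.2.1)
      (r p.2.2) (1 + τ)) ∧ ∫⁻ p : (Fin k → Ω) × Ω × Ω, sv (fun j => y (p.1 j))
      (fun j => c (p.1 j)) (fun j => r (p.1 j)) (y p.2.1) (y p.2.2) (c p.2.1) (c p.2.2) (r p.2.1)
      (r p.2.2) (1 + τ) ∂(Measure.pi fun _ : Fin k => μ).prod (μ.prod μ) = FF μ y c r τ := by
  have hT : MeasurableSet {q : ((Fin k → Ω) × Ω × Ω) × V (k + 1) |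
      (∀ j, |⟪y (q.1.1 j), q.2⟫ + (1 + τ) * c (q.1.1 j)| ≤ r (q.1.1 j)) ∧
      |⟪y q.1.2.1, q.2⟫ + (1 + τ) * c q.1.2.1| ≤ r q.1.2.1 ∧
      |⟪y q.1.2.2, q.2⟫ + (1 + τ) * c q.1.2.2| ≤ r q.1.2.2} := by
    rw [ofPred_and, ofPred_and, ofPred_forall]
    refine (MeasurableSet.iInter fun j => ?_).inter (MeasurableSet.inter ?_ ?_) <;>
      exact measurableSet_le (by fun_prop) (by fun_prop)
  refine ⟨measurable_measure_prodMk_left hT, (Measure.prod_apply hT).symm.trans ?_⟩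
  rw [Measure.prod_apply_symm hT]
  refine lintegral_congr fun w => ?_
  set S := {ω | |⟪y ω, w⟫ + (1 + τ) * c ω| ≤ r ω}
  refine (congrArg _ (?_ : _ = (univ.pi fun _ => S) ×ˢ S ×ˢ S)).trans ?_
  · ext p
    simp [S]
  · rw [Measure.prod_prod, Measure.prod_prod, Measure.pi_pi, Finset.prod_const, Finset.card_univ,
      Fintype.card_fin, pow_add, sq]

/-- Sketch: with `ν = (pi μ).prod (μ.prod μ)`, `FF τ = ∫⁻ sv (1 + τ) dν` (`Measure.prod_prod`,
`Measure.pi_pi`, Tonelli). `f m = m * (sv 1 - sv (1 + 1 / m))` has `∫⁻ f m ≤ ε` for large `m`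
(`lintegral_sub`, `sv_anti`); `lintegral_liminf_le` gives `liminf f m = 0` a.e.; `sv 1 < ∞` a.e.;
`Gain` gives `ofReal η ≤ f m` eventually. `Measure.ae_ae_of_ae_prod` twice. -/
theorem ae_flat {Ω : Type*} [MeasurableSpace Ω] (μ : Measure Ω) [SigmaFinite μ]
    {y : Ω → V (k + 1)} {c r : Ω → ℝ} (hy : Measurable y) (hc : Measurable c) (hr : Measurable r)
    (hfin : FF μ y c r 0 ≠ ∞)
    (h : ∀ ε > 0, ∀ᶠ τ in 𝓝[>] (0 : ℝ), FF μ y c r 0 ≤ FF μ y c r τ + ENNReal.ofReal (τ * ε)) :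
    Flat μ y c r := by
  let A : ℝ → (Fin k → Ω) × Ω × Ω → ℝ≥0∞ := fun κ p => sv (fun j => y (p.1 j))
    (fun j => c (p.1 j)) (fun j => r (p.1 j)) (y p.2.1) (y p.2.2) (c p.2.1) (c p.2.2) (r p.2.1)
    (r p.2.2) κ
  let ν := (Measure.pi fun _ : Fin k => μ).prod (μ.prod μ)
  have hA : ∀ τ, Measurable (A (1 + τ)) ∧ ∫⁻ p, A (1 + τ) p ∂ν = FF μ y c r τ :=
    tpVol_FF μ hy hc hr
  have hA0 := hA 0
  rw [add_zero] at hA0
  have ht : Tendsto (fun m : ℕ => 1 / (m + 1 : ℝ)) atTop (𝓝[>] 0) :=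
    tendsto_nhdsWithin_iff.2 ⟨tendsto_one_div_add_atTop_nhds_zero_nat,
      Eventually.of_forall fun m => mem_Ioi.2 Nat.one_div_pos_of_nat⟩
  have hc : ∀ (m : ℕ) (ε : ℝ), ENNReal.ofReal (m + 1) * ENNReal.ofReal (1 / (m + 1 : ℝ) * ε) =
      ENNReal.ofReal ε := fun m ε => by
    rw [← ENNReal.ofReal_mul (by positivity), ← mul_assoc, mul_one_div_cancel (by positivity),
      one_mul]
  let f : ℕ → (Fin k → Ω) × Ω × Ω → ℝ≥0∞ := fun m p =>
    ENNReal.ofReal (m + 1) * (A 1 p - A (1 + 1 / (m + 1 : ℝ)) p)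
  have hf : ∀ m, Measurable (f m) := fun m => (hA0.1.sub (hA _).1).const_mul _
  have h1 : ∫⁻ p, liminf (fun m => f m p) atTop ∂ν = 0 := by
    refine le_antisymm ((lintegral_liminf_le hf).trans (ENNReal.le_of_forall_pos_le_add
      fun ε hε _ => ?_)) bot_le
    rw [zero_add, ← ENNReal.ofReal_coe_nnreal]
    refine liminf_le_of_frequently_le' (Eventually.frequently ?_)
    filter_upwards [ht.eventually (h ε hε)] with m hm
    have h2 : ∀ p, A (1 + 1 / (m + 1 : ℝ)) p ≤ A 1 p := fun p =>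
      sv_anti _ _ _ _ _ _ _ _ _ (by positivity)
    simp only [f]
    rw [lintegral_const_mul' _ _ ENNReal.ofReal_ne_top, lintegral_sub (hA _).1
      (ne_top_of_le_ne_top (hA0.2 ▸ hfin) (lintegral_mono h2)) (ae_of_all _ h2), hA0.2, (hA _).2,
      ← hc m ε]
    exact mul_le_mul_right (tsub_le_iff_left.2 hm) _
  have h3 : ∀ᵐ p ∂ν, ¬Gain fun κ => A κ p := by
    filter_upwards [(lintegral_eq_zero_iff (Measurable.liminf hf)).1 h1,
      ae_lt_top hA0.1 (hA0.2 ▸ hfin)] with p hp hp'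
    rintro ⟨η, hη, h4⟩
    refine not_le.2 (ENNReal.ofReal_pos.2 hη) ((le_liminf_of_le (by isBoundedDefault) ?_).trans hp.le)
    filter_upwards [ht.eventually h4] with m hm
    rw [← hc m η]
    exact mul_le_mul_right (ENNReal.le_sub_of_add_le_left
      (ne_top_of_le_ne_top hp'.ne (le_self_add.trans hm)) hm) _
  filter_upwards [Measure.ae_ae_of_ae_prod h3] with X hX
  exact Measure.ae_ae_of_ae_prod hX

end Pool.Agent.Lib.MP_0a1ca9_gt.Cd
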